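import Pool.Agent.Lib.MP_5e4520_nt.Defs

set_option autoImplicit false

namespace MP_5e4520_nt

open Finset

theorem ee_zero : ee 0 = 1 := by simp [ee]

theorem ee_add (s t : ℝ) : ee (s + t) = ee s * ee t := by
  simp only [ee, ← Complex.exp_add]; congr 1; push_cast; ring

theorem ee_neg (t : ℝ) : ee (-t) = (starRingEnd ℂ) (ee t) := by
  unfold ee
  rw [← Complex.exp_conj]
  congr 1
  simp only [map_mul, Complex.conj_I, Complex.conj_ofReal, map_ofNat]
  push_cast
  ring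

theorem norm_ee (t : ℝ) : ‖ee t‖ = 1 := by
  unfold ee
  have h : (2 * (Real.pi : ℂ) * t * Complex.I) = ((2 * Real.pi * t : ℝ) : ℂ) * Complex.I := by
    push_cast
    ring
  rw [h, Complex.norm_exp_ofReal_mul_I]

theorem ee_int (z : ℤ) : ee (z : ℝ) = 1 := by
  unfold ee
  rw [Complex.exp_eq_one_iff]
  refine ⟨z, ?_⟩
  push_cast
  ring

theorem ee_add_int (t : ℝ) (z : ℤ) : ee (t + z) = ee t := by
  rw [ee_add, ee_int, mul_one]

theorem ee_nat_mul (n : ℕ) (t : ℝ) : ee (n * t) = ee t ^ n := by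
  unfold ee
  rw [← Complex.exp_nat_mul]
  congr 1
  push_cast
  ring

/-- orthogonality on `Z/Q` -/
theorem ee_orth (Q : ℕ) (hQ : 0 < Q) (x : ℤ) :
    ∑ h ∈ range Q, ee ((h : ℝ) * x / Q) = if (Q : ℤ) ∣ x then (Q : ℂ) else 0 := by
  have hQ' : (Q : ℝ) ≠ 0 := by positivity
  have h1 : ∀ h ∈ range Q, ee ((h : ℝ) * x / Q) = ee ((x : ℝ) / Q) ^ h := by
    intro h _
    rw [← ee_nat_mul, mul_div_assoc]
  rw [sum_congr rfl h1]
  split_ifs with hd
  · obtain ⟨k, rfl⟩ := hd
    have h2 : (((Q : ℤ) * k : ℤ) : ℝ) / Q = (k : ℝ) := by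
      push_cast
      field_simp
    rw [h2, ee_int]
    simp
  · have h2 : ee ((x : ℝ) / Q) ≠ 1 := by
      intro h
      apply hd
      unfold ee at h
      rw [Complex.exp_eq_one_iff] at h
      obtain ⟨n, hn⟩ := h
      have h3 : (2 * (Real.pi : ℂ) * Complex.I) ≠ 0 := Complex.two_pi_I_ne_zero
      have h4 : (2 * (Real.pi : ℂ) * Complex.I) * ((x : ℂ) / Q) = (2 * (Real.pi : ℂ) * Complex.I) * n := by
        push_cast at hn
        linear_combination hn
      have h5 := mul_left_cancel₀ h3 h4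
      have hQc : (Q : ℂ) ≠ 0 := by exact_mod_cast hQ.ne'
      rw [div_eq_iff hQc] at h5
      refine ⟨n, ?_⟩
      have h6 : ((x : ℤ) : ℂ) = ((n * Q : ℤ) : ℂ) := by
        rw [h5]
        push_cast
        rfl
      have h7 : x = n * Q := by exact_mod_cast h6
      rw [h7, mul_comm]
    rw [geom_sum_eq h2, ← ee_nat_mul, mul_div_cancel₀ _ hQ', ee_int, sub_self, zero_div]

end MP_5e4520_nt
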