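import Pool.Agent.Lib.MP_5e4520_nt.Defs

set_option autoImplicit false

namespace MP_5e4520_nt

open Finset

theorem nd_nonneg (t : ℝ) : 0 ≤ nd t := abs_nonneg _

theorem nd_le_half (t : ℝ) : nd t ≤ 1 / 2 := abs_sub_round t

/-- `nd t` is the minimum of `|t - z|` -/
theorem nd_le (t : ℝ) (z : ℤ) : nd t ≤ |t - z| := round_le t z

theorem nd_exists (t : ℝ) : ∃ z : ℤ, |t - z| = nd t := ⟨round t, rfl⟩

theorem nd_neg (t : ℝ) : nd (-t) = nd t := by
  have h1 : ∀ s : ℝ, nd (-s) ≤ nd s := by
    intro s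
    have h := nd_le (-s) (-round s)
    have e : -s - ((-round s : ℤ) : ℝ) = -(s - round s) := by
      push_cast
      ring
    rw [e, abs_neg] at h
    exact h
  apply le_antisymm (h1 t)
  have h := h1 (-t)
  rwa [neg_neg] at h

theorem nd_add_int (t : ℝ) (z : ℤ) : nd (t + z) = nd t := by
  unfold nd
  rw [round_add_intCast]
  push_cast
  congr 1
  ring

theorem nd_add_le (s t : ℝ) : nd (s + t) ≤ nd s + nd t := by
  have h := nd_le (s + t) (round s + round t)
  refine h.trans ?_
  have e : s + t - ((round s + round t : ℤ) : ℝ) = (s - round s) + (t - round t) := by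
    push_cast
    ring
  rw [e]
  exact abs_add_le _ _

theorem nd_nat_mul_le (n : ℕ) (t : ℝ) : nd (n * t) ≤ n * nd t := by
  have h := nd_le (n * t) (n * round t)
  refine h.trans ?_
  have e : (n : ℝ) * t - ((n * round t : ℤ) : ℝ) = n * (t - round t) := by
    push_cast
    ring
  rw [e, abs_mul, Nat.abs_cast]
  rfl

/-- if `|t - z| < 1/2` (or `≤ 1/2`) then `nd t = |t - z|` -/
theorem nd_eq_of (t : ℝ) (z : ℤ) (h : |t - z| ≤ 1 / 2) : nd t = |t - z| := by
  apply le_antisymm (nd_le t z)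
  by_cases hz : z = round t
  · rw [hz]
    rfl
  · have h1 : (1 : ℝ) ≤ |((z - round t : ℤ) : ℝ)| := by
      rw [← Int.cast_abs]
      have h2 : 1 ≤ |z - round t| := Int.one_le_abs (sub_ne_zero.2 hz)
      exact_mod_cast h2
    have h3 : ((z - round t : ℤ) : ℝ) = (t - round t) - (t - z) := by
      push_cast
      ring
    rw [h3] at h1
    have h4 := abs_sub (t - round t) (t - z)
    unfold nd
    linarith

theorem basb_cnt0 (Q : ℕ) (hQ : 0 < Q) (X : ℝ) (hX : 0 ≤ X) :
    (((range Q).filter (fun a : ℕ => nd ((a : ℝ) / Q) ≤ X)).card : ℝ) ≤ 2 * X * Q + 1 := by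
  have hQ' : (0 : ℝ) < Q := by exact_mod_cast hQ
  set Y : ℕ := ⌊X * Q⌋₊ with hY
  have hY0 : (Y : ℝ) ≤ X * Q := Nat.floor_le (by positivity)
  have hsub : (range Q).filter (fun a : ℕ => nd ((a : ℝ) / Q) ≤ X) ⊆
      range (Y + 1) ∪ Ico (Q - Y) Q := by
    intro a ha
    rw [mem_filter, mem_range] at ha
    obtain ⟨ha, hn⟩ := ha
    rw [mem_union, mem_range, mem_Ico]
    set z : ℤ := round ((a : ℝ) / Q) with hz
    have h3 : |(a : ℝ) - z * Q| ≤ X * Q := by
      have e : (a : ℝ) - z * Q = ((a : ℝ) / Q - z) * Q := by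
        field_simp
      rw [e, abs_mul, abs_of_pos hQ']
      exact mul_le_mul_of_nonneg_right hn hQ'.le
    have h4 : (|(a : ℤ) - z * Q|).toNat ≤ Y := by
      rw [hY]
      apply Nat.le_floor
      have h5 : (((|(a : ℤ) - z * Q|).toNat : ℕ) : ℝ) = |(a : ℝ) - z * Q| := by
        have h6 : (((|(a : ℤ) - z * Q|).toNat : ℕ) : ℤ) = |(a : ℤ) - z * Q| :=
          Int.toNat_of_nonneg (abs_nonneg _)
        have h7 : ((((|(a : ℤ) - z * Q|).toNat : ℕ) : ℤ) : ℝ) = ((|(a : ℤ) - z * Q| : ℤ) : ℝ) := by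
          rw [h6]
        push_cast at h7
        exact_mod_cast h7
      rw [h5]
      exact h3
    have h8 : |(a : ℤ) - z * Q| ≤ Y := by omega
    rw [abs_le] at h8
    rcases le_or_gt z 0 with hz0 | hz0
    · left
      have h5 : z * Q ≤ 0 := mul_nonpos_of_nonpos_of_nonneg hz0 (by positivity)
      have h6 : (a : ℤ) ≤ Y := by linarith [h8.2]
      omega
    · right
      refine ⟨?_, ha⟩
      have h5 : (Q : ℤ) ≤ z * Q := by
        have : (1 : ℤ) * Q ≤ z * Q := mul_le_mul_of_nonneg_right (by omega) (by positivity)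
        linarith
      have h6 : (Q : ℤ) ≤ a + Y := by linarith [h8.1]
      omega
  have hcard := card_le_card hsub
  have h7 : (range (Y + 1) ∪ Ico (Q - Y) Q).card ≤ (Y + 1) + Y := by
    refine (card_union_le _ _).trans ?_
    rw [card_range, Nat.card_Ico]
    exact Nat.add_le_add_left tsub_tsub_le _
  have h8 : (((range Q).filter (fun a : ℕ => nd ((a : ℝ) / Q) ≤ X)).card : ℝ) ≤
      ((Y + 1) + Y : ℕ) := by
    exact_mod_cast hcard.trans h7
  push_cast at h8
  linarith

open Classical in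
/-- Let `g = gcd(d,Q)`.  `d α mod Q` runs `g` times through the multiples of `g`; the number of
multiples of `g` in `[-XQ, XQ]` is at most `2XQ/g + 1`.  Hence the count is `≤ 2XQ + g`. -/
theorem cnt (d Q : ℕ) (hd : 0 < d) (hQ : 0 < Q) (X : ℝ) (hX : 0 ≤ X) :
    (((range Q).filter (fun a : ℕ => nd ((d : ℝ) * a / Q) ≤ X)).card : ℝ) ≤
      2 * X * Q + Nat.gcd d Q := by
  set g : ℕ := Nat.gcd d Q with hg
  have hg0 : 0 < g := Nat.gcd_pos_of_pos_left _ hd
  obtain ⟨d', Q', hcop, hd', hQ'⟩ : ∃ d' Q', Nat.Coprime d' Q' ∧ d = d' * g ∧ Q = Q' * g := by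
    obtain ⟨d', Q', h1, h2, h3⟩ := Nat.exists_coprime d Q
    exact ⟨d', Q', h1, h2, h3⟩
  have hQ'0 : 0 < Q' := by
    rcases Nat.eq_zero_or_pos Q' with h | h
    · rw [hQ', h] at hQ
      simp at hQ
    · exact h
  have hgR : (g : ℝ) ≠ 0 := by positivity
  have hQR : (Q' : ℝ) ≠ 0 := by positivity
  have key : ((range Q).filter (fun a : ℕ => nd ((d : ℝ) * a / Q) ≤ X)).card ≤
      (range g ×ˢ (range Q').filter (fun a : ℕ => nd ((a : ℝ) / Q') ≤ X)).card := by
    apply card_le_card_of_injOn (fun a => (a / Q', (d' * a) % Q'))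
    · intro a ha
      rw [mem_coe, mem_filter, mem_range] at ha
      obtain ⟨ha, hn⟩ := ha
      rw [mem_coe, mem_product, mem_range, mem_filter, mem_range]
      refine ⟨?_, Nat.mod_lt _ hQ'0, ?_⟩
      · exact Nat.div_lt_of_lt_mul (by rw [← hQ']; exact ha)
      · have e1 : (d : ℝ) * a / Q = (d' : ℝ) * a / Q' := by
          rw [hd', hQ']
          push_cast
          field_simp
        have e2 : (d' : ℝ) * a / Q' = ((((d' * a) % Q' : ℕ) : ℝ) / Q') + (((d' * a) / Q' : ℕ) : ℤ) := by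
          have h := Nat.mod_add_div (d' * a) Q'
          generalize (d' * a) % Q' = s at *
          generalize (d' * a) / Q' = k at *
          have h2 : (d' : ℝ) * a = (s : ℝ) + Q' * (k : ℝ) := by
            exact_mod_cast h.symm
          rw [div_eq_iff hQR, add_mul, div_mul_cancel₀ _ hQR, Int.cast_natCast, h2]
          ring
        rw [e1, e2, nd_add_int] at hn
        exact hn
    · intro a ha b hb hab
      simp only [Prod.mk.injEq] at hab
      obtain ⟨h1, h2⟩ := hab
      have h3 : a ≡ b [MOD Q'] := Nat.ModEq.cancel_left_of_coprime (by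
        rw [Nat.coprime_comm] at hcop
        exact hcop) h2
      rw [← Nat.mod_add_div a Q', ← Nat.mod_add_div b Q', h1, h3]
  rw [card_product, card_range] at key
  have h0 := basb_cnt0 Q' hQ'0 X hX
  calc (((range Q).filter (fun a : ℕ => nd ((d : ℝ) * a / Q) ≤ X)).card : ℝ) ≤
        ((g * ((range Q').filter (fun a : ℕ => nd ((a : ℝ) / Q') ≤ X)).card : ℕ) : ℝ) := by
        exact_mod_cast key
    _ ≤ g * (2 * X * Q' + 1) := by
        push_cast
        exact mul_le_mul_of_nonneg_left h0 (by positivity)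
    _ = 2 * X * Q + g := by
        rw [hQ']
        push_cast
        ring

end MP_5e4520_nt
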