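import Pool.Agent.Lib.MP_5e4520_nt.BasA
import Pool.Agent.Lib.MP_5e4520_nt.BasB

set_option autoImplicit false

namespace MP_5e4520_nt

open Finset

theorem dir_le (L : ℕ) (θ : ℝ) : ‖∑ i ∈ range L, ee (i * θ)‖ ≤ L := by
  refine (norm_sum_le _ _).trans ?_
  simp [norm_ee]

theorem basc_sub (θ : ℝ) : 4 * nd θ ≤ ‖ee θ - 1‖ := by
  obtain ⟨z, hz⟩ := nd_exists θ
  set s : ℝ := θ - z with hs
  have h1 : ee θ = ee s := by
    have h2 : θ = s + z := by rw [hs]; ring
    conv_lhs => rw [h2, ee_add_int]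
  have h3 : |s| ≤ 1 / 2 := by
    rw [hz]
    exact nd_le_half θ
  have h4 : ee s = Complex.exp (Complex.I * ((2 * Real.pi * s : ℝ) : ℂ)) := by
    unfold ee
    congr 1
    push_cast
    ring
  rw [h1, h4, Complex.norm_exp_I_mul_ofReal_sub_one, ← hz]
  have h5 : 2 * Real.pi * s / 2 = Real.pi * s := by ring
  rw [h5, Real.norm_eq_abs, abs_mul, abs_two]
  have h6 : |Real.sin (Real.pi * s)| = Real.sin (Real.pi * |s|) := by
    rcases le_or_gt 0 s with h | h
    · rw [abs_of_nonneg h] at h3 ⊢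
      apply abs_of_nonneg
      apply Real.sin_nonneg_of_nonneg_of_le_pi
      · positivity
      · nlinarith [Real.pi_pos]
    · rw [abs_of_neg h] at h3 ⊢
      rw [mul_neg, Real.sin_neg]
      apply abs_of_nonpos
      have h7 : 0 ≤ Real.sin (Real.pi * (-s)) := by
        apply Real.sin_nonneg_of_nonneg_of_le_pi
        · have := Real.pi_pos
          nlinarith
        · nlinarith [Real.pi_pos]
      rw [mul_neg, Real.sin_neg] at h7
      linarith
  rw [h6]
  have h8 := Real.mul_le_sin (x := Real.pi * |s|) (by positivity) (by nlinarith [Real.pi_pos])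
  have h9 : 2 / Real.pi * (Real.pi * |s|) = 2 * |s| := by
    field_simp
  rw [h9] at h8
  linarith

/-- `|∑_{i<L} e(iθ)| = |sin πLθ / sin πθ| ≤ 1/(2‖θ‖)` -/
theorem dir_le_inv (L : ℕ) (θ : ℝ) (h : 0 < nd θ) :
    ‖∑ i ∈ range L, ee (i * θ)‖ ≤ 1 / (2 * nd θ) := by
  have h1 := basc_sub θ
  have h2 : ee θ ≠ 1 := by
    intro h3
    rw [h3, sub_self, norm_zero] at h1
    linarith
  have h3 : ∑ i ∈ range L, ee (i * θ) = (ee θ ^ L - 1) / (ee θ - 1) := by
    rw [← geom_sum_eq h2]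
    exact sum_congr rfl fun i _ => ee_nat_mul i θ
  rw [h3, norm_div, div_le_div_iff₀ (by linarith) (by linarith)]
  have h4 : ‖ee θ ^ L - 1‖ ≤ 2 := by
    refine (norm_sub_le _ _).trans ?_
    rw [norm_pow, norm_ee, one_pow, norm_one]
    norm_num
  nlinarith [norm_nonneg (ee θ ^ L - 1)]

theorem fej_nonneg (K : ℕ) (θ : ℝ) : 0 ≤ fej K θ := by
  unfold fej; positivity

theorem fej_le (K : ℕ) (θ : ℝ) : fej K θ ≤ K := by
  unfold fej
  rcases Nat.eq_zero_or_pos K with rfl | hK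
  · simp
  · have hK' : (0 : ℝ) < K := by exact_mod_cast hK
    rw [div_le_iff₀ hK']
    have h := pow_le_pow_left₀ (norm_nonneg _) (dir_le K θ) 2
    calc ‖∑ i ∈ range K, ee (i * θ)‖ ^ 2 ≤ (K : ℝ) ^ 2 := h
      _ = K * K := by ring

theorem fej_le_inv (K : ℕ) (θ : ℝ) (h : 0 < nd θ) : fej K θ ≤ 1 / (4 * K * nd θ ^ 2) := by
  unfold fej
  rcases Nat.eq_zero_or_pos K with rfl | hK
  · simp
  · have hK' : (0 : ℝ) < K := by exact_mod_cast hK
    have h1 := pow_le_pow_left₀ (norm_nonneg _) (dir_le_inv K θ h) 2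
    rw [div_le_iff₀ hK']
    refine h1.trans (le_of_eq ?_)
    field_simp
    norm_num

theorem fej_add_int (K : ℕ) (θ : ℝ) (z : ℤ) : fej K (θ + z) = fej K θ := by
  unfold fej
  have h : ∀ i ∈ range K, ee (i * (θ + z)) = ee (i * θ) := by
    intro i _
    have e : (i : ℝ) * (θ + z) = i * θ + ((i * z : ℤ) : ℝ) := by
      push_cast
      ring
    rw [e, ee_add_int]
  rw [sum_congr rfl h]

theorem fej_neg (K : ℕ) (θ : ℝ) : fej K (-θ) = fej K θ := by
  unfold fej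
  have h : ∑ i ∈ range K, ee (i * -θ) = (starRingEnd ℂ) (∑ i ∈ range K, ee (i * θ)) := by
    rw [map_sum]
    refine sum_congr rfl fun i _ => ?_
    rw [mul_neg, ee_neg]
  rw [h, Complex.norm_conj]

/-- `fej K θ = (1/K) ∑_{i,j<K} e((i-j)θ)` -/
theorem fej_eq (K : ℕ) (θ : ℝ) :
    ((fej K θ : ℝ) : ℂ) = (∑ i ∈ range K, ∑ j ∈ range K, ee (((i : ℝ) - j) * θ)) / K := by
  unfold fej
  have h2 : ((‖∑ i ∈ range K, ee (i * θ)‖ ^ 2 : ℝ) : ℂ) =
      (∑ i ∈ range K, ee (i * θ)) * (starRingEnd ℂ) (∑ i ∈ range K, ee (i * θ)) := by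
    rw [Complex.mul_conj, Complex.normSq_eq_norm_sq]
  rw [Complex.ofReal_div, h2, map_sum, sum_mul_sum]
  congr 1
  refine sum_congr rfl fun i _ => sum_congr rfl fun j _ => ?_
  rw [← ee_neg, ← ee_add]
  congr 1
  ring

end MP_5e4520_nt
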