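import Pool.Agent.Lib.MP_5e4520_nt.BasA
import Pool.Agent.Lib.MP_5e4520_nt.BasB
import Pool.Agent.Lib.MP_5e4520_nt.BasC
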