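import Pool.Agent.Lib.MP_5e4520_nt.Basic

set_option autoImplicit false

namespace MP_5e4520_nt

open Finset

open Pointwise in
/-- Cauchy-Schwarz: the sums `i + i'` take `2L - 1` values, `L⁴ ≤ (2L-1) E4` -/
theorem E4_lower (L : ℕ) : L ^ 3 ≤ 2 * E4 L := by
  rcases Nat.eq_zero_or_pos L with rfl | hL
  · simp
  have h1 := Finset.le_card_add_mul_addEnergy (range L) (range L)
  have h2 : Finset.addEnergy (range L) (range L) = E4 L := rfl
  rw [h2, card_range] at h1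
  have h3 : (range L + range L).card ≤ 2 * L := by
    have h4 : range L + range L ⊆ range (2 * L) := by
      intro x hx
      rw [Finset.mem_add] at hx
      obtain ⟨y, hy, z, hz, rfl⟩ := hx
      rw [mem_range] at *
      omega
    have h5 := card_le_card h4
    rwa [card_range] at h5
  have h6 : L ^ 2 * L ^ 2 ≤ 2 * L * E4 L := h1.trans (Nat.mul_le_mul_right _ h3)
  have h7 : L * L ^ 3 ≤ L * (2 * E4 L) := by
    calc L * L ^ 3 = L ^ 2 * L ^ 2 := by ring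
      _ ≤ 2 * L * E4 L := h6
      _ = L * (2 * E4 L) := by ring
  exact Nat.le_of_mul_le_mul_left h7 hL

theorem E4_upper (L : ℕ) : E4 L ≤ L ^ 3 := by
  unfold E4
  have h1 : (((range L ×ˢ range L) ×ˢ (range L ×ˢ range L)).filter
      (fun p => p.1.1 + p.2.1 = p.1.2 + p.2.2)).card ≤ ((range L ×ˢ range L) ×ˢ range L).card := by
    apply card_le_card_of_injOn (fun p => (p.1, p.2.1))
    · intro p hp
      simp only [coe_filter, mem_product, mem_range, Set.mem_ofPred_eq] at hp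
      simp only [coe_product, Set.mem_prod, mem_coe, mem_range]
      exact ⟨hp.1.1, hp.1.2.1⟩
    · rintro ⟨⟨a, b⟩, ⟨c, d⟩⟩ hp ⟨⟨a', b'⟩, ⟨c', d'⟩⟩ hp' h
      simp only [coe_filter, mem_product, mem_range, Set.mem_ofPred_eq] at hp hp'
      simp only [Prod.mk.injEq] at h ⊢
      obtain ⟨⟨rfl, rfl⟩, rfl⟩ := h
      refine ⟨⟨rfl, rfl⟩, rfl, by omega⟩
  refine h1.trans ?_
  rw [card_product, card_product, card_range]
  exact (by ring : L * L * L = L ^ 3).le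

theorem bumpb_pos (L : ℕ) (hL : 0 < L) : 0 < E4 L := by
  have h := E4_lower L
  have h2 : 0 < L ^ 3 := by positivity
  omega

theorem bumpb_norm4 (L : ℕ) (θ : ℝ) : ((‖∑ i ∈ range L, ee (i * θ)‖ ^ 4 : ℝ) : ℂ) =
    ∑ p ∈ (range L ×ˢ range L) ×ˢ (range L ×ˢ range L),
      ee (((p.1.1 : ℝ) - p.1.2 + (p.2.1 - p.2.2)) * θ) := by
  have h1 : ((‖∑ i ∈ range L, ee (i * θ)‖ ^ 2 : ℝ) : ℂ) =
      ∑ p ∈ range L ×ˢ range L, ee (((p.1 : ℝ) - p.2) * θ) := by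
    have h2 : ((‖∑ i ∈ range L, ee (i * θ)‖ ^ 2 : ℝ) : ℂ) =
        (∑ i ∈ range L, ee (i * θ)) * (starRingEnd ℂ) (∑ i ∈ range L, ee (i * θ)) := by
      rw [Complex.mul_conj, Complex.normSq_eq_norm_sq]
    rw [h2, map_sum, sum_mul_sum, sum_product]
    refine sum_congr rfl fun i _ => sum_congr rfl fun j _ => ?_
    rw [← ee_neg, ← ee_add]
    congr 1
    ring
  have h3 : ((‖∑ i ∈ range L, ee (i * θ)‖ ^ 4 : ℝ) : ℂ) =
      ((‖∑ i ∈ range L, ee (i * θ)‖ ^ 2 : ℝ) : ℂ) * ((‖∑ i ∈ range L, ee (i * θ)‖ ^ 2 : ℝ) : ℂ) := by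
    push_cast
    ring
  rw [h3, h1, sum_mul_sum, sum_product (range L ×ˢ range L) (range L ×ˢ range L)]
  refine sum_congr rfl fun p _ => sum_congr rfl fun q _ => ?_
  rw [← ee_add]
  congr 1
  ring

theorem bqua_fourier (L Q : ℕ) (hQ : 0 < Q) (x : ℤ) :
    ((bqua L Q x : ℝ) : ℂ) = ∑ h ∈ range Q, ((cqua L Q h : ℝ) : ℂ) * ee ((h : ℝ) * x / Q) := by
  have hQ' : (Q : ℂ) ≠ 0 := by
    exact_mod_cast hQ.ne'
  have h1 : ∀ h ∈ range Q, ((cqua L Q h : ℝ) : ℂ) * ee ((h : ℝ) * x / Q) =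
      ∑ p ∈ (range L ×ˢ range L) ×ˢ (range L ×ˢ range L),
        ee ((h : ℝ) * (((p.1.1 : ℤ) - p.1.2 + (p.2.1 - p.2.2) + x : ℤ) : ℝ) / Q) / (Q * E4 L) := by
    intro h _
    have h2 : ((cqua L Q h : ℝ) : ℂ) =
        ((‖∑ i ∈ range L, ee (i * ((h : ℝ) / Q))‖ ^ 4 : ℝ) : ℂ) / (Q * E4 L) := by
      unfold cqua
      push_cast
      rfl
    rw [h2, bumpb_norm4, sum_div, sum_mul]
    refine sum_congr rfl fun p _ => ?_
    rw [div_mul_eq_mul_div, ← ee_add]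
    congr 2
    push_cast
    ring
  rw [sum_congr rfl h1, sum_comm]
  have h2 : ∀ p ∈ (range L ×ˢ range L) ×ˢ (range L ×ˢ range L),
      ∑ h ∈ range Q, ee ((h : ℝ) * (((p.1.1 : ℤ) - p.1.2 + (p.2.1 - p.2.2) + x : ℤ) : ℝ) / Q) /
        (Q * E4 L) = if (Q : ℤ) ∣ ((p.1.1 : ℤ) - p.1.2 + (p.2.1 - p.2.2) + x) then
          1 / (E4 L : ℂ) else 0 := by
    intro p _
    rw [← sum_div, ee_orth Q hQ]
    split_ifs
    · rw [div_mul_eq_div_div, div_self hQ']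
    · rw [zero_div]
  rw [sum_congr rfl h2, ← sum_filter, sum_const, nsmul_eq_mul]
  unfold bqua
  push_cast
  rw [mul_one_div]

theorem bqua_nonneg (L Q : ℕ) (x : ℤ) : 0 ≤ bqua L Q x := by
  unfold bqua; positivity

theorem bqua_zero (L Q : ℕ) (hL : 0 < L) (hLQ : 2 * L ≤ Q) : bqua L Q 0 = 1 := by
  unfold bqua
  have h1 : ((range L ×ˢ range L) ×ˢ (range L ×ˢ range L)).filter
      (fun p => (Q : ℤ) ∣ ((p.1.1 : ℤ) - p.1.2 + (p.2.1 - p.2.2) + 0)) =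
      ((range L ×ˢ range L) ×ˢ (range L ×ˢ range L)).filter
      (fun p => p.1.1 + p.2.1 = p.1.2 + p.2.2) := by
    apply filter_congr
    rintro ⟨⟨a, b⟩, ⟨c, d⟩⟩ hp
    simp only [mem_product, mem_range] at hp
    obtain ⟨⟨ha, hb⟩, hc, hd⟩ := hp
    simp only
    constructor
    · intro h
      have h2 := Int.eq_zero_of_abs_lt_dvd h (by rw [abs_lt]; constructor <;> omega)
      omega
    · intro h
      have h2 : (a : ℤ) - b + (c - d) + 0 = 0 := by omega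
      rw [h2]
      exact dvd_zero _
  rw [h1]
  have h2 := bumpb_pos L hL
  show ((E4 L : ℕ) : ℝ) / E4 L = 1
  apply div_self
  positivity

theorem cqua_nonneg (L Q h : ℕ) : 0 ≤ cqua L Q h := by
  unfold cqua; positivity

theorem cqua_sum (L Q : ℕ) (hL : 0 < L) (hLQ : 2 * L ≤ Q) : ∑ h ∈ range Q, cqua L Q h = 1 := by
  have h1 := bqua_fourier L Q (by omega) 0
  rw [bqua_zero L Q hL hLQ] at h1
  apply Complex.ofReal_injective
  rw [h1]
  push_cast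
  refine sum_congr rfl fun h _ => ?_
  rw [mul_zero, zero_div, ee_zero, mul_one]

/-- `|bqua x| ≤ ∑_h cqua h = bqua 0 = 1` -/
theorem bqua_le_one (L Q : ℕ) (hL : 0 < L) (hLQ : 2 * L ≤ Q) (x : ℤ) : bqua L Q x ≤ 1 := by
  have h1 := bqua_fourier L Q (by omega) x
  have h2 : ‖((bqua L Q x : ℝ) : ℂ)‖ ≤ ∑ h ∈ range Q, cqua L Q h := by
    rw [h1]
    refine (norm_sum_le _ _).trans (sum_le_sum fun h _ => ?_)
    rw [norm_mul, norm_ee, mul_one, Complex.norm_real, Real.norm_of_nonneg (cqua_nonneg L Q h)]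
  rw [Complex.norm_real, Real.norm_of_nonneg (bqua_nonneg L Q x), cqua_sum L Q hL hLQ] at h2
  exact h2

theorem bqua_supp (L Q : ℕ) (hQ : 0 < Q) (x : ℤ) (h : bqua L Q x ≠ 0) :
    nd ((x : ℝ) / Q) < 2 * (L : ℝ) / Q := by
  have hQ' : (0 : ℝ) < Q := by exact_mod_cast hQ
  have h1 : (((range L ×ˢ range L) ×ˢ (range L ×ˢ range L)).filter
      (fun p => (Q : ℤ) ∣ ((p.1.1 : ℤ) - p.1.2 + (p.2.1 - p.2.2) + x))).card ≠ 0 := by
    intro h0
    apply h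
    unfold bqua
    rw [h0]
    simp
  obtain ⟨⟨⟨a, b⟩, ⟨c, d⟩⟩, hp⟩ := card_ne_zero.1 h1
  rw [mem_filter] at hp
  simp only [mem_product, mem_range] at hp
  obtain ⟨⟨⟨ha, hb⟩, hc, hd⟩, z, hz⟩ := hp
  have h2 := nd_le ((x : ℝ) / Q) z
  refine lt_of_le_of_lt h2 ?_
  have h3 : (x : ℝ) / Q - z = (((b : ℤ) - a + (d - c) : ℤ) : ℝ) / Q := by
    have h4 : (x : ℤ) = Q * z + ((b : ℤ) - a + (d - c)) := by linarith
    rw [h4]
    push_cast
    field_simp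
    ring
  rw [h3, abs_div, abs_of_pos hQ']
  apply div_lt_div_of_pos_right _ hQ'
  rw [← Int.cast_abs]
  have h5 : |(b : ℤ) - a + (d - c)| < 2 * L := by
    rw [abs_lt]
    constructor <;> omega
  exact_mod_cast h5

theorem cqua_at_zero (L Q : ℕ) (hL : 0 < L) : (L : ℝ) / Q ≤ cqua L Q 0 := by
  unfold cqua
  have h1 : ‖∑ i ∈ range L, ee (i * (((0 : ℕ) : ℝ) / Q))‖ = L := by
    have h2 : ∀ i ∈ range L, ee (i * (((0 : ℕ) : ℝ) / Q)) = 1 := by
      intro i _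
      rw [Nat.cast_zero, zero_div, mul_zero, ee_zero]
    rw [sum_congr rfl h2, sum_const, card_range, nsmul_eq_mul, mul_one, Complex.norm_natCast]
  rw [h1]
  have h3 : ((E4 L : ℕ) : ℝ) ≤ L ^ 3 := by exact_mod_cast E4_upper L
  have h4 : (0 : ℝ) < E4 L := by exact_mod_cast bumpb_pos L hL
  rw [mul_comm, ← div_div]
  apply div_le_div_of_nonneg_right _ (by positivity)
  rw [le_div_iff₀ h4]
  calc (L : ℝ) * E4 L ≤ L * L ^ 3 := mul_le_mul_of_nonneg_left h3 (by positivity)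
    _ = L ^ 4 := by ring

theorem cqua_le (L Q h : ℕ) (hL : 0 < L) : cqua L Q h ≤ 2 * (L : ℝ) / Q := by
  unfold cqua
  have h1 : ‖∑ i ∈ range L, ee (i * ((h : ℝ) / Q))‖ ≤ L := by
    refine (norm_sum_le _ _).trans ?_
    simp [norm_ee]
  have h3 : (L : ℝ) ^ 3 ≤ 2 * E4 L := by exact_mod_cast E4_lower L
  have h4 : (0 : ℝ) < E4 L := by exact_mod_cast bumpb_pos L hL
  rw [mul_comm (Q : ℝ), ← div_div]
  apply div_le_div_of_nonneg_right _ (by positivity)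
  rw [div_le_iff₀ h4]
  calc ‖∑ i ∈ range L, ee (i * ((h : ℝ) / Q))‖ ^ 4 ≤ (L : ℝ) ^ 4 :=
        pow_le_pow_left₀ (norm_nonneg _) h1 4
    _ = L * L ^ 3 := by ring
    _ ≤ L * (2 * E4 L) := mul_le_mul_of_nonneg_left h3 (by positivity)
    _ = 2 * L * E4 L := by ring

theorem cqua_vanish (L W : ℕ) (hL : 0 < L) (hW : 0 < W) (h : ℕ) (hh : h < L * W) (h0 : h ≠ 0)
    (hd : W ∣ h) : cqua L (L * W) h = 0 := by
  obtain ⟨k, rfl⟩ := hd
  have hk0 : k ≠ 0 := by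
    rintro rfl
    simp at h0
  have hkL : k < L := by
    rw [mul_comm L W] at hh
    exact Nat.lt_of_mul_lt_mul_left hh
  have h1 : ∑ i ∈ range L, ee (i * (((W * k : ℕ) : ℝ) / ((L * W : ℕ) : ℝ))) = 0 := by
    have h2 : ∀ i ∈ range L, ee (i * (((W * k : ℕ) : ℝ) / ((L * W : ℕ) : ℝ))) =
        ee ((i : ℝ) * ((k : ℤ) : ℝ) / L) := by
      intro i _
      congr 1
      have hW' : (W : ℝ) ≠ 0 := by positivity
      have hL' : (L : ℝ) ≠ 0 := by positivity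
      push_cast
      field_simp
    rw [sum_congr rfl h2, ee_orth L hL, if_neg]
    intro hdvd
    have h3 : L ∣ k := by exact_mod_cast hdvd
    exact absurd (Nat.le_of_dvd (by omega) h3) (not_le.2 hkL)
  unfold cqua
  rw [h1]
  simp

/-- `cqua / ctri = |D|² L / E4 ≤ 2 |D|²/L²` -/
theorem cqua_le_ctri (L Q h : ℕ) (hL : 0 < L) :
    cqua L Q h ≤ 2 * (‖∑ i ∈ range L, ee (i * (h / Q))‖ ^ 2 / (L : ℝ) ^ 2) * ctri L Q h := by
  unfold cqua ctri
  set D := ‖∑ i ∈ range L, ee (i * ((h : ℝ) / Q))‖ with hD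
  have hD0 : 0 ≤ D := norm_nonneg _
  have h3 : (L : ℝ) ^ 3 ≤ 2 * E4 L := by exact_mod_cast E4_lower L
  have h4 : (0 : ℝ) < E4 L := by exact_mod_cast bumpb_pos L hL
  have hL' : (0 : ℝ) < L := by exact_mod_cast hL
  have e : 2 * (D ^ 2 / (L : ℝ) ^ 2) * (D ^ 2 / (L * Q)) = (2 * D ^ 4 / L ^ 3) / Q := by
    field_simp
  rw [e, mul_comm (Q : ℝ), ← div_div]
  apply div_le_div_of_nonneg_right _ (by positivity)
  rw [div_le_div_iff₀ h4 (by positivity)]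
  calc D ^ 4 * (L : ℝ) ^ 3 ≤ D ^ 4 * (2 * E4 L) := mul_le_mul_of_nonneg_left h3 (by positivity)
    _ = 2 * D ^ 4 * E4 L := by ring

end MP_5e4520_nt
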