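import Pool.Agent.Lib.MP_5e4520_nt.Basic

set_option autoImplicit false

namespace MP_5e4520_nt

open Finset

theorem bumpa_norm2 (L : ℕ) (θ : ℝ) : ((‖∑ i ∈ range L, ee (i * θ)‖ ^ 2 : ℝ) : ℂ) =
    ∑ p ∈ range L ×ˢ range L, ee (((p.1 : ℝ) - p.2) * θ) := by
  have h2 : ((‖∑ i ∈ range L, ee (i * θ)‖ ^ 2 : ℝ) : ℂ) =
      (∑ i ∈ range L, ee (i * θ)) * (starRingEnd ℂ) (∑ i ∈ range L, ee (i * θ)) := by
    rw [Complex.mul_conj, Complex.normSq_eq_norm_sq]
  rw [h2, map_sum, sum_mul_sum, sum_product]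
  refine sum_congr rfl fun i _ => sum_congr rfl fun j _ => ?_
  rw [← ee_neg, ← ee_add]
  congr 1
  ring

/-- `|∑_{i<L} e(ih/Q)|² = ∑_{i,j<L} e((i-j)h/Q)` and `ee_orth` -/
theorem btri_fourier (L Q : ℕ) (hQ : 0 < Q) (x : ℤ) :
    ((btri L Q x : ℝ) : ℂ) = ∑ h ∈ range Q, ((ctri L Q h : ℝ) : ℂ) * ee ((h : ℝ) * x / Q) := by
  have hQ' : (Q : ℂ) ≠ 0 := by
    exact_mod_cast hQ.ne'
  have h1 : ∀ h ∈ range Q, ((ctri L Q h : ℝ) : ℂ) * ee ((h : ℝ) * x / Q) =
      ∑ p ∈ range L ×ˢ range L,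
        ee ((h : ℝ) * (((p.1 : ℤ) - p.2 + x : ℤ) : ℝ) / Q) / (L * Q) := by
    intro h _
    have h2 : ((ctri L Q h : ℝ) : ℂ) =
        ((‖∑ i ∈ range L, ee (i * ((h : ℝ) / Q))‖ ^ 2 : ℝ) : ℂ) / (L * Q) := by
      unfold ctri
      push_cast
      rfl
    rw [h2, bumpa_norm2, sum_div, sum_mul]
    refine sum_congr rfl fun p _ => ?_
    rw [div_mul_eq_mul_div, ← ee_add]
    congr 2
    push_cast
    ring
  rw [sum_congr rfl h1, sum_comm]
  have h2 : ∀ p ∈ range L ×ˢ range L,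
      ∑ h ∈ range Q, ee ((h : ℝ) * (((p.1 : ℤ) - p.2 + x : ℤ) : ℝ) / Q) / (L * Q) =
        if (Q : ℤ) ∣ ((p.1 : ℤ) - p.2 + x) then 1 / (L : ℂ) else 0 := by
    intro p _
    rw [← sum_div, ee_orth Q hQ]
    split_ifs
    · rw [mul_comm (L : ℂ) (Q : ℂ), div_mul_eq_div_div, div_self hQ']
    · rw [zero_div]
  rw [sum_congr rfl h2, ← sum_filter, sum_const, nsmul_eq_mul]
  unfold btri
  push_cast
  rw [mul_one_div]

theorem btri_nonneg (L Q : ℕ) (x : ℤ) : 0 ≤ btri L Q x := by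
  unfold btri; positivity

/-- for each `i` there is at most one `j` -/
theorem btri_le_one (L Q : ℕ) (hLQ : L ≤ Q) (x : ℤ) : btri L Q x ≤ 1 := by
  unfold btri
  rcases Nat.eq_zero_or_pos L with rfl | hL
  · simp
  have h1 : (((range L ×ˢ range L).filter
      (fun p => (Q : ℤ) ∣ ((p.1 : ℤ) - p.2 + x))).card) ≤ (range L).card := by
    apply card_le_card_of_injOn (fun p => p.1)
    · intro p hp
      simp only [coe_filter, mem_product, mem_range, Set.mem_ofPred_eq] at hp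
      simp only [coe_range, Set.mem_Iio]
      exact hp.1.1
    · rintro ⟨a, b⟩ hp ⟨a', b'⟩ hp' h
      simp only [coe_filter, mem_product, mem_range, Set.mem_ofPred_eq] at hp hp'
      simp only at h
      subst h
      obtain ⟨⟨_, hb⟩, hd⟩ := hp
      obtain ⟨⟨_, hb'⟩, hd'⟩ := hp'
      have h3 := dvd_sub hd hd'
      have h4 : ((a : ℤ) - b + x) - ((a : ℤ) - b' + x) = (b' : ℤ) - b := by ring
      rw [h4] at h3
      have h5 : |(b' : ℤ) - b| < Q := by
        rw [abs_lt]; constructor <;> omega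
      have h6 := Int.eq_zero_of_abs_lt_dvd h3 h5
      have h7 : b = b' := by omega
      rw [h7]
  rw [card_range] at h1
  rw [div_le_one (by exact_mod_cast hL)]
  exact_mod_cast h1

/-- `i - j + x = Q z`, `|i-j| ≤ L-1` -/
theorem btri_supp (L Q : ℕ) (hQ : 0 < Q) (x : ℤ) (h : btri L Q x ≠ 0) :
    nd ((x : ℝ) / Q) < (L : ℝ) / Q := by
  unfold btri at h
  have h1 : ((range L ×ˢ range L).filter
      (fun p => (Q : ℤ) ∣ ((p.1 : ℤ) - p.2 + x))).card ≠ 0 := by
    intro h0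
    apply h
    rw [h0]
    simp
  obtain ⟨⟨i, j⟩, hp⟩ := card_ne_zero.mp h1
  simp only [mem_filter, mem_product, mem_range] at hp
  obtain ⟨⟨hi, hj⟩, ⟨z, hz⟩⟩ := hp
  refine (nd_le _ z).trans_lt ?_
  have hQ' : (0 : ℝ) < Q := by exact_mod_cast hQ
  have h2 : (x : ℝ) / Q - z = ((j : ℝ) - i) / Q := by
    have h3 : (i : ℝ) - j + x = Q * z := by exact_mod_cast hz
    field_simp
    linarith
  rw [h2, abs_div, abs_of_pos hQ']
  apply div_lt_div_of_pos_right _ hQ'
  rw [abs_lt]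
  have hi' : (i : ℝ) < L := by exact_mod_cast hi
  have hj' : (j : ℝ) < L := by exact_mod_cast hj
  have hi0 : (0 : ℝ) ≤ i := Nat.cast_nonneg i
  have hj0 : (0 : ℝ) ≤ j := Nat.cast_nonneg j
  constructor <;> linarith

theorem btri_zero (L Q : ℕ) (hL : 0 < L) (hLQ : L ≤ Q) : btri L Q 0 = 1 := by
  have h1 : L ≤ ((range L ×ˢ range L).filter
      (fun p => (Q : ℤ) ∣ ((p.1 : ℤ) - p.2 + 0))).card := by
    have h2 : ((range L).image (fun i => (i, i))) ⊆ ((range L ×ˢ range L).filter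
      (fun p => (Q : ℤ) ∣ ((p.1 : ℤ) - p.2 + 0))) := by
      intro p hp
      obtain ⟨i, hi, rfl⟩ := mem_image.mp hp
      simp only [mem_filter, mem_product]
      exact ⟨⟨hi, hi⟩, by simp⟩
    have h3 := card_le_card h2
    rw [card_image_of_injective _ (fun a b hab => (Prod.mk.inj hab).1), card_range] at h3
    exact h3
  apply le_antisymm (btri_le_one L Q hLQ 0)
  unfold btri
  rw [le_div_iff₀ (by exact_mod_cast hL), one_mul]
  exact_mod_cast h1

/-- partition of unity: for each `i < L` there is exactly one pair `(j, c)`, `j < L`, `c < W`, with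
`j - c L ≡ i + x mod L W` -/
theorem btri_part (L W : ℕ) (hL : 0 < L) (hW : 0 < W) (x : ℤ) :
    ∑ c ∈ range W, btri L (L * W) (x + c * L) = 1 := by
  unfold btri
  rw [← sum_div, div_eq_one_iff_eq (by exact_mod_cast hL.ne')]
  have hL' : (0 : ℤ) < L := by exact_mod_cast hL
  have hW' : (0 : ℤ) < W := by exact_mod_cast hW
  have h1 : ∀ c ∈ range W, (((range L ×ˢ range L).filter
      (fun p => ((L * W : ℕ) : ℤ) ∣ ((p.1 : ℤ) - p.2 + (x + c * L)))).card : ℝ) =
      ∑ i ∈ range L, ∑ j ∈ range L,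
        if ((L * W : ℕ) : ℤ) ∣ ((i : ℤ) - j + (x + c * L)) then (1 : ℝ) else 0 := by
    intro c _
    rw [card_filter]
    push_cast
    rw [sum_product]
  rw [sum_congr rfl h1, sum_comm]
  have h2 : ∀ i ∈ range L, ∑ c ∈ range W, ∑ j ∈ range L,
      (if ((L * W : ℕ) : ℤ) ∣ ((i : ℤ) - j + (x + c * L)) then (1 : ℝ) else 0) = 1 := by
    intro i hi
    -- the unique pair
    set y : ℤ := i + x with hy
    set j0 : ℕ := (y % L).toNat with hj0
    set c0 : ℕ := ((-(y / L)) % W).toNat with hc0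
    have hj0' : (j0 : ℤ) = y % L := Int.toNat_of_nonneg (Int.emod_nonneg _ hL'.ne')
    have hc0' : (c0 : ℤ) = (-(y / L)) % W := Int.toNat_of_nonneg (Int.emod_nonneg _ hW'.ne')
    have hj0lt : j0 < L := by
      have := Int.emod_lt_of_pos y hL'
      omega
    have hc0lt : c0 < W := by
      have := Int.emod_lt_of_pos (-(y / L)) hW'
      omega
    have hdvd : ((L * W : ℕ) : ℤ) ∣ ((i : ℤ) - j0 + (x + c0 * L)) := by
      have e1 : (i : ℤ) - j0 + (x + c0 * L) = L * (y / L + c0) := by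
        have := Int.emod_add_mul_ediv y L
        rw [hj0']
        have : (i : ℤ) + x = y % L + L * (y / L) := by rw [this]
        linear_combination this
      have e2 : (W : ℤ) ∣ (y / L + c0) := by
        rw [hc0']
        have := Int.emod_add_mul_ediv (-(y / L)) W
        exact ⟨-((-(y / L)) / W), by linear_combination this⟩
      rw [e1]
      push_cast
      exact mul_dvd_mul_left _ e2
    have huniq : ∀ c ∈ range W, ∀ j ∈ range L,
        ((L * W : ℕ) : ℤ) ∣ ((i : ℤ) - j + (x + c * L)) → c = c0 ∧ j = j0 := by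
      intro c hc j hj hd
      rw [mem_range] at hc hj
      have h3 := dvd_sub hd hdvd
      have h4 : ((i : ℤ) - j + (x + c * L)) - ((i : ℤ) - j0 + (x + c0 * L)) =
        ((j0 : ℤ) - j) + L * ((c : ℤ) - c0) := by ring
      rw [h4] at h3
      have h5 : (L : ℤ) ∣ ((j0 : ℤ) - j) := by
        have h6 : (L : ℤ) ∣ ((j0 : ℤ) - j) + L * ((c : ℤ) - c0) :=
          dvd_trans (by push_cast; exact dvd_mul_right _ _) h3
        exact (dvd_add_left (dvd_mul_right _ _)).mp h6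
      have h7 : (j0 : ℤ) - j = 0 := by
        apply Int.eq_zero_of_abs_lt_dvd h5
        rw [abs_lt]; constructor <;> omega
      rw [h7, zero_add] at h3
      push_cast at h3
      have h8 : (W : ℤ) ∣ ((c : ℤ) - c0) := Int.dvd_of_mul_dvd_mul_left hL'.ne' h3
      have h9 : (c : ℤ) - c0 = 0 := by
        apply Int.eq_zero_of_abs_lt_dvd h8
        rw [abs_lt]; constructor <;> omega
      constructor <;> omega
    rw [sum_eq_single c0, sum_eq_single j0, if_pos hdvd]
    · intro j hj hne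
      rw [if_neg]
      intro hd
      exact hne (huniq c0 (mem_range.mpr hc0lt) j hj hd).2
    · intro hn
      exact absurd (mem_range.mpr hj0lt) hn
    · intro c hc hne
      apply sum_eq_zero
      intro j hj
      rw [if_neg]
      intro hd
      exact hne (huniq c hc j hj hd).1
    · intro hn
      exact absurd (mem_range.mpr hc0lt) hn
  rw [sum_congr rfl h2]
  simp

theorem ctri_nonneg (L Q h : ℕ) : 0 ≤ ctri L Q h := by
  unfold ctri; positivity

theorem ctri_at_zero (L Q : ℕ) (hL : 0 < L) : ctri L Q 0 = (L : ℝ) / Q := by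
  unfold ctri
  have hL' : (L : ℝ) ≠ 0 := by exact_mod_cast hL.ne'
  have h1 : ∑ i ∈ range L, ee (i * ((0 : ℕ) / Q)) = (L : ℂ) := by
    simp [ee_zero]
  rw [h1]
  rw [Complex.norm_natCast, sq, mul_div_mul_left _ _ hL']

/-- `∑_{i<L} e(i h'/L) = 0` for `0 < h' < L` -/
theorem ctri_vanish (L W : ℕ) (hL : 0 < L) (hW : 0 < W) (h : ℕ) (hh : h < L * W) (h0 : h ≠ 0)
    (hd : W ∣ h) : ctri L (L * W) h = 0 := by
  obtain ⟨h', rfl⟩ := hd
  have hL' : (L : ℝ) ≠ 0 := by exact_mod_cast hL.ne'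
  have hW' : (W : ℝ) ≠ 0 := by exact_mod_cast hW.ne'
  unfold ctri
  have h1 : ∑ i ∈ range L, ee (i * (((W * h' : ℕ) : ℝ) / ((L * W : ℕ) : ℝ))) =
      ∑ i ∈ range L, ee ((i : ℝ) * ((h' : ℤ) : ℝ) / L) := by
    refine sum_congr rfl fun i _ => ?_
    congr 1
    push_cast
    field_simp
  rw [h1, ee_orth L hL, if_neg]
  · simp
  · intro hd
    have h2 : L ∣ h' := by exact_mod_cast hd
    have h3 : h' < L := by
      by_contra hc
      push Not at hc
      have : L * W ≤ W * h' := by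
        rw [mul_comm]; exact Nat.mul_le_mul_left _ hc
      omega
    have h4 : h' = 0 := Nat.eq_zero_of_dvd_of_lt h2 h3
    apply h0
    rw [h4, mul_zero]

theorem ctri_sum (L Q : ℕ) (hL : 0 < L) (hLQ : L ≤ Q) : ∑ h ∈ range Q, ctri L Q h = 1 := by
  have h1 := btri_fourier L Q (by omega) 0
  rw [btri_zero L Q hL hLQ] at h1
  have h2 : ∀ h ∈ range Q, ((ctri L Q h : ℝ) : ℂ) * ee ((h : ℝ) * ((0 : ℤ) : ℝ) / Q) =
      ((ctri L Q h : ℝ) : ℂ) := by
    intro h _
    simp [ee_zero]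
  rw [sum_congr rfl h2] at h1
  have h3 : ((∑ h ∈ range Q, ctri L Q h : ℝ) : ℂ) = ((1 : ℝ) : ℂ) := by
    push_cast
    rw [← h1]
    push_cast
    rfl
  exact_mod_cast h3

end MP_5e4520_nt
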