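import Pool.Agent.Lib.MP_5e4520_nt.CombT

set_option autoImplicit false

/-!
# The combinatorial part: summing over windows

Windows are `(l, m, u)` with `l = l0 + s i`, `m = l0 + s i + s j`, `i < N1`, `j < w`, `u = s k`.
Write `a = 2l+m`, `b = l+2m`.  `H(X | Y)` denotes differences of `E`.
-/

namespace MP_5e4520_nt

open Finset

variable {E : ℕ → ℕ → ℕ → ℕ → ℝ} {lam : ℝ} {M : ℕ}

theorem combE_DA_nonneg (hE : Poly E lam M) (l m s : ℕ) : 0 ≤ DA E l m s := by
  have h := hE.lip (2 * l + m) (l + 2 * m) l m (3 * s) 0 0 0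
  simp only [add_zero, Nat.cast_zero] at h
  push_cast at h
  unfold DA GG
  linarith

/-- one row -/
theorem combE_row (hE : Poly E lam M) (s I x w : ℕ) :
    ∑ j ∈ range w, DAst E (x + 3 * s * I) (x + 3 * s * I + s * j) s I ≤
    ∑ j ∈ range w, DA E x (x + s * (j + 9 * I)) s + 3 * (3 * s * I + s) := by
  have key : ∀ j, DAst E (x + 3 * s * I) (x + 3 * s * I + s * j) s I ≤
      DA E x (x + s * (j + 9 * I)) s +
      ((fun j : ℕ => E (3 * x + s * (j + 9 * I)) (3 * x + 2 * (s * (j + 9 * I))) (x + (3 * s * I + s))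
          (x + s * (j + 9 * I)) -
        E (3 * x + s * (j + 9 * I)) (3 * x + 2 * (s * (j + 9 * I))) x (x + s * (j + 9 * I))) j -
       (fun j : ℕ => E (3 * x + s * (j + 9 * I)) (3 * x + 2 * (s * (j + 9 * I))) (x + (3 * s * I + s))
          (x + s * (j + 9 * I)) -
        E (3 * x + s * (j + 9 * I)) (3 * x + 2 * (s * (j + 9 * I))) x (x + s * (j + 9 * I))) (j + 3)) := by
    intro j
    have h := hE.sub (3 * x + s * (j + 9 * I) + 3 * s) (3 * x + 2 * (s * (j + 9 * I)))
      (x + (3 * s * I + s)) (x + s * (j + 9 * I))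
      (3 * x + s * (j + 9 * I) + 3 * s) (3 * x + 2 * (s * (j + 9 * I)) + 6 * s) x
      (x + s * (j + 9 * I) + 3 * s)
    rw [max_self, min_self, max_eq_right (Nat.le_add_right _ _), min_eq_left (Nat.le_add_right _ _),
      max_eq_left (Nat.le_add_right _ _), min_eq_right (Nat.le_add_right _ _),
      max_eq_right (Nat.le_add_right _ _), min_eq_left (Nat.le_add_right _ _)] at h
    have e1 : 2 * (x + 3 * s * I) + (x + 3 * s * I + s * j) = 3 * x + s * (j + 9 * I) := by ring
    have e2 : (x + 3 * s * I) + 2 * (x + 3 * s * I + s * j) + 9 * s * I =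
        3 * x + 2 * (s * (j + 9 * I)) := by ring
    have e3 : x + 3 * s * I + s = x + (3 * s * I + s) := by ring
    have e4 : x + 3 * s * I + s * j + 6 * s * I = x + s * (j + 9 * I) := by ring
    have e5 : 2 * x + (x + s * (j + 9 * I)) = 3 * x + s * (j + 9 * I) := by ring
    have e6 : x + 2 * (x + s * (j + 9 * I)) = 3 * x + 2 * (s * (j + 9 * I)) := by ring
    have e7 : 3 * x + s * (j + 3 + 9 * I) = 3 * x + s * (j + 9 * I) + 3 * s := by ring
    have e8 : 3 * x + 2 * (s * (j + 3 + 9 * I)) = 3 * x + 2 * (s * (j + 9 * I)) + 6 * s := by ring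
    have e9 : x + s * (j + 3 + 9 * I) = x + s * (j + 9 * I) + 3 * s := by ring
    unfold DAst DA GG
    simp only []
    rw [e1, e2, e3, e4, e5, e6, e7, e8, e9]
    linarith
  refine (Finset.sum_le_sum fun j _ => key j).trans ?_
  rw [Finset.sum_add_distrib]
  have ht := tele (fun j : ℕ => E (3 * x + s * (j + 9 * I)) (3 * x + 2 * (s * (j + 9 * I)))
      (x + (3 * s * I + s)) (x + s * (j + 9 * I)) -
        E (3 * x + s * (j + 9 * I)) (3 * x + 2 * (s * (j + 9 * I))) x (x + s * (j + 9 * I)))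
      (3 * s * I + s)
    (fun j => by
      have := hE.mono (3 * x + s * (j + 9 * I)) (3 * x + 2 * (s * (j + 9 * I))) x
        (x + s * (j + 9 * I)) (3 * x + s * (j + 9 * I)) (3 * x + 2 * (s * (j + 9 * I)))
        (x + (3 * s * I + s)) (x + s * (j + 9 * I)) le_rfl le_rfl (Nat.le_add_right _ _) le_rfl
      linarith)
    (fun j => by
      have := hE.lip (3 * x + s * (j + 9 * I)) (3 * x + 2 * (s * (j + 9 * I))) x
        (x + s * (j + 9 * I)) 0 0 (3 * s * I + s) 0
      simp only [add_zero, Nat.cast_zero, zero_add] at this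
      push_cast at this
      linarith) 3 w
  push_cast at ht
  linarith

/-- (S6A) Let `l = l0+s(i+3I+k)`, `m = l + s j`, `lI = l - 3sI = l0 + s(i+k)`,
`mI = m + 6sI = lI + s(j+9I)`; then `a = 2l+m = 2lI+mI`, `b + 9sI = lI + 2mI =: bI`.
`DAst = DA(lI,mI) + X`, `X = H(A|a,bI,lI,mI) - H(A|a,bI,l+s,mI)
 = [E(a,bI,l+s,mI) - E(a,bI,lI,mI)] - [E(a+3s,bI,l+s,mI) - E(a+3s,bI,lI,mI)] ≤ g j - g (j+3)` with
`g j = E(a,bI,l+s,mI) - E(a,bI,lI,mI) ∈ [0, 3sI+s]` (fixed `i`; `j → j+3` raises `mI` by `3s`, `a` by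
`3s`, `bI` by `6s`).  The map `(i,j) ↦ (i, j+9I)` is injective into the summation range of the right
hand side, whose terms are nonnegative. -/
theorem S6A (hE : Poly E lam M) (l0 s k I N1 w : ℕ) (h1 : 3 * I + k ≤ N1) (h2 : 9 * I ≤ w) :
    ∑ i ∈ range (N1 - 3 * I - k), ∑ j ∈ range (w - 9 * I),
      DAst E (l0 + s * (i + 3 * I + k)) (l0 + s * (i + 3 * I + k) + s * j) s I ≤
    ∑ i ∈ range (N1 - k), ∑ j ∈ range w, DA E (l0 + s * (i + k)) (l0 + s * (i + k) + s * j) s +
      3 * (3 * s * I + s) * N1 := by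
  have row : ∀ i ∈ range (N1 - 3 * I - k), ∑ j ∈ range (w - 9 * I),
      DAst E (l0 + s * (i + 3 * I + k)) (l0 + s * (i + 3 * I + k) + s * j) s I ≤
      ∑ j ∈ range w, DA E (l0 + s * (i + k)) (l0 + s * (i + k) + s * j) s +
        3 * (3 * s * I + s) := by
    intro i _
    have h := combE_row hE s I (l0 + s * (i + k)) (w - 9 * I)
    have e1 : l0 + s * (i + 3 * I + k) = l0 + s * (i + k) + 3 * s * I := by ring
    rw [e1]
    refine h.trans ?_
    have h3 : ∑ j ∈ range (w - 9 * I), DA E (l0 + s * (i + k)) (l0 + s * (i + k) + s * (j + 9 * I)) s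
        ≤ ∑ j ∈ range w, DA E (l0 + s * (i + k)) (l0 + s * (i + k) + s * j) s := by
      have h4 : ∑ j ∈ range (9 * I + (w - 9 * I)),
          DA E (l0 + s * (i + k)) (l0 + s * (i + k) + s * j) s =
          ∑ j ∈ range (9 * I), DA E (l0 + s * (i + k)) (l0 + s * (i + k) + s * j) s +
          ∑ j ∈ range (w - 9 * I), DA E (l0 + s * (i + k)) (l0 + s * (i + k) + s * (9 * I + j)) s :=
        Finset.sum_range_add _ _ _
      rw [show 9 * I + (w - 9 * I) = w by omega] at h4
      have h5 : 0 ≤ ∑ j ∈ range (9 * I), DA E (l0 + s * (i + k)) (l0 + s * (i + k) + s * j) s :=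
        Finset.sum_nonneg fun j _ => combE_DA_nonneg hE _ _ _
      have h6 : ∑ j ∈ range (w - 9 * I),
          DA E (l0 + s * (i + k)) (l0 + s * (i + k) + s * (9 * I + j)) s =
          ∑ j ∈ range (w - 9 * I),
          DA E (l0 + s * (i + k)) (l0 + s * (i + k) + s * (j + 9 * I)) s :=
        Finset.sum_congr rfl fun j _ => by rw [add_comm (9 * I) j]
      linarith
    linarith
  refine (Finset.sum_le_sum row).trans ?_
  rw [Finset.sum_add_distrib]
  have h3 : ∑ i ∈ range (N1 - 3 * I - k), ∑ j ∈ range w,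
      DA E (l0 + s * (i + k)) (l0 + s * (i + k) + s * j) s ≤
      ∑ i ∈ range (N1 - k), ∑ j ∈ range w,
      DA E (l0 + s * (i + k)) (l0 + s * (i + k) + s * j) s := by
    refine Finset.sum_le_sum_of_subset_of_nonneg ?_ ?_
    · intro i hi
      rw [Finset.mem_range] at hi ⊢
      omega
    · intro i _ _
      exact Finset.sum_nonneg fun j _ => combE_DA_nonneg hE _ _ _
  have h4 : ∑ _i ∈ range (N1 - 3 * I - k), (3 * (3 * (s : ℝ) * I + s)) ≤
      3 * (3 * s * I + s) * N1 := by
    rw [Finset.sum_const, Finset.card_range, nsmul_eq_mul, mul_comm]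
    refine mul_le_mul_of_nonneg_left ?_ (by positivity)
    exact_mod_cast (by omega : N1 - 3 * I - k ≤ N1)
  linarith

end MP_5e4520_nt
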