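import Pool.Agent.Lib.MP_5e4520_nt.CombT
import Pool.Agent.Lib.MP_5e4520_nt.CombE

set_option autoImplicit false

/-!
# The combinatorial part: summing over windows

Windows are `(l, m, u)` with `l = l0 + s i`, `m = l0 + s i + s j`, `i < N1`, `j < w`, `u = s k`.
Write `a = 2l+m`, `b = l+2m`.  `H(X | Y)` denotes differences of `E`.
-/

namespace MP_5e4520_nt

open Finset

variable {E : ℕ → ℕ → ℕ → ℕ → ℝ} {lam : ℝ} {M : ℕ}

theorem combF_DB_nonneg (hE : Poly E lam M) (l m s : ℕ) : 0 ≤ DB E l m s := by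
  have h := hE.lip (2 * l + m) (l + 2 * m) l m 0 (3 * s) 0 0
  simp only [DB, GG]
  push_cast at h
  simp only [add_zero, zero_add] at h
  linarith

theorem combF_embed (f : ℕ → ℝ) (hf : ∀ x, 0 ≤ f x) (n N c : ℕ) (h : n + c ≤ N) :
    ∑ i ∈ range n, f (i + c) ≤ ∑ i ∈ range N, f i := by
  have h1 : ∑ i ∈ range n, f (i + c) = ∑ x ∈ (range n).map (addRightEmbedding c), f x := by
    rw [sum_map]
    rfl
  rw [h1]
  refine sum_le_sum_of_subset_of_nonneg ?_ fun _ _ _ => hf _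
  intro x hx
  rw [mem_map] at hx
  obtain ⟨i, hi, rfl⟩ := hx
  rw [mem_range] at hi ⊢
  simp only [addRightEmbedding_apply]
  omega

/-- the `Y` term -/
def combF_Y (E : ℕ → ℕ → ℕ → ℕ → ℝ) (a bp l lp mp s : ℕ) : ℝ :=
  (E a bp (l + s) mp - E a bp lp mp) - (E a (bp + 3 * s) (l + s) mp - E a (bp + 3 * s) lp mp)

/-- the `Z` term -/
def combF_Z (E : ℕ → ℕ → ℕ → ℕ → ℝ) (a bp l mp s : ℕ) : ℝ :=
  (E a bp (l + s) (mp + s) - E a bp (l + s) mp) -
    (E a (bp + 3 * s) (l + s) (mp + s) - E a (bp + 3 * s) (l + s) mp)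

theorem combF_Z_nonneg (hE : Poly E lam M) (a bp l mp s : ℕ) : 0 ≤ combF_Z E a bp l mp s := by
  have h := hE.sub a bp (l + s) (mp + s) a (bp + 3 * s) (l + s) mp
  rw [max_self, min_self, max_self, min_self, max_eq_right (by omega : bp ≤ bp + 3 * s),
    min_eq_left (by omega : bp ≤ bp + 3 * s), max_eq_left (by omega : mp ≤ mp + s),
    min_eq_right (by omega : mp ≤ mp + s)] at h
  unfold combF_Z
  linarith

/-- `g` for the `Y` term -/
def combF_g (E : ℕ → ℕ → ℕ → ℕ → ℝ) (l lp s p j : ℕ) : ℝ :=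
  E (2 * l + (l + s * j)) (l + 2 * (l + s * j) + 9 * s * p) (l + s) (l + s * j + 6 * s * p) -
    E (2 * l + (l + s * j)) (l + 2 * (l + s * j) + 9 * s * p) lp (l + s * j + 6 * s * p)

theorem combF_g_nonneg (hE : Poly E lam M) {l lp s p : ℕ} (h : lp + 3 * s * p = l) (j : ℕ) :
    0 ≤ combF_g E l lp s p j := by
  unfold combF_g
  have h1 := hE.mono (2 * l + (l + s * j)) (l + 2 * (l + s * j) + 9 * s * p) lp
    (l + s * j + 6 * s * p) (2 * l + (l + s * j)) (l + 2 * (l + s * j) + 9 * s * p) (l + s)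
    (l + s * j + 6 * s * p) le_rfl le_rfl (by omega) le_rfl
  linarith

theorem combF_g_le (hE : Poly E lam M) {l lp s p I : ℕ} (h : lp + 3 * s * p = l) (hp : p ≤ I)
    (j : ℕ) : combF_g E l lp s p j ≤ 3 * s * I + s := by
  unfold combF_g
  have h1 := hE.lip (2 * l + (l + s * j)) (l + 2 * (l + s * j) + 9 * s * p) lp
    (l + s * j + 6 * s * p) 0 0 (3 * s * p + s) 0
  have e : lp + (3 * s * p + s) = l + s := by omega
  rw [e] at h1
  push_cast at h1
  simp only [add_zero, zero_add] at h1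
  have h2 : (3 : ℝ) * s * p ≤ 3 * s * I := by
    have : (p : ℝ) ≤ I := by exact_mod_cast hp
    exact mul_le_mul_of_nonneg_left this (by positivity)
  linarith

theorem combF_Y_le (hE : Poly E lam M) {l lp s p : ℕ} (h : lp + 3 * s * p = l) (j : ℕ) :
    combF_Y E (2 * l + (l + s * j)) (l + 2 * (l + s * j) + 9 * s * p) l lp
      (l + s * j + 6 * s * p) s ≤ combF_g E l lp s p j - combF_g E l lp s p (j + 3) := by
  unfold combF_Y combF_g
  set a := 2 * l + (l + s * j) with ha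
  set bp := l + 2 * (l + s * j) + 9 * s * p with hbp
  set mp := l + s * j + 6 * s * p with hmp
  have e1 : 2 * l + (l + s * (j + 3)) = a + 3 * s := by rw [ha]; ring
  have e2 : l + 2 * (l + s * (j + 3)) + 9 * s * p = bp + 6 * s := by rw [hbp]; ring
  have e3 : l + s * (j + 3) + 6 * s * p = mp + 3 * s := by rw [hmp]; ring
  rw [e1, e2, e3]
  have h1 := hE.sub a (bp + 3 * s) (l + s) mp (a + 3 * s) (bp + 6 * s) lp (mp + 3 * s)
  rw [max_eq_right (by omega : a ≤ a + 3 * s), min_eq_left (by omega : a ≤ a + 3 * s),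
    max_eq_right (by omega : bp + 3 * s ≤ bp + 6 * s),
    min_eq_left (by omega : bp + 3 * s ≤ bp + 6 * s),
    max_eq_left (by omega : lp ≤ l + s), min_eq_right (by omega : lp ≤ l + s),
    max_eq_right (by omega : mp ≤ mp + 3 * s), min_eq_left (by omega : mp ≤ mp + 3 * s)] at h1
  linarith

/-- `g` for the `Z` term -/
def combF_g' (E : ℕ → ℕ → ℕ → ℕ → ℝ) (c m s p i : ℕ) : ℝ :=
  E (2 * (c + s * i) + m) (c + s * i + 2 * m + 9 * s * p) (c + s * i + s) (m + 6 * s * p + s) -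
    E (2 * (c + s * i) + m) (c + s * i + 2 * m + 9 * s * p) (c + s * i + s) (m + 6 * s * p)

theorem combF_g'_nonneg (hE : Poly E lam M) (c m s p i : ℕ) : 0 ≤ combF_g' E c m s p i := by
  unfold combF_g'
  have h1 := hE.mono (2 * (c + s * i) + m) (c + s * i + 2 * m + 9 * s * p) (c + s * i + s)
    (m + 6 * s * p) (2 * (c + s * i) + m) (c + s * i + 2 * m + 9 * s * p) (c + s * i + s)
    (m + 6 * s * p + s) le_rfl le_rfl le_rfl (by omega)
  linarith

theorem combF_g'_le (hE : Poly E lam M) (c m s p i : ℕ) : combF_g' E c m s p i ≤ s := by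
  unfold combF_g'
  have h1 := hE.lip (2 * (c + s * i) + m) (c + s * i + 2 * m + 9 * s * p) (c + s * i + s)
    (m + 6 * s * p) 0 0 0 s
  push_cast at h1
  simp only [add_zero, zero_add] at h1
  linarith

theorem combF_Z_le (hE : Poly E lam M) (c m s p i : ℕ) :
    combF_Z E (2 * (c + s * i) + m) (c + s * i + 2 * m + 9 * s * p) (c + s * i) (m + 6 * s * p) s ≤
      combF_g' E c m s p i - combF_g' E c m s p (i + 3) := by
  unfold combF_Z combF_g'
  set l := c + s * i with hl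
  have e0 : c + s * (i + 3) = l + 3 * s := by rw [hl]; ring
  rw [e0]
  set a := 2 * l + m with ha
  set bp := l + 2 * m + 9 * s * p with hbp
  set mp := m + 6 * s * p with hmp
  have e1 : 2 * (l + 3 * s) + m = a + 6 * s := by rw [ha]; ring
  have e2 : l + 3 * s + 2 * m + 9 * s * p = bp + 3 * s := by rw [hbp]; ring
  rw [e1, e2]
  have h1 := hE.sub a (bp + 3 * s) (l + s) (mp + s) (a + 6 * s) (bp + 3 * s) (l + 3 * s + s) mp
  rw [max_eq_right (by omega : a ≤ a + 6 * s), min_eq_left (by omega : a ≤ a + 6 * s),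
    max_self, min_self,
    max_eq_right (by omega : l + s ≤ l + 3 * s + s), min_eq_left (by omega : l + s ≤ l + 3 * s + s),
    max_eq_left (by omega : mp ≤ mp + s), min_eq_right (by omega : mp ≤ mp + s)] at h1
  linarith

/-- (S6B) Let `l = l0+s(i+3I+k)`, `m = l + s j`, `lp = l - 3sp`, `mp = m + 6sp`,
`bp = lp + 2mp = b + 9sp`, `a = 2l+m = 2lp+mp`.  `Bst p = DB(lp,mp) + Y + Z`,
`Y = H(B|a,bp,lp,mp) - H(B|a,bp,l+s,mp)
   = [E(a,bp,l+s,mp) - E(a,bp,lp,mp)] - [E(a,bp+3s,l+s,mp) - E(a,bp+3s,lp,mp)] ≤ g j - g (j+3)`,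
`g j = E(a,bp,l+s,mp) - E(a,bp,lp,mp) ∈ [0,3sp+s]` (fixed `i`; `j → j+3`: `a + 3s`, `bp + 6s`,
`mp + 3s`); and `Z = H(B|a,bp,l+s,mp) - H(B|a,bp,l+s,mp+s)
   = [E(a,bp,l+s,mp+s) - E(a,bp,l+s,mp)] - [E(a,bp+3s,l+s,mp+s) - E(a,bp+3s,l+s,mp)] ≤ g i - g (i+3)`
with `t = i + j` fixed (so `mp` is fixed), `g i = E(a,bp,l+s,mp+s) - E(a,bp,l+s,mp) ∈ [0,s]`
(`i → i+3`: `a + 6s`, `bp + 3s`, `l+s → l+4s`).  `Z ≥ 0`; sum over all `i < N1`, `t < N1 + w`. -/
theorem S6B (hE : Poly E lam M) (l0 s k I N1 w p : ℕ) (hp : p ≤ I) (h1 : 3 * I + k ≤ N1)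
    (h2 : 9 * I ≤ w) :
    ∑ i ∈ range (N1 - 3 * I - k), ∑ j ∈ range (w - 9 * I),
      Bst E (l0 + s * (i + 3 * I + k)) (l0 + s * (i + 3 * I + k) + s * j) s p ≤
    ∑ i ∈ range (N1 - k), ∑ j ∈ range w, DB E (l0 + s * (i + k)) (l0 + s * (i + k) + s * j) s +
      3 * (3 * s * I + s) * N1 + 3 * s * (N1 + w) := by
  obtain ⟨q, rfl⟩ := Nat.exists_eq_add_of_le hp
  -- the decomposition
  have key : ∀ i j : ℕ,
      Bst E (l0 + s * (i + 3 * (p + q) + k)) (l0 + s * (i + 3 * (p + q) + k) + s * j) s p =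
      DB E (l0 + s * (i + 3 * q + k)) (l0 + s * (i + 3 * q + k) + s * (j + 9 * p)) s +
      combF_Y E (2 * (l0 + s * (i + 3 * (p + q) + k)) + (l0 + s * (i + 3 * (p + q) + k) + s * j))
        (l0 + s * (i + 3 * (p + q) + k) + 2 * (l0 + s * (i + 3 * (p + q) + k) + s * j) + 9 * s * p)
        (l0 + s * (i + 3 * (p + q) + k)) (l0 + s * (i + 3 * q + k))
        (l0 + s * (i + 3 * (p + q) + k) + s * j + 6 * s * p) s +
      combF_Z E (2 * (l0 + s * (i + 3 * (p + q) + k)) + (l0 + s * (i + 3 * (p + q) + k) + s * j))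
        (l0 + s * (i + 3 * (p + q) + k) + 2 * (l0 + s * (i + 3 * (p + q) + k) + s * j) + 9 * s * p)
        (l0 + s * (i + 3 * (p + q) + k))
        (l0 + s * (i + 3 * (p + q) + k) + s * j + 6 * s * p) s := by
    intro i j
    have e1 : 2 * (l0 + s * (i + 3 * q + k)) + (l0 + s * (i + 3 * q + k) + s * (j + 9 * p)) =
        2 * (l0 + s * (i + 3 * (p + q) + k)) + (l0 + s * (i + 3 * (p + q) + k) + s * j) := by ring
    have e2 : (l0 + s * (i + 3 * q + k)) + 2 * (l0 + s * (i + 3 * q + k) + s * (j + 9 * p)) =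
        l0 + s * (i + 3 * (p + q) + k) + 2 * (l0 + s * (i + 3 * (p + q) + k) + s * j) +
          9 * s * p := by ring
    have e3 : l0 + s * (i + 3 * q + k) + s * (j + 9 * p) =
        l0 + s * (i + 3 * (p + q) + k) + s * j + 6 * s * p := by ring
    unfold Bst DB GG combF_Y combF_Z
    rw [e1, e2, e3]
    ring
  simp_rw [key, sum_add_distrib]
  have hD : ∑ i ∈ range (N1 - 3 * (p + q) - k), ∑ j ∈ range (w - 9 * (p + q)),
      DB E (l0 + s * (i + 3 * q + k)) (l0 + s * (i + 3 * q + k) + s * (j + 9 * p)) s ≤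
      ∑ i ∈ range (N1 - k), ∑ j ∈ range w,
        DB E (l0 + s * (i + k)) (l0 + s * (i + k) + s * j) s := by
    have a1 : ∀ i ∈ range (N1 - 3 * (p + q) - k), ∑ j ∈ range (w - 9 * (p + q)),
        DB E (l0 + s * (i + 3 * q + k)) (l0 + s * (i + 3 * q + k) + s * (j + 9 * p)) s ≤
        ∑ j ∈ range w, DB E (l0 + s * (i + 3 * q + k)) (l0 + s * (i + 3 * q + k) + s * j) s :=
      fun i _ => combF_embed
        (fun j => DB E (l0 + s * (i + 3 * q + k)) (l0 + s * (i + 3 * q + k) + s * j) s)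
        (fun j => combF_DB_nonneg hE _ _ _) _ _ (9 * p) (by omega)
    refine (sum_le_sum a1).trans ?_
    exact combF_embed (fun i => ∑ j ∈ range w,
      DB E (l0 + s * (i + k)) (l0 + s * (i + k) + s * j) s)
      (fun i => sum_nonneg fun j _ => combF_DB_nonneg hE _ _ _) _ _ (3 * q) (by omega)
  have hY : ∑ i ∈ range (N1 - 3 * (p + q) - k), ∑ j ∈ range (w - 9 * (p + q)),
      combF_Y E (2 * (l0 + s * (i + 3 * (p + q) + k)) + (l0 + s * (i + 3 * (p + q) + k) + s * j))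
        (l0 + s * (i + 3 * (p + q) + k) + 2 * (l0 + s * (i + 3 * (p + q) + k) + s * j) + 9 * s * p)
        (l0 + s * (i + 3 * (p + q) + k)) (l0 + s * (i + 3 * q + k))
        (l0 + s * (i + 3 * (p + q) + k) + s * j + 6 * s * p) s ≤
      3 * (3 * s * ((p + q : ℕ) : ℝ) + s) * N1 := by
    have a1 : ∀ i ∈ range (N1 - 3 * (p + q) - k), ∑ j ∈ range (w - 9 * (p + q)),
        combF_Y E (2 * (l0 + s * (i + 3 * (p + q) + k)) +
          (l0 + s * (i + 3 * (p + q) + k) + s * j))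
        (l0 + s * (i + 3 * (p + q) + k) + 2 * (l0 + s * (i + 3 * (p + q) + k) + s * j) + 9 * s * p)
        (l0 + s * (i + 3 * (p + q) + k)) (l0 + s * (i + 3 * q + k))
        (l0 + s * (i + 3 * (p + q) + k) + s * j + 6 * s * p) s ≤
        3 * (3 * s * ((p + q : ℕ) : ℝ) + s) := by
      intro i _
      have hlp : l0 + s * (i + 3 * q + k) + 3 * s * p = l0 + s * (i + 3 * (p + q) + k) := by ring
      refine (sum_le_sum fun j _ => combF_Y_le hE hlp j).trans ?_
      have := tele (combF_g E (l0 + s * (i + 3 * (p + q) + k)) (l0 + s * (i + 3 * q + k)) s p)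
        (3 * s * ((p + q : ℕ) : ℝ) + s) (combF_g_nonneg hE hlp)
        (fun j => combF_g_le hE hlp (Nat.le_add_right p q) j) 3 (w - 9 * (p + q))
      exact_mod_cast this
    refine (sum_le_sum a1).trans ?_
    rw [sum_const, card_range, nsmul_eq_mul, mul_comm]
    refine mul_le_mul_of_nonneg_left ?_ (by positivity)
    exact_mod_cast (by omega : N1 - 3 * (p + q) - k ≤ N1)
  have hZ : ∑ i ∈ range (N1 - 3 * (p + q) - k), ∑ j ∈ range (w - 9 * (p + q)),
      combF_Z E (2 * (l0 + s * (i + 3 * (p + q) + k)) + (l0 + s * (i + 3 * (p + q) + k) + s * j))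
        (l0 + s * (i + 3 * (p + q) + k) + 2 * (l0 + s * (i + 3 * (p + q) + k) + s * j) + 9 * s * p)
        (l0 + s * (i + 3 * (p + q) + k))
        (l0 + s * (i + 3 * (p + q) + k) + s * j + 6 * s * p) s ≤ 3 * s * (N1 + w) := by
    set c := l0 + s * (3 * (p + q) + k) with hc
    have a1 : ∀ i ∈ range (N1 - 3 * (p + q) - k), ∑ j ∈ range (w - 9 * (p + q)),
        combF_Z E (2 * (l0 + s * (i + 3 * (p + q) + k)) +
          (l0 + s * (i + 3 * (p + q) + k) + s * j))
        (l0 + s * (i + 3 * (p + q) + k) + 2 * (l0 + s * (i + 3 * (p + q) + k) + s * j) + 9 * s * p)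
        (l0 + s * (i + 3 * (p + q) + k))
        (l0 + s * (i + 3 * (p + q) + k) + s * j + 6 * s * p) s ≤
        ∑ t ∈ range (N1 + w), combF_Z E (2 * (c + s * i) + (c + s * t))
          (c + s * i + 2 * (c + s * t) + 9 * s * p) (c + s * i) (c + s * t + 6 * s * p) s := by
      intro i hi
      rw [mem_range] at hi
      have := combF_embed (fun t => combF_Z E (2 * (c + s * i) + (c + s * t))
          (c + s * i + 2 * (c + s * t) + 9 * s * p) (c + s * i) (c + s * t + 6 * s * p) s)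
        (fun t => combF_Z_nonneg hE _ _ _ _ _) (w - 9 * (p + q)) (N1 + w) i (by omega)
      refine le_trans (le_of_eq ?_) this
      refine sum_congr rfl fun j _ => ?_
      have e1 : l0 + s * (i + 3 * (p + q) + k) = c + s * i := by rw [hc]; ring
      have e2 : c + s * i + s * j = c + s * (j + i) := by ring
      rw [e1, e2]
    refine (sum_le_sum a1).trans ?_
    rw [sum_comm]
    have a2 : ∀ t ∈ range (N1 + w), ∑ i ∈ range (N1 - 3 * (p + q) - k),
        combF_Z E (2 * (c + s * i) + (c + s * t))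
          (c + s * i + 2 * (c + s * t) + 9 * s * p) (c + s * i) (c + s * t + 6 * s * p) s ≤
        3 * s := by
      intro t _
      refine (sum_le_sum fun i _ => combF_Z_le hE c (c + s * t) s p i).trans ?_
      have := tele (combF_g' E c (c + s * t) s p) s (combF_g'_nonneg hE c (c + s * t) s p)
        (combF_g'_le hE c (c + s * t) s p) 3 (N1 - 3 * (p + q) - k)
      exact_mod_cast this
    refine (sum_le_sum a2).trans ?_
    rw [sum_const, card_range, nsmul_eq_mul]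
    push_cast
    rw [mul_comm]
  linarith

/-- (S7) Averaging over the `(N1-3I-k)(w-9I)` rows. -/
theorem S7 (hE : Poly E lam M) (l0 s k I N1 w : ℕ) (hk : 1 ≤ k) (hI : 1 ≤ I)
    (h1 : 3 * I + k ≤ N1) (h2 : 9 * I ≤ w) (X T : ℝ) (hX : 0 ≤ X)
    (hA : k * ∑ i ∈ range (N1 - k), ∑ j ∈ range w,
      DA E (l0 + s * (i + k)) (l0 + s * (i + k) + s * j) s ≤ T)
    (hB : k * ∑ i ∈ range (N1 - k), ∑ j ∈ range w,
      DB E (l0 + s * (i + k)) (l0 + s * (i + k) + s * j) s ≤ T)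
    (hnum : (2 + X) * (T / k + 3 * (3 * s * I + s) * N1 + 3 * s * (N1 + w)) <
      ((N1 : ℝ) - 3 * I - k) * ((w : ℝ) - 9 * I)) :
    ∃ i j : ℕ, i < N1 - 3 * I - k ∧ j < w - 9 * I ∧ ∀ l m : ℕ, l = l0 + s * (i + 3 * I + k) →
      m = l0 + s * (i + 3 * I + k) + s * j →
      2 * DAst E l m s I + X * ((∑ p ∈ range I, Bst E l m s p) / I) < 1 := by
  by_contra hcon
  push Not at hcon
  have hk0 : (0 : ℝ) < k := by exact_mod_cast hk
  have hI0 : (0 : ℝ) < I := by exact_mod_cast hI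
  set V : ℝ := T / k + 3 * (3 * s * I + s) * N1 + 3 * s * (N1 + w) with hV
  have b1 : ∀ i ∈ range (N1 - 3 * I - k), ∀ j ∈ range (w - 9 * I),
      (1 : ℝ) ≤ 2 * DAst E (l0 + s * (i + 3 * I + k)) (l0 + s * (i + 3 * I + k) + s * j) s I +
        X * ((∑ p ∈ range I,
          Bst E (l0 + s * (i + 3 * I + k)) (l0 + s * (i + 3 * I + k) + s * j) s p) / I) := by
    intro i hi j hj
    rw [mem_range] at hi hj
    obtain ⟨l, m, hl, hm, h⟩ := hcon i j hi hj
    subst hl
    subst hm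
    exact h
  have b2 := sum_le_sum fun i hi => sum_le_sum fun j hj => b1 i hi j hj
  simp only [sum_const, card_range, nsmul_eq_mul, mul_one, sum_add_distrib, ← mul_sum,
    ← sum_div] at b2
  have c1 := S6A hE l0 s k I N1 w h1 h2
  have d1 : ∑ i ∈ range (N1 - k), ∑ j ∈ range w,
      DA E (l0 + s * (i + k)) (l0 + s * (i + k) + s * j) s ≤ T / k := by
    rw [le_div_iff₀ hk0, mul_comm]; exact hA
  have d2 : ∑ i ∈ range (N1 - k), ∑ j ∈ range w,
      DB E (l0 + s * (i + k)) (l0 + s * (i + k) + s * j) s ≤ T / k := by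
    rw [le_div_iff₀ hk0, mul_comm]; exact hB
  have d3 : (0 : ℝ) ≤ 3 * s * (N1 + w) := by positivity
  have c2 : ∑ i ∈ range (N1 - 3 * I - k), ∑ j ∈ range (w - 9 * I), ∑ p ∈ range I,
      Bst E (l0 + s * (i + 3 * I + k)) (l0 + s * (i + 3 * I + k) + s * j) s p ≤ I * V := by
    have e : ∑ i ∈ range (N1 - 3 * I - k), ∑ j ∈ range (w - 9 * I), ∑ p ∈ range I,
        Bst E (l0 + s * (i + 3 * I + k)) (l0 + s * (i + 3 * I + k) + s * j) s p =
        ∑ p ∈ range I, ∑ i ∈ range (N1 - 3 * I - k), ∑ j ∈ range (w - 9 * I),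
        Bst E (l0 + s * (i + 3 * I + k)) (l0 + s * (i + 3 * I + k) + s * j) s p := by
      conv_rhs => rw [sum_comm]
      refine sum_congr rfl fun i _ => ?_
      rw [sum_comm]
    rw [e]
    have : ∀ p ∈ range I, ∑ i ∈ range (N1 - 3 * I - k), ∑ j ∈ range (w - 9 * I),
        Bst E (l0 + s * (i + 3 * I + k)) (l0 + s * (i + 3 * I + k) + s * j) s p ≤ V := by
      intro p hp
      have := S6B hE l0 s k I N1 w p (mem_range.1 hp).le h1 h2
      rw [hV]
      linarith
    refine (sum_le_sum this).trans ?_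
    rw [sum_const, card_range, nsmul_eq_mul]
  have c3 : (∑ i ∈ range (N1 - 3 * I - k), ∑ j ∈ range (w - 9 * I), ∑ p ∈ range I,
      Bst E (l0 + s * (i + 3 * I + k)) (l0 + s * (i + 3 * I + k) + s * j) s p) / I ≤ V := by
    rw [div_le_iff₀ hI0]
    exact c2.trans (mul_comm _ _).le
  have c4 := mul_le_mul_of_nonneg_left c3 hX
  have c5 : ∑ i ∈ range (N1 - 3 * I - k), ∑ j ∈ range (w - 9 * I),
      DAst E (l0 + s * (i + 3 * I + k)) (l0 + s * (i + 3 * I + k) + s * j) s I ≤ V := by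
    rw [hV]
    linarith
  have c6 : ((N1 - 3 * I - k : ℕ) : ℝ) = (N1 : ℝ) - 3 * I - k := by
    rw [Nat.cast_sub (by omega), Nat.cast_sub (by omega)]
    push_cast
    ring
  have c7 : ((w - 9 * I : ℕ) : ℝ) = (w : ℝ) - 9 * I := by
    rw [Nat.cast_sub h2]
    push_cast
    ring
  rw [c6, c7] at b2
  linarith

end MP_5e4520_nt
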