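import Pool.Agent.Lib.MP_5e4520_nt.CombT

set_option autoImplicit false

/-!
# The combinatorial part: summing over windows

Windows are `(l, m, u)` with `l = l0 + s i`, `m = l0 + s i + s j`, `i < N1`, `j < w`, `u = s k`.
Write `a = 2l+m`, `b = l+2m`.  `H(X | Y)` denotes differences of `E`.
-/

namespace MP_5e4520_nt

open Finset

variable {E : ℕ → ℕ → ℕ → ℕ → ℝ} {lam : ℝ} {M : ℕ}

/-- submodularity: `(C, D)` against `(B, D)` -/
private theorem combA_sub1 (hE : Poly E lam M) (A B C D y z t : ℕ) :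
    E A (B + y) (C + z) (D + t) + E A B C D ≤ E A B (C + z) D + E A (B + y) C (D + t) := by
  have h := hE.sub A B (C + z) D A (B + y) C (D + t)
  have e1 : max A A = A := max_self A
  have e2 : min A A = A := min_self A
  have e3 : max B (B + y) = B + y := max_eq_right (Nat.le_add_right _ _)
  have e4 : min B (B + y) = B := min_eq_left (Nat.le_add_right _ _)
  have e5 : max (C + z) C = C + z := max_eq_left (Nat.le_add_right _ _)
  have e6 : min (C + z) C = C := min_eq_right (Nat.le_add_right _ _)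
  have e7 : max D (D + t) = D + t := max_eq_right (Nat.le_add_right _ _)
  have e8 : min D (D + t) = D := min_eq_left (Nat.le_add_right _ _)
  rw [e1, e2, e3, e4, e5, e6, e7, e8] at h
  exact h

/-- submodularity: `D` against `(A, B, C)` -/
private theorem combA_sub2 (hE : Poly E lam M) (A B C D x y z t : ℕ) :
    E (A + x) (B + y) (C + z) (D + t) + E A B C D ≤ E A B C (D + t) + E (A + x) (B + y) (C + z) D := by
  have h := hE.sub A B C (D + t) (A + x) (B + y) (C + z) D
  have e1 : max A (A + x) = A + x := max_eq_right (Nat.le_add_right _ _)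
  have e2 : min A (A + x) = A := min_eq_left (Nat.le_add_right _ _)
  have e3 : max B (B + y) = B + y := max_eq_right (Nat.le_add_right _ _)
  have e4 : min B (B + y) = B := min_eq_left (Nat.le_add_right _ _)
  have e5 : max C (C + z) = C + z := max_eq_right (Nat.le_add_right _ _)
  have e6 : min C (C + z) = C := min_eq_left (Nat.le_add_right _ _)
  have e7 : max (D + t) D = D + t := max_eq_left (Nat.le_add_right _ _)
  have e8 : min (D + t) D = D := min_eq_right (Nat.le_add_right _ _)
  rw [e1, e2, e3, e4, e5, e6, e7, e8] at h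
  exact h

/-- `I(AB;C|base)` -/
private noncomputable def combA_I1 (E : ℕ → ℕ → ℕ → ℕ → ℝ) (l m u : ℕ) : ℝ :=
  (E (2 * l + m) (l + 2 * m) (l + u) m - E (2 * l + m) (l + 2 * m) l m) -
  (E (2 * l + m + 3 * u) (l + 2 * m + 3 * u) (l + u) m -
    E (2 * l + m + 3 * u) (l + 2 * m + 3 * u) l m)

/-- `I(AB;D|base,C)` -/
private noncomputable def combA_I2 (E : ℕ → ℕ → ℕ → ℕ → ℝ) (l m u : ℕ) : ℝ :=
  (E (2 * l + m) (l + 2 * m) (l + u) (m + u) - E (2 * l + m) (l + 2 * m) (l + u) m) -
  (E (2 * l + m + 3 * u) (l + 2 * m + 3 * u) (l + u) (m + u) -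
    E (2 * l + m + 3 * u) (l + 2 * m + 3 * u) (l + u) m)

private theorem combA_split (E : ℕ → ℕ → ℕ → ℕ → ℝ) (l m u : ℕ) :
    IABCD E l m u = combA_I1 E l m u + combA_I2 E l m u := by
  unfold IABCD combA_I1 combA_I2 GG
  ring

private noncomputable def combA_g1 (E : ℕ → ℕ → ℕ → ℕ → ℝ) (l u m : ℕ) : ℝ :=
  E (2 * l + m) (l + 2 * m) (l + u) m - E (2 * l + m) (l + 2 * m) l m

private noncomputable def combA_g2 (E : ℕ → ℕ → ℕ → ℕ → ℝ) (m u l : ℕ) : ℝ :=
  E (2 * l + m) (l + 2 * m) (l + u) (m + u) - E (2 * l + m) (l + 2 * m) (l + u) m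

private theorem combA_g1_nonneg (hE : Poly E lam M) (l u m : ℕ) : 0 ≤ combA_g1 E l u m := by
  have := hE.mono (2 * l + m) (l + 2 * m) l m (2 * l + m) (l + 2 * m) (l + u) m le_rfl le_rfl
    (Nat.le_add_right _ _) le_rfl
  unfold combA_g1
  linarith

private theorem combA_g1_le (hE : Poly E lam M) (l u m : ℕ) : combA_g1 E l u m ≤ u := by
  have := hE.lip (2 * l + m) (l + 2 * m) l m 0 0 u 0
  simp only [add_zero, Nat.cast_zero, zero_add] at this
  unfold combA_g1
  linarith

private theorem combA_g2_nonneg (hE : Poly E lam M) (m u l : ℕ) : 0 ≤ combA_g2 E m u l := by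
  have := hE.mono (2 * l + m) (l + 2 * m) (l + u) m (2 * l + m) (l + 2 * m) (l + u) (m + u) le_rfl
    le_rfl le_rfl (Nat.le_add_right _ _)
  unfold combA_g2
  linarith

private theorem combA_g2_le (hE : Poly E lam M) (m u l : ℕ) : combA_g2 E m u l ≤ u := by
  have := hE.lip (2 * l + m) (l + 2 * m) (l + u) m 0 0 0 u
  simp only [add_zero, Nat.cast_zero, zero_add] at this
  unfold combA_g2
  linarith

private theorem combA_I1_le (hE : Poly E lam M) (l m u : ℕ) :
    combA_I1 E l m u ≤ combA_g1 E l u m - combA_g1 E l u (m + 3 * u) := by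
  have h := combA_sub1 hE (2 * l + m + 3 * u) (l + 2 * m + 3 * u) l m (3 * u) u (3 * u)
  have e1 : 2 * l + (m + 3 * u) = 2 * l + m + 3 * u := by omega
  have e2 : l + 2 * (m + 3 * u) = l + 2 * m + 3 * u + 3 * u := by omega
  unfold combA_I1 combA_g1
  rw [e1, e2]
  linarith

private theorem combA_I2_le (hE : Poly E lam M) (l m u : ℕ) :
    combA_I2 E l m u ≤ combA_g2 E m u l - combA_g2 E m u (l + 3 * u) := by
  have h := combA_sub2 hE (2 * l + m + 3 * u) (l + 2 * m + 3 * u) (l + u) m (3 * u) 0 (3 * u) u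
  have e1 : 2 * (l + 3 * u) + m = 2 * l + m + 3 * u + 3 * u := by omega
  have e2 : l + 3 * u + 2 * m = l + 2 * m + 3 * u := by omega
  have e3 : l + 3 * u + u = l + u + 3 * u := by omega
  unfold combA_I2 combA_g2
  rw [e1, e2, e3]
  rw [add_zero] at h
  linarith

private theorem combA_I2_nonneg (hE : Poly E lam M) (l m u : ℕ) : 0 ≤ combA_I2 E l m u := by
  have h := combA_sub2 hE (2 * l + m) (l + 2 * m) (l + u) m (3 * u) (3 * u) 0 u
  unfold combA_I2
  rw [add_zero] at h
  linarith

/-- (S1) `IABCD = I(AB;C|base) + I(AB;D|base,C)` with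
`I(AB;C|base) = [E(a,b,l+u,m) - E(a,b,l,m)] - [E(a+3u,b+3u,l+u,m) - E(a+3u,b+3u,l,m)] ≤ g j - g (j+3k)`,
`g j = E(a,b,l+u,m) - E(a,b,l,m) ∈ [0,u]` at fixed `i` (raising `m` by `3u` raises `a` by `3u`, `b` by
`6u`; submodularity), so by `tele` the sum over `j` is `≤ 3k u` for each `i`.
`I(AB;D|base,C) = [E(a,b,l+u,m+u) - E(a,b,l+u,m)] - [E(a+3u,b+3u,l+u,m+u) - E(a+3u,b+3u,l+u,m)] =: f`.
It is nonnegative; reindex by `t = i + j` (so `m = l0 + s t` is fixed) and sum over all `i < N1`,
`t < N1 + w`; raising `l` by `3u` raises `a` by `6u`, `b` by `3u` and `l+u` to `l+4u`, so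
`f ≤ g i - g (i+3k)`, `g i = E(a,b,l+u,m+u) - E(a,b,l+u,m) ∈ [0,u]`; total `≤ (N1+w) 3k u`. -/
theorem S1 (hE : Poly E lam M) (l0 s k N1 w : ℕ) :
    ∑ i ∈ range N1, ∑ j ∈ range w, IABCD E (l0 + s * i) (l0 + s * i + s * j) (s * k) ≤
      3 * k * (s * k) * (2 * N1 + w) := by
  have hsplit : ∑ i ∈ range N1, ∑ j ∈ range w, IABCD E (l0 + s * i) (l0 + s * i + s * j) (s * k) =
      ∑ i ∈ range N1, ∑ j ∈ range w, combA_I1 E (l0 + s * i) (l0 + s * i + s * j) (s * k) +
      ∑ i ∈ range N1, ∑ j ∈ range w, combA_I2 E (l0 + s * i) (l0 + s * i + s * j) (s * k) := by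
    rw [← sum_add_distrib]
    refine sum_congr rfl fun i _ => ?_
    rw [← sum_add_distrib]
    exact sum_congr rfl fun j _ => combA_split _ _ _ _
  have h1 : ∑ i ∈ range N1, ∑ j ∈ range w,
      combA_I1 E (l0 + s * i) (l0 + s * i + s * j) (s * k) ≤ N1 * (3 * k * (s * k)) := by
    have hi : ∀ i ∈ range N1, ∑ j ∈ range w,
        combA_I1 E (l0 + s * i) (l0 + s * i + s * j) (s * k) ≤ 3 * k * (s * k) := by
      intro i _
      have ht := tele (fun j => combA_g1 E (l0 + s * i) (s * k) (l0 + s * i + s * j)) (s * k)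
        (fun j => combA_g1_nonneg hE _ _ _)
        (fun j => by have := combA_g1_le hE (l0 + s * i) (s * k) (l0 + s * i + s * j)
                     push_cast at this; exact this) (3 * k) w
      refine le_trans (sum_le_sum fun j _ => ?_) (le_trans ht (le_of_eq (by push_cast; ring)))
      have e : l0 + s * i + s * (j + 3 * k) = l0 + s * i + s * j + 3 * (s * k) := by ring
      show _ ≤ combA_g1 E (l0 + s * i) (s * k) (l0 + s * i + s * j) -
        combA_g1 E (l0 + s * i) (s * k) (l0 + s * i + s * (j + 3 * k))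
      rw [e]
      exact combA_I1_le hE _ _ _
    refine le_trans (sum_le_sum hi) (le_of_eq ?_)
    rw [sum_const, card_range, nsmul_eq_mul]
  have h2 : ∑ i ∈ range N1, ∑ j ∈ range w,
      combA_I2 E (l0 + s * i) (l0 + s * i + s * j) (s * k) ≤ (N1 + w) * (3 * k * (s * k)) := by
    have ha : ∑ i ∈ range N1, ∑ j ∈ range w,
        combA_I2 E (l0 + s * i) (l0 + s * i + s * j) (s * k) ≤
        ∑ i ∈ range N1, ∑ t ∈ range (N1 + w), combA_I2 E (l0 + s * i) (l0 + s * t) (s * k) := by
      refine sum_le_sum fun i hi => ?_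
      have hi' : i < N1 := mem_range.mp hi
      have e1 : ∑ j ∈ range w, combA_I2 E (l0 + s * i) (l0 + s * i + s * j) (s * k) =
          ∑ j ∈ range w, combA_I2 E (l0 + s * i) (l0 + s * (i + j)) (s * k) :=
        sum_congr rfl fun j _ => by rw [mul_add, ← add_assoc]
      have e2 : ∑ t ∈ range (i + w), combA_I2 E (l0 + s * i) (l0 + s * t) (s * k) =
          ∑ t ∈ range i, combA_I2 E (l0 + s * i) (l0 + s * t) (s * k) +
          ∑ j ∈ range w, combA_I2 E (l0 + s * i) (l0 + s * (i + j)) (s * k) :=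
        Finset.sum_range_add _ _ _
      have e3 : 0 ≤ ∑ t ∈ range i, combA_I2 E (l0 + s * i) (l0 + s * t) (s * k) :=
        sum_nonneg fun t _ => combA_I2_nonneg hE _ _ _
      have e4 : ∑ t ∈ range (i + w), combA_I2 E (l0 + s * i) (l0 + s * t) (s * k) ≤
          ∑ t ∈ range (N1 + w), combA_I2 E (l0 + s * i) (l0 + s * t) (s * k) :=
        sum_le_sum_of_subset_of_nonneg
          (fun t ht => mem_range.mpr (lt_of_lt_of_le (mem_range.mp ht) (by omega)))
          (fun t _ _ => combA_I2_nonneg hE _ _ _)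
      linarith
    refine le_trans ha ?_
    rw [sum_comm]
    have ht : ∀ t ∈ range (N1 + w), ∑ i ∈ range N1,
        combA_I2 E (l0 + s * i) (l0 + s * t) (s * k) ≤ 3 * k * (s * k) := by
      intro t _
      have ht := tele (fun i => combA_g2 E (l0 + s * t) (s * k) (l0 + s * i)) (s * k)
        (fun i => combA_g2_nonneg hE _ _ _)
        (fun i => by have := combA_g2_le hE (l0 + s * t) (s * k) (l0 + s * i)
                     push_cast at this; exact this) (3 * k) N1
      refine le_trans (sum_le_sum fun i _ => ?_) (le_trans ht (le_of_eq (by push_cast; ring)))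
      have e : l0 + s * (i + 3 * k) = l0 + s * i + 3 * (s * k) := by ring
      show _ ≤ combA_g2 E (l0 + s * t) (s * k) (l0 + s * i) -
        combA_g2 E (l0 + s * t) (s * k) (l0 + s * (i + 3 * k))
      rw [e]
      exact combA_I2_le hE _ _ _
    refine le_trans (sum_le_sum ht) (le_of_eq ?_)
    rw [sum_const, card_range, nsmul_eq_mul]
    push_cast
    ring
  rw [hsplit]
  refine le_trans (add_le_add h1 h2) (le_of_eq ?_)
  ring

end MP_5e4520_nt
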