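import Pool.Agent.Lib.MP_5e4520_nt.CombT

set_option autoImplicit false

/-!
# The combinatorial part: summing over windows

Windows are `(l, m, u)` with `l = l0 + s i`, `m = l0 + s i + s j`, `i < N1`, `j < w`, `u = s k`.
Write `a = 2l+m`, `b = l+2m`.  `H(X | Y)` denotes differences of `E`.
-/

namespace MP_5e4520_nt

open Finset

variable {E : ℕ → ℕ → ℕ → ℕ → ℝ} {lam : ℝ} {M : ℕ}

theorem combB_DA_nonneg (hE : Poly E lam M) (l m u : ℕ) : 0 ≤ DA E l m u := by
  have h := hE.lip (2 * l + m) (l + 2 * m) l m (3 * u) 0 0 0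
  simp only [add_zero, Nat.cast_zero] at h
  push_cast at h
  unfold DA GG
  linarith

theorem combB_DA_le (hE : Poly E lam M) (l m u : ℕ) : DA E l m u ≤ 3 * u := by
  have h := hE.mono (2 * l + m) (l + 2 * m) l m (2 * l + m + 3 * u) (l + 2 * m) l m
    (Nat.le_add_right _ _) le_rfl le_rfl le_rfl
  unfold DA GG
  linarith

/-- the auxiliary function `g` -/
noncomputable def combBg (E : ℕ → ℕ → ℕ → ℕ → ℝ) (x s k j : ℕ) : ℝ :=
  E (3 * x + 9 * (s * k) + s * j) (3 * x + 18 * (s * k) + 2 * (s * j)) (x + 3 * (s * k))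
    (x + 3 * (s * k) + s * j) -
  E (3 * x + 9 * (s * k) + s * j) (3 * x + 18 * (s * k) + 2 * (s * j)) x (x + 3 * (s * k) + s * j)

theorem combB_term (hE : Poly E lam M) (x s k j : ℕ) :
    IAB E (x + 3 * (s * k)) (x + 3 * (s * k) + s * j) (s * k) ≤
      DA E x (x + s * (j + 9 * k)) (s * k) -
        DA E (x + 3 * (s * k)) (x + 3 * (s * k) + s * j) (s * k) +
      (combBg E x s k j - combBg E x s k (j + 3 * k)) := by
  have e1 : 2 * (x + 3 * (s * k)) + (x + 3 * (s * k) + s * j) = 3 * x + 9 * (s * k) + s * j := by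
    ring
  have e2 : (x + 3 * (s * k)) + 2 * (x + 3 * (s * k) + s * j) =
      3 * x + 9 * (s * k) + 2 * (s * j) := by ring
  have e3 : 2 * x + (x + s * (j + 9 * k)) = 3 * x + 9 * (s * k) + s * j := by ring
  have e4 : x + 2 * (x + s * (j + 9 * k)) = 3 * x + 18 * (s * k) + 2 * (s * j) := by ring
  have e5 : x + s * (j + 9 * k) = x + 3 * (s * k) + s * j + 6 * (s * k) := by ring
  have e6 : 3 * x + 9 * (s * k) + s * (j + 3 * k) = 3 * x + 9 * (s * k) + s * j + 3 * (s * k) := by
    ring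
  have e7 : 3 * x + 18 * (s * k) + 2 * (s * (j + 3 * k)) =
    3 * x + 18 * (s * k) + 2 * (s * j) + 6 * (s * k) := by ring
  have e8 : x + 3 * (s * k) + s * (j + 3 * k) = x + 3 * (s * k) + s * j + 3 * (s * k) := by ring
  -- step 1
  have h1 := hE.sub (3 * x + 9 * (s * k) + s * j + 3 * (s * k))
    (3 * x + 9 * (s * k) + 2 * (s * j) + 3 * (s * k)) (x + 3 * (s * k)) (x + 3 * (s * k) + s * j)
    (3 * x + 9 * (s * k) + s * j) (3 * x + 18 * (s * k) + 2 * (s * j)) (x + 3 * (s * k))
    (x + 3 * (s * k) + s * j)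
  rw [max_eq_left (Nat.le_add_right _ _), min_eq_right (Nat.le_add_right _ _),
    max_eq_right (by omega), min_eq_left (by omega), max_self, min_self, max_self, min_self] at h1
  -- step 3
  have h3 := hE.sub (3 * x + 9 * (s * k) + s * j + 3 * (s * k))
    (3 * x + 18 * (s * k) + 2 * (s * j)) x (x + 3 * (s * k) + s * j)
    (3 * x + 9 * (s * k) + s * j) (3 * x + 18 * (s * k) + 2 * (s * j)) x
    (x + 3 * (s * k) + s * j + 6 * (s * k))
  rw [max_eq_left (Nat.le_add_right _ _), min_eq_right (Nat.le_add_right _ _),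
    max_self, min_self, max_self, min_self, max_eq_right (by omega), min_eq_left (by omega)] at h3
  -- step R
  have h2 := hE.sub (3 * x + 9 * (s * k) + s * j + 3 * (s * k))
    (3 * x + 18 * (s * k) + 2 * (s * j)) (x + 3 * (s * k)) (x + 3 * (s * k) + s * j)
    (3 * x + 9 * (s * k) + s * j + 3 * (s * k)) (3 * x + 18 * (s * k) + 2 * (s * j) + 6 * (s * k)) x
    (x + 3 * (s * k) + s * j + 3 * (s * k))
  rw [max_self, min_self, max_eq_right (by omega), min_eq_left (by omega),
    max_eq_left (by omega), min_eq_right (by omega), max_eq_right (by omega),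
    min_eq_left (by omega)] at h2
  unfold IAB DA GG combBg
  rw [e1, e2, e3, e4, e5, e6, e7, e8]
  linarith

theorem combB_rowg (hE : Poly E lam M) (x s k w : ℕ) :
    ∑ j ∈ range w, (combBg E x s k j - combBg E x s k (j + 3 * k)) ≤ 9 * k * (s * k) := by
  have ht := tele (combBg E x s k) (3 * (s * k))
    (fun j => by
      have := hE.mono (3 * x + 9 * (s * k) + s * j) (3 * x + 18 * (s * k) + 2 * (s * j)) x
        (x + 3 * (s * k) + s * j) (3 * x + 9 * (s * k) + s * j)
        (3 * x + 18 * (s * k) + 2 * (s * j)) (x + 3 * (s * k))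
        (x + 3 * (s * k) + s * j) le_rfl le_rfl (Nat.le_add_right _ _) le_rfl
      unfold combBg
      linarith)
    (fun j => by
      have := hE.lip (3 * x + 9 * (s * k) + s * j) (3 * x + 18 * (s * k) + 2 * (s * j)) x
        (x + 3 * (s * k) + s * j) 0 0 (3 * (s * k)) 0
      simp only [add_zero, Nat.cast_zero, zero_add] at this
      push_cast at this
      unfold combBg
      linarith) (3 * k) w
  refine ht.trans (le_of_eq ?_)
  push_cast
  ring

/-- (S2) Put `h(l,m) = DA E l m u = 3u - H(A | base) ∈ [0,3u]`, and let `(l',m') = (l-3u, m+6u)`, so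
`a' = a`, `b' = b + 9u`.  Then
`IAB(l,m) = H(A|a,b,l,m) - H(A|a,b+3u,l,m) ≤ H(A|a,b,l,m) - H(A|a,b+9u,l,m)
 = H(A|a,b,l,m) - H(A|a,b+9u,l-3u,m) + R ≤ H(A|a,b,l,m) - H(A|a,b+9u,l-3u,m+6u) + R
 = h(l',m') - h(l,m) + R`, where
`R = H(A|a,b+9u,l-3u,m) - H(A|a,b+9u,l,m)
   = [E(a,b+9u,l,m) - E(a,b+9u,l-3u,m)] - [E(a+3u,b+9u,l,m) - E(a+3u,b+9u,l-3u,m)]
   ≤ g j - g (j+3k)`, `g j = E(a,b+9u,l,m) - E(a,b+9u,l-3u,m) ∈ [0,3u]` (fixed `i`; raising `m` by `3u`
raises `a` by `3u`, `b` by `6u`).  So `∑R ≤ N1 * 3k * 3u`.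
For the `h` part: with `P i j = h(l0-3u+s i, l0-3u+s i+s j)` the difference is
`P i (j+9k) - P (i+3k) j = [P i (j+9k) - P i j] + [P i j - P (i+3k) j]`, and `tele'` (in `j`) and `tele`
(in `i`) give `≤ 9k N1 * 3u + 3k w * 3u`. -/
theorem S2 (hE : Poly E lam M) (l0 s k N1 w : ℕ) (hl0 : 3 * (s * k) ≤ l0) :
    ∑ i ∈ range N1, ∑ j ∈ range w, IAB E (l0 + s * i) (l0 + s * i + s * j) (s * k) ≤
      (3 * k * w + 9 * k * N1) * (3 * (s * k)) + 9 * k * (s * k) * N1 := by
  obtain ⟨x0, rfl⟩ := Nat.exists_eq_add_of_le' hl0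
  have hterm : ∀ i j : ℕ, IAB E (x0 + 3 * (s * k) + s * i) (x0 + 3 * (s * k) + s * i + s * j) (s * k) ≤
      (DA E (x0 + s * i) (x0 + s * i + s * (j + 9 * k)) (s * k) -
        DA E (x0 + s * i) (x0 + s * i + s * j) (s * k)) +
      (DA E (x0 + s * i) (x0 + s * i + s * j) (s * k) -
        DA E (x0 + s * (i + 3 * k)) (x0 + s * (i + 3 * k) + s * j) (s * k)) +
      (combBg E (x0 + s * i) s k j - combBg E (x0 + s * i) s k (j + 3 * k)) := by
    intro i j
    have h := combB_term hE (x0 + s * i) s k j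
    have e1 : x0 + s * i + 3 * (s * k) = x0 + 3 * (s * k) + s * i := by ring
    have e2 : x0 + s * (i + 3 * k) = x0 + 3 * (s * k) + s * i := by ring
    rw [e1] at h
    rw [e2]
    linarith
  have hsum : ∑ i ∈ range N1, ∑ j ∈ range w,
      IAB E (x0 + 3 * (s * k) + s * i) (x0 + 3 * (s * k) + s * i + s * j) (s * k) ≤
      ∑ i ∈ range N1, ∑ j ∈ range w,
      ((DA E (x0 + s * i) (x0 + s * i + s * (j + 9 * k)) (s * k) -
        DA E (x0 + s * i) (x0 + s * i + s * j) (s * k)) +
      (DA E (x0 + s * i) (x0 + s * i + s * j) (s * k) -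
        DA E (x0 + s * (i + 3 * k)) (x0 + s * (i + 3 * k) + s * j) (s * k)) +
      (combBg E (x0 + s * i) s k j - combBg E (x0 + s * i) s k (j + 3 * k))) :=
    Finset.sum_le_sum fun i _ => Finset.sum_le_sum fun j _ => hterm i j
  refine hsum.trans ?_
  simp only [Finset.sum_add_distrib]
  have p1 : ∑ i ∈ range N1, ∑ j ∈ range w,
      (DA E (x0 + s * i) (x0 + s * i + s * (j + 9 * k)) (s * k) -
        DA E (x0 + s * i) (x0 + s * i + s * j) (s * k)) ≤ 9 * k * N1 * (3 * (s * k)) := by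
    have : ∀ i ∈ range N1, ∑ j ∈ range w,
      (DA E (x0 + s * i) (x0 + s * i + s * (j + 9 * k)) (s * k) -
        DA E (x0 + s * i) (x0 + s * i + s * j) (s * k)) ≤ 9 * k * (3 * (s * k)) := by
      intro i _
      have ht := tele' (fun j => DA E (x0 + s * i) (x0 + s * i + s * j) (s * k)) (3 * (s * k))
        (fun j => combB_DA_nonneg hE _ _ _)
        (fun j => by
          have := combB_DA_le hE (x0 + s * i) (x0 + s * i + s * j) (s * k)
          push_cast at this
          exact this) (9 * k) w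
      push_cast at ht
      exact ht
    refine (Finset.sum_le_sum this).trans (le_of_eq ?_)
    rw [Finset.sum_const, Finset.card_range, nsmul_eq_mul]
    ring
  have p2 : ∑ i ∈ range N1, ∑ j ∈ range w,
      (DA E (x0 + s * i) (x0 + s * i + s * j) (s * k) -
        DA E (x0 + s * (i + 3 * k)) (x0 + s * (i + 3 * k) + s * j) (s * k)) ≤
        3 * k * w * (3 * (s * k)) := by
    rw [Finset.sum_comm]
    have : ∀ j ∈ range w, ∑ i ∈ range N1,
      (DA E (x0 + s * i) (x0 + s * i + s * j) (s * k) -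
        DA E (x0 + s * (i + 3 * k)) (x0 + s * (i + 3 * k) + s * j) (s * k)) ≤
        3 * k * (3 * (s * k)) := by
      intro j _
      have ht := tele (fun i => DA E (x0 + s * i) (x0 + s * i + s * j) (s * k)) (3 * (s * k))
        (fun j => combB_DA_nonneg hE _ _ _)
        (fun i => by
          have := combB_DA_le hE (x0 + s * i) (x0 + s * i + s * j) (s * k)
          push_cast at this
          exact this) (3 * k) N1
      push_cast at ht
      exact ht
    refine (Finset.sum_le_sum this).trans (le_of_eq ?_)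
    rw [Finset.sum_const, Finset.card_range, nsmul_eq_mul]
    ring
  have p3 : ∑ i ∈ range N1, ∑ j ∈ range w,
      (combBg E (x0 + s * i) s k j - combBg E (x0 + s * i) s k (j + 3 * k)) ≤
        9 * k * (s * k) * N1 := by
    refine (Finset.sum_le_sum fun i _ => combB_rowg hE (x0 + s * i) s k w).trans (le_of_eq ?_)
    rw [Finset.sum_const, Finset.card_range, nsmul_eq_mul]
    ring
  linarith

end MP_5e4520_nt
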