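import Pool.Agent.Lib.MP_5e4520_nt.CombT

set_option autoImplicit false

/-!
# The combinatorial part: summing over windows

Windows are `(l, m, u)` with `l = l0 + s i`, `m = l0 + s i + s j`, `i < N1`, `j < w`, `u = s k`.
Write `a = 2l+m`, `b = l+2m`.  `H(X | Y)` denotes differences of `E`.
-/

namespace MP_5e4520_nt

open Finset

variable {E : ℕ → ℕ → ℕ → ℕ → ℝ} {lam : ℝ} {M : ℕ}

/-- `D(i)` -/
noncomputable def combCD (E : ℕ → ℕ → ℕ → ℕ → ℝ) (l0 s j i : ℕ) : ℝ :=
  GG E (l0 + s * i) (l0 + s * i + s * j) - 3 * (2 * l0 + 2 * (s * i) + s * j)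

theorem combC_HH (l0 s k j i : ℕ) :
    - HH E (l0 + s * i) (l0 + s * i + s * j) (s * k) =
      combCD E l0 s j i - combCD E l0 s j (k + i) := by
  unfold HH combCD
  have e1 : l0 + s * i + s * k = l0 + s * (k + i) := by ring
  have e2 : l0 + s * i + s * j + s * k = l0 + s * (k + i) + s * j := by ring
  rw [e1, e2]
  push_cast
  ring

theorem combC_up (hE : Poly E lam M) (l0 s j i : ℕ) :
    combCD E l0 s j i ≤ 2 * l0 + 2 * (s * i) + s * j := by
  have h := hE.lip 0 0 0 0 (2 * (l0 + s * i) + (l0 + s * i + s * j))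
    ((l0 + s * i) + 2 * (l0 + s * i + s * j)) (l0 + s * i) (l0 + s * i + s * j)
  rw [hE.zero] at h
  simp only [zero_add] at h
  push_cast at h
  unfold combCD GG
  linarith

theorem combC_low (hE : Poly E lam M) (l0 s j i : ℕ)
    (hM : 3 * l0 + 3 * (s * i) + 2 * (s * j) ≤ M) : - lam ≤ combCD E l0 s j i := by
  have h := hE.low (2 * (l0 + s * i) + (l0 + s * i + s * j))
    ((l0 + s * i) + 2 * (l0 + s * i + s * j)) (by
      have : s * j ≤ 2 * (s * j) := by omega
      omega) (by omega)
  have h2 := hE.mono (2 * (l0 + s * i) + (l0 + s * i + s * j))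
    ((l0 + s * i) + 2 * (l0 + s * i + s * j)) 0 0 (2 * (l0 + s * i) + (l0 + s * i + s * j))
    ((l0 + s * i) + 2 * (l0 + s * i + s * j)) (l0 + s * i) (l0 + s * i + s * j) le_rfl le_rfl
    (Nat.zero_le _) (Nat.zero_le _)
  push_cast at h
  unfold combCD GG
  linarith

/-- (S3) Put `D(i) = GG - (a+b)` at `(l0+s i, l0+s i+s j)`; as `a + b = 3(l+m)` grows by `6u` when
`i → i + k`, `-HH = D(i) - D(i+k)`.  `D ≥ -lam` (`mono`, `low`) and `D ≤ l + m` (`lip` from `zero`), so
for fixed `j`: `∑_{i<N1} (D i - D (i+k)) = ∑_{i<k} D i - ∑_{i<k} D (N1+i) ≤ k (2 l0 + 2 s k + s w + lam)`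
(for `i < k`: `l + m = 2 l0 + 2 s i + s j`). -/
theorem S3 (hE : Poly E lam M) (l0 s k N1 w : ℕ)
    (hM : 3 * l0 + 3 * s * (N1 + k) + 2 * s * w ≤ M) :
    ∑ i ∈ range N1, ∑ j ∈ range w, (- HH E (l0 + s * i) (l0 + s * i + s * j) (s * k)) ≤
      k * w * (lam + 2 * l0 + 2 * (s * k) + s * w) := by
  rw [Finset.sum_comm]
  have row : ∀ j ∈ range w,
      ∑ i ∈ range N1, (- HH E (l0 + s * i) (l0 + s * i + s * j) (s * k)) ≤
      k * (lam + 2 * l0 + 2 * (s * k) + s * w) := by
    intro j hj
    have hjw : j ≤ w := (Finset.mem_range.mp hj).le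
    simp only [combC_HH]
    rw [Finset.sum_sub_distrib]
    have e1 : ∑ i ∈ range (N1 + k), combCD E l0 s j i =
        ∑ i ∈ range N1, combCD E l0 s j i + ∑ i ∈ range k, combCD E l0 s j (N1 + i) :=
      Finset.sum_range_add _ _ _
    have e2 : ∑ i ∈ range (N1 + k), combCD E l0 s j i =
        ∑ i ∈ range k, combCD E l0 s j i + ∑ i ∈ range N1, combCD E l0 s j (k + i) := by
      rw [add_comm N1 k]; exact Finset.sum_range_add _ _ _
    have u1 : ∑ i ∈ range k, combCD E l0 s j i ≤ k * (2 * l0 + 2 * (s * k) + s * w) := by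
      have : ∀ i ∈ range k, combCD E l0 s j i ≤ 2 * l0 + 2 * (s * k) + s * w := by
        intro i hi
        have hik : i ≤ k := (Finset.mem_range.mp hi).le
        have h1 := combC_up hE l0 s j i
        have h2 : (s : ℝ) * i ≤ s * k := by
          exact_mod_cast Nat.mul_le_mul_left s hik
        have h3 : (s : ℝ) * j ≤ s * w := by
          exact_mod_cast Nat.mul_le_mul_left s hjw
        linarith
      refine (Finset.sum_le_sum this).trans (le_of_eq ?_)
      rw [Finset.sum_const, Finset.card_range, nsmul_eq_mul]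
    have u2 : k * (-lam) ≤ ∑ i ∈ range k, combCD E l0 s j (N1 + i) := by
      have : ∀ i ∈ range k, -lam ≤ combCD E l0 s j (N1 + i) := by
        intro i hi
        have hik : i ≤ k := (Finset.mem_range.mp hi).le
        refine combC_low hE l0 s j (N1 + i) ?_
        have h2 : s * (N1 + i) ≤ s * (N1 + k) := Nat.mul_le_mul_left s (by omega)
        have h3 : s * j ≤ s * w := Nat.mul_le_mul_left s hjw
        have h4 : 3 * s * (N1 + k) = 3 * (s * (N1 + k)) := by ring
        have h5 : 2 * s * w = 2 * (s * w) := by ring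
        omega
      have h6 := Finset.sum_le_sum this
      rw [Finset.sum_const, Finset.card_range, nsmul_eq_mul] at h6
      exact h6
    have e3 : (k : ℝ) * (lam + 2 * l0 + 2 * (s * k) + s * w) =
      k * (2 * l0 + 2 * (s * k) + s * w) - k * (-lam) := by ring
    rw [e3]
    linarith
  refine (Finset.sum_le_sum row).trans (le_of_eq ?_)
  rw [Finset.sum_const, Finset.card_range, nsmul_eq_mul]
  ring

/-- (S4) `u = s k`. `∑_p DA(l+ps, m+ps, s) = 3u - ∑_p H(A_p | a+3sp, b+3sp, l+ps, m+ps)
≤ 3u - ∑_p H(A_p | a+3sp, b+3u, l+u, m+u) = 3u - (E(a+3u,b+3u,l+u,m+u) - E(a,b+3u,l+u,m+u))` and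
`E(a,b+3u,l+u,m+u) ≤ E(a,b,l+u,m+u) + E(a,b+3u,l,m) - E(a,b,l,m)`. -/
theorem S4A (hE : Poly E lam M) (l m s k : ℕ) :
    ∑ p ∈ range k, DA E (l + s * p) (m + s * p) s ≤
      - HH E l m (s * k) - DB E l m (s * k) +
        (E (2 * l + m) (l + 2 * m) (l + s * k) (m + s * k) - GG E l m) := by
  have hp : ∀ p ∈ range k, DA E (l + s * p) (m + s * p) s ≤
      3 * s - (E (2 * l + m + 3 * (s * (p + 1))) (l + 2 * m + 3 * (s * k)) (l + s * k) (m + s * k) -
        E (2 * l + m + 3 * (s * p)) (l + 2 * m + 3 * (s * k)) (l + s * k) (m + s * k)) := by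
    intro p hp
    have hpk : s * p ≤ s * k := Nat.mul_le_mul_left s (Finset.mem_range.mp hp).le
    have h := hE.sub (2 * l + m + 3 * (s * p) + 3 * s) (l + 2 * m + 3 * (s * p)) (l + s * p)
      (m + s * p) (2 * l + m + 3 * (s * p)) (l + 2 * m + 3 * (s * k)) (l + s * k) (m + s * k)
    rw [max_eq_left (by omega), min_eq_right (by omega), max_eq_right (by omega),
      min_eq_left (by omega), max_eq_right (by omega), min_eq_left (by omega),
      max_eq_right (by omega), min_eq_left (by omega)] at h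
    have e1 : 2 * (l + s * p) + (m + s * p) = 2 * l + m + 3 * (s * p) := by ring
    have e2 : (l + s * p) + 2 * (m + s * p) = l + 2 * m + 3 * (s * p) := by ring
    have e3 : 2 * l + m + 3 * (s * (p + 1)) = 2 * l + m + 3 * (s * p) + 3 * s := by ring
    unfold DA GG
    rw [e1, e2, e3]
    linarith
  refine (Finset.sum_le_sum hp).trans ?_
  rw [Finset.sum_sub_distrib, Finset.sum_range_sub (fun p =>
    E (2 * l + m + 3 * (s * p)) (l + 2 * m + 3 * (s * k)) (l + s * k) (m + s * k)),
    Finset.sum_const, Finset.card_range, nsmul_eq_mul]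
  have h := hE.sub (2 * l + m) (l + 2 * m + 3 * (s * k)) l m (2 * l + m) (l + 2 * m) (l + s * k)
    (m + s * k)
  rw [max_self, min_self, max_eq_left (by omega), min_eq_right (by omega), max_eq_right (by omega),
      min_eq_left (by omega), max_eq_right (by omega), min_eq_left (by omega)] at h
  have e1 : 2 * (l + s * k) + (m + s * k) = 2 * l + m + 3 * (s * k) := by ring
  have e2 : (l + s * k) + 2 * (m + s * k) = l + 2 * m + 3 * (s * k) := by ring
  unfold HH DB GG
  rw [e1, e2]
  simp only [mul_zero, add_zero]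
  push_cast
  linarith

/-- the symmetric statement -/
theorem S4B (hE : Poly E lam M) (l m s k : ℕ) :
    ∑ p ∈ range k, DB E (l + s * p) (m + s * p) s ≤
      - HH E l m (s * k) - DA E l m (s * k) +
        (E (2 * l + m) (l + 2 * m) (l + s * k) (m + s * k) - GG E l m) := by
  have hp : ∀ p ∈ range k, DB E (l + s * p) (m + s * p) s ≤
      3 * s - (E (2 * l + m + 3 * (s * k)) (l + 2 * m + 3 * (s * (p + 1))) (l + s * k) (m + s * k) -
        E (2 * l + m + 3 * (s * k)) (l + 2 * m + 3 * (s * p)) (l + s * k) (m + s * k)) := by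
    intro p hp
    have hpk : s * p ≤ s * k := Nat.mul_le_mul_left s (Finset.mem_range.mp hp).le
    have h := hE.sub (2 * l + m + 3 * (s * p)) (l + 2 * m + 3 * (s * p) + 3 * s) (l + s * p)
      (m + s * p) (2 * l + m + 3 * (s * k)) (l + 2 * m + 3 * (s * p)) (l + s * k) (m + s * k)
    rw [max_eq_right (by omega), min_eq_left (by omega), max_eq_left (by omega),
      min_eq_right (by omega), max_eq_right (by omega), min_eq_left (by omega),
      max_eq_right (by omega), min_eq_left (by omega)] at h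
    have e1 : 2 * (l + s * p) + (m + s * p) = 2 * l + m + 3 * (s * p) := by ring
    have e2 : (l + s * p) + 2 * (m + s * p) = l + 2 * m + 3 * (s * p) := by ring
    have e3 : l + 2 * m + 3 * (s * (p + 1)) = l + 2 * m + 3 * (s * p) + 3 * s := by ring
    unfold DB GG
    rw [e1, e2, e3]
    linarith
  refine (Finset.sum_le_sum hp).trans ?_
  rw [Finset.sum_sub_distrib, Finset.sum_range_sub (fun p =>
    E (2 * l + m + 3 * (s * k)) (l + 2 * m + 3 * (s * p)) (l + s * k) (m + s * k)),
    Finset.sum_const, Finset.card_range, nsmul_eq_mul]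
  have h := hE.sub (2 * l + m + 3 * (s * k)) (l + 2 * m) l m (2 * l + m) (l + 2 * m) (l + s * k)
    (m + s * k)
  rw [max_eq_left (by omega), min_eq_right (by omega), max_self, min_self, max_eq_right (by omega),
      min_eq_left (by omega), max_eq_right (by omega), min_eq_left (by omega)] at h
  have e1 : 2 * (l + s * k) + (m + s * k) = 2 * l + m + 3 * (s * k) := by ring
  have e2 : (l + s * k) + 2 * (m + s * k) = l + 2 * m + 3 * (s * k) := by ring
  unfold HH DA GG
  rw [e1, e2]
  simp only [mul_zero, add_zero]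
  push_cast
  linarith

end MP_5e4520_nt
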