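import Pool.Agent.Lib.MP_5e4520_nt.CombA
import Pool.Agent.Lib.MP_5e4520_nt.CombB
import Pool.Agent.Lib.MP_5e4520_nt.CombC

set_option autoImplicit false

/-!
# The combinatorial part: summing over windows

Windows are `(l, m, u)` with `l = l0 + s i`, `m = l0 + s i + s j`, `i < N1`, `j < w`, `u = s k`.
Write `a = 2l+m`, `b = l+2m`.  `H(X | Y)` denotes differences of `E`.
-/

namespace MP_5e4520_nt

open Finset

variable {E : ℕ → ℕ → ℕ → ℕ → ℝ} {lam : ℝ} {M : ℕ}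

/-- the total bound -/
noncomputable def TT (lam c5 c6 : ℝ) (l0 s k N1 w : ℕ) : ℝ :=
  (1 + c6) * (3 * k * (s * k) * (2 * N1 + w)) +
    ((3 * k * w + 9 * k * N1) * (3 * (s * k)) + 9 * k * (s * k) * N1) +
    k * w * (lam + 2 * l0 + 2 * (s * k) + s * w) + c5 * N1 * w

theorem combD_DA_nonneg (hE : Poly E lam M) (l m s : ℕ) : 0 ≤ DA E l m s := by
  have h := hE.lip (2 * l + m) (l + 2 * m) l m (3 * s) 0 0 0
  simp only [DA, GG]
  push_cast at h
  simp only [add_zero] at h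
  linarith

theorem combD_DB_nonneg (hE : Poly E lam M) (l m s : ℕ) : 0 ≤ DB E l m s := by
  have h := hE.lip (2 * l + m) (l + 2 * m) l m 0 (3 * s) 0 0
  simp only [DB, GG]
  push_cast at h
  simp only [add_zero, zero_add] at h
  linarith

/-- shifting sums of nonnegative terms -/
theorem combD_shift (f : ℕ → ℝ) (hf : ∀ x, 0 ≤ f x) (N k p : ℕ) (hp : p < k) :
    ∑ i ∈ range (N - k), f (i + k) ≤ ∑ i ∈ range N, f (i + p) := by
  have h1 : ∑ i ∈ range (N - k), f (i + k) =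
      ∑ x ∈ (range (N - k)).map (addRightEmbedding (k - p)), f (x + p) := by
    rw [sum_map]
    refine sum_congr rfl fun i _ => ?_
    congr 1
    simp only [addRightEmbedding_apply]
    omega
  rw [h1]
  refine sum_le_sum_of_subset_of_nonneg ?_ fun _ _ _ => hf _
  intro x hx
  rw [mem_map] at hx
  obtain ⟨i, hi, rfl⟩ := hx
  rw [mem_range] at hi ⊢
  simp only [addRightEmbedding_apply]
  omega

theorem combD_sum (f : ℕ → ℕ → ℝ) (hf : ∀ x j, 0 ≤ f x j) (N1 w k : ℕ) :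
    k * ∑ i ∈ range (N1 - k), ∑ j ∈ range w, f (i + k) j ≤
      ∑ i ∈ range N1, ∑ j ∈ range w, ∑ p ∈ range k, f (i + p) j := by
  have h1 : ∑ i ∈ range N1, ∑ j ∈ range w, ∑ p ∈ range k, f (i + p) j =
      ∑ p ∈ range k, ∑ i ∈ range N1, (∑ j ∈ range w, f (i + p) j) := by
    rw [sum_comm]
    conv_rhs => rw [sum_comm]
    rw [sum_comm]
    refine sum_congr rfl fun i _ => ?_
    rw [sum_comm]
  rw [h1]
  have h2 : ∀ p ∈ range k, ∑ i ∈ range (N1 - k), ∑ j ∈ range w, f (i + k) j ≤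
      ∑ i ∈ range N1, (∑ j ∈ range w, f (i + p) j) := fun p hp =>
    combD_shift (fun x => ∑ j ∈ range w, f x j) (fun x => sum_nonneg fun j _ => hf x j) N1 k p
      (mem_range.1 hp)
  have h3 := sum_le_sum h2
  rw [sum_const, card_range, nsmul_eq_mul] at h3
  exact h3

theorem combD_total (hE : Poly E lam M) (l0 s k N1 w : ℕ) (c5 c6 : ℝ) (hc6 : 0 ≤ c6)
    (hl0 : 3 * (s * k) ≤ l0) (hM : 3 * l0 + 3 * s * (N1 + k) + 2 * s * w ≤ M) (f : ℕ → ℕ → ℝ)
    (hf0 : ∀ x j, 0 ≤ f x j)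
    (hf : ∀ i < N1, ∀ j < w, ∑ p ∈ range k, f (i + p) j ≤
      - HH E (l0 + s * i) (l0 + s * i + s * j) (s * k) +
        IAB E (l0 + s * i) (l0 + s * i + s * j) (s * k) +
        (1 + c6) * IABCD E (l0 + s * i) (l0 + s * i + s * j) (s * k) + c5) :
    k * ∑ i ∈ range (N1 - k), ∑ j ∈ range w, f (i + k) j ≤ TT lam c5 c6 l0 s k N1 w := by
  refine (combD_sum f hf0 N1 w k).trans ?_
  have h1 : ∑ i ∈ range N1, ∑ j ∈ range w, ∑ p ∈ range k, f (i + p) j ≤
      ∑ i ∈ range N1, ∑ j ∈ range w, (- HH E (l0 + s * i) (l0 + s * i + s * j) (s * k) +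
        IAB E (l0 + s * i) (l0 + s * i + s * j) (s * k) +
        (1 + c6) * IABCD E (l0 + s * i) (l0 + s * i + s * j) (s * k) + c5) :=
    sum_le_sum fun i hi => sum_le_sum fun j hj => hf i (mem_range.1 hi) j (mem_range.1 hj)
  refine h1.trans ?_
  simp only [sum_add_distrib, ← mul_sum, sum_const, card_range, nsmul_eq_mul]
  have s1 := S1 hE l0 s k N1 w
  have s2 := S2 hE l0 s k N1 w hl0
  have s3 := S3 hE l0 s k N1 w hM
  have s1' := mul_le_mul_of_nonneg_left s1 (show 0 ≤ 1 + c6 by linarith)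
  unfold TT
  have e : (w : ℝ) * (N1 * c5) = c5 * N1 * w := by ring
  rw [e]
  linarith

/-- (S5) Put `u = s k`.  From S4A and the hypothesis `hH`:
`E(a,b,l+u,m+u) - GG ≤ [E(a+3u,b,l+u,m+u) - E(a+3u,b,l,m)] + IABCD` (chain rule + submodularity:
`IABCD = I(A;CD|base) + I(B;CD|A,base)`, both nonnegative) and
`-DB(l,m,u) = -3u + H(B|base)`, `H(B|base) - H(B|A,base) = IAB`; hence for `i < N1`, `j < w`
`∑_{p<k} DA(l+sp, m+sp, s) ≤ -HH + IAB + (1+c6) IABCD + c5`.
Sum over `i < N1, j < w` with S1, S2, S3 (`1 + c6 ≥ 0`): total `≤ TT`.  Every `(i, j)` with `k ≤ i < N1`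
occurs as `i' + p` for exactly `k` pairs `(i', p)`, `p < k`, `i' < N1`; all `DA ≥ 0` (by `lip`). -/
theorem S5A (hE : Poly E lam M) (l0 s k N1 w : ℕ) (c5 c6 : ℝ) (hc6 : 0 ≤ c6)
    (hl0 : 3 * (s * k) ≤ l0) (hM : 3 * l0 + 3 * s * (N1 + k) + 2 * s * w ≤ M)
    (hH : ∀ i < N1, ∀ j < w, ∀ l m u : ℕ, l = l0 + s * i → m = l0 + s * i + s * j → u = s * k →
      E (2 * l + m + 3 * u) (l + 2 * m) (l + u) (m + u) - E (2 * l + m + 3 * u) (l + 2 * m) l m ≤
        3 * u - (E (2 * l + m + 3 * u) (l + 2 * m + 3 * u) l m -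
          E (2 * l + m + 3 * u) (l + 2 * m) l m) + c5 + c6 * IABCD E l m u) :
    k * ∑ i ∈ range (N1 - k), ∑ j ∈ range w,
      DA E (l0 + s * (i + k)) (l0 + s * (i + k) + s * j) s ≤ TT lam c5 c6 l0 s k N1 w := by
  refine combD_total hE l0 s k N1 w c5 c6 hc6 hl0 hM
    (fun x j => DA E (l0 + s * x) (l0 + s * x + s * j) s)
    (fun x j => combD_DA_nonneg hE _ _ _) ?_
  intro i hi j hj
  have h1 := hH i hi j hj _ _ _ rfl rfl rfl
  have h2 := S4A hE (l0 + s * i) (l0 + s * i + s * j) s k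
  have h3 : ∑ p ∈ range k, DA E (l0 + s * (i + p)) (l0 + s * (i + p) + s * j) s =
      ∑ p ∈ range k, DA E (l0 + s * i + s * p) (l0 + s * i + s * j + s * p) s := by
    refine sum_congr rfl fun p _ => ?_
    congr 1 <;> ring
  show ∑ p ∈ range k, DA E (l0 + s * (i + p)) (l0 + s * (i + p) + s * j) s ≤ _
  rw [h3]
  generalize l0 + s * i + s * j = m at *
  generalize l0 + s * i = l at *
  generalize s * k = u at *
  have h4 := hE.sub (2 * l + m + 3 * u) (l + 2 * m) (l + u) (m + u)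
    (2 * l + m + 3 * u) (l + 2 * m + 3 * u) l m
  rw [max_self, min_self, max_eq_right (by omega : l + 2 * m ≤ l + 2 * m + 3 * u),
    min_eq_left (by omega : l + 2 * m ≤ l + 2 * m + 3 * u),
    max_eq_left (by omega : l ≤ l + u), min_eq_right (by omega : l ≤ l + u),
    max_eq_left (by omega : m ≤ m + u), min_eq_right (by omega : m ≤ m + u)] at h4
  have e1 : IABCD E l m u = E (2 * l + m + 3 * u) (l + 2 * m + 3 * u) l m +
    E (2 * l + m) (l + 2 * m) (l + u) (m + u) -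
    E (2 * l + m + 3 * u) (l + 2 * m + 3 * u) (l + u) (m + u) - GG E l m := rfl
  have e2 : IAB E l m u = E (2 * l + m + 3 * u) (l + 2 * m) l m +
    E (2 * l + m) (l + 2 * m + 3 * u) l m -
    E (2 * l + m + 3 * u) (l + 2 * m + 3 * u) l m - GG E l m := rfl
  have e3 : DB E l m u = 3 * u - (E (2 * l + m) (l + 2 * m + 3 * u) l m - GG E l m) := rfl
  nlinarith

/-- (S5, swapped) -/
theorem S5B (hE : Poly E lam M) (l0 s k N1 w : ℕ) (c5 c6 : ℝ) (hc6 : 0 ≤ c6)
    (hl0 : 3 * (s * k) ≤ l0) (hM : 3 * l0 + 3 * s * (N1 + k) + 2 * s * w ≤ M)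
    (hH : ∀ i < N1, ∀ j < w, ∀ l m u : ℕ, l = l0 + s * i → m = l0 + s * i + s * j → u = s * k →
      E (2 * l + m) (l + 2 * m + 3 * u) (l + u) (m + u) - E (2 * l + m) (l + 2 * m + 3 * u) l m ≤
        3 * u - (E (2 * l + m + 3 * u) (l + 2 * m + 3 * u) l m -
          E (2 * l + m) (l + 2 * m + 3 * u) l m) + c5 + c6 * IABCD E l m u) :
    k * ∑ i ∈ range (N1 - k), ∑ j ∈ range w,
      DB E (l0 + s * (i + k)) (l0 + s * (i + k) + s * j) s ≤ TT lam c5 c6 l0 s k N1 w := by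
  refine combD_total hE l0 s k N1 w c5 c6 hc6 hl0 hM
    (fun x j => DB E (l0 + s * x) (l0 + s * x + s * j) s)
    (fun x j => combD_DB_nonneg hE _ _ _) ?_
  intro i hi j hj
  have h1 := hH i hi j hj _ _ _ rfl rfl rfl
  have h2 := S4B hE (l0 + s * i) (l0 + s * i + s * j) s k
  have h3 : ∑ p ∈ range k, DB E (l0 + s * (i + p)) (l0 + s * (i + p) + s * j) s =
      ∑ p ∈ range k, DB E (l0 + s * i + s * p) (l0 + s * i + s * j + s * p) s := by
    refine sum_congr rfl fun p _ => ?_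
    congr 1 <;> ring
  show ∑ p ∈ range k, DB E (l0 + s * (i + p)) (l0 + s * (i + p) + s * j) s ≤ _
  rw [h3]
  generalize l0 + s * i + s * j = m at *
  generalize l0 + s * i = l at *
  generalize s * k = u at *
  have h4 := hE.sub (2 * l + m) (l + 2 * m + 3 * u) (l + u) (m + u)
    (2 * l + m + 3 * u) (l + 2 * m + 3 * u) l m
  rw [max_self, min_self, max_eq_right (by omega : 2 * l + m ≤ 2 * l + m + 3 * u),
    min_eq_left (by omega : 2 * l + m ≤ 2 * l + m + 3 * u),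
    max_eq_left (by omega : l ≤ l + u), min_eq_right (by omega : l ≤ l + u),
    max_eq_left (by omega : m ≤ m + u), min_eq_right (by omega : m ≤ m + u)] at h4
  have e1 : IABCD E l m u = E (2 * l + m + 3 * u) (l + 2 * m + 3 * u) l m +
    E (2 * l + m) (l + 2 * m) (l + u) (m + u) -
    E (2 * l + m + 3 * u) (l + 2 * m + 3 * u) (l + u) (m + u) - GG E l m := rfl
  have e2 : IAB E l m u = E (2 * l + m + 3 * u) (l + 2 * m) l m +
    E (2 * l + m) (l + 2 * m + 3 * u) l m -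
    E (2 * l + m + 3 * u) (l + 2 * m + 3 * u) l m - GG E l m := rfl
  have e3 : DA E l m u = 3 * u - (E (2 * l + m + 3 * u) (l + 2 * m) l m - GG E l m) := rfl
  nlinarith

end MP_5e4520_nt
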