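import Pool.Agent.Lib.MP_5e4520_nt.Defs

set_option autoImplicit false

/-!
# The combinatorial part: summing over windows

Windows are `(l, m, u)` with `l = l0 + s i`, `m = l0 + s i + s j`, `i < N1`, `j < w`, `u = s k`.
Write `a = 2l+m`, `b = l+2m`.  `H(X | Y)` denotes differences of `E`.
-/

namespace MP_5e4520_nt

open Finset

theorem tele (g : ℕ → ℝ) (c : ℝ) (h0 : ∀ j, 0 ≤ g j) (h1 : ∀ j, g j ≤ c) (q w : ℕ) :
    ∑ j ∈ range w, (g j - g (j + q)) ≤ q * c := by
  have e1 : ∑ j ∈ range (w + q), g j = ∑ j ∈ range w, g j + ∑ j ∈ range q, g (w + j) :=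
    Finset.sum_range_add _ _ _
  have e2 : ∑ j ∈ range (w + q), g j = ∑ j ∈ range q, g j + ∑ j ∈ range w, g (q + j) := by
    rw [add_comm w q]; exact Finset.sum_range_add _ _ _
  have e3 : ∑ j ∈ range w, g (q + j) = ∑ j ∈ range w, g (j + q) :=
    Finset.sum_congr rfl fun j _ => by rw [add_comm]
  have e4 : 0 ≤ ∑ j ∈ range q, g (w + j) := Finset.sum_nonneg fun j _ => h0 _
  have e5 : ∑ j ∈ range q, g j ≤ q * c := by
    refine (Finset.sum_le_sum fun j _ => h1 j).trans ?_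
    simp
  rw [Finset.sum_sub_distrib]
  linarith

theorem tele' (g : ℕ → ℝ) (c : ℝ) (h0 : ∀ j, 0 ≤ g j) (h1 : ∀ j, g j ≤ c) (q w : ℕ) :
    ∑ j ∈ range w, (g (j + q) - g j) ≤ q * c := by
  have := tele (fun j => c - g j) c (fun j => by linarith [h1 j]) (fun j => by linarith [h0 j]) q w
  refine le_trans (le_of_eq ?_) this
  exact Finset.sum_congr rfl fun j _ => by ring

end MP_5e4520_nt
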