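import Pool.Agent.Lib.MP_5e4520_nt.NumD

set_option autoImplicit false

namespace MP_5e4520_nt

open Finset

private theorem params_real (lam c5 c6 l0 s k N1 w I D X : ℝ) (hk : 0 < k) (hs : 0 < s)
    (hN1 : 0 < N1) (hw : 0 < w) (hI : 0 ≤ I) (hlam : 0 ≤ lam)
    (hl0 : 0 ≤ l0) (hc5 : 0 ≤ c5) (hc6 : 1 ≤ c6) (hX0 : 0 ≤ X)
    (hX : (2 + X) * 32 ≤ D) (hwN : w ≤ N1)
    (e1 : 18 * c6 * (s * k) * D ≤ w)
    (e2 : 45 * (s * k) * D ≤ w)
    (e3 : (lam + 2 * l0 + 2 * (s * k) + s * w) * D ≤ N1)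
    (e4 : c5 * D ≤ k)
    (e5 : (9 * s * I + 3 * s) * D ≤ w)
    (e6 : 6 * s * D ≤ w)
    (e7 : 3 * I + k ≤ N1 / 2) (e8 : 9 * I ≤ w / 2) :
    (2 + X) * (((1 + c6) * (3 * k * (s * k) * (2 * N1 + w)) +
      ((3 * k * w + 9 * k * N1) * (3 * (s * k)) + 9 * k * (s * k) * N1) +
      k * w * (lam + 2 * l0 + 2 * (s * k) + s * w) + c5 * N1 * w) / k +
      3 * (3 * s * I + s) * N1 + 3 * s * (N1 + w)) < (N1 - 3 * I - k) * (w - 9 * I) := by
  have hD : 0 < D := by nlinarith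
  have hsk : 0 < s * k := mul_pos hs hk
  have hNw : 0 < N1 * w := mul_pos hN1 hw
  -- the terms
  have t1 : (1 + c6) * (3 * (s * k) * (2 * N1 + w)) * D ≤ N1 * w := by
    have h1 : (1 + c6) * (3 * (s * k) * (2 * N1 + w)) ≤ 2 * c6 * (3 * (s * k) * (3 * N1)) := by
      refine mul_le_mul (by linarith) ?_ (by positivity) (by positivity)
      exact mul_le_mul_of_nonneg_left (by linarith) (by positivity)
    calc (1 + c6) * (3 * (s * k) * (2 * N1 + w)) * D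
        ≤ 2 * c6 * (3 * (s * k) * (3 * N1)) * D := mul_le_mul_of_nonneg_right h1 hD.le
      _ = N1 * (18 * c6 * (s * k) * D) := by ring
      _ ≤ N1 * w := mul_le_mul_of_nonneg_left e1 hN1.le
  have t2 : ((3 * w + 9 * N1) * (3 * (s * k)) + 9 * (s * k) * N1) * D ≤ N1 * w := by
    have h1 : (3 * w + 9 * N1) * (3 * (s * k)) + 9 * (s * k) * N1 ≤ N1 * (45 * (s * k)) := by
      nlinarith
    calc ((3 * w + 9 * N1) * (3 * (s * k)) + 9 * (s * k) * N1) * D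
        ≤ N1 * (45 * (s * k)) * D := mul_le_mul_of_nonneg_right h1 hD.le
      _ = N1 * (45 * (s * k) * D) := by ring
      _ ≤ N1 * w := mul_le_mul_of_nonneg_left e2 hN1.le
  have t3 : w * (lam + 2 * l0 + 2 * (s * k) + s * w) * D ≤ N1 * w := by
    calc w * (lam + 2 * l0 + 2 * (s * k) + s * w) * D
        = w * ((lam + 2 * l0 + 2 * (s * k) + s * w) * D) := by ring
      _ ≤ w * N1 := mul_le_mul_of_nonneg_left e3 hw.le
      _ = N1 * w := by ring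
  have t4 : c5 * N1 * w / k * D ≤ N1 * w := by
    have h1 : c5 * N1 * w / k * D = (N1 * w) * (c5 * D / k) := by
      field_simp
    rw [h1]
    refine mul_le_of_le_one_right hNw.le ?_
    rw [div_le_one hk]
    exact e4
  have t5 : 3 * (3 * s * I + s) * N1 * D ≤ N1 * w := by
    calc 3 * (3 * s * I + s) * N1 * D = N1 * ((9 * s * I + 3 * s) * D) := by ring
      _ ≤ N1 * w := mul_le_mul_of_nonneg_left e5 hN1.le
  have t6 : 3 * s * (N1 + w) * D ≤ N1 * w := by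
    calc 3 * s * (N1 + w) * D ≤ 3 * s * (N1 + N1) * D := by
          refine mul_le_mul_of_nonneg_right ?_ hD.le
          exact mul_le_mul_of_nonneg_left (by linarith) (by positivity)
      _ = N1 * (6 * s * D) := by ring
      _ ≤ N1 * w := mul_le_mul_of_nonneg_left e6 hN1.le
  have hsplit : ((1 + c6) * (3 * k * (s * k) * (2 * N1 + w)) +
      ((3 * k * w + 9 * k * N1) * (3 * (s * k)) + 9 * k * (s * k) * N1) +
      k * w * (lam + 2 * l0 + 2 * (s * k) + s * w) + c5 * N1 * w) / k =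
      (1 + c6) * (3 * (s * k) * (2 * N1 + w)) +
      ((3 * w + 9 * N1) * (3 * (s * k)) + 9 * (s * k) * N1) +
      w * (lam + 2 * l0 + 2 * (s * k) + s * w) + c5 * N1 * w / k := by
    field_simp
  rw [hsplit]
  set Z : ℝ := (1 + c6) * (3 * (s * k) * (2 * N1 + w)) +
      ((3 * w + 9 * N1) * (3 * (s * k)) + 9 * (s * k) * N1) +
      w * (lam + 2 * l0 + 2 * (s * k) + s * w) + c5 * N1 * w / k +
      3 * (3 * s * I + s) * N1 + 3 * s * (N1 + w) with hZ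
  have hZ0 : 0 ≤ Z := by positivity
  have hZD : Z * D ≤ 6 * (N1 * w) := by
    rw [hZ]
    linarith
  have h2 : (2 + X) * Z * 32 ≤ 6 * (N1 * w) := by
    calc (2 + X) * Z * 32 = Z * ((2 + X) * 32) := by ring
      _ ≤ Z * D := mul_le_mul_of_nonneg_left hX hZ0
      _ ≤ 6 * (N1 * w) := hZD
  have h3 : N1 / 2 * (w / 2) ≤ (N1 - 3 * I - k) * (w - 9 * I) := by
    refine mul_le_mul (by linarith) (by linarith) (by positivity) (by linarith)
  nlinarith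

private theorem params_pow {c a b : ℕ} (d : ℕ) (h : c ≤ 2 ^ d) (h2 : d + a ≤ b) :
    c * 2 ^ a ≤ 2 ^ b := by
  calc c * 2 ^ a ≤ 2 ^ d * 2 ^ a := Nat.mul_le_mul_right _ h
    _ = 2 ^ (d + a) := by rw [pow_add]
    _ ≤ 2 ^ b := Nat.pow_le_pow_right (by norm_num) h2

private theorem params_powR {c : ℝ} {a b : ℕ} (d : ℕ) (h : c ≤ 2 ^ d) (h2 : d + a ≤ b) :
    c * 2 ^ a ≤ (2 : ℝ) ^ b := by
  calc c * 2 ^ a ≤ (2 : ℝ) ^ d * 2 ^ a := mul_le_mul_of_nonneg_right h (by positivity)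
    _ = (2 : ℝ) ^ (d + a) := by rw [pow_add]
    _ ≤ 2 ^ b := pow_le_pow_right₀ (by norm_num) h2

private theorem params_big (n : ℕ) (h : 3000 ≤ n) : 200 * (n + 1) + 3000 ≤ 2 ^ n := by
  induction n, h using Nat.le_induction with
  | base =>
    calc 200 * (3000 + 1) + 3000 ≤ 2 ^ 20 := by norm_num
      _ ≤ 2 ^ 3000 := Nat.pow_le_pow_right (by norm_num) (by norm_num)
  | succ n hn ih =>
    rw [pow_succ]
    omega

/-- Parameters (`ℓ = clog2 L`, `2^ℓ ∈ [L, 2L)`): everything is a power of two, `r ≤ L ≤ 2^ℓ`.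
`hnum`: `2 + X ≤ 2^(335+12ℓ)`; right side `≥ N1 w/4`; divided by `N1 w` the terms of the bracket are
`18·64 u⁴2^r/w`-type (`1 + c6 ≤ 2 c6`, `w ≤ N1`), `36u/w + 9u/w`, `(ℓ + 2l0 + 2u + s w)/N1`,
`(6r+30)/k ≤ 2^(6+ℓ)/k`, `12 s I/w`, `6s/w`; each is `≤ 2^(-342-12ℓ)`. -/
theorem params : ∃ L0 : ℕ, ∀ L ≥ L0,
    Num (4 * 2 ^ L) (L - 83 * Nat.clog 2 L) (2 ^ Nat.clog 2 L) (2 ^ L)
      (2 ^ (L - 352 - 13 * Nat.clog 2 L)) (2 ^ (6 + Nat.clog 2 L)) (2 ^ (348 + 13 * Nat.clog 2 L))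
      (2 ^ (L - 357 - 14 * Nat.clog 2 L)) (2 ^ (L - 9 - Nat.clog 2 L))
      (2 ^ (L + 59 - 81 * Nat.clog 2 L)) (2 ^ (40 + 2 * Nat.clog 2 L)) := by
  obtain ⟨c, hc⟩ : ∃ c : ℕ, c = 4000 := ⟨_, rfl⟩
  obtain ⟨B, hB⟩ : ∃ B : ℕ, B = 2 ^ c := ⟨_, rfl⟩
  refine ⟨B, ?_⟩
  intro L hL
  have h1 : L ≤ 2 ^ Nat.clog 2 L := Nat.le_pow_clog (by norm_num) L
  obtain ⟨ℓ, hℓ⟩ : ∃ ℓ, ℓ = Nat.clog 2 L := ⟨_, rfl⟩
  have hL1 : 1 < L := by
    refine lt_of_lt_of_le ?_ hL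
    rw [hB]
    exact Nat.one_lt_two_pow (by omega)
  have h2 : 2 ^ (Nat.clog 2 L - 1) < L := Nat.pow_pred_clog_lt_self (by norm_num) hL1
  rw [← hℓ] at h1 h2 ⊢
  have hℓ1 : 4000 ≤ ℓ := by
    have h3 : 2 ^ c ≤ 2 ^ ℓ := by
      rw [← hB]
      exact hL.trans h1
    rw [← hc]
    exact (Nat.pow_le_pow_iff_right (by norm_num)).mp h3
  have hLℓ : 200 * ℓ + 3000 ≤ L := by
    have h3 := params_big (ℓ - 1) (by omega)
    have h4 : ℓ - 1 + 1 = ℓ := by omega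
    rw [h4] at h3
    omega
  clear hL hB hL1 hℓ h2 hc
  have hsk : 2 ^ (6 + ℓ) * 2 ^ (348 + 13 * ℓ) = 2 ^ (354 + 14 * ℓ) := by
    rw [← pow_add]
    congr 1
    ring
  have hpos : ∀ n : ℕ, 0 < 2 ^ n := fun n => Nat.two_pow_pos n
  have hn2 : ∀ n : ℕ, n < 2 ^ n := fun n => Nat.lt_two_pow_self
  refine
    { r12 := by omega
      rs := ?_
      hΛ := hpos _
      k1 := hpos _
      hw := params_pow 4 (by norm_num) (by omega)
      hN := ?_
      l0s := ?_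
      hi1 := ?_
      hM := by omega
      u16 := ?_
      u500 := ?_
      u128 := ?_
      hlog := ?_
      hG := ?_
      hr := ?_
      hI := ?_
      hnum := ?_ }
  · have h3 : 2 ^ (6 + ℓ) = 64 * 2 ^ ℓ := by
      rw [pow_add]
      norm_num
    rw [h3]
    omega
  · have h3 : 3 * 2 ^ (L + 59 - 81 * ℓ) ≤ 2 ^ (L - 10 - ℓ) := params_pow 2 (by norm_num) (by omega)
    have h4 : 2 ^ (348 + 13 * ℓ) ≤ 2 ^ (L - 10 - ℓ) := Nat.pow_le_pow_right (by norm_num) (by omega)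
    have h5 : 2 ^ (L - 9 - ℓ) = 2 * 2 ^ (L - 10 - ℓ) := by
      rw [← pow_succ']
      congr 1
      omega
    omega
  · rw [hsk]
    exact params_pow 2 (by norm_num) (by omega)
  · have h3 : 2 * 2 ^ (L - 352 - 13 * ℓ) ≤ 2 ^ (L - 2) := params_pow 1 (by norm_num) (by omega)
    have h4 : 2 * 2 ^ (6 + ℓ) * 2 ^ (L - 9 - ℓ) ≤ 2 ^ (L - 2) := by
      rw [mul_assoc, ← pow_add]
      exact params_pow 1 (by norm_num) (by omega)
    have h5 : 2 ^ (6 + ℓ) * 2 ^ (L - 357 - 14 * ℓ) ≤ 2 ^ (L - 2) := by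
      rw [← pow_add]
      exact Nat.pow_le_pow_right (by norm_num) (by omega)
    have h6 : 2 * (2 ^ (6 + ℓ) * 2 ^ (348 + 13 * ℓ)) ≤ 2 ^ (L - 2) := by
      rw [hsk]
      exact params_pow 1 (by norm_num) (by omega)
    have h7 : 2 ^ L = 4 * 2 ^ (L - 2) := by
      have : (4 : ℕ) = 2 ^ 2 := by norm_num
      rw [this, ← pow_add]
      congr 1
      omega
    omega
  · rw [hsk, ← pow_mul]
    exact params_pow 4 (by norm_num) (by omega)
  · rw [hsk, mul_assoc, ← pow_add]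
    exact params_pow 9 (by norm_num) (by omega)
  · rw [hsk, mul_assoc, ← pow_add]
    refine params_pow 7 (by norm_num) ?_
    have h3 : 354 + 14 * ℓ < 2 ^ (354 + 14 * ℓ) := hn2 _
    have h4 : 2 ^ (354 + 14 * ℓ) = 2 * 2 ^ (353 + 14 * ℓ) := by
      rw [← pow_succ']
      congr 1
      omega
    have h5 := hn2 (353 + 14 * ℓ)
    omega
  · have h3 : 2 ^ 7 * (2 ^ L + 2) ≤ 2 ^ (L + 8) := by
      have h4 : 2 ^ (L + 8) = 2 ^ 8 * 2 ^ L := by
        rw [← pow_add]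
        congr 1
        omega
      have h5 : 2 ^ 1 ≤ 2 ^ L := Nat.pow_le_pow_right (by norm_num) (by omega)
      rw [h4]
      omega
    refine h3.trans (Nat.pow_le_pow_right (by norm_num) ?_)
    have h6 : 2 ^ (6 + ℓ) = 64 * 2 ^ ℓ := by
      rw [pow_add]
      norm_num
    rw [h6]
    omega
  · rw [← pow_add, ← pow_add]
    exact Nat.pow_le_pow_right (by norm_num) (by omega)
  · rw [← pow_add]
    exact Nat.pow_le_pow_right (by norm_num) (by omega)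
  · rw [← pow_add]
    exact Nat.pow_le_pow_right (by norm_num) (by omega)
  · have hlog2 : Real.logb 2 ((2 ^ ℓ : ℕ) : ℝ) = ℓ := by
      push_cast
      rw [← Real.rpow_natCast, Real.logb_rpow (by norm_num) (by norm_num)]
    rw [hlog2]
    unfold TT
    push_cast
    have hskR : (2 : ℝ) ^ (6 + ℓ) * 2 ^ (348 + 13 * ℓ) = 2 ^ (354 + 14 * ℓ) := by
      rw [← pow_add]
      congr 1
      ring
    refine params_real _ _ _ _ _ _ _ _ _ ((2 : ℝ) ^ (340 + 12 * ℓ)) _ (by positivity)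
      (by positivity) (by positivity) (by positivity) (by positivity) (by positivity)
      (by positivity) (by positivity) ?_ (by positivity) ?_ ?_ ?_ ?_ ?_ ?_ ?_ ?_ ?_ ?_
    · have h3 : (1 : ℝ) ≤ (2 ^ (6 + ℓ) * 2 ^ (348 + 13 * ℓ)) ^ 3 := by
        rw [hskR]
        exact one_le_pow₀ (one_le_pow₀ (by norm_num))
      have h4 : (1 : ℝ) ≤ 2 ^ (L - 83 * ℓ) := one_le_pow₀ (by norm_num)
      nlinarith [mul_le_mul h3 h4 (by norm_num) (by positivity)]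
    · have h3 : (2 : ℝ) ^ 94 * (2 ^ (40 + 2 * ℓ)) ^ 6 = 2 ^ (334 + 12 * ℓ) := by
        rw [← pow_mul, ← pow_add]
        congr 1
        ring
      have h4 : (2 : ℝ) ^ (340 + 12 * ℓ) = 64 * 2 ^ (334 + 12 * ℓ) := by
        have : (64 : ℝ) = 2 ^ 6 := by norm_num
        rw [this, ← pow_add]
        congr 1
        ring
      have h5 : (2 : ℝ) ≤ 2 ^ (334 + 12 * ℓ) := by
        calc (2 : ℝ) = 2 ^ 1 := by norm_num
          _ ≤ 2 ^ (334 + 12 * ℓ) := pow_le_pow_right₀ (by norm_num) (by omega)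
      rw [h3, h4]
      linarith
    · exact pow_le_pow_right₀ (by norm_num) (by omega)
    · rw [hskR]
      have h3 : 18 * (64 * ((2 : ℝ) ^ (354 + 14 * ℓ)) ^ 3 * 2 ^ (L - 83 * ℓ)) *
          2 ^ (354 + 14 * ℓ) * 2 ^ (340 + 12 * ℓ) =
          1152 * 2 ^ ((354 + 14 * ℓ) * 4 + (L - 83 * ℓ) + (340 + 12 * ℓ)) := by
        rw [pow_add (2 : ℝ) ((354 + 14 * ℓ) * 4 + (L - 83 * ℓ)) (340 + 12 * ℓ),
          pow_add (2 : ℝ) ((354 + 14 * ℓ) * 4) (L - 83 * ℓ), pow_mul]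
        generalize (2 : ℝ) ^ (354 + 14 * ℓ) = U
        generalize (2 : ℝ) ^ (L - 83 * ℓ) = V
        generalize (2 : ℝ) ^ (340 + 12 * ℓ) = W
        ring
      rw [h3]
      exact params_powR 11 (by norm_num) (by omega)
    · rw [hskR, mul_assoc, ← pow_add]
      exact params_powR 6 (by norm_num) (by omega)
    · rw [hskR, ← pow_add]
      have h3 : (ℓ : ℝ) ≤ 2 ^ (L - 352 - 13 * ℓ) := by
        have h4 : (ℓ : ℝ) ≤ 2 ^ ℓ := by exact_mod_cast (hn2 ℓ).le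
        exact h4.trans (pow_le_pow_right₀ (by norm_num) (by omega))
      have h5 : 2 * (2 : ℝ) ^ (354 + 14 * ℓ) ≤ 2 ^ (L - 352 - 13 * ℓ) :=
        params_powR 1 (by norm_num) (by omega)
      have h6 : (2 : ℝ) ^ (6 + ℓ + (L - 357 - 14 * ℓ)) = 2 * 2 ^ (L - 352 - 13 * ℓ) := by
        rw [← pow_succ']
        congr 1
        omega
      have h7 : (ℓ : ℝ) + 2 * 2 ^ (L - 352 - 13 * ℓ) + 2 * 2 ^ (354 + 14 * ℓ) +
          2 ^ (6 + ℓ + (L - 357 - 14 * ℓ)) ≤ 8 * 2 ^ (L - 352 - 13 * ℓ) := by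
        rw [h6]
        have h8 : (0 : ℝ) < 2 ^ (L - 352 - 13 * ℓ) := by positivity
        linarith
      refine (mul_le_mul_of_nonneg_right h7 (by positivity)).trans ?_
      rw [mul_assoc, ← pow_add]
      exact params_powR 3 (by norm_num) (by omega)
    · have h3 : ((L - 83 * ℓ : ℕ) : ℝ) ≤ 2 ^ ℓ := by
        have h4 : L - 83 * ℓ ≤ 2 ^ ℓ := by omega
        exact_mod_cast h4
      have h5 : (30 : ℝ) ≤ 2 ^ ℓ := by
        calc (30 : ℝ) ≤ 2 ^ 5 := by norm_num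
          _ ≤ 2 ^ ℓ := pow_le_pow_right₀ (by norm_num) (by omega)
      have h6 : 6 * ((L - 83 * ℓ : ℕ) : ℝ) + 30 ≤ 8 * 2 ^ ℓ := by linarith
      refine (mul_le_mul_of_nonneg_right h6 (by positivity)).trans ?_
      rw [mul_assoc, ← pow_add]
      exact params_powR 3 (by norm_num) (by omega)
    · have h3 : (9 * (2 : ℝ) ^ (6 + ℓ) * 2 ^ (L + 59 - 81 * ℓ) + 3 * 2 ^ (6 + ℓ)) ≤
          12 * 2 ^ (6 + ℓ + (L + 59 - 81 * ℓ)) := by
        have h4 : (2 : ℝ) ^ (6 + ℓ) ≤ 2 ^ (6 + ℓ + (L + 59 - 81 * ℓ)) :=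
          pow_le_pow_right₀ (by norm_num) (by omega)
        rw [mul_assoc, ← pow_add]
        linarith
      refine (mul_le_mul_of_nonneg_right h3 (by positivity)).trans ?_
      rw [mul_assoc, ← pow_add]
      exact params_powR 4 (by norm_num) (by omega)
    · rw [mul_assoc, ← pow_add]
      exact params_powR 3 (by norm_num) (by omega)
    · have h3 : 3 * (2 : ℝ) ^ (L + 59 - 81 * ℓ) ≤ 2 ^ (L - 11 - ℓ) :=
        params_powR 2 (by norm_num) (by omega)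
      have h4 : (2 : ℝ) ^ (348 + 13 * ℓ) ≤ 2 ^ (L - 11 - ℓ) :=
        pow_le_pow_right₀ (by norm_num) (by omega)
      have h5 : (2 : ℝ) ^ (L - 9 - ℓ) = 4 * 2 ^ (L - 11 - ℓ) := by
        have : (4 : ℝ) = 2 ^ 2 := by norm_num
        rw [this, ← pow_add]
        congr 1
        omega
      rw [h5]
      linarith
    · have h3 : 9 * (2 : ℝ) ^ (L + 59 - 81 * ℓ) ≤ 2 ^ (L - 358 - 14 * ℓ) :=
        params_powR 4 (by norm_num) (by omega)
      have h5 : (2 : ℝ) ^ (L - 357 - 14 * ℓ) = 2 * 2 ^ (L - 358 - 14 * ℓ) := by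
        rw [← pow_succ']
        congr 1
        omega
      rw [h5]
      linarith

end MP_5e4520_nt
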