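import Pool.Agent.Lib.MP_5e4520_nt.CoreN
import Pool.Agent.Lib.MP_5e4520_nt.Params

set_option autoImplicit false

namespace MP_5e4520_nt

open Finset

theorem core : ∃ L0 : ℕ, ∀ L ≥ L0, ∀ S : Finset Pt,
    ¬ Sys (4 * 2 ^ L) (L - 83 * Nat.clog 2 L) (2 ^ Nat.clog 2 L)
      (2 ^ (L - 352 - 13 * Nat.clog 2 L)) (2 ^ L) S := by
  obtain ⟨L0, h⟩ := params
  exact ⟨L0, fun L hL S hS => core_num (h L hL) S hS⟩

end MP_5e4520_nt
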