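import Pool.Agent.Lib.MP_5e4520_nt.Hfin

set_option autoImplicit false

namespace MP_5e4520_nt

open Finset

/-- swap the two coordinates -/
def swp (p : Pt) : Pt := (p.2.1, p.1, p.2.2.2, p.2.2.1)

private theorem hswap_swp_inj : Function.Injective swp := by
  intro p q h
  obtain ⟨a, b, c, d⟩ := p
  obtain ⟨a', b', c', d'⟩ := q
  simp only [swp, Prod.mk.injEq] at h ⊢
  exact ⟨h.2.1, h.1, h.2.2.2, h.2.2.1⟩

private theorem hswap_hit {l m u r α β γ δ : ℕ} (h : Hit l m u r α β γ δ) :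
    Hit m l u r β α δ γ := by
  obtain ⟨q, h1, h2, h3, h4⟩ := h
  have e1 : m + l + 2 * u - r = l + m + 2 * u - r := by omega
  have e2 : 2 * m + l + 3 * u = l + 2 * m + 3 * u := by omega
  have e3 : m + 2 * l + 3 * u = 2 * l + m + 3 * u := by omega
  refine ⟨q, ?_, ?_, ?_, ?_⟩
  · rw [e1]; exact h1
  · rw [e1]; exact h2
  · rw [e2]; exact h4
  · rw [e3]; exact h3

theorem Sys_swap {M r Λ lo hi : ℕ} {S : Finset Pt} (hS : Sys M r Λ lo hi S) :
    Sys M r Λ lo hi (S.image swp) := by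
  refine ⟨?_, ?_, ?_, ?_⟩
  · intro p hp
    obtain ⟨q, hq, rfl⟩ := mem_image.mp hp
    obtain ⟨h1, h2, h3, h4⟩ := hS.rng q hq
    exact ⟨h2, h1, h4, h3⟩
  · intro p hp p' hp' e1 e2
    obtain ⟨q, hq, rfl⟩ := mem_image.mp hp
    obtain ⟨q', hq', rfl⟩ := mem_image.mp hp'
    have : q = q' := hS.inj q hq q' hq' e2 e1
    rw [this]
  · rw [card_image_of_injective _ hswap_swp_inj]
    exact hS.card
  · intro l m u hl hm hhi p hp hhit
    obtain ⟨q, hq, rfl⟩ := mem_image.mp hp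
    have h := hswap_hit hhit
    have e2 : l + 2 * m + 3 * u = 2 * m + l + 3 * u := by omega
    have e3 : 2 * l + m + 3 * u = m + 2 * l + 3 * u := by omega
    rw [e2, e3] at h
    exact hS.nohit m l u hm hl (by omega) q hq h

private theorem hswap_ent_image {ι ι' κ : Type*} [DecidableEq ι'] (S : Finset ι) (e : ι → ι')
    (he : Function.Injective e) (f : ι' → κ) : ent (S.image e) f = ent S (fun x => f (e x)) := by
  classical
  unfold ent
  rw [card_image_of_injective _ he, sum_image (fun x _ y _ h => he h)]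
  congr 1
  apply sum_congr rfl
  intro p _
  congr 2
  rw [filter_image, card_image_of_injective _ he]

theorem EE_swap {M : ℕ} {S : Finset Pt} (a b l m : ℕ) :
    EE M (S.image swp) a b l m = EE M S b a m l := by
  unfold EE
  rw [hswap_ent_image S swp hswap_swp_inj]
  apply ent_congr
  intro x _ y _
  simp only [px, swp, Prod.mk.injEq]
  tauto

/-- `Hfin` for the swapped system at the window `(m, l, u)` -/
theorem Hfin' {M r Λ lo hi : ℕ} {S : Finset Pt} (hS : Sys M r Λ lo hi S) (l m u : ℕ)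
    (hP : Par l m u r) (hlo : lo ≤ l) (hlm : lo ≤ m) (hhi : l + m + 2 * u ≤ hi) (hM : 2 * hi ≤ M)
    (hΛ : 1 ≤ Λ) (h16 : 16 * u ^ 2 ≤ 2 ^ r) (h500 : 500 * u * Λ ≤ 2 ^ r)
    (h128 : 128 * u * Λ ≤ 2 ^ u) :
    EE M S (2 * l + m) (l + 2 * m + 3 * u) (l + u) (m + u) -
        EE M S (2 * l + m) (l + 2 * m + 3 * u) l m ≤
      3 * u - (EE M S (2 * l + m + 3 * u) (l + 2 * m + 3 * u) l m -
        EE M S (2 * l + m) (l + 2 * m + 3 * u) l m) + (6 * r + 30) +
        64 * u ^ 3 * 2 ^ r * IABCD (EE M S) l m u := by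
  have h := Hfin (Sys_swap hS) m l u ⟨hP.r1, hP.ru, hP.um, hP.ul⟩ hlm hlo (by omega) hM hΛ h16 h500
    h128
  have e2 : 2 * m + l = l + 2 * m := by omega
  have e3 : m + 2 * l = 2 * l + m := by omega
  simp only [IABCD, GG, EE_swap, e2, e3] at h ⊢
  exact h

end MP_5e4520_nt
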