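import Pool.Agent.Lib.MP_5e4520_nt.GenA

set_option autoImplicit false

namespace MP_5e4520_nt

open Finset

open Classical in
/-- union bound over `1 ≤ d ≤ 2K`: by `cnt` with `X = 4/2^(l+u)`, `gcd(d,Q1) ≤ d ≤ 2K ≤ L = 2^(l+m+2u)`,
the number of `α` is `≤ 8L + L = 9L`, same for `β`; `∑ ≤ 2K (9L)(9L) = 162 K L²` and
`K L² = 2^{-r} Q1 Q2`. -/
theorem G1count (l m u r : ℕ) (hP : Par l m u r) :
    (((range (2 ^ (2 * l + m + 3 * u)) ×ˢ range (2 ^ (l + 2 * m + 3 * u))).filter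
      (fun p => ¬ Gen1 l m u r p.1 p.2)).card : ℝ) ≤
      162 / 2 ^ r * 2 ^ (2 * l + m + 3 * u) * 2 ^ (l + 2 * m + 3 * u) := by
  obtain ⟨hr1, hru, hul, hum⟩ := hP
  set K : ℕ := 2 ^ (l + m + 2 * u - r) with hK
  set Q1 : ℕ := 2 ^ (2 * l + m + 3 * u) with hQ1
  set Q2 : ℕ := 2 ^ (l + 2 * m + 3 * u) with hQ2
  have eQ1 : (Q1 : ℝ) = 2 ^ (2 * l + m + 3 * u) := by rw [hQ1]; push_cast; rfl
  have eQ2 : (Q2 : ℝ) = 2 ^ (l + 2 * m + 3 * u) := by rw [hQ2]; push_cast; rfl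
  have hQ1p : 0 < Q1 := by rw [hQ1]; positivity
  have hQ2p : 0 < Q2 := by rw [hQ2]; positivity
  set Lr : ℝ := 2 ^ (l + m + 2 * u) with hLr
  have hL0 : 0 < Lr := by positivity
  have hKL : (K : ℝ) * 2 ^ r = Lr := by
    rw [hK, hLr]; push_cast; rw [← pow_add]; congr 1; omega
  have h2r : (2 : ℝ) ≤ 2 ^ r := by
    calc (2 : ℝ) = 2 ^ 1 := by norm_num
      _ ≤ 2 ^ r := pow_le_pow_right₀ (by norm_num) hr1
  have hK0 : (0 : ℝ) < K := by rw [hK]; positivity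
  have h2K : 2 * (K : ℝ) ≤ Lr := by rw [← hKL]; nlinarith
  let A : ℕ → Finset ℕ := fun d => (range Q1).filter
    (fun a : ℕ => nd ((d : ℝ) * a / Q1) ≤ 4 / 2 ^ (l + u))
  let B : ℕ → Finset ℕ := fun d => (range Q2).filter
    (fun a : ℕ => nd ((d : ℝ) * a / Q2) ≤ 4 / 2 ^ (m + u))
  have hsub : (range Q1 ×ˢ range Q2).filter (fun p => ¬ Gen1 l m u r p.1 p.2) ⊆
      (Icc 1 (2 * K)).biUnion (fun d => A d ×ˢ B d) := by
    intro p hp
    rw [mem_filter, mem_product] at hp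
    obtain ⟨⟨hp1, hp2⟩, hg⟩ := hp
    unfold Gen1 at hg
    push Not at hg
    obtain ⟨d, hd0, hd1, h1, h2⟩ := hg
    rw [mem_biUnion]
    refine ⟨d, mem_Icc.2 ⟨hd0, hd1⟩, mem_product.2 ⟨?_, ?_⟩⟩
    · simp only [A, mem_filter]
      refine ⟨hp1, ?_⟩
      rw [eQ1]; exact h1.le
    · simp only [B, mem_filter]
      refine ⟨hp2, ?_⟩
      rw [eQ2]; exact h2.le
  have hA : ∀ d ∈ Icc 1 (2 * K), ((A d).card : ℝ) ≤ 9 * Lr := by
    intro d hd
    rw [mem_Icc] at hd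
    refine (cnt d Q1 hd.1 hQ1p (4 / 2 ^ (l + u)) (by positivity)).trans ?_
    have h1 : (Nat.gcd d Q1 : ℝ) ≤ 2 * K := by
      have : Nat.gcd d Q1 ≤ 2 * K := (Nat.gcd_le_left _ hd.1).trans hd.2
      exact_mod_cast this
    have h2 : 2 * (4 / 2 ^ (l + u)) * (Q1 : ℝ) = 8 * Lr := by
      have e : (2 : ℝ) ^ (2 * l + m + 3 * u) = 2 ^ (l + u) * Lr := by
        rw [hLr, ← pow_add]; congr 1; omega
      rw [eQ1, e]
      field_simp
      ring
    linarith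
  have hB : ∀ d ∈ Icc 1 (2 * K), ((B d).card : ℝ) ≤ 9 * Lr := by
    intro d hd
    rw [mem_Icc] at hd
    refine (cnt d Q2 hd.1 hQ2p (4 / 2 ^ (m + u)) (by positivity)).trans ?_
    have h1 : (Nat.gcd d Q2 : ℝ) ≤ 2 * K := by
      have : Nat.gcd d Q2 ≤ 2 * K := (Nat.gcd_le_left _ hd.1).trans hd.2
      exact_mod_cast this
    have h2 : 2 * (4 / 2 ^ (m + u)) * (Q2 : ℝ) = 8 * Lr := by
      have e : (2 : ℝ) ^ (l + 2 * m + 3 * u) = 2 ^ (m + u) * Lr := by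
        rw [hLr, ← pow_add]; congr 1; omega
      rw [eQ2, e]
      field_simp
      ring
    linarith
  have hcard : (((range Q1 ×ˢ range Q2).filter (fun p => ¬ Gen1 l m u r p.1 p.2)).card : ℝ) ≤
      ∑ d ∈ Icc 1 (2 * K), ((A d).card : ℝ) * (B d).card := by
    have h1 := (card_le_card hsub).trans card_biUnion_le
    have h2 : ((((range Q1 ×ˢ range Q2).filter (fun p => ¬ Gen1 l m u r p.1 p.2)).card : ℕ) : ℝ) ≤
        ((∑ d ∈ Icc 1 (2 * K), (A d ×ˢ B d).card : ℕ) : ℝ) := by exact_mod_cast h1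
    refine h2.trans (le_of_eq ?_)
    push_cast
    refine sum_congr rfl fun d _ => ?_
    rw [card_product]
    push_cast
    rfl
  refine hcard.trans ?_
  calc ∑ d ∈ Icc 1 (2 * K), ((A d).card : ℝ) * (B d).card
      ≤ ∑ d ∈ Icc 1 (2 * K), (9 * Lr) * (9 * Lr) :=
        sum_le_sum fun d hd => mul_le_mul (hA d hd) (hB d hd) (Nat.cast_nonneg _) (by positivity)
    _ = 2 * K * ((9 * Lr) * (9 * Lr)) := by
        rw [sum_const, Nat.card_Icc, nsmul_eq_mul]; push_cast; ring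
    _ = 162 / 2 ^ r * 2 ^ (2 * l + m + 3 * u) * 2 ^ (l + 2 * m + 3 * u) := by
        have e3 : (2 : ℝ) ^ (2 * l + m + 3 * u) * 2 ^ (l + 2 * m + 3 * u) = Lr ^ 3 := by
          rw [hLr, ← pow_add, ← pow_mul]; congr 1; omega
        have hKd : (K : ℝ) = Lr / 2 ^ r := by
          rw [eq_div_iff (by positivity)]; exact hKL
        rw [mul_assoc (162 / 2 ^ r), e3, hKd]
        ring

open Classical in
/-- Markov inequality from `Zlow_mean` (`Zlow ≥ 0`) -/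
theorem G2count (l m u r : ℕ) (hP : Par l m u r) :
    (((range (2 ^ (2 * l + m + 3 * u)) ×ˢ range (2 ^ (l + 2 * m + 3 * u))).filter
      (fun p => ¬ Gen2 l m u r p.1 p.2)).card : ℝ) ≤
      20 / 2 ^ (2 * r) * 2 ^ (2 * l + m + 3 * u) * 2 ^ (l + 2 * m + 3 * u) := by
  have hmean := Zlow_mean l m u r hP
  set Q1 : ℕ := 2 ^ (2 * l + m + 3 * u) with hQ1
  set Q2 : ℕ := 2 ^ (l + 2 * m + 3 * u) with hQ2
  have hZ0 : ∀ α β, 0 ≤ Zlow l m u r α β := by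
    intro α β
    unfold Zlow
    refine sum_nonneg fun h1 _ => sum_nonneg fun h2 _ => ?_
    split_ifs
    · exact mul_nonneg (mul_nonneg (ctri_nonneg _ _ _) (cqua_nonneg _ _ _)) (fej_nonneg _ _)
    · exact le_rfl
  set S := (range Q1 ×ˢ range Q2).filter (fun p => ¬ Gen2 l m u r p.1 p.2) with hS
  have h1 : (S.card : ℝ) * (1 / (4 * 2 ^ r)) ≤
      ∑ p ∈ range Q1 ×ˢ range Q2, Zlow l m u r p.1 p.2 := by
    calc (S.card : ℝ) * (1 / (4 * 2 ^ r)) = ∑ p ∈ S, (1 / (4 * 2 ^ r) : ℝ) := by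
          rw [sum_const, nsmul_eq_mul]
      _ ≤ ∑ p ∈ S, Zlow l m u r p.1 p.2 := by
          refine sum_le_sum fun p hp => ?_
          have h2 := (mem_filter.1 hp).2
          unfold Gen2 at h2
          exact (not_le.1 h2).le
      _ ≤ ∑ p ∈ range Q1 ×ˢ range Q2, Zlow l m u r p.1 p.2 :=
          sum_le_sum_of_subset_of_nonneg (filter_subset _ _) fun p _ _ => hZ0 _ _
  rw [sum_product] at h1
  have h3 := h1.trans hmean
  have h2r : (0 : ℝ) < 2 ^ r := by positivity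
  have h4 : (S.card : ℝ) ≤ 16 / 2 ^ (2 * r) * 2 ^ (2 * l + m + 3 * u) * 2 ^ (l + 2 * m + 3 * u) := by
    have h5 := mul_le_mul_of_nonneg_left h3 (by positivity : (0 : ℝ) ≤ 4 * 2 ^ r)
    have e1 : 4 * (2 : ℝ) ^ r * ((S.card : ℝ) * (1 / (4 * 2 ^ r))) = S.card := by
      field_simp
    have e2 : 4 * (2 : ℝ) ^ r * (4 / 2 ^ (3 * r) * 2 ^ (2 * l + m + 3 * u) *
        2 ^ (l + 2 * m + 3 * u)) =
        16 / 2 ^ (2 * r) * 2 ^ (2 * l + m + 3 * u) * 2 ^ (l + 2 * m + 3 * u) := by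
      have e3 : (2 : ℝ) ^ (3 * r) = 2 ^ r * 2 ^ (2 * r) := by rw [← pow_add]; congr 1; ring
      rw [e3]
      field_simp
      ring
    rw [e1, e2] at h5
    exact h5
  refine h4.trans ?_
  have h6 : (16 : ℝ) / 2 ^ (2 * r) ≤ 20 / 2 ^ (2 * r) := by
    apply div_le_div_of_nonneg_right (by norm_num) (by positivity)
  have h7 := mul_le_mul_of_nonneg_right h6
    (by positivity : (0 : ℝ) ≤ 2 ^ (2 * l + m + 3 * u) * 2 ^ (l + 2 * m + 3 * u))
  rw [← mul_assoc, ← mul_assoc] at h7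
  exact h7

end MP_5e4520_nt
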