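import Pool.Agent.Lib.MP_5e4520_nt.Bump

set_option autoImplicit false

namespace MP_5e4520_nt

open Finset

open Classical in
private theorem genc_count (d k j : ℕ) (hd : 0 < d) :
    (((range (2 ^ k)).filter (fun a : ℕ => nd ((d : ℝ) * a / 2 ^ k) < 1 / 2 ^ j)).card : ℝ) ≤
      2 * (1 / 2 ^ j) * 2 ^ k + d := by
  have h := cnt d (2 ^ k) hd (by positivity) (1 / 2 ^ j) (by positivity)
  have h1 : (((range (2 ^ k)).filter (fun a : ℕ => nd ((d : ℝ) * a / 2 ^ k) < 1 / 2 ^ j)).card : ℝ) ≤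
      (((range (2 ^ k)).filter
        (fun a : ℕ => nd ((d : ℝ) * a / ((2 ^ k : ℕ) : ℝ)) ≤ 1 / 2 ^ j)).card : ℝ) := by
    have h2 := Finset.card_le_card (s := (range (2 ^ k)).filter
      (fun a : ℕ => nd ((d : ℝ) * a / 2 ^ k) < 1 / 2 ^ j))
      (t := (range (2 ^ k)).filter (fun a : ℕ => nd ((d : ℝ) * a / ((2 ^ k : ℕ) : ℝ)) ≤ 1 / 2 ^ j))
      (by
        intro a ha
        rw [Finset.mem_filter] at ha ⊢
        refine ⟨ha.1, ?_⟩
        push_cast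
        exact ha.2.le)
    exact_mod_cast h2
  refine h1.trans (h.trans ?_)
  have h3 : (Nat.gcd d (2 ^ k) : ℝ) ≤ d := by exact_mod_cast Nat.gcd_le_left _ hd
  push_cast
  linarith

open Classical in
/-- the indicator in `ret` -/
private noncomputable def gencI (l m u : ℕ) (p : ℕ × ℕ) (d : ℕ) : ℝ :=
  if nd (((d + 1 : ℕ) : ℝ) * p.1 / 2 ^ (2 * l + m + 3 * u)) < 1 / 2 ^ l ∧
    nd (((d + 1 : ℕ) : ℝ) * p.2 / 2 ^ (l + 2 * m)) < 1 / 2 ^ m then (1 : ℝ) else 0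

private theorem genc_I_nonneg (l m u : ℕ) (p : ℕ × ℕ) (d : ℕ) : 0 ≤ gencI l m u p d := by
  unfold gencI
  split_ifs <;> norm_num

private theorem genc_I_le (l m u : ℕ) (p : ℕ × ℕ) (d : ℕ) : gencI l m u p d ≤ 1 := by
  unfold gencI
  split_ifs <;> norm_num

private theorem genc_I_sum (l m u d : ℕ) :
    ∑ p ∈ range (2 ^ (2 * l + m + 3 * u)) ×ˢ range (2 ^ (l + 2 * m)), gencI l m u p d ≤
      (2 * (1 / 2 ^ l) * 2 ^ (2 * l + m + 3 * u) + (d + 1 : ℕ)) *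
      (2 * (1 / 2 ^ m) * 2 ^ (l + 2 * m) + (d + 1 : ℕ)) := by
  classical
  have h1 : ∑ p ∈ range (2 ^ (2 * l + m + 3 * u)) ×ˢ range (2 ^ (l + 2 * m)), gencI l m u p d =
      (((range (2 ^ (2 * l + m + 3 * u))).filter (fun a : ℕ =>
        nd (((d + 1 : ℕ) : ℝ) * a / 2 ^ (2 * l + m + 3 * u)) < 1 / 2 ^ l)).card : ℝ) *
      (((range (2 ^ (l + 2 * m))).filter (fun b : ℕ =>
        nd (((d + 1 : ℕ) : ℝ) * b / 2 ^ (l + 2 * m)) < 1 / 2 ^ m)).card : ℝ) := by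
    rw [← Nat.cast_mul, ← Finset.card_product, ← Finset.filter_product]
    unfold gencI
    rw [Finset.sum_ite, Finset.sum_const_zero, add_zero, Finset.sum_const, nsmul_eq_mul, mul_one]
  rw [h1]
  exact mul_le_mul (genc_count (d + 1) _ l (Nat.succ_pos d)) (genc_count (d + 1) _ m (Nat.succ_pos d))
    (Nat.cast_nonneg _) (by positivity)

private theorem genc_num (W U : ℝ) (hW0 : 0 < W) (hU1 : 1 ≤ U) :
    2 * W * U ^ 3 * (2 * W) * (W / U) + (2 * W * U ^ 3 + 2 * W) * (W / U) ^ 2 +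
        2 * (W / U) ^ 3 ≤ 10 * W ^ 3 * U ^ 2 := by
  have hU0 : 0 < U := by linarith
  have h1 : 2 * W * U ^ 3 * (2 * W) * (W / U) + (2 * W * U ^ 3 + 2 * W) * (W / U) ^ 2 +
      2 * (W / U) ^ 3 = W ^ 3 * (4 * U ^ 2 + 2 * U + 2 / U ^ 2 + 2 / U ^ 3) := by
    field_simp
    ring
  have h5 : 1 ≤ U ^ 2 := one_le_pow₀ hU1
  have h2 : 2 / U ^ 2 ≤ 2 * U ^ 2 := by
    rw [div_le_iff₀ (by positivity)]
    nlinarith
  have h3 : 2 / U ^ 3 ≤ 2 * U ^ 2 := by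
    rw [div_le_iff₀ (by positivity)]
    have h5 : 1 ≤ U ^ 5 := one_le_pow₀ hU1
    have h6 : 2 * U ^ 2 * U ^ 3 = 2 * U ^ 5 := by ring
    rw [h6]
    linarith
  have h4 : 2 * U ≤ 2 * U ^ 2 := by nlinarith
  have h6 : 0 < W ^ 3 := by positivity
  have h7 : 4 * U ^ 2 + 2 * U + 2 / U ^ 2 + 2 / U ^ 3 ≤ 10 * U ^ 2 := by linarith
  rw [h1]
  calc W ^ 3 * (4 * U ^ 2 + 2 * U + 2 / U ^ 2 + 2 / U ^ 3) ≤ W ^ 3 * (10 * U ^ 2) :=
        mul_le_mul_of_nonneg_left h7 h6.le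
    _ = 10 * W ^ 3 * U ^ 2 := by ring

private theorem genc_num2 (W U : ℝ) (hW0 : 0 < W) (hU1 : 1 ≤ U) :
    20 * W ^ 3 * U ^ 2 ≤ 64 / U * (W ^ 3 * U ^ 3) := by
  have hU0 : 0 < U := by linarith
  have h1 : 64 / U * (W ^ 3 * U ^ 3) = 64 * (W ^ 3 * U ^ 2) := by
    field_simp
  rw [h1]
  have h2 : 0 ≤ W ^ 3 * U ^ 2 := by positivity
  linarith

private theorem genc_num3 (a b x p : ℝ) (hp : 0 ≤ p) (hx : 0 ≤ x) :
    p * ((a + (x + 1)) * (b + (x + 1))) ≤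
      p * (a * b + (a + b) * (x + 1) + 2 * ((x + 2) * (x + 1) / 2)) := by
  refine mul_le_mul_of_nonneg_left ?_ hp
  nlinarith

open Classical in
/-- Mean of `ret`: by `cnt` the number of `α` with `nd(dα/Q1) < 1/2^l` is `≤ 2 Q1/2^l + d` and the
number of `β0` is `≤ 2·2^b/2^m + d`; with `ϱ = 1 - 1/K'`, `K' = 2^(l+m-u)`:
`∑_{d≥1} ϱ^d ≤ K'`, `∑ d ϱ^d ≤ K'^2`, `∑ d² ϱ^d ≤ 2K'^3`, so the sum of `ret` over all pairs is
`≤ Q1 2^b (4 K'/2^(l+m) + 2 K'^2/(2^l 2^b) + 2K'^2/(2^m Q1) + 2K'^3/(Q1 2^b))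
 ≤ Q1 2^b (4/2^u + 2/2^(2u) + 2/2^(5u) + 2/2^(6u)) ≤ Q1 2^b * 10/2^u`.  Markov with `1/2`. -/
theorem G3count (l m u r : ℕ) (hP : Par l m u r) :
    (((range (2 ^ (2 * l + m + 3 * u)) ×ˢ range (2 ^ (l + 2 * m))).filter
      (fun p => ¬ Gen3 l m u p.1 p.2)).card : ℝ) ≤
      64 / 2 ^ u * 2 ^ (2 * l + m + 3 * u) * 2 ^ (l + 2 * m) := by
  have hr1 := hP.r1
  have hr2 := hP.ru
  have hr3 := hP.ul
  have hr4 := hP.um
  set K' : ℝ := 2 ^ (l + m - u) with hK'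
  have hK1 : 1 ≤ K' := one_le_pow₀ (by norm_num)
  have hK0 : 0 < K' := by linarith
  set ϱ : ℝ := 1 - 1 / K' with hϱ
  have hinv : 1 / K' ≤ 1 := by rw [div_le_one hK0]; exact hK1
  have hϱ0 : 0 ≤ ϱ := by rw [hϱ]; linarith
  have hϱ1 : ϱ < 1 := by
    rw [hϱ]
    have : 0 < 1 / K' := by positivity
    linarith
  have hnorm : ‖ϱ‖ < 1 := by rwa [Real.norm_of_nonneg hϱ0]
  have hone : 1 - ϱ = 1 / K' := by rw [hϱ]; ring
  set a : ℝ := 2 * (1 / 2 ^ l) * 2 ^ (2 * l + m + 3 * u) with ha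
  set b : ℝ := 2 * (1 / 2 ^ m) * 2 ^ (l + 2 * m) with hb
  have ha0 : 0 ≤ a := by positivity
  have hb0 : 0 ≤ b := by positivity
  have hret : ∀ p : ℕ × ℕ, ret l m u p.1 p.2 = ∑' d : ℕ, ϱ ^ (d + 1) * gencI l m u p d := by
    intro p
    rfl
  have hterm0 : ∀ (p : ℕ × ℕ) (d : ℕ), 0 ≤ ϱ ^ (d + 1) * gencI l m u p d := fun p d =>
    mul_nonneg (pow_nonneg hϱ0 _) (genc_I_nonneg _ _ _ _ _)
  have hgeo : Summable (fun d : ℕ => ϱ ^ (d + 1)) := by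
    have := (summable_geometric_of_norm_lt_one hnorm).mul_left ϱ
    refine this.congr fun d => ?_
    rw [pow_succ, mul_comm]
  have hsum : ∀ p : ℕ × ℕ, Summable (fun d : ℕ => ϱ ^ (d + 1) * gencI l m u p d) := by
    intro p
    refine Summable.of_nonneg_of_le (hterm0 p) (fun d => ?_) hgeo
    exact mul_le_of_le_one_right (pow_nonneg hϱ0 _) (genc_I_le _ _ _ _ _)
  have hret0 : ∀ p : ℕ × ℕ, 0 ≤ ret l m u p.1 p.2 := fun p => by
    rw [hret]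
    exact tsum_nonneg (hterm0 p)
  -- the majorant
  have hs0 := hasSum_choose_mul_geometric_of_norm_lt_one 0 hnorm
  have hs1 := hasSum_choose_mul_geometric_of_norm_lt_one 1 hnorm
  have hs2 := hasSum_choose_mul_geometric_of_norm_lt_one 2 hnorm
  have hG := ((hs0.mul_left (a * b)).add (hs1.mul_left (a + b))).add (hs2.mul_left 2)
  have hval : a * b * (1 / (1 - ϱ) ^ (0 + 1)) + (a + b) * (1 / (1 - ϱ) ^ (1 + 1)) +
      2 * (1 / (1 - ϱ) ^ (2 + 1)) = a * b * K' + (a + b) * K' ^ 2 + 2 * K' ^ 3 := by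
    have e : ∀ n : ℕ, 1 / (1 / K') ^ n = K' ^ n := fun n => by
      rw [one_div_pow, one_div_one_div]
    rw [hone, e, e, e]
    ring
  rw [hval] at hG
  set F := range (2 ^ (2 * l + m + 3 * u)) ×ˢ range (2 ^ (l + 2 * m)) with hF
  have htot : ∑ p ∈ F, ret l m u p.1 p.2 ≤ a * b * K' + (a + b) * K' ^ 2 + 2 * K' ^ 3 := by
    have h1 : ∑ p ∈ F, ret l m u p.1 p.2 =
        ∑' d : ℕ, ∑ p ∈ F, ϱ ^ (d + 1) * gencI l m u p d := by
      rw [Summable.tsum_finsetSum fun p _ => hsum p]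
      exact Finset.sum_congr rfl fun p _ => hret p
    rw [h1, ← hG.tsum_eq]
    refine Summable.tsum_le_tsum (fun d => ?_) (summable_sum fun p _ => hsum p) hG.summable
    rw [← Finset.mul_sum]
    have h2 := genc_I_sum l m u d
    rw [← ha, ← hb, ← hF] at h2
    have h3 : (0 : ℝ) ≤ (d : ℝ) := Nat.cast_nonneg d
    have hc0 : (((d + 0).choose 0 : ℕ) : ℝ) = 1 := by simp
    have hc1 : (((d + 1).choose 1 : ℕ) : ℝ) = d + 1 := by simp
    have hc2 : (((d + 2).choose 2 : ℕ) : ℝ) = (d + 2) * (d + 1) / 2 := by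
      rw [Nat.cast_choose_two]
      push_cast
      ring
    rw [hc0, hc1, hc2]
    calc ϱ ^ (d + 1) * ∑ p ∈ F, gencI l m u p d
        ≤ ϱ ^ d * ((a + (d + 1 : ℕ)) * (b + (d + 1 : ℕ))) := by
          refine mul_le_mul ?_ h2 (Finset.sum_nonneg fun p _ => genc_I_nonneg _ _ _ _ _)
            (pow_nonneg hϱ0 _)
          exact pow_le_pow_of_le_one hϱ0 hϱ1.le (Nat.le_succ d)
      _ ≤ ϱ ^ d * (a * b + (a + b) * (d + 1) + 2 * ((d + 2) * (d + 1) / 2)) := by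
          push_cast
          exact genc_num3 a b d _ (pow_nonneg hϱ0 _) h3
      _ = a * b * (1 * ϱ ^ d) + (a + b) * ((d + 1) * ϱ ^ d) +
          2 * ((d + 2) * (d + 1) / 2 * ϱ ^ d) := by ring
  -- Markov
  have hmark : (1 / 2 : ℝ) * ((F.filter (fun p => ¬ Gen3 l m u p.1 p.2)).card : ℝ) ≤
      ∑ p ∈ F, ret l m u p.1 p.2 := by
    calc (1 / 2 : ℝ) * ((F.filter (fun p => ¬ Gen3 l m u p.1 p.2)).card : ℝ)
        = ∑ p ∈ F.filter (fun p => ¬ Gen3 l m u p.1 p.2), (1 / 2 : ℝ) := by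
          rw [Finset.sum_const, nsmul_eq_mul, mul_comm]
      _ ≤ ∑ p ∈ F.filter (fun p => ¬ Gen3 l m u p.1 p.2), ret l m u p.1 p.2 := by
          refine Finset.sum_le_sum fun p hp => ?_
          have := (Finset.mem_filter.1 hp).2
          unfold Gen3 at this
          linarith
      _ ≤ ∑ p ∈ F, ret l m u p.1 p.2 :=
          Finset.sum_le_sum_of_subset_of_nonneg (Finset.filter_subset _ _) fun p _ _ => hret0 p
  -- numerical values
  set W : ℝ := 2 ^ (l + m) with hW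
  set U : ℝ := 2 ^ u with hU
  have hW0 : 0 < W := by positivity
  have hU1 : 1 ≤ U := one_le_pow₀ (by norm_num)
  have hU0 : 0 < U := by linarith
  have eK : K' = W / U := by
    rw [hK', hW, hU, eq_div_iff (by positivity), ← pow_add]
    congr 1
    omega
  have ea : a = 2 * W * U ^ 3 := by
    rw [ha, hW, hU, ← pow_mul]
    have h1 : (2 : ℝ) ^ (2 * l + m + 3 * u) = 2 ^ l * (2 ^ (l + m) * 2 ^ (u * 3)) := by
      rw [← pow_add, ← pow_add]; congr 1; ring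
    rw [h1]
    have h2 : (0 : ℝ) < 2 ^ l := by positivity
    field_simp
  have eb : b = 2 * W := by
    rw [hb, hW]
    have h1 : (2 : ℝ) ^ (l + 2 * m) = 2 ^ m * 2 ^ (l + m) := by
      rw [← pow_add]; congr 1; ring
    rw [h1]
    have h2 : (0 : ℝ) < 2 ^ m := by positivity
    field_simp
  have eQ : (2 : ℝ) ^ (2 * l + m + 3 * u) * 2 ^ (l + 2 * m) = W ^ 3 * U ^ 3 := by
    rw [hW, hU, ← pow_mul, ← pow_mul, ← pow_add, ← pow_add]
    congr 1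
    ring
  have hfin : a * b * K' + (a + b) * K' ^ 2 + 2 * K' ^ 3 ≤ 10 * W ^ 3 * U ^ 2 := by
    rw [eK, ea, eb]
    exact genc_num W U hW0 hU1
  have hcard : ((F.filter (fun p => ¬ Gen3 l m u p.1 p.2)).card : ℝ) ≤ 20 * W ^ 3 * U ^ 2 := by
    linarith
  have hend : 20 * W ^ 3 * U ^ 2 ≤ 64 / U * 2 ^ (2 * l + m + 3 * u) * 2 ^ (l + 2 * m) := by
    rw [mul_assoc (64 / U), eQ]
    exact genc_num2 W U hW0 hU1
  exact hcard.trans hend

end MP_5e4520_nt
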