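import Pool.Agent.Lib.MP_5e4520_nt.DomA

set_option autoImplicit false

namespace MP_5e4520_nt

open Finset

/-- purely numerical part of case 1 -/
private theorem domb_case1 {K K' t y M Q : ℝ} (hK : 0 < K) (hK' : 2 ≤ K') (hy : 0 < y) (ht : 0 < t)
    (hQ : Q ≤ 1 / 8) (hKK : K' / K = Q) (hQy : Q ≤ y) (hty : 2 * y ≤ K' * t)
    (hM1 : 1 ≤ M) (hM2 : 1 / y ≤ M) :
    1 / (K * t ^ 2) ≤ 2048 * M * ((3 / 2) * K' / (1 + 40 * (K' * t) ^ 2)) := by
  have hK0' : 0 < K' := by linarith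
  have hden : 0 < 1 + 40 * (K' * t) ^ 2 := by positivity
  rw [← mul_div_assoc, div_le_div_iff₀ (by positivity) hden, one_mul]
  -- `1 + 40 (K' t)² ≤ 3072 M K K' t²`
  have hQK : K' = Q * K := by rw [← hKK]; field_simp
  have hQ0 : 0 < Q := by rw [← hKK]; positivity
  have h1 : 40 * (K' * t) ^ 2 ≤ 5 * M * (K * K' * t ^ 2) := by
    have e : 40 * (K' * t) ^ 2 = 40 * Q * (K * K' * t ^ 2) := by
      calc 40 * (K' * t) ^ 2 = 40 * K' * (K' * t ^ 2) := by ring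
        _ = 40 * (Q * K) * (K' * t ^ 2) := by rw [← hQK]
        _ = 40 * Q * (K * K' * t ^ 2) := by ring
    rw [e]
    apply mul_le_mul_of_nonneg_right _ (by positivity)
    linarith
  have h2 : 1 ≤ M * (K * K' * t ^ 2) := by
    have h3 : 4 * y ^ 2 ≤ (K' * t) ^ 2 := by nlinarith
    have e : K * K' * t ^ 2 = (K' * t) ^ 2 / Q := by
      rw [eq_div_iff hQ0.ne']
      calc K * K' * t ^ 2 * Q = (Q * K) * K' * t ^ 2 := by ring
        _ = K' * K' * t ^ 2 := by rw [← hQK]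
        _ = (K' * t) ^ 2 := by ring
    have h4 : 4 * y ≤ K * K' * t ^ 2 := by
      rw [e, le_div_iff₀ hQ0]
      nlinarith
    have h5 : 1 ≤ M * y := by
      rw [div_le_iff₀ hy] at hM2; exact hM2
    have h6 : 0 ≤ M := by linarith
    nlinarith [mul_le_mul_of_nonneg_left h4 h6]
  have h7 : 0 ≤ M * (K * K' * t ^ 2) := by positivity
  nlinarith

/-- purely numerical part of case 2 -/
private theorem domb_case2 {K' y M q : ℝ} (hK' : 2 ≤ K') (hy : 0 < y) (hq : q ≤ 1 / 2)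
    (hM1 : 1 ≤ M) (hM2 : 1 / y ≤ M) (hM3 : y ^ 2 ≤ M) :
    6 * K' * (q + (3 / 2) / y) ≤ 2048 * M * ((3 / 2) * K' / (1 + 160 * y ^ 2)) := by
  have hden : 0 < 1 + 160 * y ^ 2 := by positivity
  have hK0 : 0 < K' := by linarith
  have h1 : (q + (3 / 2) / y) * (1 + 160 * y ^ 2) ≤ 512 * M := by
    have h2 : (q + (3 / 2) / y) * (1 + 160 * y ^ 2) ≤ (1 / 2 + (3 / 2) / y) * (1 + 160 * y ^ 2) := by
      apply mul_le_mul_of_nonneg_right _ hden.le
      linarith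
    have h3 : (1 / 2 + (3 / 2) / y) * (1 + 160 * y ^ 2) =
        1 / 2 + 80 * y ^ 2 + (3 / 2) * (1 / y) + 240 * y := by
      field_simp
      ring
    have h4 : y ≤ M := by
      by_cases h5 : y ≤ 1
      · linarith
      · rw [not_le] at h5
        nlinarith
    rw [h3] at h2
    linarith
  have e : 2048 * M * ((3 / 2) * K' / (1 + 160 * y ^ 2)) = 3072 * M * K' / (1 + 160 * y ^ 2) := by
    rw [mul_div_assoc']; ring
  rw [e, le_div_iff₀ hden]
  nlinarith [mul_le_mul_of_nonneg_left h1 hK0.le]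

/-- purely numerical part of case 3 -/
private theorem domb_case3 {K' y M q : ℝ} (hK' : 2 ≤ K') (hyK : K' ≤ y) (hq : q ≤ 1 / 2)
    (hM3 : y ^ 2 ≤ M) :
    6 * y * (q + (3 / 2) / y) ≤ 2048 * M * ((3 / 2) * K' / (1 + 10 * K' ^ 2)) := by
  have hy : 0 < y := by linarith
  have hK0 : 0 < K' := by linarith
  have hden : 0 < 1 + 10 * K' ^ 2 := by positivity
  have h1 : 6 * y * (q + (3 / 2) / y) ≤ 3 * y + 9 := by
    have e : 6 * y * (q + (3 / 2) / y) = 6 * y * q + 9 := by field_simp; ring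
    rw [e]; nlinarith
  refine h1.trans ?_
  have e : 2048 * M * ((3 / 2) * K' / (1 + 10 * K' ^ 2)) = 3072 * M * K' / (1 + 10 * K' ^ 2) := by
    rw [mul_div_assoc']; ring
  rw [e, le_div_iff₀ hden]
  have h2 : (3 * y + 9) * (1 + 10 * K' ^ 2) ≤ (8 * y) * (11 * K' ^ 2) := by
    apply mul_le_mul _ _ hden.le (by positivity)
    · linarith
    · nlinarith
  have h3 : (8 * y) * (11 * K' ^ 2) ≤ 88 * y ^ 2 * K' := by
    have : y * K' ^ 2 ≤ y ^ 2 * K' := by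
      have e1 : y ^ 2 * K' - y * K' ^ 2 = y * K' * (y - K') := by ring
      have e2 : 0 ≤ y * K' * (y - K') := by
        apply mul_nonneg (by positivity); linarith
      linarith
    linarith
  have h4 : 88 * y ^ 2 * K' ≤ 3072 * M * K' := by
    apply mul_le_mul_of_nonneg_right _ hK0.le
    nlinarith
  linarith

/-- Domination of averaged Fejér kernels by the Poisson kernel.  `I = N nd σ`, `y = K' I`.
Case 1: `nd θ ≥ 2I`.  Then `nd (θ + Bσ) ≥ nd θ - B nd σ ≥ nd θ / 2`, so each term is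
`≤ 1/(K nd θ²)`; with `pois_lower` it is enough that
`1/(K K' nd θ²) + 40 K'/K ≤ 3072 max(1/y, y²)`; `K'/K = 2^r/N ≤ 2^{-3r}`, and
`1/(K K' nd θ²) ≤ 2^r/(4 N y²) ≤ 2^{-3r}/(4y²) ≤ 1/(4y)`; `max(1/y,y²) ≥ 1`.
Case 2: `nd θ < 2I`, `I ≤ 1`: by `fej_prog` the average is `≤ 6 (K + 1.5/nd σ)/N = 6K'(2^{-r} + 1.5/y)`
and `pois ≥ (3/2)K'/(1+160y²)`; `4 (2^{-r} + 1.5/y)(1 + 160 y²) ≤ 2048 max(1/y, y²)`.
Case 3: `I > 1`: `I + 2 ≤ 3I`, the average is `≤ 6y(2^{-r} + 1.5/y) ≤ 6 y + 9`, `y ≥ K' ≥ 2`,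
`pois ≥ (3/2)K'/(1+10K'²)` as `nd θ ≤ 1/2`. -/
theorem dom (r N K K' : ℕ) (hr : 1 ≤ r) (hK' : 2 ≤ K') (hN : 2 ^ (4 * r) ≤ N)
    (hKK : K * 2 ^ r = K' * N) (θ σ : ℝ) (hσ : 0 < nd σ)
    (hy : 1 / 2 ^ (3 * r) ≤ K' * (N * nd σ)) :
    (∑ B ∈ range N, fej K (θ + B * σ)) / N ≤
      2048 * max (1 / (K' * (N * nd σ))) ((K' * (N * nd σ)) ^ 2) * pois K' θ := by
  have hN0 : 0 < N := lt_of_lt_of_le (by positivity) hN
  have hNr : (0 : ℝ) < N := by exact_mod_cast hN0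
  have hK'r : (2 : ℝ) ≤ K' := by exact_mod_cast hK'
  have hK'0 : (0 : ℝ) < K' := by linarith
  have hK0 : 0 < K := by
    rcases Nat.eq_zero_or_pos K with h | h
    · rw [h, zero_mul] at hKK
      have : 0 < K' * N := Nat.mul_pos (by omega) hN0
      omega
    · exact h
  have hKr : (0 : ℝ) < K := by exact_mod_cast hK0
  have hKKr : (K : ℝ) * 2 ^ r = K' * N := by exact_mod_cast hKK
  have h2r : (0 : ℝ) < 2 ^ r := by positivity
  have hNN : (2 : ℝ) ^ (4 * r) ≤ N := by exact_mod_cast hN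
  set t : ℝ := nd θ with ht
  have ht0 : 0 ≤ t := nd_nonneg θ
  have hth : t ≤ 1 / 2 := nd_le_half θ
  set I : ℝ := N * nd σ with hI
  have hI0 : 0 < I := by positivity
  set y : ℝ := K' * I with hyd
  have hy0 : 0 < y := by positivity
  set M : ℝ := max (1 / y) (y ^ 2) with hM
  have hM2 : 1 / y ≤ M := le_max_left _ _
  have hM3 : y ^ 2 ≤ M := le_max_right _ _
  have hM1 : 1 ≤ M := by
    by_cases h : y ≤ 1
    · refine le_trans ?_ hM2
      rw [le_div_iff₀ hy0, one_mul]; exact h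
    · rw [not_le] at h
      refine le_trans ?_ hM3
      nlinarith
  have hM0 : 0 ≤ 2048 * M := by linarith
  have hpl := pois_lower K' hK' θ
  rw [← ht] at hpl
  have hstep : ∀ {s : ℝ}, s ≤ 2048 * M * ((3 / 2) * K' / (1 + 40 * (K' * t) ^ 2)) →
      s ≤ 2048 * M * pois K' θ := fun {s} hs =>
    hs.trans (mul_le_mul_of_nonneg_left hpl hM0)
  by_cases hc : 2 * I ≤ t
  · -- case 1
    have ht1 : 0 < t := by linarith
    apply hstep
    have hterm : ∀ B ∈ range N, fej K (θ + B * σ) ≤ 1 / (K * t ^ 2) := by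
      intro B hB
      rw [mem_range] at hB
      have hBN : (B : ℝ) ≤ N := by exact_mod_cast hB.le
      have h1 : nd (B * σ) ≤ B * nd σ := nd_nat_mul_le B σ
      have h2 : (B : ℝ) * nd σ ≤ I := mul_le_mul_of_nonneg_right hBN hσ.le
      have h3 : t ≤ nd (θ + B * σ) + nd (-(B * σ)) := by
        have := nd_add_le (θ + B * σ) (-(B * σ))
        rwa [add_neg_cancel_right] at this
      rw [nd_neg] at h3
      have h4 : t / 2 ≤ nd (θ + B * σ) := by linarith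
      have h5 : 0 < nd (θ + B * σ) := by linarith
      refine (fej_le_inv K _ h5).trans ?_
      apply one_div_le_one_div_of_le (by positivity)
      have h6 : (t / 2) ^ 2 ≤ nd (θ + B * σ) ^ 2 := pow_le_pow_left₀ (by linarith) h4 2
      nlinarith
    have havg : (∑ B ∈ range N, fej K (θ + B * σ)) / N ≤ 1 / (K * t ^ 2) := by
      rw [div_le_iff₀ hNr]
      refine (sum_le_sum hterm).trans ?_
      rw [sum_const, card_range, nsmul_eq_mul, mul_comm]
    refine havg.trans ?_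
    have hQ : (K' : ℝ) / K = 2 ^ r / N := by
      rw [div_eq_div_iff hKr.ne' hNr.ne']
      linarith
    have hQ3 : (2 : ℝ) ^ r / N ≤ 1 / 2 ^ (3 * r) := by
      rw [div_le_div_iff₀ hNr (by positivity), one_mul, ← pow_add]
      have : r + 3 * r = 4 * r := by ring
      rw [this]; exact hNN
    have hQ8 : (1 : ℝ) / 2 ^ (3 * r) ≤ 1 / 8 := by
      apply one_div_le_one_div_of_le (by norm_num)
      calc (8 : ℝ) = 2 ^ 3 := by norm_num
        _ ≤ 2 ^ (3 * r) := pow_le_pow_right₀ (by norm_num) (by omega)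
    refine domb_case1 (Q := 2 ^ r / N) hKr hK'r hy0 ht1 (hQ3.trans hQ8) hQ
      (hQ3.trans hy) ?_ hM1 hM2
    rw [hyd]
    nlinarith
  · rw [not_le] at hc
    have hprog := fej_prog N K hN0 hK0 θ σ hσ
    rw [← hI] at hprog
    have hq : (1 : ℝ) / 2 ^ r ≤ 1 / 2 := by
      apply one_div_le_one_div_of_le (by norm_num)
      calc (2 : ℝ) = 2 ^ 1 := by norm_num
        _ ≤ 2 ^ r := pow_le_pow_right₀ (by norm_num) hr
    have hKN : ((K : ℝ) + (3 / 2) / nd σ) / N = K' * (1 / 2 ^ r + (3 / 2) / y) := by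
      have e1 : (K : ℝ) / N = K' / 2 ^ r := by
        rw [div_eq_div_iff hNr.ne' h2r.ne']; linarith
      have e2 : (3 / 2) / nd σ / N = K' * ((3 / 2) / y) := by
        rw [hyd, hI]
        field_simp
      rw [add_div, e1, e2]
      ring
    have havg : (∑ B ∈ range N, fej K (θ + B * σ)) / N ≤
        (I + 2) * 2 * (K' * (1 / 2 ^ r + (3 / 2) / y)) := by
      rw [← hKN, ← mul_div_assoc]
      exact div_le_div_of_nonneg_right hprog hNr.le
    have hpos : 0 ≤ K' * (1 / 2 ^ r + (3 / 2) / y) := by positivity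
    by_cases hI1 : I ≤ 1
    · -- case 2
      have h1 : (I + 2) * 2 * (K' * (1 / 2 ^ r + (3 / 2) / y)) ≤
          6 * K' * (1 / 2 ^ r + (3 / 2) / y) := by nlinarith
      apply hstep
      refine (havg.trans h1).trans ?_
      refine (domb_case2 hK'r hy0 hq hM1 hM2 hM3).trans ?_
      apply mul_le_mul_of_nonneg_left _ hM0
      apply div_le_div_of_nonneg_left (by positivity) (by positivity)
      have : (K' * t) ^ 2 ≤ 4 * y ^ 2 := by
        rw [hyd]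
        have h3 : K' * t ≤ 2 * (K' * I) := by nlinarith
        have h4 : 0 ≤ K' * t := by positivity
        nlinarith
      linarith
    · rw [not_le] at hI1
      have h1 : (I + 2) * 2 * (K' * (1 / 2 ^ r + (3 / 2) / y)) ≤
          6 * y * (1 / 2 ^ r + (3 / 2) / y) := by
        have e : 6 * y * (1 / 2 ^ r + (3 / 2) / y) = 6 * I * (K' * (1 / 2 ^ r + (3 / 2) / y)) := by
          rw [hyd]; ring
        rw [e]
        apply mul_le_mul_of_nonneg_right _ hpos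
        linarith
      apply hstep
      refine (havg.trans h1).trans ?_
      have hyK : (K' : ℝ) ≤ y := by rw [hyd]; nlinarith
      refine (domb_case3 hK'r hyK hq hM3).trans ?_
      apply mul_le_mul_of_nonneg_left _ hM0
      apply div_le_div_of_nonneg_left (by positivity) (by positivity)
      have : (K' * t) ^ 2 ≤ (K' * (1 / 2)) ^ 2 := by
        apply pow_le_pow_left₀ (by positivity)
        exact mul_le_mul_of_nonneg_left hth hK'0.le
      nlinarith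

/-- The form used: `N = 2^(3u)`, `K' = 2^(l+m-u)`, `σ = h/2^(l+2m+3u)`, `y = L nd σ` with
`L = 2^(l+m+2u)`; `¬ lowh` gives `y ≥ 2^{-3r}`.  `cqua ≤ 2 (|D|²/L²) ctri` (`cqua_le_ctri`) and
`|D|²/L² ≤ min(1, 1/(4y²))` (`dir_le`, `dir_le_inv`), so
`cqua * max(1/y,y²) ≤ 2 * 2^(3r) * ctri`. -/
theorem domc (l m u r : ℕ) (hP : Par l m u r) (h : ℕ) (hlow : ¬ lowh l m u r h)
    (ν : ℕ → ℝ) (hν0 : ∀ B, 0 ≤ ν B) (b1 : ℕ) (hν : ∀ B, ν B ≤ 2 ^ b1 / 2 ^ (3 * u)) (θ : ℝ) :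
    cqua (2 ^ (l + m + 2 * u)) (2 ^ (l + 2 * m + 3 * u)) h *
      ∑ B ∈ range (2 ^ (3 * u)), ν B * fej (2 ^ (l + m + 2 * u - r))
        (θ + B * ((h : ℝ) / 2 ^ (l + 2 * m + 3 * u))) ≤
    2 ^ (b1 + 12 + 3 * r) * ctri (2 ^ (l + m + 2 * u)) (2 ^ (l + 2 * m + 3 * u)) h *
      pois (2 ^ (l + m - u)) θ := by
  obtain ⟨hr1, hru, hul, hum⟩ := hP
  set σ : ℝ := (h : ℝ) / 2 ^ (l + 2 * m + 3 * u) with hσd
  set K : ℕ := 2 ^ (l + m + 2 * u - r) with hKd
  set K' : ℕ := 2 ^ (l + m - u) with hK'd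
  set N : ℕ := 2 ^ (3 * u) with hNd
  set Lf : ℕ := 2 ^ (l + m + 2 * u) with hLd
  set Q2 : ℕ := 2 ^ (l + 2 * m + 3 * u) with hQ2d
  have hLr : (Lf : ℝ) = 2 ^ (l + m + 2 * u) := by rw [hLd]; push_cast; rfl
  have hL0 : (0 : ℝ) < Lf := by rw [hLr]; positivity
  have hLpos : 0 < Lf := by rw [hLd]; positivity
  have hK'2 : 2 ≤ K' := by
    rw [hK'd]
    calc 2 = 2 ^ 1 := by norm_num
      _ ≤ 2 ^ (l + m - u) := Nat.pow_le_pow_right (by norm_num) (by omega)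
  have hN4 : 2 ^ (4 * r) ≤ N := Nat.pow_le_pow_right (by norm_num) (by omega)
  have hKK : K * 2 ^ r = K' * N := by
    rw [hKd, hK'd, hNd, ← pow_add, ← pow_add]
    congr 1
    omega
  have hK'N : (K' : ℝ) * N = Lf := by
    rw [hK'd, hNd, hLd]
    push_cast
    rw [← pow_add]
    congr 1
    omega
  -- `y = L nd σ`
  have hyL : ∀ z : ℝ, (K' : ℝ) * (N * z) = Lf * z := fun z => by rw [← mul_assoc, hK'N]
  have hylow : 1 / 2 ^ (3 * r) ≤ (Lf : ℝ) * nd σ := by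
    unfold lowh at hlow
    rw [not_lt] at hlow
    have e : (2 : ℝ) ^ (l + 2 * m + 3 * u) = 2 ^ (m + u) * Lf := by
      rw [hLr, ← pow_add]; congr 1; omega
    have e2 : nd ((h : ℝ) / 2 ^ (l + 2 * m + 3 * u)) = nd σ := rfl
    rw [e2, e] at hlow
    have hp : (0 : ℝ) < 2 ^ (m + u) := by positivity
    have h3 : (2 : ℝ) ^ (m + u) * (1 / 2 ^ (3 * r)) ≤ 2 ^ (m + u) * (Lf * nd σ) := by
      calc (2 : ℝ) ^ (m + u) * (1 / 2 ^ (3 * r)) = 2 ^ (m + u) / 2 ^ (3 * r) := by ring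
        _ ≤ nd σ * (2 ^ (m + u) * Lf) := hlow
        _ = 2 ^ (m + u) * (Lf * nd σ) := by ring
    exact le_of_mul_le_mul_left h3 hp
  have hnd : 0 < nd σ := by
    have h1 : (0 : ℝ) < 1 / 2 ^ (3 * r) := by positivity
    have h2 : 0 < (Lf : ℝ) * nd σ := lt_of_lt_of_le h1 hylow
    exact (mul_pos_iff_of_pos_left hL0).1 h2
  have hdom := dom r N K K' hr1 hK'2 hN4 hKK θ σ hnd (by rw [hyL]; exact hylow)
  rw [hyL] at hdom
  set y : ℝ := (Lf : ℝ) * nd σ with hyd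
  have hy0 : 0 < y := by positivity
  have hNr : (N : ℝ) = 2 ^ (3 * u) := by rw [hNd]; push_cast; rfl
  have hN0 : (0 : ℝ) < N := by rw [hNr]; positivity
  have hpois0 : 0 ≤ pois K' θ := by
    refine le_trans ?_ (pois_lower K' hK'2 θ)
    positivity
  have hsum : ∑ B ∈ range N, ν B * fej K (θ + B * σ) ≤
      2 ^ b1 * (2048 * max (1 / y) (y ^ 2) * pois K' θ) := by
    have h1 : ∑ B ∈ range N, ν B * fej K (θ + B * σ) ≤
        ∑ B ∈ range N, 2 ^ b1 / 2 ^ (3 * u) * fej K (θ + B * σ) :=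
      sum_le_sum fun B _ => mul_le_mul_of_nonneg_right (hν B) (fej_nonneg _ _)
    rw [← mul_sum] at h1
    refine h1.trans ?_
    have e : (2 : ℝ) ^ b1 / 2 ^ (3 * u) * ∑ B ∈ range N, fej K (θ + B * σ) =
        2 ^ b1 * ((∑ B ∈ range N, fej K (θ + B * σ)) / N) := by
      rw [hNr]; ring
    rw [e]
    exact mul_le_mul_of_nonneg_left hdom (by positivity)
  have hD := cqua_le_ctri Lf Q2 h hLpos
  set D : ℝ := ‖∑ i ∈ range Lf, ee (i * (h / Q2))‖ with hDd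
  have hQ2r : ((h : ℝ) / (Q2 : ℝ)) = σ := by rw [hσd, hQ2d]; push_cast; rfl
  have hD1 : D ≤ Lf := by rw [hDd]; exact dir_le _ _
  have hD2 : D ≤ 1 / (2 * nd σ) := by
    rw [hDd, hQ2r]; exact dir_le_inv _ _ hnd
  have hD0 : 0 ≤ D := norm_nonneg _
  have hkey : D ^ 2 / (Lf : ℝ) ^ 2 * max (1 / y) (y ^ 2) ≤ 2 ^ (3 * r) := by
    have hA : D ^ 2 / (Lf : ℝ) ^ 2 ≤ 1 := by
      rw [div_le_one (by positivity)]
      exact pow_le_pow_left₀ hD0 hD1 2
    have hA0 : 0 ≤ D ^ 2 / (Lf : ℝ) ^ 2 := by positivity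
    have hB : D ^ 2 / (Lf : ℝ) ^ 2 * y ^ 2 ≤ 1 := by
      have e : D ^ 2 / (Lf : ℝ) ^ 2 * y ^ 2 = (D * nd σ) ^ 2 := by
        rw [hyd]; field_simp
      rw [e]
      have h1 : D * nd σ ≤ 1 / 2 := by
        calc D * nd σ ≤ 1 / (2 * nd σ) * nd σ := mul_le_mul_of_nonneg_right hD2 hnd.le
          _ = 1 / 2 := by field_simp
      have h2 : 0 ≤ D * nd σ := by positivity
      nlinarith
    have h23 : (1 : ℝ) ≤ 2 ^ (3 * r) := one_le_pow₀ (by norm_num)
    have hyinv : 1 / y ≤ 2 ^ (3 * r) := by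
      rw [div_le_iff₀ hy0]
      rw [div_le_iff₀ (by positivity)] at hylow
      linarith
    rcases max_cases (1 / y) (y ^ 2) with ⟨h1, -⟩ | ⟨h1, -⟩
    · rw [h1]
      calc D ^ 2 / (Lf : ℝ) ^ 2 * (1 / y) ≤ 1 * 2 ^ (3 * r) :=
            mul_le_mul hA hyinv (by positivity) (by norm_num)
        _ = 2 ^ (3 * r) := one_mul _
    · rw [h1]; exact hB.trans h23
  have hct : 0 ≤ ctri Lf Q2 h := ctri_nonneg _ _ _
  have hcq : 0 ≤ cqua Lf Q2 h := cqua_nonneg _ _ _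
  have hmax0 : 0 ≤ max (1 / y) (y ^ 2) := le_trans (by positivity) (le_max_right _ _)
  calc cqua Lf Q2 h * ∑ B ∈ range N, ν B * fej K (θ + B * σ)
      ≤ cqua Lf Q2 h * (2 ^ b1 * (2048 * max (1 / y) (y ^ 2) * pois K' θ)) :=
        mul_le_mul_of_nonneg_left hsum hcq
    _ ≤ (2 * (D ^ 2 / (Lf : ℝ) ^ 2) * ctri Lf Q2 h) *
          (2 ^ b1 * (2048 * max (1 / y) (y ^ 2) * pois K' θ)) :=
        mul_le_mul_of_nonneg_right hD (by positivity)
    _ = (D ^ 2 / (Lf : ℝ) ^ 2 * max (1 / y) (y ^ 2)) *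
          (2 ^ (b1 + 12) * ctri Lf Q2 h * pois K' θ) := by
        rw [pow_add]; ring
    _ ≤ 2 ^ (3 * r) * (2 ^ (b1 + 12) * ctri Lf Q2 h * pois K' θ) :=
        mul_le_mul_of_nonneg_right hkey (by positivity)
    _ = 2 ^ (b1 + 12 + 3 * r) * ctri Lf Q2 h * pois K' θ := by
        rw [pow_add 2 (b1 + 12) (3 * r)]; ring

end MP_5e4520_nt
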