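import Pool.Agent.Lib.MP_5e4520_nt.EnA

set_option autoImplicit false

namespace MP_5e4520_nt

open Finset

private theorem enb_re (t : ℝ) : (ee t).re = Real.cos (2 * Real.pi * t) := by
  have e : ee t = Complex.exp ((2 * Real.pi * t : ℝ) * Complex.I) := by
    unfold ee; push_cast; rfl
  rw [e, Complex.exp_ofReal_mul_I_re]

/-- Energy inequality: insert `pois_hasSum` (`2 cos(2πdθ) = e(dθ) + e(-dθ)`), `g(d) = gen_en d`:
left side `= g(0) + ∑_{d≥1} ϱ^d (g(d) + g(-d))`, then `gen_en_le`, `gen_en_supp` (`nd` is even). -/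
theorem energy (l m u r α β0 : ℕ) (hP : Par l m u r) (ρ : ℕ → ℕ → ℝ) (hρ0 : ∀ c d, 0 ≤ ρ c d)
    (c1 : ℕ) (hρ : ∀ c d, ρ c d ≤ 1 / 2 ^ c1) :
    ∑ h1 ∈ range (2 ^ (2 * l + m + 3 * u)), ∑ h2 ∈ range (2 ^ (l + 2 * m + 3 * u)),
      ctri (2 ^ (l + m + 2 * u)) (2 ^ (2 * l + m + 3 * u)) h1 *
      ctri (2 ^ (l + m + 2 * u)) (2 ^ (l + 2 * m + 3 * u)) h2 *
      pois (2 ^ (l + m - u))
        ((h1 : ℝ) * α / 2 ^ (2 * l + m + 3 * u) + (h2 : ℝ) * β0 / 2 ^ (l + 2 * m)) *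
      ‖rhat l m u ρ h1 h2‖ ^ 2 ≤
    1 / 2 ^ c1 * (∑ c ∈ range (2 ^ u), ∑ d ∈ range (2 ^ u), ρ c d) * (1 + 2 * ret l m u α β0) := by
  obtain ⟨hr1, hru, hul, hum⟩ := hP
  set T : ℝ := 1 / 2 ^ c1 * (∑ c ∈ range (2 ^ u), ∑ d ∈ range (2 ^ u), ρ c d) with hT
  have hT0 : 0 ≤ T := by
    rw [hT]
    exact mul_nonneg (by positivity) (sum_nonneg fun c _ => sum_nonneg fun d _ => hρ0 c d)
  let w : ℕ → ℕ → ℝ := fun h1 h2 => ctri (2 ^ (l + m + 2 * u)) (2 ^ (2 * l + m + 3 * u)) h1 *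
    ctri (2 ^ (l + m + 2 * u)) (2 ^ (l + 2 * m + 3 * u)) h2 * ‖rhat l m u ρ h1 h2‖ ^ 2
  let θ : ℕ → ℕ → ℝ := fun h1 h2 =>
    (h1 : ℝ) * α / 2 ^ (2 * l + m + 3 * u) + (h2 : ℝ) * β0 / 2 ^ (l + 2 * m)
  have hre : ∀ d : ℤ, (gen_en l m u α β0 ρ d).re =
      ∑ h1 ∈ range (2 ^ (2 * l + m + 3 * u)), ∑ h2 ∈ range (2 ^ (l + 2 * m + 3 * u)),
        w h1 h2 * Real.cos (2 * Real.pi * (d * θ h1 h2)) := by
    intro d
    unfold gen_en
    rw [Complex.re_sum]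
    refine sum_congr rfl fun h1 _ => ?_
    rw [Complex.re_sum]
    refine sum_congr rfl fun h2 _ => ?_
    rw [Complex.re_ofReal_mul, enb_re]
  have hK'2 : 2 ≤ 2 ^ (l + m - u) := by
    calc 2 = 2 ^ 1 := by norm_num
      _ ≤ 2 ^ (l + m - u) := Nat.pow_le_pow_right (by norm_num) (by omega)
  set ϱ : ℝ := 1 - 1 / (2 : ℝ) ^ (l + m - u) with hϱ
  have hK'r : (2 : ℝ) ≤ 2 ^ (l + m - u) := by exact_mod_cast hK'2
  have hϱ0 : 0 ≤ ϱ := by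
    have : 1 / (2 : ℝ) ^ (l + m - u) ≤ 1 / 2 := one_div_le_one_div_of_le (by norm_num) hK'r
    rw [hϱ]; linarith
  have hϱ1 : ϱ < 1 := by
    have : 0 < 1 / (2 : ℝ) ^ (l + m - u) := by positivity
    rw [hϱ]; linarith
  have hsum : HasSum (fun d : ℕ => ϱ ^ (d + 1) * (2 * (gen_en l m u α β0 ρ ((d + 1 : ℕ) : ℤ)).re))
      (∑ h1 ∈ range (2 ^ (2 * l + m + 3 * u)), ∑ h2 ∈ range (2 ^ (l + 2 * m + 3 * u)),
        w h1 h2 * (pois (2 ^ (l + m - u)) (θ h1 h2) - 1)) := by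
    have h1 : HasSum (fun d : ℕ => ∑ h1 ∈ range (2 ^ (2 * l + m + 3 * u)),
        ∑ h2 ∈ range (2 ^ (l + 2 * m + 3 * u)),
        w h1 h2 * (ϱ ^ (d + 1) * (2 * Real.cos (2 * Real.pi * ((d + 1 : ℕ) * θ h1 h2)))))
      (∑ h1 ∈ range (2 ^ (2 * l + m + 3 * u)), ∑ h2 ∈ range (2 ^ (l + 2 * m + 3 * u)),
        w h1 h2 * (pois (2 ^ (l + m - u)) (θ h1 h2) - 1)) := by
      refine hasSum_sum fun h1 _ => hasSum_sum fun h2 _ => ?_
      have h3 := (pois_hasSum (2 ^ (l + m - u)) hK'2 (θ h1 h2)).mul_left (w h1 h2)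
      have h4 : ((2 ^ (l + m - u) : ℕ) : ℝ) = 2 ^ (l + m - u) := by push_cast; rfl
      rw [h4] at h3
      exact h3
    refine (funext fun d => ?_ : (fun d : ℕ => ϱ ^ (d + 1) *
      (2 * (gen_en l m u α β0 ρ ((d + 1 : ℕ) : ℤ)).re)) = _) ▸ h1
    rw [hre, mul_sum, mul_sum]
    refine sum_congr rfl fun h1 _ => ?_
    rw [mul_sum, mul_sum]
    refine sum_congr rfl fun h2 _ => ?_
    push_cast
    ring
  -- the indicator
  let ind : ℕ → ℝ := fun d =>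
    haveI := Classical.dec (nd (((d + 1 : ℕ) : ℝ) * α / 2 ^ (2 * l + m + 3 * u)) < 1 / 2 ^ l ∧
        nd (((d + 1 : ℕ) : ℝ) * β0 / 2 ^ (l + 2 * m)) < 1 / 2 ^ m)
    if nd (((d + 1 : ℕ) : ℝ) * α / 2 ^ (2 * l + m + 3 * u)) < 1 / 2 ^ l ∧
        nd (((d + 1 : ℕ) : ℝ) * β0 / 2 ^ (l + 2 * m)) < 1 / 2 ^ m then (1 : ℝ) else 0
  have hind0 : ∀ d, 0 ≤ ind d := by
    intro d; simp only [ind]; split_ifs <;> norm_num
  have hind1 : ∀ d, ind d ≤ 1 := by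
    intro d; simp only [ind]; split_ifs <;> norm_num
  have hgeo : Summable fun d : ℕ => ϱ ^ (d + 1) := by
    have := (summable_geometric_of_lt_one hϱ0 hϱ1).mul_left ϱ
    simpa only [pow_succ'] using this
  have hretS : Summable fun d : ℕ => ϱ ^ (d + 1) * ind d := by
    refine Summable.of_nonneg_of_le (fun d => mul_nonneg (by positivity) (hind0 d)) (fun d => ?_) hgeo
    exact mul_le_of_le_one_right (by positivity) (hind1 d)
  have hretE : ret l m u α β0 = ∑' d : ℕ, ϱ ^ (d + 1) * ind d := by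
    unfold ret
    refine tsum_congr fun d => ?_
    simp only [ind]
    congr
  have hret : HasSum (fun d : ℕ => ϱ ^ (d + 1) * ind d) (ret l m u α β0) := by
    rw [hretE]; exact hretS.hasSum
  have hret2 := hret.mul_left (2 * T)
  have hle : ∀ d : ℕ, ϱ ^ (d + 1) * (2 * (gen_en l m u α β0 ρ ((d + 1 : ℕ) : ℤ)).re) ≤
      2 * T * (ϱ ^ (d + 1) * ind d) := by
    intro d
    have hb : (gen_en l m u α β0 ρ ((d + 1 : ℕ) : ℤ)).re ≤ T * ind d := by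
      simp only [ind]
      split_ifs with hc
      · rw [mul_one]
        exact (gen_en_le l m u α β0 ρ hρ0 c1 hρ _).2.2
      · rw [mul_zero]
        by_cases h0 : gen_en l m u α β0 ρ ((d + 1 : ℕ) : ℤ) = 0
        · rw [h0, Complex.zero_re]
        · have hs := gen_en_supp l m u α β0 ρ ((d + 1 : ℕ) : ℤ) h0
          rw [Int.cast_natCast] at hs
          exact absurd hs hc
    have hp : 0 ≤ ϱ ^ (d + 1) := by positivity
    nlinarith [mul_le_mul_of_nonneg_left hb hp]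
  have hfin := hasSum_le hle hsum hret2
  have h0 : ∑ h1 ∈ range (2 ^ (2 * l + m + 3 * u)), ∑ h2 ∈ range (2 ^ (l + 2 * m + 3 * u)),
      w h1 h2 ≤ T := by
    have h1 := (gen_en_le l m u α β0 ρ hρ0 c1 hρ 0).2.2
    rw [hre, ← hT] at h1
    simpa only [Int.cast_zero, zero_mul, mul_zero, Real.cos_zero, mul_one] using h1
  have hsplit : ∑ h1 ∈ range (2 ^ (2 * l + m + 3 * u)), ∑ h2 ∈ range (2 ^ (l + 2 * m + 3 * u)),
      ctri (2 ^ (l + m + 2 * u)) (2 ^ (2 * l + m + 3 * u)) h1 *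
      ctri (2 ^ (l + m + 2 * u)) (2 ^ (l + 2 * m + 3 * u)) h2 *
      pois (2 ^ (l + m - u))
        ((h1 : ℝ) * α / 2 ^ (2 * l + m + 3 * u) + (h2 : ℝ) * β0 / 2 ^ (l + 2 * m)) *
      ‖rhat l m u ρ h1 h2‖ ^ 2 =
      ∑ h1 ∈ range (2 ^ (2 * l + m + 3 * u)), ∑ h2 ∈ range (2 ^ (l + 2 * m + 3 * u)),
        w h1 h2 * (pois (2 ^ (l + m - u)) (θ h1 h2) - 1) +
      ∑ h1 ∈ range (2 ^ (2 * l + m + 3 * u)), ∑ h2 ∈ range (2 ^ (l + 2 * m + 3 * u)),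
        w h1 h2 := by
    rw [← sum_add_distrib]
    refine sum_congr rfl fun h1 _ => ?_
    rw [← sum_add_distrib]
    refine sum_congr rfl fun h2 _ => ?_
    simp only [w, θ]
    ring
  rw [hsplit]
  linarith

end MP_5e4520_nt
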