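import Pool.Agent.Lib.MP_5e4520_nt.Defs

set_option autoImplicit false

namespace MP_5e4520_nt

open Finset

open Classical in
/-- the high frequency error term -/
noncomputable def HI (l m u r α β0 : ℕ) (ν : ℕ → ℝ) (ρ : ℕ → ℕ → ℝ) : ℝ :=
  ∑ h1 ∈ range (2 ^ (2 * l + m + 3 * u)), ∑ h2 ∈ range (2 ^ (l + 2 * m + 3 * u)),
    if (h1 ≠ 0 ∨ h2 ≠ 0) ∧ ¬ lowh l m u r h2 then
      ctri (2 ^ (l + m + 2 * u)) (2 ^ (2 * l + m + 3 * u)) h1 *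
      cqua (2 ^ (l + m + 2 * u)) (2 ^ (l + 2 * m + 3 * u)) h2 * ‖rhat l m u ρ h1 h2‖ *
      ∑ B ∈ range (2 ^ (3 * u)), ν B * fej (2 ^ (l + m + 2 * u - r))
        ((h1 : ℝ) * α / 2 ^ (2 * l + m + 3 * u) + (h2 : ℝ) * β0 / 2 ^ (l + 2 * m) +
          B * ((h2 : ℝ) / 2 ^ (l + 2 * m + 3 * u)))
    else 0

end MP_5e4520_nt
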