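import Pool.Agent.Lib.MP_5e4520_nt.FT
import Pool.Agent.Lib.MP_5e4520_nt.DomB
import Pool.Agent.Lib.MP_5e4520_nt.EnB
import Pool.Agent.Lib.MP_5e4520_nt.LHDef

set_option autoImplicit false

namespace MP_5e4520_nt

open Finset

theorem lhb_pois_nonneg (K' : ℕ) (hK' : 0 < K') (θ : ℝ) : 0 ≤ pois K' θ := by
  unfold pois
  have h1 : (1 : ℝ) ≤ K' := by exact_mod_cast hK'
  have h2 : 1 / (K' : ℝ) ≤ 1 := by
    rw [div_le_one (by positivity)]; exact h1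
  have h3 : 0 ≤ 1 / (K' : ℝ) := by positivity
  set ϱ : ℝ := 1 - 1 / (K' : ℝ) with hϱ
  have h4 : 0 ≤ ϱ := by linarith
  have h5 : ϱ ≤ 1 := by linarith
  have h6 := Real.cos_le_one (2 * Real.pi * θ)
  apply div_nonneg
  · nlinarith
  · nlinarith [mul_nonneg h4 (sub_nonneg.2 h6), sq_nonneg (1 - ϱ)]

/-- the averaged Fejér kernel -/
noncomputable def lhb_V (l m u r α β0 : ℕ) (ν : ℕ → ℝ) (h1 h2 : ℕ) : ℝ :=
  ∑ B ∈ range (2 ^ (3 * u)), ν B * fej (2 ^ (l + m + 2 * u - r))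
        ((h1 : ℝ) * α / 2 ^ (2 * l + m + 3 * u) + (h2 : ℝ) * β0 / 2 ^ (l + 2 * m) +
          B * ((h2 : ℝ) / 2 ^ (l + 2 * m + 3 * u)))

theorem lhb_V_nonneg (l m u r α β0 : ℕ) (ν : ℕ → ℝ) (hν0 : ∀ B, 0 ≤ ν B) (h1 h2 : ℕ) :
    0 ≤ lhb_V l m u r α β0 ν h1 h2 :=
  Finset.sum_nonneg fun B _ => mul_nonneg (hν0 B) (fej_nonneg _ _)

/-- the second factor -/
theorem lhb_second (l m u r α β0 : ℕ) (hP : Par l m u r) (ν : ℕ → ℝ)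
    (hν0 : ∀ B, 0 ≤ ν B)
    (hgen : ∀ B < 2 ^ (3 * u), ν B ≠ 0 → Gen12 l m u r α (β0 * 2 ^ (3 * u) + B)) :
    ∑ h1 ∈ range (2 ^ (2 * l + m + 3 * u)), ∑ h2 ∈ range (2 ^ (l + 2 * m + 3 * u)),
      ctri (2 ^ (l + m + 2 * u)) (2 ^ (2 * l + m + 3 * u)) h1 *
      cqua (2 ^ (l + m + 2 * u)) (2 ^ (l + 2 * m + 3 * u)) h2 * lhb_V l m u r α β0 ν h1 h2 ≤
      ∑ B ∈ range (2 ^ (3 * u)), ν B := by
  have e1 : ∀ h1 h2 : ℕ, ctri (2 ^ (l + m + 2 * u)) (2 ^ (2 * l + m + 3 * u)) h1 *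
      cqua (2 ^ (l + m + 2 * u)) (2 ^ (l + 2 * m + 3 * u)) h2 * lhb_V l m u r α β0 ν h1 h2 =
      ∑ B ∈ range (2 ^ (3 * u)), ν B * (ctri (2 ^ (l + m + 2 * u)) (2 ^ (2 * l + m + 3 * u)) h1 *
      cqua (2 ^ (l + m + 2 * u)) (2 ^ (l + 2 * m + 3 * u)) h2 * fej (2 ^ (l + m + 2 * u - r))
        ((h1 : ℝ) * α / 2 ^ (2 * l + m + 3 * u) + (h2 : ℝ) * ((β0 * 2 ^ (3 * u) + B : ℕ) : ℝ) /
          2 ^ (l + 2 * m + 3 * u))) := by
    intro h1 h2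
    unfold lhb_V
    rw [Finset.mul_sum]
    refine Finset.sum_congr rfl fun B _ => ?_
    have e2 : (h1 : ℝ) * α / 2 ^ (2 * l + m + 3 * u) + (h2 : ℝ) * β0 / 2 ^ (l + 2 * m) +
          B * ((h2 : ℝ) / 2 ^ (l + 2 * m + 3 * u)) =
        (h1 : ℝ) * α / 2 ^ (2 * l + m + 3 * u) + (h2 : ℝ) * ((β0 * 2 ^ (3 * u) + B : ℕ) : ℝ) /
          2 ^ (l + 2 * m + 3 * u) := by
      have h : (2 : ℝ) ^ (l + 2 * m + 3 * u) = 2 ^ (l + 2 * m) * 2 ^ (3 * u) := by rw [← pow_add]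
      push_cast
      rw [h]
      have h1 : (2 : ℝ) ^ (l + 2 * m) ≠ 0 := by positivity
      have h2 : (2 : ℝ) ^ (3 * u) ≠ 0 := by positivity
      field_simp
      ring
    rw [e2]
    ring
  have e3 : ∑ h1 ∈ range (2 ^ (2 * l + m + 3 * u)), ∑ h2 ∈ range (2 ^ (l + 2 * m + 3 * u)),
      ctri (2 ^ (l + m + 2 * u)) (2 ^ (2 * l + m + 3 * u)) h1 *
      cqua (2 ^ (l + m + 2 * u)) (2 ^ (l + 2 * m + 3 * u)) h2 * lhb_V l m u r α β0 ν h1 h2 =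
      ∑ B ∈ range (2 ^ (3 * u)), ν B * ∑ h1 ∈ range (2 ^ (2 * l + m + 3 * u)),
        ∑ h2 ∈ range (2 ^ (l + 2 * m + 3 * u)),
        (ctri (2 ^ (l + m + 2 * u)) (2 ^ (2 * l + m + 3 * u)) h1 *
      cqua (2 ^ (l + m + 2 * u)) (2 ^ (l + 2 * m + 3 * u)) h2 * fej (2 ^ (l + m + 2 * u - r))
        ((h1 : ℝ) * α / 2 ^ (2 * l + m + 3 * u) + (h2 : ℝ) * ((β0 * 2 ^ (3 * u) + B : ℕ) : ℝ) /
          2 ^ (l + 2 * m + 3 * u))) := by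
    calc _ = ∑ h1 ∈ range (2 ^ (2 * l + m + 3 * u)), ∑ h2 ∈ range (2 ^ (l + 2 * m + 3 * u)),
        ∑ B ∈ range (2 ^ (3 * u)), ν B * (ctri (2 ^ (l + m + 2 * u)) (2 ^ (2 * l + m + 3 * u)) h1 *
      cqua (2 ^ (l + m + 2 * u)) (2 ^ (l + 2 * m + 3 * u)) h2 * fej (2 ^ (l + m + 2 * u - r))
        ((h1 : ℝ) * α / 2 ^ (2 * l + m + 3 * u) + (h2 : ℝ) * ((β0 * 2 ^ (3 * u) + B : ℕ) : ℝ) /
          2 ^ (l + 2 * m + 3 * u))) :=
          Finset.sum_congr rfl fun h1 _ => Finset.sum_congr rfl fun h2 _ => e1 h1 h2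
      _ = _ := by
        have e4 : ∀ h1 : ℕ, ∑ h2 ∈ range (2 ^ (l + 2 * m + 3 * u)),
          ∑ B ∈ range (2 ^ (3 * u)), ν B * (ctri (2 ^ (l + m + 2 * u)) (2 ^ (2 * l + m + 3 * u)) h1 *
          cqua (2 ^ (l + m + 2 * u)) (2 ^ (l + 2 * m + 3 * u)) h2 * fej (2 ^ (l + m + 2 * u - r))
          ((h1 : ℝ) * α / 2 ^ (2 * l + m + 3 * u) + (h2 : ℝ) * ((β0 * 2 ^ (3 * u) + B : ℕ) : ℝ) /
          2 ^ (l + 2 * m + 3 * u))) = ∑ B ∈ range (2 ^ (3 * u)), ν B *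
          ∑ h2 ∈ range (2 ^ (l + 2 * m + 3 * u)),
          (ctri (2 ^ (l + m + 2 * u)) (2 ^ (2 * l + m + 3 * u)) h1 *
          cqua (2 ^ (l + m + 2 * u)) (2 ^ (l + 2 * m + 3 * u)) h2 * fej (2 ^ (l + m + 2 * u - r))
          ((h1 : ℝ) * α / 2 ^ (2 * l + m + 3 * u) + (h2 : ℝ) * ((β0 * 2 ^ (3 * u) + B : ℕ) : ℝ) /
          2 ^ (l + 2 * m + 3 * u))) := by
          intro h1
          rw [Finset.sum_comm]
          refine Finset.sum_congr rfl fun B _ => ?_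
          rw [Finset.mul_sum]
        rw [Finset.sum_congr rfl fun h1 _ => e4 h1, Finset.sum_comm]
        refine Finset.sum_congr rfl fun B _ => ?_
        rw [Finset.mul_sum]
  rw [e3]
  refine Finset.sum_le_sum fun B hB => ?_
  by_cases h : ν B = 0
  · rw [h, zero_mul]
  · have := tot_le l m u r α (β0 * 2 ^ (3 * u) + B) hP (hgen B (Finset.mem_range.1 hB) h).1
    calc _ ≤ ν B * 1 := mul_le_mul_of_nonneg_left this (hν0 B)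
      _ = ν B := mul_one _

/-- `HI ≤ (∑_{high} c1c2|ρ̂|² ∑_B ν fej)^{1/2} (∑_B ν ∑_h c1c2 fej)^{1/2}` (Cauchy-Schwarz).  Second
factor: `tot_le` gives `≤ N`.  First factor: `domc` (with `θ = θ_h`) and `energy`:
`≤ 2^(b1+12+3r) * 2^{-c1} R (1 + 2 ret) ≤ 2^(b1+13+3r) 2^{-c1} R`. -/
theorem HI_le (l m u r α β0 : ℕ) (hP : Par l m u r) (ν : ℕ → ℝ) (ρ : ℕ → ℕ → ℝ)
    (hν0 : ∀ B, 0 ≤ ν B) (hρ0 : ∀ c d, 0 ≤ ρ c d) (b1 c1 : ℕ)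
    (hν : ∀ B, ν B ≤ 2 ^ b1 / 2 ^ (3 * u)) (hρ : ∀ c d, ρ c d ≤ 1 / 2 ^ c1)
    (hgen : ∀ B < 2 ^ (3 * u), ν B ≠ 0 → Gen12 l m u r α (β0 * 2 ^ (3 * u) + B))
    (hG3 : Gen3 l m u α β0) :
    HI l m u r α β0 ν ρ ^ 2 ≤ 2 ^ (b1 + 13 + 3 * r) / 2 ^ c1 *
      (∑ B ∈ range (2 ^ (3 * u)), ν B) * (∑ c ∈ range (2 ^ u), ∑ d ∈ range (2 ^ u), ρ c d) := by
  classical
  set R : ℝ := ∑ c ∈ range (2 ^ u), ∑ d ∈ range (2 ^ u), ρ c d with hR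
  have hR0 : 0 ≤ R := Finset.sum_nonneg fun c _ => Finset.sum_nonneg fun d _ => hρ0 c d
  set V := lhb_V l m u r α β0 ν with hV
  have hV0 : ∀ h1 h2, 0 ≤ V h1 h2 := fun h1 h2 => lhb_V_nonneg l m u r α β0 ν hν0 h1 h2
  set w : ℕ → ℕ → ℝ := fun h1 h2 => ctri (2 ^ (l + m + 2 * u)) (2 ^ (2 * l + m + 3 * u)) h1 *
      cqua (2 ^ (l + m + 2 * u)) (2 ^ (l + 2 * m + 3 * u)) h2 with hw
  have hw0 : ∀ h1 h2, 0 ≤ w h1 h2 := fun h1 h2 => mul_nonneg (ctri_nonneg _ _ _) (cqua_nonneg _ _ _)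
  set hi : ℕ → ℕ → Prop := fun h1 h2 => (h1 ≠ 0 ∨ h2 ≠ 0) ∧ ¬ lowh l m u r h2 with hhi
  set P := (range (2 ^ (2 * l + m + 3 * u)) ×ˢ range (2 ^ (l + 2 * m + 3 * u))) with hPdef
  have hHI : HI l m u r α β0 ν ρ = ∑ x ∈ P, if hi x.1 x.2 then
      w x.1 x.2 * ‖rhat l m u ρ x.1 x.2‖ * V x.1 x.2 else 0 := by
    unfold HI
    rw [hPdef, Finset.sum_product]
    rfl
  have hCS : HI l m u r α β0 ν ρ ^ 2 ≤
      (∑ x ∈ P, if hi x.1 x.2 then w x.1 x.2 * ‖rhat l m u ρ x.1 x.2‖ ^ 2 * V x.1 x.2 else 0) *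
      (∑ x ∈ P, if hi x.1 x.2 then w x.1 x.2 * V x.1 x.2 else 0) := by
    rw [hHI]
    refine Finset.sum_sq_le_sum_mul_sum_of_sq_le_mul P ?_ ?_ ?_
    · intro x _
      split_ifs
      · exact mul_nonneg (mul_nonneg (hw0 _ _) (by positivity)) (hV0 _ _)
      · exact le_rfl
    · intro x _
      split_ifs
      · exact mul_nonneg (hw0 _ _) (hV0 _ _)
      · exact le_rfl
    · intro x _
      refine le_of_eq ?_
      split_ifs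
      · ring
      · ring
  -- second factor
  have h2 : (∑ x ∈ P, if hi x.1 x.2 then w x.1 x.2 * V x.1 x.2 else 0) ≤
      ∑ B ∈ range (2 ^ (3 * u)), ν B := by
    calc (∑ x ∈ P, if hi x.1 x.2 then w x.1 x.2 * V x.1 x.2 else 0)
        ≤ ∑ x ∈ P, w x.1 x.2 * V x.1 x.2 := by
          refine Finset.sum_le_sum fun x _ => ?_
          split_ifs
          · exact le_rfl
          · exact mul_nonneg (hw0 _ _) (hV0 _ _)
      _ = ∑ h1 ∈ range (2 ^ (2 * l + m + 3 * u)), ∑ h2 ∈ range (2 ^ (l + 2 * m + 3 * u)),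
          w h1 h2 * V h1 h2 := by
          rw [hPdef, Finset.sum_product]
      _ ≤ _ := lhb_second l m u r α β0 hP ν hν0 hgen
  -- first factor
  have hen := energy l m u r α β0 hP ρ hρ0 c1 hρ
  have h1 : (∑ x ∈ P, if hi x.1 x.2 then
      w x.1 x.2 * ‖rhat l m u ρ x.1 x.2‖ ^ 2 * V x.1 x.2 else 0) ≤
      2 ^ (b1 + 12 + 3 * r) * (1 / 2 ^ c1 * R * (1 + 2 * ret l m u α β0)) := by
    calc (∑ x ∈ P, if hi x.1 x.2 then w x.1 x.2 * ‖rhat l m u ρ x.1 x.2‖ ^ 2 * V x.1 x.2 else 0)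
        ≤ ∑ x ∈ P, 2 ^ (b1 + 12 + 3 * r) *
          (ctri (2 ^ (l + m + 2 * u)) (2 ^ (2 * l + m + 3 * u)) x.1 *
          ctri (2 ^ (l + m + 2 * u)) (2 ^ (l + 2 * m + 3 * u)) x.2 *
          pois (2 ^ (l + m - u))
          ((x.1 : ℝ) * α / 2 ^ (2 * l + m + 3 * u) + (x.2 : ℝ) * β0 / 2 ^ (l + 2 * m)) *
          ‖rhat l m u ρ x.1 x.2‖ ^ 2) := by
          refine Finset.sum_le_sum fun x _ => ?_
          split_ifs with hx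
          · have hd := domc l m u r hP x.2 hx.2 ν hν0 b1 hν
              ((x.1 : ℝ) * α / 2 ^ (2 * l + m + 3 * u) + (x.2 : ℝ) * β0 / 2 ^ (l + 2 * m))
            have hc : 0 ≤ ctri (2 ^ (l + m + 2 * u)) (2 ^ (2 * l + m + 3 * u)) x.1 *
              ‖rhat l m u ρ x.1 x.2‖ ^ 2 := mul_nonneg (ctri_nonneg _ _ _) (by positivity)
            have hm := mul_le_mul_of_nonneg_left hd hc
            calc w x.1 x.2 * ‖rhat l m u ρ x.1 x.2‖ ^ 2 * V x.1 x.2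
                = ctri (2 ^ (l + m + 2 * u)) (2 ^ (2 * l + m + 3 * u)) x.1 *
                  ‖rhat l m u ρ x.1 x.2‖ ^ 2 *
                  (cqua (2 ^ (l + m + 2 * u)) (2 ^ (l + 2 * m + 3 * u)) x.2 * V x.1 x.2) := by
                  simp only [hw]; ring
              _ ≤ _ := hm
              _ = _ := by ring
          · have hp := lhb_pois_nonneg (2 ^ (l + m - u)) (by positivity)
              ((x.1 : ℝ) * α / 2 ^ (2 * l + m + 3 * u) + (x.2 : ℝ) * β0 / 2 ^ (l + 2 * m))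
            have hc1 := ctri_nonneg (2 ^ (l + m + 2 * u)) (2 ^ (2 * l + m + 3 * u)) x.1
            have hc2 := ctri_nonneg (2 ^ (l + m + 2 * u)) (2 ^ (l + 2 * m + 3 * u)) x.2
            positivity
      _ = 2 ^ (b1 + 12 + 3 * r) *
          ∑ h1 ∈ range (2 ^ (2 * l + m + 3 * u)), ∑ h2 ∈ range (2 ^ (l + 2 * m + 3 * u)),
          (ctri (2 ^ (l + m + 2 * u)) (2 ^ (2 * l + m + 3 * u)) h1 *
          ctri (2 ^ (l + m + 2 * u)) (2 ^ (l + 2 * m + 3 * u)) h2 *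
          pois (2 ^ (l + m - u))
          ((h1 : ℝ) * α / 2 ^ (2 * l + m + 3 * u) + (h2 : ℝ) * β0 / 2 ^ (l + 2 * m)) *
          ‖rhat l m u ρ h1 h2‖ ^ 2) := by
          rw [← Finset.mul_sum, hPdef, Finset.sum_product]
      _ ≤ _ := mul_le_mul_of_nonneg_left hen (by positivity)
  have h3 : 1 + 2 * ret l m u α β0 ≤ 2 := by
    have : ret l m u α β0 ≤ 1 / 2 := hG3
    linarith
  have hc : (0 : ℝ) ≤ 1 / 2 ^ c1 * R := by positivity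
  have h4 : (∑ x ∈ P, if hi x.1 x.2 then
      w x.1 x.2 * ‖rhat l m u ρ x.1 x.2‖ ^ 2 * V x.1 x.2 else 0) ≤
      2 ^ (b1 + 13 + 3 * r) / 2 ^ c1 * R := by
    refine h1.trans ?_
    have h5 := mul_le_mul_of_nonneg_left h3 hc
    have h6 : (2 : ℝ) ^ (b1 + 13 + 3 * r) / 2 ^ c1 * R =
        2 ^ (b1 + 12 + 3 * r) * (1 / 2 ^ c1 * R * 2) := by
      have : (2 : ℝ) ^ (b1 + 13 + 3 * r) = 2 ^ (b1 + 12 + 3 * r) * 2 := by
        rw [← pow_succ]; congr 1; omega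
      rw [this]; ring
    rw [h6]
    exact mul_le_mul_of_nonneg_left h5 (by positivity)
  have hN0 : 0 ≤ ∑ B ∈ range (2 ^ (3 * u)), ν B := Finset.sum_nonneg fun B _ => hν0 B
  have hs0 : 0 ≤ (∑ x ∈ P, if hi x.1 x.2 then w x.1 x.2 * V x.1 x.2 else 0) := by
    refine Finset.sum_nonneg fun x _ => ?_
    split_ifs
    · exact mul_nonneg (hw0 _ _) (hV0 _ _)
    · exact le_rfl
  calc HI l m u r α β0 ν ρ ^ 2 ≤ _ := hCS
    _ ≤ (2 ^ (b1 + 13 + 3 * r) / 2 ^ c1 * R) * (∑ B ∈ range (2 ^ (3 * u)), ν B) :=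
        mul_le_mul h4 h2 hs0 (by positivity)
    _ = _ := by ring

end MP_5e4520_nt
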