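import Pool.Agent.Lib.MP_5e4520_nt.LHA
import Pool.Agent.Lib.MP_5e4520_nt.LHB

set_option autoImplicit false

namespace MP_5e4520_nt

open Finset

open Classical in
/-- Product laws of enough entropy see hits. -/
theorem LemH (l m u r α β0 γ0 δ0 : ℕ) (hP : Par l m u r) (ν : ℕ → ℝ) (ρ : ℕ → ℕ → ℝ)
    (hν0 : ∀ B, 0 ≤ ν B) (hρ0 : ∀ c d, 0 ≤ ρ c d) (b1 c1 : ℕ) (hbc : b1 + 6 * r + 17 ≤ c1)
    (hν : ∀ B, ν B ≤ 2 ^ b1 / 2 ^ (3 * u)) (hρ : ∀ c d, ρ c d ≤ 1 / 2 ^ c1)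
    (hgen : ∀ B < 2 ^ (3 * u), ν B ≠ 0 → Gen12 l m u r α (β0 * 2 ^ (3 * u) + B))
    (hG3 : Gen3 l m u α β0)
    (hNR : 1 / 2 ^ r ≤ (∑ B ∈ range (2 ^ (3 * u)), ν B) *
      (∑ c ∈ range (2 ^ u), ∑ d ∈ range (2 ^ u), ρ c d)) :
    1 / 2 * (1 / 2 ^ r) * ((∑ B ∈ range (2 ^ (3 * u)), ν B) *
      (∑ c ∈ range (2 ^ u), ∑ d ∈ range (2 ^ u), ρ c d)) ≤
    ∑ B ∈ range (2 ^ (3 * u)), ∑ c ∈ range (2 ^ u), ∑ d ∈ range (2 ^ u),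
      ν B * ρ c d * (if Hit l m u r α (β0 * 2 ^ (3 * u) + B) (γ0 * 2 ^ u + c) (δ0 * 2 ^ u + d)
        then 1 else 0) := by
  have hmain := LH_main l m u r α β0 γ0 δ0 hP ν ρ hν0 hρ0 hgen
  have hHI := HI_le l m u r α β0 hP ν ρ hν0 hρ0 b1 c1 hν hρ hgen hG3
  set N := ∑ B ∈ range (2 ^ (3 * u)), ν B with hN
  set R := ∑ c ∈ range (2 ^ u), ∑ d ∈ range (2 ^ u), ρ c d with hR
  have hFF : ∑ B ∈ range (2 ^ (3 * u)), ∑ c ∈ range (2 ^ u), ∑ d ∈ range (2 ^ u),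
        ν B * ρ c d * FF l m u r α (β0 * 2 ^ (3 * u) + B) (γ0 * 2 ^ u + c) (δ0 * 2 ^ u + d) ≤
      ∑ B ∈ range (2 ^ (3 * u)), ∑ c ∈ range (2 ^ u), ∑ d ∈ range (2 ^ u),
      ν B * ρ c d * (if Hit l m u r α (β0 * 2 ^ (3 * u) + B) (γ0 * 2 ^ u + c) (δ0 * 2 ^ u + d)
        then 1 else 0) := by
    refine Finset.sum_le_sum fun B hB => Finset.sum_le_sum fun c _ => Finset.sum_le_sum fun d _ => ?_
    by_cases h0 : ν B = 0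
    · simp [h0]
    · have hg := hgen B (Finset.mem_range.1 hB) h0
      have hf := FF_le l m u r α (β0 * 2 ^ (3 * u) + B) (γ0 * 2 ^ u + c) (δ0 * 2 ^ u + d) hP hg.1
      refine mul_le_mul_of_nonneg_left ?_ (mul_nonneg (hν0 B) (hρ0 c d))
      split_ifs with hh
      · exact hf.2.1
      · exact (hf.2.2 hh).le
  have hN0 : 0 ≤ N := Finset.sum_nonneg fun B _ => hν0 B
  have hR0 : 0 ≤ R := Finset.sum_nonneg fun c _ => Finset.sum_nonneg fun d _ => hρ0 c d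
  have hHI2 : HI l m u r α β0 ν ρ ≤ 1 / (4 * 2 ^ r) * (N * R) := by
    refine (abs_le_of_sq_le_sq' ?_ (by positivity)).2
    refine hHI.trans ?_
    have e1 : (2 : ℝ) ^ (b1 + 13 + 3 * r) / 2 ^ c1 ≤ (1 / (4 * 2 ^ r)) ^ 2 * (1 / 2 ^ r) := by
      have : (2 : ℝ) ^ (b1 + 13 + 3 * r) * (4 * 2 ^ r) ^ 2 * 2 ^ r ≤ 2 ^ c1 := by
        have : (2 : ℝ) ^ (b1 + 13 + 3 * r) * (4 * 2 ^ r) ^ 2 * 2 ^ r = 2 ^ (b1 + 6 * r + 17) := by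
          rw [show (4 : ℝ) = 2 ^ 2 by norm_num]
          ring
        rw [this]
        exact pow_le_pow_right₀ (by norm_num) hbc
      rw [div_le_iff₀ (by positivity)]
      have h4 : (0 : ℝ) < (4 * 2 ^ r) ^ 2 * 2 ^ r := by positivity
      calc (2 : ℝ) ^ (b1 + 13 + 3 * r) = (2 : ℝ) ^ (b1 + 13 + 3 * r) * (4 * 2 ^ r) ^ 2 * 2 ^ r /
            ((4 * 2 ^ r) ^ 2 * 2 ^ r) := by field_simp
        _ ≤ 2 ^ c1 / ((4 * 2 ^ r) ^ 2 * 2 ^ r) := by gcongr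
        _ = _ := by field_simp
    calc 2 ^ (b1 + 13 + 3 * r) / 2 ^ c1 * N * R
        ≤ (1 / (4 * 2 ^ r)) ^ 2 * (1 / 2 ^ r) * N * R := by gcongr
      _ = (1 / (4 * 2 ^ r)) ^ 2 * ((1 / 2 ^ r) * (N * R)) := by ring
      _ ≤ (1 / (4 * 2 ^ r)) ^ 2 * ((N * R) * (N * R)) := by gcongr
      _ = _ := by ring
  refine le_trans ?_ hFF
  refine le_trans ?_ hmain
  have : (1 / 2 ^ r - 1 / (4 * 2 ^ r)) * N * R - 1 / (4 * 2 ^ r) * (N * R) =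
      1 / 2 * (1 / 2 ^ r) * (N * R) := by
    field_simp; ring
  linarith

end MP_5e4520_nt
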