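import Pool.Agent.Lib.MP_5e4520_nt.Ent
import Pool.Agent.Lib.MP_5e4520_nt.LemH

set_option autoImplicit false

namespace MP_5e4520_nt

open Finset

open Classical in
private noncomputable def hentN {ι κ : Type*} (S : Finset ι) (f : ι → κ) (p : ι) : ℝ :=
  ((S.filter (fun x => f x = f p)).card : ℝ)

private theorem hent_ent {ι κ : Type*} (S : Finset ι) (f : ι → κ) :
    ent S f = (∑ p ∈ S, Real.logb 2 ((S.card : ℝ) / hentN S f p)) / S.card := rfl

private theorem hentN_one {ι κ : Type*} (S : Finset ι) (f : ι → κ) {p : ι} (hp : p ∈ S) :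
    1 ≤ hentN S f p := by
  classical
  unfold hentN
  have h : 0 < (S.filter (fun x => f x = f p)).card :=
    card_pos.2 ⟨p, mem_filter.2 ⟨hp, rfl⟩⟩
  exact_mod_cast h

private theorem hentN_le {ι κ : Type*} (S : Finset ι) (f : ι → κ) (p : ι) :
    hentN S f p ≤ S.card := by
  classical
  unfold hentN
  exact_mod_cast card_le_card (filter_subset _ _)

private theorem hent_inv {ι κ : Type*} [DecidableEq κ] (S : Finset ι) (f : ι → κ) :
    ∑ p ∈ S, 1 / hentN S f p = ((S.image f).card : ℝ) := by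
  classical
  rw [← sum_fiberwise_of_maps_to (s := S) (t := S.image f) (g := f)
    (fun x hx => mem_image_of_mem f hx), card_eq_sum_ones, Nat.cast_sum]
  refine sum_congr rfl fun y hy => ?_
  obtain ⟨x, hx, rfl⟩ := mem_image.1 hy
  have h1 : ∀ p ∈ S.filter (fun i => f i = f x), 1 / hentN S f p =
      1 / ((S.filter (fun i => f i = f x)).card : ℝ) := by
    intro p hp
    rw [mem_filter] at hp
    unfold hentN
    congr 3
    ext z
    simp only [mem_filter, hp.2]
  rw [sum_congr rfl h1, sum_const, nsmul_eq_mul, Nat.cast_one, mul_one_div, div_self]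
  have h : 0 < (S.filter (fun i => f i = f x)).card :=
    card_pos.2 ⟨x, mem_filter.2 ⟨hx, rfl⟩⟩
  exact_mod_cast h.ne'

private theorem hent_log {z : ℝ} (hz : 0 < z) : Real.logb 2 z ≤ z := by
  have h1 := Real.log_le_sub_one_of_pos (show 0 < z / 2 by positivity)
  rw [Real.log_div hz.ne' two_ne_zero] at h1
  have h2 : Real.log 2 < 1 := by
    have := Real.log_two_lt_d9
    linarith
  have h3 : 1 / 2 < Real.log 2 := by
    have := Real.log_two_gt_d9
    linarith
  have h4 : 0 < Real.log 2 := by linarith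
  rw [Real.logb, div_le_iff₀ h4]
  nlinarith

private theorem hent_pos_part {ι κ : Type*} [DecidableEq κ] (S : Finset ι) (f : ι → κ) (k : ℕ)
    (h : (S.image f).card ≤ 2 ^ k) :
    ∑ p ∈ S, max 0 (Real.logb 2 ((S.card : ℝ) / hentN S f p) - k) ≤ S.card := by
  have h1 : ∀ p ∈ S, max 0 (Real.logb 2 ((S.card : ℝ) / hentN S f p) - k) ≤
      (S.card : ℝ) / 2 ^ k * (1 / hentN S f p) := by
    intro p hp
    have hn : 1 ≤ hentN S f p := hentN_one S f hp
    have hn0 : 0 < hentN S f p := by linarith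
    have hS : 0 < (S.card : ℝ) := lt_of_lt_of_le hn0 (hentN_le S f p)
    have hk : (0 : ℝ) < 2 ^ k := by positivity
    have h2 : 0 < (S.card : ℝ) / 2 ^ k * (1 / hentN S f p) := by positivity
    refine max_le h2.le ?_
    refine le_trans ?_ (hent_log h2)
    have h3 : (S.card : ℝ) / 2 ^ k * (1 / hentN S f p) = (S.card : ℝ) / hentN S f p / 2 ^ k := by
      field_simp
    have h4 : Real.logb 2 ((S.card : ℝ) / hentN S f p / 2 ^ k) =
        Real.logb 2 ((S.card : ℝ) / hentN S f p) - k := by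
      rw [Real.logb_div (x := (S.card : ℝ) / hentN S f p) (by positivity) (by positivity),
        Real.logb_pow, Real.logb_self_eq_one (by norm_num), mul_one]
    rw [h3, h4]
  refine (sum_le_sum h1).trans ?_
  rw [← mul_sum, hent_inv]
  have h2 : ((S.image f).card : ℝ) ≤ 2 ^ k := by exact_mod_cast h
  calc (S.card : ℝ) / 2 ^ k * ((S.image f).card : ℝ) ≤ (S.card : ℝ) / 2 ^ k * 2 ^ k :=
        mul_le_mul_of_nonneg_left h2 (by positivity)
    _ = S.card := by field_simp

private theorem hent_fiber {ι : Type*} (T : Finset ι) (B : ι → ℕ) (N : ℕ) (h : ∀ p ∈ T, B p < N)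
    (g : ℕ → ℝ) :
    ∑ b ∈ range N, ((T.filter (fun p => B p = b)).card : ℝ) * g b = ∑ p ∈ T, g (B p) := by
  rw [← sum_fiberwise_of_maps_to (s := T) (t := range N) (g := B)
    (fun x hx => mem_range.2 (h x hx))]
  refine sum_congr rfl fun b _ => ?_
  rw [← nsmul_eq_mul, ← sum_const]
  refine sum_congr rfl fun p hp => ?_
  rw [(mem_filter.1 hp).2]

private theorem hent_fiber2 {ι : Type*} (T : Finset ι) (C D : ι → ℕ) (N : ℕ)
    (hC : ∀ p ∈ T, C p < N) (hD : ∀ p ∈ T, D p < N) (g : ℕ → ℕ → ℝ) :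
    ∑ c ∈ range N, ∑ d ∈ range N, ((T.filter (fun p => C p = c ∧ D p = d)).card : ℝ) * g c d =
      ∑ p ∈ T, g (C p) (D p) := by
  rw [← sum_product' (f := fun c d => ((T.filter (fun p => C p = c ∧ D p = d)).card : ℝ) * g c d)]
  rw [← sum_fiberwise_of_maps_to (s := T) (t := range N ×ˢ range N) (g := fun p => (C p, D p))
    (fun x hx => mem_product.2 ⟨mem_range.2 (hC x hx), mem_range.2 (hD x hx)⟩)]
  refine sum_congr rfl fun b _ => ?_
  rw [← nsmul_eq_mul, ← sum_const]
  have e : T.filter (fun p => C p = b.1 ∧ D p = b.2) = T.filter (fun p => (C p, D p) = b) := by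
    ext p
    simp only [mem_filter, Prod.ext_iff]
  rw [e]
  refine sum_congr rfl fun p hp => ?_
  have h := (mem_filter.1 hp).2
  rw [← h]

open Classical in
/-- If the product of the laws of `B` and of `(C,D)` sees few hits then `H(C,D) ≤ 3u - H(B) + small`.

Notation: `ν` law of `B`, `ρ` law of `(C,D)` under the uniform law on `S`;
`c⁻(p') = log2 (1/ρ(C p', D p'))`, `b⁺(p) = log2 (2^(3u) ν(B p))`, `t(p) = max 0 ⌈b⁺(p)⌉ ≤ 3u`.
For a natural number `t` let `ν_t` be `ν` restricted to the generic `B` with `b⁺ ≤ t` and `ρ_t` be `ρ`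
restricted to `c⁻ ≥ t + 6r + 17`.  `LemH` (with `b1 = t`, `c1 = t+6r+17`) and `hhit` give
`|ν_t| |ρ_t| < η` for every `t` (if `|ν_t||ρ_t| < 2^{-r}` this is `hη`).  Let `Y ⊂ S × S` be the set of
`(p,p')` with `B p` nongeneric or `c⁻(p') ≥ t(p) + 6r + 17`; then
`P(Y) ≤ P(nongen) + ∑_{t ≤ 3u} |ν_t||ρ_t| ≤ P(nongen) + (3u+1) η`.  For all `(p,p')`:
`c⁻(p') ≤ max 0 (b⁺(p)) + 6r + 18 + 2u 1_Y + max 0 (c⁻(p') - 2u)`.  Average over `S × S`:
`E c⁻ = ent S (C,D)`, `E b⁺ = 3u - ent S B`, `E max 0 b⁺ ≤ E b⁺ + 1`, `E max 0 (c⁻ - 2u) ≤ 1` (both from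
`y log2 (1/y) ≤ 1` for `0 < y ≤ 1`, as `B` has `≤ 2^(3u)` values and `(C,D)` has `≤ 2^(2u)` values). -/
theorem HEnt {ι : Type*} (l m u r α β0 γ0 δ0 : ℕ) (hP : Par l m u r) (hG3 : Gen3 l m u α β0)
    (S : Finset ι) (hS : S.Nonempty) (B C D : ι → ℕ) (hB : ∀ p ∈ S, B p < 2 ^ (3 * u))
    (hC : ∀ p ∈ S, C p < 2 ^ u) (hD : ∀ p ∈ S, D p < 2 ^ u) (η : ℝ) (hη : 1 / 2 ^ r ≤ η)
    (hhit : (((S ×ˢ S).filter (fun q : ι × ι => Hit l m u r α (β0 * 2 ^ (3 * u) + B q.1)
      (γ0 * 2 ^ u + C q.2) (δ0 * 2 ^ u + D q.2))).card : ℝ) / (S.card : ℝ) ^ 2 < η / (2 * 2 ^ r)) :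
    ent S (fun p => (C p, D p)) ≤ 3 * u - ent S B + 6 * r + 20 +
      2 * u * ((3 * u + 1) * η +
        ((S.filter (fun p => ¬ Gen12 l m u r α (β0 * 2 ^ (3 * u) + B p))).card : ℝ) / S.card) := by
  set n : ℝ := (S.card : ℝ) with hn
  have hn0 : 0 < n := by rw [hn]; exact_mod_cast card_pos.2 hS
  set gen : ι → Prop := fun p => Gen12 l m u r α (β0 * 2 ^ (3 * u) + B p) with hgen
  set b : ι → ℝ := fun p => Real.logb 2 (n / hentN S B p) with hb
  set c : ι → ℝ := fun p => Real.logb 2 (n / hentN S (fun p => (C p, D p)) p) with hc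
  have hb0 : ∀ p ∈ S, 0 ≤ b p := by
    intro p hp
    refine Real.logb_nonneg (by norm_num) ?_
    rw [one_le_div (by linarith [hentN_one S B hp])]
    exact hentN_le S B p
  -- the sets
  set Gt : ℕ → Finset ι := fun t => S.filter (fun p => gen p ∧ 3 * u - b p ≤ t) with hGt
  set Ht : ℕ → Finset ι := fun t => S.filter (fun p => ((t + 6 * r + 17 : ℕ) : ℝ) ≤ c p) with hHt
  have hkey : ∀ t : ℕ, ((Gt t).card : ℝ) * ((Ht t).card : ℝ) ≤ η * n ^ 2 := by
    intro t
    by_contra hcon
    push Not at hcon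
    set ν : ℕ → ℝ := fun x => (((Gt t).filter (fun p => B p = x)).card : ℝ) / n with hν
    set ρ : ℕ → ℕ → ℝ := fun x y => (((Ht t).filter (fun p => C p = x ∧ D p = y)).card : ℝ) / n
      with hρ
    have hsubG : Gt t ⊆ S := filter_subset _ _
    have hsubH : Ht t ⊆ S := filter_subset _ _
    have hνle : ∀ x, ν x ≤ 2 ^ t / 2 ^ (3 * u) := by
      intro x
      rcases ((Gt t).filter (fun p => B p = x)).eq_empty_or_nonempty with h | ⟨p, hp⟩
      · simp only [hν, h, card_empty, Nat.cast_zero, zero_div]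
        positivity
      · rw [mem_filter, hGt, mem_filter] at hp
        obtain ⟨⟨hpS, _, hpb⟩, hpx⟩ := hp
        have h1 : (((Gt t).filter (fun p => B p = x)).card : ℝ) ≤ hentN S B p := by
          unfold hentN
          have : ((Gt t).filter (fun p => B p = x)).card ≤ (S.filter (fun y => B y = B p)).card := by
            apply card_le_card
            intro z hz
            rw [mem_filter] at hz ⊢
            exact ⟨hsubG hz.1, hz.2.trans hpx.symm⟩
          have h5 : ((S.filter (fun y => B y = B p)).card : ℝ) =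
              (@Finset.card ι (@Finset.filter ι (fun x => B x = B p)
                (fun _ => Classical.propDecidable _) S) : ℝ) := by
            congr 2
            ext z
            simp only [mem_filter]
          rw [← h5]
          exact_mod_cast this
        have hN := hentN_one S B hpS
        have h2 : hentN S B p / n ≤ 2 ^ t / 2 ^ (3 * u) := by
          have h3 : Real.logb 2 (2 ^ (3 * u) * (hentN S B p / n)) ≤ t := by
            have h4 : Real.logb 2 (2 ^ (3 * u) * (hentN S B p / n)) = 3 * u - b p := by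
              rw [Real.logb_mul (by positivity) (by positivity), Real.logb_pow,
                Real.logb_self_eq_one (by norm_num), hb]
              simp only
              rw [Real.logb_div (by positivity) (by positivity),
                Real.logb_div (by positivity) (by positivity)]
              push_cast
              ring
            rw [h4]; exact hpb
          rw [Real.logb_le_iff_le_rpow (by norm_num) (by positivity), Real.rpow_natCast] at h3
          rw [le_div_iff₀ (by positivity)]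
          linarith
        calc ν x = (((Gt t).filter (fun p => B p = x)).card : ℝ) / n := rfl
          _ ≤ hentN S B p / n := by gcongr
          _ ≤ _ := h2
    have hρle : ∀ x y, ρ x y ≤ 1 / 2 ^ (t + 6 * r + 17) := by
      intro x y
      rcases ((Ht t).filter (fun p => C p = x ∧ D p = y)).eq_empty_or_nonempty with h | ⟨p, hp⟩
      · simp only [hρ, h, card_empty, Nat.cast_zero, zero_div]
        positivity
      · rw [mem_filter, hHt, mem_filter] at hp
        obtain ⟨⟨hpS, hpc⟩, hpx, hpy⟩ := hp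
        set N := hentN S (fun p => (C p, D p)) p with hNdef
        have h1 : (((Ht t).filter (fun p => C p = x ∧ D p = y)).card : ℝ) ≤ N := by
          rw [hNdef]
          unfold hentN
          have : ((Ht t).filter (fun p => C p = x ∧ D p = y)).card ≤
              (S.filter (fun z => (C z, D z) = (C p, D p))).card := by
            apply card_le_card
            intro z hz
            rw [mem_filter] at hz ⊢
            exact ⟨hsubH hz.1, Prod.ext (hz.2.1.trans hpx.symm) (hz.2.2.trans hpy.symm)⟩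
          have h5 : ((S.filter (fun z => (C z, D z) = (C p, D p))).card : ℝ) =
              (@Finset.card ι (@Finset.filter ι (fun x => (C x, D x) = (C p, D p))
                (fun _ => Classical.propDecidable _) S) : ℝ) := by
            congr 2
            ext z
            simp only [mem_filter]
          rw [← h5]
          exact_mod_cast this
        have hN : 1 ≤ N := hentN_one S _ hpS
        have h2 : N / n ≤ 1 / 2 ^ (t + 6 * r + 17) := by
          have h3 : ((t + 6 * r + 17 : ℕ) : ℝ) ≤ Real.logb 2 (n / N) := hpc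
          rw [Real.le_logb_iff_rpow_le (by norm_num) (by positivity), Real.rpow_natCast] at h3
          rw [div_le_div_iff₀ hn0 (by positivity), one_mul]
          rwa [le_div_iff₀ (by linarith), mul_comm] at h3
        calc ρ x y = (((Ht t).filter (fun p => C p = x ∧ D p = y)).card : ℝ) / n := rfl
          _ ≤ N / n := by gcongr
          _ ≤ _ := h2
    have hsumν : ∑ x ∈ range (2 ^ (3 * u)), ν x = ((Gt t).card : ℝ) / n := by
      have h := hent_fiber (Gt t) B (2 ^ (3 * u)) (fun p hp => hB p (hsubG hp)) (fun _ => 1)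
      simp only [mul_one, sum_const, nsmul_eq_mul] at h
      rw [hν, ← sum_div, h]
    have hsumρ : ∑ x ∈ range (2 ^ u), ∑ y ∈ range (2 ^ u), ρ x y = ((Ht t).card : ℝ) / n := by
      have h := hent_fiber2 (Ht t) C D (2 ^ u) (fun p hp => hC p (hsubH hp))
        (fun p hp => hD p (hsubH hp)) (fun _ _ => 1)
      simp only [mul_one, sum_const, nsmul_eq_mul] at h
      rw [hρ]
      simp only [← sum_div]
      rw [h]
    have hprod : (∑ x ∈ range (2 ^ (3 * u)), ν x) *
        (∑ x ∈ range (2 ^ u), ∑ y ∈ range (2 ^ u), ρ x y) =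
        ((Gt t).card : ℝ) * ((Ht t).card : ℝ) / n ^ 2 := by
      rw [hsumν, hsumρ]
      field_simp
    have hbig : η < ((Gt t).card : ℝ) * ((Ht t).card : ℝ) / n ^ 2 := by
      rw [lt_div_iff₀ (by positivity)]
      exact hcon
    have hL := LemH l m u r α β0 γ0 δ0 hP ν ρ (fun x => by positivity) (fun x y => by positivity)
      t (t + 6 * r + 17) le_rfl hνle hρle (by
        intro x _ hx
        have h1 : ((Gt t).filter (fun p => B p = x)).Nonempty := by
          by_contra h
          rw [not_nonempty_iff_eq_empty] at h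
          apply hx
          simp only [hν, h, card_empty, Nat.cast_zero, zero_div]
        obtain ⟨p, hp⟩ := h1
        rw [mem_filter, hGt, mem_filter] at hp
        rw [← hp.2]
        exact hp.1.2.1) hG3 (by rw [hprod]; linarith)
    rw [hprod] at hL
    have hrhs : ∑ x ∈ range (2 ^ (3 * u)), ∑ c ∈ range (2 ^ u), ∑ d ∈ range (2 ^ u),
        ν x * ρ c d * (if Hit l m u r α (β0 * 2 ^ (3 * u) + x) (γ0 * 2 ^ u + c) (δ0 * 2 ^ u + d)
          then 1 else 0) =
        (∑ p ∈ Gt t, ∑ q ∈ Ht t, (if Hit l m u r α (β0 * 2 ^ (3 * u) + B p) (γ0 * 2 ^ u + C q)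
          (δ0 * 2 ^ u + D q) then (1 : ℝ) else 0)) / n ^ 2 := by
      have h1 : ∀ x, ∑ c ∈ range (2 ^ u), ∑ d ∈ range (2 ^ u),
          ν x * ρ c d * (if Hit l m u r α (β0 * 2 ^ (3 * u) + x) (γ0 * 2 ^ u + c)
            (δ0 * 2 ^ u + d) then (1 : ℝ) else 0) =
          (((Gt t).filter (fun p => B p = x)).card : ℝ) * ((∑ q ∈ Ht t,
            (if Hit l m u r α (β0 * 2 ^ (3 * u) + x) (γ0 * 2 ^ u + C q)
            (δ0 * 2 ^ u + D q) then (1 : ℝ) else 0)) / n ^ 2) := by
        intro x
        rw [← hent_fiber2 (Ht t) C D (2 ^ u) (fun p hp => hC p (hsubH hp))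
          (fun p hp => hD p (hsubH hp)) (fun c d => if Hit l m u r α (β0 * 2 ^ (3 * u) + x)
            (γ0 * 2 ^ u + c) (δ0 * 2 ^ u + d) then (1 : ℝ) else 0), sum_div, mul_sum]
        refine sum_congr rfl fun c _ => ?_
        rw [sum_div, mul_sum]
        refine sum_congr rfl fun d _ => ?_
        simp only [hν, hρ]
        field_simp
      rw [sum_congr rfl fun x _ => h1 x]
      rw [hent_fiber (Gt t) B (2 ^ (3 * u)) (fun p hp => hB p (hsubG hp)) (fun x => (∑ q ∈ Ht t,
            (if Hit l m u r α (β0 * 2 ^ (3 * u) + x) (γ0 * 2 ^ u + C q)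
            (δ0 * 2 ^ u + D q) then (1 : ℝ) else 0)) / n ^ 2), sum_div]
    rw [hrhs] at hL
    have hle : (∑ p ∈ Gt t, ∑ q ∈ Ht t, (if Hit l m u r α (β0 * 2 ^ (3 * u) + B p)
        (γ0 * 2 ^ u + C q) (δ0 * 2 ^ u + D q) then (1 : ℝ) else 0)) ≤
        (((S ×ˢ S).filter (fun q : ι × ι => Hit l m u r α (β0 * 2 ^ (3 * u) + B q.1)
      (γ0 * 2 ^ u + C q.2) (δ0 * 2 ^ u + D q.2))).card : ℝ) := by
      rw [card_filter, Nat.cast_sum, sum_product]
      refine (sum_le_sum_of_subset_of_nonneg hsubG ?_).trans ?_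
      · intro p _ _
        exact sum_nonneg fun q _ => by split_ifs <;> norm_num
      · refine sum_le_sum fun p _ => ?_
        refine (sum_le_sum_of_subset_of_nonneg hsubH ?_).trans ?_
        · intro q _ _
          split_ifs <;> norm_num
        · refine sum_le_sum fun q _ => ?_
          split_ifs <;> simp
    have h9 : 1 / 2 * (1 / 2 ^ r) * (((Gt t).card : ℝ) * ((Ht t).card : ℝ) / n ^ 2) <
        η / (2 * 2 ^ r) := by
      refine lt_of_le_of_lt (hL.trans ?_) hhit
      gcongr
    have h10 : η / (2 * 2 ^ r) = 1 / 2 * (1 / 2 ^ r) * η := by field_simp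
    rw [h10] at h9
    have h11 := lt_of_mul_lt_mul_left h9 (by positivity)
    linarith
  -- the exceptional pairs
  set T : ι → ℕ := fun p => ⌈3 * u - b p⌉₊ with hT
  have hTu : ∀ p ∈ S, T p ≤ 3 * u := by
    intro p hp
    have h1 := hb0 p hp
    rw [hT]
    apply Nat.ceil_le.2
    push_cast
    linarith
  set Y := (S ×ˢ S).filter (fun q : ι × ι => ¬ gen q.1 ∨
    ((T q.1 + 6 * r + 17 : ℕ) : ℝ) ≤ c q.2) with hY
  have hYcard : (Y.card : ℝ) ≤ ((S.filter (fun p => ¬ gen p)).card : ℝ) * n +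
      (3 * u + 1) * (η * n ^ 2) := by
    have h1 : Y ⊆ ((S.filter (fun p => ¬ gen p)) ×ˢ S) ∪
        (range (3 * u + 1)).biUnion (fun t => (Gt t) ×ˢ (Ht t)) := by
      intro q hq
      rw [hY, mem_filter, mem_product] at hq
      rw [mem_union, mem_product, mem_filter, mem_biUnion]
      by_cases hg : gen q.1
      · right
        have h2 := hq.2.resolve_left (not_not.2 hg)
        refine ⟨T q.1, mem_range.2 (by have := hTu q.1 hq.1.1; omega), mem_product.2 ⟨?_, ?_⟩⟩
        · rw [hGt, mem_filter]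
          exact ⟨hq.1.1, hg, Nat.le_ceil _⟩
        · rw [hHt, mem_filter]
          exact ⟨hq.1.2, h2⟩
      · left
        exact ⟨⟨hq.1.1, hg⟩, hq.1.2⟩
    have h2 : (Y.card : ℝ) ≤ (((S.filter (fun p => ¬ gen p)) ×ˢ S).card : ℝ) +
        ∑ t ∈ range (3 * u + 1), (((Gt t) ×ˢ (Ht t)).card : ℝ) := by
      have h3 := (card_le_card h1).trans (card_union_le _ _)
      have h4 := card_biUnion_le (s := range (3 * u + 1)) (t := fun t => (Gt t) ×ˢ (Ht t))
      exact_mod_cast h3.trans (Nat.add_le_add_left h4 _)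
    refine h2.trans ?_
    rw [card_product, Nat.cast_mul]
    have h5 : ∑ t ∈ range (3 * u + 1), (((Gt t) ×ˢ (Ht t)).card : ℝ) ≤
        ∑ _t ∈ range (3 * u + 1), η * n ^ 2 := by
      refine sum_le_sum fun t _ => ?_
      rw [card_product, Nat.cast_mul]
      exact hkey t
    rw [sum_const, card_range, nsmul_eq_mul] at h5
    push_cast at h5
    linarith
  -- pointwise inequality
  have hpt : ∀ p ∈ S, ∀ q ∈ S, c q ≤ (3 * u - b p) + max 0 (b p - (3 * u : ℕ)) + (6 * r + 18) +
      2 * u * (if (p, q) ∈ Y then (1 : ℝ) else 0) + max 0 (c q - (2 * u : ℕ)) := by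
    intro p hp q hq
    have hmax : (3 * u - b p) + max 0 (b p - (3 * u : ℕ)) = max 0 (3 * u - b p) := by
      push_cast
      rcases le_total (b p) (3 * u) with h | h
      · rw [max_eq_left (by linarith), max_eq_right (by linarith), add_zero]
      · rw [max_eq_right (by linarith), max_eq_left (by linarith)]
        ring
    rw [hmax]
    by_cases hmem : (p, q) ∈ Y
    · rw [if_pos hmem]
      have h1 := le_max_right 0 (c q - (2 * u : ℕ))
      have h2 := le_max_left 0 (3 * u - b p)
      push_cast at h1 ⊢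
      have h3 : (0 : ℝ) ≤ 6 * r + 18 := by positivity
      linarith
    · rw [if_neg hmem]
      rw [hY, mem_filter, mem_product] at hmem
      push Not at hmem
      have h1 := (hmem ⟨hp, hq⟩).2
      have h2 : (T p : ℝ) ≤ max 0 (3 * u - b p) + 1 := by
        rcases le_total (3 * u - b p) 0 with h | h
        · have h3 : T p = 0 := Nat.ceil_eq_zero.2 h
          rw [h3, max_eq_left h]
          norm_num
        · rw [max_eq_right h]
          exact (Nat.ceil_lt_add_one h).le
      have h4 := le_max_left 0 (c q - (2 * u : ℕ))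
      push_cast at h1 h4 ⊢
      linarith
  -- summation
  have hsum : ∑ p ∈ S, ∑ q ∈ S, c q ≤ ∑ p ∈ S, ∑ q ∈ S,
      ((3 * u - b p) + max 0 (b p - (3 * u : ℕ)) + (6 * r + 18) +
      2 * u * (if (p, q) ∈ Y then (1 : ℝ) else 0) + max 0 (c q - (2 * u : ℕ))) :=
    sum_le_sum fun p hp => sum_le_sum fun q hq => hpt p hp q hq
  simp only [sum_add_distrib, sum_const, nsmul_eq_mul, sum_sub_distrib, ← mul_sum] at hsum
  have hYsum : ∑ p ∈ S, ∑ q ∈ S, (if (p, q) ∈ Y then (1 : ℝ) else 0) = Y.card := by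
    rw [← sum_product' (f := fun p q => if (p, q) ∈ Y then (1 : ℝ) else 0)]
    rw [← Nat.cast_one, ← Nat.cast_zero]
    have h1 : Y = (S ×ˢ S).filter (fun q => q ∈ Y) := by
      rw [filter_mem_eq_inter, inter_eq_right.2]
      exact filter_subset _ _
    conv_rhs => rw [h1]
    rw [card_filter, Nat.cast_sum]
    refine sum_congr rfl fun q _ => ?_
    split_ifs <;> simp
  rw [hYsum] at hsum
  have hmb := hent_pos_part S B (3 * u) (by
    refine (card_le_card (t := range (2 ^ (3 * u))) ?_).trans (by rw [card_range])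
    intro x hx
    obtain ⟨p, hp, rfl⟩ := mem_image.1 hx
    exact mem_range.2 (hB p hp))
  have hmc := hent_pos_part S (fun p => (C p, D p)) (2 * u) (by
    refine (card_le_card (t := range (2 ^ u) ×ˢ range (2 ^ u)) ?_).trans (by
      rw [card_product, card_range, ← pow_add, two_mul])
    intro x hx
    obtain ⟨p, hp, rfl⟩ := mem_image.1 hx
    exact mem_product.2 ⟨mem_range.2 (hC p hp), mem_range.2 (hD p hp)⟩)
  rw [hent_ent, hent_ent]
  have hgoal : ∀ Xb Xc Mb Mc Yc Gc : ℝ, n * Xc ≤ n * (n * (3 * u)) - n * Xb + n * Mb +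
      n * (n * (6 * r + 18)) + 2 * u * Yc + n * Mc → Mb ≤ n → Mc ≤ n →
      Yc ≤ Gc * n + (3 * u + 1) * (η * n ^ 2) →
      Xc / n ≤ 3 * u - Xb / n + 6 * r + 20 + 2 * u * ((3 * u + 1) * η + Gc / n) := by
    intro Xb Xc Mb Mc Yc Gc h1 h2 h3 h4
    have h5 : 2 * (u : ℝ) * Yc ≤ 2 * u * (Gc * n + (3 * u + 1) * (η * n ^ 2)) :=
      mul_le_mul_of_nonneg_left h4 (by positivity)
    have h6 : n * Mb ≤ n * n := mul_le_mul_of_nonneg_left h2 hn0.le
    have h7 : n * Mc ≤ n * n := mul_le_mul_of_nonneg_left h3 hn0.le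
    have h8 : n * Xc ≤ n * n * (3 * u - Xb / n + 6 * r + 20 +
        2 * u * ((3 * u + 1) * η + Gc / n)) := by
      have h9 : n * n * (3 * u - Xb / n + 6 * r + 20 + 2 * u * ((3 * u + 1) * η + Gc / n)) =
          n * (n * (3 * u)) - n * Xb + n * (n * (6 * r + 18)) + 2 * (n * n) +
          2 * u * (Gc * n + (3 * u + 1) * (η * n ^ 2)) := by
        field_simp
        ring
      rw [h9]
      linarith
    rw [div_le_iff₀ hn0]
    refine le_of_mul_le_mul_left ?_ hn0
    calc n * Xc ≤ _ := h8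
      _ = _ := by ring
  refine hgoal (∑ p ∈ S, b p) (∑ p ∈ S, c p) _ _ _ _ ?_ hmb hmc hYcard
  refine hsum.trans (le_of_eq ?_)
  ring

end MP_5e4520_nt
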