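import Pool.Agent.Lib.MP_5e4520_nt.Defs

set_option autoImplicit false

namespace MP_5e4520_nt

open Finset

/-- the block of `3s` digits after the first `a` digits -/
theorem pre_split (M a k x : ℕ) (h : a + k ≤ M) :
    pre M (a + k) x = pre M a x * 2 ^ k + pre M (a + k) x % 2 ^ k := by
  unfold pre
  have h1 : M - a = (M - (a + k)) + k := by omega
  rw [h1, pow_add, ← Nat.div_div_eq_div_mul]
  exact (Nat.div_add_mod' _ _).symm

theorem pre_lt (M a x : ℕ) (ha : a ≤ M) (hx : x < 2 ^ M) : pre M a x < 2 ^ a := by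
  unfold pre
  apply Nat.div_lt_of_lt_mul
  rw [← pow_add, Nat.sub_add_cancel ha]
  exact hx

theorem pre_mono (M a a' x y : ℕ) (h : a ≤ a') (hxy : pre M a' x = pre M a' y) :
    pre M a x = pre M a y := by
  unfold pre at *
  have h1 : M - a = (M - a') + ((M - a) - (M - a')) := by omega
  rw [h1, pow_add, ← Nat.div_div_eq_div_mul, ← Nat.div_div_eq_div_mul, hxy]

open Classical in
/-- For each pair `(x,y)` the number of `p ∈ S` with these prefixes is at most `4^M/2^(a+b)`, since the
pair `(α, β)` determines the point; and `4^M ≤ Λ |S|`. -/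
theorem prefix_prob {M r Λ lo hi : ℕ} {S : Finset Pt} (hS : Sys M r Λ lo hi S) (a b : ℕ)
    (ha : a ≤ M) (hb : b ≤ M) (Q : ℕ → ℕ → Prop) :
    ((S.filter (fun p => Q (pre M a p.1) (pre M b p.2.1))).card : ℝ) ≤
      Λ * S.card * (((range (2 ^ a) ×ˢ range (2 ^ b)).filter (fun p => Q p.1 p.2)).card : ℝ) /
        2 ^ (a + b) := by
  set F := (range (2 ^ a) ×ˢ range (2 ^ b)).filter (fun p => Q p.1 p.2) with hF
  set T := S.filter (fun p => Q (pre M a p.1) (pre M b p.2.1)) with hT
  have h1 : T.card ≤ (2 ^ (M - a) * 2 ^ (M - b)) * F.card := by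
    apply card_le_mul_card_image_of_maps_to (f := fun p : Pt => (pre M a p.1, pre M b p.2.1))
    · intro p hp
      rw [hT, mem_filter] at hp
      rw [hF, mem_filter, mem_product, mem_range, mem_range]
      exact ⟨⟨pre_lt M a _ ha (hS.rng p hp.1).1, pre_lt M b _ hb (hS.rng p hp.1).2.1⟩, hp.2⟩
    · intro c _
      have : ((range (2 ^ (M - a))) ×ˢ (range (2 ^ (M - b)))).card = 2 ^ (M - a) * 2 ^ (M - b) := by
        rw [card_product, card_range, card_range]
      rw [← this]
      apply card_le_card_of_injOn (fun p : Pt => (p.1 % 2 ^ (M - a), p.2.1 % 2 ^ (M - b)))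
      · intro p _
        rw [mem_coe, mem_product, mem_range, mem_range]
        exact ⟨Nat.mod_lt _ (by positivity), Nat.mod_lt _ (by positivity)⟩
      · intro p hp p' hp' he
        rw [mem_coe, mem_filter, hT, mem_filter] at hp hp'
        have e1 : pre M a p.1 = pre M a p'.1 :=
          (congrArg Prod.fst hp.2).trans (congrArg Prod.fst hp'.2).symm
        have e2 : pre M b p.2.1 = pre M b p'.2.1 :=
          (congrArg Prod.snd hp.2).trans (congrArg Prod.snd hp'.2).symm
        have e3 : p.1 % 2 ^ (M - a) = p'.1 % 2 ^ (M - a) := congrArg Prod.fst he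
        have e4 : p.2.1 % 2 ^ (M - b) = p'.2.1 % 2 ^ (M - b) := congrArg Prod.snd he
        apply hS.inj p hp.1.1 p' hp'.1.1
        · rw [← Nat.div_add_mod p.1 (2 ^ (M - a)), ← Nat.div_add_mod p'.1 (2 ^ (M - a)), e3]
          unfold pre at e1
          rw [e1]
        · rw [← Nat.div_add_mod p.2.1 (2 ^ (M - b)), ← Nat.div_add_mod p'.2.1 (2 ^ (M - b)), e4]
          unfold pre at e2
          rw [e2]
  have h2 : (2 : ℝ) ^ (M - a) * 2 ^ (M - b) = 4 ^ M / 2 ^ (a + b) := by
    rw [eq_div_iff (by positivity), ← pow_add, ← pow_add]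
    have : (4 : ℝ) = 2 ^ 2 := by norm_num
    rw [this, ← pow_mul]
    congr 1
    omega
  have h3 : (4 : ℝ) ^ M ≤ Λ * S.card := by exact_mod_cast hS.card
  have h4 : (T.card : ℝ) ≤ (2 ^ (M - a) * 2 ^ (M - b)) * F.card := by exact_mod_cast h1
  rw [h2] at h4
  refine h4.trans ?_
  rw [div_mul_eq_mul_div]
  exact div_le_div_of_nonneg_right
    (mul_le_mul_of_nonneg_right h3 (Nat.cast_nonneg _)) (by positivity)

end MP_5e4520_nt
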