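import Pool.Agent.Lib.MP_5e4520_nt.EEPoly
import Pool.Agent.Lib.MP_5e4520_nt.PreProb
import Pool.Agent.Lib.MP_5e4520_nt.HEnt
import Pool.Agent.Lib.MP_5e4520_nt.GenH

set_option autoImplicit false

namespace MP_5e4520_nt

open Finset

/-- the fibers of a function -/
private noncomputable def hfinT {ι κ : Type*} (S : Finset ι) (h : ι → κ) (p : ι) : Finset ι :=
  @Finset.filter ι (fun x => h x = h p) (fun _ => Classical.propDecidable _) S

private theorem hfin_mem {ι κ : Type*} {S : Finset ι} {h : ι → κ} {p x : ι} :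
    x ∈ hfinT S h p ↔ x ∈ S ∧ h x = h p := by
  unfold hfinT
  exact @Finset.mem_filter ι (fun x => h x = h p) (fun _ => Classical.propDecidable _) S x

private theorem hfin_T_eq {ι κ : Type*} {S : Finset ι} {h : ι → κ} {p x : ι} (hx : h x = h p) :
    hfinT S h x = hfinT S h p := by
  ext y
  rw [hfin_mem, hfin_mem, hx]

/-- double counting -/
private theorem hfin_dc {ι κ : Type*} (S : Finset ι) (h : ι → κ) (bad : ι → Prop)
    [DecidablePred bad] :
    ∑ p ∈ S, ((((hfinT S h p).filter bad).card : ℝ) / (hfinT S h p).card) =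
      ((S.filter bad).card : ℝ) := by
  classical
  have h1 : ∀ p ∈ S, ((((hfinT S h p).filter bad).card : ℝ) / (hfinT S h p).card) =
      ∑ x ∈ S, if (h x = h p ∧ bad x) then (1 : ℝ) / (hfinT S h x).card else 0 := by
    intro p hp
    rw [← Finset.sum_filter]
    have h2 : S.filter (fun x => h x = h p ∧ bad x) = (hfinT S h p).filter bad := by
      ext x
      simp only [Finset.mem_filter, hfin_mem, and_assoc]
    rw [h2, Finset.sum_congr rfl (g := fun _ => (1 : ℝ) / (hfinT S h p).card)]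
    · rw [Finset.sum_const, nsmul_eq_mul]; ring
    · intro x hx
      rw [Finset.mem_filter, hfin_mem] at hx
      rw [hfin_T_eq hx.1.2]
  rw [Finset.sum_congr rfl h1, Finset.sum_comm, Finset.card_filter, Nat.cast_sum]
  refine Finset.sum_congr rfl fun x hx => ?_
  by_cases hb : bad x
  · rw [if_pos hb]
    have h3 : ∀ p ∈ S, (if (h x = h p ∧ bad x) then (1 : ℝ) / (hfinT S h x).card else 0) =
        if h p = h x then (1 : ℝ) / (hfinT S h x).card else 0 := by
      intro p hp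
      simp only [hb, and_true, eq_comm]
    rw [Finset.sum_congr rfl h3, ← Finset.sum_filter, Finset.sum_const]
    have h4 : S.filter (fun p => h p = h x) = hfinT S h x := by
      ext y
      simp only [Finset.mem_filter, hfin_mem]
    have h5 : (0 : ℝ) < (hfinT S h x).card := by
      exact_mod_cast Finset.card_pos.2 ⟨x, hfin_mem.2 ⟨hx, rfl⟩⟩
    rw [h4, nsmul_eq_mul]
    field_simp
    simp
  · rw [if_neg hb]
    simp only [hb, and_false, if_false, Finset.sum_const_zero, Nat.cast_zero]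

/-- Markov's inequality -/
private theorem hfin_markov {ι : Type*} (S : Finset ι) (f : ι → ℝ) (hf : ∀ p ∈ S, 0 ≤ f p)
    (t : ℝ) (ht : 0 < t) (P : ι → Prop) [DecidablePred P] (hP : ∀ p ∈ S, P p → t ≤ f p) :
    ((S.filter P).card : ℝ) ≤ (∑ p ∈ S, f p) / t := by
  rw [le_div_iff₀ ht]
  calc ((S.filter P).card : ℝ) * t = ∑ p ∈ S.filter P, t := by
        rw [Finset.sum_const, nsmul_eq_mul]
    _ ≤ ∑ p ∈ S.filter P, f p := Finset.sum_le_sum fun p hp => by
        rw [Finset.mem_filter] at hp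
        exact hP p hp.1 hp.2
    _ ≤ ∑ p ∈ S, f p := Finset.sum_le_sum_of_subset_of_nonneg (Finset.filter_subset _ _)
        fun p hp _ => hf p hp

/-- a nonnegative information -/
private theorem hfin_info_nonneg {ι κ κ' : Type*} {S : Finset ι} (hS : S.Nonempty) (f : ι → κ)
    (g : ι → κ') : 0 ≤ ent S f + ent S g - ent S (fun x => (f x, g x)) := by
  have h := info hS f g (fun _ _ => False) (by simp)
  refine le_trans ?_ h
  positivity

private theorem hfin_pre_iff {M b k x y : ℕ} (h : b + k ≤ M) :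
    pre M (b + k) x = pre M (b + k) y ↔
      (pre M (b + k) x % 2 ^ k = pre M (b + k) y % 2 ^ k ∧ pre M b x = pre M b y) := by
  constructor
  · intro e
    exact ⟨by rw [e], pre_mono M b (b + k) x y (Nat.le_add_right _ _) e⟩
  · rintro ⟨e1, e2⟩
    rw [pre_split M b k x h, pre_split M b k y h, e1, e2]

/-- the pointwise estimate -/
private theorem hfin_point {M r Λ lo hi : ℕ} {S : Finset Pt} (hS : Sys M r Λ lo hi S) (l m u : ℕ)
    (hP : Par l m u r) (hlo : lo ≤ l) (hlm : lo ≤ m) (hhi : l + m + 2 * u ≤ hi) (hM : 2 * hi ≤ M)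
    (h16 : 16 * u ^ 2 ≤ 2 ^ r) (T : Finset Pt) (hT : T.Nonempty) (hTS : T ⊆ S) (q : Pt)
    (hTq : ∀ x ∈ T, px M (2 * l + m + 3 * u) (l + 2 * m) l m x =
      px M (2 * l + m + 3 * u) (l + 2 * m) l m q) (X : ℝ) (hX0 : 0 ≤ X) (ng : ℝ) (hng0 : 0 ≤ ng)
    (hng : ∀ [DecidablePred fun x : Pt => ¬ Gen12 l m u r (pre M (2 * l + m + 3 * u) x.1)
      (pre M (l + 2 * m + 3 * u) x.2.1)], ((T.filter fun x : Pt => ¬ Gen12 l m u r
        (pre M (2 * l + m + 3 * u) x.1) (pre M (l + 2 * m + 3 * u) x.2.1)).card : ℝ) / T.card = ng)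
    (hX : X < 1 → Gen3 l m u (pre M (2 * l + m + 3 * u) q.1) (pre M (l + 2 * m) q.2.1) ∧
      ent T (fun x => pre M (l + 2 * m + 3 * u) x.2.1 % 2 ^ (3 * u)) +
        ent T (fun x => (pre M (l + u) x.2.2.1 % 2 ^ u, pre M (m + u) x.2.2.2 % 2 ^ u)) -
        ent T (fun x => (pre M (l + 2 * m + 3 * u) x.2.1 % 2 ^ (3 * u),
          (pre M (l + u) x.2.2.1 % 2 ^ u, pre M (m + u) x.2.2.2 % 2 ^ u))) <
        1 / (16 * (u : ℝ) ^ 2) / (2 * 2 ^ r)) :
    ent T (fun x => (pre M (l + u) x.2.2.1 % 2 ^ u, pre M (m + u) x.2.2.2 % 2 ^ u)) ≤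
      3 * u - ent T (fun x => pre M (l + 2 * m + 3 * u) x.2.1 % 2 ^ (3 * u)) + 6 * r + 20 +
        1 / 2 + 2 * u * ng + 2 * u * X := by
  classical
  have hu1 : 1 ≤ u := by have := hP.ru; have := hP.r1; omega
  have hu1' : (1 : ℝ) ≤ u := by exact_mod_cast hu1
  have hB : ∀ p ∈ T, pre M (l + 2 * m + 3 * u) p.2.1 % 2 ^ (3 * u) < 2 ^ (3 * u) :=
    fun p _ => Nat.mod_lt _ (by positivity)
  have hC : ∀ p ∈ T, pre M (l + u) p.2.2.1 % 2 ^ u < 2 ^ u := fun p _ => Nat.mod_lt _ (by positivity)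
  have hD : ∀ p ∈ T, pre M (m + u) p.2.2.2 % 2 ^ u < 2 ^ u := fun p _ => Nat.mod_lt _ (by positivity)
  have hentCD : ent T (fun x => (pre M (l + u) x.2.2.1 % 2 ^ u, pre M (m + u) x.2.2.2 % 2 ^ u)) ≤
      2 * u := by
    have h := ent_le_of_card hT (fun x : Pt => (pre M (l + u) x.2.2.1 % 2 ^ u,
      pre M (m + u) x.2.2.2 % 2 ^ u)) (range (2 ^ u) ×ˢ range (2 ^ u)) (by
        intro p hp
        rw [Finset.mem_product]
        exact ⟨Finset.mem_range.2 (hC p hp), Finset.mem_range.2 (hD p hp)⟩)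
    refine h.trans (le_of_eq ?_)
    rw [Finset.card_product, Finset.card_range, ← pow_add]
    push_cast
    rw [← Real.rpow_natCast, Real.logb_rpow (by norm_num) (by norm_num)]
    push_cast
    ring
  have hentB : ent T (fun x => pre M (l + 2 * m + 3 * u) x.2.1 % 2 ^ (3 * u)) ≤ 3 * u := by
    have h := ent_le_of_card hT (fun x : Pt => pre M (l + 2 * m + 3 * u) x.2.1 % 2 ^ (3 * u))
      (range (2 ^ (3 * u))) (fun p hp => Finset.mem_range.2 (hB p hp))
    refine h.trans (le_of_eq ?_)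
    rw [Finset.card_range]
    push_cast
    rw [← Real.rpow_natCast, Real.logb_rpow (by norm_num) (by norm_num)]
    push_cast
    ring
  by_cases hX1 : X < 1
  · obtain ⟨hG3, hι⟩ := hX hX1
    have hη : 1 / (2 : ℝ) ^ r ≤ 1 / (16 * (u : ℝ) ^ 2) := by
      apply one_div_le_one_div_of_le (by positivity)
      exact_mod_cast h16
    -- the values of the digits
    have hβ : ∀ x ∈ T, pre M (l + 2 * m) q.2.1 * 2 ^ (3 * u) +
        pre M (l + 2 * m + 3 * u) x.2.1 % 2 ^ (3 * u) = pre M (l + 2 * m + 3 * u) x.2.1 := by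
      intro x hx
      have e := hTq x hx
      simp only [px, Prod.mk.injEq] at e
      rw [← e.2.1]
      exact (pre_split M (l + 2 * m) (3 * u) x.2.1 (by omega)).symm
    have hγ : ∀ x ∈ T, pre M l q.2.2.1 * 2 ^ u +
        pre M (l + u) x.2.2.1 % 2 ^ u = pre M (l + u) x.2.2.1 := by
      intro x hx
      have e := hTq x hx
      simp only [px, Prod.mk.injEq] at e
      rw [← e.2.2.1]
      exact (pre_split M l u x.2.2.1 (by omega)).symm
    have hδ : ∀ x ∈ T, pre M m q.2.2.2 * 2 ^ u +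
        pre M (m + u) x.2.2.2 % 2 ^ u = pre M (m + u) x.2.2.2 := by
      intro x hx
      have e := hTq x hx
      simp only [px, Prod.mk.injEq] at e
      rw [← e.2.2.2]
      exact (pre_split M m u x.2.2.2 (by omega)).symm
    have hα : ∀ x ∈ T, pre M (2 * l + m + 3 * u) x.1 = pre M (2 * l + m + 3 * u) q.1 := by
      intro x hx
      have e := hTq x hx
      simp only [px, Prod.mk.injEq] at e
      exact e.1
    have hinfo := info hT (fun x : Pt => pre M (l + 2 * m + 3 * u) x.2.1 % 2 ^ (3 * u))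
      (fun x : Pt => (pre M (l + u) x.2.2.1 % 2 ^ u, pre M (m + u) x.2.2.2 % 2 ^ u))
      (fun v w => Hit l m u r (pre M (2 * l + m + 3 * u) q.1)
        (pre M (l + 2 * m) q.2.1 * 2 ^ (3 * u) + v) (pre M l q.2.2.1 * 2 ^ u + w.1)
        (pre M m q.2.2.2 * 2 ^ u + w.2)) (by
          intro x hx
          simp only
          rw [hβ x hx, hγ x hx, hδ x hx, ← hα x hx]
          exact hS.nohit l m u hlo hlm hhi x (hTS hx))
    have hE := HEnt l m u r (pre M (2 * l + m + 3 * u) q.1) (pre M (l + 2 * m) q.2.1)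
      (pre M l q.2.2.1) (pre M m q.2.2.2) hP hG3 T hT
      (fun x : Pt => pre M (l + 2 * m + 3 * u) x.2.1 % 2 ^ (3 * u))
      (fun x : Pt => pre M (l + u) x.2.2.1 % 2 ^ u) (fun x : Pt => pre M (m + u) x.2.2.2 % 2 ^ u)
      hB hC hD (1 / (16 * (u : ℝ) ^ 2)) hη (lt_of_le_of_lt hinfo hι)
    have hng' : ((T.filter (fun p => ¬ Gen12 l m u r (pre M (2 * l + m + 3 * u) q.1)
        (pre M (l + 2 * m) q.2.1 * 2 ^ (3 * u) +
          pre M (l + 2 * m + 3 * u) p.2.1 % 2 ^ (3 * u)))).card : ℝ) / T.card = ng := by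
      rw [← hng]
      congr 3
      refine Finset.filter_congr fun x hx => ?_
      rw [hβ x hx, hα x hx]
    have h2 : (2 : ℝ) * u * ((3 * u + 1) * (1 / (16 * (u : ℝ) ^ 2))) ≤ 1 / 2 := by
      have e : (2 : ℝ) * u * ((3 * u + 1) * (1 / (16 * (u : ℝ) ^ 2))) = (3 * u + 1) / (8 * u) := by
        field_simp
        ring
      rw [e, div_le_iff₀ (by positivity)]
      linarith
    have h3 : ent T (fun x => (pre M (l + u) x.2.2.1 % 2 ^ u, pre M (m + u) x.2.2.2 % 2 ^ u)) ≤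
      3 * u - ent T (fun x => pre M (l + 2 * m + 3 * u) x.2.1 % 2 ^ (3 * u)) + 6 * r + 20 +
        2 * u * ((3 * u + 1) * (1 / (16 * (u : ℝ) ^ 2)) + ng) := by
      have h4 := hE
      convert h4 using 4
      rw [← hng']
    have h5 : 0 ≤ 2 * (u : ℝ) * X := by positivity
    have h6 : (2 : ℝ) * u * ((3 * u + 1) * (1 / (16 * (u : ℝ) ^ 2)) + ng) =
      2 * u * ((3 * u + 1) * (1 / (16 * (u : ℝ) ^ 2))) + 2 * u * ng := by ring
    rw [h6] at h3
    linarith
  · have h1 : (2 : ℝ) * u ≤ 2 * u * X := by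
      have : (2 : ℝ) * u * 1 ≤ 2 * u * X :=
        mul_le_mul_of_nonneg_left (not_lt.1 hX1) (by positivity)
      linarith
    have h2 : 0 ≤ 2 * (u : ℝ) * ng := by positivity
    have h3 : (0 : ℝ) ≤ r := by positivity
    linarith

private theorem hfin_S_pos {M r Λ lo hi : ℕ} {S : Finset Pt} (hS : Sys M r Λ lo hi S) :
    S.Nonempty := by
  rw [Finset.nonempty_iff_ne_empty]
  rintro rfl
  have h := hS.card
  simp at h

/-- probability of a nongeneric pair -/
private theorem hfin_gen12 {M r Λ lo hi : ℕ} {S : Finset Pt} (hS : Sys M r Λ lo hi S) (l m u : ℕ)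
    (hP : Par l m u r) (hhi : l + m + 2 * u ≤ hi) (hM : 2 * hi ≤ M)
    [DecidablePred fun x : Pt => ¬ Gen12 l m u r (pre M (2 * l + m + 3 * u) x.1)
      (pre M (l + 2 * m + 3 * u) x.2.1)] :
    ((S.filter fun x : Pt => ¬ Gen12 l m u r (pre M (2 * l + m + 3 * u) x.1)
      (pre M (l + 2 * m + 3 * u) x.2.1)).card : ℝ) ≤ Λ * S.card * (182 / 2 ^ r) := by
  classical
  have h1 := prefix_prob hS (2 * l + m + 3 * u) (l + 2 * m + 3 * u) (by omega) (by omega)
    (fun α β => ¬ Gen12 l m u r α β)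
  have h2 : (((range (2 ^ (2 * l + m + 3 * u)) ×ˢ range (2 ^ (l + 2 * m + 3 * u))).filter
      (fun p => ¬ Gen12 l m u r p.1 p.2)).card : ℝ) ≤
      182 / 2 ^ r * 2 ^ (2 * l + m + 3 * u) * 2 ^ (l + 2 * m + 3 * u) := by
    have h3 : (range (2 ^ (2 * l + m + 3 * u)) ×ˢ range (2 ^ (l + 2 * m + 3 * u))).filter
        (fun p => ¬ Gen12 l m u r p.1 p.2) ⊆
        (range (2 ^ (2 * l + m + 3 * u)) ×ˢ range (2 ^ (l + 2 * m + 3 * u))).filter
          (fun p => ¬ Gen1 l m u r p.1 p.2) ∪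
        (range (2 ^ (2 * l + m + 3 * u)) ×ˢ range (2 ^ (l + 2 * m + 3 * u))).filter
          (fun p => ¬ Gen2 l m u r p.1 p.2) := by
      intro p hp
      rw [Finset.mem_filter] at hp
      rw [Finset.mem_union, Finset.mem_filter, Finset.mem_filter]
      by_cases hg : Gen1 l m u r p.1 p.2
      · exact Or.inr ⟨hp.1, fun hg2 => hp.2 ⟨hg, hg2⟩⟩
      · exact Or.inl ⟨hp.1, hg⟩
    have h4 := (Finset.card_le_card h3).trans (Finset.card_union_le _ _)
    have h5 : (((range (2 ^ (2 * l + m + 3 * u)) ×ˢ range (2 ^ (l + 2 * m + 3 * u))).filter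
      (fun p => ¬ Gen1 l m u r p.1 p.2)).card : ℝ) ≤
      162 / 2 ^ r * 2 ^ (2 * l + m + 3 * u) * 2 ^ (l + 2 * m + 3 * u) := by
      convert G1count l m u r hP
    have h6 : (((range (2 ^ (2 * l + m + 3 * u)) ×ˢ range (2 ^ (l + 2 * m + 3 * u))).filter
      (fun p => ¬ Gen2 l m u r p.1 p.2)).card : ℝ) ≤
      20 / 2 ^ (2 * r) * 2 ^ (2 * l + m + 3 * u) * 2 ^ (l + 2 * m + 3 * u) := by
      convert G2count l m u r hP
    have h7 : (20 : ℝ) / 2 ^ (2 * r) ≤ 20 / 2 ^ r := by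
      apply div_le_div_of_nonneg_left (by norm_num) (by positivity)
      exact pow_le_pow_right₀ (by norm_num) (by omega)
    have h8 : (20 : ℝ) / 2 ^ (2 * r) * 2 ^ (2 * l + m + 3 * u) * 2 ^ (l + 2 * m + 3 * u) ≤
        20 / 2 ^ r * 2 ^ (2 * l + m + 3 * u) * 2 ^ (l + 2 * m + 3 * u) := by
      gcongr
    calc (((range (2 ^ (2 * l + m + 3 * u)) ×ˢ range (2 ^ (l + 2 * m + 3 * u))).filter
          (fun p => ¬ Gen12 l m u r p.1 p.2)).card : ℝ)
        ≤ ((((range (2 ^ (2 * l + m + 3 * u)) ×ˢ range (2 ^ (l + 2 * m + 3 * u))).filter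
          (fun p => ¬ Gen1 l m u r p.1 p.2)).card + ((range (2 ^ (2 * l + m + 3 * u)) ×ˢ
            range (2 ^ (l + 2 * m + 3 * u))).filter
          (fun p => ¬ Gen2 l m u r p.1 p.2)).card : ℕ) : ℝ) := by exact_mod_cast h4
      _ ≤ 162 / 2 ^ r * 2 ^ (2 * l + m + 3 * u) * 2 ^ (l + 2 * m + 3 * u) +
          20 / 2 ^ r * 2 ^ (2 * l + m + 3 * u) * 2 ^ (l + 2 * m + 3 * u) := by
        push_cast
        linarith
      _ = 182 / 2 ^ r * 2 ^ (2 * l + m + 3 * u) * 2 ^ (l + 2 * m + 3 * u) := by ring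
  have h10 : ((S.filter fun x : Pt => ¬ Gen12 l m u r (pre M (2 * l + m + 3 * u) x.1)
      (pre M (l + 2 * m + 3 * u) x.2.1)).card : ℝ) ≤
      Λ * S.card * (((range (2 ^ (2 * l + m + 3 * u)) ×ˢ range (2 ^ (l + 2 * m + 3 * u))).filter
      (fun p => ¬ Gen12 l m u r p.1 p.2)).card : ℝ) /
        2 ^ (2 * l + m + 3 * u + (l + 2 * m + 3 * u)) := by
    convert h1
  refine h10.trans ?_
  rw [div_le_iff₀ (by positivity)]
  calc (Λ : ℝ) * S.card * (((range (2 ^ (2 * l + m + 3 * u)) ×ˢ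
        range (2 ^ (l + 2 * m + 3 * u))).filter
      (fun p => ¬ Gen12 l m u r p.1 p.2)).card : ℝ) ≤ Λ * S.card *
        (182 / 2 ^ r * 2 ^ (2 * l + m + 3 * u) * 2 ^ (l + 2 * m + 3 * u)) := by gcongr
    _ = Λ * S.card * (182 / 2 ^ r) * 2 ^ (2 * l + m + 3 * u + (l + 2 * m + 3 * u)) := by
      rw [pow_add _ (2 * l + m + 3 * u)]
      ring

/-- probability of a pair without `Gen3` -/
private theorem hfin_gen3 {M r Λ lo hi : ℕ} {S : Finset Pt} (hS : Sys M r Λ lo hi S) (l m u : ℕ)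
    (hP : Par l m u r) (hhi : l + m + 2 * u ≤ hi) (hM : 2 * hi ≤ M)
    [DecidablePred fun x : Pt => ¬ Gen3 l m u (pre M (2 * l + m + 3 * u) x.1)
      (pre M (l + 2 * m) x.2.1)] :
    ((S.filter fun x : Pt => ¬ Gen3 l m u (pre M (2 * l + m + 3 * u) x.1)
      (pre M (l + 2 * m) x.2.1)).card : ℝ) ≤ Λ * S.card * (64 / 2 ^ u) := by
  classical
  have h1 := prefix_prob hS (2 * l + m + 3 * u) (l + 2 * m) (by omega) (by omega)
    (fun α β => ¬ Gen3 l m u α β)
  have h2 : (((range (2 ^ (2 * l + m + 3 * u)) ×ˢ range (2 ^ (l + 2 * m))).filter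
      (fun p => ¬ Gen3 l m u p.1 p.2)).card : ℝ) ≤
      64 / 2 ^ u * 2 ^ (2 * l + m + 3 * u) * 2 ^ (l + 2 * m) := by
    convert G3count l m u r hP
  have h10 : ((S.filter fun x : Pt => ¬ Gen3 l m u (pre M (2 * l + m + 3 * u) x.1)
      (pre M (l + 2 * m) x.2.1)).card : ℝ) ≤
      Λ * S.card * (((range (2 ^ (2 * l + m + 3 * u)) ×ˢ range (2 ^ (l + 2 * m))).filter
      (fun p => ¬ Gen3 l m u p.1 p.2)).card : ℝ) /
        2 ^ (2 * l + m + 3 * u + (l + 2 * m)) := by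
    convert h1
  refine h10.trans ?_
  rw [div_le_iff₀ (by positivity)]
  calc (Λ : ℝ) * S.card * (((range (2 ^ (2 * l + m + 3 * u)) ×ˢ
        range (2 ^ (l + 2 * m))).filter
      (fun p => ¬ Gen3 l m u p.1 p.2)).card : ℝ) ≤ Λ * S.card *
        (64 / 2 ^ u * 2 ^ (2 * l + m + 3 * u) * 2 ^ (l + 2 * m)) := by gcongr
    _ = Λ * S.card * (64 / 2 ^ u) * 2 ^ (2 * l + m + 3 * u + (l + 2 * m)) := by
      rw [pow_add _ (2 * l + m + 3 * u)]
      ring

private theorem hfin_cond {ι κ κ' : Type*} (S : Finset ι) (f : ι → κ) (h : ι → κ') :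
    ent S (fun x => (f x, h x)) - ent S h = (∑ p ∈ S, ent (hfinT S h p) f) / S.card :=
  ent_cond S f h

set_option maxHeartbeats 1000000 in
/-- The main inequality for large windows.  Put `a = 2l+m`, `b = l+2m`,
`h p = px M (a+3u) b l m p`, `T_p` = fiber of `h` through `p`, `B p = pre M (b+3u) β % 2^(3u)`,
`C p = pre M (l+u) γ % 2^u`, `D p = pre M (m+u) δ % 2^u` (`pre_split`).  By `ent_cond`, `ent_congr` the
differences of `EE` are averages over `p ∈ S` of the entropies of `B`, `(C,D)`, `(B,(C,D))` on `T_p`.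
Put `ι_p = ent T_p B + ent T_p (C,D) - ent T_p (B,(C,D)) ≥ 0`; its average is
`I(B;CD|A,base) ≤ IABCD` (`EE_poly`, submodularity).  Take `η = 1/(16u²)`.
On `T_p` there are no true hits, so by `info` the product hit probability is `≤ ι_p`.  If
`ι_p < η/(2·2^r)` and `Gen3` holds for the prefixes, `HEnt` applies; otherwise use
`ent T_p (C,D) ≤ 2u` and `ent T_p B ≤ 3u`.  Average, with Markov for `ι_p`:
extra terms `2u(3u+1)η ≤ 1/2`, `2u P(¬Gen12) ≤ 2u Λ(162+20)/2^r ≤ 1`, `2u P(¬Gen3) ≤ 2uΛ64/2^u ≤ 1`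
(`prefix_prob`, `G1count`, `G2count`, `G3count`), `2u * 2·2^r IABCD/η = 64u³ 2^r IABCD`. -/
theorem Hfin {M r Λ lo hi : ℕ} {S : Finset Pt} (hS : Sys M r Λ lo hi S) (l m u : ℕ)
    (hP : Par l m u r) (hlo : lo ≤ l) (hlm : lo ≤ m) (hhi : l + m + 2 * u ≤ hi) (hM : 2 * hi ≤ M)
    (hΛ : 1 ≤ Λ) (h16 : 16 * u ^ 2 ≤ 2 ^ r) (h500 : 500 * u * Λ ≤ 2 ^ r)
    (h128 : 128 * u * Λ ≤ 2 ^ u) :
    EE M S (2 * l + m + 3 * u) (l + 2 * m) (l + u) (m + u) -
        EE M S (2 * l + m + 3 * u) (l + 2 * m) l m ≤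
      3 * u - (EE M S (2 * l + m + 3 * u) (l + 2 * m + 3 * u) l m -
        EE M S (2 * l + m + 3 * u) (l + 2 * m) l m) + (6 * r + 30) +
        64 * u ^ 3 * 2 ^ r * IABCD (EE M S) l m u := by
  classical
  have hSne := hfin_S_pos hS
  have hSc : (0 : ℝ) < S.card := by exact_mod_cast Finset.card_pos.2 hSne
  have hu1 : 1 ≤ u := by have := hP.ru; have := hP.r1; omega
  have hu0 : (0 : ℝ) < u := by exact_mod_cast hu1
  -- the functions
  obtain ⟨h, hh⟩ : ∃ h : Pt → ℕ × ℕ × ℕ × ℕ, h = px M (2 * l + m + 3 * u) (l + 2 * m) l m :=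
    ⟨_, rfl⟩
  obtain ⟨fB, hfB⟩ : ∃ f : Pt → ℕ, f = fun x => pre M (l + 2 * m + 3 * u) x.2.1 % 2 ^ (3 * u) :=
    ⟨_, rfl⟩
  obtain ⟨fC, hfC⟩ : ∃ f : Pt → ℕ × ℕ, f = fun x => (pre M (l + u) x.2.2.1 % 2 ^ u,
    pre M (m + u) x.2.2.2 % 2 ^ u) := ⟨_, rfl⟩
  have hhE : EE M S (2 * l + m + 3 * u) (l + 2 * m) l m = ent S h := by rw [hh]; rfl
  have e1 : EE M S (2 * l + m + 3 * u) (l + 2 * m) (l + u) (m + u) -
      EE M S (2 * l + m + 3 * u) (l + 2 * m) l m = (∑ p ∈ S, ent (hfinT S h p) fC) / S.card := by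
    rw [← hfin_cond, hhE]
    congr 1
    refine ent_congr S _ _ fun x _ y _ => ?_
    rw [hh, hfC]
    simp only [px, Prod.mk.injEq]
    have t1 := @hfin_pre_iff M l u x.2.2.1 y.2.2.1 (by omega)
    have t2 := @hfin_pre_iff M m u x.2.2.2 y.2.2.2 (by omega)
    rw [t1, t2]
    tauto
  have e2 : EE M S (2 * l + m + 3 * u) (l + 2 * m + 3 * u) l m -
      EE M S (2 * l + m + 3 * u) (l + 2 * m) l m = (∑ p ∈ S, ent (hfinT S h p) fB) / S.card := by
    rw [← hfin_cond, hhE]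
    congr 1
    refine ent_congr S _ _ fun x _ y _ => ?_
    rw [hh, hfB]
    simp only [px, Prod.mk.injEq]
    have t0 := @hfin_pre_iff M (l + 2 * m) (3 * u) x.2.1 y.2.1 (by omega)
    rw [t0]
    tauto
  have e3 : EE M S (2 * l + m + 3 * u) (l + 2 * m + 3 * u) (l + u) (m + u) -
      EE M S (2 * l + m + 3 * u) (l + 2 * m) l m =
      (∑ p ∈ S, ent (hfinT S h p) (fun x => (fB x, fC x))) / S.card := by
    rw [← hfin_cond, hhE]
    congr 1
    refine ent_congr S _ _ fun x _ y _ => ?_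
    rw [hh, hfB, hfC]
    simp only [px, Prod.mk.injEq]
    have t0 := @hfin_pre_iff M (l + 2 * m) (3 * u) x.2.1 y.2.1 (by omega)
    have t1 := @hfin_pre_iff M l u x.2.2.1 y.2.2.1 (by omega)
    have t2 := @hfin_pre_iff M m u x.2.2.2 y.2.2.2 (by omega)
    rw [t0, t1, t2]
    tauto
  -- the information
  have hI : (∑ p ∈ S, (ent (hfinT S h p) fB + ent (hfinT S h p) fC -
      ent (hfinT S h p) (fun x => (fB x, fC x)))) / S.card ≤ IABCD (EE M S) l m u := by
    have hsub := (EE_poly hS hΛ).sub (2 * l + m + 3 * u) (l + 2 * m) l m (2 * l + m) (l + 2 * m)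
      (l + u) (m + u)
    rw [max_eq_left (by omega), max_self, max_eq_right (by omega), max_eq_right (by omega),
      min_eq_right (by omega), min_self, min_eq_left (by omega), min_eq_left (by omega)] at hsub
    rw [Finset.sum_sub_distrib, Finset.sum_add_distrib, sub_div, add_div, ← e1, ← e2, ← e3]
    unfold IABCD GG
    linarith
  obtain ⟨τ, hτ⟩ : ∃ τ : ℝ, τ = 1 / (16 * (u : ℝ) ^ 2) / (2 * 2 ^ r) := ⟨_, rfl⟩
  have hτ0 : 0 < τ := by rw [hτ]; positivity
  obtain ⟨io, hio⟩ : ∃ io : Pt → ℝ, io = fun p => ent (hfinT S h p) fB + ent (hfinT S h p) fC -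
      ent (hfinT S h p) (fun x => (fB x, fC x)) := ⟨_, rfl⟩
  have hTne : ∀ p ∈ S, (hfinT S h p).Nonempty := fun p hp => ⟨p, hfin_mem.2 ⟨hp, rfl⟩⟩
  have hio0 : ∀ p ∈ S, 0 ≤ io p := fun p hp => by
    rw [hio]; exact hfin_info_nonneg (hTne p hp) fB fC
  -- the pointwise estimate
  have hpt : ∀ p ∈ S, ent (hfinT S h p) fC ≤ 3 * u - ent (hfinT S h p) fB + 6 * r + 20 + 1 / 2 +
      2 * u * ((((hfinT S h p).filter fun x : Pt => ¬ Gen12 l m u r
        (pre M (2 * l + m + 3 * u) x.1) (pre M (l + 2 * m + 3 * u) x.2.1)).card : ℝ) /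
          (hfinT S h p).card) +
      2 * u * ((if ¬ Gen3 l m u (pre M (2 * l + m + 3 * u) p.1) (pre M (l + 2 * m) p.2.1)
        then (1 : ℝ) else 0) + (if τ ≤ io p then (1 : ℝ) else 0)) := by
    intro p hp
    have hq := hfin_point hS l m u hP hlo hlm hhi hM h16 (hfinT S h p) (hTne p hp)
      (fun x hx => (hfin_mem.1 hx).1) p (fun x hx => by
        have e := (hfin_mem.1 hx).2
        rw [hh] at e
        exact e)
      ((if ¬ Gen3 l m u (pre M (2 * l + m + 3 * u) p.1) (pre M (l + 2 * m) p.2.1)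
        then (1 : ℝ) else 0) + (if τ ≤ io p then (1 : ℝ) else 0)) (by positivity)
      ((((hfinT S h p).filter fun x : Pt => ¬ Gen12 l m u r
        (pre M (2 * l + m + 3 * u) x.1) (pre M (l + 2 * m + 3 * u) x.2.1)).card : ℝ) /
          (hfinT S h p).card) (by positivity) (by
            intro inst
            congr 3
            ext x
            simp only [Finset.mem_filter])
      (by
        intro hX
        by_cases hg : Gen3 l m u (pre M (2 * l + m + 3 * u) p.1) (pre M (l + 2 * m) p.2.1)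
        · refine ⟨hg, ?_⟩
          by_cases ht : τ ≤ io p
          · rw [if_pos ht] at hX
            have : (0 : ℝ) ≤ (if ¬ Gen3 l m u (pre M (2 * l + m + 3 * u) p.1)
              (pre M (l + 2 * m) p.2.1) then (1 : ℝ) else 0) := by positivity
            linarith
          · rw [not_le, hio, hτ, hfB, hfC] at ht
            exact ht
        · rw [if_pos hg] at hX
          have : (0 : ℝ) ≤ (if τ ≤ io p then (1 : ℝ) else 0) := by positivity
          linarith)
    rw [hfB, hfC]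
    exact hq
  -- averages
  have hsum := Finset.sum_le_sum hpt
  simp only [Finset.sum_add_distrib, Finset.sum_sub_distrib, Finset.sum_const, nsmul_eq_mul,
    ← Finset.mul_sum] at hsum
  rw [hfin_dc] at hsum
  have h12 := hfin_gen12 hS l m u hP hhi hM
  have h3 := hfin_gen3 hS l m u hP hhi hM
  have hmk := hfin_markov S io hio0 τ hτ0 (fun p => τ ≤ io p) (fun p _ hp => hp)
  rw [Finset.card_filter, Nat.cast_sum] at h3 hmk
  push_cast at h3 hmk
  have hIs : (∑ p ∈ S, io p) ≤ IABCD (EE M S) l m u * S.card := by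
    rw [div_le_iff₀ hSc] at hI
    rw [hio]
    exact hI
  have hb12 : 2 * (u : ℝ) * (Λ * S.card * (182 / 2 ^ r)) ≤ S.card := by
    have h5 : (500 : ℝ) * u * Λ ≤ 2 ^ r := by exact_mod_cast h500
    have e : 2 * (u : ℝ) * (Λ * S.card * (182 / 2 ^ r)) = S.card * (364 * u * Λ / 2 ^ r) := by ring
    rw [e]
    have h6 : 364 * (u : ℝ) * Λ / 2 ^ r ≤ 1 := by
      rw [div_le_one (by positivity)]
      have : 0 ≤ (u : ℝ) * Λ := by positivity
      linarith
    nlinarith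
  have hb3 : 2 * (u : ℝ) * (Λ * S.card * (64 / 2 ^ u)) ≤ S.card := by
    have h5 : (128 : ℝ) * u * Λ ≤ 2 ^ u := by exact_mod_cast h128
    have e : 2 * (u : ℝ) * (Λ * S.card * (64 / 2 ^ u)) = S.card * (128 * u * Λ / 2 ^ u) := by ring
    rw [e]
    have h6 : 128 * (u : ℝ) * Λ / 2 ^ u ≤ 1 := by
      rw [div_le_one (by positivity)]
      exact h5
    nlinarith
  have hbt : 2 * (u : ℝ) * ((∑ p ∈ S, io p) / τ) ≤
      64 * u ^ 3 * 2 ^ r * IABCD (EE M S) l m u * S.card := by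
    have e : 2 * (u : ℝ) * ((∑ p ∈ S, io p) / τ) = 64 * u ^ 3 * 2 ^ r * (∑ p ∈ S, io p) := by
      rw [hτ]
      field_simp
      ring
    rw [e]
    have : 64 * (u : ℝ) ^ 3 * 2 ^ r * (∑ p ∈ S, io p) ≤
      64 * (u : ℝ) ^ 3 * 2 ^ r * (IABCD (EE M S) l m u * S.card) := by gcongr
    linarith
  have hm12 := mul_le_mul_of_nonneg_left h12 (by positivity : 0 ≤ 2 * (u : ℝ))
  have hm3 := mul_le_mul_of_nonneg_left h3 (by positivity : 0 ≤ 2 * (u : ℝ))
  have hmm := mul_le_mul_of_nonneg_left hmk (by positivity : 0 ≤ 2 * (u : ℝ))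
  rw [e1, e2, div_le_iff₀ hSc]
  have hgoal : (3 * (u : ℝ) - (∑ p ∈ S, ent (hfinT S h p) fB) / S.card + (6 * r + 30) +
      64 * u ^ 3 * 2 ^ r * IABCD (EE M S) l m u) * S.card =
      3 * (u : ℝ) * S.card - (∑ p ∈ S, ent (hfinT S h p) fB) + (6 * r + 30) * S.card +
      64 * u ^ 3 * 2 ^ r * IABCD (EE M S) l m u * S.card := by
    field_simp
  rw [hgoal]
  nlinarith [hsum, hm12, hm3, hmm, hb12, hb3, hbt]

end MP_5e4520_nt

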