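import Pool.Agent.Lib.MP_5e4520_nt.Ent

set_option autoImplicit false

namespace MP_5e4520_nt

open Finset

private theorem eepoly_pre_div (M a a' x : ℕ) (h : a ≤ a') :
    pre M a x = pre M a' x / 2 ^ ((M - a) - (M - a')) := by
  unfold pre
  rw [Nat.div_div_eq_div_mul, ← pow_add]
  congr 2
  omega

private theorem eepoly_pre_det (M a a' x y : ℕ) (h : a ≤ a') (e : pre M a' x = pre M a' y) :
    pre M a x = pre M a y := by
  rw [eepoly_pre_div M a a' x h, eepoly_pre_div M a a' y h, e]

private theorem eepoly_px_iff (M a b c d : ℕ) (p q : Pt) :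
    px M a b c d p = px M a b c d q ↔ (pre M a p.1 = pre M a q.1 ∧
      pre M b p.2.1 = pre M b q.2.1 ∧ pre M c p.2.2.1 = pre M c q.2.2.1 ∧
      pre M d p.2.2.2 = pre M d q.2.2.2) := by
  unfold px
  simp only [Prod.mk.injEq]

private theorem eepoly_px_det (M a b c d a' b' c' d' : ℕ) (ha : a ≤ a') (hb : b ≤ b')
    (hc : c ≤ c') (hd : d ≤ d') (p q : Pt) (e : px M a' b' c' d' p = px M a' b' c' d' q) :
    px M a b c d p = px M a b c d q := by
  rw [eepoly_px_iff] at e ⊢
  exact ⟨eepoly_pre_det _ _ _ _ _ ha e.1, eepoly_pre_det _ _ _ _ _ hb e.2.1,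
    eepoly_pre_det _ _ _ _ _ hc e.2.2.1, eepoly_pre_det _ _ _ _ _ hd e.2.2.2⟩

private theorem eepoly_pre_max (M a a' x y : ℕ) (h : pre M a x = pre M a y)
    (h' : pre M a' x = pre M a' y) : pre M (max a a') x = pre M (max a a') y := by
  rcases le_total a a' with hh | hh
  · rw [max_eq_right hh]; exact h'
  · rw [max_eq_left hh]; exact h

private theorem eepoly_px_max (M a b c d a' b' c' d' : ℕ) (p q : Pt)
    (h : px M a b c d p = px M a b c d q) (h' : px M a' b' c' d' p = px M a' b' c' d' q) :
    px M (max a a') (max b b') (max c c') (max d d') p =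
      px M (max a a') (max b b') (max c c') (max d d') q := by
  rw [eepoly_px_iff] at h h' ⊢
  exact ⟨eepoly_pre_max _ _ _ _ _ h.1 h'.1, eepoly_pre_max _ _ _ _ _ h.2.1 h'.2.1,
    eepoly_pre_max _ _ _ _ _ h.2.2.1 h'.2.2.1, eepoly_pre_max _ _ _ _ _ h.2.2.2 h'.2.2.2⟩

/-- values of the longer prefix over a value of the shorter one -/
private theorem eepoly_pre_ext (M a x n : ℕ) :
    ∃ i < 2 ^ x, pre M (a + x) n = pre M a n * 2 ^ ((M - a) - (M - (a + x))) + i := by
  refine ⟨pre M (a + x) n % 2 ^ ((M - a) - (M - (a + x))), ?_, ?_⟩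
  · refine lt_of_lt_of_le (Nat.mod_lt _ (by positivity)) ?_
    exact Nat.pow_le_pow_right (by norm_num) (by omega)
  · rw [eepoly_pre_div M a (a + x) n (Nat.le_add_right _ _)]
    exact (Nat.div_add_mod' _ _).symm

open Classical in
private theorem eepoly_image_card (M a b c d x y z t : ℕ) (S : Finset Pt) (p : Pt) :
    ((S.filter (fun q => px M a b c d q = px M a b c d p)).image
      (px M (a + x) (b + y) (c + z) (d + t))).card ≤ 2 ^ (x + y + z + t) := by
  have hsub : ((S.filter (fun q => px M a b c d q = px M a b c d p)).image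
      (px M (a + x) (b + y) (c + z) (d + t))) ⊆
      ((range (2 ^ x) ×ˢ (range (2 ^ y) ×ˢ (range (2 ^ z) ×ˢ range (2 ^ t)))).image
        (fun i : ℕ × ℕ × ℕ × ℕ =>
          ((pre M a p.1 * 2 ^ ((M - a) - (M - (a + x))) + i.1,
            pre M b p.2.1 * 2 ^ ((M - b) - (M - (b + y))) + i.2.1,
            pre M c p.2.2.1 * 2 ^ ((M - c) - (M - (c + z))) + i.2.2.1,
            pre M d p.2.2.2 * 2 ^ ((M - d) - (M - (d + t))) + i.2.2.2) : Pt))) := by
    intro v hv
    rw [mem_image] at hv
    obtain ⟨q, hq, rfl⟩ := hv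
    rw [mem_filter, eepoly_px_iff] at hq
    obtain ⟨_, h1, h2, h3, h4⟩ := hq
    obtain ⟨i, hi, ei⟩ := eepoly_pre_ext M a x q.1
    obtain ⟨j, hj, ej⟩ := eepoly_pre_ext M b y q.2.1
    obtain ⟨k, hk, ek⟩ := eepoly_pre_ext M c z q.2.2.1
    obtain ⟨l, hl, el⟩ := eepoly_pre_ext M d t q.2.2.2
    rw [mem_image]
    refine ⟨(i, j, k, l), ?_, ?_⟩
    · simp only [mem_product, mem_range]
      exact ⟨hi, hj, hk, hl⟩
    · unfold px
      rw [ei, ej, ek, el, h1, h2, h3, h4]
  refine le_trans (card_le_card hsub) (le_trans card_image_le ?_)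
  rw [card_product, card_product, card_product, card_range, card_range, card_range, card_range,
    pow_add, pow_add, pow_add]
  apply le_of_eq
  ring

private theorem eepoly_nonempty {M r Λ lo hi : ℕ} {S : Finset Pt} (hS : Sys M r Λ lo hi S) :
    S.Nonempty := by
  rw [nonempty_iff_ne_empty]
  intro h
  have := hS.card
  rw [h] at this
  simp at this

/-- The entropy of prefixes has the abstract properties `Poly`.
Facts on prefixes (for `x < 2^M`): for `a ≤ a'`, `pre M a x` is a function of `pre M a' x`
(`pre M a x = pre M a' x / 2^(M - a - (M - a'))`), and for given `pre M a x` the value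
`pre M (a+k) x` takes at most `2^k` values; `pre M 0 x = 0`.
* mono: `ent_le_of_det`.
* sub: `ent_sub` with `h` = the four prefixes at the minimum, `f` = prefixes at `(a,b,c,d)`,
  `g` = prefixes at `(a',b',c',d')` plus `ent_congr`
  (`(f,g,h)` is equivalent to the prefixes at the maximum).
* lip: `ent_lip` (with `k = 2^(x+y+z+t)`).
* zero: everything is constant.
* low: for `a, b ≤ M` the fiber of the two prefixes has at most `2^(M-a) * 2^(M-b)` elements, as
  `(α, β)` determines the point; this is `4^M/2^(a+b) ≤ Λ |S|/2^(a+b)`; use `ent_ge`. -/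
theorem EE_poly {M r Λ lo hi : ℕ} {S : Finset Pt} (hS : Sys M r Λ lo hi S) (hΛ : 1 ≤ Λ) :
    Poly (EE M S) (Real.logb 2 Λ) M := by
  classical
  have hne := eepoly_nonempty hS
  refine ⟨?_, ?_, ?_, ?_, ?_, ?_⟩
  · intro a b c d a' b' c' d' ha hb hc hd
    exact ent_le_of_det S _ _ fun x _ y _ e => eepoly_px_det _ _ _ _ _ _ _ _ _ ha hb hc hd x y e
  · intro a b c d a' b' c' d'
    have h1 := ent_sub S (px M a b c d) (px M a' b' c' d')
      (px M (min a a') (min b b') (min c c') (min d d'))
    have e1 : ent S (fun x => (px M a b c d x, px M a' b' c' d' x,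
        px M (min a a') (min b b') (min c c') (min d d') x)) =
        ent S (px M (max a a') (max b b') (max c c') (max d d')) := by
      apply ent_congr
      intro x _ y _
      simp only [Prod.mk.injEq]
      constructor
      · rintro ⟨h, h', _⟩
        exact eepoly_px_max _ _ _ _ _ _ _ _ _ x y h h'
      · intro h
        exact ⟨eepoly_px_det _ _ _ _ _ _ _ _ _ (le_max_left _ _) (le_max_left _ _)
            (le_max_left _ _) (le_max_left _ _) x y h,
          eepoly_px_det _ _ _ _ _ _ _ _ _ (le_max_right _ _) (le_max_right _ _)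
            (le_max_right _ _) (le_max_right _ _) x y h,
          eepoly_px_det _ _ _ _ _ _ _ _ _ (min_le_max) (min_le_max)
            (min_le_max) (min_le_max) x y h⟩
    have e2 : ent S (fun x => (px M a b c d x,
        px M (min a a') (min b b') (min c c') (min d d') x)) = ent S (px M a b c d) := by
      apply ent_congr
      intro x _ y _
      simp only [Prod.mk.injEq]
      constructor
      · rintro ⟨h, _⟩
        exact h
      · intro h
        exact ⟨h, eepoly_px_det _ _ _ _ _ _ _ _ _ (min_le_left _ _) (min_le_left _ _)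
            (min_le_left _ _) (min_le_left _ _) x y h⟩
    have e3 : ent S (fun x => (px M a' b' c' d' x,
        px M (min a a') (min b b') (min c c') (min d d') x)) = ent S (px M a' b' c' d') := by
      apply ent_congr
      intro x _ y _
      simp only [Prod.mk.injEq]
      constructor
      · rintro ⟨h, _⟩
        exact h
      · intro h
        exact ⟨h, eepoly_px_det _ _ _ _ _ _ _ _ _ (min_le_right _ _) (min_le_right _ _)
            (min_le_right _ _) (min_le_right _ _) x y h⟩
    rw [e1, e2, e3] at h1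
    exact h1
  · intro a b c d x y z t
    have h1 := ent_lip hne (px M a b c d) (px M (a + x) (b + y) (c + z) (d + t))
      (2 ^ (x + y + z + t)) (fun p _ => by
        refine le_trans (le_of_eq ?_) (eepoly_image_card M a b c d x y z t S p)
        congr
        funext u v
        exact Subsingleton.elim _ _)
    have e1 : ent S (fun q => (px M a b c d q, px M (a + x) (b + y) (c + z) (d + t) q)) =
        ent S (px M (a + x) (b + y) (c + z) (d + t)) := by
      apply ent_congr
      intro p _ q _
      simp only [Prod.mk.injEq]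
      constructor
      · rintro ⟨_, h⟩
        exact h
      · intro h
        exact ⟨eepoly_px_det _ _ _ _ _ _ _ _ _ (Nat.le_add_right _ _) (Nat.le_add_right _ _)
          (Nat.le_add_right _ _) (Nat.le_add_right _ _) p q h, h⟩
    have e2 : Real.logb 2 ((2 ^ (x + y + z + t) : ℕ) : ℝ) = (x + y + z + t : ℝ) := by
      push_cast
      rw [Real.logb_pow, Real.logb_self_eq_one (by norm_num)]
      push_cast
      ring
    rw [e1, e2] at h1
    exact h1
  · have h1 : ent S (px M 0 0 0 0) ≤ Real.logb 2 (({((0, 0, 0, 0) : Pt)} : Finset Pt).card : ℕ) := by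
      apply ent_le_of_card hne
      intro p hp
      obtain ⟨h1, h2, h3, h4⟩ := hS.rng p hp
      rw [mem_singleton]
      unfold px pre
      simp only [Nat.sub_zero, Nat.div_eq_of_lt h1, Nat.div_eq_of_lt h2, Nat.div_eq_of_lt h3,
        Nat.div_eq_of_lt h4]
    rw [card_singleton] at h1
    simp only [Nat.cast_one, Real.logb_one] at h1
    exact le_antisymm h1 (ent_nonneg _ _)
  · intro a b ha hb
    have hΛ0 : (0 : ℝ) < Λ := by exact_mod_cast hΛ
    apply ent_ge hne
    intro p hp
    -- the fiber
    have hfib : ((S.filter (fun x => px M a b 0 0 x = px M a b 0 0 p)).card) ≤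
        2 ^ (M - a) * 2 ^ (M - b) := by
      have hinj : (S.filter (fun x => px M a b 0 0 x = px M a b 0 0 p)).card ≤
          (range (2 ^ (M - a)) ×ˢ range (2 ^ (M - b))).card := by
        apply card_le_card_of_injOn (fun x : Pt => (x.1 % 2 ^ (M - a), x.2.1 % 2 ^ (M - b)))
        · intro x _
          simp only [coe_product, coe_range, Set.mem_prod, Set.mem_Iio]
          exact ⟨Nat.mod_lt _ (by positivity), Nat.mod_lt _ (by positivity)⟩
        · intro x hx y hy e
          rw [mem_coe, mem_filter, eepoly_px_iff] at hx hy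
          simp only [Prod.mk.injEq] at e
          obtain ⟨hxS, hx1, hx2, _⟩ := hx
          obtain ⟨hyS, hy1, hy2, _⟩ := hy
          have e1 : x.1 = y.1 := by
            rw [← Nat.div_add_mod x.1 (2 ^ (M - a)), ← Nat.div_add_mod y.1 (2 ^ (M - a)), e.1]
            have : x.1 / 2 ^ (M - a) = y.1 / 2 ^ (M - a) := by
              have := hx1.trans hy1.symm
              unfold pre at this
              exact this
            rw [this]
          have e2 : x.2.1 = y.2.1 := by
            rw [← Nat.div_add_mod x.2.1 (2 ^ (M - b)), ← Nat.div_add_mod y.2.1 (2 ^ (M - b)), e.2]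
            have : x.2.1 / 2 ^ (M - b) = y.2.1 / 2 ^ (M - b) := by
              have := hx2.trans hy2.symm
              unfold pre at this
              exact this
            rw [this]
          exact hS.inj x hxS y hyS e1 e2
      rw [card_product, card_range, card_range] at hinj
      exact hinj
    have hcard : ((4 : ℝ) ^ M) ≤ Λ * S.card := by exact_mod_cast hS.card
    have h2t : (2 : ℝ) ^ ((a : ℝ) + b - Real.logb 2 Λ) = 2 ^ a * 2 ^ b / Λ := by
      rw [Real.rpow_sub (by norm_num), Real.rpow_add (by norm_num), Real.rpow_natCast,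
        Real.rpow_natCast, Real.rpow_logb (by norm_num) (by norm_num) hΛ0]
    rw [h2t, div_div_eq_mul_div]
    suffices key : (((S.filter (fun x => px M a b 0 0 x = px M a b 0 0 p)).card : ℕ) : ℝ) ≤
        (S.card : ℝ) * Λ / (2 ^ a * 2 ^ b) by
      refine le_trans (le_of_eq ?_) key
      congr
    rw [le_div_iff₀ (by positivity)]
    have hpow : ((2 : ℝ) ^ (M - a) * 2 ^ (M - b)) * (2 ^ a * 2 ^ b) = 4 ^ M := by
      have h1 : (2 : ℝ) ^ (M - a) * 2 ^ a = 2 ^ M := by
        rw [← pow_add]; congr 1; omega
      have h2 : (2 : ℝ) ^ (M - b) * 2 ^ b = 2 ^ M := by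
        rw [← pow_add]; congr 1; omega
      calc ((2 : ℝ) ^ (M - a) * 2 ^ (M - b)) * (2 ^ a * 2 ^ b)
          = ((2 : ℝ) ^ (M - a) * 2 ^ a) * (2 ^ (M - b) * 2 ^ b) := by ring
        _ = 2 ^ M * 2 ^ M := by rw [h1, h2]
        _ = 4 ^ M := by rw [← mul_pow]; norm_num
    have hfib' : (((S.filter (fun x => px M a b 0 0 x = px M a b 0 0 p)).card : ℕ) : ℝ) ≤
        (2 : ℝ) ^ (M - a) * 2 ^ (M - b) := by exact_mod_cast hfib
    calc (((S.filter (fun x => px M a b 0 0 x = px M a b 0 0 p)).card : ℕ) : ℝ) * (2 ^ a * 2 ^ b)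
        ≤ ((2 : ℝ) ^ (M - a) * 2 ^ (M - b)) * (2 ^ a * 2 ^ b) :=
          mul_le_mul_of_nonneg_right hfib' (by positivity)
      _ = 4 ^ M := hpow
      _ ≤ Λ * S.card := hcard
      _ = S.card * Λ := by ring
  · apply Real.logb_nonneg (by norm_num)
    exact_mod_cast hΛ

end MP_5e4520_nt
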