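import Pool.Agent.Lib.MP_5e4520_nt.USet
import Pool.Agent.Lib.MP_5e4520_nt.EEPoly

set_option autoImplicit false

namespace MP_5e4520_nt

open Finset

private theorem fent_pre {M a k x : ℕ} (h : a + k ≤ M) :
    pre M a x = pre M (a + k) x / 2 ^ k := by
  unfold pre
  rw [Nat.div_div_eq_div_mul, ← pow_add]
  congr 2
  omega

open Classical in
/-- Final entropy estimate.  Fibers `T` of `px M a b_I (l+s) (m+6sI)`; `U_I` is constant on `T` and the
block `A(x) = pre M (a+3s) α % 2^(3s)` is not in `U_I` (`Uset_true`); if `2|U_I| > 2^(3s)` then `A` takes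
at most `2^(3s)/2` values on `T`, so `ent T A ≤ 3s - 1` (`ent_le_of_card`).  Average (`ent_cond`):
`DAst = avg (3s - ent T_x A) ≥ P(2|U_I| > 2^(3s))`. -/
theorem fin_ent {M r Λ lo hi : ℕ} {S : Finset Pt} (hS : Sys M r Λ lo hi S) (l m s I : ℕ)
    (hl : 3 * s * I + lo ≤ l) (hm : lo ≤ m) (hhi : l + m + 3 * s * I + 2 * s ≤ hi) (hM : 2 * hi ≤ M) :
    ((S.filter (fun x => 2 ^ (3 * s) < 2 * (Uset M l m s r I x).card)).card : ℝ) / S.card ≤
      DAst (EE M S) l m s I := by
  have hMb : 2 * l + m + 3 * s ≤ M := by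
    have : 2 * (l + m + 3 * s * I + 2 * s) ≤ M := le_trans (Nat.mul_le_mul_left 2 hhi) hM
    nlinarith [Nat.zero_le (3 * s * I)]
  rcases S.eq_empty_or_nonempty with hSe | hSne
  · subst hSe
    simp [DAst, EE, ent]
  have hn0 : (0 : ℝ) < S.card := by exact_mod_cast card_pos.2 hSne
  set h : Pt → Pt := px M (2 * l + m) (l + 2 * m + 9 * s * I) (l + s) (m + 6 * s * I) with hh
  set f : Pt → ℕ := fun x => pre M (2 * l + m + 3 * s) x.1 % 2 ^ (3 * s) with hf
  have e1 : ent S (px M (2 * l + m + 3 * s) (l + 2 * m + 9 * s * I) (l + s) (m + 6 * s * I)) =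
      ent S (fun x => (f x, h x)) := by
    refine ent_congr S _ _ fun x _ y _ => ?_
    simp only [hf, hh, px, Prod.mk.injEq]
    rw [fent_pre (M := M) (a := 2 * l + m) (k := 3 * s) (x := x.1) hMb,
      fent_pre (M := M) (a := 2 * l + m) (k := 3 * s) (x := y.1) hMb]
    constructor
    · rintro ⟨h1, h2⟩
      rw [h1]
      exact ⟨rfl, rfl, h2⟩
    · rintro ⟨h1, h2, h3⟩
      refine ⟨?_, h3⟩
      rw [← Nat.div_add_mod (pre M (2 * l + m + 3 * s) x.1) (2 ^ (3 * s)), h1, h2, Nat.div_add_mod]
  have e2 : ent S (fun x => (f x, h x)) - ent S h =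
      (∑ p ∈ S, ent (S.filter (fun x => h x = h p)) f) / S.card := by
    have e4 := ent_cond S f h
    convert e4
  have e3 : DAst (EE M S) l m s I = 3 * s - (ent S (fun x => (f x, h x)) - ent S h) := by
    unfold DAst EE
    rw [e1]
  rw [e3, e2]
  -- pointwise
  have hpt : ∀ p ∈ S, (if 2 ^ (3 * s) < 2 * (Uset M l m s r I p).card then (1 : ℝ) else 0) ≤
      3 * s - ent (S.filter (fun x => h x = h p)) f := by
    intro p hp
    have hTne : (S.filter (fun x => h x = h p)).Nonempty := ⟨p, mem_filter.2 ⟨hp, rfl⟩⟩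
    have hmem : ∀ x ∈ S.filter (fun x => h x = h p), f x ∈ range (2 ^ (3 * s)) \ Uset M l m s r I p := by
      intro x hx
      rw [mem_filter] at hx
      rw [mem_sdiff, mem_range]
      refine ⟨Nat.mod_lt _ (by positivity), ?_⟩
      rw [← Uset_congr M l m s r I x p hx.2]
      exact Uset_true hS l m s I hl hm hhi hM x hx.1
    have h1 := ent_le_of_card hTne f _ hmem
    have hsub : Uset M l m s r I p ⊆ range (2 ^ (3 * s)) := filter_subset _ _
    have hcard : (range (2 ^ (3 * s)) \ Uset M l m s r I p).card =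
        2 ^ (3 * s) - (Uset M l m s r I p).card := by
      rw [card_sdiff_of_subset hsub, card_range]
    have hle : (Uset M l m s r I p).card ≤ 2 ^ (3 * s) := by
      have := card_le_card hsub
      rwa [card_range] at this
    have hpos : 0 < (range (2 ^ (3 * s)) \ Uset M l m s r I p).card := by
      obtain ⟨x, hx⟩ := hTne
      exact card_pos.2 ⟨_, hmem x hx⟩
    have hpos' : (0 : ℝ) < ((range (2 ^ (3 * s)) \ Uset M l m s r I p).card : ℝ) := by
      exact_mod_cast hpos
    split_ifs with hc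
    · have h2 : ((range (2 ^ (3 * s)) \ Uset M l m s r I p).card : ℝ) ≤ 2 ^ (3 * s) / 2 := by
        rw [le_div_iff₀ (by norm_num)]
        have : (range (2 ^ (3 * s)) \ Uset M l m s r I p).card * 2 ≤ 2 ^ (3 * s) := by
          rw [hcard]; omega
        exact_mod_cast this
      have h3 : Real.logb 2 ((range (2 ^ (3 * s)) \ Uset M l m s r I p).card : ℝ) ≤
          Real.logb 2 (2 ^ (3 * s) / 2) :=
        Real.logb_le_logb_of_le (by norm_num) hpos' h2
      rw [Real.logb_div (by positivity) (by norm_num), Real.logb_pow,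
        Real.logb_self_eq_one (by norm_num)] at h3
      push_cast at h3
      linarith
    · have h2 : ((range (2 ^ (3 * s)) \ Uset M l m s r I p).card : ℝ) ≤ 2 ^ (3 * s) := by
        have : (range (2 ^ (3 * s)) \ Uset M l m s r I p).card ≤ 2 ^ (3 * s) := by
          rw [hcard]; omega
        exact_mod_cast this
      have h3 : Real.logb 2 ((range (2 ^ (3 * s)) \ Uset M l m s r I p).card : ℝ) ≤
          Real.logb 2 (2 ^ (3 * s)) :=
        Real.logb_le_logb_of_le (by norm_num) hpos' h2
      rw [Real.logb_pow, Real.logb_self_eq_one (by norm_num)] at h3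
      push_cast at h3
      linarith
  have hsum := sum_le_sum hpt
  rw [sum_sub_distrib, sum_const, nsmul_eq_mul] at hsum
  have hL : ∑ p ∈ S, (if 2 ^ (3 * s) < 2 * (Uset M l m s r I p).card then (1 : ℝ) else 0) =
      ((S.filter (fun x => 2 ^ (3 * s) < 2 * (Uset M l m s r I x).card)).card : ℝ) := by
    rw [card_filter, Nat.cast_sum]
    refine sum_congr rfl fun q _ => ?_
    split_ifs <;> simp
  rw [hL] at hsum
  rw [div_le_iff₀ hn0, sub_mul, div_mul_cancel₀ _ hn0.ne']
  linarith

end MP_5e4520_nt
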