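import Pool.Agent.Lib.MP_5e4520_nt.Grow
import Pool.Agent.Lib.MP_5e4520_nt.FEnt

set_option autoImplicit false

namespace MP_5e4520_nt

open Finset

/-- Cauchy-Schwarz for a sum of square roots. -/
theorem lfin_sqrt_sum (I : ℕ) (f : ℕ → ℝ) (hf : ∀ p < I, 0 ≤ f p) (c : ℝ) (hc : 0 ≤ c)
    (h : (∑ p ∈ range I, f p) / I ≤ c ^ 2) :
    ∑ p ∈ range I, Real.sqrt (f p) ≤ I * c := by
  rcases Nat.eq_zero_or_pos I with h0 | h0
  · subst h0
    simp
  have hI : (0 : ℝ) < I := by exact_mod_cast h0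
  have h1 : (∑ p ∈ range I, Real.sqrt (f p)) ^ 2 ≤ (I * c) ^ 2 := by
    have h2 : (∑ p ∈ range I, Real.sqrt (f p)) ^ 2 ≤
        (range I).card * ∑ p ∈ range I, Real.sqrt (f p) ^ 2 := sq_sum_le_card_mul_sum_sq
    have h3 : ∑ p ∈ range I, Real.sqrt (f p) ^ 2 = ∑ p ∈ range I, f p :=
      Finset.sum_congr rfl fun p hp => Real.sq_sqrt (hf p (Finset.mem_range.1 hp))
    rw [h3, Finset.card_range] at h2
    rw [div_le_iff₀ hI] at h
    calc (∑ p ∈ range I, Real.sqrt (f p)) ^ 2 ≤ I * ∑ p ∈ range I, f p := h2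
      _ ≤ I * (c ^ 2 * I) := by
        exact mul_le_mul_of_nonneg_left h hI.le
      _ = (I * c) ^ 2 := by ring
  exact le_of_sq_le_sq h1 (mul_nonneg hI.le hc)

open Classical in
/-- Contradiction along a good row.  Sum `grow` over `p < I`: total growth `≤ 1`.  Let
`P = P(2|U_I| ≤ 2^(3s))`; `P(2|U_p| ≤ 2^(3s), LGen_p) ≥ P - 1/8`.  With `g1 = 1/(2^(16+r)G)`:
`I (g1/2)(P - 1/8) ≤ 1 + τ ∑ √Bst_p ≤ 1 + τ I √(avg Bst)`, `τ = 750·2^16 G²/2^r`,
`τ √(1/(2^94 G^6)) = 750·2^16/(2^47 G 2^r) ≤ g1/16`, `1/I ≤ g1/8`.  So `P ≤ 1/2` and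
`fin_ent` gives `DAst ≥ 1/2`. -/
theorem Lfin {M r Λ lo hi : ℕ} {S : Finset Pt} (hS : Sys M r Λ lo hi S) (l m s G I : ℕ)
    (hP : ∀ j ≤ I, ParS (l - 3 * s * j) (m + 6 * s * j) s r) (hG : 0 < G)
    (hl : 3 * s * I + lo ≤ l) (hm : lo ≤ m) (hhi : l + m + 3 * s * I + 2 * s ≤ hi) (hM : 2 * hi ≤ M)
    (hI : 2 ^ (19 + r) * G ≤ I)
    (hgen : ∀ p < I, ((S.filter (fun x => ¬ LGen (l - 3 * s * p) (m + 6 * s * p) s r G
      (pre M (2 * l + m) x.1) (pre M (l + 2 * m + 9 * s * p) x.2.1))).card : ℝ) ≤ S.card / 8)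
    (hB0 : ∀ p < I, 0 ≤ Bst (EE M S) l m s p)
    (hB : (∑ p ∈ range I, Bst (EE M S) l m s p) / I ≤ 1 / (2 ^ 94 * (G : ℝ) ^ 6))
    (hA : DAst (EE M S) l m s I < 1 / 2) : False := by
  have hN0 : 0 < S.card := by
    rcases Nat.eq_zero_or_pos S.card with h | h
    · have h1 := hS.card
      rw [h, mul_zero] at h1
      exact absurd h1 (not_le.2 (by positivity))
    · exact h
  have hN : (0 : ℝ) < S.card := by exact_mod_cast hN0
  have hG' : (0 : ℝ) < G := by exact_mod_cast hG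
  set U : ℕ → Pt → ℕ := fun p x => (Uset M l m s r p x).card with hU
  -- the complement of the final event
  have hfin := fin_ent hS l m s I hl hm hhi hM
  have hmono : ∀ x, ∀ p ≤ I, U p x ≤ U I x := by
    intro x p hp
    refine Finset.card_le_card ?_
    refine monotone_nat_of_le_succ (f := fun p => Uset M l m s r p x) (fun n => ?_) hp
    exact Uset_mono M l m s r n x
  have hle : ∀ x p, U p x ≤ 2 ^ (3 * s) := by
    intro x p
    have h := Finset.card_filter_le (range (2 ^ (3 * s))) (fun A => ∃ j < p,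
      Hit (l - 3 * s * j) (m + 6 * s * j) s r
      (pre M (2 * l + m) x.1 * 2 ^ (3 * s) + A) (pre M (l + 2 * m + 9 * s * j + 3 * s) x.2.1)
      (pre M (l - 3 * s * j + s) x.2.2.1) (pre M (m + 6 * s * j + s) x.2.2.2))
    rw [Finset.card_range] at h
    exact h
  -- lower bound for the number of good points
  have hgood : ∀ p < I, 3 / 8 ≤ (((S.filter (fun x => 2 * (Uset M l m s r p x).card ≤ 2 ^ (3 * s) ∧
          LGen (l - 3 * s * p) (m + 6 * s * p) s r G (pre M (2 * l + m) x.1)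
            (pre M (l + 2 * m + 9 * s * p) x.2.1))).card : ℝ) / S.card) := by
    intro p hp
    set A := S.filter (fun x => 2 ^ (3 * s) < 2 * (Uset M l m s r I x).card) with hAd
    set B := S.filter (fun x => ¬ LGen (l - 3 * s * p) (m + 6 * s * p) s r G
      (pre M (2 * l + m) x.1) (pre M (l + 2 * m + 9 * s * p) x.2.1)) with hBd
    set C := S.filter (fun x => 2 * (Uset M l m s r p x).card ≤ 2 ^ (3 * s) ∧
          LGen (l - 3 * s * p) (m + 6 * s * p) s r G (pre M (2 * l + m) x.1)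
            (pre M (l + 2 * m + 9 * s * p) x.2.1)) with hCd
    have hsub : S ⊆ A ∪ (B ∪ C) := by
      intro x hx
      by_cases h1 : 2 ^ (3 * s) < 2 * (Uset M l m s r I x).card
      · exact Finset.mem_union_left _ (Finset.mem_filter.2 ⟨hx, h1⟩)
      refine Finset.mem_union_right _ ?_
      by_cases h2 : LGen (l - 3 * s * p) (m + 6 * s * p) s r G (pre M (2 * l + m) x.1)
            (pre M (l + 2 * m + 9 * s * p) x.2.1)
      · refine Finset.mem_union_right _ (Finset.mem_filter.2 ⟨hx, ?_, h2⟩)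
        have h3 : (Uset M l m s r p x).card ≤ (Uset M l m s r I x).card := hmono x p hp.le
        omega
      · exact Finset.mem_union_left _ (Finset.mem_filter.2 ⟨hx, h2⟩)
    have hcard : S.card ≤ A.card + (B.card + C.card) :=
      (Finset.card_le_card hsub).trans ((Finset.card_union_le _ _).trans
        (Nat.add_le_add_left (Finset.card_union_le _ _) _))
    have hcard' : (S.card : ℝ) ≤ A.card + (B.card + C.card) := by exact_mod_cast hcard
    have hA1 : (A.card : ℝ) ≤ S.card / 2 := by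
      have h1 : (A.card : ℝ) / S.card < 1 / 2 := lt_of_le_of_lt hfin hA
      rw [div_lt_iff₀ hN] at h1
      linarith
    have hB1 : (B.card : ℝ) ≤ S.card / 8 := hgen p hp
    rw [le_div_iff₀ hN]
    linarith
  -- sum of the growth
  set X : ℕ → ℝ := fun p => (∑ x ∈ S, (((U (p + 1) x : ℕ) : ℝ) - (U p x : ℕ)) / 2 ^ (3 * s)) /
      S.card with hX
  have hXsum : ∑ p ∈ range I, X p ≤ 1 := by
    have h1 : ∑ p ∈ range I, X p =
        (∑ x ∈ S, (((U I x : ℕ) : ℝ) - (U 0 x : ℕ)) / 2 ^ (3 * s)) / S.card := by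
      rw [hX]
      simp only
      rw [← Finset.sum_div, Finset.sum_comm]
      congr 1
      refine Finset.sum_congr rfl fun x _ => ?_
      rw [← Finset.sum_div, Finset.sum_range_sub (fun p => ((U p x : ℕ) : ℝ))]
    rw [h1, div_le_one hN]
    calc (∑ x ∈ S, (((U I x : ℕ) : ℝ) - (U 0 x : ℕ)) / 2 ^ (3 * s)) ≤ ∑ x ∈ S, (1 : ℝ) := by
          refine Finset.sum_le_sum fun x _ => ?_
          rw [div_le_one (by positivity)]
          have h2 : ((U I x : ℕ) : ℝ) ≤ 2 ^ (3 * s) := by exact_mod_cast hle x I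
          have h3 : (0 : ℝ) ≤ (U 0 x : ℕ) := Nat.cast_nonneg _
          linarith
      _ = S.card := by simp
  have hgrow : ∀ p ∈ range I, 1 / (2 ^ (16 + r) * (G : ℝ)) / 2 * (3 / 8) -
      750 * 2 ^ 16 * (G : ℝ) ^ 2 / 2 ^ r * Real.sqrt (Bst (EE M S) l m s p) ≤ X p := by
    intro p hp
    have hp' := Finset.mem_range.1 hp
    refine le_trans ?_ (grow hS l m s G I p hP hG hp' hl hm hhi hM)
    have h1 : (0 : ℝ) ≤ 1 / (2 ^ (16 + r) * (G : ℝ)) / 2 := by positivity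
    have h2 := mul_le_mul_of_nonneg_left (hgood p hp') h1
    linarith
  have hsum := Finset.sum_le_sum hgrow
  rw [Finset.sum_sub_distrib, Finset.sum_const, Finset.card_range, nsmul_eq_mul,
    ← Finset.mul_sum] at hsum
  have hsq : (∑ p ∈ range I, Real.sqrt (Bst (EE M S) l m s p)) ≤
      I * (1 / (2 ^ 47 * (G : ℝ) ^ 3)) := by
    refine lfin_sqrt_sum I _ hB0 _ (by positivity) (hB.trans (le_of_eq ?_))
    rw [div_pow, one_pow, mul_pow, ← pow_mul, ← pow_mul]
  have hτ : (0 : ℝ) ≤ 750 * 2 ^ 16 * (G : ℝ) ^ 2 / 2 ^ r := by positivity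
  have hsq' := mul_le_mul_of_nonneg_left hsq hτ
  set g : ℝ := 1 / (2 ^ (16 + r) * (G : ℝ)) with hg
  have hg0 : 0 < g := by positivity
  have hbound : 750 * 2 ^ 16 * (G : ℝ) ^ 2 / 2 ^ r * (I * (1 / (2 ^ 47 * (G : ℝ) ^ 3))) ≤
      I * g / 32 := by
    have h1 : 750 * 2 ^ 16 * (G : ℝ) ^ 2 / 2 ^ r * (I * (1 / (2 ^ 47 * (G : ℝ) ^ 3))) =
        (750 / 1024) * (I * g / 32) := by
      rw [hg, pow_add]
      field_simp
      ring
    rw [h1]
    have h2 : 0 ≤ (I : ℝ) * g / 32 := by positivity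
    linarith
  have hIg : 8 ≤ (I : ℝ) * g := by
    have h1 : (2 : ℝ) ^ (19 + r) * G ≤ I := by exact_mod_cast hI
    rw [hg, mul_one_div, le_div_iff₀ (by positivity)]
    refine le_trans (le_of_eq ?_) h1
    rw [pow_add, pow_add]
    ring
  linarith

end MP_5e4520_nt
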