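import Pool.Agent.Lib.MP_5e4520_nt.LGD

set_option autoImplicit false

namespace MP_5e4520_nt

open Finset

open Classical in
private theorem ntm_swap (A B : ℕ) (D : Finset ℕ) (P Q : ℕ → ℕ → Prop) :
    ∑ x ∈ range A, ∑ y ∈ range B, (((D.filter (fun q => P q x ∧ Q q y)).card : ℕ) : ℝ) =
      ∑ q ∈ D, ((((range A).filter (fun x => P q x)).card : ℕ) : ℝ) *
        ((((range B).filter (fun y => Q q y)).card : ℕ) : ℝ) := by
  have h1 : ∀ x y, (((D.filter (fun q => P q x ∧ Q q y)).card : ℕ) : ℝ) =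
      ∑ q ∈ D, (if P q x then (1 : ℝ) else 0) * (if Q q y then (1 : ℝ) else 0) := by
    intro x y
    rw [Finset.card_filter, Nat.cast_sum]
    refine Finset.sum_congr rfl fun q _ => ?_
    by_cases h : P q x <;> by_cases h' : Q q y <;> simp [h, h']
  simp_rw [h1]
  calc ∑ x ∈ range A, ∑ y ∈ range B, ∑ q ∈ D,
        (if P q x then (1 : ℝ) else 0) * (if Q q y then (1 : ℝ) else 0)
      = ∑ x ∈ range A, ∑ q ∈ D, ∑ y ∈ range B,
        (if P q x then (1 : ℝ) else 0) * (if Q q y then (1 : ℝ) else 0) :=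
        Finset.sum_congr rfl fun x _ => Finset.sum_comm
    _ = ∑ q ∈ D, ∑ x ∈ range A, ∑ y ∈ range B,
        (if P q x then (1 : ℝ) else 0) * (if Q q y then (1 : ℝ) else 0) := Finset.sum_comm
    _ = _ := by
        refine Finset.sum_congr rfl fun q _ => ?_
        rw [← Finset.sum_mul_sum, Finset.card_filter, Finset.card_filter, Nat.cast_sum,
          Nat.cast_sum]
        congr 1 <;> · refine Finset.sum_congr rfl fun x _ => ?_
                      split_ifs <;> simp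

private theorem ntm_gcd (d Q : ℕ) (hd : 0 < d) : ((Nat.gcd d Q : ℕ) : ℝ) ≤ d := by
  exact_mod_cast Nat.gcd_le_left _ hd

/-- `q = 0` contributes `1` for each pair; for `1 ≤ q < 2K` by `cnt` (`X = 7K/2^a`, `gcd ≤ q ≤ 2K`) at most
`(16K)²` pairs.  Sum `≤ 2^(a+b) + 512 K³ ≤ 2^10 2^(6s)/2^(3r) 2^(a+b)`. -/
theorem ntot_mean (l m s r : ℕ) (hP : ParS l m s r) :
    ∑ α0 ∈ range (2 ^ (2 * l + m)), ∑ β0 ∈ range (2 ^ (l + 2 * m)), (ntot l m s r α0 β0 : ℝ) ≤
      2 ^ 10 * 2 ^ (6 * s) / 2 ^ (3 * r) * 2 ^ (2 * l + m) * 2 ^ (l + 2 * m) := by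
  classical
  have hr12 := hP.r12
  have hrs := hP.rs
  have hsl := hP.sl
  have hsm := hP.sm
  have hK : ∃ K : ℕ, K = 2 ^ (l + m + 2 * s - r) := ⟨_, rfl⟩
  obtain ⟨K, hK⟩ := hK
  have hA : ∃ A : ℕ, A = 2 ^ (2 * l + m) := ⟨_, rfl⟩
  obtain ⟨A, hA⟩ := hA
  have hB : ∃ B : ℕ, B = 2 ^ (l + 2 * m) := ⟨_, rfl⟩
  obtain ⟨B, hB⟩ := hB
  have hK0 : 0 < K := by rw [hK]; positivity
  have hA0 : 0 < A := by rw [hA]; positivity
  have hB0 : 0 < B := by rw [hB]; positivity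
  have hAr : (2 : ℝ) ^ (2 * l + m) = A := by rw [hA]; push_cast; rfl
  have hBr : (2 : ℝ) ^ (l + 2 * m) = B := by rw [hB]; push_cast; rfl
  have hKr : (2 : ℝ) ^ (l + m + 2 * s - r) = K := by rw [hK]; push_cast; rfl
  have hdef : ∀ x y, ntot l m s r x y = ((range (2 * K)).filter (fun q : ℕ =>
      nd ((q : ℝ) * x / A) ≤ 7 * K / A ∧ nd ((q : ℝ) * y / B) ≤ 7 * K / B)).card := by
    intro x y
    unfold ntot
    rw [hAr, hBr, hKr, ← hK]
  simp_rw [hdef]
  rw [← hA, ← hB, ntm_swap A B (range (2 * K)) (fun q x => nd ((q : ℝ) * x / A) ≤ 7 * K / A)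
    (fun q y => nd ((q : ℝ) * y / B) ≤ 7 * K / B), hAr, hBr]
  have hcA : ∀ q, 0 < q → q < 2 * K →
      ((((range A).filter (fun x : ℕ => nd ((q : ℝ) * x / A) ≤ 7 * K / A)).card : ℕ) : ℝ) ≤
        16 * K := by
    intro q hq hq2
    have h := cnt q A hq hA0 (7 * K / A) (by positivity)
    have h2 := ntm_gcd q A hq
    have h3 : (q : ℝ) ≤ 2 * K := by exact_mod_cast hq2.le
    have h4 : 2 * (7 * (K : ℝ) / A) * A = 14 * K := by field_simp; ring
    rw [h4] at h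
    linarith
  have hcB : ∀ q, 0 < q → q < 2 * K →
      ((((range B).filter (fun x : ℕ => nd ((q : ℝ) * x / B) ≤ 7 * K / B)).card : ℕ) : ℝ) ≤
        16 * K := by
    intro q hq hq2
    have h := cnt q B hq hB0 (7 * K / B) (by positivity)
    have h2 := ntm_gcd q B hq
    have h3 : (q : ℝ) ≤ 2 * K := by exact_mod_cast hq2.le
    have h4 : 2 * (7 * (K : ℝ) / B) * B = 14 * K := by field_simp; ring
    rw [h4] at h
    linarith
  have hsum : ∑ q ∈ range (2 * K),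
      ((((range A).filter (fun x : ℕ => nd ((q : ℝ) * x / A) ≤ 7 * K / A)).card : ℕ) : ℝ) *
      ((((range B).filter (fun y : ℕ => nd ((q : ℝ) * y / B) ≤ 7 * K / B)).card : ℕ) : ℝ) ≤
      ∑ q ∈ range (2 * K), ((if q = 0 then (A : ℝ) * B else 0) + 256 * (K : ℝ) ^ 2) := by
    refine Finset.sum_le_sum fun q hq => ?_
    rw [Finset.mem_range] at hq
    by_cases h0 : q = 0
    · rw [if_pos h0]
      have h1 : ((((range A).filter (fun x : ℕ => nd ((q : ℝ) * x / A) ≤ 7 * K / A)).card : ℕ) : ℝ)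
          ≤ A := by
        have := Finset.card_filter_le (range A) (fun x : ℕ => nd ((q : ℝ) * x / A) ≤ 7 * K / A)
        rw [Finset.card_range] at this
        exact_mod_cast this
      have h2 : ((((range B).filter (fun x : ℕ => nd ((q : ℝ) * x / B) ≤ 7 * K / B)).card : ℕ) : ℝ)
          ≤ B := by
        have := Finset.card_filter_le (range B) (fun x : ℕ => nd ((q : ℝ) * x / B) ≤ 7 * K / B)
        rw [Finset.card_range] at this
        exact_mod_cast this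
      have h3 := mul_le_mul h1 h2 (by positivity) (by positivity)
      have h4 : (0 : ℝ) ≤ 256 * (K : ℝ) ^ 2 := by positivity
      linarith
    · rw [if_neg h0]
      have h3 := mul_le_mul (hcA q (by omega) hq) (hcB q (by omega) hq) (by positivity)
        (by positivity)
      nlinarith [h3]
  refine hsum.trans ?_
  rw [Finset.sum_add_distrib, Finset.sum_ite_eq', if_pos (by rw [Finset.mem_range]; omega),
    Finset.sum_const, Finset.card_range, nsmul_eq_mul]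
  have hK3 : (K : ℝ) ^ 3 = 2 ^ (6 * s) / 2 ^ (3 * r) * A * B := by
    rw [← hKr, ← hAr, ← hBr, eq_comm, div_mul_eq_mul_div, div_mul_eq_mul_div, div_eq_iff (by positivity),
      ← pow_mul, ← pow_add, ← pow_add, ← pow_add]
    congr 1
    omega
  have h1 : (1 : ℝ) ≤ 2 ^ (6 * s) / 2 ^ (3 * r) := by
    rw [le_div_iff₀ (by positivity), one_mul]
    exact pow_le_pow_right₀ (by norm_num) (by omega)
  have hAB : (0 : ℝ) < (A : ℝ) * B := by positivity
  have h5 : ((2 * K : ℕ) : ℝ) * (256 * (K : ℝ) ^ 2) = 512 * (K : ℝ) ^ 3 := by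
    push_cast
    ring
  rw [h5, hK3]
  have h6 : (A : ℝ) * B ≤ 2 ^ (6 * s) / 2 ^ (3 * r) * A * B := by
    have := mul_le_mul_of_nonneg_right h1 hAB.le
    rw [one_mul] at this
    linarith [this, mul_assoc ((2 : ℝ) ^ (6 * s) / 2 ^ (3 * r)) (A : ℝ) B]
  have h7 : (0 : ℝ) ≤ 2 ^ (6 * s) / 2 ^ (3 * r) * A * B := by positivity
  have h8 : (2 : ℝ) ^ 10 * 2 ^ (6 * s) / 2 ^ (3 * r) * A * B =
      1024 * (2 ^ (6 * s) / 2 ^ (3 * r) * A * B) := by
    norm_num
    ring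
  rw [h8]
  linarith

open Classical in
/-- union bound over `1 ≤ d ≤ K'` with `cnt`: `X = 7K/2^a`: `14K + gcd ≤ 15K` (`gcd ≤ d ≤ K' ≤ K`);
`X = 4κ2 + d/2^b`: `8K' + 2d + gcd ≤ 11K'`.  Total `≤ 165 K K'^2 = 165/2^r 2^(a+b)`. -/
theorem G5_count (l m s r : ℕ) (hP : ParS l m s r) :
    (((range (2 ^ (2 * l + m)) ×ˢ range (2 ^ (l + 2 * m))).filter (fun p =>
      ¬ G5 l m s r p.1 p.2)).card : ℝ) ≤ 165 / 2 ^ r * 2 ^ (2 * l + m) * 2 ^ (l + 2 * m) := by
  have hr12 := hP.r12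
  have hrs := hP.rs
  have hsl := hP.sl
  have hsm := hP.sm
  obtain ⟨K, hK⟩ : ∃ K : ℕ, K = 2 ^ (l + m + 2 * s - r) := ⟨_, rfl⟩
  obtain ⟨K', hK'⟩ : ∃ K' : ℕ, K' = 2 ^ (l + m - s) := ⟨_, rfl⟩
  obtain ⟨A, hA⟩ : ∃ A : ℕ, A = 2 ^ (2 * l + m) := ⟨_, rfl⟩
  obtain ⟨B, hB⟩ : ∃ B : ℕ, B = 2 ^ (l + 2 * m) := ⟨_, rfl⟩
  have hK0 : 0 < K := by rw [hK]; positivity
  have hK'0 : 0 < K' := by rw [hK']; positivity
  have hA0 : 0 < A := by rw [hA]; positivity
  have hB0 : 0 < B := by rw [hB]; positivity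
  have hAr : (2 : ℝ) ^ (2 * l + m) = A := by rw [hA]; push_cast; rfl
  have hBr : (2 : ℝ) ^ (l + 2 * m) = B := by rw [hB]; push_cast; rfl
  have hKr : (2 : ℝ) ^ (l + m + 2 * s - r) = K := by rw [hK]; push_cast; rfl
  have hK'r : (2 : ℝ) ^ (l + m - s) = K' := by rw [hK']; push_cast; rfl
  have hKK : K' ≤ K := by
    rw [hK, hK']
    exact Nat.pow_le_pow_right (by norm_num) (by omega)
  rw [hAr, hBr, ← hA, ← hB]
  have hsub : (range A ×ˢ range B).filter (fun p => ¬ G5 l m s r p.1 p.2) ⊆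
      (Icc 1 K').biUnion (fun d => ((range A).filter (fun x : ℕ => nd ((d : ℝ) * x / A) ≤ 7 * K / A))
        ×ˢ ((range B).filter (fun y : ℕ => nd ((d : ℝ) * y / B) ≤ 4 / 2 ^ (m + s) + d / B))) := by
    intro p hp
    rw [Finset.mem_filter, Finset.mem_product] at hp
    obtain ⟨⟨hp1, hp2⟩, hp3⟩ := hp
    unfold G5 at hp3
    push Not at hp3
    obtain ⟨d, hd1, hd2, hd3, hd4⟩ := hp3
    rw [← hK'] at hd2
    rw [hAr, hKr] at hd3
    rw [hBr] at hd4
    rw [Finset.mem_biUnion]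
    refine ⟨d, Finset.mem_Icc.2 ⟨hd1, hd2⟩, ?_⟩
    rw [Finset.mem_product, Finset.mem_filter, Finset.mem_filter]
    exact ⟨⟨hp1, hd3⟩, ⟨hp2, hd4⟩⟩
  have h1 : (((range A ×ˢ range B).filter (fun p => ¬ G5 l m s r p.1 p.2)).card : ℝ) ≤
      ∑ d ∈ Icc 1 K', ((((range A).filter (fun x : ℕ => nd ((d : ℝ) * x / A) ≤ 7 * K / A)).card : ℕ)
        : ℝ) * ((((range B).filter (fun y : ℕ => nd ((d : ℝ) * y / B) ≤ 4 / 2 ^ (m + s) + d / B)).card
        : ℕ) : ℝ) := by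
    have h := (Finset.card_le_card hsub).trans Finset.card_biUnion_le
    simp_rw [Finset.card_product] at h
    exact_mod_cast h
  refine h1.trans ?_
  have h2 : ∀ d ∈ Icc 1 K', ((((range A).filter (fun x : ℕ => nd ((d : ℝ) * x / A) ≤
      7 * K / A)).card : ℕ) : ℝ) * ((((range B).filter (fun y : ℕ => nd ((d : ℝ) * y / B) ≤
        4 / 2 ^ (m + s) + d / B)).card : ℕ) : ℝ) ≤ (15 * K) * (11 * K') := by
    intro d hd
    rw [Finset.mem_Icc] at hd
    obtain ⟨hd1, hd2⟩ := hd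
    have hdr : (d : ℝ) ≤ K' := by exact_mod_cast hd2
    have hKKr : (K' : ℝ) ≤ K := by exact_mod_cast hKK
    have ha := cnt d A hd1 hA0 (7 * K / A) (by positivity)
    have hb := cnt d B hd1 hB0 (4 / 2 ^ (m + s) + d / B) (by positivity)
    have ga := ntm_gcd d A hd1
    have gb := ntm_gcd d B hd1
    have h4 : 2 * (7 * (K : ℝ) / A) * A = 14 * K := by field_simp; ring
    have h5 : 2 * (4 / (2 : ℝ) ^ (m + s) + d / B) * B = 8 * K' + 2 * d := by
      have h6 : (B : ℝ) = 2 ^ (m + s) * K' := by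
        rw [← hBr, ← hK'r, ← pow_add]
        congr 1
        omega
      have h7 : (d : ℝ) / B * B = d := by field_simp
      have h8 : 4 / (2 : ℝ) ^ (m + s) * B = 4 * K' := by
        rw [h6]
        field_simp
      linarith [h7, h8, add_mul (4 / (2 : ℝ) ^ (m + s)) (d / B) B]
    rw [h4] at ha
    rw [h5] at hb
    refine mul_le_mul ?_ ?_ (by positivity) (by positivity)
    · linarith
    · linarith
  refine (Finset.sum_le_sum h2).trans ?_
  rw [Finset.sum_const, Nat.card_Icc, Nat.add_sub_cancel, nsmul_eq_mul]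
  have h3 : (K : ℝ) * K' ^ 2 = 1 / 2 ^ r * A * B := by
    rw [← hKr, ← hAr, ← hBr, ← hK'r, eq_comm, div_mul_eq_mul_div, div_mul_eq_mul_div, one_mul,
      div_eq_iff (by positivity), ← pow_mul, ← pow_add, ← pow_add, ← pow_add]
    congr 1
    omega
  have h4 : (K' : ℝ) * (15 * K * (11 * K')) = 165 * (K * K' ^ 2) := by ring
  rw [h4, h3]
  apply le_of_eq
  ring

end MP_5e4520_nt
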