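import Pool.Agent.Lib.MP_5e4520_nt.Defs

set_option autoImplicit false

namespace MP_5e4520_nt

open Finset

private theorem gcds_blk (N : ℕ) (hN : 0 < N) : ∑ d ∈ Ico N (2 * N), (1 : ℝ) / d ≤ 1 := by
  have hN' : (0 : ℝ) < N := by exact_mod_cast hN
  have h1 : ∑ d ∈ Ico N (2 * N), (1 : ℝ) / d ≤ ∑ _d ∈ Ico N (2 * N), (1 : ℝ) / N := by
    apply Finset.sum_le_sum
    intro d hd
    rw [Finset.mem_Ico] at hd
    apply one_div_le_one_div_of_le hN'
    exact_mod_cast hd.1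
  have h2 : ∑ _d ∈ Ico N (2 * N), (1 : ℝ) / N = 1 := by
    rw [Finset.sum_const, Nat.card_Ico, nsmul_eq_mul]
    have h3 : 2 * N - N = N := by omega
    rw [h3]
    field_simp
  linarith

private theorem gcds_pow (k : ℕ) : ∑ d ∈ Ico 1 (2 ^ k : ℕ), (1 : ℝ) / (d : ℕ) ≤ k := by
  induction k with
  | zero => simp
  | succ k ih =>
    have h1 : 1 ≤ 2 ^ k := Nat.one_le_two_pow
    have h2 : 2 ^ (k + 1) = 2 * 2 ^ k := by ring
    rw [h2, ← Finset.sum_Ico_consecutive _ h1 (by omega)]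
    have h3 := gcds_blk (2 ^ k) (by positivity)
    push_cast
    linarith

/-- `∑_{d=1}^{D-1} 1/d ≤ 1 + log2 D` (dyadic blocks) -/
theorem harm_le (D : ℕ) : ∑ d ∈ Ico 1 D, (1 : ℝ) / d ≤ 1 + Nat.log 2 D := by
  have h1 := gcds_pow (Nat.log 2 D + 1)
  have h2 : D < 2 ^ (Nat.log 2 D + 1) := Nat.lt_pow_succ_log_self (by norm_num) D
  have h3 : ∑ d ∈ Ico 1 D, (1 : ℝ) / d ≤ ∑ d ∈ Ico 1 (2 ^ (Nat.log 2 D + 1) : ℕ), (1 : ℝ) / (d : ℕ) := by
    apply Finset.sum_le_sum_of_subset_of_nonneg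
    · exact Finset.Ico_subset_Ico_right h2.le
    · intro i _ _
      positivity
  push_cast at h1
  linarith

/-- dyadic blocks: `∑_{K' < d < 2^j K'} 1/d ≤ j` -/
theorem harm_block (K' j : ℕ) (hK' : 0 < K') :
    ∑ d ∈ Ioo K' (2 ^ j * K'), (1 : ℝ) / d ≤ j := by
  have h1 : ∑ d ∈ Ioo K' (2 ^ j * K'), (1 : ℝ) / d ≤ ∑ d ∈ Ico K' (2 ^ j * K'), (1 : ℝ) / d := by
    apply Finset.sum_le_sum_of_subset_of_nonneg
    · exact Finset.Ioo_subset_Ico_self
    · intro i _ _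
      positivity
  refine h1.trans ?_
  clear h1
  induction j with
  | zero => simp
  | succ j ih =>
    have h1 : 1 ≤ 2 ^ j := Nat.one_le_two_pow
    have h2 : 2 ^ (j + 1) * K' = 2 * (2 ^ j * K') := by ring
    have h4 : K' ≤ 2 ^ j * K' := Nat.le_mul_of_pos_left _ (by positivity)
    rw [h2, ← Finset.sum_Ico_consecutive _ h4 (by omega)]
    have h3 := gcds_blk (2 ^ j * K') (by positivity)
    push_cast at h3 ⊢
    linarith

private theorem gcds_re (D g : ℕ) (hg : 0 < g) (w : ℕ → ℝ) :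
    ∑ d ∈ Ico 1 D, (if g ∣ d then w d else 0) =
      ∑ e ∈ Ico 1 D, (if g * e < D then w (g * e) else 0) := by
  rw [← Finset.sum_filter, ← Finset.sum_filter]
  symm
  apply Finset.sum_nbij (fun e => g * e)
  · intro e he
    rw [Finset.mem_filter, Finset.mem_Ico] at he ⊢
    exact ⟨⟨Nat.mul_pos hg he.1.1, he.2⟩, Dvd.intro _ rfl⟩
  · intro a _ b _ hab
    exact Nat.eq_of_mul_eq_mul_left hg hab
  · intro d hd
    rw [Finset.mem_coe, Finset.mem_filter, Finset.mem_Ico] at hd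
    obtain ⟨⟨h1, h2⟩, e, rfl⟩ := hd
    refine ⟨e, ?_, rfl⟩
    rw [Finset.mem_coe, Finset.mem_filter, Finset.mem_Ico]
    have he : 0 < e := Nat.pos_of_mul_pos_left h1
    refine ⟨⟨he, ?_⟩, h2⟩
    calc e ≤ g * e := Nat.le_mul_of_pos_left _ hg
      _ < D := h2
  · intro e _
    rfl

private theorem gcds_cnt (D g : ℕ) (hg : 0 < g) :
    ∑ e ∈ Ico 1 D, (if g * e < D then (1 : ℝ) else 0) ≤ D / g := by
  have hg' : (0 : ℝ) < g := by exact_mod_cast hg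
  rw [← Finset.sum_filter, Finset.sum_const, nsmul_eq_mul, mul_one]
  have h1 : (Ico 1 D).filter (fun e => g * e < D) ⊆ Ico 1 (D / g + 1) := by
    intro e he
    rw [Finset.mem_filter, Finset.mem_Ico] at he
    rw [Finset.mem_Ico]
    refine ⟨he.1.1, ?_⟩
    rw [Nat.lt_succ_iff, Nat.le_div_iff_mul_le hg]
    rw [mul_comm]
    exact he.2.le
  have h2 := Finset.card_le_card h1
  rw [Nat.card_Ico, Nat.add_sub_cancel] at h2
  have h3 : (((Ico 1 D).filter (fun e => g * e < D)).card : ℝ) ≤ ((D / g : ℕ) : ℝ) := by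
    exact_mod_cast h2
  exact h3.trans Nat.cast_div_le

private theorem gcds_main (D : ℕ) (f w : ℕ → ℝ) (hf : ∀ g, 0 ≤ f g) (hw : ∀ g, 0 ≤ w g) :
    ∑ d ∈ Ico 1 D, w d * ∑ q ∈ Ico 1 D, f (Nat.gcd q d) ≤
      ∑ g ∈ Ico 1 D, f g * (D / g) * ∑ e ∈ Ico 1 D, (if g * e < D then w (g * e) else 0) := by
  have h1 : ∀ d ∈ Ico 1 D, ∀ q ∈ Ico 1 D, f (Nat.gcd q d) ≤
      ∑ g ∈ Ico 1 D, (if g ∣ d then (if g ∣ q then f g else 0) else 0) := by
    intro d hd q hq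
    rw [Finset.mem_Ico] at hd hq
    have hm : Nat.gcd q d ∈ Ico 1 D := by
      rw [Finset.mem_Ico]
      refine ⟨Nat.gcd_pos_of_pos_left _ hq.1, ?_⟩
      exact lt_of_le_of_lt (Nat.le_of_dvd hq.1 (Nat.gcd_dvd_left q d)) hq.2
    have h2 := Finset.single_le_sum (f := fun g => (if g ∣ d then (if g ∣ q then f g else 0) else 0))
      (s := Ico 1 D) (by
        intro g _
        show 0 ≤ (if g ∣ d then (if g ∣ q then f g else 0) else 0)
        split_ifs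
        · exact hf g
        · exact le_rfl
        · exact le_rfl) hm
    have h3 : (if Nat.gcd q d ∣ d then (if Nat.gcd q d ∣ q then f (Nat.gcd q d) else 0) else 0)
        = f (Nat.gcd q d) := by
      rw [if_pos (Nat.gcd_dvd_right q d), if_pos (Nat.gcd_dvd_left q d)]
    calc f (Nat.gcd q d) = _ := h3.symm
      _ ≤ _ := h2
  calc ∑ d ∈ Ico 1 D, w d * ∑ q ∈ Ico 1 D, f (Nat.gcd q d)
      ≤ ∑ d ∈ Ico 1 D, w d * ∑ q ∈ Ico 1 D,
          ∑ g ∈ Ico 1 D, (if g ∣ d then (if g ∣ q then f g else 0) else 0) := by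
        apply Finset.sum_le_sum
        intro d hd
        apply mul_le_mul_of_nonneg_left _ (hw d)
        apply Finset.sum_le_sum
        intro q hq
        exact h1 d hd q hq
    _ = ∑ g ∈ Ico 1 D, (∑ q ∈ Ico 1 D, (if g ∣ q then f g else 0)) *
          (∑ d ∈ Ico 1 D, (if g ∣ d then w d else 0)) := by
        have e1 : ∀ d ∈ Ico 1 D, w d * ∑ q ∈ Ico 1 D,
          ∑ g ∈ Ico 1 D, (if g ∣ d then (if g ∣ q then f g else 0) else 0) =
          ∑ g ∈ Ico 1 D, (∑ q ∈ Ico 1 D, (if g ∣ q then f g else 0)) *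
            (if g ∣ d then w d else 0) := by
          intro d _
          rw [Finset.sum_comm, Finset.mul_sum]
          apply Finset.sum_congr rfl
          intro g _
          by_cases h : g ∣ d
          · simp only [if_pos h]
            ring
          · simp only [if_neg h, Finset.sum_const_zero, mul_zero]
        rw [Finset.sum_congr rfl e1, Finset.sum_comm]
        apply Finset.sum_congr rfl
        intro g _
        rw [Finset.mul_sum]
    _ ≤ _ := by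
        apply Finset.sum_le_sum
        intro g hg
        rw [Finset.mem_Ico] at hg
        rw [gcds_re D g hg.1 w, gcds_re D g hg.1 (fun _ => f g)]
        have e2 : ∑ e ∈ Ico 1 D, (if g * e < D then f g else 0) =
            f g * ∑ e ∈ Ico 1 D, (if g * e < D then (1 : ℝ) else 0) := by
          rw [Finset.mul_sum]
          apply Finset.sum_congr rfl
          intro e _
          split_ifs
          · rw [mul_one]
          · rw [mul_zero]
        rw [e2]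
        apply mul_le_mul_of_nonneg_right
        · exact mul_le_mul_of_nonneg_left (gcds_cnt D g hg.1) (hf g)
        · apply Finset.sum_nonneg
          intro e _
          split_ifs
          · exact hw _
          · exact le_rfl

/-- `gcd(d,q) ≤ ∑_{g ∣ d, g ∣ q} g`, and `#{(d,q) : g ∣ d, g ∣ q} ≤ (D/g)²` -/
theorem gcd_sum1 (D : ℕ) : ∑ d ∈ Ico 1 D, ∑ q ∈ Ico 1 D, (Nat.gcd q d : ℝ) ≤
    (D : ℝ) ^ 2 * (1 + Nat.log 2 D) := by
  have h1 := gcds_main D (fun g => (g : ℝ)) (fun _ => 1) (fun g => Nat.cast_nonneg g)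
    (fun _ => zero_le_one)
  simp only [one_mul] at h1
  refine h1.trans ?_
  have h2 : ∑ g ∈ Ico 1 D, (g : ℝ) * (D / g) * ∑ e ∈ Ico 1 D, (if g * e < D then (1 : ℝ) else 0)
      ≤ ∑ g ∈ Ico 1 D, (D : ℝ) ^ 2 * (1 / g) := by
    apply Finset.sum_le_sum
    intro g hg
    rw [Finset.mem_Ico] at hg
    have hg' : (0 : ℝ) < g := by exact_mod_cast hg.1
    have h3 := gcds_cnt D g hg.1
    calc (g : ℝ) * (D / g) * ∑ e ∈ Ico 1 D, (if g * e < D then (1 : ℝ) else 0)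
        ≤ (g : ℝ) * (D / g) * (D / g) := mul_le_mul_of_nonneg_left h3 (by positivity)
      _ = (D : ℝ) ^ 2 * (1 / g) := by field_simp
  refine h2.trans ?_
  rw [← Finset.mul_sum]
  exact mul_le_mul_of_nonneg_left (harm_le D) (by positivity)

theorem gcd_sum2 (D : ℕ) : ∑ d ∈ Ico 1 D, ∑ q ∈ Ico 1 D, (Nat.gcd q d : ℝ) ^ 2 ≤ (D : ℝ) ^ 3 := by
  have h1 := gcds_main D (fun g => (g : ℝ) ^ 2) (fun _ => 1) (fun g => by positivity)
    (fun _ => zero_le_one)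
  simp only [one_mul] at h1
  refine h1.trans ?_
  have h2 : ∑ g ∈ Ico 1 D, (g : ℝ) ^ 2 * (D / g) *
      ∑ e ∈ Ico 1 D, (if g * e < D then (1 : ℝ) else 0)
      ≤ ∑ g ∈ Ico 1 D, (D : ℝ) ^ 2 := by
    apply Finset.sum_le_sum
    intro g hg
    rw [Finset.mem_Ico] at hg
    have hg' : (0 : ℝ) < g := by exact_mod_cast hg.1
    have h3 := gcds_cnt D g hg.1
    calc (g : ℝ) ^ 2 * (D / g) * ∑ e ∈ Ico 1 D, (if g * e < D then (1 : ℝ) else 0)
        ≤ (g : ℝ) ^ 2 * (D / g) * (D / g) := mul_le_mul_of_nonneg_left h3 (by positivity)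
      _ = (D : ℝ) ^ 2 := by field_simp
  refine h2.trans ?_
  rw [Finset.sum_const, Nat.card_Ico, nsmul_eq_mul]
  have h4 : ((D - 1 : ℕ) : ℝ) ≤ D := by exact_mod_cast Nat.sub_le D 1
  calc ((D - 1 : ℕ) : ℝ) * (D : ℝ) ^ 2 ≤ D * (D : ℝ) ^ 2 :=
        mul_le_mul_of_nonneg_right h4 (by positivity)
    _ = (D : ℝ) ^ 3 := by ring

/-- `(1/d) ∑_{q<D} gcd ≤ (1/d) ∑_{g ∣ d} g (D/g) = D τ(d)/d`, `∑ τ(d)/d ≤ (∑ 1/e)²` -/
theorem gcd_sum3 (D : ℕ) : ∑ d ∈ Ico 1 D, (∑ q ∈ Ico 1 D, (Nat.gcd q d : ℝ)) / d ≤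
    (D : ℝ) * (1 + Nat.log 2 D) ^ 2 := by
  have h1 := gcds_main D (fun g => (g : ℝ)) (fun d => 1 / (d : ℝ)) (fun g => Nat.cast_nonneg g)
    (fun _ => by positivity)
  have h0 : ∀ d ∈ Ico 1 D, (∑ q ∈ Ico 1 D, (Nat.gcd q d : ℝ)) / d =
      1 / (d : ℝ) * (∑ q ∈ Ico 1 D, (Nat.gcd q d : ℝ)) := by
    intro d _
    ring
  rw [Finset.sum_congr rfl h0]
  refine h1.trans ?_
  have hH := harm_le D
  have hH0 : 0 ≤ ∑ e ∈ Ico 1 D, (1 : ℝ) / e := Finset.sum_nonneg (fun e _ => by positivity)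
  have h2 : ∑ g ∈ Ico 1 D, (g : ℝ) * (D / g) *
      ∑ e ∈ Ico 1 D, (if g * e < D then 1 / ((g * e : ℕ) : ℝ) else 0)
      ≤ ∑ g ∈ Ico 1 D, (D : ℝ) * (1 + Nat.log 2 D) * (1 / g) := by
    apply Finset.sum_le_sum
    intro g hg
    rw [Finset.mem_Ico] at hg
    have hg' : (0 : ℝ) < g := by exact_mod_cast hg.1
    have h3 : ∑ e ∈ Ico 1 D, (if g * e < D then 1 / ((g * e : ℕ) : ℝ) else 0) ≤
        (1 / (g : ℝ)) * ∑ e ∈ Ico 1 D, (1 : ℝ) / e := by
      rw [Finset.mul_sum]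
      apply Finset.sum_le_sum
      intro e _
      split_ifs
      · push_cast
        rw [one_div_mul_one_div]
      · positivity
    calc (g : ℝ) * (D / g) * ∑ e ∈ Ico 1 D, (if g * e < D then 1 / ((g * e : ℕ) : ℝ) else 0)
        ≤ (g : ℝ) * (D / g) * ((1 / (g : ℝ)) * ∑ e ∈ Ico 1 D, (1 : ℝ) / e) :=
          mul_le_mul_of_nonneg_left h3 (by positivity)
      _ ≤ (g : ℝ) * (D / g) * ((1 / (g : ℝ)) * (1 + Nat.log 2 D)) := by
          apply mul_le_mul_of_nonneg_left _ (by positivity)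
          exact mul_le_mul_of_nonneg_left hH (by positivity)
      _ = (D : ℝ) * (1 + Nat.log 2 D) * (1 / g) := by field_simp
  refine h2.trans ?_
  rw [← Finset.mul_sum]
  calc (D : ℝ) * (1 + Nat.log 2 D) * ∑ i ∈ Ico 1 D, 1 / (i : ℝ)
      ≤ (D : ℝ) * (1 + Nat.log 2 D) * (1 + Nat.log 2 D) :=
        mul_le_mul_of_nonneg_left hH (by positivity)
    _ = _ := by ring

/-- `(1/d) ∑_{q<D} gcd² ≤ D σ(d)/d = D ∑_{e ∣ d} 1/e`, sum over `d`: `≤ D² ∑ 1/e² ≤ 2D²` -/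
theorem gcd_sum4 (D : ℕ) : ∑ d ∈ Ico 1 D, (∑ q ∈ Ico 1 D, (Nat.gcd q d : ℝ) ^ 2) / d ≤
    2 * (D : ℝ) ^ 2 := by
  have h1 := gcds_main D (fun g => (g : ℝ) ^ 2) (fun d => 1 / (d : ℝ)) (fun g => by positivity)
    (fun _ => by positivity)
  have h0 : ∀ d ∈ Ico 1 D, (∑ q ∈ Ico 1 D, (Nat.gcd q d : ℝ) ^ 2) / d =
      1 / (d : ℝ) * (∑ q ∈ Ico 1 D, (Nat.gcd q d : ℝ) ^ 2) := by
    intro d _
    ring
  rw [Finset.sum_congr rfl h0]
  refine h1.trans ?_
  have h2 : ∑ g ∈ Ico 1 D, (g : ℝ) ^ 2 * (D / g) *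
      ∑ e ∈ Ico 1 D, (if g * e < D then 1 / ((g * e : ℕ) : ℝ) else 0)
      = D * ∑ e ∈ Ico 1 D, (1 / (e : ℝ)) * ∑ g ∈ Ico 1 D, (if e * g < D then (1 : ℝ) else 0) := by
    have e1 : ∀ g ∈ Ico 1 D, (g : ℝ) ^ 2 * (D / g) *
      ∑ e ∈ Ico 1 D, (if g * e < D then 1 / ((g * e : ℕ) : ℝ) else 0) =
      ∑ e ∈ Ico 1 D, D * (1 / (e : ℝ) * (if e * g < D then (1 : ℝ) else 0)) := by
      intro g hg
      rw [Finset.mem_Ico] at hg
      have hg' : (0 : ℝ) < g := by exact_mod_cast hg.1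
      rw [Finset.mul_sum]
      apply Finset.sum_congr rfl
      intro e he
      rw [Finset.mem_Ico] at he
      have he' : (0 : ℝ) < e := by exact_mod_cast he.1
      rw [mul_comm e g]
      split_ifs
      · push_cast
        field_simp
      · ring
    rw [Finset.sum_congr rfl e1, Finset.sum_comm, Finset.mul_sum]
    apply Finset.sum_congr rfl
    intro e _
    rw [Finset.mul_sum, Finset.mul_sum]
  rw [h2]
  have h3 : ∑ e ∈ Ico 1 D, (1 / (e : ℝ)) * ∑ g ∈ Ico 1 D, (if e * g < D then (1 : ℝ) else 0) ≤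
      ∑ e ∈ Ico 1 D, (D : ℝ) * ((e : ℝ) ^ 2)⁻¹ := by
    apply Finset.sum_le_sum
    intro e he
    rw [Finset.mem_Ico] at he
    have he' : (0 : ℝ) < e := by exact_mod_cast he.1
    calc (1 / (e : ℝ)) * ∑ g ∈ Ico 1 D, (if e * g < D then (1 : ℝ) else 0)
        ≤ (1 / (e : ℝ)) * (D / e) := mul_le_mul_of_nonneg_left (gcds_cnt D e he.1) (by positivity)
      _ = (D : ℝ) * ((e : ℝ) ^ 2)⁻¹ := by field_simp
  rw [← Finset.mul_sum] at h3
  have h4 : ∑ e ∈ Ico 1 D, ((e : ℝ) ^ 2)⁻¹ ≤ 2 := by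
    have h5 := sum_Ioo_inv_sq_le (α := ℝ) 0 D
    have h6 : Ioo 0 D = Ico 1 D := by
      ext x
      rw [Finset.mem_Ioo, Finset.mem_Ico]
      omega
    rw [h6] at h5
    simpa using h5
  have hD : (0 : ℝ) ≤ D := Nat.cast_nonneg D
  calc (D : ℝ) * ∑ e ∈ Ico 1 D, (1 / (e : ℝ)) * ∑ g ∈ Ico 1 D, (if e * g < D then (1 : ℝ) else 0)
      ≤ D * (D * ∑ e ∈ Ico 1 D, ((e : ℝ) ^ 2)⁻¹) := mul_le_mul_of_nonneg_left h3 hD
    _ ≤ D * (D * 2) := mul_le_mul_of_nonneg_left (mul_le_mul_of_nonneg_left h4 hD) hD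
    _ = 2 * (D : ℝ) ^ 2 := by ring

end MP_5e4520_nt
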