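import Pool.Agent.Lib.MP_5e4520_nt.Defs

set_option autoImplicit false

namespace MP_5e4520_nt

open Finset

private theorem wws_sol (d : ℕ) (hd : 0 < d) (q t : ℤ) :
    ((range d).filter (fun p : ℕ => (d : ℤ) ∣ (q * p - t))).card ≤ Int.gcd q d := by
  have hg : 0 < Int.gcd q d := Int.gcd_pos_of_ne_zero_right _ (by exact_mod_cast hd.ne')
  obtain ⟨d', hd'⟩ : Int.gcd q d ∣ d := by
    have := Int.gcd_dvd_natAbs_right q d
    simpa using this
  have hgd : ((Int.gcd q d : ℕ) : ℤ) ∣ q := Int.gcd_dvd_left ..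
  obtain ⟨q', hq'⟩ := hgd
  have hdg : (d : ℤ) = ((Int.gcd q d : ℕ) : ℤ) * (d' : ℤ) := by exact_mod_cast hd'
  have hd'0 : 0 < d' := by
    rcases Nat.eq_zero_or_pos d' with h | h
    · rw [h, mul_zero] at hd'
      omega
    · exact h
  have hcop : Int.gcd q' d' = 1 := by
    have h1 : Int.gcd q d = Int.gcd q d * Int.gcd q' d' := by
      have h0 : ∀ G : ℤ, Int.gcd (G * q') (G * d') = G.natAbs * Int.gcd q' d' :=
        fun G => Int.gcd_mul_left ..
      have h2 := h0 ((Int.gcd q d : ℕ) : ℤ)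
      rw [← hq', ← hdg, Int.natAbs_natCast] at h2
      exact h2
    have h2 : Int.gcd q d * Int.gcd q' d' = Int.gcd q d * 1 := by rw [← h1, mul_one]
    exact Nat.eq_of_mul_eq_mul_left hg h2
  have h1 : ((range d).filter (fun p : ℕ => (d : ℤ) ∣ (q * p - t))).card ≤
      (range (Int.gcd q d)).card := by
    apply Finset.card_le_card_of_injOn (fun p => p / d')
    · intro p hp
      rw [Finset.mem_coe, Finset.mem_filter, Finset.mem_range] at hp
      rw [Finset.mem_coe, Finset.mem_range]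
      show p / d' < _
      rw [Nat.div_lt_iff_lt_mul hd'0, ← hd']
      exact hp.1
    · intro p1 hp1 p2 hp2 h12
      rw [Finset.mem_coe, Finset.mem_filter, Finset.mem_range] at hp1 hp2
      have h12' : p1 / d' = p2 / d' := h12
      have h2 : (d : ℤ) ∣ q * ((p1 : ℤ) - p2) := by
        have h3 := dvd_sub hp1.2 hp2.2
        have h4 : q * (p1 : ℤ) - t - (q * p2 - t) = q * ((p1 : ℤ) - p2) := by ring
        rwa [h4] at h3
      have h3 : ((Int.gcd q d : ℕ) : ℤ) * (d' : ℤ) ∣ ((Int.gcd q d : ℕ) : ℤ) *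
          (q' * ((p1 : ℤ) - p2)) := by
        have e1 : ((Int.gcd q d : ℕ) : ℤ) * (d' : ℤ) = (d : ℤ) := by
          exact_mod_cast hd'.symm
        have e2 : ((Int.gcd q d : ℕ) : ℤ) * (q' * ((p1 : ℤ) - p2)) = q * ((p1 : ℤ) - p2) := by
          rw [← mul_assoc, ← hq']
        rw [e1, e2]
        exact h2
      have h4 : (d' : ℤ) ∣ q' * ((p1 : ℤ) - p2) :=
        Int.dvd_of_mul_dvd_mul_left (by exact_mod_cast hg.ne') h3
      have h5 : (d' : ℤ) ∣ (p1 : ℤ) - p2 := by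
        have h6 : IsCoprime (d' : ℤ) q' := by
          rw [Int.isCoprime_iff_gcd_eq_one, Int.gcd_comm]
          exact hcop
        exact h6.dvd_of_dvd_mul_left h4
      have h6 : p1 % d' = p2 % d' := by
        have h7 : (p2 : ℤ) ≡ p1 [ZMOD d'] := (Int.modEq_iff_dvd).2 h5
        have h8 : p2 ≡ p1 [MOD d'] := by exact_mod_cast (Int.natCast_modEq_iff).1 h7
        exact h8.symm
      rw [← Nat.div_add_mod p1 d', ← Nat.div_add_mod p2 d', h12', h6]
  rwa [Finset.card_range] at h1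

private theorem wws_mul (P g : ℕ) (hg : 0 < g) :
    g * ((Icc (-(P : ℤ)) P).filter (fun t : ℤ => (g : ℤ) ∣ t)).card ≤ 2 * P + g := by
  have h1 : ((Icc (-(P : ℤ)) P).filter (fun t : ℤ => (g : ℤ) ∣ t)).card ≤
      (Icc (-((P / g : ℕ) : ℤ)) ((P / g : ℕ) : ℤ)).card := by
    apply Finset.card_le_card_of_injOn (fun t : ℤ => t / (g : ℤ))
    · intro t ht
      rw [Finset.mem_coe, Finset.mem_filter, Finset.mem_Icc] at ht
      obtain ⟨⟨h1, h2⟩, e, rfl⟩ := ht
      have hg' : (0 : ℤ) < g := by exact_mod_cast hg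
      rw [Finset.mem_coe, Finset.mem_Icc]
      show _ ≤ (g : ℤ) * e / g ∧ (g : ℤ) * e / g ≤ _
      rw [Int.mul_ediv_cancel_left _ hg'.ne']
      push_cast
      constructor
      · have h3 : -e ≤ (P : ℤ) / g := by
          rw [Int.le_ediv_iff_mul_le hg']
          linarith
        linarith
      · rw [Int.le_ediv_iff_mul_le hg']
        linarith
    · intro t1 ht1 t2 ht2 h12
      rw [Finset.mem_coe, Finset.mem_filter] at ht1 ht2
      obtain ⟨_, e1, rfl⟩ := ht1
      obtain ⟨_, e2, rfl⟩ := ht2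
      have hg' : (0 : ℤ) < g := by exact_mod_cast hg
      have h3 : (g : ℤ) * e1 / g = (g : ℤ) * e2 / g := h12
      rw [Int.mul_ediv_cancel_left _ hg'.ne', Int.mul_ediv_cancel_left _ hg'.ne'] at h3
      rw [h3]
  rw [Int.card_Icc] at h1
  have h2 : (((P / g : ℕ) : ℤ) + 1 - -((P / g : ℕ) : ℤ)).toNat = 2 * (P / g) + 1 := by omega
  rw [h2] at h1
  calc g * ((Icc (-(P : ℤ)) P).filter (fun t : ℤ => (g : ℤ) ∣ t)).card
      ≤ g * (2 * (P / g) + 1) := Nat.mul_le_mul_left _ h1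
    _ = 2 * (g * (P / g)) + g := by ring
    _ ≤ 2 * P + g := by
      have := Nat.mul_div_le P g
      omega

/-- `∑_{p<d} tc = ∑_{|t| ≤ P} #{p < d : qp ≡ t mod d}`, which is `g` if `g ∣ t` and `0` otherwise
(`g = gcd(q,d)`), so it is `g (2⌊P/g⌋+1) ≤ 2P+g`; the term `p = d` equals the term `p = 0`. -/
theorem tc_sum (P d : ℕ) (hd : 0 < d) (q : ℤ) :
    ∑ p ∈ range (d + 1), tc P d q p ≤ 2 * (2 * P + Int.gcd q d) := by
  have hg : 0 < Int.gcd q d := Int.gcd_pos_of_ne_zero_right _ (by exact_mod_cast hd.ne')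
  have h1 : ∑ p ∈ range d, tc P d q p ≤ 2 * P + Int.gcd q d := by
    have e1 : ∑ p ∈ range d, tc P d q p =
        ∑ t ∈ Icc (-(P : ℤ)) P, ((range d).filter (fun p : ℕ => (d : ℤ) ∣ (q * p - t))).card := by
      unfold tc
      simp only [Finset.card_filter]
      rw [Finset.sum_comm]
    rw [e1]
    have e2 : ∀ t ∈ Icc (-(P : ℤ)) P,
        ((range d).filter (fun p : ℕ => (d : ℤ) ∣ (q * p - t))).card ≤
        (if ((Int.gcd q d : ℕ) : ℤ) ∣ t then Int.gcd q d else 0) := by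
      intro t _
      split_ifs with h
      · exact wws_sol d hd q t
      · rw [Nat.le_zero, Finset.card_eq_zero, Finset.filter_eq_empty_iff]
        intro p _ hp
        apply h
        have h2 : ((Int.gcd q d : ℕ) : ℤ) ∣ q * p - t := dvd_trans (Int.gcd_dvd_right ..) hp
        have h3 : ((Int.gcd q d : ℕ) : ℤ) ∣ q * p := Dvd.dvd.mul_right (Int.gcd_dvd_left ..) _
        have h4 := dvd_sub h3 h2
        have e : q * (p : ℤ) - (q * p - t) = t := by ring
        rwa [e] at h4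
    refine (Finset.sum_le_sum e2).trans ?_
    rw [← Finset.sum_filter, Finset.sum_const, smul_eq_mul, mul_comm]
    exact wws_mul P _ hg
  rw [Finset.sum_range_succ]
  have h2 : tc P d q d ≤ 2 * P + Int.gcd q d := by
    have h3 : tc P d q d = tc P d q 0 := by
      unfold tc
      congr 1
      apply Finset.filter_congr
      intro t _
      constructor
      · intro h
        have h4 : (d : ℤ) ∣ q * d := Dvd.intro_left _ rfl
        have h5 := dvd_sub h h4
        have e : q * (d : ℤ) - t - q * d = q * ((0 : ℕ) : ℤ) - t := by push_cast; ring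
        rwa [e] at h5
      · intro h
        have h4 : (d : ℤ) ∣ q * d := Dvd.intro_left _ rfl
        have h5 := dvd_add h h4
        have e : q * ((0 : ℕ) : ℤ) - t + q * d = q * (d : ℤ) - t := by push_cast; ring
        rwa [e] at h5
    rw [h3]
    refine le_trans ?_ h1
    exact Finset.single_le_sum (f := fun p => tc P d q p) (fun _ _ => Nat.zero_le _)
      (Finset.mem_range.2 hd)
  omega

theorem WW_sum (D P R d : ℕ) (hd : 0 < d) :
    ∑ p ∈ range (d + 1), ∑ p' ∈ range (d + 1), WW D P R d p p' ≤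
      4 * ((2 * P + d) * (2 * R + d) +
        2 * ∑ q ∈ Ico 1 D, (2 * P + Nat.gcd q d) * (2 * R + Nat.gcd q d)) := by
  have e1 : ∑ p ∈ range (d + 1), ∑ p' ∈ range (d + 1), WW D P R d p p' =
      ∑ q ∈ Ioo (-(D : ℤ)) D, (∑ p ∈ range (d + 1), tc P d q p) *
        (∑ p' ∈ range (d + 1), tc R d q p') := by
    unfold WW
    have : ∀ p ∈ range (d + 1), ∑ p' ∈ range (d + 1), ∑ q ∈ Ioo (-(D : ℤ)) D,
        tc P d q p * tc R d q p' = ∑ q ∈ Ioo (-(D : ℤ)) D, tc P d q p *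
        ∑ p' ∈ range (d + 1), tc R d q p' := by
      intro p _
      rw [Finset.sum_comm]
      apply Finset.sum_congr rfl
      intro q _
      rw [Finset.mul_sum]
    rw [Finset.sum_congr rfl this, Finset.sum_comm]
    apply Finset.sum_congr rfl
    intro q _
    rw [Finset.sum_mul]
  rw [e1]
  have e2 : ∑ q ∈ Ioo (-(D : ℤ)) D, (∑ p ∈ range (d + 1), tc P d q p) *
        (∑ p' ∈ range (d + 1), tc R d q p') ≤
      ∑ q ∈ Ioo (-(D : ℤ)) D, 4 * ((2 * P + Int.gcd q d) * (2 * R + Int.gcd q d)) := by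
    apply Finset.sum_le_sum
    intro q _
    calc (∑ p ∈ range (d + 1), tc P d q p) * (∑ p' ∈ range (d + 1), tc R d q p')
        ≤ (2 * (2 * P + Int.gcd q d)) * (2 * (2 * R + Int.gcd q d)) :=
          Nat.mul_le_mul (tc_sum P d hd q) (tc_sum R d hd q)
      _ = 4 * ((2 * P + Int.gcd q d) * (2 * R + Int.gcd q d)) := by ring
  refine e2.trans ?_
  rw [← Finset.mul_sum]
  apply Nat.mul_le_mul_left
  -- split the sum
  have hsub : Ioo (-(D : ℤ)) D ⊆ ({0} : Finset ℤ) ∪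
      ((Ico 1 D).image (fun q : ℕ => (q : ℤ)) ∪ (Ico 1 D).image (fun q : ℕ => -(q : ℤ))) := by
    intro q hq
    rw [Finset.mem_Ioo] at hq
    rw [Finset.mem_union, Finset.mem_union, Finset.mem_singleton, Finset.mem_image,
      Finset.mem_image]
    rcases lt_trichotomy q 0 with h | h | h
    · right; right
      refine ⟨q.natAbs, ?_, ?_⟩
      · rw [Finset.mem_Ico]
        omega
      · omega
    · left; exact h
    · right; left
      refine ⟨q.natAbs, ?_, ?_⟩
      · rw [Finset.mem_Ico]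
        omega
      · omega
  let F : ℤ → ℕ := fun q => (2 * P + Int.gcd q d) * (2 * R + Int.gcd q d)
  have h1 : ∑ q ∈ Ioo (-(D : ℤ)) D, F q ≤ ∑ q ∈ ({0} : Finset ℤ) ∪
      ((Ico 1 D).image (fun q : ℕ => (q : ℤ)) ∪ (Ico 1 D).image (fun q : ℕ => -(q : ℤ))), F q :=
    Finset.sum_le_sum_of_subset hsub
  have h2 : ∀ A B : Finset ℤ, ∑ q ∈ A ∪ B, F q ≤ ∑ q ∈ A, F q + ∑ q ∈ B, F q := by
    intro A B
    rw [← Finset.sum_union_inter]
    exact Nat.le_add_right _ _
  have h3 : ∑ q ∈ ({0} : Finset ℤ), F q = (2 * P + d) * (2 * R + d) := by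
    rw [Finset.sum_singleton]
    show (2 * P + Int.gcd 0 d) * (2 * R + Int.gcd 0 d) = _
    simp
  have h4 : ∑ q ∈ (Ico 1 D).image (fun q : ℕ => (q : ℤ)), F q =
      ∑ q ∈ Ico 1 D, (2 * P + Nat.gcd q d) * (2 * R + Nat.gcd q d) := by
    rw [Finset.sum_image (by intro a _ b _ h; simpa using h)]
    apply Finset.sum_congr rfl
    intro q _
    show (2 * P + Int.gcd q d) * (2 * R + Int.gcd q d) = _
    simp
  have h5 : ∑ q ∈ (Ico 1 D).image (fun q : ℕ => -(q : ℤ)), F q =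
      ∑ q ∈ Ico 1 D, (2 * P + Nat.gcd q d) * (2 * R + Nat.gcd q d) := by
    rw [Finset.sum_image (by intro a _ b _ h; simpa using h)]
    apply Finset.sum_congr rfl
    intro q _
    show (2 * P + Int.gcd (-q) d) * (2 * R + Int.gcd (-q) d) = _
    simp
  have h6 := h2 ({0} : Finset ℤ)
      ((Ico 1 D).image (fun q : ℕ => (q : ℤ)) ∪ (Ico 1 D).image (fun q : ℕ => -(q : ℤ)))
  have h7 := h2 ((Ico 1 D).image (fun q : ℕ => (q : ℤ))) ((Ico 1 D).image (fun q : ℕ => -(q : ℤ)))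
  rw [h3] at h6
  rw [h4, h5] at h7
  have h8 : ∑ q ∈ Ioo (-(D : ℤ)) D, (2 * P + Int.gcd q d) * (2 * R + Int.gcd q d) =
    ∑ q ∈ Ioo (-(D : ℤ)) D, F q := rfl
  rw [h8]
  omega

open Classical in
/-- First moment of the pair count: exchange sums. -/
theorem UU_mean (l m s r P R : ℕ) (xx yy nx ny : ℕ → ℝ)
    (hx : ∀ d ∈ Ioo (2 ^ (l + m - s)) (2 * 2 ^ (l + m + 2 * s - r)), ∀ p ∈ range (d + 1),
      (((range (2 ^ (2 * l + m))).filter (fun x : ℕ =>
        |(d : ℝ) * x / 2 ^ (2 * l + m) - p| ≤ xx d)).card : ℝ) ≤ nx d)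
    (hy : ∀ d ∈ Ioo (2 ^ (l + m - s)) (2 * 2 ^ (l + m + 2 * s - r)), ∀ p ∈ range (d + 1),
      (((range (2 ^ (l + 2 * m))).filter (fun x : ℕ =>
        |(d : ℝ) * x / 2 ^ (l + 2 * m) - p| ≤ yy d)).card : ℝ) ≤ ny d) :
    ∑ α0 ∈ range (2 ^ (2 * l + m)), ∑ β0 ∈ range (2 ^ (l + 2 * m)),
      (UU l m s r P R xx yy α0 β0 : ℝ) ≤
    ∑ d ∈ Ioo (2 ^ (l + m - s)) (2 * 2 ^ (l + m + 2 * s - r)), nx d * ny d *
      ((∑ p ∈ range (d + 1), ∑ p' ∈ range (d + 1),
        WW (2 * 2 ^ (l + m + 2 * s - r)) P R d p p' : ℕ) : ℝ) := by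
  unfold UU
  push_cast
  set DD := Ioo (2 ^ (l + m - s)) (2 * 2 ^ (l + m + 2 * s - r)) with hDD
  set W := fun d p p' => ((WW (2 * 2 ^ (l + m + 2 * s - r)) P R d p p' : ℕ) : ℝ) with hW
  have key : ∀ d ∈ DD, ∑ α0 ∈ range (2 ^ (2 * l + m)), ∑ β0 ∈ range (2 ^ (l + 2 * m)),
      ∑ p ∈ range (d + 1), ∑ p' ∈ range (d + 1),
      (if |(d : ℝ) * (α0 : ℕ) / 2 ^ (2 * l + m) - p| ≤ xx d ∧
          |(d : ℝ) * (β0 : ℕ) / 2 ^ (l + 2 * m) - p'| ≤ yy d
      then W d p p' else 0) ≤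
      nx d * ny d * ∑ p ∈ range (d + 1), ∑ p' ∈ range (d + 1), W d p p' := by
    intro d hd
    have e1 : ∑ α0 ∈ range (2 ^ (2 * l + m)), ∑ β0 ∈ range (2 ^ (l + 2 * m)),
      ∑ p ∈ range (d + 1), ∑ p' ∈ range (d + 1),
      (if |(d : ℝ) * (α0 : ℕ) / 2 ^ (2 * l + m) - p| ≤ xx d ∧
          |(d : ℝ) * (β0 : ℕ) / 2 ^ (l + 2 * m) - p'| ≤ yy d
      then W d p p' else 0) = ∑ p ∈ range (d + 1), ∑ p' ∈ range (d + 1),
      (((range (2 ^ (2 * l + m))).filter (fun x : ℕ =>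
        |(d : ℝ) * x / 2 ^ (2 * l + m) - p| ≤ xx d)).card : ℝ) *
      (((range (2 ^ (l + 2 * m))).filter (fun x : ℕ =>
        |(d : ℝ) * x / 2 ^ (l + 2 * m) - p'| ≤ yy d)).card : ℝ) * W d p p' := by
      calc ∑ α0 ∈ range (2 ^ (2 * l + m)), ∑ β0 ∈ range (2 ^ (l + 2 * m)),
          ∑ p ∈ range (d + 1), ∑ p' ∈ range (d + 1),
          (if |(d : ℝ) * (α0 : ℕ) / 2 ^ (2 * l + m) - p| ≤ xx d ∧
              |(d : ℝ) * (β0 : ℕ) / 2 ^ (l + 2 * m) - p'| ≤ yy d
          then W d p p' else 0)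
          = ∑ α0 ∈ range (2 ^ (2 * l + m)), ∑ p ∈ range (d + 1), ∑ p' ∈ range (d + 1),
            ∑ β0 ∈ range (2 ^ (l + 2 * m)),
          (if |(d : ℝ) * (α0 : ℕ) / 2 ^ (2 * l + m) - p| ≤ xx d ∧
              |(d : ℝ) * (β0 : ℕ) / 2 ^ (l + 2 * m) - p'| ≤ yy d
          then W d p p' else 0) := by
            apply Finset.sum_congr rfl
            intro α0 _
            rw [Finset.sum_comm]
            apply Finset.sum_congr rfl
            intro p _
            rw [Finset.sum_comm]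
        _ = ∑ p ∈ range (d + 1), ∑ p' ∈ range (d + 1), ∑ α0 ∈ range (2 ^ (2 * l + m)),
            ∑ β0 ∈ range (2 ^ (l + 2 * m)),
          (if |(d : ℝ) * (α0 : ℕ) / 2 ^ (2 * l + m) - p| ≤ xx d ∧
              |(d : ℝ) * (β0 : ℕ) / 2 ^ (l + 2 * m) - p'| ≤ yy d
          then W d p p' else 0) := by
            rw [Finset.sum_comm]
            apply Finset.sum_congr rfl
            intro p _
            rw [Finset.sum_comm]
        _ = _ := by
            apply Finset.sum_congr rfl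
            intro p _
            apply Finset.sum_congr rfl
            intro p' _
            rw [Finset.card_filter, Finset.card_filter]
            push_cast
            rw [Finset.sum_mul_sum, Finset.sum_mul]
            apply Finset.sum_congr rfl
            intro α0 _
            rw [Finset.sum_mul]
            apply Finset.sum_congr rfl
            intro β0 _
            by_cases h1 : |(d : ℝ) * (α0 : ℕ) / 2 ^ (2 * l + m) - p| ≤ xx d
            · by_cases h2 : |(d : ℝ) * (β0 : ℕ) / 2 ^ (l + 2 * m) - p'| ≤ yy d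
              · rw [if_pos ⟨h1, h2⟩, if_pos h1, if_pos h2]
                ring
              · rw [if_neg (fun h => h2 h.2), if_neg h2]
                ring
            · rw [if_neg (fun h => h1 h.1), if_neg h1]
              ring
    rw [e1, Finset.mul_sum]
    apply Finset.sum_le_sum
    intro p hp
    rw [Finset.mul_sum]
    apply Finset.sum_le_sum
    intro p' hp'
    apply mul_le_mul_of_nonneg_right _ (Nat.cast_nonneg _)
    have h1 := hx d hd p hp
    have h2 := hy d hd p' hp'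
    exact mul_le_mul h1 h2 (Nat.cast_nonneg _) (le_trans (Nat.cast_nonneg _) h1)
  calc _ = ∑ d ∈ DD, ∑ α0 ∈ range (2 ^ (2 * l + m)), ∑ β0 ∈ range (2 ^ (l + 2 * m)),
      ∑ p ∈ range (d + 1), ∑ p' ∈ range (d + 1),
      (if |(d : ℝ) * (α0 : ℕ) / 2 ^ (2 * l + m) - p| ≤ xx d ∧
          |(d : ℝ) * (β0 : ℕ) / 2 ^ (l + 2 * m) - p'| ≤ yy d
      then W d p p' else 0) := by
        rw [Finset.sum_comm]
        have : ∀ β0 ∈ range (2 ^ (l + 2 * m)), ∑ α0 ∈ range (2 ^ (2 * l + m)), ∑ d ∈ DD,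
          ∑ p ∈ range (d + 1), ∑ p' ∈ range (d + 1),
          (if |(d : ℝ) * (α0 : ℕ) / 2 ^ (2 * l + m) - p| ≤ xx d ∧
              |(d : ℝ) * (β0 : ℕ) / 2 ^ (l + 2 * m) - p'| ≤ yy d
          then W d p p' else 0) = ∑ d ∈ DD, ∑ α0 ∈ range (2 ^ (2 * l + m)),
          ∑ p ∈ range (d + 1), ∑ p' ∈ range (d + 1),
          (if |(d : ℝ) * (α0 : ℕ) / 2 ^ (2 * l + m) - p| ≤ xx d ∧
              |(d : ℝ) * (β0 : ℕ) / 2 ^ (l + 2 * m) - p'| ≤ yy d
          then W d p p' else 0) := fun β0 _ => Finset.sum_comm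
        rw [Finset.sum_congr rfl this, Finset.sum_comm]
        apply Finset.sum_congr rfl
        intro d _
        rw [Finset.sum_comm]
    _ ≤ _ := Finset.sum_le_sum key

open Classical in
/-- counting integers in an interval: `|d x/2^a - p| ≤ X` means `|x - 2^a p/d| ≤ 2^a X/d`; at most
`2·2^a X/d + 1` integers. -/
theorem cnt_int (a d p : ℕ) (hd : 0 < d) (X : ℝ) (hX : 0 ≤ X) :
    (((range (2 ^ a)).filter (fun x : ℕ => |(d : ℝ) * x / 2 ^ a - p| ≤ X)).card : ℝ) ≤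
      2 * 2 ^ a * X / d + 1 := by
  have hd' : (0 : ℝ) < d := by exact_mod_cast hd
  have h2a : (0 : ℝ) < 2 ^ a := by positivity
  set A : ℝ := 2 ^ a * p / d - 2 ^ a * X / d with hA
  set B : ℝ := 2 ^ a * p / d + 2 ^ a * X / d with hB
  have h1 : ∀ x : ℕ, |(d : ℝ) * x / 2 ^ a - p| ≤ X → A ≤ x ∧ (x : ℝ) ≤ B := by
    intro x hx
    rw [abs_le] at hx
    have e : (x : ℝ) = 2 ^ a * p / d + 2 ^ a * ((d : ℝ) * x / 2 ^ a - p) / d := by
      field_simp
      ring
    constructor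
    · rw [e, hA]
      have : 2 ^ a * (-X) / d ≤ 2 ^ a * ((d : ℝ) * x / 2 ^ a - p) / d := by
        apply div_le_div_of_nonneg_right _ hd'.le
        exact mul_le_mul_of_nonneg_left hx.1 h2a.le
      have e2 : 2 ^ a * (-X) / d = - (2 ^ a * X / d) := by ring
      linarith
    · rw [e, hB]
      have : 2 ^ a * ((d : ℝ) * x / 2 ^ a - p) / d ≤ 2 ^ a * X / d := by
        apply div_le_div_of_nonneg_right _ hd'.le
        exact mul_le_mul_of_nonneg_left hx.2 h2a.le
      linarith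
  have hAB : A ≤ B := by
    have : 0 ≤ 2 ^ a * X / d := by positivity
    linarith
  have h2 : ((range (2 ^ a)).filter (fun x : ℕ => |(d : ℝ) * x / 2 ^ a - p| ≤ X)).card ≤
      (Icc ⌈A⌉ ⌊B⌋).card := by
    apply Finset.card_le_card_of_injOn (fun x : ℕ => (x : ℤ))
    · intro x hx
      rw [Finset.mem_coe, Finset.mem_filter] at hx
      rw [Finset.mem_coe, Finset.mem_Icc]
      obtain ⟨h3, h4⟩ := h1 x hx.2
      constructor
      · rw [Int.ceil_le]
        push_cast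
        exact h3
      · rw [Int.le_floor]
        push_cast
        exact h4
    · intro x _ y _ h
      simpa using h
  have h3 : ((Icc ⌈A⌉ ⌊B⌋).card : ℝ) ≤ B - A + 1 := by
    rw [Int.card_Icc]
    have h4 : (((⌊B⌋ + 1 - ⌈A⌉).toNat : ℕ) : ℝ) = ((max (⌊B⌋ + 1 - ⌈A⌉) 0 : ℤ) : ℝ) := by
      rw [← Int.toNat_eq_max]
      push_cast
      rfl
    rw [h4]
    push_cast
    apply max_le
    · have h5 := Int.floor_le B
      have h6 := Int.le_ceil A
      linarith
    · linarith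
  have h4 : B - A + 1 = 2 * 2 ^ a * X / d + 1 := by
    rw [hA, hB]
    ring
  rw [← h4]
  refine le_trans ?_ h3
  exact_mod_cast h2

end MP_5e4520_nt
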