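import Pool.Agent.Lib.MP_5e4520_nt.LGD
import Pool.Agent.Lib.MP_5e4520_nt.GcdS
import Pool.Agent.Lib.MP_5e4520_nt.WWS

set_option autoImplicit false

namespace MP_5e4520_nt

open Finset

/-- the count of `β0` for the width `4 κ + d / N` is at most `11` -/
private theorem u2m_cnt (a k d p : ℕ) (hk : k ≤ a) (hd : 2 ^ (a - k) < d) :
    ((((range (2 ^ a)).filter (fun x : ℕ =>
      |(d : ℝ) * x / 2 ^ a - p| ≤ 4 / 2 ^ k + d / 2 ^ a)).card : ℕ) : ℝ) ≤ 11 := by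
  classical
  have hd0 : 0 < d := lt_of_le_of_lt (Nat.zero_le _) hd
  have h := cnt_int a d p hd0 (4 / 2 ^ k + d / 2 ^ a) (by positivity)
  have hcard : ((((range (2 ^ a)).filter (fun x : ℕ =>
      |(d : ℝ) * x / 2 ^ a - p| ≤ 4 / 2 ^ k + d / 2 ^ a)).card : ℕ) : ℝ) ≤
      2 * 2 ^ a * (4 / 2 ^ k + d / 2 ^ a) / d + 1 := by
    convert h
  refine hcard.trans ?_
  have hdR : (0 : ℝ) < d := by exact_mod_cast hd0
  have h1 : (2 : ℝ) ^ a = 2 ^ (a - k) * 2 ^ k := by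
    rw [← pow_add]
    congr 1
    omega
  have h2 : (2 : ℝ) ^ (a - k) < d := by exact_mod_cast hd
  have h3 : 2 * 2 ^ a * (4 / 2 ^ k + (d : ℝ) / 2 ^ a) / d = 8 * 2 ^ (a - k) / d + 2 := by
    rw [h1]
    field_simp
    ring
  rw [h3]
  have h4 : 8 * (2 : ℝ) ^ (a - k) / d ≤ 8 := by
    rw [div_le_iff₀ hdR]
    linarith
  linarith

/-- the count of `α0` for the width `7 K / N` -/
private theorem u2m_cnt' (a d p K : ℕ) (hd : 0 < d) (hdK : d < 2 * 2 ^ K) :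
    ((((range (2 ^ a)).filter (fun x : ℕ =>
      |(d : ℝ) * x / 2 ^ a - p| ≤ 7 * 2 ^ K / 2 ^ a)).card : ℕ) : ℝ) ≤ 16 * 2 ^ K / d := by
  classical
  have h := cnt_int a d p hd (7 * 2 ^ K / 2 ^ a) (by positivity)
  have hcard : ((((range (2 ^ a)).filter (fun x : ℕ =>
      |(d : ℝ) * x / 2 ^ a - p| ≤ 7 * 2 ^ K / 2 ^ a)).card : ℕ) : ℝ) ≤
      2 * 2 ^ a * (7 * 2 ^ K / 2 ^ a) / d + 1 := by
    convert h
  refine hcard.trans ?_
  have hdR : (0 : ℝ) < d := by exact_mod_cast hd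
  have h2 : (d : ℝ) < 2 * 2 ^ K := by exact_mod_cast hdK
  have h3 : 2 * 2 ^ a * (7 * 2 ^ K / 2 ^ a) / (d : ℝ) + 1 = (14 * 2 ^ K + d) / d := by
    field_simp
    ring
  rw [h3]
  apply div_le_div_of_nonneg_right _ hdR.le
  linarith

/-- the double sum over `q` and `d` with the weight `1 / d` -/
private theorem u2m_double (D K' : ℕ) (P R h : ℝ) (hP : 0 ≤ P) (hR : 0 ≤ R)
    (hH : ∑ d ∈ Ioo K' D, (1 : ℝ) / d ≤ h) :
    ∑ d ∈ Ioo K' D,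
      (∑ q ∈ Ico 1 D, (2 * P + (Nat.gcd q d : ℝ)) * (2 * R + (Nat.gcd q d : ℝ))) / d ≤
      4 * P * R * D * h + 2 * (P + R) * ((D : ℝ) * (1 + Nat.log 2 D) ^ 2) +
        2 * (D : ℝ) ^ 2 := by
  have hsub : Ioo K' D ⊆ Ico 1 D := by
    intro d hd
    rw [Finset.mem_Ioo] at hd
    rw [Finset.mem_Ico]
    exact ⟨lt_of_le_of_lt (Nat.zero_le _) hd.1, hd.2⟩
  have h1 : ∑ d ∈ Ioo K' D,
      (∑ q ∈ Ico 1 D, (2 * P + (Nat.gcd q d : ℝ)) * (2 * R + (Nat.gcd q d : ℝ))) / d =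
      (∑ d ∈ Ioo K' D, 4 * P * R * ((D - 1 : ℕ) : ℝ) * (1 / (d : ℝ))) +
      2 * (P + R) * (∑ d ∈ Ioo K' D, (∑ q ∈ Ico 1 D, (Nat.gcd q d : ℝ)) / d) +
      ∑ d ∈ Ioo K' D, (∑ q ∈ Ico 1 D, (Nat.gcd q d : ℝ) ^ 2) / d := by
    rw [Finset.mul_sum, ← Finset.sum_add_distrib, ← Finset.sum_add_distrib]
    refine Finset.sum_congr rfl fun d _ => ?_
    have h2 : ∑ q ∈ Ico 1 D, (2 * P + (Nat.gcd q d : ℝ)) * (2 * R + (Nat.gcd q d : ℝ)) =
        4 * P * R * ((D - 1 : ℕ) : ℝ) + 2 * (P + R) * (∑ q ∈ Ico 1 D, (Nat.gcd q d : ℝ)) +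
        ∑ q ∈ Ico 1 D, (Nat.gcd q d : ℝ) ^ 2 := by
      have h3 : 4 * P * R * ((D - 1 : ℕ) : ℝ) = ∑ q ∈ Ico 1 D, 4 * P * R := by
        rw [Finset.sum_const, Nat.card_Ico, nsmul_eq_mul]
        ring
      rw [h3, Finset.mul_sum, ← Finset.sum_add_distrib, ← Finset.sum_add_distrib]
      refine Finset.sum_congr rfl fun q _ => ?_
      ring
    rw [h2]
    ring
  rw [h1]
  have h2 : (∑ d ∈ Ioo K' D, 4 * P * R * ((D - 1 : ℕ) : ℝ) * (1 / (d : ℝ))) ≤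
      4 * P * R * D * h := by
    rw [← Finset.mul_sum]
    have h3 : ((D - 1 : ℕ) : ℝ) ≤ D := by exact_mod_cast Nat.sub_le D 1
    have h4 : (0 : ℝ) ≤ ∑ d ∈ Ioo K' D, (1 : ℝ) / d :=
      Finset.sum_nonneg fun d _ => by positivity
    exact mul_le_mul (mul_le_mul_of_nonneg_left h3 (by positivity)) hH h4 (by positivity)
  have h3 : ∑ d ∈ Ioo K' D, (∑ q ∈ Ico 1 D, (Nat.gcd q d : ℝ)) / d ≤
      (D : ℝ) * (1 + Nat.log 2 D) ^ 2 :=
    (Finset.sum_le_sum_of_subset_of_nonneg hsub (fun d _ _ => by positivity)).trans (gcd_sum3 D)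
  have h4 : ∑ d ∈ Ioo K' D, (∑ q ∈ Ico 1 D, (Nat.gcd q d : ℝ) ^ 2) / d ≤ 2 * (D : ℝ) ^ 2 :=
    (Finset.sum_le_sum_of_subset_of_nonneg hsub (fun d _ _ => by positivity)).trans (gcd_sum4 D)
  have h5 := mul_le_mul_of_nonneg_left h3 (by positivity : 0 ≤ 2 * (P + R))
  linarith

/-- `D = 2K`.  `nx d = 16K/d` (`cnt_int`: `14K/d + 1 ≤ 16K/d` as `d < 2K`), `ny = 11`.  The sum is
`≤ 704 K ∑_{K'<d<D} (1/d)[(2P2+d)(2R1+d) + 2∑_{1≤q<D}(4P2R1 + 2(P2+R1)g + g²)]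
 ≤ 704 K [4P2R1 H + 2(P2+R1)D + D² + 8 P2R1 D H + 4(P2+R1) D (1+log2 D)² + 4D²]`, with
`H = ∑_{K'<d<2K} 1/d ≤ 3s-r+1 ≤ 3s` (`harm_block`), `gcd_sum3`, `gcd_sum4`.  With
`X = K·2^(l+m+5s-3r)`: `P2R1 = 2048·2^(l+m+5s-3r)`, so `8P2R1DH ≤ 98304 s X`, and the other terms are
`≤ 3X` in total (`P2 D = 128 X 2^(r-l-s)`, `R1 D = 64 X 2^(2r-m-4s)`, `(1+log2 D)² ≤ 2^(2s)/2^14`,
`D² = 4K² = 4X/2^(3s-2r)`).  `704(98304 s + 3) ≤ 2^27 s`; `K X = 2^(a+b) 2^(9s)/2^(5r)`. -/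
theorem U2_mean (l m s r : ℕ) (hP : ParS l m s r) (hlog : 2 ^ 7 * (l + m + 2 * s + 2) ≤ 2 ^ s) :
    ∑ α0 ∈ range (2 ^ (2 * l + m)), ∑ β0 ∈ range (2 ^ (l + 2 * m)), (U2 l m s r α0 β0 : ℝ) ≤
      2 ^ 27 * s * 2 ^ (9 * s) / 2 ^ (5 * r) * 2 ^ (2 * l + m) * 2 ^ (l + 2 * m) := by
  obtain ⟨hr12, hrs, hsl, hsm⟩ := hP
  obtain ⟨t, rfl⟩ : ∃ t, s = r + t := ⟨s - r, by omega⟩
  have hmean := UU_mean l m (r + t) r (64 * 2 ^ (m + 4 * (r + t) - 2 * r))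
    (32 * 2 ^ (l + (r + t) - r))
    (fun _ => 7 * 2 ^ (l + m + 2 * (r + t) - r) / 2 ^ (2 * l + m))
    (fun d => 4 / 2 ^ (m + (r + t)) + d / 2 ^ (l + 2 * m))
    (fun d => 16 * 2 ^ (l + m + 2 * (r + t) - r) / d) (fun _ => 11)
    (fun d hd p _ => by
      rw [Finset.mem_Ioo] at hd
      exact u2m_cnt' (2 * l + m) d p (l + m + 2 * (r + t) - r)
        (lt_of_le_of_lt (Nat.zero_le _) hd.1) hd.2)
    (fun d hd p _ => by
      rw [Finset.mem_Ioo] at hd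
      have h1 : l + 2 * m - (m + (r + t)) = l + m - (r + t) := by omega
      exact u2m_cnt (l + 2 * m) (m + (r + t)) d p (by omega) (by rw [h1]; exact hd.1))
  have hU : ∀ α0 β0 : ℕ, U2 l m (r + t) r α0 β0 = UU l m (r + t) r
    (64 * 2 ^ (m + 4 * (r + t) - 2 * r)) (32 * 2 ^ (l + (r + t) - r))
    (fun _ => 7 * 2 ^ (l + m + 2 * (r + t) - r) / 2 ^ (2 * l + m))
    (fun d => 4 / 2 ^ (m + (r + t)) + d / 2 ^ (l + 2 * m)) α0 β0 := fun _ _ => rfl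
  simp only [hU]
  refine hmean.trans ?_
  -- exponents
  have e1 : m + 4 * (r + t) - 2 * r = m + (r + t) + (r + t) + t + t := by omega
  have e2 : l + (r + t) - r = l + t := by omega
  have e3 : l + m + 2 * (r + t) - r = l + m + (r + t) + t := by omega
  rw [e1, e2, e3]
  set x : ℝ := 2 ^ l with hx
  set y : ℝ := 2 ^ m with hy
  set ρ : ℝ := 2 ^ r with hρ
  set T : ℝ := 2 ^ t with hT
  have hx1 : 1 ≤ x := one_le_pow₀ (by norm_num)
  have hy1 : 1 ≤ y := one_le_pow₀ (by norm_num)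
  have hT1 : 1 ≤ T := one_le_pow₀ (by norm_num)
  have hρ12 : 4096 ≤ ρ := by
    have : (2 : ℝ) ^ 12 ≤ 2 ^ r := pow_le_pow_right₀ (by norm_num) hr12
    norm_num at this
    exact this
  set w : ℝ := ρ * T with hw
  have hw12 : 4096 ≤ w := by nlinarith
  have hxw : w ^ 2 ≤ x := by
    rw [hw, hρ, hT, ← pow_add, ← pow_mul]
    exact pow_le_pow_right₀ (by norm_num) (by omega)
  have hyw : w ^ 2 ≤ y := by
    rw [hw, hρ, hT, ← pow_add, ← pow_mul]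
    exact pow_le_pow_right₀ (by norm_num) (by omega)
  set D : ℕ := 2 * 2 ^ (l + m + (r + t) + t) with hD
  set P : ℕ := 64 * 2 ^ (m + (r + t) + (r + t) + t + t) with hPd
  set R : ℕ := 32 * 2 ^ (l + t) with hRd
  set K' : ℕ := 2 ^ (l + m - (r + t)) with hK'
  have hKR : (2 : ℝ) ^ (l + m + (r + t) + t) = x * y * w * T := by
    rw [hw, hx, hy, hρ, hT]; ring
  have hDR : (D : ℝ) = 2 * (x * y * w * T) := by
    rw [hD]; push_cast; rw [hKR]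
  have hPR : (P : ℝ) = 64 * (y * w ^ 2 * T ^ 2) := by
    rw [hPd]; push_cast; rw [hw, hy, hρ, hT]; ring
  have hRR : (R : ℝ) = 32 * (x * T) := by
    rw [hRd]; push_cast; rw [pow_add]
  rw [hKR]
  -- the harmonic sum
  have hH : ∑ d ∈ Ioo K' D, (1 : ℝ) / d ≤ 3 * ((r + t : ℕ) : ℝ) := by
    have h1 := harm_block K' (2 * r + 3 * t + 1) (by rw [hK']; positivity)
    have h2 : 2 ^ (2 * r + 3 * t + 1) * K' = D := by
      rw [hK', hD, ← pow_add, ← pow_succ']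
      congr 1
      omega
    rw [h2] at h1
    refine h1.trans ?_
    have h3 : (2 * r + 3 * t + 1 : ℕ) ≤ 3 * (r + t) := by omega
    exact_mod_cast h3
  -- pointwise bound
  have hpt : ∀ d ∈ Ioo K' D, 16 * (x * y * w * T) / (d : ℝ) * 11 *
      ((∑ p ∈ range (d + 1), ∑ p' ∈ range (d + 1), WW D P R d p p' : ℕ) : ℝ) ≤
      704 * (x * y * w * T) * (4 * P * R * (1 / d) + (2 * (P + R) + D)) +
      1408 * (x * y * w * T) * ((∑ q ∈ Ico 1 D,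
        (2 * (P : ℝ) + (Nat.gcd q d : ℝ)) * (2 * R + (Nat.gcd q d : ℝ))) / d) := by
    intro d hd
    rw [Finset.mem_Ioo] at hd
    have hd0 : 0 < d := lt_of_le_of_lt (Nat.zero_le _) hd.1
    have hdR : (0 : ℝ) < d := by exact_mod_cast hd0
    have h1 := WW_sum D P R d hd0
    have h2 : ((∑ p ∈ range (d + 1), ∑ p' ∈ range (d + 1), WW D P R d p p' : ℕ) : ℝ) ≤
        4 * ((2 * P + d) * (2 * R + d) +
        2 * ∑ q ∈ Ico 1 D, (2 * (P : ℝ) + (Nat.gcd q d : ℝ)) * (2 * R + (Nat.gcd q d : ℝ))) := by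
      have h3 : ((∑ p ∈ range (d + 1), ∑ p' ∈ range (d + 1), WW D P R d p p' : ℕ) : ℝ) ≤
        ((4 * ((2 * P + d) * (2 * R + d) +
        2 * ∑ q ∈ Ico 1 D, (2 * P + Nat.gcd q d) * (2 * R + Nat.gcd q d)) : ℕ) : ℝ) := by
        exact_mod_cast h1
      refine h3.trans (le_of_eq ?_)
      push_cast
      rfl
    have h4 : (d : ℝ) ≤ D := by exact_mod_cast hd.2.le
    have hc : 0 ≤ 16 * (x * y * w * T) / (d : ℝ) * 11 := by positivity
    refine (mul_le_mul_of_nonneg_left h2 hc).trans ?_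
    have h5 : 16 * (x * y * w * T) / (d : ℝ) * 11 * (4 * ((2 * P + d) * (2 * R + d) +
        2 * ∑ q ∈ Ico 1 D, (2 * (P : ℝ) + (Nat.gcd q d : ℝ)) * (2 * R + (Nat.gcd q d : ℝ)))) =
        704 * (x * y * w * T) * (4 * P * R * (1 / d) + (2 * (P + R) + d)) +
      1408 * (x * y * w * T) * ((∑ q ∈ Ico 1 D,
        (2 * (P : ℝ) + (Nat.gcd q d : ℝ)) * (2 * R + (Nat.gcd q d : ℝ))) / d) := by
      field_simp
      ring
    rw [h5]
    gcongr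
  refine (Finset.sum_le_sum hpt).trans ?_
  rw [Finset.sum_add_distrib, ← Finset.mul_sum, ← Finset.mul_sum, Finset.sum_add_distrib,
    ← Finset.mul_sum, Finset.sum_const, nsmul_eq_mul]
  have hcard : ((Ioo K' D).card : ℝ) ≤ D := by
    have : (Ioo K' D).card ≤ D := by
      rw [Nat.card_Ioo]
      exact (Nat.sub_le _ _).trans (Nat.sub_le _ _)
    exact_mod_cast this
  have hdouble := u2m_double D K' (P : ℝ) (R : ℝ) _ (Nat.cast_nonneg _) (Nat.cast_nonneg _) hH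
  have hlogD : 1 + (Nat.log 2 D : ℝ) ≤ w / 128 := by
    have h1 : Nat.log 2 D = l + m + (r + t) + t + 1 := by
      rw [hD, ← pow_succ', Nat.log_pow (by norm_num)]
    have h2 : ((2 ^ 7 * (l + m + 2 * (r + t) + 2) : ℕ) : ℝ) ≤ ((2 ^ (r + t) : ℕ) : ℝ) := by
      exact_mod_cast hlog
    rw [h1]
    push_cast at h2 ⊢
    rw [pow_add, ← hρ, ← hT, ← hw] at h2
    have h3 : (0 : ℝ) ≤ r := Nat.cast_nonneg _
    linarith
  have hlogD2 : (1 + (Nat.log 2 D : ℝ)) ^ 2 ≤ w ^ 2 / 16384 := by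
    have h1 := pow_le_pow_left₀ (by positivity) hlogD 2
    refine h1.trans (le_of_eq ?_)
    ring
  have hsw : ((r + t : ℕ) : ℝ) ≤ w := by
    have h1 : r + t < 2 ^ (r + t) := Nat.lt_two_pow_self
    have h2 : ((r + t : ℕ) : ℝ) < ((2 ^ (r + t) : ℕ) : ℝ) := by exact_mod_cast h1
    push_cast at h2 ⊢
    rw [pow_add] at h2
    exact h2.le
  set σ : ℝ := ((r + t : ℕ) : ℝ) with hσ
  have hσ1 : 1 ≤ σ := by
    have : 1 ≤ r + t := by omega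
    rw [hσ]
    exact_mod_cast this
  -- the abbreviations `K` and `E`
  set K : ℝ := x * y * w * T with hK
  set E : ℝ := x * y * w ^ 2 * T ^ 3 with hE
  have hx0 : 0 < x := by linarith
  have hy0 : 0 < y := by linarith
  have hT0 : 0 < T := by linarith
  have hw0 : 0 < w := by linarith
  have hK0 : 0 < K := by positivity
  have hE0 : 0 < E := by positivity
  have hPRE : (P : ℝ) * R = 2048 * E := by rw [hPR, hRR, hE]; ring
  have hw2 : (16777216 : ℝ) ≤ w ^ 2 := by nlinarith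
  have hx2 : (16777216 : ℝ) ≤ x := hw2.trans hxw
  have hy2 : (16777216 : ℝ) ≤ y := hw2.trans hyw
  -- small terms
  have hT2 : 1 ≤ T ^ 2 := one_le_pow₀ hT1
  have hyT : 1 ≤ y * T := one_le_mul_of_one_le_of_one_le hy1 hT1
  have k1 : 49152 * σ * E ≤ K * E := by
    apply mul_le_mul_of_nonneg_right _ hE0.le
    have h1 : 49152 * σ ≤ x * w := by
      calc 49152 * σ ≤ x * σ := mul_le_mul_of_nonneg_right (by linarith) (by linarith)
        _ ≤ x * w := mul_le_mul_of_nonneg_left hsw hx0.le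
    calc 49152 * σ ≤ x * w := h1
      _ = x * w * 1 := (mul_one _).symm
      _ ≤ x * w * (y * T) := mul_le_mul_of_nonneg_left hyT (by positivity)
      _ = K := by rw [hK]; ring
  have hxT : x ≤ x * T := le_mul_of_one_le_right hx0.le hT1
  have hyw2 : y ≤ y * (w ^ 2 * T ^ 2) :=
    le_mul_of_one_le_right hy0.le (one_le_mul_of_one_le_of_one_le (by linarith) hT2)
  have hwT2 : w ≤ w * T ^ 2 := le_mul_of_one_le_right hw0.le hT2
  have k2 : 2 * (P : ℝ) * D ≤ K * E / 8 := by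
    have h1 : 2048 * (x * y ^ 2 * w ^ 3 * T ^ 3) ≤ (x * T) * (x * y ^ 2 * w ^ 3 * T ^ 3) :=
      mul_le_mul_of_nonneg_right (by linarith) (by positivity)
    have h2 : K * E = (x * T) * (x * y ^ 2 * w ^ 3 * T ^ 3) := by rw [hK, hE]; ring
    have h3 : 2 * (P : ℝ) * D = 2048 * (x * y ^ 2 * w ^ 3 * T ^ 3) / 8 := by
      rw [hPR, hDR, hK]; ring
    rw [h2, h3]
    linarith only [h1]
  have k3 : 2 * (R : ℝ) * D ≤ K * E / 8 := by
    have h1 : 1024 * (x ^ 2 * y * w * T ^ 2) ≤ (y * (w ^ 2 * T ^ 2)) * (x ^ 2 * y * w * T ^ 2) :=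
      mul_le_mul_of_nonneg_right (by linarith) (by positivity)
    have h2 : K * E = (y * (w ^ 2 * T ^ 2)) * (x ^ 2 * y * w * T ^ 2) := by rw [hK, hE]; ring
    have h3 : 2 * (R : ℝ) * D = 1024 * (x ^ 2 * y * w * T ^ 2) / 8 := by
      rw [hRR, hDR, hK]; ring
    rw [h2, h3]
    linarith only [h1]
  have k4 : 5 * (D : ℝ) ^ 2 ≤ K * E / 8 := by
    have h1 : 160 * (x ^ 2 * y ^ 2 * w ^ 2 * T ^ 2) ≤
        (w * T ^ 2) * (x ^ 2 * y ^ 2 * w ^ 2 * T ^ 2) :=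
      mul_le_mul_of_nonneg_right (by linarith) (by positivity)
    have h2 : K * E = (w * T ^ 2) * (x ^ 2 * y ^ 2 * w ^ 2 * T ^ 2) := by rw [hK, hE]; ring
    have h3 : 5 * (D : ℝ) ^ 2 = 160 * (x ^ 2 * y ^ 2 * w ^ 2 * T ^ 2) / 8 := by
      rw [hDR, hK]; ring
    rw [h2, h3]
    linarith only [h1]
  have k5 : 4 * (P : ℝ) * (D * (1 + (Nat.log 2 D : ℝ)) ^ 2) ≤ K * E / 8 := by
    have h0 : 4 * (P : ℝ) * (D * (1 + (Nat.log 2 D : ℝ)) ^ 2) ≤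
        4 * (P : ℝ) * (D * (w ^ 2 / 16384)) :=
      mul_le_mul_of_nonneg_left (mul_le_mul_of_nonneg_left hlogD2 (Nat.cast_nonneg _))
        (by positivity)
    refine h0.trans ?_
    have h1 : w ^ 2 * (x * y ^ 2 * w ^ 3 * T ^ 3) ≤ (x * T) * (x * y ^ 2 * w ^ 3 * T ^ 3) :=
      mul_le_mul_of_nonneg_right (by linarith) (by positivity)
    have h2 : K * E = (x * T) * (x * y ^ 2 * w ^ 3 * T ^ 3) := by rw [hK, hE]; ring
    have h3 : 4 * (P : ℝ) * (D * (w ^ 2 / 16384)) = w ^ 2 * (x * y ^ 2 * w ^ 3 * T ^ 3) / 32 := by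
      rw [hPR, hDR, hK]; ring
    have h4 : 0 ≤ w ^ 2 * (x * y ^ 2 * w ^ 3 * T ^ 3) := by positivity
    rw [h2, h3]
    linarith only [h1, h4]
  have k6 : 4 * (R : ℝ) * (D * (1 + (Nat.log 2 D : ℝ)) ^ 2) ≤ K * E / 8 := by
    have h0 : 4 * (R : ℝ) * (D * (1 + (Nat.log 2 D : ℝ)) ^ 2) ≤
        4 * (R : ℝ) * (D * (w ^ 2 / 16384)) :=
      mul_le_mul_of_nonneg_left (mul_le_mul_of_nonneg_left hlogD2 (Nat.cast_nonneg _))
        (by positivity)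
    refine h0.trans ?_
    have h1 : 1 * (x ^ 2 * y * w ^ 3 * T ^ 2) ≤ (y * T ^ 2) * (x ^ 2 * y * w ^ 3 * T ^ 2) :=
      mul_le_mul_of_nonneg_right (one_le_mul_of_one_le_of_one_le hy1 hT2) (by positivity)
    have h2 : K * E = (y * T ^ 2) * (x ^ 2 * y * w ^ 3 * T ^ 2) := by rw [hK, hE]; ring
    have h3 : 4 * (R : ℝ) * (D * (w ^ 2 / 16384)) = x ^ 2 * y * w ^ 3 * T ^ 2 / 64 := by
      rw [hRR, hDR, hK]; ring
    have h4 : 0 ≤ x ^ 2 * y * w ^ 3 * T ^ 2 := by positivity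
    rw [h2, h3]
    linarith only [h1, h4]
  -- assembly
  have hKE0 : 0 < K * E := by positivity
  have m1 : 4 * (P : ℝ) * R * (∑ d ∈ Ioo K' D, 1 / (d : ℝ)) ≤ K * E / 2 := by
    have h1 : 4 * (P : ℝ) * R * (∑ d ∈ Ioo K' D, 1 / (d : ℝ)) ≤ 4 * (P : ℝ) * R * (3 * σ) :=
      mul_le_mul_of_nonneg_left hH (by positivity)
    refine h1.trans ?_
    have h2 : 4 * (P : ℝ) * R * (3 * σ) = 49152 * σ * E / 2 := by
      have : 4 * (P : ℝ) * R * (3 * σ) = 12 * σ * (P * R) := by ring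
      rw [this, hPRE]
      ring
    rw [h2]
    linarith
  have m2 : ((Ioo K' D).card : ℝ) * (2 * (P + R) + D) ≤ K * E / 8 + K * E / 8 + (D : ℝ) ^ 2 := by
    have h1 : ((Ioo K' D).card : ℝ) * (2 * (P + R) + D) ≤ D * (2 * (P + R) + D) :=
      mul_le_mul_of_nonneg_right hcard (by positivity)
    have h2 : (D : ℝ) * (2 * (P + R) + D) = 2 * (P : ℝ) * D + 2 * (R : ℝ) * D + (D : ℝ) ^ 2 := by
      ring
    linarith
  have m3 : 4 * (P : ℝ) * R * D * (3 * σ) = 49152 * σ * (K * E) := by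
    have : 4 * (P : ℝ) * R * D * (3 * σ) = 12 * σ * D * (P * R) := by ring
    rw [this, hPRE, hDR]
    ring
  have m4 : 2 * ((P : ℝ) + R) * ((D : ℝ) * (1 + Nat.log 2 D) ^ 2) ≤ K * E / 8 := by
    have : 2 * ((P : ℝ) + R) * ((D : ℝ) * (1 + Nat.log 2 D) ^ 2) =
      (4 * (P : ℝ) * (D * (1 + (Nat.log 2 D : ℝ)) ^ 2) +
        4 * (R : ℝ) * (D * (1 + (Nat.log 2 D : ℝ)) ^ 2)) / 2 := by ring
    rw [this]
    linarith
  have hA : 4 * (P : ℝ) * R * (∑ d ∈ Ioo K' D, 1 / (d : ℝ)) +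
      ((Ioo K' D).card : ℝ) * (2 * (P + R) + D) ≤ K * E * (3 / 4) + (D : ℝ) ^ 2 := by linarith
  have hB : ∑ d ∈ Ioo K' D, (∑ q ∈ Ico 1 D,
        (2 * (P : ℝ) + (Nat.gcd q d : ℝ)) * (2 * R + (Nat.gcd q d : ℝ))) / d ≤
      49152 * σ * (K * E) + K * E / 8 + 2 * (D : ℝ) ^ 2 := by
    refine hdouble.trans ?_
    rw [m3]
    linarith
  have htot : (2 : ℝ) ^ 27 * σ * 2 ^ (9 * (r + t)) / 2 ^ (5 * r) * 2 ^ (2 * l + m) *
      2 ^ (l + 2 * m) = 2 ^ 27 * σ * (K * (K * E)) := by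
    have h1 : (2 : ℝ) ^ (9 * (r + t)) = w ^ 9 := by
      rw [mul_comm 9, pow_mul, pow_add]
    have h2 : (2 : ℝ) ^ (5 * r) = ρ ^ 5 := by rw [mul_comm 5, pow_mul]
    have h3 : (2 : ℝ) ^ (2 * l + m) = x ^ 2 * y := by rw [pow_add, mul_comm 2, pow_mul]
    have h4 : (2 : ℝ) ^ (l + 2 * m) = x * y ^ 2 := by rw [pow_add, mul_comm 2, pow_mul]
    have hρ0 : ρ ≠ 0 := by positivity
    rw [h1, h2, h3, h4, hK, hE, hw]
    field_simp
  rw [htot]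
  have n1 : 704 * K * (4 * (P : ℝ) * R * (∑ d ∈ Ioo K' D, 1 / (d : ℝ)) +
      ((Ioo K' D).card : ℝ) * (2 * (P + R) + D)) ≤ 704 * K * (K * E * (3 / 4) + (D : ℝ) ^ 2) :=
    mul_le_mul_of_nonneg_left hA (by positivity)
  have n2 : 1408 * K * (∑ d ∈ Ioo K' D, (∑ q ∈ Ico 1 D,
        (2 * (P : ℝ) + (Nat.gcd q d : ℝ)) * (2 * R + (Nat.gcd q d : ℝ))) / d) ≤
      1408 * K * (49152 * σ * (K * E) + K * E / 8 + 2 * (D : ℝ) ^ 2) :=
    mul_le_mul_of_nonneg_left hB (by positivity)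
  have n3 : 704 * K * (K * E * (3 / 4) + (D : ℝ) ^ 2) +
      1408 * K * (49152 * σ * (K * E) + K * E / 8 + 2 * (D : ℝ) ^ 2) ≤
      2 ^ 27 * σ * (K * (K * E)) := by
    have h1 : 704 * K * (K * E * (3 / 4) + (D : ℝ) ^ 2) +
      1408 * K * (49152 * σ * (K * E) + K * E / 8 + 2 * (D : ℝ) ^ 2) =
      704 * K * (K * E + 98304 * σ * (K * E) + 5 * (D : ℝ) ^ 2) := by ring
    rw [h1]
    have h2 : 704 * K * (K * E + 98304 * σ * (K * E) + 5 * (D : ℝ) ^ 2) ≤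
        704 * K * (K * E + 98304 * σ * (K * E) + K * E / 8) :=
      mul_le_mul_of_nonneg_left (by linarith) (by positivity)
    refine h2.trans ?_
    have h3 : 704 * K * (K * E + 98304 * σ * (K * E) + K * E / 8) =
        (792 + 69206016 * σ) * (K * (K * E)) := by ring
    rw [h3]
    apply mul_le_mul_of_nonneg_right _ (by positivity)
    linarith
  linarith

end MP_5e4520_nt
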