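import Pool.Agent.Lib.MP_5e4520_nt.Bump

set_option autoImplicit false

namespace MP_5e4520_nt

open Finset

open Classical in
/-- Average of the Fejér kernel over the dual group: `fej_eq` and `ee_orth`. -/
theorem fej_avg (K Q1 Q2 h1 h2 : ℕ) (hQ1 : 0 < Q1) (hQ2 : 0 < Q2) :
    ∑ α ∈ range Q1, ∑ β ∈ range Q2, fej K ((h1 : ℝ) * α / Q1 + (h2 : ℝ) * β / Q2) =
      Q1 * Q2 * (((range K ×ˢ range K).filter (fun p =>
        (Q1 : ℤ) ∣ ((p.1 : ℤ) - p.2) * h1 ∧ (Q2 : ℤ) ∣ ((p.1 : ℤ) - p.2) * h2)).card : ℝ) / K := by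
  apply Complex.ofReal_injective
  push_cast
  have h1' : ∀ α ∈ range Q1, ∀ β ∈ range Q2,
      ((fej K ((h1 : ℝ) * α / Q1 + (h2 : ℝ) * β / Q2) : ℝ) : ℂ) =
      ∑ p ∈ range K ×ˢ range K, (ee ((α : ℝ) * ((((p.1 : ℤ) - p.2) * h1 : ℤ) : ℝ) / Q1) *
        ee ((β : ℝ) * ((((p.1 : ℤ) - p.2) * h2 : ℤ) : ℝ) / Q2)) / K := by
    intro α _ β _
    rw [fej_eq, ← sum_div, sum_product]
    congr 1
    refine sum_congr rfl fun i _ => sum_congr rfl fun j _ => ?_
    rw [← ee_add]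
    congr 1
    push_cast
    ring
  rw [sum_congr rfl fun α hα => sum_congr rfl (h1' α hα)]
  rw [sum_congr rfl fun α _ => sum_comm]
  rw [sum_comm]
  have h2' : ∀ p ∈ range K ×ˢ range K,
      ∑ α ∈ range Q1, ∑ β ∈ range Q2, (ee ((α : ℝ) * ((((p.1 : ℤ) - p.2) * h1 : ℤ) : ℝ) / Q1) *
        ee ((β : ℝ) * ((((p.1 : ℤ) - p.2) * h2 : ℤ) : ℝ) / Q2)) / K =
      if (Q1 : ℤ) ∣ ((p.1 : ℤ) - p.2) * h1 ∧ (Q2 : ℤ) ∣ ((p.1 : ℤ) - p.2) * h2 then
        (Q1 : ℂ) * Q2 / K else 0 := by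
    intro p _
    have e : ∑ α ∈ range Q1, ∑ β ∈ range Q2,
        (ee ((α : ℝ) * ((((p.1 : ℤ) - p.2) * h1 : ℤ) : ℝ) / Q1) *
        ee ((β : ℝ) * ((((p.1 : ℤ) - p.2) * h2 : ℤ) : ℝ) / Q2)) / K =
        (∑ α ∈ range Q1, ee ((α : ℝ) * ((((p.1 : ℤ) - p.2) * h1 : ℤ) : ℝ) / Q1)) *
        (∑ β ∈ range Q2, ee ((β : ℝ) * ((((p.1 : ℤ) - p.2) * h2 : ℤ) : ℝ) / Q2)) / K := by
      rw [sum_mul_sum, sum_div]
      refine sum_congr rfl fun α _ => ?_
      rw [sum_div]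
    rw [e, ee_orth Q1 hQ1, ee_orth Q2 hQ2]
    by_cases c1 : (Q1 : ℤ) ∣ ((p.1 : ℤ) - p.2) * h1 <;>
      by_cases c2 : (Q2 : ℤ) ∣ ((p.1 : ℤ) - p.2) * h2 <;> simp [c1, c2]
  rw [sum_congr rfl h2', ← sum_filter, sum_const, nsmul_eq_mul]
  ring

theorem gena_dvd {a b x y : ℕ} (hx : 0 < x) (hxa : x < 2 ^ a) (h : 2 ^ (a + b) ∣ x * y) :
    2 ^ b ∣ y := by
  rcases Nat.eq_zero_or_pos y with rfl | hy
  · exact dvd_zero _
  · have h1 := (Nat.prime_two.pow_dvd_iff_le_factorization (by positivity)).1 h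
    rw [Nat.factorization_mul hx.ne' hy.ne'] at h1
    have h2 : x.factorization 2 < a := by
      by_contra hc
      have h3 : 2 ^ a ∣ x := (Nat.prime_two.pow_dvd_iff_le_factorization hx.ne').2 (not_lt.1 hc)
      exact absurd (Nat.le_of_dvd hx h3) (not_le.2 hxa)
    apply (Nat.prime_two.pow_dvd_iff_le_factorization hy.ne').2
    simp only [Finsupp.add_apply] at h1
    omega

theorem gena_int {a b K : ℕ} {i j y : ℕ} (hK : K ≤ 2 ^ a) (hi : i < K) (hj : j < K) (hij : i ≠ j)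
    (h : ((2 ^ (a + b) : ℕ) : ℤ) ∣ ((i : ℤ) - j) * y) : 2 ^ b ∣ y := by
  have h1 : (((i : ℤ) - j) * y).natAbs = ((i : ℤ) - j).natAbs * y := by
    rw [Int.natAbs_mul, Int.natAbs_natCast]
  have h2 : 2 ^ (a + b) ∣ ((i : ℤ) - j).natAbs * y := by
    rw [← h1]
    exact Int.natCast_dvd.1 h
  exact gena_dvd (by omega) (by omega) h2

open Classical in
theorem gena_low (l m u r : ℕ) (hP : Par l m u r) :
    ((((range (2 ^ (l + 2 * m + 3 * u))).filter (fun h => lowh l m u r h)).card : ℕ) : ℝ) ≤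
      2 * (2 ^ (m + u) / 2 ^ (3 * r)) := by
  obtain ⟨r1, ru, ul, um⟩ := hP
  set X : ℕ := 2 ^ (m + u - 3 * r) with hX
  have hXr : (2 : ℝ) ^ (m + u) / 2 ^ (3 * r) = X := by
    rw [hX, div_eq_iff (by positivity)]
    push_cast
    rw [← pow_add]
    congr 1
    omega
  set Q : ℕ := 2 ^ (l + 2 * m + 3 * u) with hQ
  have hQ0 : (0 : ℝ) < Q := by positivity
  have hsub : (range Q).filter (fun h => lowh l m u r h) ⊆ range X ∪ Ico (Q - X) Q := by
    intro h hh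
    rw [mem_filter, mem_range] at hh
    obtain ⟨hh1, hh2⟩ := hh
    rw [mem_union, mem_range, mem_Ico]
    unfold lowh nd at hh2
    rw [hXr] at hh2
    have hq : ((2 : ℝ) ^ (l + 2 * m + 3 * u)) = Q := by
      rw [hQ]
      push_cast
      rfl
    rw [hq] at hh2
    set z : ℤ := round ((h : ℝ) / Q) with hz
    have h3 : |(h : ℝ) - z * Q| < X := by
      have e : (h : ℝ) - z * Q = ((h : ℝ) / Q - z) * Q := by
        field_simp
      rw [e, abs_mul, abs_of_pos hQ0]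
      exact hh2
    have h4 : |(h : ℤ) - z * Q| < X := by exact_mod_cast h3
    rw [abs_lt] at h4
    rcases le_or_gt z 0 with hz0 | hz0
    · left
      have h5 : z * Q ≤ 0 := mul_nonpos_of_nonpos_of_nonneg hz0 (by positivity)
      have h6 : (h : ℤ) < X := by linarith [h4.2]
      exact_mod_cast h6
    · right
      refine ⟨?_, hh1⟩
      have h5 : (Q : ℤ) ≤ z * Q := by
        have : (1 : ℤ) * Q ≤ z * Q := mul_le_mul_of_nonneg_right (by omega) (by positivity)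
        linarith
      have h6 : (Q : ℤ) < h + X := by linarith [h4.1]
      omega
  have hcard := card_le_card hsub
  have h7 : (range X ∪ Ico (Q - X) Q).card ≤ X + X := by
    refine (card_union_le _ _).trans ?_
    rw [card_range, Nat.card_Ico]
    exact Nat.add_le_add_left tsub_tsub_le X
  have h8 : ((range Q).filter (fun h => lowh l m u r h)).card ≤ 2 * X := by omega
  rw [hXr]
  exact_mod_cast h8

/-- The mean of `Zlow` is at most `4/2^(3r)`.  With `L = 2^(l+m+2u)`, `K = L/2^r`: if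
`ctri L Q1 h1 ≠ 0`, `h1 ≠ 0`, then `2^(l+u) ∤ h1` (`ctri_vanish`, `Q1 = L 2^(l+u)`), so
`Q1 ∣ (i-j) h1` with `|i-j| < K ≤ L` forces `i = j`; similarly for `h2` (`cqua_vanish`); hence by
`fej_avg` the average of `fej` is `1` for each nonzero frequency with nonzero coefficient, and the mean
is `≤ ∑_{h2 low} (∑_{h1} ctri) cqua(h2) ≤ #low * 2L/Q2` (`ctri_sum`, `cqua_le`), where
`#{h2 < Q2 : Q2 nd(h2/Q2) < X} ≤ 2X`, `X = 2^(m+u)/2^(3r)` a power of two `≥ 1`, `L/Q2 = 1/2^(m+u)`. -/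
theorem Zlow_mean (l m u r : ℕ) (hP : Par l m u r) :
    ∑ α ∈ range (2 ^ (2 * l + m + 3 * u)), ∑ β ∈ range (2 ^ (l + 2 * m + 3 * u)),
      Zlow l m u r α β ≤ 4 / 2 ^ (3 * r) * 2 ^ (2 * l + m + 3 * u) * 2 ^ (l + 2 * m + 3 * u) := by
  classical
  have hlow := gena_low l m u r hP
  obtain ⟨r1, ru, ul, um⟩ := hP
  set L : ℕ := 2 ^ (l + m + 2 * u) with hL
  set K : ℕ := 2 ^ (l + m + 2 * u - r) with hK
  set Q1 : ℕ := 2 ^ (2 * l + m + 3 * u) with hQ1
  set Q2 : ℕ := 2 ^ (l + 2 * m + 3 * u) with hQ2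
  have hL0 : 0 < L := by positivity
  have hK0 : 0 < K := by positivity
  have hQ10 : 0 < Q1 := by positivity
  have hQ20 : 0 < Q2 := by positivity
  have hKL : K ≤ 2 ^ (l + m + 2 * u) := Nat.pow_le_pow_right (by norm_num) (by omega)
  have hQL1 : Q1 = L * 2 ^ (l + u) := by
    rw [hL, hQ1, ← pow_add]
    congr 1
    omega
  have hQL2 : Q2 = L * 2 ^ (m + u) := by
    rw [hL, hQ2, ← pow_add]
    congr 1
    omega
  have hLQ1 : L ≤ Q1 := Nat.pow_le_pow_right (by norm_num) (by omega)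
  have hq1 : ((2 : ℝ) ^ (2 * l + m + 3 * u)) = Q1 := by
    rw [hQ1]
    push_cast
    rfl
  have hq2 : ((2 : ℝ) ^ (l + 2 * m + 3 * u)) = Q2 := by
    rw [hQ2]
    push_cast
    rfl
  -- the average for one pair of frequencies
  have key : ∀ h1 ∈ range Q1, ∀ h2 ∈ range Q2, (h1 ≠ 0 ∨ h2 ≠ 0) →
      ctri L Q1 h1 * cqua L Q2 h2 *
      (∑ α ∈ range Q1, ∑ β ∈ range Q2, fej K ((h1 : ℝ) * α / Q1 + (h2 : ℝ) * β / Q2)) =
      ctri L Q1 h1 * cqua L Q2 h2 * (Q1 * Q2) := by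
    intro h1 hh1 h2 hh2 hne
    rw [mem_range] at hh1 hh2
    by_cases c1 : ctri L Q1 h1 = 0
    · rw [c1]
      ring
    by_cases c2 : cqua L Q2 h2 = 0
    · rw [c2]
      ring
    congr 1
    rw [fej_avg K Q1 Q2 h1 h2 hQ10 hQ20]
    have hcount : (range K ×ˢ range K).filter (fun p =>
        (Q1 : ℤ) ∣ ((p.1 : ℤ) - p.2) * h1 ∧ (Q2 : ℤ) ∣ ((p.1 : ℤ) - p.2) * h2) =
        (range K).image fun i => (i, i) := by
      ext ⟨i, j⟩
      simp only [mem_filter, mem_product, mem_range, mem_image, Prod.mk.injEq]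
      constructor
      · rintro ⟨⟨hi, hj⟩, hd1, hd2⟩
        have hij : i = j := by
          by_contra hij
          rcases hne with h0 | h0
          · have hd : 2 ^ (l + u) ∣ h1 := by
              apply gena_int (a := l + m + 2 * u) hKL hi hj hij
              have e : l + m + 2 * u + (l + u) = 2 * l + m + 3 * u := by omega
              rw [e]
              exact hd1
            apply c1
            rw [hQL1]
            exact ctri_vanish L (2 ^ (l + u)) hL0 (by positivity) h1 (by rw [← hQL1]; exact hh1) h0 hd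
          · have hd : 2 ^ (m + u) ∣ h2 := by
              apply gena_int (a := l + m + 2 * u) hKL hi hj hij
              have e : l + m + 2 * u + (m + u) = l + 2 * m + 3 * u := by omega
              rw [e]
              exact hd2
            apply c2
            rw [hQL2]
            exact cqua_vanish L (2 ^ (m + u)) hL0 (by positivity) h2 (by rw [← hQL2]; exact hh2) h0 hd
        exact ⟨i, hi, rfl, hij⟩
      · rintro ⟨k, hk, rfl, rfl⟩
        refine ⟨⟨hk, hk⟩, ?_, ?_⟩ <;> simp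
    rw [hcount, card_image_of_injective _ (fun a b h => (Prod.mk.inj h).1), card_range]
    field_simp
  -- expand
  have hexp : ∑ α ∈ range Q1, ∑ β ∈ range Q2, Zlow l m u r α β =
      ∑ h1 ∈ range Q1, ∑ h2 ∈ range Q2, if (h1 ≠ 0 ∨ h2 ≠ 0) ∧ lowh l m u r h2 then
        ctri L Q1 h1 * cqua L Q2 h2 * (Q1 * Q2) else 0 := by
    have e1 : ∀ α ∈ range Q1, ∑ β ∈ range Q2, Zlow l m u r α β =
        ∑ h1 ∈ range Q1, ∑ h2 ∈ range Q2, ∑ β ∈ range Q2,
        if (h1 ≠ 0 ∨ h2 ≠ 0) ∧ lowh l m u r h2 then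
        ctri L Q1 h1 * cqua L Q2 h2 * fej K ((h1 : ℝ) * α / Q1 + (h2 : ℝ) * β / Q2) else 0 := by
      intro α _
      unfold Zlow
      rw [sum_comm]
      refine sum_congr rfl fun h1 _ => ?_
      rw [sum_comm]
      refine sum_congr rfl fun h2 _ => ?_
      refine sum_congr rfl fun β _ => ?_
      rw [hq1, hq2]
    rw [sum_congr rfl e1, sum_comm]
    refine sum_congr rfl fun h1 hh1 => ?_
    rw [sum_comm]
    refine sum_congr rfl fun h2 hh2 => ?_
    by_cases c : (h1 ≠ 0 ∨ h2 ≠ 0) ∧ lowh l m u r h2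
    · simp only [if_pos c]
      rw [← key h1 hh1 h2 hh2 c.1, mul_sum]
      refine sum_congr rfl fun α _ => ?_
      rw [mul_sum]
    · simp only [if_neg c]
      simp
  rw [hexp, hq1, hq2]
  have hle : ∀ h1 ∈ range Q1, ∀ h2 ∈ range Q2,
      (if (h1 ≠ 0 ∨ h2 ≠ 0) ∧ lowh l m u r h2 then
        ctri L Q1 h1 * cqua L Q2 h2 * ((Q1 : ℝ) * Q2) else 0) ≤
      (if lowh l m u r h2 then ctri L Q1 h1 * (2 * (L : ℝ) / Q2) * ((Q1 : ℝ) * Q2) else 0) := by
    intro h1 _ h2 _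
    have hn : 0 ≤ ctri L Q1 h1 * (2 * (L : ℝ) / Q2) * ((Q1 : ℝ) * Q2) := by
      have := ctri_nonneg L Q1 h1
      positivity
    by_cases c : lowh l m u r h2
    · rw [if_pos c]
      split_ifs
      · apply mul_le_mul_of_nonneg_right _ (by positivity)
        exact mul_le_mul_of_nonneg_left (cqua_le L Q2 h2 hL0) (ctri_nonneg _ _ _)
      · exact hn
    · rw [if_neg c, if_neg (fun h => c h.2)]
  refine (sum_le_sum fun h1 hh1 => sum_le_sum (hle h1 hh1)).trans ?_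
  have hs : ∀ h1 ∈ range Q1, (∑ h2 ∈ range Q2,
      if lowh l m u r h2 then ctri L Q1 h1 * (2 * (L : ℝ) / Q2) * ((Q1 : ℝ) * Q2) else 0) =
      ctri L Q1 h1 * ((((range Q2).filter (fun h => lowh l m u r h)).card : ℝ) *
        ((2 * (L : ℝ) / Q2) * ((Q1 : ℝ) * Q2))) := by
    intro h1 _
    rw [← sum_filter, sum_const, nsmul_eq_mul]
    ring
  rw [sum_congr rfl hs, ← sum_mul, ctri_sum L Q1 hL0 hLQ1, one_mul]
  have hb : (L : ℝ) / Q2 = 1 / 2 ^ (m + u) := by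
    rw [hQL2]
    push_cast
    have : (L : ℝ) ≠ 0 := by positivity
    field_simp
  have e3 : (2 * (L : ℝ) / Q2) = 2 / 2 ^ (m + u) := by
    rw [mul_div_assoc, hb]
    ring
  rw [e3]
  calc (((range Q2).filter (fun h => lowh l m u r h)).card : ℝ) *
        ((2 / 2 ^ (m + u)) * ((Q1 : ℝ) * Q2)) ≤
        (2 * (2 ^ (m + u) / 2 ^ (3 * r))) * ((2 / 2 ^ (m + u)) * ((Q1 : ℝ) * Q2)) :=
        mul_le_mul_of_nonneg_right hlow (by positivity)
    _ = 4 / 2 ^ (3 * r) * Q1 * Q2 := by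
        field_simp
        ring

end MP_5e4520_nt
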