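import Pool.Agent.Lib.MP_5e4520_nt.LGD
import Pool.Agent.Lib.MP_5e4520_nt.GenA

set_option autoImplicit false

namespace MP_5e4520_nt

open Finset

private theorem zlm_dvd {x y : ℕ} {a b : ℤ} (h : (2 : ℤ) ^ (x + y) ∣ a * b)
    (hb : ¬ (2 : ℤ) ^ y ∣ b) : (2 : ℤ) ^ (x + 1) ∣ a := by
  induction y generalizing b with
  | zero => exact absurd (by simp) hb
  | succ y ih =>
    by_cases h2 : (2 : ℤ) ∣ b
    · obtain ⟨c, rfl⟩ := h2
      refine ih (b := c) ?_ ?_
      · have h3 : a * (2 * c) = 2 * (a * c) := by ring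
        rw [h3, ← add_assoc, pow_succ'] at h
        exact Int.dvd_of_mul_dvd_mul_left (by norm_num) h
      · intro h3
        apply hb
        rw [pow_succ']
        exact mul_dvd_mul_left 2 h3
    · have hp : Prime (2 : ℤ) := Int.prime_two
      have h3 : (2 : ℤ) ^ (x + (y + 1)) ∣ a := by
        rw [mul_comm] at h
        exact hp.pow_dvd_of_dvd_mul_left _ h2 h
      exact (pow_dvd_pow 2 (by omega)).trans h3

private theorem zlm_zero {n : ℕ} {a : ℤ} (h : (2 : ℤ) ^ n ∣ a) (h1 : |a| < 2 ^ n) : a = 0 :=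
  Int.eq_zero_of_abs_lt_dvd h h1

/-- number of pairs with `i - j` divisible by `H`, `K = 2H` -/
private theorem zlm_pairs (H : ℕ) (hH : 0 < H) :
    ((range (2 * H) ×ˢ range (2 * H)).filter (fun p => (H : ℤ) ∣ ((p.1 : ℤ) - p.2))).card ≤
      2 * (2 * H) := by
  classical
  have hsub : (range (2 * H) ×ˢ range (2 * H)).filter (fun p => (H : ℤ) ∣ ((p.1 : ℤ) - p.2)) ⊆
      (range (2 * H) ×ˢ range 2).image (fun p => (p.1, p.1 % H + H * p.2)) := by
    intro p hp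
    rw [Finset.mem_filter, Finset.mem_product, Finset.mem_range, Finset.mem_range] at hp
    obtain ⟨⟨h1, h2⟩, h3⟩ := hp
    rw [Finset.mem_image]
    refine ⟨(p.1, p.2 / H), ?_, ?_⟩
    · rw [Finset.mem_product, Finset.mem_range, Finset.mem_range]
      exact ⟨h1, Nat.div_lt_of_lt_mul (by linarith)⟩
    · have h4 : p.1 % H = p.2 % H := by
        have h5 : (p.2 : ℤ) ≡ p.1 [ZMOD (H : ℤ)] := Int.modEq_iff_dvd.2 h3
        exact ((Int.natCast_modEq_iff).1 h5).symm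
      rw [Prod.ext_iff]
      refine ⟨rfl, ?_⟩
      show p.1 % H + H * (p.2 / H) = p.2
      rw [h4]
      exact Nat.mod_add_div _ _
  refine (Finset.card_le_card hsub).trans (Finset.card_image_le.trans ?_)
  rw [Finset.card_product, Finset.card_range, Finset.card_range, mul_comm]

private theorem zlm_diag (K : ℕ) :
    ((range K ×ˢ range K).filter (fun p => ((p.1 : ℤ) - p.2) = 0)).card ≤ K := by
  classical
  have hsub : (range K ×ˢ range K).filter (fun p => ((p.1 : ℤ) - p.2) = 0) ⊆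
      (range K).image (fun i => (i, i)) := by
    intro p hp
    rw [Finset.mem_filter, Finset.mem_product] at hp
    rw [Finset.mem_image]
    refine ⟨p.1, hp.1.1, ?_⟩
    rw [Prod.ext_iff]
    have h := hp.2
    exact ⟨rfl, by show p.1 = p.2; omega⟩
  exact (Finset.card_le_card hsub).trans (Finset.card_image_le.trans (by rw [Finset.card_range]))

/-- `fej_avg`: if `h1 ≠ 0` and `ctri L Q1 h1 ≠ 0` then `2^(l+s) ∤ h1`, so `Q1 ∣ (i-j)h1`, `|i-j| < K`
forces `i = j` and the average is `1`; if `h1 = 0`, `h2 ≠ 0`, `ctri L° 2^b h2 ≠ 0` (`L° = K/4`) then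
`2^b/L° ∤ h2`, so `2^b ∣ (i-j)h2` forces `2L° = K/2 ∣ i-j`, and the number of `(i,j) ∈ [K]²` with
`i-j ∈ {0, ±K/2}` is `2K`.  So the mean is `≤ 2 ∑ ctri ∑ ctri = 2`. -/
theorem ZL_mean (l m s r : ℕ) (hP : ParS l m s r) :
    ∑ α ∈ range (2 ^ (2 * l + m + 3 * s)), ∑ β0 ∈ range (2 ^ (l + 2 * m)), ZL l m s r α β0 ≤
      2 * 2 ^ (2 * l + m + 3 * s) * 2 ^ (l + 2 * m) := by
  classical
  have hr12 := hP.r12
  have hrs := hP.rs
  have hsl := hP.sl
  have hsm := hP.sm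
  obtain ⟨K, hK⟩ : ∃ K : ℕ, K = 2 ^ (l + m + 2 * s - r) := ⟨_, rfl⟩
  obtain ⟨A, hA⟩ : ∃ A : ℕ, A = 2 ^ (2 * l + m + 3 * s) := ⟨_, rfl⟩
  obtain ⟨B, hB⟩ : ∃ B : ℕ, B = 2 ^ (l + 2 * m) := ⟨_, rfl⟩
  obtain ⟨L, hL⟩ : ∃ L : ℕ, L = 2 ^ (l + m + 2 * s) := ⟨_, rfl⟩
  obtain ⟨L', hL'⟩ : ∃ L' : ℕ, L' = 2 ^ (l + m + 2 * s - r - 2) := ⟨_, rfl⟩
  have hK0 : 0 < K := by rw [hK]; positivity
  have hA0 : 0 < A := by rw [hA]; positivity
  have hB0 : 0 < B := by rw [hB]; positivity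
  have hL0 : 0 < L := by rw [hL]; positivity
  have hL'0 : 0 < L' := by rw [hL']; positivity
  have hAr : (2 : ℝ) ^ (2 * l + m + 3 * s) = A := by rw [hA]; push_cast; rfl
  have hBr : (2 : ℝ) ^ (l + 2 * m) = B := by rw [hB]; push_cast; rfl
  have hLA : L ≤ A := by
    rw [hL, hA]
    exact Nat.pow_le_pow_right (by norm_num) (by omega)
  have hLB : L' ≤ B := by
    rw [hL', hB]
    exact Nat.pow_le_pow_right (by norm_num) (by omega)
  have hAL : A = L * 2 ^ (l + s) := by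
    rw [hL, hA, ← pow_add]
    congr 1
    omega
  have hBL : B = L' * 2 ^ (m + r + 2 - 2 * s) := by
    rw [hL', hB, ← pow_add]
    congr 1
    omega
  have hKL : K = 2 * (2 * L') := by
    rw [hK, hL', ← pow_succ', ← pow_succ']
    congr 1
    omega
  have hKL2 : K ≤ L := by
    rw [hK, hL]
    exact Nat.pow_le_pow_right (by norm_num) (by omega)
  have hdef : ∀ x y, ZL l m s r x y = ∑ h1 ∈ range A, ∑ h2 ∈ range B,
      if (h1 ≠ 0 ∨ h2 ≠ 0) then ctri L A h1 * ctri L' B h2 *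
        fej K ((h1 : ℝ) * x / A + (h2 : ℝ) * y / B) else 0 := by
    intro x y
    unfold ZL
    rw [hAr, hBr, ← hK, ← hA, ← hB, ← hL, ← hL']
  simp_rw [hdef]
  rw [← hA, ← hB, hAr, hBr]
  have hswap : ∑ α ∈ range A, ∑ β ∈ range B, ∑ h1 ∈ range A, ∑ h2 ∈ range B,
      (if (h1 ≠ 0 ∨ h2 ≠ 0) then ctri L A h1 * ctri L' B h2 *
        fej K ((h1 : ℝ) * α / A + (h2 : ℝ) * β / B) else 0) =
      ∑ h1 ∈ range A, ∑ h2 ∈ range B, ∑ α ∈ range A, ∑ β ∈ range B,
      (if (h1 ≠ 0 ∨ h2 ≠ 0) then ctri L A h1 * ctri L' B h2 *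
        fej K ((h1 : ℝ) * α / A + (h2 : ℝ) * β / B) else 0) := by
    calc _ = ∑ α ∈ range A, ∑ h1 ∈ range A, ∑ β ∈ range B, ∑ h2 ∈ range B,
        (if (h1 ≠ 0 ∨ h2 ≠ 0) then ctri L A h1 * ctri L' B h2 *
        fej K ((h1 : ℝ) * α / A + (h2 : ℝ) * β / B) else 0) :=
          Finset.sum_congr rfl fun α _ => Finset.sum_comm
      _ = ∑ h1 ∈ range A, ∑ α ∈ range A, ∑ β ∈ range B, ∑ h2 ∈ range B,
        (if (h1 ≠ 0 ∨ h2 ≠ 0) then ctri L A h1 * ctri L' B h2 *
        fej K ((h1 : ℝ) * α / A + (h2 : ℝ) * β / B) else 0) := Finset.sum_comm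
      _ = ∑ h1 ∈ range A, ∑ α ∈ range A, ∑ h2 ∈ range B, ∑ β ∈ range B,
        (if (h1 ≠ 0 ∨ h2 ≠ 0) then ctri L A h1 * ctri L' B h2 *
        fej K ((h1 : ℝ) * α / A + (h2 : ℝ) * β / B) else 0) :=
          Finset.sum_congr rfl fun h1 _ => Finset.sum_congr rfl fun α _ => Finset.sum_comm
      _ = _ := Finset.sum_congr rfl fun h1 _ => Finset.sum_comm
  rw [hswap]
  have hterm : ∀ h1 ∈ range A, ∀ h2 ∈ range B, ∑ α ∈ range A, ∑ β ∈ range B,
      (if (h1 ≠ 0 ∨ h2 ≠ 0) then ctri L A h1 * ctri L' B h2 *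
        fej K ((h1 : ℝ) * α / A + (h2 : ℝ) * β / B) else 0) ≤
      ctri L A h1 * ctri L' B h2 * (2 * (A * B)) := by
    intro h1 hh1 h2 hh2
    rw [Finset.mem_range] at hh1 hh2
    have hc1 := ctri_nonneg L A h1
    have hc2 := ctri_nonneg L' B h2
    have hAB : (0 : ℝ) ≤ 2 * ((A : ℝ) * B) := by positivity
    by_cases h0 : h1 ≠ 0 ∨ h2 ≠ 0
    · simp_rw [if_pos h0]
      simp_rw [← Finset.mul_sum]
      by_cases hz : ctri L A h1 * ctri L' B h2 = 0
      · rw [hz, zero_mul, zero_mul]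
      refine mul_le_mul_of_nonneg_left ?_ (mul_nonneg hc1 hc2)
      have hz1 : ctri L A h1 ≠ 0 := fun h => hz (by rw [h, zero_mul])
      have hz2 : ctri L' B h2 ≠ 0 := fun h => hz (by rw [h, mul_zero])
      rw [fej_avg K A B h1 h2 hA0 hB0]
      have hcard : ((range K ×ˢ range K).filter (fun p =>
        (A : ℤ) ∣ ((p.1 : ℤ) - p.2) * h1 ∧ (B : ℤ) ∣ ((p.1 : ℤ) - p.2) * h2)).card ≤ 2 * K := by
        by_cases h10 : h1 = 0
        · have h20 : h2 ≠ 0 := h0.resolve_left (fun h => h h10)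
          have hnd : ¬ (2 ^ (m + r + 2 - 2 * s)) ∣ h2 := by
            intro hd
            apply hz2
            rw [hBL]
            exact ctri_vanish L' _ hL'0 (by positivity) h2 (by rw [← hBL]; exact hh2) h20 hd
          have hnd' : ¬ (2 : ℤ) ^ (m + r + 2 - 2 * s) ∣ (h2 : ℤ) := by
            intro hd
            apply hnd
            exact_mod_cast hd
          have hKH : K = 2 * (2 * L') := hKL
          refine (Finset.card_le_card (t := (range K ×ˢ range K).filter (fun p =>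
            (((2 * L' : ℕ)) : ℤ) ∣ ((p.1 : ℤ) - p.2))) ?_).trans ?_
          · intro p hp
            rw [Finset.mem_filter] at hp ⊢
            refine ⟨hp.1, ?_⟩
            have h3 := hp.2.2
            have h4 : (B : ℤ) = 2 ^ ((l + m + 2 * s - r - 2) + (m + r + 2 - 2 * s)) := by
              rw [hBL, hL']
              push_cast
              rw [← pow_add]
            rw [h4] at h3
            have h5 := zlm_dvd h3 hnd'
            have h6 : ((2 * L' : ℕ) : ℤ) = 2 ^ (l + m + 2 * s - r - 2 + 1) := by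
              rw [hL']
              push_cast
              rw [← pow_succ']
            rw [h6]
            exact h5
          · rw [hKH]
            exact zlm_pairs (2 * L') (by omega)
        · have hnd : ¬ (2 ^ (l + s)) ∣ h1 := by
            intro hd
            apply hz1
            rw [hAL]
            exact ctri_vanish L _ hL0 (by positivity) h1 (by rw [← hAL]; exact hh1) h10 hd
          have hnd' : ¬ (2 : ℤ) ^ (l + s) ∣ (h1 : ℤ) := by
            intro hd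
            apply hnd
            exact_mod_cast hd
          refine (Finset.card_le_card (t := (range K ×ˢ range K).filter (fun p =>
            ((p.1 : ℤ) - p.2) = 0)) ?_).trans ((zlm_diag K).trans (by omega))
          intro p hp
          rw [Finset.mem_filter] at hp ⊢
          refine ⟨hp.1, ?_⟩
          have h3 := hp.2.1
          have h4 : (A : ℤ) = 2 ^ ((l + m + 2 * s) + (l + s)) := by
            rw [hAL, hL]
            push_cast
            rw [← pow_add]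
          rw [h4] at h3
          have h5 := (pow_dvd_pow (2 : ℤ) (Nat.le_succ _)).trans (zlm_dvd h3 hnd')
          refine zlm_zero h5 ?_
          have hp1 := hp.1
          rw [Finset.mem_product, Finset.mem_range, Finset.mem_range] at hp1
          have h6 : (2 : ℤ) ^ (l + m + 2 * s) = (L : ℤ) := by
            rw [hL]
            push_cast
            rfl
          rw [h6, abs_lt]
          constructor <;> omega
      have hcr : (((range K ×ˢ range K).filter (fun p =>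
        (A : ℤ) ∣ ((p.1 : ℤ) - p.2) * h1 ∧ (B : ℤ) ∣ ((p.1 : ℤ) - p.2) * h2)).card : ℝ) ≤ 2 * K := by
        exact_mod_cast hcard
      have hKr : (0 : ℝ) < K := by exact_mod_cast hK0
      rw [div_le_iff₀ hKr]
      have hAB' : (0 : ℝ) ≤ (A : ℝ) * B := by positivity
      have := mul_le_mul_of_nonneg_left hcr hAB'
      nlinarith [this]
    · simp_rw [if_neg h0]
      simp only [Finset.sum_const_zero]
      exact mul_nonneg (mul_nonneg hc1 hc2) hAB
  refine (Finset.sum_le_sum fun h1 hh1 => Finset.sum_le_sum fun h2 hh2 =>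
    hterm h1 hh1 h2 hh2).trans ?_
  have hfin : ∑ h1 ∈ range A, ∑ h2 ∈ range B, ctri L A h1 * ctri L' B h2 * (2 * ((A : ℝ) * B)) =
      (∑ h1 ∈ range A, ctri L A h1) * (∑ h2 ∈ range B, ctri L' B h2) * (2 * ((A : ℝ) * B)) := by
    rw [Finset.sum_mul_sum, Finset.sum_mul]
    refine Finset.sum_congr rfl fun h1 _ => ?_
    rw [Finset.sum_mul]
  rw [hfin, ctri_sum L A hL0 hLA, ctri_sum L' B hL'0 hLB]
  apply le_of_eq
  ring

private theorem zlm_split (f : ℕ → ℝ) (n k : ℕ) :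
    ∑ x ∈ range (n * k), f x = ∑ i ∈ range n, ∑ j ∈ range k, f (i * k + j) := by
  induction n with
  | zero => simp
  | succ n ih => rw [Nat.succ_mul, Finset.sum_range_add, ih, Finset.sum_range_succ]

private theorem zlm_ZL_nonneg (l m s r α β : ℕ) : 0 ≤ ZL l m s r α β := by
  unfold ZL
  refine Finset.sum_nonneg fun h1 _ => Finset.sum_nonneg fun h2 _ => ?_
  split_ifs
  · exact mul_nonneg (mul_nonneg (ctri_nonneg _ _ _) (ctri_nonneg _ _ _)) (fej_nonneg _ _)
  · exact le_rfl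

open Classical in
private theorem zlm_markov {ι : Type*} (S : Finset ι) (f : ι → ℝ) (hf : ∀ i ∈ S, 0 ≤ f i) (T : ℝ) :
    T * ((S.filter (fun i => T < f i)).card : ℝ) ≤ ∑ i ∈ S, f i := by
  calc T * ((S.filter (fun i => T < f i)).card : ℝ) = ∑ i ∈ S.filter (fun i => T < f i), T := by
        rw [Finset.sum_const, nsmul_eq_mul, mul_comm]
    _ ≤ ∑ i ∈ S.filter (fun i => T < f i), f i :=
        Finset.sum_le_sum fun i hi => (Finset.mem_filter.1 hi).2.le
    _ ≤ ∑ i ∈ S, f i := Finset.sum_le_sum_of_subset_of_nonneg (Finset.filter_subset _ _)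
        fun i hi _ => hf i hi

open Classical in
/-- Markov twice from `ZL_mean` (`α = α0 2^(3s) + A`): the number of `(α0,A,β0)` with
`ZL > 2^(3s)/2^(2r)/8` is `≤ 16·2^(2r)·2^(a+b)`, and each bad `(α0,β0)` has more than `2^(3s)/8` bad `A`. -/
theorem g1_count (l m s r : ℕ) (hP : ParS l m s r) :
    (((range (2 ^ (2 * l + m)) ×ˢ range (2 ^ (l + 2 * m))).filter (fun p =>
      ¬ ((((range (2 ^ (3 * s))).filter (fun A => (2 : ℝ) ^ (3 * s) / 2 ^ (2 * r) / 8 <
        ZL l m s r (p.1 * 2 ^ (3 * s) + A) p.2)).card : ℝ) ≤ 2 ^ (3 * s) / 8))).card : ℝ) ≤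
      128 * 2 ^ (2 * r) / 2 ^ (3 * s) * 2 ^ (2 * l + m) * 2 ^ (l + 2 * m) := by
  obtain ⟨T, hT⟩ : ∃ T : ℝ, T = (2 : ℝ) ^ (3 * s) / 2 ^ (2 * r) / 8 := ⟨_, rfl⟩
  have hT0 : 0 < T := by rw [hT]; positivity
  rw [← hT]
  have hmean := ZL_mean l m s r hP
  have e1 : 2 ^ (2 * l + m + 3 * s) = 2 ^ (2 * l + m) * 2 ^ (3 * s) := pow_add _ _ _
  rw [e1, zlm_split] at hmean
  -- the sum over `A`
  have h1 : ∑ i ∈ range (2 ^ (2 * l + m)), ∑ j ∈ range (2 ^ (3 * s)),
      ∑ β0 ∈ range (2 ^ (l + 2 * m)), ZL l m s r (i * 2 ^ (3 * s) + j) β0 =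
      ∑ p ∈ range (2 ^ (2 * l + m)) ×ˢ range (2 ^ (l + 2 * m)),
        ∑ j ∈ range (2 ^ (3 * s)), ZL l m s r (p.1 * 2 ^ (3 * s) + j) p.2 := by
    rw [Finset.sum_product]
    refine Finset.sum_congr rfl fun i _ => ?_
    rw [Finset.sum_comm]
  rw [h1] at hmean
  have h2 : ∀ p : ℕ × ℕ, T * (((range (2 ^ (3 * s))).filter (fun A =>
      T < ZL l m s r (p.1 * 2 ^ (3 * s) + A) p.2)).card : ℝ) ≤
      ∑ j ∈ range (2 ^ (3 * s)), ZL l m s r (p.1 * 2 ^ (3 * s) + j) p.2 := fun p =>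
    zlm_markov _ _ (fun i _ => zlm_ZL_nonneg _ _ _ _ _ _) T
  have h3 : ∀ p : ℕ × ℕ, ¬ ((((range (2 ^ (3 * s))).filter (fun A =>
      T < ZL l m s r (p.1 * 2 ^ (3 * s) + A) p.2)).card : ℝ) ≤ 2 ^ (3 * s) / 8) →
      T * (2 ^ (3 * s) / 8) <
        ∑ j ∈ range (2 ^ (3 * s)), ZL l m s r (p.1 * 2 ^ (3 * s) + j) p.2 := by
    intro p hp
    rw [not_le] at hp
    exact lt_of_lt_of_le (mul_lt_mul_of_pos_left hp hT0) (h2 p)
  have h4 : ((((range (2 ^ (2 * l + m)) ×ˢ range (2 ^ (l + 2 * m))).filter (fun p =>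
      ¬ ((((range (2 ^ (3 * s))).filter (fun A =>
        T < ZL l m s r (p.1 * 2 ^ (3 * s) + A) p.2)).card : ℝ) ≤ 2 ^ (3 * s) / 8))).card : ℕ) : ℝ) ≤
      ((((range (2 ^ (2 * l + m)) ×ˢ range (2 ^ (l + 2 * m))).filter (fun p =>
        T * (2 ^ (3 * s) / 8) <
        ∑ j ∈ range (2 ^ (3 * s)), ZL l m s r (p.1 * 2 ^ (3 * s) + j) p.2)).card : ℕ) : ℝ) := by
    have : (range (2 ^ (2 * l + m)) ×ˢ range (2 ^ (l + 2 * m))).filter (fun p =>
      ¬ ((((range (2 ^ (3 * s))).filter (fun A =>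
        T < ZL l m s r (p.1 * 2 ^ (3 * s) + A) p.2)).card : ℝ) ≤ 2 ^ (3 * s) / 8)) ⊆
      (range (2 ^ (2 * l + m)) ×ˢ range (2 ^ (l + 2 * m))).filter (fun p =>
        T * (2 ^ (3 * s) / 8) <
        ∑ j ∈ range (2 ^ (3 * s)), ZL l m s r (p.1 * 2 ^ (3 * s) + j) p.2) := by
      intro p hp
      rw [Finset.mem_filter] at hp ⊢
      exact ⟨hp.1, h3 p hp.2⟩
    exact_mod_cast Finset.card_le_card this
  have h5 := zlm_markov (range (2 ^ (2 * l + m)) ×ˢ range (2 ^ (l + 2 * m)))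
    (fun p => ∑ j ∈ range (2 ^ (3 * s)), ZL l m s r (p.1 * 2 ^ (3 * s) + j) p.2)
    (fun p _ => Finset.sum_nonneg fun j _ => zlm_ZL_nonneg _ _ _ _ _ _) (T * (2 ^ (3 * s) / 8))
  have h6 := h5.trans hmean
  refine h4.trans ?_
  have hpos : (0 : ℝ) < T * (2 ^ (3 * s) / 8) := by positivity
  have h7 := (le_div_iff₀' hpos).2 h6
  refine h7.trans (le_of_eq ?_)
  rw [hT, pow_add]
  have a1 : (2 : ℝ) ^ (3 * s) ≠ 0 := by positivity
  have a2 : (2 : ℝ) ^ (2 * r) ≠ 0 := by positivity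
  field_simp
  norm_num

end MP_5e4520_nt
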