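import Pool.Agent.Lib.MP_5e4520_nt.U1M
import Pool.Agent.Lib.MP_5e4520_nt.U2M
import Pool.Agent.Lib.MP_5e4520_nt.NTM
import Pool.Agent.Lib.MP_5e4520_nt.ZLM
import Pool.Agent.Lib.MP_5e4520_nt.PreProb

set_option autoImplicit false

namespace MP_5e4520_nt

open Finset

open Classical in
/-- Markov inequality for a double sum -/
private theorem lgp_markov (A B : Finset ℕ) (F : ℕ → ℕ → ℕ) (c X : ℝ) (hc : 0 < c)
    (h : ∑ x ∈ A, ∑ y ∈ B, (F x y : ℝ) ≤ X) :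
    (((A ×ˢ B).filter (fun p => ¬ ((F p.1 p.2 : ℝ) ≤ c))).card : ℝ) ≤ X / c := by
  rw [le_div_iff₀ hc]
  refine le_trans ?_ h
  rw [← Finset.sum_product']
  calc (((A ×ˢ B).filter (fun p => ¬ ((F p.1 p.2 : ℝ) ≤ c))).card : ℝ) * c
      = ∑ _p ∈ (A ×ˢ B).filter (fun p => ¬ ((F p.1 p.2 : ℝ) ≤ c)), c := by
        rw [Finset.sum_const, nsmul_eq_mul]
    _ ≤ ∑ p ∈ (A ×ˢ B).filter (fun p => ¬ ((F p.1 p.2 : ℝ) ≤ c)), (F p.1 p.2 : ℝ) := by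
        apply Finset.sum_le_sum
        intro p hp
        rw [Finset.mem_filter, not_le] at hp
        exact hp.2.le
    _ ≤ ∑ p ∈ A ×ˢ B, (F p.1 p.2 : ℝ) := by
        apply Finset.sum_le_sum_of_subset_of_nonneg (Finset.filter_subset _ _)
        intro p _ _
        exact Nat.cast_nonneg _

open Classical in
private theorem lgp_union {ι : Type} (A : Finset ι) (P P1 P2 P3 P4 P5 : ι → Prop)
    (h : ∀ x, P1 x → P2 x → P3 x → P4 x → P5 x → P x) :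
    ((A.filter (fun x => ¬ P x)).card : ℝ) ≤ (A.filter (fun x => ¬ P1 x)).card +
      (A.filter (fun x => ¬ P2 x)).card + (A.filter (fun x => ¬ P3 x)).card +
      (A.filter (fun x => ¬ P4 x)).card + (A.filter (fun x => ¬ P5 x)).card := by
  have h1 : A.filter (fun x => ¬ P x) ⊆ (((A.filter (fun x => ¬ P1 x) ∪
      A.filter (fun x => ¬ P2 x)) ∪ A.filter (fun x => ¬ P3 x)) ∪
      A.filter (fun x => ¬ P4 x)) ∪ A.filter (fun x => ¬ P5 x) := by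
    intro x hx
    simp only [Finset.mem_union, Finset.mem_filter] at hx ⊢
    have := h x
    tauto
  have h2 := Finset.card_le_card h1
  have h3 := Finset.card_union_le ((((A.filter (fun x => ¬ P1 x) ∪
      A.filter (fun x => ¬ P2 x)) ∪ A.filter (fun x => ¬ P3 x)) ∪
      A.filter (fun x => ¬ P4 x))) (A.filter (fun x => ¬ P5 x))
  have h4 := Finset.card_union_le ((((A.filter (fun x => ¬ P1 x) ∪
      A.filter (fun x => ¬ P2 x)) ∪ A.filter (fun x => ¬ P3 x))))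
      (A.filter (fun x => ¬ P4 x))
  have h5 := Finset.card_union_le (((A.filter (fun x => ¬ P1 x) ∪
      A.filter (fun x => ¬ P2 x)))) (A.filter (fun x => ¬ P3 x))
  have h6 := Finset.card_union_le (A.filter (fun x => ¬ P1 x)) (A.filter (fun x => ¬ P2 x))
  exact_mod_cast h2.trans (by omega)

open Classical in
/-- `prefix_prob`, union bound over the five conditions, Markov for `g2`, `g3`, `g4`:
`Λ (128·2^(2r)/2^(3s) + 2^10/G + 2^15/G + 2^27 s/G + 165/2^r) ≤ 1/8`. -/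
theorem LGen_prob {M r Λ lo hi : ℕ} {S : Finset Pt} (hS : Sys M r Λ lo hi S) (l m s G : ℕ)
    (hP : ParS l m s r) (hlog : 2 ^ 7 * (l + m + 2 * s + 2) ≤ 2 ^ s) (hΛ : 1 ≤ Λ)
    (hG : 2 ^ 34 * s * Λ ≤ G) (hr : 2 ^ 12 * Λ ≤ 2 ^ r) (ha : 2 * l + m ≤ M) (hb : l + 2 * m ≤ M) :
    ((S.filter (fun p => ¬ LGen l m s r G (pre M (2 * l + m) p.1) (pre M (l + 2 * m) p.2.1))).card
      : ℝ) ≤ S.card / 8 := by
  have hp := prefix_prob hS (2 * l + m) (l + 2 * m) ha hb (fun x y => ¬ LGen l m s r G x y)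
  refine le_trans (le_of_eq (by congr!)) (hp.trans (le_trans (le_of_eq (by congr!)) (?_ :
    (Λ : ℝ) * S.card * ((((range (2 ^ (2 * l + m))) ×ˢ (range (2 ^ (l + 2 * m)))).filter
      (fun p => ¬ LGen l m s r G p.1 p.2)).card : ℝ) / 2 ^ (2 * l + m + (l + 2 * m)) ≤ _)))
  have hs1 : 1 ≤ s := by
    have := hP.rs
    omega
  have hGpos : 0 < G := lt_of_lt_of_le (by positivity) hG
  have hGR : (0 : ℝ) < G := by exact_mod_cast hGpos
  have hΛR : (1 : ℝ) ≤ Λ := by exact_mod_cast hΛ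
  have hsR : (1 : ℝ) ≤ s := by exact_mod_cast hs1
  have hGR' : (2 : ℝ) ^ 34 * s * Λ ≤ G := by exact_mod_cast hG
  have hrR : (2 : ℝ) ^ 12 * Λ ≤ 2 ^ r := by exact_mod_cast hr
  set T : ℝ := 2 ^ (2 * l + m) * 2 ^ (l + 2 * m) with hT
  have hTpos : 0 < T := by positivity
  have hTe : (2 : ℝ) ^ (2 * l + m + (l + 2 * m)) = T := by rw [hT, pow_add]
  rw [hTe]
  -- the five counts
  have c1 := g1_count l m s r hP
  have c2 := lgp_markov (range (2 ^ (2 * l + m))) (range (2 ^ (l + 2 * m)))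
    (fun x y => ntot l m s r x y) (G * 2 ^ (6 * s) / 2 ^ (3 * r)) _ (by positivity)
    (ntot_mean l m s r hP)
  have c3 := lgp_markov (range (2 ^ (2 * l + m))) (range (2 ^ (l + 2 * m)))
    (fun x y => U1 l m s r x y) (G * 2 ^ (6 * s) / 2 ^ (3 * r)) _ (by positivity)
    (U1_mean l m s r hP hlog)
  have c4 := lgp_markov (range (2 ^ (2 * l + m))) (range (2 ^ (l + 2 * m)))
    (fun x y => U2 l m s r x y) (G * 2 ^ (9 * s) / 2 ^ (5 * r)) _ (by positivity)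
    (U2_mean l m s r hP hlog)
  have c5 := G5_count l m s r hP
  have e2 : 2 ^ 10 * 2 ^ (6 * s) / 2 ^ (3 * r) * 2 ^ (2 * l + m) * 2 ^ (l + 2 * m) /
      (G * 2 ^ (6 * s) / 2 ^ (3 * r)) = 2 ^ 10 / G * T := by
    rw [hT]
    field_simp
  have e3 : 2 ^ 15 * 2 ^ (6 * s) / 2 ^ (3 * r) * 2 ^ (2 * l + m) * 2 ^ (l + 2 * m) /
      (G * 2 ^ (6 * s) / 2 ^ (3 * r)) = 2 ^ 15 / G * T := by
    rw [hT]
    field_simp
  have e4 : 2 ^ 27 * s * 2 ^ (9 * s) / 2 ^ (5 * r) * 2 ^ (2 * l + m) * 2 ^ (l + 2 * m) /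
      (G * 2 ^ (9 * s) / 2 ^ (5 * r)) = 2 ^ 27 * s / G * T := by
    rw [hT]
    field_simp
  rw [e2] at c2
  rw [e3] at c3
  rw [e4] at c4
  rw [mul_assoc, ← hT] at c1 c5
  have hun := lgp_union (range (2 ^ (2 * l + m)) ×ˢ range (2 ^ (l + 2 * m)))
    (fun p : ℕ × ℕ => LGen l m s r G p.1 p.2)
    (fun p => (((range (2 ^ (3 * s))).filter (fun A => (2 : ℝ) ^ (3 * s) / 2 ^ (2 * r) / 8 <
        ZL l m s r (p.1 * 2 ^ (3 * s) + A) p.2)).card : ℝ) ≤ 2 ^ (3 * s) / 8)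
    (fun p => (ntot l m s r p.1 p.2 : ℝ) ≤ G * 2 ^ (6 * s) / 2 ^ (3 * r))
    (fun p => (U1 l m s r p.1 p.2 : ℝ) ≤ G * 2 ^ (6 * s) / 2 ^ (3 * r))
    (fun p => (U2 l m s r p.1 p.2 : ℝ) ≤ G * 2 ^ (9 * s) / 2 ^ (5 * r))
    (fun p => G5 l m s r p.1 p.2)
    (fun x h1 h2 h3 h4 h5 => ⟨h1, h2, h3, h4, h5⟩)
  -- numerical bounds
  have n1 : (Λ : ℝ) * (128 * 2 ^ (2 * r) / 2 ^ (3 * s)) ≤ 1 / 64 := by
    have h1 : (2 : ℝ) ^ (8 * r + 5) ≤ 2 ^ (3 * s) := pow_le_pow_right₀ (by norm_num) hP.rs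
    have h2 : (2 : ℝ) ^ (2 * r) * (2 ^ r * 2 ^ 65) ≤ 2 ^ (8 * r + 5) := by
      rw [← pow_add, ← pow_add]
      apply pow_le_pow_right₀ (by norm_num)
      have := hP.r12
      omega
    have h3 : (Λ : ℝ) * 2 ^ 12 ≤ 2 ^ r := by linarith
    rw [← mul_div_assoc, div_le_iff₀ (by positivity)]
    have h4 : (2 : ℝ) ^ (2 * r) * (Λ * 2 ^ 12 * 2 ^ 65) ≤ 2 ^ (2 * r) * (2 ^ r * 2 ^ 65) := by
      apply mul_le_mul_of_nonneg_left _ (by positivity)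
      exact mul_le_mul_of_nonneg_right h3 (by positivity)
    have h5 : (2 : ℝ) ^ (2 * r) * (Λ * 2 ^ 12 * 2 ^ 65) ≤ 2 ^ (3 * s) := h4.trans (h2.trans h1)
    have h6 : (0 : ℝ) ≤ 2 ^ (2 * r) * Λ := by positivity
    nlinarith
  have n2 : (Λ : ℝ) * (2 ^ 10 / G) ≤ 1 / 2 ^ 24 := by
    rw [← mul_div_assoc, div_le_div_iff₀ hGR (by positivity), one_mul]
    calc (Λ : ℝ) * 2 ^ 10 * 2 ^ 24 = (2 : ℝ) ^ 34 * 1 * Λ := by ring
      _ ≤ (2 : ℝ) ^ 34 * s * Λ := by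
        apply mul_le_mul_of_nonneg_right _ (by linarith)
        exact mul_le_mul_of_nonneg_left hsR (by positivity)
      _ ≤ (G : ℝ) := hGR'
  have n3 : (Λ : ℝ) * (2 ^ 15 / G) ≤ 1 / 2 ^ 19 := by
    rw [← mul_div_assoc, div_le_div_iff₀ hGR (by positivity), one_mul]
    calc (Λ : ℝ) * 2 ^ 15 * 2 ^ 19 = (2 : ℝ) ^ 34 * 1 * Λ := by ring
      _ ≤ (2 : ℝ) ^ 34 * s * Λ := by
        apply mul_le_mul_of_nonneg_right _ (by linarith)
        exact mul_le_mul_of_nonneg_left hsR (by positivity)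
      _ ≤ (G : ℝ) := hGR'
  have n4 : (Λ : ℝ) * (2 ^ 27 * s / G) ≤ 1 / 2 ^ 7 := by
    rw [← mul_div_assoc, div_le_div_iff₀ hGR (by positivity), one_mul]
    calc (Λ : ℝ) * (2 ^ 27 * s) * 2 ^ 7 = (2 : ℝ) ^ 34 * s * Λ := by ring
      _ ≤ (G : ℝ) := hGR'
  have n5 : (Λ : ℝ) * (165 / 2 ^ r) ≤ 165 / 2 ^ 12 := by
    rw [← mul_div_assoc, div_le_div_iff₀ (by positivity) (by positivity)]
    calc (Λ : ℝ) * 165 * 2 ^ 12 = 165 * (2 ^ 12 * Λ) := by ring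
      _ ≤ 165 * 2 ^ r := mul_le_mul_of_nonneg_left hrR (by norm_num)
  have hbad : ((((range (2 ^ (2 * l + m))) ×ˢ (range (2 ^ (l + 2 * m)))).filter
      (fun p => ¬ LGen l m s r G p.1 p.2)).card : ℝ) ≤
      (128 * 2 ^ (2 * r) / 2 ^ (3 * s) + 2 ^ 10 / G + 2 ^ 15 / G + 2 ^ 27 * s / G + 165 / 2 ^ r) *
      T := by
    refine hun.trans ?_
    have : (128 * 2 ^ (2 * r) / 2 ^ (3 * s) + 2 ^ 10 / (G : ℝ) + 2 ^ 15 / G + 2 ^ 27 * s / G +
      165 / 2 ^ r) * T = 128 * 2 ^ (2 * r) / 2 ^ (3 * s) * T + 2 ^ 10 / G * T + 2 ^ 15 / G * T +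
      2 ^ 27 * s / G * T + 165 / 2 ^ r * T := by ring
    rw [this]
    exact add_le_add (add_le_add (add_le_add (add_le_add c1 c2) c3) c4) c5
  rw [div_le_div_iff₀ hTpos (by norm_num)]
  have hSc : (0 : ℝ) ≤ S.card := Nat.cast_nonneg _
  calc (Λ : ℝ) * S.card * ((((range (2 ^ (2 * l + m))) ×ˢ (range (2 ^ (l + 2 * m)))).filter
      (fun p => ¬ LGen l m s r G p.1 p.2)).card : ℝ) * 8
      ≤ (Λ : ℝ) * S.card * ((128 * 2 ^ (2 * r) / 2 ^ (3 * s) + 2 ^ 10 / G + 2 ^ 15 / G +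
        2 ^ 27 * s / G + 165 / 2 ^ r) * T) * 8 := by
        apply mul_le_mul_of_nonneg_right _ (by norm_num)
        exact mul_le_mul_of_nonneg_left hbad (by positivity)
    _ = S.card * T * (8 * (Λ * (128 * 2 ^ (2 * r) / 2 ^ (3 * s)) + Λ * (2 ^ 10 / G) +
        Λ * (2 ^ 15 / G) + Λ * (2 ^ 27 * s / G) + Λ * (165 / 2 ^ r))) := by ring
    _ ≤ S.card * T * 1 := by
        apply mul_le_mul_of_nonneg_left _ (by positivity)
        have : (8 : ℝ) * (1 / 64 + 1 / 2 ^ 24 + 1 / 2 ^ 19 + 1 / 2 ^ 7 + 165 / 2 ^ 12) ≤ 1 := by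
          norm_num
        linarith
    _ = S.card * T := mul_one _

end MP_5e4520_nt
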