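import Pool.Agent.Lib.MP_5e4520_nt.NumD
import Pool.Agent.Lib.MP_5e4520_nt.Comb
import Pool.Agent.Lib.MP_5e4520_nt.Hfin
import Pool.Agent.Lib.MP_5e4520_nt.HSwap
import Pool.Agent.Lib.MP_5e4520_nt.LGP
import Pool.Agent.Lib.MP_5e4520_nt.LFin

set_option autoImplicit false

namespace MP_5e4520_nt

open Finset

private theorem coren_DAst_nonneg {E : ℕ → ℕ → ℕ → ℕ → ℝ} {lam : ℝ} {M : ℕ} (hE : Poly E lam M)
    (l m s I : ℕ) : 0 ≤ DAst E l m s I := by
  have h := hE.lip (2 * l + m) (l + 2 * m + 9 * s * I) (l + s) (m + 6 * s * I) (3 * s) 0 0 0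
  unfold DAst
  push_cast at h
  simp only [add_zero] at h
  linarith

private theorem coren_Bst_nonneg {E : ℕ → ℕ → ℕ → ℕ → ℝ} {lam : ℝ} {M : ℕ} (hE : Poly E lam M)
    (l m s p : ℕ) : 0 ≤ Bst E l m s p := by
  have h := hE.lip (2 * l + m) (l + 2 * m + 9 * s * p) (l + s) (m + 6 * s * p + s) 0 (3 * s) 0 0
  unfold Bst
  push_cast at h
  simp only [add_zero, zero_add] at h
  linarith

/-- Assembly.  `EE_poly`; `Hfin`, `Hfin'` at the windows `(l0+s i, l0+s i+s j, s k)` give the hypotheses of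
`S5A`, `S5B`; `S7` with `X = 2^94 G^6` gives a row; `DAst ≥ 0`, `Bst ≥ 0` (`lip`), so `DAst < 1/2` and
`avg Bst ≤ 1/X`; `LGen_prob` for each window of the row; `Lfin`. -/
theorem core_num {M r Λ hi l0 s k w N1 I G : ℕ} (hN : Num M r Λ hi l0 s k w N1 I G)
    (S : Finset Pt) (hS : Sys M r Λ l0 hi S) : False := by
  have hE : Poly (EE M S) (Real.logb 2 Λ) M := EE_poly hS hN.hΛ
  have hr12 := hN.r12
  have hrs := hN.rs
  have hk1 := hN.k1
  have hs1 : 1 ≤ s := by omega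
  have hG1 : 1 ≤ G := by
    refine le_trans ?_ hN.hG
    have h1 : 1 ≤ 2 ^ 34 * s := Nat.one_le_iff_ne_zero.mpr (by positivity)
    exact Nat.one_le_iff_ne_zero.mpr (Nat.mul_ne_zero (by omega) (by have := hN.hΛ; omega))
  have hI1 : 1 ≤ I := by
    refine le_trans ?_ hN.hI
    exact Nat.one_le_iff_ne_zero.mpr (by positivity)
  have hsk : s ≤ s * k := Nat.le_mul_of_pos_right s hk1
  have hl0s := hN.l0s
  have hhi1 := hN.hi1
  have hhM := hN.hM
  have hl0hi : l0 ≤ hi := by omega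
  -- windows
  have hwin : ∀ i < N1, ∀ j < w, ∀ l m u : ℕ, l = l0 + s * i → m = l0 + s * i + s * j →
      u = s * k → Par l m u r ∧ l0 ≤ l ∧ l0 ≤ m ∧ l + m + 2 * u ≤ hi := by
    intro i hi' j hj l m u hl hm hu
    have h1 : s * i ≤ s * N1 := Nat.mul_le_mul_left s hi'.le
    have h2 : s * j ≤ s * w := Nat.mul_le_mul_left s hj.le
    have h3 : 2 * s * N1 = 2 * (s * N1) := by ring
    rw [h3] at hhi1
    refine ⟨⟨by omega, by omega, by omega, by omega⟩, by omega, by omega, by omega⟩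
  have hc6 : (0 : ℝ) ≤ 64 * ((s : ℝ) * k) ^ 3 * 2 ^ r := by positivity
  have hMM : 3 * l0 + 3 * s * (N1 + k) + 2 * s * w ≤ M := by
    have h3 : 2 * s * N1 = 2 * (s * N1) := by ring
    have h4 : 3 * s * (N1 + k) = 3 * (s * N1) + 3 * (s * k) := by ring
    have h5 : 2 * s * w = 2 * (s * w) := by ring
    rw [h3] at hhi1
    rw [h4, h5]
    omega
  have h5A := S5A hE l0 s k N1 w (6 * r + 30) (64 * ((s : ℝ) * k) ^ 3 * 2 ^ r) hc6 hl0s hMM (by
    intro i hi' j hj l m u hl hm hu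
    obtain ⟨hP, hlo, hlm, hhi⟩ := hwin i hi' j hj l m u hl hm hu
    have h := Hfin hS l m u hP hlo hlm hhi hhM hN.hΛ (by rw [hu]; exact hN.u16)
      (by rw [hu]; exact hN.u500) (by rw [hu]; exact hN.u128)
    have hu' : (u : ℝ) = s * k := by rw [hu]; push_cast; ring
    rw [hu'] at h ⊢
    exact h)
  have h5B := S5B hE l0 s k N1 w (6 * r + 30) (64 * ((s : ℝ) * k) ^ 3 * 2 ^ r) hc6 hl0s hMM (by
    intro i hi' j hj l m u hl hm hu
    obtain ⟨hP, hlo, hlm, hhi⟩ := hwin i hi' j hj l m u hl hm hu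
    have h := Hfin' hS l m u hP hlo hlm hhi hhM hN.hΛ (by rw [hu]; exact hN.u16)
      (by rw [hu]; exact hN.u500) (by rw [hu]; exact hN.u128)
    have hu' : (u : ℝ) = s * k := by rw [hu]; push_cast; ring
    rw [hu'] at h ⊢
    exact h)
  obtain ⟨i, j, hi', hj, hrow⟩ := S7 hE l0 s k I N1 w hk1 hI1 hN.hN hN.hw
    (2 ^ 94 * (G : ℝ) ^ 6) _ (by positivity) h5A h5B hN.hnum
  obtain ⟨l, hl⟩ : ∃ l, l = l0 + s * (i + 3 * I + k) := ⟨_, rfl⟩
  obtain ⟨m, hm⟩ : ∃ m, m = l0 + s * (i + 3 * I + k) + s * j := ⟨_, rfl⟩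
  have hrow' := hrow l m hl hm
  have hDA0 : 0 ≤ DAst (EE M S) l m s I := coren_DAst_nonneg hE l m s I
  have hB0 : ∀ p, 0 ≤ Bst (EE M S) l m s p := fun p => coren_Bst_nonneg hE l m s p
  have hX : (0 : ℝ) < 2 ^ 94 * (G : ℝ) ^ 6 := by
    have : (0 : ℝ) < G := by exact_mod_cast hG1
    positivity
  have havg0 : 0 ≤ (∑ p ∈ range I, Bst (EE M S) l m s p) / I :=
    div_nonneg (Finset.sum_nonneg fun p _ => hB0 p) (by positivity)
  have hA : DAst (EE M S) l m s I < 1 / 2 := by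
    have h1 := mul_nonneg hX.le havg0
    linarith
  have hB : (∑ p ∈ range I, Bst (EE M S) l m s p) / I ≤ 1 / (2 ^ 94 * (G : ℝ) ^ 6) := by
    rw [le_div_iff₀ hX]
    linarith
  -- arithmetic
  have a1 : s * (i + 3 * I + k) = s * i + 3 * (s * I) + s * k := by ring
  have a2 : s * i + s + 3 * (s * I) + s * k ≤ s * N1 := by
    have h1 : s * (i + 1 + 3 * I + k) ≤ s * N1 := Nat.mul_le_mul_left s (by omega)
    have h2 : s * (i + 1 + 3 * I + k) = s * i + s + 3 * (s * I) + s * k := by ring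
    omega
  have a3 : s * j + s + 9 * (s * I) ≤ s * w := by
    have h1 : s * (j + 1 + 9 * I) ≤ s * w := Nat.mul_le_mul_left s (by omega)
    have h2 : s * (j + 1 + 9 * I) = s * j + s + 9 * (s * I) := by ring
    omega
  have a4 : 3 * s * I = 3 * (s * I) := by ring
  have a5 : 2 * s * N1 = 2 * (s * N1) := by ring
  rw [a5] at hhi1
  rw [a1] at hl hm
  have a6 : ∀ p, 3 * s * p = 3 * (s * p) := fun p => by ring
  have a7 : ∀ p, 6 * s * p = 6 * (s * p) := fun p => by ring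
  have a8 : ∀ p, p ≤ I → s * p ≤ s * I := fun p hp => Nat.mul_le_mul_left s hp
  have a9 : ∀ p, 9 * s * p = 9 * (s * p) := fun p => by ring
  have hP : ∀ j ≤ I, ParS (l - 3 * s * j) (m + 6 * s * j) s r := by
    intro p hp
    have b1 := a8 p hp
    have b2 := a6 p
    have b3 := a7 p
    exact ⟨hr12, hrs, by omega, by omega⟩
  refine Lfin hS l m s G I hP hG1 (by omega) (by omega) (by omega) hhM hN.hI ?_
    (fun p _ => hB0 p) hB hA
  intro p hp
  have b1 := a8 p hp.le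
  have b2 := a6 p
  have b3 := a7 p
  have b4 := a9 p
  have c1 : 2 * (l - 3 * s * p) + (m + 6 * s * p) = 2 * l + m := by omega
  have c2 : (l - 3 * s * p) + 2 * (m + 6 * s * p) = l + 2 * m + 9 * s * p := by omega
  have hgen := LGen_prob hS (l - 3 * s * p) (m + 6 * s * p) s G (hP p hp.le) (by
    refine le_trans ?_ hN.hlog
    exact Nat.mul_le_mul_left _ (by omega)) hN.hΛ hN.hG hN.hr (by omega) (by omega)
  rw [c1, c2] at hgen
  exact hgen

end MP_5e4520_nt
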