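import Mathlib

set_option autoImplicit false

/-!
# MP_5e4520_nt : definitions

Everything is finite.  A *window* is a triple `(l, m, u)`.  We use the scales
`Q1 = 2^(2l+m+3u)`, `Q2 = 2^(l+2m+3u)`, `K = 2^(l+m+2u-r)`, `L = 2^(l+m+2u)`, `K' = 2^(l+m-u)`,
`κ1 = 1/2^(l+u)`, `κ2 = 1/2^(m+u)`; note `L/Q1 = κ1`, `L/Q2 = κ2`, `K = L/2^r`.
-/

namespace MP_5e4520_nt

open Finset

/-- distance to the nearest integer -/
noncomputable def nd (t : ℝ) : ℝ := |t - round t|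

/-- `e(t) = exp(2π i t)` -/
noncomputable def ee (t : ℝ) : ℂ := Complex.exp (2 * Real.pi * t * Complex.I)

/-- points: quadruples of digit strings (as natural numbers) -/
abbrev Pt := ℕ × ℕ × ℕ × ℕ

/-- `Hit l m u r α β γ δ` : there is an integer `q`, `K < q < 3K`, `K = 2^(l+m+2u-r)`, with
`‖q α/2^(2l+m+3u) - γ/2^(l+u)‖ < 2/2^(l+u)` and `‖q β/2^(l+2m+3u) - δ/2^(m+u)‖ < 2/2^(m+u)`. -/
def Hit (l m u r α β γ δ : ℕ) : Prop :=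
  ∃ q : ℕ, 2 ^ (l + m + 2 * u - r) < q ∧ q < 3 * 2 ^ (l + m + 2 * u - r) ∧
    nd ((q : ℝ) * α / 2 ^ (2 * l + m + 3 * u) - γ / 2 ^ (l + u)) < 2 / 2 ^ (l + u) ∧
    nd ((q : ℝ) * β / 2 ^ (l + 2 * m + 3 * u) - δ / 2 ^ (m + u)) < 2 / 2 ^ (m + u)

/-- the first `k` binary digits (of `M`) of `x < 2^M` -/
def pre (M k x : ℕ) : ℕ := x / 2 ^ (M - k)

/-- the four prefixes of a point -/
def px (M a b l m : ℕ) (p : Pt) : Pt :=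
  (pre M a p.1, pre M b p.2.1, pre M l p.2.2.1, pre M m p.2.2.2)

/-- A finite system of quadruples `(α, β, γ, δ)` of `M`-digit numbers without hits. -/
structure Sys (M r Λ lo hi : ℕ) (S : Finset Pt) : Prop where
  rng : ∀ p ∈ S, p.1 < 2 ^ M ∧ p.2.1 < 2 ^ M ∧ p.2.2.1 < 2 ^ M ∧ p.2.2.2 < 2 ^ M
  inj : ∀ p ∈ S, ∀ p' ∈ S, p.1 = p'.1 → p.2.1 = p'.2.1 → p = p'
  card : 4 ^ M ≤ Λ * S.card
  nohit : ∀ l m u : ℕ, lo ≤ l → lo ≤ m → l + m + 2 * u ≤ hi → ∀ p ∈ S,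
    ¬ Hit l m u r (pre M (2 * l + m + 3 * u) p.1) (pre M (l + 2 * m + 3 * u) p.2.1)
      (pre M (l + u) p.2.2.1) (pre M (m + u) p.2.2.2)

/-! ## Entropy -/

open Classical in
/-- the (base 2) entropy of the function `f` under the uniform law on `S` -/
noncomputable def ent {ι κ : Type*} (S : Finset ι) (f : ι → κ) : ℝ :=
  (∑ p ∈ S, Real.logb 2 ((S.card : ℝ) / ((S.filter (fun x => f x = f p)).card : ℝ))) / S.card

/-- the entropy of the four prefixes -/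
noncomputable def EE (M : ℕ) (S : Finset Pt) (a b l m : ℕ) : ℝ := ent S (px M a b l m)

/-- abstract properties of `EE M S` used in the combinatorial part -/
structure Poly (E : ℕ → ℕ → ℕ → ℕ → ℝ) (lam : ℝ) (M : ℕ) : Prop where
  mono : ∀ a b c d a' b' c' d', a ≤ a' → b ≤ b' → c ≤ c' → d ≤ d' → E a b c d ≤ E a' b' c' d'
  sub : ∀ a b c d a' b' c' d', E (max a a') (max b b') (max c c') (max d d') +
    E (min a a') (min b b') (min c c') (min d d') ≤ E a b c d + E a' b' c' d'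
  lip : ∀ a b c d x y z t : ℕ, E (a + x) (b + y) (c + z) (d + t) ≤ E a b c d + (x + y + z + t)
  zero : E 0 0 0 0 = 0
  low : ∀ a b : ℕ, a ≤ M → b ≤ M → (a : ℝ) + b - lam ≤ E a b 0 0
  lam0 : 0 ≤ lam

section combos

variable (E : ℕ → ℕ → ℕ → ℕ → ℝ) (l m u s : ℕ)

/-- base entropy of a window -/
def GG : ℝ := E (2 * l + m) (l + 2 * m) l m

/-- `I(AB ; CD | base)` -/
def IABCD : ℝ := E (2 * l + m + 3 * u) (l + 2 * m + 3 * u) l m +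
  E (2 * l + m) (l + 2 * m) (l + u) (m + u) -
  E (2 * l + m + 3 * u) (l + 2 * m + 3 * u) (l + u) (m + u) - GG E l m

/-- `I(A ; B | base)` -/
def IAB : ℝ := E (2 * l + m + 3 * u) (l + 2 * m) l m + E (2 * l + m) (l + 2 * m + 3 * u) l m -
  E (2 * l + m + 3 * u) (l + 2 * m + 3 * u) l m - GG E l m

/-- total entropy increase minus `6u` -/
def HH : ℝ := GG E (l + u) (m + u) - GG E l m - 6 * u

/-- `3u - H(A | base)` -/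
def DA : ℝ := 3 * u - (E (2 * l + m + 3 * u) (l + 2 * m) l m - GG E l m)

/-- `3u - H(B | base)` -/
def DB : ℝ := 3 * u - (E (2 * l + m) (l + 2 * m + 3 * u) l m - GG E l m)

/-- `3s - H(A | α_a, β_{b+9sI}, γ_{l+s}, δ_{m+6sI})` -/
def DAst (I : ℕ) : ℝ := 3 * s - (E (2 * l + m + 3 * s) (l + 2 * m + 9 * s * I) (l + s) (m + 6 * s * I)
  - E (2 * l + m) (l + 2 * m + 9 * s * I) (l + s) (m + 6 * s * I))

/-- `3s - H(B_p | α_a, β_{b+9sp}, γ_{l+s}, δ_{m+6sp+s})` -/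
def Bst (p : ℕ) : ℝ := 3 * s -
  (E (2 * l + m) (l + 2 * m + 9 * s * p + 3 * s) (l + s) (m + 6 * s * p + s)
  - E (2 * l + m) (l + 2 * m + 9 * s * p) (l + s) (m + 6 * s * p + s))

end combos

/-! ## Fourier objects on `Z/Q` -/

/-- Fejér kernel `|∑_{i<K} e(iθ)|²/K` -/
noncomputable def fej (K : ℕ) (θ : ℝ) : ℝ := ‖∑ i ∈ range K, ee (i * θ)‖ ^ 2 / K

/-- Poisson kernel with parameter `1 - 1/K'` -/
noncomputable def pois (K' : ℕ) (θ : ℝ) : ℝ :=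
  (1 - (1 - 1 / (K' : ℝ)) ^ 2) /
    (1 - 2 * (1 - 1 / (K' : ℝ)) * Real.cos (2 * Real.pi * θ) + (1 - 1 / (K' : ℝ)) ^ 2)

/-- Fourier coefficients of the triangle -/
noncomputable def ctri (L Q h : ℕ) : ℝ := ‖∑ i ∈ range L, ee (i * (h / Q))‖ ^ 2 / (L * Q)

/-- the triangle on `Z/Q` : `#{(i,j) ∈ [L]² : i - j + x ≡ 0 mod Q} / L` -/
noncomputable def btri (L Q : ℕ) (x : ℤ) : ℝ :=
  (((range L ×ˢ range L).filter (fun p => (Q : ℤ) ∣ ((p.1 : ℤ) - p.2 + x))).card : ℝ) / L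

/-- additive energy of `[L]` -/
def E4 (L : ℕ) : ℕ :=
  (((range L ×ˢ range L) ×ˢ (range L ×ˢ range L)).filter
    (fun p => p.1.1 + p.2.1 = p.1.2 + p.2.2)).card

/-- Fourier coefficients of the quartic bump -/
noncomputable def cqua (L Q h : ℕ) : ℝ := ‖∑ i ∈ range L, ee (i * (h / Q))‖ ^ 4 / (Q * E4 L)

/-- the quartic bump on `Z/Q` -/
noncomputable def bqua (L Q : ℕ) (x : ℤ) : ℝ :=
  ((((range L ×ˢ range L) ×ˢ (range L ×ˢ range L)).filter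
    (fun p => (Q : ℤ) ∣ ((p.1.1 : ℤ) - p.1.2 + (p.2.1 - p.2.2) + x))).card : ℝ) / E4 L

/-! ## Windows -/

/-- standing assumptions on a window -/
structure Par (l m u r : ℕ) : Prop where
  r1 : 1 ≤ r
  ru : 8 * r + 5 ≤ 3 * u
  ul : u ≤ l
  um : u ≤ m

/-- no short difference -/
def Gen1 (l m u r α β : ℕ) : Prop :=
  ∀ d : ℕ, 0 < d → d ≤ 2 * 2 ^ (l + m + 2 * u - r) →
    ¬ (nd ((d : ℝ) * α / 2 ^ (2 * l + m + 3 * u)) < 4 / 2 ^ (l + u) ∧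
       nd ((d : ℝ) * β / 2 ^ (l + 2 * m + 3 * u)) < 4 / 2 ^ (m + u))

/-- `h` is a low frequency on the β side -/
def lowh (l m u r h : ℕ) : Prop :=
  nd ((h : ℝ) / 2 ^ (l + 2 * m + 3 * u)) * 2 ^ (l + 2 * m + 3 * u) < 2 ^ (m + u) / 2 ^ (3 * r)

open Classical in
/-- low frequency part of the total variation -/
noncomputable def Zlow (l m u r α β : ℕ) : ℝ :=
  ∑ h1 ∈ range (2 ^ (2 * l + m + 3 * u)), ∑ h2 ∈ range (2 ^ (l + 2 * m + 3 * u)),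
    if (h1 ≠ 0 ∨ h2 ≠ 0) ∧ lowh l m u r h2 then
      ctri (2 ^ (l + m + 2 * u)) (2 ^ (2 * l + m + 3 * u)) h1 *
      cqua (2 ^ (l + m + 2 * u)) (2 ^ (l + 2 * m + 3 * u)) h2 *
      fej (2 ^ (l + m + 2 * u - r))
        ((h1 : ℝ) * α / 2 ^ (2 * l + m + 3 * u) + (h2 : ℝ) * β / 2 ^ (l + 2 * m + 3 * u))
    else 0

def Gen2 (l m u r α β : ℕ) : Prop := Zlow l m u r α β ≤ 1 / (4 * 2 ^ r)

def Gen12 (l m u r α β : ℕ) : Prop := Gen1 l m u r α β ∧ Gen2 l m u r α β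

open Classical in
/-- the return sum `∑_{d ≥ 1} (1-1/K')^d 1[‖dα/Q1‖ < 2^{-l}, ‖dβ0/2^b‖ < 2^{-m}]` -/
noncomputable def ret (l m u α β0 : ℕ) : ℝ :=
  ∑' d : ℕ, (1 - 1 / (2 : ℝ) ^ (l + m - u)) ^ (d + 1) *
    (if nd (((d + 1 : ℕ) : ℝ) * α / 2 ^ (2 * l + m + 3 * u)) < 1 / 2 ^ l ∧
        nd (((d + 1 : ℕ) : ℝ) * β0 / 2 ^ (l + 2 * m)) < 1 / 2 ^ m then (1 : ℝ) else 0)

def Gen3 (l m u α β0 : ℕ) : Prop := ret l m u α β0 ≤ 1 / 2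

/-- the smooth hit function -/
noncomputable def FF (l m u r α β γ δ : ℕ) : ℝ :=
  (∑ i ∈ range (2 ^ (l + m + 2 * u - r)), ∑ j ∈ range (2 ^ (l + m + 2 * u - r)),
    btri (2 ^ (l + m + 2 * u)) (2 ^ (2 * l + m + 3 * u))
      ((2 * 2 ^ (l + m + 2 * u - r) + (i : ℤ) - j) * α - γ * 2 ^ (l + m + 2 * u)) *
    bqua (2 ^ (l + m + 2 * u)) (2 ^ (l + 2 * m + 3 * u))
      ((2 * 2 ^ (l + m + 2 * u - r) + (i : ℤ) - j) * β - δ * 2 ^ (l + m + 2 * u))) /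
    2 ^ (l + m + 2 * u - r)

/-- Fourier transform of the weight `ρ` on `[2^u]²` -/
noncomputable def rhat (l m u : ℕ) (ρ : ℕ → ℕ → ℝ) (h1 h2 : ℕ) : ℂ :=
  ∑ c ∈ range (2 ^ u), ∑ d ∈ range (2 ^ u),
    (ρ c d : ℂ) * ee (-((h1 : ℝ) * c / 2 ^ (l + u) + (h2 : ℝ) * d / 2 ^ (m + u)))

/-! ## Small windows -/

open Classical in
/-- number of hitting `q` -/
noncomputable def Nhit (l m u r α β γ δ : ℕ) : ℕ :=
  ((Ioo (2 ^ (l + m + 2 * u - r)) (3 * 2 ^ (l + m + 2 * u - r))).filter (fun q : ℕ =>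
    nd ((q : ℝ) * α / 2 ^ (2 * l + m + 3 * u) - γ / 2 ^ (l + u)) < 2 / 2 ^ (l + u) ∧
    nd ((q : ℝ) * β / 2 ^ (l + 2 * m + 3 * u) - δ / 2 ^ (m + u)) < 2 / 2 ^ (m + u))).card

/-- total variation for the mixed bump (α at full precision, β coarse) -/
noncomputable def ZL (l m s r α β0 : ℕ) : ℝ :=
  ∑ h1 ∈ range (2 ^ (2 * l + m + 3 * s)), ∑ h2 ∈ range (2 ^ (l + 2 * m)),
    if (h1 ≠ 0 ∨ h2 ≠ 0) then
      ctri (2 ^ (l + m + 2 * s)) (2 ^ (2 * l + m + 3 * s)) h1 *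
      ctri (2 ^ (l + m + 2 * s - r - 2)) (2 ^ (l + 2 * m)) h2 *
      fej (2 ^ (l + m + 2 * s - r))
        ((h1 : ℝ) * α / 2 ^ (2 * l + m + 3 * s) + (h2 : ℝ) * β0 / 2 ^ (l + 2 * m))
    else 0

open Classical in
/-- `#{q < 2K : ‖qα0/2^a‖ ≤ 7K/2^a, ‖qβ0/2^b‖ ≤ 7K/2^b}` -/
noncomputable def ntot (l m s r α0 β0 : ℕ) : ℕ :=
  ((range (2 * 2 ^ (l + m + 2 * s - r))).filter (fun q : ℕ =>
    nd ((q : ℝ) * α0 / 2 ^ (2 * l + m)) ≤ 7 * 2 ^ (l + m + 2 * s - r) / 2 ^ (2 * l + m) ∧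
    nd ((q : ℝ) * β0 / 2 ^ (l + 2 * m)) ≤ 7 * 2 ^ (l + m + 2 * s - r) / 2 ^ (l + 2 * m))).card

/-- `#{t ∈ [-P, P] : d ∣ q p - t}` -/
noncomputable def tc (P d : ℕ) (q : ℤ) (p : ℕ) : ℕ :=
  ((Icc (-(P : ℤ)) P).filter (fun t : ℤ => (d : ℤ) ∣ (q * p - t))).card

/-- `W(d,p,p') = ∑_{|q|<D} tc(P,d,q,p) tc(R,d,q,p')` -/
noncomputable def WW (D P R d p p' : ℕ) : ℕ :=
  ∑ q ∈ Ioo (-(D : ℤ)) D, tc P d q p * tc R d q p'

open Classical in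
/-- pair count: `∑_{K' < d < 2K} ∑_{p,p' ≤ d} 1[|dα0/2^a - p| ≤ xx d] 1[|dβ0/2^b - p'| ≤ yy d] W` -/
noncomputable def UU (l m s r P R : ℕ) (xx yy : ℕ → ℝ) (α0 β0 : ℕ) : ℕ :=
  ∑ d ∈ Ioo (2 ^ (l + m - s)) (2 * 2 ^ (l + m + 2 * s - r)),
    ∑ p ∈ range (d + 1), ∑ p' ∈ range (d + 1),
      if |(d : ℝ) * α0 / 2 ^ (2 * l + m) - p| ≤ xx d ∧ |(d : ℝ) * β0 / 2 ^ (l + 2 * m) - p'| ≤ yy d
      then WW (2 * 2 ^ (l + m + 2 * s - r)) P R d p p' else 0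

/-- `Υ'` -/
noncomputable def U1 (l m s r α0 β0 : ℕ) : ℕ :=
  UU l m s r (32 * 2 ^ (m + s - r)) (32 * 2 ^ (l + s - r))
    (fun d => 4 / 2 ^ (l + s) + d / 2 ^ (2 * l + m)) (fun d => 4 / 2 ^ (m + s) + d / 2 ^ (l + 2 * m))
    α0 β0

/-- `Υ''` -/
noncomputable def U2 (l m s r α0 β0 : ℕ) : ℕ :=
  UU l m s r (64 * 2 ^ (m + 4 * s - 2 * r)) (32 * 2 ^ (l + s - r))
    (fun _ => 7 * 2 ^ (l + m + 2 * s - r) / 2 ^ (2 * l + m))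
    (fun d => 4 / 2 ^ (m + s) + d / 2 ^ (l + 2 * m)) α0 β0

open Classical in
/-- genericity of the coarse pair for the small windows -/
structure LGen (l m s r G α0 β0 : ℕ) : Prop where
  g1 : (((range (2 ^ (3 * s))).filter (fun A =>
      (2 : ℝ) ^ (3 * s) / 2 ^ (2 * r) / 8 < ZL l m s r (α0 * 2 ^ (3 * s) + A) β0)).card : ℝ)
      ≤ 2 ^ (3 * s) / 8
  g2 : (ntot l m s r α0 β0 : ℝ) ≤ G * 2 ^ (6 * s) / 2 ^ (3 * r)
  g3 : (U1 l m s r α0 β0 : ℝ) ≤ G * 2 ^ (6 * s) / 2 ^ (3 * r)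
  g4 : (U2 l m s r α0 β0 : ℝ) ≤ G * 2 ^ (9 * s) / 2 ^ (5 * r)
  g5 : ∀ d : ℕ, 1 ≤ d → d ≤ 2 ^ (l + m - s) →
      ¬ (nd ((d : ℝ) * α0 / 2 ^ (2 * l + m)) ≤ 7 * 2 ^ (l + m + 2 * s - r) / 2 ^ (2 * l + m) ∧
         nd ((d : ℝ) * β0 / 2 ^ (l + 2 * m)) ≤ 4 / 2 ^ (m + s) + d / 2 ^ (l + 2 * m))

end MP_5e4520_nt
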