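import Pool.Agent.Lib.MP_5e4520_nt.Bump

set_option autoImplicit false

namespace MP_5e4520_nt

open Finset

/-- `pois = (1-ϱ²)/((1-ϱ)² + 2ϱ(1 - cos 2πθ))`, `1 - ϱ² ≥ (3/2)/K'`, and
`(1-ϱ)² + 4ϱ sin²(πθ) ≤ (1/K'²)(1 + 40 (K'‖θ‖)²)`. -/
theorem pois_lower (K' : ℕ) (hK' : 2 ≤ K') (θ : ℝ) :
    (3 / 2) * K' / (1 + 40 * (K' * nd θ) ^ 2) ≤ pois K' θ := by
  have hK : (2 : ℝ) ≤ K' := by exact_mod_cast hK'
  have hK0 : (0 : ℝ) < K' := by linarith
  set x : ℝ := 1 / (K' : ℝ) with hx
  have hx0 : 0 < x := by positivity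
  have hx2 : x ≤ 1 / 2 := by
    rw [hx]; exact one_div_le_one_div_of_le (by norm_num) hK
  have hKx : (K' : ℝ) * x = 1 := by rw [hx]; field_simp
  set t : ℝ := nd θ with ht
  have ht0 : 0 ≤ t := nd_nonneg θ
  have hcos : 1 - 20 * t ^ 2 ≤ Real.cos (2 * Real.pi * θ) := by
    have e1 : Real.cos (2 * Real.pi * θ) = Real.cos (2 * Real.pi * (θ - round θ)) := by
      have h1 := Real.cos_sub_int_mul_two_pi (2 * Real.pi * θ) (round θ)
      rw [← h1]
      congr 1
      ring
    rw [e1]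
    have h2 := Real.one_sub_sq_div_two_le_cos (x := 2 * Real.pi * (θ - round θ))
    have h3 : (θ - round θ) ^ 2 = t ^ 2 := by
      rw [ht, nd, sq_abs]
    have hpi : Real.pi ^ 2 ≤ 10 := by
      have h4 := Real.pi_lt_d2
      have h5 := Real.pi_pos
      nlinarith
    have h6 : (2 * Real.pi * (θ - round θ)) ^ 2 / 2 = 2 * Real.pi ^ 2 * t ^ 2 := by
      rw [mul_pow, mul_pow, h3]; ring
    rw [h6] at h2
    have h7 : 2 * Real.pi ^ 2 * t ^ 2 ≤ 20 * t ^ 2 := by
      have := sq_nonneg t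
      nlinarith
    linarith
  have hcos1 : Real.cos (2 * Real.pi * θ) ≤ 1 := Real.cos_le_one _
  unfold pois
  rw [← hx]
  set c : ℝ := Real.cos (2 * Real.pi * θ) with hc
  have hD0 : 0 < 1 - 2 * (1 - x) * c + (1 - x) ^ 2 := by
    have : 1 - 2 * (1 - x) * c + (1 - x) ^ 2 = x ^ 2 + 2 * (1 - x) * (1 - c) := by ring
    rw [this]
    have h1 : 0 ≤ 2 * (1 - x) * (1 - c) := by
      apply mul_nonneg <;> linarith
    have h2 : 0 < x ^ 2 := by positivity
    linarith
  have hD1 : 1 - 2 * (1 - x) * c + (1 - x) ^ 2 ≤ x ^ 2 * (1 + 40 * (K' * t) ^ 2) := by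
    have e : x ^ 2 * (1 + 40 * (K' * t) ^ 2) = x ^ 2 + 40 * ((K' * x) * t) ^ 2 := by ring
    rw [e, hKx, one_mul]
    have : 1 - 2 * (1 - x) * c + (1 - x) ^ 2 = x ^ 2 + 2 * (1 - x) * (1 - c) := by ring
    rw [this]
    have h1 : 2 * (1 - x) * (1 - c) ≤ 2 * 1 * (20 * t ^ 2) := by
      apply mul_le_mul
      · linarith
      · linarith
      · linarith
      · norm_num
    linarith
  rw [div_le_div_iff₀ (by positivity) hD0]
  have h8 : (3 / 2) * x ≤ 1 - (1 - x) ^ 2 := by nlinarith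
  calc (3 / 2) * K' * (1 - 2 * (1 - x) * c + (1 - x) ^ 2)
      ≤ (3 / 2) * K' * (x ^ 2 * (1 + 40 * (K' * t) ^ 2)) :=
        mul_le_mul_of_nonneg_left hD1 (by positivity)
    _ = (3 / 2) * x * (1 + 40 * (K' * t) ^ 2) * (K' * x) := by ring
    _ = (3 / 2) * x * (1 + 40 * (K' * t) ^ 2) := by rw [hKx, mul_one]
    _ ≤ (1 - (1 - x) ^ 2) * (1 + 40 * (K' * t) ^ 2) :=
        mul_le_mul_of_nonneg_right h8 (by positivity)

private theorem doma_round_mono {x y : ℝ} (h : x ≤ y) : round x ≤ round y := by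
  rw [round_eq, round_eq]
  exact Int.floor_le_floor (by linarith)

/-- `∑ min(1, a²/j²) ≤ 2a` -/
private theorem doma_sum (a : ℝ) (ha : 0 < a) (J : ℕ) :
    ∑ j ∈ range J, min 1 (a ^ 2 / ((j : ℝ) + 1) ^ 2) ≤ 2 * a := by
  have key : ∀ J : ℕ, ∑ j ∈ range J, min 1 (a ^ 2 / ((j : ℝ) + 1) ^ 2) ≤
      if (J : ℝ) ≤ a then (J : ℝ) else 2 * a - a ^ 2 / J := by
    intro J
    induction J with
    | zero => simp [ha.le]
    | succ n ih =>
      rw [sum_range_succ]
      push_cast
      have hn : (0 : ℝ) ≤ n := Nat.cast_nonneg n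
      by_cases h1 : (n : ℝ) + 1 ≤ a
      · rw [if_pos (by linarith)] at ih
        rw [if_pos h1]
        have := min_le_left 1 (a ^ 2 / ((n : ℝ) + 1) ^ 2)
        linarith
      · rw [if_neg h1]
        rw [not_le] at h1
        have hmin := min_le_right 1 (a ^ 2 / ((n : ℝ) + 1) ^ 2)
        by_cases h2 : (n : ℝ) ≤ a
        · rw [if_pos h2] at ih
          have h3 : a ^ 2 / ((n : ℝ) + 1) ^ 2 ≤ 2 * a - a ^ 2 / ((n : ℝ) + 1) - n := by
            have hj : (0 : ℝ) < (n : ℝ) + 1 := by linarith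
            rw [div_le_iff₀ (by positivity)]
            have e : (2 * a - a ^ 2 / ((n : ℝ) + 1) - n) * ((n : ℝ) + 1) ^ 2 =
                (2 * a - n) * ((n : ℝ) + 1) ^ 2 - a ^ 2 * ((n : ℝ) + 1) := by
              field_simp
              ring
            rw [e]
            -- with j = n+1, s = j - a in [0,1]
            have hs0 : 0 ≤ (n : ℝ) + 1 - a := by linarith
            have hs1 : (n : ℝ) + 1 - a ≤ 1 := by linarith
            have e2 : (2 * a - n) * ((n : ℝ) + 1) ^ 2 - a ^ 2 * ((n : ℝ) + 1) - a ^ 2 =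
                ((n : ℝ) + 1 - a) * (((n : ℝ) + 1) * (1 - ((n : ℝ) + 1 - a)) +
                  (((n : ℝ) + 1) - ((n : ℝ) + 1 - a))) := by ring
            have h5 : 0 ≤ ((n : ℝ) + 1 - a) * (((n : ℝ) + 1) * (1 - ((n : ℝ) + 1 - a)) +
                  (((n : ℝ) + 1) - ((n : ℝ) + 1 - a))) := by
              apply mul_nonneg hs0
              apply add_nonneg
              · apply mul_nonneg hj.le; linarith
              · linarith
            linarith
          linarith
        · rw [if_neg h2] at ih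
          rw [not_le] at h2
          have hn0 : (0 : ℝ) < n := lt_trans ha h2
          have h3 : a ^ 2 / ((n : ℝ) + 1) ^ 2 ≤ a ^ 2 / n - a ^ 2 / ((n : ℝ) + 1) := by
            have e : a ^ 2 / n - a ^ 2 / ((n : ℝ) + 1) = a ^ 2 / (n * ((n : ℝ) + 1)) := by
              field_simp
              ring
            rw [e]
            apply div_le_div_of_nonneg_left (by positivity) (by positivity)
            nlinarith
          linarith
  refine (key J).trans ?_
  split_ifs with h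
  · linarith
  · have : 0 ≤ a ^ 2 / (J : ℝ) := by positivity
    linarith

/-- the case `0 < σ ≤ 1/2` -/
private theorem doma_pos (N K : ℕ) (hN : 0 < N) (hK : 0 < K) (θ σ : ℝ) (hσ : 0 < σ) :
    ∑ B ∈ range N, fej K (θ + B * σ) ≤ (N * σ + 2) * 2 * (K + (3 / 2) / σ) := by
  have hK0 : (0 : ℝ) < K := by exact_mod_cast hK
  set a : ℝ := 1 / (2 * K * σ) with ha
  have ha0 : 0 < a := by positivity
  let g : ℕ → ℝ := fun j => if j = 0 then K else K * min 1 (a ^ 2 / (j : ℝ) ^ 2)
  have hg0 : ∀ j, 0 ≤ g j := by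
    intro j
    simp only [g]
    split_ifs
    · exact hK0.le
    · positivity
  let x : ℕ → ℝ := fun B => θ + B * σ - round (θ + B * σ)
  have hx : ∀ B, |x B| = nd (θ + B * σ) := fun B => rfl
  let J : ℕ := ⌊(1 / 2) / σ⌋₊ + 1
  let f : ℕ → ℤ × Bool × ℕ := fun B =>
    (round (θ + B * σ), decide (0 ≤ x B), ⌊|x B| / σ⌋₊)
  let T : Finset (ℤ × Bool × ℕ) :=
    Icc (round θ) (round (θ + ((N : ℝ) - 1) * σ)) ×ˢ ((univ : Finset Bool) ×ˢ range J)
  have hfT : ∀ B ∈ range N, f B ∈ T := by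
    intro B hB
    rw [mem_range] at hB
    have hB1 : (B : ℝ) ≤ (N : ℝ) - 1 := by
      have : (B : ℝ) + 1 ≤ N := by exact_mod_cast hB
      linarith
    have hB0 : (0 : ℝ) ≤ B := Nat.cast_nonneg B
    simp only [f, T, mem_product, mem_Icc, mem_univ, true_and, mem_range]
    refine ⟨⟨doma_round_mono ?_, doma_round_mono ?_⟩, ?_⟩
    · nlinarith
    · nlinarith
    · simp only [J]
      rw [Nat.lt_succ_iff]
      apply Nat.floor_le_floor
      rw [hx]
      exact div_le_div_of_nonneg_right (nd_le_half _) hσ.le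
  have hinj : Set.InjOn f (range N : Set ℕ) := by
    intro B _ B' _ hBB
    simp only [f, Prod.mk.injEq] at hBB
    obtain ⟨h1, h2, h3⟩ := hBB
    have h2' : (0 ≤ x B) ↔ (0 ≤ x B') := by
      simpa using h2
    have hd : x B' - x B = ((B' : ℝ) - B) * σ := by
      simp only [x]; rw [h1]; ring
    have hfl : ∀ {p q : ℝ}, 0 ≤ p → 0 ≤ q → ⌊p / σ⌋₊ = ⌊q / σ⌋₊ → |p - q| < σ := by
      intro p q hp hq he
      have p1 := Nat.floor_le (div_nonneg hp hσ.le)
      have p2 := Nat.lt_floor_add_one (p / σ)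
      have q1 := Nat.floor_le (div_nonneg hq hσ.le)
      have q2 := Nat.lt_floor_add_one (q / σ)
      rw [he] at p1 p2
      have h5 : p / σ - q / σ < 1 := by linarith
      have h6 : q / σ - p / σ < 1 := by linarith
      rw [← sub_div, div_lt_one hσ] at h5 h6
      rw [abs_lt]
      constructor <;> linarith
    have h4 : |x B' - x B| < σ := by
      have h5 := hfl (abs_nonneg (x B)) (abs_nonneg (x B')) h3
      by_cases h6 : 0 ≤ x B
      · have h7 := h2'.1 h6
        rw [abs_of_nonneg h6, abs_of_nonneg h7] at h5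
        rw [abs_sub_comm]; exact h5
      · have h7 : ¬ 0 ≤ x B' := fun h => h6 (h2'.2 h)
        rw [not_le] at h6 h7
        rw [abs_of_neg h6, abs_of_neg h7] at h5
        have e : -x B - -x B' = x B' - x B := by ring
        rwa [e] at h5
    rw [hd, abs_mul, abs_of_pos hσ] at h4
    have h5 : |(B' : ℝ) - B| < 1 := by
      by_contra hc
      rw [not_lt] at hc
      nlinarith
    have h6 : |((B' : ℤ) - B : ℤ)| < 1 := by
      have : (|((B' : ℤ) - B : ℤ)| : ℝ) < 1 := by push_cast; exact h5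
      exact_mod_cast this
    rw [Int.abs_lt_one_iff] at h6
    omega
  have hterm : ∀ B ∈ range N, fej K (θ + B * σ) ≤ g (f B).2.2 := by
    intro B _
    simp only [f, g]
    set j : ℕ := ⌊|x B| / σ⌋₊ with hj
    split_ifs with h0
    · exact fej_le K _
    · have hj1 : (1 : ℝ) ≤ j := by
        exact_mod_cast Nat.one_le_iff_ne_zero.2 h0
      have hjx : (j : ℝ) * σ ≤ |x B| := by
        have := Nat.floor_le (div_nonneg (abs_nonneg (x B)) hσ.le)
        rw [← hj, le_div_iff₀ hσ] at this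
        exact this
      have hjσ : 0 < (j : ℝ) * σ := by positivity
      have hnd : 0 < nd (θ + B * σ) := by rw [← hx]; linarith
      have hn2 : ((j : ℝ) * σ) ^ 2 ≤ nd (θ + B * σ) ^ 2 := by
        rw [← hx]; exact pow_le_pow_left₀ hjσ.le hjx 2
      have e1 : K * (a ^ 2 / (j : ℝ) ^ 2) = 1 / (4 * K * ((j : ℝ) * σ) ^ 2) := by
        rw [ha]
        field_simp
        ring
      rw [mul_min_of_nonneg _ _ hK0.le, mul_one, e1]
      refine le_min (fej_le K _) ?_
      refine (fej_le_inv K _ hnd).trans ?_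
      apply one_div_le_one_div_of_le (by positivity)
      exact mul_le_mul_of_nonneg_left hn2 (by positivity)
  have hsumg : ∑ j ∈ range J, g j ≤ K + (3 / 2) / σ := by
    have h1 : ∑ j ∈ range J, g j = g 0 + ∑ j ∈ range ⌊(1 / 2) / σ⌋₊, g (j + 1) := by
      simp only [J]
      rw [sum_range_succ', add_comm]
    have h2 : g 0 = K := by simp [g]
    have h3 : ∀ j : ℕ, g (j + 1) = K * min 1 (a ^ 2 / ((j : ℝ) + 1) ^ 2) := by
      intro j
      simp only [g, Nat.succ_ne_zero, if_false]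
      push_cast
      rfl
    rw [h1, h2]
    simp only [h3]
    rw [← mul_sum]
    have h4 := mul_le_mul_of_nonneg_left (doma_sum a ha0 ⌊(1 / 2) / σ⌋₊) hK0.le
    have h5 : (K : ℝ) * (2 * a) = 1 / σ := by
      rw [ha]; field_simp
    have h6 : 1 / σ ≤ (3 / 2) / σ := by
      apply div_le_div_of_nonneg_right _ hσ.le
      norm_num
    linarith
  have hcard : (((Icc (round θ) (round (θ + ((N : ℝ) - 1) * σ))).card : ℕ) : ℝ) ≤ N * σ + 2 := by
    rw [Int.card_Icc]
    have hN1 : (0 : ℝ) ≤ (N : ℝ) - 1 := by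
      have : (1 : ℝ) ≤ N := by exact_mod_cast hN
      linarith
    have hmono : round θ ≤ round (θ + ((N : ℝ) - 1) * σ) := by
      apply doma_round_mono
      nlinarith
    have h1 : (((round (θ + ((N : ℝ) - 1) * σ) + 1 - round θ).toNat : ℕ) : ℝ) =
        (round (θ + ((N : ℝ) - 1) * σ) : ℝ) + 1 - round θ := by
      have h2 : (((round (θ + ((N : ℝ) - 1) * σ) + 1 - round θ).toNat : ℕ) : ℤ) =
          round (θ + ((N : ℝ) - 1) * σ) + 1 - round θ := Int.toNat_of_nonneg (by omega)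
      exact_mod_cast h2
    rw [h1]
    have h3 := abs_le.1 (abs_sub_round (θ + ((N : ℝ) - 1) * σ))
    have h4 := abs_le.1 (abs_sub_round θ)
    nlinarith
  calc ∑ B ∈ range N, fej K (θ + B * σ) ≤ ∑ B ∈ range N, g (f B).2.2 := sum_le_sum hterm
    _ = ∑ t ∈ (range N).image f, g t.2.2 := by
        rw [sum_image hinj]
    _ ≤ ∑ t ∈ T, g t.2.2 := by
        apply sum_le_sum_of_subset_of_nonneg
        · intro t ht
          obtain ⟨B, hB, rfl⟩ := mem_image.1 ht
          exact hfT B hB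
        · intro t _ _
          exact hg0 _
    _ = ((Icc (round θ) (round (θ + ((N : ℝ) - 1) * σ))).card : ℝ) * (2 * ∑ j ∈ range J, g j) := by
        simp only [T]
        rw [sum_product]
        simp only [sum_product, sum_const, nsmul_eq_mul, card_univ, Fintype.card_bool]
        push_cast
        rfl
    _ ≤ (N * σ + 2) * (2 * (K + (3 / 2) / σ)) := by
        apply mul_le_mul hcard _ _ _
        · linarith
        · apply mul_nonneg (by norm_num)
          exact sum_nonneg fun j _ => hg0 j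
        · positivity
    _ = (N * σ + 2) * 2 * (K + (3 / 2) / σ) := by ring

/-- Sum of the Fejér kernel over an arithmetic progression.  We may assume `0 < σ = nd σ ≤ 1/2`
(replace `(θ,σ)` by `(θ, σ - z)`, and by `(-θ, z - σ)` if negative: `fej_neg`, `fej_add_int`).
Map `B ↦ (k, sign, j)` with `k = round (θ + B σ)`, `j = ⌊|θ + Bσ - k|/σ⌋`: injective; `k` takes at most
`N σ + 2` values; the term is `≤ min (K) (1/(4K (jσ)²))` (`fej_le`, `fej_le_inv`), and
`∑_{j ≥ 0} min(K, 1/(4K(jσ)²)) ≤ K + (3/2)/σ`: with `J = ⌈1/(2Kσ)⌉ ≥ 1`, the terms `1 ≤ j < J` give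
`≤ 1/(2σ)`, and `∑_{j≥J} 1/j² ≤ 2/J` gives `≤ (1/(4Kσ²)) (2/J) ≤ 1/σ`. -/
theorem fej_prog (N K : ℕ) (hN : 0 < N) (hK : 0 < K) (θ σ : ℝ) (hσ : 0 < nd σ) :
    ∑ B ∈ range N, fej K (θ + B * σ) ≤ (N * nd σ + 2) * 2 * (K + (3 / 2) / nd σ) := by
  have h1 : ∀ B : ℕ, fej K (θ + B * σ) = fej K (θ + B * (σ - round σ)) := by
    intro B
    have e : θ + B * σ = θ + B * (σ - round σ) + ((B * round σ : ℤ) : ℝ) := by
      push_cast; ring
    rw [e, fej_add_int]
  simp only [h1]
  have h2 : nd σ = |σ - round σ| := rfl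
  rcases lt_trichotomy (σ - round σ) 0 with h | h | h
  · have h3 : nd σ = -(σ - round σ) := by rw [h2, abs_of_neg h]
    have h4 : ∀ B : ℕ, fej K (θ + B * (σ - round σ)) = fej K (-θ + B * nd σ) := by
      intro B
      rw [← fej_neg, h3]
      congr 1
      ring
    simp only [h4]
    exact doma_pos N K hN hK (-θ) (nd σ) hσ
  · rw [h2, h, abs_zero] at hσ
    exact absurd hσ (lt_irrefl _)
  · have h3 : nd σ = σ - round σ := by rw [h2, abs_of_pos h]
    rw [h3]
    exact doma_pos N K hN hK θ (σ - round σ) h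

end MP_5e4520_nt
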