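import Pool.Agent.Lib.MP_5e4520_nt.Bump

set_option autoImplicit false

namespace MP_5e4520_nt

open Finset

/-- Expansion of the Poisson kernel, `ϱ = 1 - 1/K'`: `1 + 2 ∑_{d≥1} ϱ^d cos(2πdθ)` -/
theorem pois_hasSum (K' : ℕ) (hK' : 2 ≤ K') (θ : ℝ) :
    HasSum (fun d : ℕ => (1 - 1 / (K' : ℝ)) ^ (d + 1) * (2 * Real.cos (2 * Real.pi * ((d + 1 : ℕ) * θ))))
      (pois K' θ - 1) := by
  have hK : (2 : ℝ) ≤ K' := by exact_mod_cast hK'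
  set ϱ : ℝ := 1 - 1 / (K' : ℝ) with hϱ
  have hx0 : 0 < 1 / (K' : ℝ) := by positivity
  have hx2 : 1 / (K' : ℝ) ≤ 1 / 2 := one_div_le_one_div_of_le (by norm_num) hK
  have hϱ0 : 0 < ϱ := by rw [hϱ]; linarith
  have hϱ1 : ϱ < 1 := by rw [hϱ]; linarith
  set φ : ℝ := 2 * Real.pi * θ with hφ
  set z : ℂ := (ϱ : ℂ) * Complex.exp (φ * Complex.I) with hz
  have hzn : ‖z‖ < 1 := by
    rw [hz, norm_mul, Complex.norm_exp_ofReal_mul_I, mul_one, Complex.norm_real,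
      Real.norm_of_nonneg hϱ0.le]
    exact hϱ1
  have hs : HasSum (fun d : ℕ => z ^ (d + 1)) (z * (1 - z)⁻¹) := by
    have h1 := (hasSum_geometric_of_norm_lt_one hzn).mul_left z
    simpa only [pow_succ'] using h1
  have hs2 := (Complex.hasSum_re hs).mul_left 2
  have hzre : z.re = ϱ * Real.cos φ := by
    rw [hz, Complex.re_ofReal_mul, Complex.exp_ofReal_mul_I_re]
  have hzim : z.im = ϱ * Real.sin φ := by
    rw [hz, Complex.im_ofReal_mul, Complex.exp_ofReal_mul_I_im]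
  have hterm : ∀ d : ℕ, (z ^ (d + 1)).re =
      ϱ ^ (d + 1) * Real.cos (2 * Real.pi * ((d + 1 : ℕ) * θ)) := by
    intro d
    have e : z ^ (d + 1) = ((ϱ ^ (d + 1) : ℝ) : ℂ) *
        Complex.exp ((2 * Real.pi * ((d + 1 : ℕ) * θ) : ℝ) * Complex.I) := by
      rw [hz, mul_pow, ← Complex.exp_nat_mul]
      push_cast
      congr 2
      rw [hφ]
      push_cast
      ring
    rw [e, Complex.re_ofReal_mul, Complex.exp_ofReal_mul_I_re]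
  have hval : 2 * (z * (1 - z)⁻¹).re = pois K' θ - 1 := by
    have hsc : Real.sin φ ^ 2 = 1 - Real.cos φ ^ 2 := by
      have := Real.sin_sq_add_cos_sq φ
      linarith
    have hnorm : Complex.normSq (1 - z) = 1 - 2 * ϱ * Real.cos φ + ϱ ^ 2 := by
      rw [Complex.normSq_apply, Complex.sub_re, Complex.sub_im, Complex.one_re, Complex.one_im,
        hzre, hzim]
      linear_combination ϱ ^ 2 * hsc
    have hD : 0 < 1 - 2 * ϱ * Real.cos φ + ϱ ^ 2 := by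
      rw [← hnorm, Complex.normSq_pos]
      intro h0
      have : z = 1 := by linear_combination -h0
      rw [this, norm_one] at hzn
      exact lt_irrefl _ hzn
    rw [Complex.mul_re, Complex.inv_re, Complex.inv_im, hnorm, Complex.sub_re, Complex.sub_im,
      Complex.one_re, Complex.one_im, hzre, hzim]
    unfold pois
    rw [← hϱ, ← hφ]
    have hD' := hD.ne'
    field_simp
    linear_combination (-2 * ϱ ^ 2) * hsc
  rw [hval] at hs2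
  have e : (fun d : ℕ => 2 * (z ^ (d + 1)).re) =
      fun d : ℕ => ϱ ^ (d + 1) * (2 * Real.cos (2 * Real.pi * ((d + 1 : ℕ) * θ))) := by
    funext d
    rw [hterm]
    ring
  rw [e] at hs2
  exact hs2

/-- the `d`-th physical energy: `∑_h c1 c2' e(dθ_h) |ρ̂(h)|²` -/
noncomputable def gen_en (l m u α β0 : ℕ) (ρ : ℕ → ℕ → ℝ) (d : ℤ) : ℂ :=
  ∑ h1 ∈ range (2 ^ (2 * l + m + 3 * u)), ∑ h2 ∈ range (2 ^ (l + 2 * m + 3 * u)),
    ((ctri (2 ^ (l + m + 2 * u)) (2 ^ (2 * l + m + 3 * u)) h1 *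
      ctri (2 ^ (l + m + 2 * u)) (2 ^ (l + 2 * m + 3 * u)) h2 * ‖rhat l m u ρ h1 h2‖ ^ 2 : ℝ) : ℂ) *
      ee (d * ((h1 : ℝ) * α / 2 ^ (2 * l + m + 3 * u) + (h2 : ℝ) * β0 / 2 ^ (l + 2 * m)))

private theorem ena_id (h1 h2 p1 p2 q1 q2 α β0 d A B Lr b t : ℝ) (hA : A ≠ 0) (hB : B ≠ 0)
    (hL : Lr ≠ 0) (hb : b ≠ 0) (ht : t ≠ 0) (e : Lr * B = b * t) :
    -(h1 * p1 / A + h2 * p2 / B) + (h1 * q1 / A + h2 * q2 / B) +
      d * (h1 * α / (Lr * A) + h2 * β0 / b) =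
    h1 * (d * α - (p1 - q1) * Lr) / (Lr * A) + h2 * (d * (β0 * t) - (p2 - q2) * Lr) / (Lr * B) := by
  have e1 : h2 * β0 / b = h2 * (β0 * t) / (Lr * B) := by
    rw [e]; field_simp
  rw [e1]
  field_simp
  ring

private theorem ena_swap {ι κ : Type*} (s s' : Finset ι) (t : Finset κ)
    (f : ι → ι → κ → κ → ℂ) :
    ∑ a ∈ s, ∑ b ∈ s', ∑ p ∈ t, ∑ q ∈ t, f a b p q =
      ∑ p ∈ t, ∑ q ∈ t, ∑ a ∈ s, ∑ b ∈ s', f a b p q := by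
  calc ∑ a ∈ s, ∑ b ∈ s', ∑ p ∈ t, ∑ q ∈ t, f a b p q
      = ∑ a ∈ s, ∑ p ∈ t, ∑ b ∈ s', ∑ q ∈ t, f a b p q :=
        sum_congr rfl fun _ _ => sum_comm
    _ = ∑ p ∈ t, ∑ a ∈ s, ∑ b ∈ s', ∑ q ∈ t, f a b p q := sum_comm
    _ = ∑ p ∈ t, ∑ a ∈ s, ∑ q ∈ t, ∑ b ∈ s', f a b p q :=
        sum_congr rfl fun _ _ => sum_congr rfl fun _ _ => sum_comm
    _ = ∑ p ∈ t, ∑ q ∈ t, ∑ a ∈ s, ∑ b ∈ s', f a b p q :=
        sum_congr rfl fun _ _ => sum_comm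

/-- the physical expression for the energies -/
private theorem ena_phys (l m u α β0 : ℕ) (ρ : ℕ → ℕ → ℝ) (d : ℤ) :
    gen_en l m u α β0 ρ d =
      ((∑ p ∈ range (2 ^ u) ×ˢ range (2 ^ u), ∑ q ∈ range (2 ^ u) ×ˢ range (2 ^ u),
        ρ p.1 p.2 * ρ q.1 q.2 *
          btri (2 ^ (l + m + 2 * u)) (2 ^ (2 * l + m + 3 * u))
            ((d * α - p.1 * (2 ^ (l + m + 2 * u) : ℕ)) + q.1 * (2 ^ (l + m + 2 * u) : ℕ)) *
          btri (2 ^ (l + m + 2 * u)) (2 ^ (l + 2 * m + 3 * u))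
            ((d * (β0 * (2 ^ (3 * u) : ℕ)) - p.2 * (2 ^ (l + m + 2 * u) : ℕ)) +
              q.2 * (2 ^ (l + m + 2 * u) : ℕ)) : ℝ) : ℂ) := by
  set P := range (2 ^ u) ×ˢ range (2 ^ u) with hP
  set Lf : ℕ := 2 ^ (l + m + 2 * u) with hLf
  set Q1 : ℕ := 2 ^ (2 * l + m + 3 * u) with hQ1
  set Q2 : ℕ := 2 ^ (l + 2 * m + 3 * u) with hQ2
  have hQ1p : 0 < Q1 := by rw [hQ1]; positivity
  have hQ2p : 0 < Q2 := by rw [hQ2]; positivity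
  have eQ1 : (Q1 : ℝ) = Lf * 2 ^ (l + u) := by
    rw [hQ1, hLf]; push_cast; rw [← pow_add]; congr 1; omega
  have eQ2 : (Q2 : ℝ) = Lf * 2 ^ (m + u) := by
    rw [hQ2, hLf]; push_cast; rw [← pow_add]; congr 1; omega
  have eL : (Lf : ℝ) * 2 ^ (m + u) = 2 ^ (l + 2 * m) * 2 ^ (3 * u) := by
    rw [hLf]; push_cast; rw [← pow_add, ← pow_add]; congr 1; omega
  have hL0 : (Lf : ℝ) ≠ 0 := by rw [hLf]; positivity
  have hrhat : ∀ h1 h2 : ℕ, ((‖rhat l m u ρ h1 h2‖ ^ 2 : ℝ) : ℂ) =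
      ∑ p ∈ P, ∑ q ∈ P, ((ρ p.1 p.2 * ρ q.1 q.2 : ℝ) : ℂ) *
        (ee (-((h1 : ℝ) * p.1 / 2 ^ (l + u) + (h2 : ℝ) * p.2 / 2 ^ (m + u))) *
         ee ((h1 : ℝ) * q.1 / 2 ^ (l + u) + (h2 : ℝ) * q.2 / 2 ^ (m + u))) := by
    intro h1 h2
    have e1 : rhat l m u ρ h1 h2 = ∑ p ∈ P, (ρ p.1 p.2 : ℂ) *
        ee (-((h1 : ℝ) * p.1 / 2 ^ (l + u) + (h2 : ℝ) * p.2 / 2 ^ (m + u))) := by
      rw [hP, sum_product]; rfl
    have e2 : ((‖rhat l m u ρ h1 h2‖ ^ 2 : ℝ) : ℂ) =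
        rhat l m u ρ h1 h2 * (starRingEnd ℂ) (rhat l m u ρ h1 h2) := by
      rw [Complex.mul_conj']; push_cast; rfl
    rw [e2, e1, map_sum, sum_mul_sum]
    refine sum_congr rfl fun p _ => sum_congr rfl fun q _ => ?_
    rw [map_mul, Complex.conj_ofReal, ← ee_neg, neg_neg]
    push_cast
    ring
  have hterm : ∀ h1 h2 : ℕ,
      ((ctri Lf Q1 h1 * ctri Lf Q2 h2 * ‖rhat l m u ρ h1 h2‖ ^ 2 : ℝ) : ℂ) *
      ee (d * ((h1 : ℝ) * α / 2 ^ (2 * l + m + 3 * u) + (h2 : ℝ) * β0 / 2 ^ (l + 2 * m))) =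
      ∑ p ∈ P, ∑ q ∈ P, ((ρ p.1 p.2 * ρ q.1 q.2 : ℝ) : ℂ) *
        ((((ctri Lf Q1 h1 : ℝ) : ℂ) * ee ((h1 : ℝ) *
          ((d * α - p.1 * (Lf : ℤ) + q.1 * (Lf : ℤ) : ℤ) : ℝ) / Q1)) *
        (((ctri Lf Q2 h2 : ℝ) : ℂ) * ee ((h2 : ℝ) *
          ((d * (β0 * (2 ^ (3 * u) : ℕ)) - p.2 * (Lf : ℤ) + q.2 * (Lf : ℤ) : ℤ) : ℝ) / Q2))) := by
    intro h1 h2
    rw [Complex.ofReal_mul, hrhat, Complex.ofReal_mul, mul_sum, sum_mul]
    refine sum_congr rfl fun p _ => ?_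
    rw [mul_sum, sum_mul]
    refine sum_congr rfl fun q _ => ?_
    have eQ1' : (2 : ℝ) ^ (2 * l + m + 3 * u) = Q1 := by rw [hQ1]; push_cast; rfl
    have key : ee (-((h1 : ℝ) * p.1 / 2 ^ (l + u) + (h2 : ℝ) * p.2 / 2 ^ (m + u))) *
        ee ((h1 : ℝ) * q.1 / 2 ^ (l + u) + (h2 : ℝ) * q.2 / 2 ^ (m + u)) *
        ee (d * ((h1 : ℝ) * α / 2 ^ (2 * l + m + 3 * u) + (h2 : ℝ) * β0 / 2 ^ (l + 2 * m))) =
        ee ((h1 : ℝ) * ((d * α - p.1 * (Lf : ℤ) + q.1 * (Lf : ℤ) : ℤ) : ℝ) / Q1) *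
        ee ((h2 : ℝ) * ((d * (β0 * (2 ^ (3 * u) : ℕ)) - p.2 * (Lf : ℤ) + q.2 * (Lf : ℤ) : ℤ) : ℝ)
          / Q2) := by
      rw [← ee_add, ← ee_add, ← ee_add]
      congr 1
      rw [eQ1', eQ1, eQ2, ena_id (h1 : ℝ) h2 p.1 p.2 q.1 q.2 α β0 d (2 ^ (l + u)) (2 ^ (m + u)) Lf
        (2 ^ (l + 2 * m)) (2 ^ (3 * u)) (by positivity) (by positivity) hL0 (by positivity)
        (by positivity) eL]
      push_cast
      ring
    linear_combination ((ρ p.1 p.2 * ρ q.1 q.2 : ℝ) : ℂ) * ((ctri Lf Q1 h1 : ℝ) : ℂ) *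
      ((ctri Lf Q2 h2 : ℝ) : ℂ) * key
  unfold gen_en
  rw [← hLf, ← hQ1, ← hQ2]
  simp only [hterm]
  rw [ena_swap]
  push_cast
  refine sum_congr rfl fun p _ => sum_congr rfl fun q _ => ?_
  have b1 := btri_fourier Lf Q1 hQ1p (d * α - p.1 * (Lf : ℤ) + q.1 * (Lf : ℤ))
  have b2 := btri_fourier Lf Q2 hQ2p
    (d * (β0 * (2 ^ (3 * u) : ℕ)) - p.2 * (Lf : ℤ) + q.2 * (Lf : ℤ))
  push_cast at b1 b2
  rw [b1, b2, mul_assoc, sum_mul_sum, mul_sum]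
  refine sum_congr rfl fun h1 _ => ?_
  rw [mul_sum]

/-- Physical side.  With `L = 2^(l+m+2u)`, `Q1`, `Q2` as usual (`L/Q1 = 1/2^(l+u)`, `L/Q2 = 1/2^(m+u)`,
`β0/2^b = β0 2^(3u)/Q2`), expanding `|ρ̂|²` and using `btri_fourier`:
`gen_en = ∑_{c,d,c',d' < 2^u} ρ(c,d) ρ(c',d') btri L Q1 (dα - (c-c')L) btri L Q2 (dβ02^(3u) - (d-d')L)`.
So it is a nonnegative real number.  For fixed `(c,d)`: `ρ(c',d') ≤ 2^{-c1}` and
`∑_{c'<2^u} btri L Q1 (x + c'L) ≤ ∑_{c' < 2^(l+u)} = 1` (`btri_part`, `Q1 = L * 2^(l+u)`), same for `Q2`;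
hence `≤ 2^{-c1} R` with `R = ∑ρ`.  -/
theorem gen_en_le (l m u α β0 : ℕ) (ρ : ℕ → ℕ → ℝ) (hρ0 : ∀ c d, 0 ≤ ρ c d) (c1 : ℕ)
    (hρ : ∀ c d, ρ c d ≤ 1 / 2 ^ c1) (d : ℤ) :
    (gen_en l m u α β0 ρ d).im = 0 ∧ 0 ≤ (gen_en l m u α β0 ρ d).re ∧
    (gen_en l m u α β0 ρ d).re ≤
      1 / 2 ^ c1 * ∑ c ∈ range (2 ^ u), ∑ d ∈ range (2 ^ u), ρ c d := by
  rw [ena_phys, Complex.ofReal_im, Complex.ofReal_re]
  refine ⟨rfl, ?_, ?_⟩
  · refine sum_nonneg fun p _ => sum_nonneg fun q _ => ?_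
    exact mul_nonneg (mul_nonneg (mul_nonneg (hρ0 _ _) (hρ0 _ _)) (btri_nonneg _ _ _))
      (btri_nonneg _ _ _)
  · set Lf : ℕ := 2 ^ (l + m + 2 * u) with hLf
    have hLp : 0 < Lf := by rw [hLf]; positivity
    have eQ1 : 2 ^ (2 * l + m + 3 * u) = Lf * 2 ^ (l + u) := by
      rw [hLf, ← pow_add]; congr 1; omega
    have eQ2 : 2 ^ (l + 2 * m + 3 * u) = Lf * 2 ^ (m + u) := by
      rw [hLf, ← pow_add]; congr 1; omega
    have hpart : ∀ (W : ℕ) (x : ℤ), 2 ^ u ≤ W →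
        ∑ c ∈ range (2 ^ u), btri Lf (Lf * W) (x + c * Lf) ≤ 1 := by
      intro W x hW
      have hWp : 0 < W := lt_of_lt_of_le (by positivity) hW
      rw [← btri_part Lf W hLp hWp x]
      refine sum_le_sum_of_subset_of_nonneg ?_ fun _ _ _ => btri_nonneg _ _ _
      intro a ha
      rw [mem_range] at ha ⊢
      omega
    have hsum : ∀ x y : ℤ, ∑ q ∈ range (2 ^ u) ×ˢ range (2 ^ u),
        btri Lf (2 ^ (2 * l + m + 3 * u)) (x + q.1 * Lf) *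
        btri Lf (2 ^ (l + 2 * m + 3 * u)) (y + q.2 * Lf) ≤ 1 := by
      intro x y
      rw [sum_product, eQ1, eQ2]
      simp only
      rw [← sum_mul_sum]
      have h1 := hpart (2 ^ (l + u)) x (Nat.pow_le_pow_right (by norm_num) (by omega))
      have h2 := hpart (2 ^ (m + u)) y (Nat.pow_le_pow_right (by norm_num) (by omega))
      have h3 : 0 ≤ ∑ c ∈ range (2 ^ u), btri Lf (Lf * 2 ^ (m + u)) (y + c * Lf) :=
        sum_nonneg fun _ _ => btri_nonneg _ _ _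
      exact mul_le_one₀ h1 h3 h2
    have eR : ∑ c ∈ range (2 ^ u), ∑ d ∈ range (2 ^ u), ρ c d =
        ∑ p ∈ range (2 ^ u) ×ˢ range (2 ^ u), ρ p.1 p.2 := by rw [sum_product]
    rw [eR, mul_sum]
    refine sum_le_sum fun p _ => ?_
    calc ∑ q ∈ range (2 ^ u) ×ˢ range (2 ^ u), ρ p.1 p.2 * ρ q.1 q.2 *
          btri Lf (2 ^ (2 * l + m + 3 * u)) ((d * α - p.1 * (Lf : ℤ)) + q.1 * (Lf : ℤ)) *
          btri Lf (2 ^ (l + 2 * m + 3 * u))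
            ((d * (β0 * (2 ^ (3 * u) : ℕ)) - p.2 * (Lf : ℤ)) + q.2 * (Lf : ℤ))
        ≤ ∑ q ∈ range (2 ^ u) ×ˢ range (2 ^ u), ρ p.1 p.2 * (1 / 2 ^ c1) *
          (btri Lf (2 ^ (2 * l + m + 3 * u)) ((d * α - p.1 * (Lf : ℤ)) + q.1 * (Lf : ℤ)) *
          btri Lf (2 ^ (l + 2 * m + 3 * u))
            ((d * (β0 * (2 ^ (3 * u) : ℕ)) - p.2 * (Lf : ℤ)) + q.2 * (Lf : ℤ))) := by
          refine sum_le_sum fun q _ => ?_
          rw [mul_assoc (ρ p.1 p.2 * ρ q.1 q.2)]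
          refine mul_le_mul_of_nonneg_right ?_
            (mul_nonneg (btri_nonneg _ _ _) (btri_nonneg _ _ _))
          exact mul_le_mul_of_nonneg_left (hρ _ _) (hρ0 _ _)
      _ = ρ p.1 p.2 * (1 / 2 ^ c1) * ∑ q ∈ range (2 ^ u) ×ˢ range (2 ^ u),
          (btri Lf (2 ^ (2 * l + m + 3 * u)) ((d * α - p.1 * (Lf : ℤ)) + q.1 * (Lf : ℤ)) *
          btri Lf (2 ^ (l + 2 * m + 3 * u))
            ((d * (β0 * (2 ^ (3 * u) : ℕ)) - p.2 * (Lf : ℤ)) + q.2 * (Lf : ℤ))) := by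
          rw [mul_sum]
      _ ≤ ρ p.1 p.2 * (1 / 2 ^ c1) * 1 :=
          mul_le_mul_of_nonneg_left (hsum _ _) (mul_nonneg (hρ0 _ _) (by positivity))
      _ = 1 / 2 ^ c1 * ρ p.1 p.2 := by ring

private theorem ena_supp1 {x : ℤ} {Lf Q : ℕ} {p q u l : ℕ} (hL : 0 < Lf)
    (hQ : Q = Lf * 2 ^ (l + u)) (hp : p < 2 ^ u) (hq : q < 2 ^ u)
    (h : btri Lf Q (x - p * (Lf : ℤ) + q * (Lf : ℤ)) ≠ 0) : nd ((x : ℝ) / Q) < 1 / 2 ^ l := by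
  have hQp : 0 < Q := by rw [hQ]; positivity
  have h1 := btri_supp Lf Q hQp _ h
  have hLr : (0 : ℝ) < Lf := by exact_mod_cast hL
  have hQr : (Q : ℝ) = Lf * 2 ^ (l + u) := by rw [hQ]; push_cast; rfl
  have hLQ : (Lf : ℝ) / Q = 1 / 2 ^ (l + u) := by rw [hQr]; field_simp
  rw [hLQ] at h1
  have e : (x : ℝ) / Q = ((x - p * (Lf : ℤ) + q * (Lf : ℤ) : ℤ) : ℝ) / Q +
      ((p : ℝ) - q) / 2 ^ (l + u) := by
    rw [hQr]; push_cast; field_simp; ring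
  rw [e]
  have h2 := nd_add_le (((x - p * (Lf : ℤ) + q * (Lf : ℤ) : ℤ) : ℝ) / Q)
    (((p : ℝ) - q) / 2 ^ (l + u))
  have h3 : nd (((p : ℝ) - q) / 2 ^ (l + u)) ≤ (2 ^ u - 1) / 2 ^ (l + u) := by
    have h4 := nd_le (((p : ℝ) - q) / 2 ^ (l + u)) 0
    rw [Int.cast_zero, sub_zero, abs_div, abs_of_pos (by positivity : (0 : ℝ) < 2 ^ (l + u))] at h4
    refine h4.trans (div_le_div_of_nonneg_right ?_ (by positivity))
    have hp' : (p : ℝ) + 1 ≤ 2 ^ u := by exact_mod_cast hp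
    have hq' : (q : ℝ) + 1 ≤ 2 ^ u := by exact_mod_cast hq
    have hp0 : (0 : ℝ) ≤ p := Nat.cast_nonneg p
    have hq0 : (0 : ℝ) ≤ q := Nat.cast_nonneg q
    rw [abs_le]
    constructor <;> linarith
  have h5 : 1 / (2 : ℝ) ^ (l + u) + (2 ^ u - 1) / 2 ^ (l + u) = 1 / 2 ^ l := by
    rw [← add_div, add_sub_cancel, pow_add]
    field_simp
  linarith

/-- If `gen_en d ≠ 0` then some `btri L Q1 (dα - (c-c')L) ≠ 0`, so by `btri_supp`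
`nd (dα/Q1 - (c-c')/2^(l+u)) < 1/2^(l+u)` with `|c-c'| ≤ 2^u - 1`, hence `nd (dα/Q1) < 2^u/2^(l+u) = 1/2^l`;
same for `β0`. -/
theorem gen_en_supp (l m u α β0 : ℕ) (ρ : ℕ → ℕ → ℝ) (d : ℤ)
    (h : gen_en l m u α β0 ρ d ≠ 0) :
    nd ((d : ℝ) * α / 2 ^ (2 * l + m + 3 * u)) < 1 / 2 ^ l ∧
    nd ((d : ℝ) * β0 / 2 ^ (l + 2 * m)) < 1 / 2 ^ m := by
  rw [ena_phys, Ne, Complex.ofReal_eq_zero] at h
  obtain ⟨p, hp, hp2⟩ := exists_ne_zero_of_sum_ne_zero h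
  obtain ⟨q, hq, hq2⟩ := exists_ne_zero_of_sum_ne_zero hp2
  rw [mem_product, mem_range, mem_range] at hp hq
  have h2 := right_ne_zero_of_mul hq2
  have h1 := right_ne_zero_of_mul (left_ne_zero_of_mul hq2)
  have hLp : 0 < 2 ^ (l + m + 2 * u) := by positivity
  have g1 := ena_supp1 hLp (Q := 2 ^ (2 * l + m + 3 * u)) (l := l) (u := u)
    (by rw [← pow_add]; congr 1; omega) hp.1 hq.1 h1
  have g2 := ena_supp1 hLp (Q := 2 ^ (l + 2 * m + 3 * u)) (l := m) (u := u)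
    (by rw [← pow_add]; congr 1; omega) hp.2 hq.2 h2
  constructor
  · convert g1 using 2
    push_cast
    rfl
  · convert g2 using 2
    push_cast
    have e : (2 : ℝ) ^ (l + 2 * m + 3 * u) = 2 ^ (l + 2 * m) * 2 ^ (3 * u) := by
      rw [← pow_add]
    have h2m : (2 : ℝ) ^ (l + 2 * m) ≠ 0 := by positivity
    have h3u : (2 : ℝ) ^ (3 * u) ≠ 0 := by positivity
    rw [e, div_eq_div_iff h2m (mul_ne_zero h2m h3u)]
    ring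

end MP_5e4520_nt
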