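import Pool.Agent.Lib.MP_5e4520_nt.Defs

set_option autoImplicit false

namespace MP_5e4520_nt

open Finset

variable {ι κ κ' κ'' : Type*}

open Classical in
theorem entA_fib_pos {S : Finset ι} (f : ι → κ) {p : ι} (hp : p ∈ S) :
    0 < (S.filter (fun x => f x = f p)).card :=
  card_pos.2 ⟨p, mem_filter.2 ⟨hp, rfl⟩⟩

open Classical in
theorem entA_fib_le (S : Finset ι) (f : ι → κ) (p : ι) :
    (S.filter (fun x => f x = f p)).card ≤ S.card := card_le_card (filter_subset _ _)

/-- `log x ≤ x - 1`, summed up -/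
theorem entA_sum_log {S : Finset ι} (w : ι → ℝ) (h0 : ∀ p ∈ S, 0 < w p)
    (h1 : ∑ p ∈ S, w p ≤ S.card) : ∑ p ∈ S, Real.logb 2 (w p) ≤ 0 := by
  have h2 : ∑ p ∈ S, Real.log (w p) ≤ 0 := by
    calc ∑ p ∈ S, Real.log (w p) ≤ ∑ p ∈ S, (w p - 1) :=
          sum_le_sum fun p hp => Real.log_le_sub_one_of_pos (h0 p hp)
      _ = ∑ p ∈ S, w p - S.card := by simp
      _ ≤ 0 := by linarith
  have h3 : ∑ p ∈ S, Real.logb 2 (w p) = (∑ p ∈ S, Real.log (w p)) / Real.log 2 := by
    rw [sum_div]
    rfl
  rw [h3]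
  exact div_nonpos_of_nonpos_of_nonneg h2 (Real.log_nonneg (by norm_num))

open Classical in
/-- a sum over a fiber of the inverse of the cardinality of the fiber -/
theorem entA_sum_fib (S : Finset ι) (f : ι → κ) (v : κ) :
    ∑ p ∈ S.filter (fun x => f x = v), (1 : ℝ) / ((S.filter (fun x => f x = f p)).card : ℝ) =
      if (∃ p ∈ S, f p = v) then 1 else 0 := by
  split_ifs with h
  · obtain ⟨q, hq, rfl⟩ := h
    have h1 : ∀ p ∈ S.filter (fun x => f x = f q),
        (1 : ℝ) / ((S.filter (fun x => f x = f p)).card : ℝ) =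
          1 / ((S.filter (fun x => f x = f q)).card : ℝ) := by
      intro p hp
      rw [(mem_filter.1 hp).2]
    rw [sum_congr rfl h1, sum_const, nsmul_eq_mul]
    have h2 := entA_fib_pos f hq
    have h3 : ((S.filter (fun x => f x = f q)).card : ℝ) ≠ 0 := by
      exact_mod_cast h2.ne'
    field_simp
  · rw [filter_eq_empty_iff.2, sum_empty]
    intro x hx hxv
    exact h ⟨x, hx, hxv⟩

open Classical in
/-- the number of values -/
theorem entA_sum_inv (S : Finset ι) (f : ι → κ) :
    ∑ p ∈ S, (1 : ℝ) / ((S.filter (fun x => f x = f p)).card : ℝ) = ((S.image f).card : ℝ) := by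
  rw [← sum_fiberwise_of_maps_to (s := S) (t := S.image f) (g := f)
    (fun x hx => mem_image_of_mem f hx)]
  rw [sum_congr rfl (fun v _ => entA_sum_fib S f v)]
  rw [sum_ite_of_true]
  · simp
  · intro v hv
    obtain ⟨p, hp, hpv⟩ := mem_image.1 hv
    exact ⟨p, hp, hpv⟩

theorem ent_nonneg (S : Finset ι) (f : ι → κ) : 0 ≤ ent S f := by
  classical
  unfold ent
  apply div_nonneg _ (Nat.cast_nonneg _)
  apply sum_nonneg
  intro p hp
  apply Real.logb_nonneg (by norm_num)
  rw [one_le_div]
  · exact_mod_cast entA_fib_le S f p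
  · exact_mod_cast entA_fib_pos f hp

/-- `f` takes values in `T` on `S`: `ent S f ≤ log2 |T|` (concavity of log:
`(1/|S|) ∑_p log (|S|/n(p)) ≤ log ((1/|S|) ∑_p |S|/n(p)) = log #(f(S)) ≤ log |T|`). -/
theorem ent_le_of_card {S : Finset ι} (hS : S.Nonempty) (f : ι → κ) (T : Finset κ)
    (h : ∀ p ∈ S, f p ∈ T) : ent S f ≤ Real.logb 2 T.card := by
  classical
  have hS0 : (0 : ℝ) < S.card := by exact_mod_cast hS.card_pos
  have hT0 : (0 : ℝ) < T.card := by
    obtain ⟨p, hp⟩ := hS
    exact_mod_cast card_pos.2 ⟨_, h p hp⟩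
  have hn : ∀ p ∈ S, (0 : ℝ) < ((S.filter (fun x => f x = f p)).card : ℝ) := fun p hp => by
    exact_mod_cast entA_fib_pos f hp
  unfold ent
  rw [div_le_iff₀ hS0]
  have h1 := entA_sum_log (S := S)
    (fun p => (S.card : ℝ) / ((S.filter (fun x => f x = f p)).card : ℝ) / T.card)
    (fun p hp => div_pos (div_pos hS0 (hn p hp)) hT0) (by
      have h2 : ∀ p ∈ S, (S.card : ℝ) / ((S.filter (fun x => f x = f p)).card : ℝ) / T.card =
          (S.card / T.card : ℝ) * (1 / ((S.filter (fun x => f x = f p)).card : ℝ)) := by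
        intro p hp
        ring
      rw [sum_congr rfl h2, ← mul_sum, entA_sum_inv]
      have h3 : ((S.image f).card : ℝ) ≤ T.card := by
        exact_mod_cast card_le_card (image_subset_iff.2 h)
      rw [div_mul_eq_mul_div, div_le_iff₀ hT0]
      exact mul_le_mul_of_nonneg_left h3 hS0.le)
  have h4 : ∀ p ∈ S, Real.logb 2 ((S.card : ℝ) / ((S.filter (fun x => f x = f p)).card : ℝ) /
      T.card) = Real.logb 2 ((S.card : ℝ) / ((S.filter (fun x => f x = f p)).card : ℝ)) -
      Real.logb 2 T.card := fun p hp =>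
    Real.logb_div (div_pos hS0 (hn p hp)).ne' hT0.ne'
  rw [sum_congr rfl h4, sum_sub_distrib, sum_const, nsmul_eq_mul] at h1
  linarith

/-- if `g` is a function of `f` on `S` then `ent S g ≤ ent S f` (fibers of `f` are contained in
fibers of `g`) -/
theorem ent_le_of_det (S : Finset ι) (f : ι → κ) (g : ι → κ')
    (h : ∀ x ∈ S, ∀ y ∈ S, f x = f y → g x = g y) : ent S g ≤ ent S f := by
  classical
  unfold ent
  apply div_le_div_of_nonneg_right _ (Nat.cast_nonneg _)
  apply sum_le_sum
  intro p hp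
  have hS0 : (0 : ℝ) < S.card := by exact_mod_cast card_pos.2 ⟨p, hp⟩
  have h1 : (0 : ℝ) < ((S.filter (fun x => f x = f p)).card : ℝ) := by
    exact_mod_cast entA_fib_pos f hp
  have h2 : (0 : ℝ) < ((S.filter (fun x => g x = g p)).card : ℝ) := by
    exact_mod_cast entA_fib_pos g hp
  have h3 : ((S.filter (fun x => f x = f p)).card : ℝ) ≤
      ((S.filter (fun x => g x = g p)).card : ℝ) := by
    have : (S.filter (fun x => f x = f p)) ⊆ (S.filter (fun x => g x = g p)) := by
      intro x hx
      rw [mem_filter] at hx ⊢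
      exact ⟨hx.1, h x hx.1 p hp hx.2⟩
    exact_mod_cast card_le_card this
  apply Real.logb_le_logb_of_le (by norm_num) (div_pos hS0 h2)
  exact div_le_div_of_nonneg_left hS0.le h1 h3

open Classical in
/-- if on every fiber of `f` the function `g` takes at most `k` values then
`H(f,g) ≤ H(f) + log2 k`. -/
theorem ent_lip {S : Finset ι} (hS : S.Nonempty) (f : ι → κ) (g : ι → κ') (k : ℕ)
    (hk : ∀ p ∈ S, ((S.filter (fun x => f x = f p)).image g).card ≤ k) :
    ent S (fun x => (f x, g x)) ≤ ent S f + Real.logb 2 k := by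
  have hS0 : (0 : ℝ) < S.card := by exact_mod_cast hS.card_pos
  have hk0 : (0 : ℝ) < k := by
    obtain ⟨p, hp⟩ := hS
    have h1 := hk p hp
    have h2 : 0 < ((S.filter (fun x => f x = f p)).image g).card := by
      have h3 : p ∈ S.filter (fun x => f x = f p) := mem_filter.2 ⟨hp, rfl⟩
      exact card_pos.2 ⟨g p, mem_image_of_mem g h3⟩
    exact_mod_cast lt_of_lt_of_le h2 h1
  have hn : ∀ p ∈ S, (0 : ℝ) < ((S.filter (fun x => f x = f p)).card : ℝ) := fun p hp => by
    exact_mod_cast entA_fib_pos f hp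
  have hn2 : ∀ p ∈ S, (0 : ℝ) < ((S.filter (fun x => (f x, g x) = (f p, g p))).card : ℝ) :=
    fun p hp => by
      have h3 : p ∈ S.filter (fun x => (f x, g x) = (f p, g p)) := mem_filter.2 ⟨hp, rfl⟩
      exact_mod_cast card_pos.2 ⟨p, h3⟩
  have h1 := entA_sum_log (S := S)
    (fun p => ((S.filter (fun x => f x = f p)).card : ℝ) /
      ((S.filter (fun x => (f x, g x) = (f p, g p))).card : ℝ) / k)
    (fun p hp => div_pos (div_pos (hn p hp) (hn2 p hp)) hk0) (by
      rw [← sum_div, div_le_iff₀ hk0]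
      rw [← sum_fiberwise_of_maps_to (s := S) (t := S.image f) (g := f)
        (fun x hx => mem_image_of_mem f hx)]
      have h2 : ∀ v ∈ S.image f, ∑ p ∈ S.filter (fun x => f x = v),
          ((S.filter (fun x => f x = f p)).card : ℝ) /
          ((S.filter (fun x => (f x, g x) = (f p, g p))).card : ℝ) ≤
          ((S.filter (fun x => f x = v)).card : ℝ) * k := by
        intro v hv
        have h3 : ∀ p ∈ S.filter (fun x => f x = v), ((S.filter (fun x => f x = f p)).card : ℝ) /
            ((S.filter (fun x => (f x, g x) = (f p, g p))).card : ℝ) =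
            ((S.filter (fun x => f x = v)).card : ℝ) *
              (1 / (((S.filter (fun x => f x = v)).filter (fun x => g x = g p)).card : ℝ)) := by
          intro p hp
          have hpv := (mem_filter.1 hp).2
          have h4 : S.filter (fun x => (f x, g x) = (f p, g p)) =
              (S.filter (fun x => f x = v)).filter (fun x => g x = g p) := by
            ext x
            simp only [mem_filter, Prod.mk.injEq, hpv, and_assoc]
          rw [h4, hpv]
          ring
        rw [sum_congr rfl h3, ← mul_sum, entA_sum_inv]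
        apply mul_le_mul_of_nonneg_left _ (Nat.cast_nonneg _)
        obtain ⟨p, hp, rfl⟩ := mem_image.1 hv
        exact_mod_cast hk p hp
      refine (sum_le_sum h2).trans ?_
      rw [← sum_mul]
      apply mul_le_mul_of_nonneg_right _ hk0.le
      rw [← Nat.cast_sum, ← card_eq_sum_card_image])
  have h4 : ∀ p ∈ S, Real.logb 2 (((S.filter (fun x => f x = f p)).card : ℝ) /
      ((S.filter (fun x => (f x, g x) = (f p, g p))).card : ℝ) / k) =
      Real.logb 2 ((S.card : ℝ) / ((S.filter (fun x => (f x, g x) = (f p, g p))).card : ℝ)) -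
      Real.logb 2 ((S.card : ℝ) / ((S.filter (fun x => f x = f p)).card : ℝ)) -
      Real.logb 2 k := by
    intro p hp
    rw [Real.logb_div (div_pos (hn p hp) (hn2 p hp)).ne' hk0.ne',
      Real.logb_div (hn p hp).ne' (hn2 p hp).ne', Real.logb_div hS0.ne' (hn p hp).ne',
      Real.logb_div hS0.ne' (hn2 p hp).ne']
    ring
  rw [sum_congr rfl h4, sum_sub_distrib, sum_sub_distrib, sum_const, nsmul_eq_mul] at h1
  have h5 : ent S (fun x => (f x, g x)) * S.card = ∑ p ∈ S, Real.logb 2 ((S.card : ℝ) /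
      ((S.filter (fun x => (f x, g x) = (f p, g p))).card : ℝ)) := by
    unfold ent
    rw [div_mul_cancel₀ _ hS0.ne']
    refine sum_congr rfl fun p _ => ?_
    congr!
  have h6 : ent S f * S.card = ∑ p ∈ S, Real.logb 2 ((S.card : ℝ) /
      ((S.filter (fun x => f x = f p)).card : ℝ)) := by
    unfold ent
    rw [div_mul_cancel₀ _ hS0.ne']
  rw [← h5, ← h6] at h1
  have h7 : ent S (fun x => (f x, g x)) * S.card ≤ (ent S f + Real.logb 2 k) * S.card := by
    linarith
  exact le_of_mul_le_mul_right h7 hS0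

open Classical in
/-- fibers of size at most `|S|/2^t` give entropy at least `t` -/
theorem ent_ge {S : Finset ι} (hS : S.Nonempty) (f : ι → κ) (t : ℝ)
    (h : ∀ p ∈ S, ((S.filter (fun x => f x = f p)).card : ℝ) ≤ (S.card : ℝ) / (2 : ℝ) ^ t) :
    t ≤ ent S f := by
  have hS0 : (0 : ℝ) < S.card := by exact_mod_cast hS.card_pos
  have h2t : (0 : ℝ) < (2 : ℝ) ^ t := Real.rpow_pos_of_pos (by norm_num) t
  unfold ent
  rw [le_div_iff₀ hS0]
  calc t * S.card = ∑ _p ∈ S, t := by simp [mul_comm]
    _ ≤ _ := by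
      apply sum_le_sum
      intro p hp
      have h1 : (0 : ℝ) < ((S.filter (fun x => f x = f p)).card : ℝ) := by
        exact_mod_cast entA_fib_pos f hp
      rw [Real.le_logb_iff_rpow_le (by norm_num) (div_pos hS0 h1)]
      rw [le_div_iff₀ h1]
      have h3 := h p hp
      rw [le_div_iff₀ h2t] at h3
      linarith

/-- entropy is unchanged when `f` is replaced by an equivalent function -/
theorem ent_congr (S : Finset ι) (f : ι → κ) (g : ι → κ')
    (h : ∀ x ∈ S, ∀ y ∈ S, (f x = f y ↔ g x = g y)) : ent S f = ent S g := by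
  refine le_antisymm (ent_le_of_det S g f fun x hx y hy e => (h x hx y hy).2 e)
    (ent_le_of_det S f g fun x hx y hy e => (h x hx y hy).1 e)

end MP_5e4520_nt
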