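import Pool.Agent.Lib.MP_5e4520_nt.Defs
import Pool.Agent.Lib.MP_5e4520_nt.EntA

set_option autoImplicit false

namespace MP_5e4520_nt

open Finset

variable {ι κ κ' κ'' : Type*}

open Classical in
/-- `∑_p n_f(p) n_g(p) / n_{fg}(p)` counts the pairs in the joint support -/
theorem entB_joint (S : Finset ι) (f : ι → κ) (g : ι → κ') :
    ∑ p ∈ S, ((S.filter (fun x => f x = f p)).card : ℝ) *
      ((S.filter (fun x => g x = g p)).card : ℝ) /
      ((S.filter (fun x => f x = f p ∧ g x = g p)).card : ℝ) =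
      (((S ×ˢ S).filter (fun q : ι × ι => ∃ p ∈ S, f p = f q.1 ∧ g p = g q.2)).card : ℝ) := by
  have h1 : ∀ p ∈ S, ((S.filter (fun x => f x = f p)).card : ℝ) *
      ((S.filter (fun x => g x = g p)).card : ℝ) /
      ((S.filter (fun x => f x = f p ∧ g x = g p)).card : ℝ) =
      ∑ q ∈ S ×ˢ S, if (f p = f q.1 ∧ g p = g q.2) then
        (1 : ℝ) / ((S.filter (fun x => f x = f p ∧ g x = g p)).card : ℝ) else 0 := by
    intro p _
    rw [← sum_filter, sum_const, nsmul_eq_mul]
    have h2 : (S ×ˢ S).filter (fun q : ι × ι => f p = f q.1 ∧ g p = g q.2) =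
        (S.filter (fun x => f x = f p)) ×ˢ (S.filter (fun x => g x = g p)) := by
      ext q
      simp only [mem_filter, mem_product]
      constructor
      · rintro ⟨⟨h3, h4⟩, h5, h6⟩
        exact ⟨⟨h3, h5.symm⟩, h4, h6.symm⟩
      · rintro ⟨⟨h3, h5⟩, h4, h6⟩
        exact ⟨⟨h3, h4⟩, h5.symm, h6.symm⟩
    rw [h2, card_product]
    push_cast
    ring
  rw [sum_congr rfl h1, sum_comm]
  have h3 : ∀ q ∈ S ×ˢ S, (∑ p ∈ S, if (f p = f q.1 ∧ g p = g q.2) then
        (1 : ℝ) / ((S.filter (fun x => f x = f p ∧ g x = g p)).card : ℝ) else 0) =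
      if (∃ p ∈ S, f p = f q.1 ∧ g p = g q.2) then 1 else 0 := by
    intro q _
    have h4 := entA_sum_fib S (fun x => (f x, g x)) (f q.1, g q.2)
    rw [← sum_filter]
    simp only [Prod.mk.injEq] at h4
    convert h4 using 1
  rw [sum_congr rfl h3, sum_boole]

open Classical in
theorem entB_joint_le (S : Finset ι) (f : ι → κ) (g : ι → κ') :
    ∑ p ∈ S, ((S.filter (fun x => f x = f p)).card : ℝ) *
      ((S.filter (fun x => g x = g p)).card : ℝ) /
      ((S.filter (fun x => f x = f p ∧ g x = g p)).card : ℝ) ≤ (S.card : ℝ) ^ 2 := by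
  rw [entB_joint, pow_two]
  have h1 := card_le_card (filter_subset
    (fun q : ι × ι => ∃ p ∈ S, f p = f q.1 ∧ g p = g q.2) (S ×ˢ S))
  rw [card_product] at h1
  exact_mod_cast h1

open Classical in
/-- the entropy times the cardinality -/
theorem entB_mul {S : Finset ι} (hS : S.Nonempty) (f : ι → κ) :
    ent S f * S.card =
      ∑ p ∈ S, Real.logb 2 ((S.card : ℝ) / ((S.filter (fun x => f x = f p)).card : ℝ)) := by
  have hS0 : (S.card : ℝ) ≠ 0 := by exact_mod_cast hS.card_pos.ne'
  unfold ent
  rw [div_mul_cancel₀ _ hS0]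

theorem entB_fib_pos {S : Finset ι} {P : ι → Prop} [DecidablePred P] {p : ι} (hp : p ∈ S)
    (h : P p) : (0 : ℝ) < ((S.filter P).card : ℝ) := by
  have h1 : p ∈ S.filter P := mem_filter.2 ⟨hp, h⟩
  exact_mod_cast card_pos.2 ⟨p, h1⟩

/-- submodularity: `H(f,g,h) + H(h) ≤ H(f,h) + H(g,h)`.
Proof: with `n_f(p)` etc. the fiber cardinalities, use `log x ≤ x - 1`:
`∑_p log (n_{fh} n_{gh} / (n_{fgh} n_h)) ≥ ...`; precisely
`∑_p log ( (n_{fh}(p) n_{gh}(p)) / (n_{fgh}(p) n_h(p)) )` should be `≤ 0`:
`∑_p n_{fh} n_{gh} / (n_{fgh} n_h) = ∑_{(v,w,z) in the support} n_{fh}(v,z) n_{gh}(w,z)/n_h(z)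
 ≤ ∑_z ∑_v ∑_w n_{fh}(v,z) n_{gh}(w,z)/n_h(z) = ∑_z n_h(z) = |S|`, so the average of the logs is
`≤ log 1 = 0`. -/
theorem ent_sub (S : Finset ι) (f : ι → κ) (g : ι → κ') (h : ι → κ'') :
    ent S (fun x => (f x, g x, h x)) + ent S h ≤
      ent S (fun x => (f x, h x)) + ent S (fun x => (g x, h x)) := by
  classical
  rcases S.eq_empty_or_nonempty with rfl | hS
  · simp [ent]
  have hS0 : (0 : ℝ) < S.card := by exact_mod_cast hS.card_pos
  have e1 := entB_mul hS (fun x => (f x, g x, h x))
  have e2 := entB_mul hS h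
  have e3 := entB_mul hS (fun x => (f x, h x))
  have e4 := entB_mul hS (fun x => (g x, h x))
  simp only [Prod.mk.injEq] at e1 e3 e4
  have n1 : ∀ p ∈ S, (0 : ℝ) < ((S.filter (fun x => f x = f p ∧ g x = g p ∧ h x = h p)).card : ℝ) :=
    fun p hp => entB_fib_pos hp ⟨rfl, rfl, rfl⟩
  have n2 : ∀ p ∈ S, (0 : ℝ) < ((S.filter (fun x => h x = h p)).card : ℝ) :=
    fun p hp => entB_fib_pos hp rfl
  have n3 : ∀ p ∈ S, (0 : ℝ) < ((S.filter (fun x => f x = f p ∧ h x = h p)).card : ℝ) :=
    fun p hp => entB_fib_pos hp ⟨rfl, rfl⟩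
  have n4 : ∀ p ∈ S, (0 : ℝ) < ((S.filter (fun x => g x = g p ∧ h x = h p)).card : ℝ) :=
    fun p hp => entB_fib_pos hp ⟨rfl, rfl⟩
  have h1 := entA_sum_log (S := S)
    (fun p => ((S.filter (fun x => f x = f p ∧ h x = h p)).card : ℝ) *
      ((S.filter (fun x => g x = g p ∧ h x = h p)).card : ℝ) /
      ((S.filter (fun x => f x = f p ∧ g x = g p ∧ h x = h p)).card : ℝ) /
      ((S.filter (fun x => h x = h p)).card : ℝ))
    (fun p hp => div_pos (div_pos (mul_pos (n3 p hp) (n4 p hp)) (n1 p hp)) (n2 p hp)) (by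
      rw [← sum_fiberwise_of_maps_to (s := S) (t := S.image h) (g := h)
        (fun x hx => mem_image_of_mem h hx)]
      have h2 : ∀ z ∈ S.image h, ∑ p ∈ S.filter (fun x => h x = z),
          ((S.filter (fun x => f x = f p ∧ h x = h p)).card : ℝ) *
          ((S.filter (fun x => g x = g p ∧ h x = h p)).card : ℝ) /
          ((S.filter (fun x => f x = f p ∧ g x = g p ∧ h x = h p)).card : ℝ) /
          ((S.filter (fun x => h x = h p)).card : ℝ) ≤
          ((S.filter (fun x => h x = z)).card : ℝ) := by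
        intro z hz
        obtain ⟨p0, hp0, rfl⟩ := mem_image.1 hz
        have h3 := entB_joint_le (S.filter (fun x => h x = h p0)) f g
        have h4 : ∀ p ∈ S.filter (fun x => h x = h p0),
            ((S.filter (fun x => f x = f p ∧ h x = h p)).card : ℝ) *
            ((S.filter (fun x => g x = g p ∧ h x = h p)).card : ℝ) /
            ((S.filter (fun x => f x = f p ∧ g x = g p ∧ h x = h p)).card : ℝ) /
            ((S.filter (fun x => h x = h p)).card : ℝ) =
            ((((S.filter (fun x => h x = h p0)).filter (fun x => f x = f p)).card : ℝ) *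
            (((S.filter (fun x => h x = h p0)).filter (fun x => g x = g p)).card : ℝ) /
            (((S.filter (fun x => h x = h p0)).filter
              (fun x => f x = f p ∧ g x = g p)).card : ℝ)) /
            ((S.filter (fun x => h x = h p0)).card : ℝ) := by
          intro p hp
          have hpz := (mem_filter.1 hp).2
          have a1 : S.filter (fun x => f x = f p ∧ h x = h p) =
              (S.filter (fun x => h x = h p0)).filter (fun x => f x = f p) := by
            ext x
            simp only [mem_filter, hpz]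
            tauto
          have a2 : S.filter (fun x => g x = g p ∧ h x = h p) =
              (S.filter (fun x => h x = h p0)).filter (fun x => g x = g p) := by
            ext x
            simp only [mem_filter, hpz]
            tauto
          have a3 : S.filter (fun x => f x = f p ∧ g x = g p ∧ h x = h p) =
              (S.filter (fun x => h x = h p0)).filter (fun x => f x = f p ∧ g x = g p) := by
            ext x
            simp only [mem_filter, hpz]
            tauto
          rw [a1, a2, a3, hpz]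
        rw [sum_congr rfl h4, ← sum_div, div_le_iff₀ (n2 p0 hp0)]
        rw [← pow_two]
        exact h3
      refine (sum_le_sum h2).trans ?_
      rw [← Nat.cast_sum, ← card_eq_sum_card_image])
  have h4 : ∀ p ∈ S, Real.logb 2 (((S.filter (fun x => f x = f p ∧ h x = h p)).card : ℝ) *
      ((S.filter (fun x => g x = g p ∧ h x = h p)).card : ℝ) /
      ((S.filter (fun x => f x = f p ∧ g x = g p ∧ h x = h p)).card : ℝ) /
      ((S.filter (fun x => h x = h p)).card : ℝ)) =
      Real.logb 2 ((S.card : ℝ) /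
        ((S.filter (fun x => f x = f p ∧ g x = g p ∧ h x = h p)).card : ℝ)) +
      Real.logb 2 ((S.card : ℝ) / ((S.filter (fun x => h x = h p)).card : ℝ)) -
      Real.logb 2 ((S.card : ℝ) / ((S.filter (fun x => f x = f p ∧ h x = h p)).card : ℝ)) -
      Real.logb 2 ((S.card : ℝ) / ((S.filter (fun x => g x = g p ∧ h x = h p)).card : ℝ)) := by
    intro p hp
    have m1 := (n1 p hp).ne'
    have m2 := (n2 p hp).ne'
    have m3 := (n3 p hp).ne'
    have m4 := (n4 p hp).ne'
    rw [Real.logb_div (div_ne_zero (mul_ne_zero m3 m4) m1) m2,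
      Real.logb_div (mul_ne_zero m3 m4) m1, Real.logb_mul m3 m4,
      Real.logb_div hS0.ne' m1, Real.logb_div hS0.ne' m2, Real.logb_div hS0.ne' m3,
      Real.logb_div hS0.ne' m4]
    ring
  rw [sum_congr rfl h4, sum_sub_distrib, sum_sub_distrib, sum_add_distrib] at h1
  have e1' : ent S (fun x => (f x, g x, h x)) * S.card = ∑ p ∈ S, Real.logb 2 ((S.card : ℝ) /
        ((S.filter (fun x => f x = f p ∧ g x = g p ∧ h x = h p)).card : ℝ)) := by
    rw [e1]
  have e3' : ent S (fun x => (f x, h x)) * S.card = ∑ p ∈ S, Real.logb 2 ((S.card : ℝ) /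
        ((S.filter (fun x => f x = f p ∧ h x = h p)).card : ℝ)) := by
    rw [e3]
  have e4' : ent S (fun x => (g x, h x)) * S.card = ∑ p ∈ S, Real.logb 2 ((S.card : ℝ) /
        ((S.filter (fun x => g x = g p ∧ h x = h p)).card : ℝ)) := by
    rw [e4]
  rw [← e1', ← e2, ← e3', ← e4'] at h1
  have h7 : (ent S (fun x => (f x, g x, h x)) + ent S h) * S.card ≤
      (ent S (fun x => (f x, h x)) + ent S (fun x => (g x, h x))) * S.card := by
    linarith
  exact le_of_mul_le_mul_right h7 hS0

open Classical in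
/-- conditional entropy as an average of entropies on fibers -/
theorem ent_cond (S : Finset ι) (f : ι → κ) (h : ι → κ') :
    ent S (fun x => (f x, h x)) - ent S h =
      (∑ p ∈ S, ent (S.filter (fun x => h x = h p)) f) / S.card := by
  rcases S.eq_empty_or_nonempty with rfl | hS
  · simp [ent]
  have hS0 : (0 : ℝ) < S.card := by exact_mod_cast hS.card_pos
  have e2 := entB_mul hS h
  have e3 := entB_mul hS (fun x => (f x, h x))
  simp only [Prod.mk.injEq] at e3
  have e3' : ent S (fun x => (f x, h x)) * S.card = ∑ p ∈ S, Real.logb 2 ((S.card : ℝ) /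
        ((S.filter (fun x => f x = f p ∧ h x = h p)).card : ℝ)) := by
    rw [e3]
  have n2 : ∀ p ∈ S, (0 : ℝ) < ((S.filter (fun x => h x = h p)).card : ℝ) :=
    fun p hp => entB_fib_pos hp rfl
  have n3 : ∀ p ∈ S, (0 : ℝ) < ((S.filter (fun x => f x = f p ∧ h x = h p)).card : ℝ) :=
    fun p hp => entB_fib_pos hp ⟨rfl, rfl⟩
  rw [eq_div_iff hS0.ne', sub_mul, e3', e2, ← sum_sub_distrib]
  have h1 : ∀ p ∈ S, Real.logb 2 ((S.card : ℝ) /
        ((S.filter (fun x => f x = f p ∧ h x = h p)).card : ℝ)) -
      Real.logb 2 ((S.card : ℝ) / ((S.filter (fun x => h x = h p)).card : ℝ)) =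
      Real.logb 2 (((S.filter (fun x => h x = h p)).card : ℝ) /
        ((S.filter (fun x => f x = f p ∧ h x = h p)).card : ℝ)) := by
    intro p hp
    rw [Real.logb_div hS0.ne' (n3 p hp).ne', Real.logb_div hS0.ne' (n2 p hp).ne',
      Real.logb_div (n2 p hp).ne' (n3 p hp).ne']
    ring
  rw [sum_congr rfl h1]
  have h2 : ∀ p ∈ S, ent (S.filter (fun x => h x = h p)) f =
      ∑ x ∈ S, if h x = h p then Real.logb 2 (((S.filter (fun y => h y = h x)).card : ℝ) /
        ((S.filter (fun y => f y = f x ∧ h y = h x)).card : ℝ)) *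
          (1 / ((S.filter (fun y => h y = h x)).card : ℝ)) else 0 := by
    intro p hp
    unfold ent
    rw [← sum_filter, sum_div]
    apply sum_congr rfl
    intro x hx
    have hxp := (mem_filter.1 hx).2
    have a1 : (S.filter (fun x => h x = h p)).filter (fun y => f y = f x) =
        S.filter (fun y => f y = f x ∧ h y = h x) := by
      ext y
      simp only [mem_filter, hxp]
      tauto
    rw [hxp] at a1 ⊢
    rw [div_eq_mul_one_div]
    congr 4
    exact congrArg Finset.card a1
  rw [sum_congr rfl h2, sum_comm]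
  apply sum_congr rfl
  intro x hx
  have h3 : ∀ p ∈ S, (if h x = h p then Real.logb 2 (((S.filter (fun y => h y = h x)).card : ℝ) /
        ((S.filter (fun y => f y = f x ∧ h y = h x)).card : ℝ)) *
          (1 / ((S.filter (fun y => h y = h x)).card : ℝ)) else 0) =
      if h p = h x then Real.logb 2 (((S.filter (fun y => h y = h x)).card : ℝ) /
        ((S.filter (fun y => f y = f x ∧ h y = h x)).card : ℝ)) *
          (1 / ((S.filter (fun y => h y = h x)).card : ℝ)) else 0 := by
    intro p _
    simp only [eq_comm]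
  rw [sum_congr rfl h3, ← sum_filter, sum_const, nsmul_eq_mul]
  have h4 := (n2 x hx).ne'
  field_simp

open Classical in
/-- Information lemma.  If `(f p, g p)` is never in the relation `N` for `p ∈ S` then the product of
the marginal laws gives `N` probability at most the mutual information.
Proof: with `n_f, n_g, n_{fg}` the fiber cardinalities,
`(H(f) + H(g) - H(f,g)) * log 2 = (1/|S|) ∑_p log (|S| n_{fg}(p) / (n_f(p) n_g(p)))
 ≥ (1/|S|) ∑_p (1 - n_f(p) n_g(p) / (|S| n_{fg}(p)))` (from `log x ≤ x - 1`), and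
`∑_p n_f(p) n_g(p)/n_{fg}(p) = ∑_{(v,w) = (f p, g p) for some p} n_f(v) n_g(w)
 = #{(p,p') : (f p, g p') in the joint support} ≤ |S|^2 - #{(p,p') : N (f p) (g p')}`.
Finally `log 2 ≤ 1` and the left side is nonnegative. -/
theorem info {S : Finset ι} (hS : S.Nonempty) (f : ι → κ) (g : ι → κ') (N : κ → κ' → Prop)
    (hN : ∀ p ∈ S, ¬ N (f p) (g p)) :
    (((S ×ˢ S).filter (fun q : ι × ι => N (f q.1) (g q.2))).card : ℝ) / (S.card : ℝ) ^ 2 ≤
      ent S f + ent S g - ent S (fun x => (f x, g x)) := by
  have hS0 : (0 : ℝ) < S.card := by exact_mod_cast hS.card_pos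
  have e1 := entB_mul hS f
  have e2 := entB_mul hS g
  have e3 := entB_mul hS (fun x => (f x, g x))
  simp only [Prod.mk.injEq] at e3
  have e3' : ent S (fun x => (f x, g x)) * S.card = ∑ p ∈ S, Real.logb 2 ((S.card : ℝ) /
        ((S.filter (fun x => f x = f p ∧ g x = g p)).card : ℝ)) := by
    rw [e3]
  have n1 : ∀ p ∈ S, (0 : ℝ) < ((S.filter (fun x => f x = f p)).card : ℝ) :=
    fun p hp => entB_fib_pos hp rfl
  have n2 : ∀ p ∈ S, (0 : ℝ) < ((S.filter (fun x => g x = g p)).card : ℝ) :=
    fun p hp => entB_fib_pos hp rfl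
  have n3 : ∀ p ∈ S, (0 : ℝ) < ((S.filter (fun x => f x = f p ∧ g x = g p)).card : ℝ) :=
    fun p hp => entB_fib_pos hp ⟨rfl, rfl⟩
  set NN : ℝ := (((S ×ˢ S).filter (fun q : ι × ι => N (f q.1) (g q.2))).card : ℝ) with hNN
  -- the logarithms
  have h1 : (ent S f + ent S g - ent S (fun x => (f x, g x))) * S.card =
      -(∑ p ∈ S, Real.logb 2 (((S.filter (fun x => f x = f p)).card : ℝ) *
        ((S.filter (fun x => g x = g p)).card : ℝ) /
        ((S.filter (fun x => f x = f p ∧ g x = g p)).card : ℝ) / S.card)) := by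
    rw [sub_mul, add_mul, e1, e2, e3', ← sum_add_distrib, ← sum_sub_distrib, ← sum_neg_distrib]
    apply sum_congr rfl
    intro p hp
    have m1 := (n1 p hp).ne'
    have m2 := (n2 p hp).ne'
    have m3 := (n3 p hp).ne'
    rw [Real.logb_div (div_ne_zero (mul_ne_zero m1 m2) m3) hS0.ne',
      Real.logb_div (mul_ne_zero m1 m2) m3, Real.logb_mul m1 m2,
      Real.logb_div hS0.ne' m1, Real.logb_div hS0.ne' m2, Real.logb_div hS0.ne' m3]
    ring
  have h2 : ∑ p ∈ S, Real.log (((S.filter (fun x => f x = f p)).card : ℝ) *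
        ((S.filter (fun x => g x = g p)).card : ℝ) /
        ((S.filter (fun x => f x = f p ∧ g x = g p)).card : ℝ) / S.card) ≤ -(NN / S.card) := by
    calc _ ≤ ∑ p ∈ S, (((S.filter (fun x => f x = f p)).card : ℝ) *
        ((S.filter (fun x => g x = g p)).card : ℝ) /
        ((S.filter (fun x => f x = f p ∧ g x = g p)).card : ℝ) / S.card - 1) :=
          sum_le_sum fun p hp => Real.log_le_sub_one_of_pos
            (div_pos (div_pos (mul_pos (n1 p hp) (n2 p hp)) (n3 p hp)) hS0)
      _ = (((S ×ˢ S).filter (fun q : ι × ι => ∃ p ∈ S, f p = f q.1 ∧ g p = g q.2)).card : ℝ) /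
          S.card - S.card := by
          rw [sum_sub_distrib, ← sum_div, entB_joint]
          simp
      _ ≤ -(NN / S.card) := by
          have h3 : (((S ×ˢ S).filter
              (fun q : ι × ι => ∃ p ∈ S, f p = f q.1 ∧ g p = g q.2)).card : ℝ) + NN ≤
              (S.card : ℝ) ^ 2 := by
            have h4 : Disjoint ((S ×ˢ S).filter
                (fun q : ι × ι => ∃ p ∈ S, f p = f q.1 ∧ g p = g q.2))
                ((S ×ˢ S).filter (fun q : ι × ι => N (f q.1) (g q.2))) := by
              rw [disjoint_left]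
              intro q hq1 hq2
              obtain ⟨p, hp, h5, h6⟩ := (mem_filter.1 hq1).2
              have h7 := (mem_filter.1 hq2).2
              rw [← h5, ← h6] at h7
              exact hN p hp h7
            have h5 := card_union_of_disjoint h4
            have h6 : (((S ×ˢ S).filter
                (fun q : ι × ι => ∃ p ∈ S, f p = f q.1 ∧ g p = g q.2)) ∪
                ((S ×ˢ S).filter (fun q : ι × ι => N (f q.1) (g q.2)))).card ≤
                (S ×ˢ S).card := card_le_card (union_subset (filter_subset _ _)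
                  (filter_subset _ _))
            rw [h5, card_product] at h6
            rw [hNN, pow_two]
            exact_mod_cast h6
          have h8 : (((S ×ˢ S).filter
              (fun q : ι × ι => ∃ p ∈ S, f p = f q.1 ∧ g p = g q.2)).card : ℝ) / S.card +
              NN / S.card ≤ S.card := by
            rw [← add_div, div_le_iff₀ hS0, ← pow_two]
            exact h3
          linarith
  have h3 : ∑ p ∈ S, Real.logb 2 (((S.filter (fun x => f x = f p)).card : ℝ) *
        ((S.filter (fun x => g x = g p)).card : ℝ) /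
        ((S.filter (fun x => f x = f p ∧ g x = g p)).card : ℝ) / S.card) =
      (∑ p ∈ S, Real.log (((S.filter (fun x => f x = f p)).card : ℝ) *
        ((S.filter (fun x => g x = g p)).card : ℝ) /
        ((S.filter (fun x => f x = f p ∧ g x = g p)).card : ℝ) / S.card)) / Real.log 2 := by
    rw [sum_div]
    rfl
  have hl0 : 0 < Real.log 2 := Real.log_pos (by norm_num)
  have hl1 : Real.log 2 ≤ 1 := by
    have := Real.log_two_lt_d9
    linarith
  have hN0 : 0 ≤ NN / S.card := div_nonneg (Nat.cast_nonneg _) hS0.le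
  have h4 : NN / S.card ≤ (ent S f + ent S g - ent S (fun x => (f x, g x))) * S.card := by
    rw [h1, h3, ← neg_div, le_div_iff₀ hl0]
    calc NN / S.card * Real.log 2 ≤ NN / S.card * 1 := mul_le_mul_of_nonneg_left hl1 hN0
      _ ≤ _ := by linarith
  rw [pow_two, ← div_div, div_le_iff₀ hS0]
  exact h4

end MP_5e4520_nt
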