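import Pool.Agent.Lib.MP_5e4520_nt.FTA

set_option autoImplicit false

namespace MP_5e4520_nt

open Finset

private theorem ftb_Q1 (l m u : ℕ) :
    ((2 ^ (2 * l + m + 3 * u) : ℕ) : ℝ) = 2 ^ (l + m + 2 * u) * 2 ^ (l + u) := by
  push_cast
  rw [← pow_add]
  congr 1
  ring

private theorem ftb_Q2 (l m u : ℕ) :
    ((2 ^ (l + 2 * m + 3 * u) : ℕ) : ℝ) = 2 ^ (l + m + 2 * u) * 2 ^ (m + u) := by
  push_cast
  rw [← pow_add]
  congr 1
  ring

private theorem ftb_L1 (l m u : ℕ) :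
    (((2 ^ (l + m + 2 * u) : ℕ) : ℝ)) / ((2 ^ (2 * l + m + 3 * u) : ℕ) : ℝ) = 1 / 2 ^ (l + u) := by
  rw [ftb_Q1]
  push_cast
  have h1 : (0 : ℝ) < 2 ^ (l + m + 2 * u) := by positivity
  have h2 : (0 : ℝ) < 2 ^ (l + u) := by positivity
  field_simp

private theorem ftb_L2 (l m u : ℕ) :
    2 * (((2 ^ (l + m + 2 * u) : ℕ) : ℝ)) / ((2 ^ (l + 2 * m + 3 * u) : ℕ) : ℝ) =
      2 / 2 ^ (m + u) := by
  rw [ftb_Q2]
  push_cast
  have h1 : (0 : ℝ) < 2 ^ (l + m + 2 * u) := by positivity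
  have h2 : (0 : ℝ) < 2 ^ (m + u) := by positivity
  field_simp

/-- the term of the smooth hit function with difference `n` -/
private noncomputable def ftbT (l m u α β γ δ : ℕ) (n : ℤ) : ℝ :=
  btri (2 ^ (l + m + 2 * u)) (2 ^ (2 * l + m + 3 * u)) (n * α - γ * 2 ^ (l + m + 2 * u)) *
  bqua (2 ^ (l + m + 2 * u)) (2 ^ (l + 2 * m + 3 * u)) (n * β - δ * 2 ^ (l + m + 2 * u))

private theorem ftb_supp {l m u α β γ δ : ℕ} {n : ℤ} (h : ftbT l m u α β γ δ n ≠ 0) :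
    nd ((n : ℝ) * α / 2 ^ (2 * l + m + 3 * u) - γ / 2 ^ (l + u)) < 1 / 2 ^ (l + u) ∧
    nd ((n : ℝ) * β / 2 ^ (l + 2 * m + 3 * u) - δ / 2 ^ (m + u)) < 2 / 2 ^ (m + u) := by
  have h1 := left_ne_zero_of_mul h
  have h2 := right_ne_zero_of_mul h
  have h3 := btri_supp _ _ (by positivity) _ h1
  have h4 := bqua_supp _ _ (by positivity) _ h2
  rw [ftb_L1] at h3
  rw [ftb_L2] at h4
  have hL : (0 : ℝ) < 2 ^ (l + m + 2 * u) := by positivity
  constructor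
  · convert h3 using 2
    have e := ftb_Q1 l m u
    rw [e]
    push_cast at e
    rw [e]
    push_cast
    have h5 : (0 : ℝ) < 2 ^ (l + u) := by positivity
    field_simp
  · convert h4 using 2
    have e := ftb_Q2 l m u
    rw [e]
    push_cast at e
    rw [e]
    push_cast
    have h5 : (0 : ℝ) < 2 ^ (m + u) := by positivity
    field_simp

private theorem ftb_uniq_aux {l m u r α β γ δ : ℕ} (hG : Gen1 l m u r α β) {n n' : ℤ}
    (h : ftbT l m u α β γ δ n ≠ 0) (h' : ftbT l m u α β γ δ n' ≠ 0) (hlt : n' < n)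
    (hd : n - n' ≤ 2 * 2 ^ (l + m + 2 * u - r)) : False := by
  obtain ⟨a1, a2⟩ := ftb_supp h
  obtain ⟨b1, b2⟩ := ftb_supp h'
  obtain ⟨d, hdn⟩ : ∃ d : ℕ, (d : ℤ) = n - n' := ⟨(n - n').toNat, by omega⟩
  have hdR : (d : ℝ) = (n : ℝ) - n' := by exact_mod_cast hdn
  refine hG d (by omega) (by zify; rw [hdn]; exact hd) ⟨?_, ?_⟩
  · have e : (d : ℝ) * α / 2 ^ (2 * l + m + 3 * u) =
        ((n : ℝ) * α / 2 ^ (2 * l + m + 3 * u) - γ / 2 ^ (l + u)) +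
        -((n' : ℝ) * α / 2 ^ (2 * l + m + 3 * u) - γ / 2 ^ (l + u)) := by rw [hdR]; ring
    rw [e]
    refine lt_of_le_of_lt (nd_add_le _ _) ?_
    rw [nd_neg]
    have e2 : (4 : ℝ) / 2 ^ (l + u) = 4 * (1 / 2 ^ (l + u)) := by ring
    have e3 : (0 : ℝ) < 1 / 2 ^ (l + u) := by positivity
    rw [e2]
    linarith
  · have e : (d : ℝ) * β / 2 ^ (l + 2 * m + 3 * u) =
        ((n : ℝ) * β / 2 ^ (l + 2 * m + 3 * u) - δ / 2 ^ (m + u)) +
        -((n' : ℝ) * β / 2 ^ (l + 2 * m + 3 * u) - δ / 2 ^ (m + u)) := by rw [hdR]; ring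
    rw [e]
    refine lt_of_le_of_lt (nd_add_le _ _) ?_
    rw [nd_neg]
    have e2 : (4 : ℝ) / 2 ^ (m + u) = 2 / 2 ^ (m + u) + 2 / 2 ^ (m + u) := by ring
    rw [e2]
    linarith

private theorem ftb_uniq {l m u r α β γ δ : ℕ} (hG : Gen1 l m u r α β) {n n' : ℤ}
    (h : ftbT l m u α β γ δ n ≠ 0) (h' : ftbT l m u α β γ δ n' ≠ 0)
    (hd : n - n' ≤ 2 * 2 ^ (l + m + 2 * u - r)) (hd' : n' - n ≤ 2 * 2 ^ (l + m + 2 * u - r)) :
    n = n' := by
  rcases lt_trichotomy n n' with h1 | h1 | h1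
  · exact (ftb_uniq_aux hG h' h h1 hd').elim
  · exact h1
  · exact (ftb_uniq_aux hG h h' h1 hd).elim

private theorem ftb_nonneg (l m u α β γ δ : ℕ) (n : ℤ) : 0 ≤ ftbT l m u α β γ δ n :=
  mul_nonneg (btri_nonneg _ _ _) (bqua_nonneg _ _ _)

private theorem ftb_le_one {l m u r : ℕ} (hP : Par l m u r) (α β γ δ : ℕ) (n : ℤ) :
    ftbT l m u α β γ δ n ≤ 1 := by
  have h1 := hP.r1
  have h2 := hP.ru
  have h3 := hP.ul
  have h4 := hP.um
  refine mul_le_one₀ (btri_le_one _ _ ?_ _) (bqua_nonneg _ _ _) (bqua_le_one _ _ (by positivity) ?_ _)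
  · exact Nat.pow_le_pow_right (by norm_num) (by omega)
  · calc 2 * 2 ^ (l + m + 2 * u) = 2 ^ (l + m + 2 * u + 1) := by ring
      _ ≤ 2 ^ (l + 2 * m + 3 * u) := Nat.pow_le_pow_right (by norm_num) (by omega)

/-- the double sum -/
private theorem ftb_sum_le (K : ℕ) (T : ℤ) (f : ℤ → ℝ) (h0 : ∀ n, 0 ≤ f n) (h1 : ∀ n, f n ≤ 1)
    (hu : ∀ n n', f n ≠ 0 → f n' ≠ 0 → n - n' ≤ 2 * K → n' - n ≤ 2 * K → n = n') :
    ∑ i ∈ range K, ∑ j ∈ range K, f (T + (i : ℤ) - j) ≤ K := by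
  by_cases hex : ∃ i ∈ range K, ∃ j ∈ range K, f (T + (i : ℤ) - j) ≠ 0
  · obtain ⟨i0, hi0, j0, hj0, hne⟩ := hex
    rw [mem_range] at hi0 hj0
    calc ∑ i ∈ range K, ∑ j ∈ range K, f (T + (i : ℤ) - j)
        ≤ ∑ i ∈ range K, (1 : ℝ) := by
          refine Finset.sum_le_sum fun i hi => ?_
          rw [mem_range] at hi
          by_cases hex2 : ∃ j1 ∈ range K, f (T + (i : ℤ) - j1) ≠ 0
          · obtain ⟨j1, hj1, hne1⟩ := hex2
            rw [Finset.sum_eq_single_of_mem j1 hj1]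
            · exact h1 _
            · intro j hj hjj
              by_contra hne2
              rw [mem_range] at hj hj1
              have := hu _ _ hne1 hne2 (by omega) (by omega)
              omega
          · push Not at hex2
            rw [Finset.sum_eq_zero hex2]
            norm_num
      _ = K := by simp
  · push Not at hex
    rw [Finset.sum_eq_zero fun i hi => Finset.sum_eq_zero fun j hj => hex i hi j hj]
    positivity

/-- Under `Gen1` the total mass `∑_h c1 c2 fej` is `≤ 1`: by `FT` with `T = γ = δ = 0` it equals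
`(1/K) ∑_{i,j<K} btri((i-j)α) bqua((i-j)β)`; for `i ≠ j` the supports (`btri_supp`, `bqua_supp`,
`L/Q1 = 1/2^(l+u)`, `2L/Q2 = 2/2^(m+u)`) contradict `Gen1`. -/
theorem tot_le (l m u r α β : ℕ) (hP : Par l m u r) (hG : Gen1 l m u r α β) :
    ∑ h1 ∈ range (2 ^ (2 * l + m + 3 * u)), ∑ h2 ∈ range (2 ^ (l + 2 * m + 3 * u)),
      ctri (2 ^ (l + m + 2 * u)) (2 ^ (2 * l + m + 3 * u)) h1 *
      cqua (2 ^ (l + m + 2 * u)) (2 ^ (l + 2 * m + 3 * u)) h2 *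
      fej (2 ^ (l + m + 2 * u - r))
        ((h1 : ℝ) * α / 2 ^ (2 * l + m + 3 * u) + (h2 : ℝ) * β / 2 ^ (l + 2 * m + 3 * u)) ≤ 1 := by
  have hr1 := hP.r1
  have hr2 := hP.ru
  have hr3 := hP.ul
  have hr4 := hP.um
  have hL0 : 0 < 2 ^ (l + m + 2 * u) := by positivity
  have hft := FT (2 ^ (l + m + 2 * u - r)) (2 ^ (2 * l + m + 3 * u)) (2 ^ (l + 2 * m + 3 * u))
    (by positivity) (by positivity) (by positivity)
    (ctri (2 ^ (l + m + 2 * u)) (2 ^ (2 * l + m + 3 * u)))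
    (cqua (2 ^ (l + m + 2 * u)) (2 ^ (l + 2 * m + 3 * u)))
    (btri (2 ^ (l + m + 2 * u)) (2 ^ (2 * l + m + 3 * u)))
    (bqua (2 ^ (l + m + 2 * u)) (2 ^ (l + 2 * m + 3 * u)))
    (btri_fourier _ _ (by positivity)) (bqua_fourier _ _ (by positivity)) 0 (α : ℤ) (β : ℤ) 0 0
  have hee : ∀ h h' : ℕ, ee (((0 : ℤ) : ℝ) * ((h : ℝ) * ((α : ℤ) : ℝ) / ((2 ^ (2 * l + m + 3 * u) : ℕ) : ℝ) +
      (h' : ℝ) * ((β : ℤ) : ℝ) / ((2 ^ (l + 2 * m + 3 * u) : ℕ) : ℝ)) -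
      ((h : ℝ) * ((0 : ℤ) : ℝ) / ((2 ^ (2 * l + m + 3 * u) : ℕ) : ℝ) +
      (h' : ℝ) * ((0 : ℤ) : ℝ) / ((2 ^ (l + 2 * m + 3 * u) : ℕ) : ℝ))) = 1 := by
    intro h h'
    rw [← ee_zero]
    congr 1
    simp
  simp only [hee, mul_one] at hft
  have hft2 : (∑ i ∈ range (2 ^ (l + m + 2 * u - r)), ∑ j ∈ range (2 ^ (l + m + 2 * u - r)),
      ftbT l m u α β 0 0 ((i : ℤ) - j)) / 2 ^ (l + m + 2 * u - r) =
      ∑ h1 ∈ range (2 ^ (2 * l + m + 3 * u)), ∑ h2 ∈ range (2 ^ (l + 2 * m + 3 * u)),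
      ctri (2 ^ (l + m + 2 * u)) (2 ^ (2 * l + m + 3 * u)) h1 *
      cqua (2 ^ (l + m + 2 * u)) (2 ^ (l + 2 * m + 3 * u)) h2 *
      fej (2 ^ (l + m + 2 * u - r))
        ((h1 : ℝ) * α / 2 ^ (2 * l + m + 3 * u) + (h2 : ℝ) * β / 2 ^ (l + 2 * m + 3 * u)) := by
    have h3 : ((((∑ i ∈ range (2 ^ (l + m + 2 * u - r)), ∑ j ∈ range (2 ^ (l + m + 2 * u - r)),
      ftbT l m u α β 0 0 ((i : ℤ) - j)) / 2 ^ (l + m + 2 * u - r) : ℝ)) : ℂ) =
      ((∑ h1 ∈ range (2 ^ (2 * l + m + 3 * u)), ∑ h2 ∈ range (2 ^ (l + 2 * m + 3 * u)),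
      ctri (2 ^ (l + m + 2 * u)) (2 ^ (2 * l + m + 3 * u)) h1 *
      cqua (2 ^ (l + m + 2 * u)) (2 ^ (l + 2 * m + 3 * u)) h2 *
      fej (2 ^ (l + m + 2 * u - r))
        ((h1 : ℝ) * α / 2 ^ (2 * l + m + 3 * u) + (h2 : ℝ) * β / 2 ^ (l + 2 * m + 3 * u)) : ℝ) : ℂ) := by
      rw [Complex.ofReal_sum]
      simp only [Complex.ofReal_sum]
      convert hft using 1
      · simp [ftbT]
      · simp
    exact_mod_cast h3
  rw [← hft2, div_le_one (by positivity)]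
  have h4 := ftb_sum_le (2 ^ (l + m + 2 * u - r)) 0 (ftbT l m u α β 0 0)
    (ftb_nonneg l m u α β 0 0) (ftb_le_one hP α β 0 0)
    (fun n n' h h' h1 h2 => ftb_uniq hG h h' (by push_cast at h1; exact h1)
      (by push_cast at h2; exact h2))
  simp only [zero_add] at h4
  push_cast at h4
  exact h4

/-- Under `Gen1` the smooth hit function is at most the indicator of a hit.  If a term is nonzero then
`q = 2K + i - j ∈ (K, 3K)` is a hit (`btri_supp`, `bqua_supp`); two different hitting `q` differ by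
`d < 2K` contradicting `Gen1` (`nd_add_le`: `2κ+2κ = 4κ`); so all nonzero terms have the same
`i - j`, there are at most `K` such pairs, and each term is `≤ 1`. -/
theorem FF_le (l m u r α β γ δ : ℕ) (hP : Par l m u r) (hG : Gen1 l m u r α β) :
    0 ≤ FF l m u r α β γ δ ∧ FF l m u r α β γ δ ≤ 1 ∧
      (¬ Hit l m u r α β γ δ → FF l m u r α β γ δ = 0) := by
  have hFF : FF l m u r α β γ δ =
      (∑ i ∈ range (2 ^ (l + m + 2 * u - r)), ∑ j ∈ range (2 ^ (l + m + 2 * u - r)),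
        ftbT l m u α β γ δ (2 * 2 ^ (l + m + 2 * u - r) + (i : ℤ) - j)) /
        2 ^ (l + m + 2 * u - r) := rfl
  have hK : (0 : ℝ) < 2 ^ (l + m + 2 * u - r) := by positivity
  refine ⟨?_, ?_, ?_⟩
  · rw [hFF]
    exact div_nonneg (Finset.sum_nonneg fun i _ => Finset.sum_nonneg fun j _ =>
      ftb_nonneg _ _ _ _ _ _ _ _) hK.le
  · rw [hFF, div_le_one hK]
    have h4 := ftb_sum_le (2 ^ (l + m + 2 * u - r)) (2 * 2 ^ (l + m + 2 * u - r))
      (ftbT l m u α β γ δ) (ftb_nonneg l m u α β γ δ) (ftb_le_one hP α β γ δ)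
      (fun n n' h h' h1 h2 => ftb_uniq hG h h' (by push_cast at h1; exact h1)
        (by push_cast at h2; exact h2))
    push_cast at h4
    exact h4
  · intro hno
    rw [hFF]
    have hz : ∀ i ∈ range (2 ^ (l + m + 2 * u - r)), ∀ j ∈ range (2 ^ (l + m + 2 * u - r)),
        ftbT l m u α β γ δ (2 * 2 ^ (l + m + 2 * u - r) + (i : ℤ) - j) = 0 := by
      intro i hi j hj
      by_contra hne
      rw [mem_range] at hi hj
      obtain ⟨a1, a2⟩ := ftb_supp hne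
      apply hno
      have hi' : (i : ℤ) < 2 ^ (l + m + 2 * u - r) := by exact_mod_cast hi
      have hj' : (j : ℤ) < 2 ^ (l + m + 2 * u - r) := by exact_mod_cast hj
      obtain ⟨q, hq⟩ : ∃ q : ℕ, (q : ℤ) = 2 * 2 ^ (l + m + 2 * u - r) + (i : ℤ) - j :=
        ⟨(2 * 2 ^ (l + m + 2 * u - r) + (i : ℤ) - j).toNat, by omega⟩
      have hqR : ((2 * 2 ^ (l + m + 2 * u - r) + (i : ℤ) - j : ℤ) : ℝ) = (q : ℝ) := by
        rw [← hq]; simp
      rw [hqR] at a1 a2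
      refine ⟨q, ?_, ?_, lt_of_lt_of_le a1 ?_, a2⟩
      · zify
        omega
      · zify
        omega
      · exact div_le_div_of_nonneg_right (by norm_num) (by positivity)
    rw [Finset.sum_eq_zero fun i hi => Finset.sum_eq_zero fun j hj => hz i hi j hj, zero_div]

/-- Fourier expansion of `FF` -/
theorem FF_ft (l m u r α β γ δ : ℕ) (hP : Par l m u r) :
    ((FF l m u r α β γ δ : ℝ) : ℂ) =
      ∑ h1 ∈ range (2 ^ (2 * l + m + 3 * u)), ∑ h2 ∈ range (2 ^ (l + 2 * m + 3 * u)),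
        ((ctri (2 ^ (l + m + 2 * u)) (2 ^ (2 * l + m + 3 * u)) h1 *
          cqua (2 ^ (l + m + 2 * u)) (2 ^ (l + 2 * m + 3 * u)) h2 *
          fej (2 ^ (l + m + 2 * u - r))
            ((h1 : ℝ) * α / 2 ^ (2 * l + m + 3 * u) + (h2 : ℝ) * β / 2 ^ (l + 2 * m + 3 * u)) : ℝ)
            : ℂ) *
        ee (2 * 2 ^ (l + m + 2 * u - r) *
            ((h1 : ℝ) * α / 2 ^ (2 * l + m + 3 * u) + (h2 : ℝ) * β / 2 ^ (l + 2 * m + 3 * u)) -
            ((h1 : ℝ) * γ / 2 ^ (l + u) + (h2 : ℝ) * δ / 2 ^ (m + u))) := by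
  have hft := FT (2 ^ (l + m + 2 * u - r)) (2 ^ (2 * l + m + 3 * u)) (2 ^ (l + 2 * m + 3 * u))
    (by positivity) (by positivity) (by positivity)
    (ctri (2 ^ (l + m + 2 * u)) (2 ^ (2 * l + m + 3 * u)))
    (cqua (2 ^ (l + m + 2 * u)) (2 ^ (l + 2 * m + 3 * u)))
    (btri (2 ^ (l + m + 2 * u)) (2 ^ (2 * l + m + 3 * u)))
    (bqua (2 ^ (l + m + 2 * u)) (2 ^ (l + 2 * m + 3 * u)))
    (btri_fourier _ _ (by positivity)) (bqua_fourier _ _ (by positivity))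
    (2 * 2 ^ (l + m + 2 * u - r)) (α : ℤ) (β : ℤ)
    ((γ : ℤ) * 2 ^ (l + m + 2 * u)) ((δ : ℤ) * 2 ^ (l + m + 2 * u))
  have hQ1 := ftb_Q1 l m u
  have hQ2 := ftb_Q2 l m u
  have hLpos : (0 : ℝ) < 2 ^ (l + m + 2 * u) := by positivity
  convert hft using 1
  · unfold FF
    push_cast
    rfl
  · refine Finset.sum_congr rfl fun h1 _ => Finset.sum_congr rfl fun h2 _ => ?_
    have e1 : (h1 : ℝ) * (((γ : ℤ) * 2 ^ (l + m + 2 * u) : ℤ) : ℝ) /
        ((2 ^ (2 * l + m + 3 * u) : ℕ) : ℝ) = (h1 : ℝ) * γ / 2 ^ (l + u) := by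
      rw [hQ1]
      push_cast
      have h5 : (0 : ℝ) < 2 ^ (l + u) := by positivity
      field_simp
    have e2 : (h2 : ℝ) * (((δ : ℤ) * 2 ^ (l + m + 2 * u) : ℤ) : ℝ) /
        ((2 ^ (l + 2 * m + 3 * u) : ℕ) : ℝ) = (h2 : ℝ) * δ / 2 ^ (m + u) := by
      rw [hQ2]
      push_cast
      have h5 : (0 : ℝ) < 2 ^ (m + u) := by positivity
      field_simp
    rw [e1, e2]
    push_cast
    rfl

end MP_5e4520_nt
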