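import Pool.Agent.Lib.MP_5e4520_nt.Bump

set_option autoImplicit false

namespace MP_5e4520_nt

open Finset

/-- Finite Fourier expansion of a smoothed hit function.  Insert `h1`, `h2`, exchange sums and use
`(1/K) ∑_{i,j<K} e((T+i-j)θ) = e(Tθ) fej K θ` (`fej_eq`). -/
theorem FT (K Q1 Q2 : ℕ) (hK : 0 < K) (hQ1 : 0 < Q1) (hQ2 : 0 < Q2) (c1 c2 : ℕ → ℝ)
    (b1 b2 : ℤ → ℝ)
    (h1 : ∀ x : ℤ, ((b1 x : ℝ) : ℂ) = ∑ h ∈ range Q1, ((c1 h : ℝ) : ℂ) * ee ((h : ℝ) * x / Q1))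
    (h2 : ∀ x : ℤ, ((b2 x : ℝ) : ℂ) = ∑ h ∈ range Q2, ((c2 h : ℝ) : ℂ) * ee ((h : ℝ) * x / Q2))
    (T α β γ δ : ℤ) :
    (((∑ i ∈ range K, ∑ j ∈ range K,
        b1 ((T + i - j) * α - γ) * b2 ((T + i - j) * β - δ)) / K : ℝ) : ℂ) =
      ∑ h ∈ range Q1, ∑ h' ∈ range Q2,
        ((c1 h * c2 h' * fej K ((h : ℝ) * α / Q1 + (h' : ℝ) * β / Q2) : ℝ) : ℂ) *
        ee (T * ((h : ℝ) * α / Q1 + (h' : ℝ) * β / Q2) - ((h : ℝ) * γ / Q1 + (h' : ℝ) * δ / Q2)) := by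
  have e1 : ∀ i ∈ range K, ∀ j ∈ range K,
      ((b1 ((T + i - j) * α - γ) * b2 ((T + i - j) * β - δ) : ℝ) : ℂ) =
      ∑ h ∈ range Q1, ∑ h' ∈ range Q2, ((c1 h : ℝ) : ℂ) * ((c2 h' : ℝ) : ℂ) *
        ee (T * ((h : ℝ) * α / Q1 + (h' : ℝ) * β / Q2) - ((h : ℝ) * γ / Q1 + (h' : ℝ) * δ / Q2)) *
        ee (((i : ℝ) - j) * ((h : ℝ) * α / Q1 + (h' : ℝ) * β / Q2)) := by
    intro i _ j _
    rw [Complex.ofReal_mul, h1, h2, sum_mul_sum]
    refine sum_congr rfl fun h _ => sum_congr rfl fun h' _ => ?_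
    rw [mul_mul_mul_comm, ← ee_add, mul_assoc _ (ee _) (ee _), ← ee_add]
    congr 2
    push_cast
    ring
  have e2 : ((∑ i ∈ range K, ∑ j ∈ range K,
        b1 ((T + i - j) * α - γ) * b2 ((T + i - j) * β - δ) : ℝ) : ℂ) =
      ∑ h ∈ range Q1, ∑ h' ∈ range Q2, ∑ i ∈ range K, ∑ j ∈ range K,
        ((c1 h : ℝ) : ℂ) * ((c2 h' : ℝ) : ℂ) *
        ee (T * ((h : ℝ) * α / Q1 + (h' : ℝ) * β / Q2) - ((h : ℝ) * γ / Q1 + (h' : ℝ) * δ / Q2)) *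
        ee (((i : ℝ) - j) * ((h : ℝ) * α / Q1 + (h' : ℝ) * β / Q2)) := by
    rw [Complex.ofReal_sum]
    calc _ = ∑ i ∈ range K, ∑ h ∈ range Q1, ∑ h' ∈ range Q2, ∑ j ∈ range K,
        ((c1 h : ℝ) : ℂ) * ((c2 h' : ℝ) : ℂ) *
        ee (T * ((h : ℝ) * α / Q1 + (h' : ℝ) * β / Q2) - ((h : ℝ) * γ / Q1 + (h' : ℝ) * δ / Q2)) *
        ee (((i : ℝ) - j) * ((h : ℝ) * α / Q1 + (h' : ℝ) * β / Q2)) := by
          refine sum_congr rfl fun i hi => ?_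
          rw [Complex.ofReal_sum, sum_congr rfl (e1 i hi), sum_comm]
          refine sum_congr rfl fun h _ => ?_
          rw [sum_comm]
      _ = _ := by
          rw [sum_comm]
          refine sum_congr rfl fun h _ => ?_
          rw [sum_comm]
  rw [Complex.ofReal_div, e2, sum_div]
  refine sum_congr rfl fun h _ => ?_
  rw [sum_div]
  refine sum_congr rfl fun h' _ => ?_
  rw [Complex.ofReal_mul, Complex.ofReal_mul, fej_eq]
  simp only [← mul_sum]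
  push_cast
  ring

private theorem fta_fej_zero (K : ℕ) (hK : 0 < K) : fej K 0 = K := by
  unfold fej
  simp only [mul_zero, ee_zero, sum_const, card_range, nsmul_eq_mul, mul_one]
  have : (K : ℝ) ≠ 0 := by positivity
  rw [Complex.norm_natCast]
  field_simp

private theorem fta_re_le (t : ℝ) : -1 ≤ (ee t).re := by
  have h1 := Complex.abs_re_le_norm (ee t)
  rw [norm_ee] at h1
  exact (abs_le.1 h1).1

/-- Real consequence: the smoothed count differs from its main term by at most the sum of the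
nonzero frequencies (`fej K 0 = K`, coefficients nonnegative). -/
theorem FT_dev (K Q1 Q2 : ℕ) (hK : 0 < K) (hQ1 : 0 < Q1) (hQ2 : 0 < Q2) (c1 c2 : ℕ → ℝ)
    (hc1 : ∀ h, 0 ≤ c1 h) (hc2 : ∀ h, 0 ≤ c2 h)
    (b1 b2 : ℤ → ℝ)
    (h1 : ∀ x : ℤ, ((b1 x : ℝ) : ℂ) = ∑ h ∈ range Q1, ((c1 h : ℝ) : ℂ) * ee ((h : ℝ) * x / Q1))
    (h2 : ∀ x : ℤ, ((b2 x : ℝ) : ℂ) = ∑ h ∈ range Q2, ((c2 h : ℝ) : ℂ) * ee ((h : ℝ) * x / Q2))
    (T α β γ δ : ℤ) :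
    K * c1 0 * c2 0 -
      (∑ h ∈ range Q1, ∑ h' ∈ range Q2, if (h ≠ 0 ∨ h' ≠ 0) then
        c1 h * c2 h' * fej K ((h : ℝ) * α / Q1 + (h' : ℝ) * β / Q2) else 0) ≤
    (∑ i ∈ range K, ∑ j ∈ range K,
        b1 ((T + i - j) * α - γ) * b2 ((T + i - j) * β - δ)) / K := by
  have key := congrArg Complex.re (FT K Q1 Q2 hK hQ1 hQ2 c1 c2 b1 b2 h1 h2 T α β γ δ)
  rw [Complex.ofReal_re] at key
  rw [key, Complex.re_sum]
  have e1 : (K : ℝ) * c1 0 * c2 0 = ∑ h ∈ range Q1, ∑ h' ∈ range Q2,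
      if (h ≠ 0 ∨ h' ≠ 0) then 0 else c1 h * c2 h' * K := by
    rw [sum_eq_single 0, sum_eq_single 0]
    · simp only [ne_eq, not_true_eq_false, or_self, if_false]
      ring
    · intro b _ hb
      rw [if_pos (Or.inr hb)]
    · intro h
      exact absurd (mem_range.2 hQ2) h
    · intro b _ hb
      refine sum_eq_zero fun c _ => ?_
      rw [if_pos (Or.inl hb)]
    · intro h
      exact absurd (mem_range.2 hQ1) h
  rw [e1, ← sum_sub_distrib]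
  refine sum_le_sum fun h _ => ?_
  rw [Complex.re_sum, ← sum_sub_distrib]
  refine sum_le_sum fun h' _ => ?_
  rw [Complex.re_ofReal_mul]
  by_cases hh : h ≠ 0 ∨ h' ≠ 0
  · rw [if_pos hh, if_pos hh]
    have h3 : 0 ≤ c1 h * c2 h' * fej K ((h : ℝ) * α / Q1 + (h' : ℝ) * β / Q2) :=
      mul_nonneg (mul_nonneg (hc1 h) (hc2 h')) (fej_nonneg _ _)
    have h4 := fta_re_le (T * ((h : ℝ) * α / Q1 + (h' : ℝ) * β / Q2) -
      ((h : ℝ) * γ / Q1 + (h' : ℝ) * δ / Q2))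
    nlinarith
  · rw [if_neg hh, if_neg hh]
    push Not at hh
    rw [hh.1, hh.2]
    simp [fta_fej_zero K hK, ee_zero]

end MP_5e4520_nt
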