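import Pool.Agent.Lib.MP_5e4520_nt.Defs

set_option autoImplicit false

namespace MP_5e4520_nt

open Finset MeasureTheory

private theorem redc_pow (n : ℕ) (hn : 20 ≤ n) : 200 * n ≤ 2 ^ (n - 1) := by
  induction n, hn using Nat.le_induction with
  | base => norm_num
  | succ n hn ih =>
    have e : n + 1 - 1 = (n - 1) + 1 := by omega
    rw [e, pow_succ]
    omega

/-- `log q ≤ 2^L` and `log log q ≥ log (2^(L-352-13ℓ) log 2) ≥ L/4` for large `L`, and
`2^(83ℓ) ≤ (2L)^83`, so it is enough that `108 (2L)^83 ≤ (L/4)^100`. -/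
theorem numq : ∃ L0 : ℕ, ∀ L ≥ L0, ∀ q : ℕ, 2 ^ (2 ^ (L - 352 - 13 * Nat.clog 2 L)) ≤ q →
    q ≤ 3 * 2 ^ (2 ^ L) →
    108 / 2 ^ (L - 83 * Nat.clog 2 L) ≤ Real.log (Real.log q) ^ 100 / Real.log q := by
  refine ⟨2 ^ 20, fun L hL q hq1 hq2 => ?_⟩
  set c := Nat.clog 2 L with hc
  have h1 : L ≤ 2 ^ c := Nat.le_pow_clog (by norm_num) L
  have h2 : 2 ^ (c - 1) < L := Nat.pow_pred_clog_lt_self (by norm_num) (by omega)
  have h3 : 20 ≤ c := by
    have : 2 ^ 20 ≤ 2 ^ c := hL.le.trans h1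
    exact (Nat.pow_le_pow_iff_right (by norm_num)).1 this
  have h4 := redc_pow c h3
  have hcL : 200 * c < L := lt_of_le_of_lt h4 h2
  have hpow : 2 ^ c ≤ 2 * L := by
    have : c = (c - 1) + 1 := by omega
    rw [this, pow_succ]; omega
  set n := L - 352 - 13 * c with hn
  have hL' : 1048576 ≤ L := by norm_num at hL; exact hL
  have hn2 : L ≤ 2 * n := by omega
  -- logarithms
  have l2a : 0.6931471803 < Real.log 2 := Real.log_two_gt_d9
  have l2b : Real.log 2 < 0.6931471808 := Real.log_two_lt_d9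
  have hq0 : (0 : ℝ) < q := by
    have : 0 < q := lt_of_lt_of_le (by positivity) hq1
    exact_mod_cast this
  have hqr1 : (2 : ℝ) ^ (2 ^ n) ≤ q := by exact_mod_cast hq1
  have hqr2 : (q : ℝ) ≤ 3 * 2 ^ (2 ^ L) := by exact_mod_cast hq2
  have lo : (2 : ℝ) ^ n * Real.log 2 ≤ Real.log q := by
    have := Real.log_le_log (by positivity) hqr1
    rw [Real.log_pow] at this
    push_cast at this
    exact this
  have hi : Real.log q ≤ 2 ^ L := by
    have := Real.log_le_log hq0 hqr2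
    rw [Real.log_mul (by norm_num) (by positivity), Real.log_pow] at this
    push_cast at this
    have l3 : Real.log 3 ≤ 2 := by
      have := Real.log_le_sub_one_of_pos (show (0 : ℝ) < 3 by norm_num)
      linarith
    have h8 : (8 : ℝ) ≤ 2 ^ L := by
      calc (8 : ℝ) = 2 ^ 3 := by norm_num
        _ ≤ 2 ^ L := pow_le_pow_right₀ (by norm_num) (by omega)
    nlinarith
  have hlogpos : 0 < Real.log q := lt_of_lt_of_le (by positivity) lo
  have ll : (L : ℝ) / 4 ≤ Real.log (Real.log q) := by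
    have h5 := Real.log_le_log (by positivity) lo
    rw [Real.log_mul (by positivity) (by positivity), Real.log_pow] at h5
    have h6 : -Real.log 2 ≤ Real.log (Real.log 2) := by
      rw [← Real.log_inv]
      apply Real.log_le_log (by norm_num)
      norm_num at l2a ⊢
      linarith
    have h7 : (L : ℝ) ≤ 2 * n := by exact_mod_cast hn2
    have h8 : (1048576 : ℝ) ≤ L := by exact_mod_cast hL'
    have h9 : (0 : ℝ) ≤ (n : ℝ) - 1 := by linarith
    have h10 : ((n : ℝ) - 1) * 0.6931471803 ≤ ((n : ℝ) - 1) * Real.log 2 :=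
      mul_le_mul_of_nonneg_left l2a.le h9
    nlinarith
  have hLpos : (0 : ℝ) < L := by
    have : 0 < L := by omega
    exact_mod_cast this
  have key : (108 : ℝ) * 2 ^ (83 * c) ≤ ((L : ℝ) / 4) ^ 100 := by
    have k1 : (2 : ℝ) ^ (83 * c) ≤ (2 * L) ^ 83 := by
      rw [mul_comm 83 c, pow_mul]
      apply pow_le_pow_left₀ (by positivity)
      exact_mod_cast hpow
    have k2 : (2 : ℝ) ^ 20 ≤ L := by
      have : 2 ^ 20 ≤ L := hL
      exact_mod_cast this
    have k3 : ((2 : ℝ) ^ 20) ^ 17 ≤ (L : ℝ) ^ 17 := pow_le_pow_left₀ (by positivity) k2 17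
    have k4 : ((L : ℝ) / 4) ^ 100 = (L : ℝ) ^ 83 * ((L : ℝ) ^ 17 / 4 ^ 100) := by
      rw [div_pow, ← mul_div_assoc, ← pow_add]
    have k5 : (108 : ℝ) * (2 * L) ^ 83 = (L : ℝ) ^ 83 * (108 * 2 ^ 83) := by
      rw [mul_pow]; ring
    calc (108 : ℝ) * 2 ^ (83 * c) ≤ 108 * (2 * L) ^ 83 := mul_le_mul_of_nonneg_left k1 (by norm_num)
      _ = (L : ℝ) ^ 83 * (108 * 2 ^ 83) := k5
      _ ≤ (L : ℝ) ^ 83 * ((L : ℝ) ^ 17 / 4 ^ 100) := by
          apply mul_le_mul_of_nonneg_left _ (by positivity)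
          rw [le_div_iff₀ (by positivity)]
          refine le_trans ?_ k3
          norm_num
      _ = _ := k4.symm
  have hlog100 : ((L : ℝ) / 4) ^ 100 ≤ Real.log (Real.log q) ^ 100 :=
    pow_le_pow_left₀ (by positivity) ll 100
  have e : (2 : ℝ) ^ (L - 83 * c) * 2 ^ (83 * c) = 2 ^ L := by
    rw [← pow_add, Nat.sub_add_cancel (by omega)]
  rw [div_le_div_iff₀ (by positivity) hlogpos]
  calc (108 : ℝ) * Real.log q ≤ 108 * 2 ^ L := mul_le_mul_of_nonneg_left hi (by norm_num)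
    _ = (108 * 2 ^ (83 * c)) * 2 ^ (L - 83 * c) := by rw [← e]; ring
    _ ≤ Real.log (Real.log q) ^ 100 * 2 ^ (L - 83 * c) :=
        mul_le_mul_of_nonneg_right (key.trans hlog100) (by positivity)

end MP_5e4520_nt
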