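import Pool.Agent.Lib.MP_5e4520_nt.RedB
import Pool.Agent.Lib.MP_5e4520_nt.RedC

set_option autoImplicit false

namespace MP_5e4520_nt

open Finset MeasureTheory

/-- points of the unit square with a bad shift -/
def Bad01 : Set (ℝ × ℝ) :=
  {x | (0 ≤ x.1 ∧ x.1 < 1) ∧ (0 ≤ x.2 ∧ x.2 < 1) ∧
    ∃ v : ℝ × ℝ, (0 ≤ v.1 ∧ v.1 < 1) ∧ (0 ≤ v.2 ∧ v.2 < 1) ∧ ∃ N : ℕ, ∀ q : ℕ, N ≤ q →
      Real.log (Real.log q) ^ 100 < (q : ℝ) * Real.log q * nd (q * x.1 - v.1) * nd (q * x.2 - v.2)}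

private theorem redd_pow (n : ℕ) (hn : 20 ≤ n) : 200 * n ≤ 2 ^ (n - 1) := by
  induction n, hn using Nat.le_induction with
  | base => norm_num
  | succ n hn ih =>
    have e : n + 1 - 1 = (n - 1) + 1 := by omega
    rw [e, pow_succ]
    omega

private theorem redd_size (L : ℕ) (hL : 2 ^ 20 ≤ L) :
    L ≤ 2 ^ (L - 352 - 13 * Nat.clog 2 L) := by
  set c := Nat.clog 2 L with hc
  have h1 : L ≤ 2 ^ c := Nat.le_pow_clog (by norm_num) L
  have h2 : 2 ^ (c - 1) < L := Nat.pow_pred_clog_lt_self (by norm_num) (by omega)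
  have h3 : 20 ≤ c := by
    have : 2 ^ 20 ≤ 2 ^ c := hL.trans h1
    exact (Nat.pow_le_pow_iff_right (by norm_num)).1 this
  have h4 := redd_pow c h3
  have hcL : 200 * c < L := lt_of_le_of_lt h4 h2
  set n := L - 352 - 13 * c with hn
  have hL' : 1048576 ≤ L := by norm_num at hL; exact hL
  have hn2 : L ≤ 2 * n := by omega
  have h5 : n - 1 < 2 ^ (n - 1) := Nat.lt_two_pow_self
  have h6 : 2 ^ n = 2 ^ (n - 1) * 2 := by
    rw [← pow_succ]; congr 1; omega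
  omega

/-- `Bad01 ⊆ ⋃_N ⋂_{L ≥ N} badset(L)` by `numq` (divide by `log q > 0`), and each
`⋂_{L≥N} badset(L)` has measure `≤ 1/2^(clog2 L) ≤ 1/L` for all large `L` (`bad_small`). -/
theorem Bad01_null
    (core : ∃ L0 : ℕ, ∀ L ≥ L0, ∀ S : Finset Pt,
      ¬ Sys (4 * 2 ^ L) (L - 83 * Nat.clog 2 L) (2 ^ Nat.clog 2 L)
        (2 ^ (L - 352 - 13 * Nat.clog 2 L)) (2 ^ L) S) :
    volume Bad01 = 0 := by
  obtain ⟨L0, hcore⟩ := core
  obtain ⟨L1, hnum⟩ := numq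
  set B : ℕ → Set (ℝ × ℝ) := fun L => badset (L - 83 * Nat.clog 2 L)
    (2 ^ (L - 352 - 13 * Nat.clog 2 L)) (2 ^ L) with hB
  have hvol : ∀ L, max L0 (2 ^ 20) ≤ L → volume (B L) ≤ ENNReal.ofReal (1 / L) := by
    intro L hL
    have hL0 : L0 ≤ L := (le_max_left _ _).trans hL
    have hL2 : 2 ^ 20 ≤ L := (le_max_right _ _).trans hL
    refine (bad_small (4 * 2 ^ L) (L - 83 * Nat.clog 2 L) (2 ^ Nat.clog 2 L)
      (2 ^ (L - 352 - 13 * Nat.clog 2 L)) (2 ^ L) ?_ (by omega) (Nat.one_le_two_pow) (hcore L hL0)).trans ?_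
    · exact (Nat.sub_le _ _).trans (redd_size L hL2)
    · apply ENNReal.ofReal_le_ofReal
      have hLpos : (0 : ℝ) < L := by
        have : 0 < L := lt_of_lt_of_le (by norm_num) hL2
        exact_mod_cast this
      apply one_div_le_one_div_of_le hLpos
      exact_mod_cast Nat.le_pow_clog (by norm_num) L
  have hsub : Bad01 ⊆ ⋃ N : ℕ, {x | ∀ L, N ≤ L → x ∈ B L} := by
    rintro x ⟨hx1, hx2, v, hv1, hv2, N, hN⟩
    rw [Set.mem_iUnion]
    refine ⟨max (max N L1) (2 ^ 20), fun L hL => ?_⟩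
    have hLN : N ≤ L := (le_max_left _ _).trans ((le_max_left _ _).trans hL)
    have hLL1 : L1 ≤ L := (le_max_right _ _).trans ((le_max_left _ _).trans hL)
    have hL2 : 2 ^ 20 ≤ L := (le_max_right _ _).trans hL
    refine ⟨hx1, hx2, v, hv1, hv2, fun q hq1 hq2 => ?_⟩
    have hs := redd_size L hL2
    have hlt : (2 ^ (L - 352 - 13 * Nat.clog 2 L) : ℕ) < 2 ^ (2 ^ (L - 352 - 13 * Nat.clog 2 L)) :=
      Nat.lt_two_pow_self
    have hNq : N ≤ q := by omega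
    have hq20 : 2 ^ 20 ≤ q := by omega
    have hqr : (2 : ℝ) ^ 20 ≤ q := by exact_mod_cast hq20
    have hq1' : (1 : ℝ) < q := lt_of_lt_of_le (by norm_num) hqr
    have hlog : 0 < Real.log q := Real.log_pos hq1'
    have h1 := hnum L hLL1 q hq1 hq2
    have h2 := hN q hNq
    have e : (q : ℝ) * nd (q * x.1 - v.1) * nd (q * x.2 - v.2) =
        ((q : ℝ) * Real.log q * nd (q * x.1 - v.1) * nd (q * x.2 - v.2)) / Real.log q := by
      field_simp
    rw [e]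
    exact lt_of_le_of_lt h1 (div_lt_div_of_pos_right h2 hlog)
  refine measure_mono_null hsub (measure_iUnion_null fun N => ?_)
  have hle : ∀ L, max N (max L0 (2 ^ 20)) ≤ L →
      volume {x : ℝ × ℝ | ∀ L, N ≤ L → x ∈ B L} ≤ ENNReal.ofReal (1 / L) := by
    intro L hL
    refine (measure_mono ?_).trans (hvol L ((le_max_right _ _).trans hL))
    intro x hx
    exact hx L ((le_max_left _ _).trans hL)
  have hlim : Filter.Tendsto (fun L : ℕ => ENNReal.ofReal (1 / (L : ℝ))) Filter.atTop (nhds 0) := by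
    have := ENNReal.tendsto_ofReal tendsto_one_div_atTop_nhds_zero_nat
    rwa [ENNReal.ofReal_zero] at this
  exact le_antisymm (ge_of_tendsto hlim (Filter.eventually_atTop.2 ⟨_, hle⟩)) (by simp)

/-- Reduce `x` and the shift modulo `1` (`nd_add_int`): the exceptional set is contained in the union of the
integer translates of `Bad01`. -/
theorem final_of_null (h : volume Bad01 = 0) :
    ∀ᵐ x : ℝ × ℝ, ∀ γ : ℝ × ℝ, ∀ N : ℕ, ∃ q : ℕ, N ≤ q ∧
      (q : ℝ) * Real.log (q : ℝ)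
        * |(q : ℝ) * x.1 - γ.1 - ((round ((q : ℝ) * x.1 - γ.1) : ℤ) : ℝ)|
        * |(q : ℝ) * x.2 - γ.2 - ((round ((q : ℝ) * x.2 - γ.2) : ℤ) : ℝ)| ≤
        Real.log (Real.log (q : ℝ)) ^ 100 := by
  rw [ae_iff]
  have hsub : {x : ℝ × ℝ | ¬ ∀ γ : ℝ × ℝ, ∀ N : ℕ, ∃ q : ℕ, N ≤ q ∧
      (q : ℝ) * Real.log (q : ℝ)
        * |(q : ℝ) * x.1 - γ.1 - ((round ((q : ℝ) * x.1 - γ.1) : ℤ) : ℝ)|
        * |(q : ℝ) * x.2 - γ.2 - ((round ((q : ℝ) * x.2 - γ.2) : ℤ) : ℝ)| ≤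
        Real.log (Real.log (q : ℝ)) ^ 100} ⊆
      ⋃ z : ℤ × ℤ, (fun x : ℝ × ℝ => x + ((z.1 : ℝ), (z.2 : ℝ))) ⁻¹' Bad01 := by
    intro x hx
    rw [Set.mem_ofPred_eq] at hx
    push Not at hx
    obtain ⟨γ, N, hN⟩ := hx
    rw [Set.mem_iUnion]
    refine ⟨(-⌊x.1⌋, -⌊x.2⌋), ?_⟩
    have e1 : x.1 + ((-⌊x.1⌋ : ℤ) : ℝ) = Int.fract x.1 := by
      push_cast; rw [Int.fract]; ring
    have e2 : x.2 + ((-⌊x.2⌋ : ℤ) : ℝ) = Int.fract x.2 := by
      push_cast; rw [Int.fract]; ring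
    rw [Set.mem_preimage]
    refine ⟨?_, ?_, (Int.fract γ.1, Int.fract γ.2), ⟨Int.fract_nonneg _, Int.fract_lt_one _⟩,
      ⟨Int.fract_nonneg _, Int.fract_lt_one _⟩, N, fun q hq => ?_⟩
    · simp only [Prod.fst_add, e1]
      exact ⟨Int.fract_nonneg _, Int.fract_lt_one _⟩
    · simp only [Prod.snd_add, e2]
      exact ⟨Int.fract_nonneg _, Int.fract_lt_one _⟩
    · have hmain := hN q hq
      have n1 : nd ((q : ℝ) * Int.fract x.1 - Int.fract γ.1) = nd ((q : ℝ) * x.1 - γ.1) := by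
        have : (q : ℝ) * x.1 - γ.1 = ((q : ℝ) * Int.fract x.1 - Int.fract γ.1) +
            ((q * ⌊x.1⌋ - ⌊γ.1⌋ : ℤ) : ℝ) := by
          push_cast
          simp only [Int.fract]; ring
        rw [this, nd_add_int]
      have n2 : nd ((q : ℝ) * Int.fract x.2 - Int.fract γ.2) = nd ((q : ℝ) * x.2 - γ.2) := by
        have : (q : ℝ) * x.2 - γ.2 = ((q : ℝ) * Int.fract x.2 - Int.fract γ.2) +
            ((q * ⌊x.2⌋ - ⌊γ.2⌋ : ℤ) : ℝ) := by
          push_cast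
          simp only [Int.fract]; ring
        rw [this, nd_add_int]
      simp only [Prod.fst_add, Prod.snd_add, e1, e2]
      rw [n1, n2]
      exact hmain
  refine measure_mono_null hsub (measure_iUnion_null fun z => ?_)
  rw [measure_preimage_add_right]
  exact h

end MP_5e4520_nt
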