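import Pool.Agent.Lib.MP_5e4520_nt.Core
import Pool.Agent.Lib.MP_5e4520_nt.RedD

set_option autoImplicit false

namespace MP_5e4520_nt

open MeasureTheory

theorem final :
    ∀ᵐ x : ℝ × ℝ, ∀ γ : ℝ × ℝ, ∀ N : ℕ, ∃ q : ℕ, N ≤ q ∧
      (q : ℝ) * Real.log (q : ℝ)
        * |(q : ℝ) * x.1 - γ.1 - ((round ((q : ℝ) * x.1 - γ.1) : ℤ) : ℝ)|
        * |(q : ℝ) * x.2 - γ.2 - ((round ((q : ℝ) * x.2 - γ.2) : ℤ) : ℝ)| ≤
        Real.log (Real.log (q : ℝ)) ^ 100 :=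
  final_of_null (Bad01_null core)

end MP_5e4520_nt
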