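import Pool.Agent.Lib.MP_5e4520_nt.Defs

set_option autoImplicit false

namespace MP_5e4520_nt

open Finset

variable {ι : Type*}

open Classical in
/-- averages over `S` of functions of `B` -/
theorem pins_avg {S : Finset ι} (n : ℕ) (B : ι → ℕ) (hB : ∀ p ∈ S, B p < n) (g : ℕ → ℝ) :
    (∑ p ∈ S, g (B p)) / S.card =
      ∑ b ∈ range n, ((S.filter (fun x => B x = b)).card : ℝ) / S.card * g b := by
  rw [← sum_fiberwise_of_maps_to (s := S) (t := range n) (g := B)
    (fun x hx => mem_range.2 (hB x hx)), sum_div]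
  apply sum_congr rfl
  intro b _
  have h1 : ∀ p ∈ S.filter (fun x => B x = b), g (B p) = g b := by
    intro p hp
    rw [(mem_filter.1 hp).2]
  rw [sum_congr rfl h1, sum_const, nsmul_eq_mul]
  ring

open Classical in
/-- the Hellinger distance is bounded by the entropy defect -/
theorem pins_hell {S : Finset ι} (hS : S.Nonempty) (n : ℕ) (B : ι → ℕ) (hB : ∀ p ∈ S, B p < n) :
    2 * (1 - ∑ b ∈ range n,
      Real.sqrt ((1 / n : ℝ) * (((S.filter (fun x => B x = b)).card : ℝ) / S.card))) ≤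
      Real.log 2 * (Real.logb 2 n - ent S B) := by
  have hS0 : (0 : ℝ) < S.card := by exact_mod_cast hS.card_pos
  have hn0 : (0 : ℝ) < n := by
    obtain ⟨p, hp⟩ := hS
    exact_mod_cast lt_of_le_of_lt (Nat.zero_le _) (hB p hp)
  have hc : ∀ p ∈ S, (0 : ℝ) < ((S.filter (fun x => B x = B p)).card : ℝ) := by
    intro p hp
    have h1 : p ∈ S.filter (fun x => B x = B p) := mem_filter.2 ⟨hp, rfl⟩
    exact_mod_cast card_pos.2 ⟨p, h1⟩
  have h1 := pins_avg n B hB (fun b => Real.sqrt ((S.card : ℝ) / (n *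
    ((S.filter (fun x => B x = b)).card : ℝ))))
  have h2 : ∀ b ∈ range n, ((S.filter (fun x => B x = b)).card : ℝ) / S.card *
      Real.sqrt ((S.card : ℝ) / (n * ((S.filter (fun x => B x = b)).card : ℝ))) =
      Real.sqrt ((1 / n : ℝ) * (((S.filter (fun x => B x = b)).card : ℝ) / S.card)) := by
    intro b _
    set c : ℝ := ((S.filter (fun x => B x = b)).card : ℝ) with hcdef
    have hc0 : 0 ≤ c := Nat.cast_nonneg _
    rcases hc0.eq_or_lt with h | h
    · rw [← h]
      simp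
    · rw [← Real.sqrt_sq (div_nonneg hc0 hS0.le), ← Real.sqrt_mul (by positivity)]
      rw [Real.sqrt_sq (div_nonneg hc0 hS0.le)]
      congr 1
      field_simp
  rw [sum_congr rfl h2] at h1
  rw [← h1]
  have h3 : ∀ p ∈ S, Real.log (Real.sqrt ((S.card : ℝ) / (n *
      ((S.filter (fun x => B x = B p)).card : ℝ)))) ≤
      Real.sqrt ((S.card : ℝ) / (n * ((S.filter (fun x => B x = B p)).card : ℝ))) - 1 :=
    fun p hp => Real.log_le_sub_one_of_pos
      (Real.sqrt_pos.2 (div_pos hS0 (mul_pos hn0 (hc p hp))))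
  have h4 := sum_le_sum h3
  rw [sum_sub_distrib, sum_const, nsmul_eq_mul, mul_one] at h4
  have hl : Real.log 2 ≠ 0 := (Real.log_pos (by norm_num)).ne'
  have h5 : ∑ p ∈ S, Real.log (Real.sqrt ((S.card : ℝ) / (n *
      ((S.filter (fun x => B x = B p)).card : ℝ)))) =
      Real.log 2 * (ent S B - Real.logb 2 n) * S.card / 2 := by
    have h6 : ∀ p ∈ S, Real.log (Real.sqrt ((S.card : ℝ) / (n *
        ((S.filter (fun x => B x = B p)).card : ℝ)))) =
        Real.log 2 / 2 * (Real.logb 2 ((S.card : ℝ) / ((S.filter (fun x => B x = B p)).card : ℝ)) -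
          Real.logb 2 n) := by
      intro p hp
      have e1 : Real.logb 2 ((S.card : ℝ) / ((S.filter (fun x => B x = B p)).card : ℝ)) =
        Real.log ((S.card : ℝ) / ((S.filter (fun x => B x = B p)).card : ℝ)) / Real.log 2 := rfl
      have e2 : Real.logb 2 (n : ℝ) = Real.log n / Real.log 2 := rfl
      rw [Real.log_sqrt (by positivity), e1, e2, Real.log_div hS0.ne' (mul_pos hn0 (hc p hp)).ne',
        Real.log_mul hn0.ne' (hc p hp).ne', Real.log_div hS0.ne' (hc p hp).ne']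
      field_simp
      ring
    rw [sum_congr rfl h6, ← mul_sum, sum_sub_distrib, sum_const, nsmul_eq_mul]
    have h7 : ∑ p ∈ S, Real.logb 2 ((S.card : ℝ) /
        ((S.filter (fun x => B x = B p)).card : ℝ)) = ent S B * S.card := by
      unfold ent
      rw [div_mul_cancel₀ _ hS0.ne']
      refine sum_congr rfl fun p _ => ?_
      congr!
    rw [h7]
    ring
  rw [h5] at h4
  set X : ℝ := ∑ p ∈ S, Real.sqrt ((S.card : ℝ) / (n *
      ((S.filter (fun x => B x = B p)).card : ℝ))) with hX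
  have h8 : (2 * (1 - X / S.card)) * S.card ≤ (Real.log 2 * (Real.logb 2 n - ent S B)) * S.card := by
    have h9 : (2 * (1 - X / S.card)) * S.card = 2 * (S.card - X) := by
      field_simp
    rw [h9]
    linarith
  exact le_of_mul_le_mul_right h8 hS0

/-- Weak Pinsker.  `μ` = law of `B` under the uniform law on `S`, `U` = uniform law on `[n]`.
`|E_μ g - E_U g| ≤ τ * TV(μ,U)` for `0 ≤ g ≤ τ` where `TV = (1/2)∑|μ(b) - 1/n|`, and
`TV² ≤ ∑ (√μ(b) - √(1/n))² = 2 - 2 ∑ √(μ(b)/n) ≤ -2 log ∑_b μ(b) √(1/(n μ(b)))... `: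
precisely (Cauchy-Schwarz) `(∑|μ-U|)² ≤ ∑(√μ-√U)² ∑(√μ+√U)² ≤ 4 ∑(√μ-√U)²`, so
`TV² ≤ ∑(√μ-√U)² = 2(1 - ∑ √(μ U))`, and by `log x ≤ x - 1` with
`x = √(U(b)/μ(b))`: `-∑ μ(b) log √(U/μ) ≥ ∑ μ (1 - √(U/μ)) = 1 - ∑ √(μU)`; the left side is
`(1/2) KL`, `KL = ∑ μ log (μ/U) = log 2 * (log2 n - ent S B)`.  Hence
`TV² ≤ KL ≤ log2 n - ent S B`. -/
theorem pinsker {S : Finset ι} (hS : S.Nonempty) (n : ℕ) (B : ι → ℕ) (hB : ∀ p ∈ S, B p < n)
    (g : ℕ → ℝ) (τ : ℝ) (hτ : 0 ≤ τ) (h0 : ∀ b, 0 ≤ g b) (h1 : ∀ b, g b ≤ τ) :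
    (∑ b ∈ range n, g b) / n - τ * Real.sqrt (Real.logb 2 n - ent S B) ≤
      (∑ p ∈ S, g (B p)) / S.card := by
  classical
  have hS0 : (0 : ℝ) < S.card := by exact_mod_cast hS.card_pos
  have hn0 : (0 : ℝ) < n := by
    obtain ⟨p, hp⟩ := hS
    exact_mod_cast lt_of_le_of_lt (Nat.zero_le _) (hB p hp)
  set u : ℝ := 1 / n with hu
  set m : ℕ → ℝ := fun b => ((S.filter (fun x => B x = b)).card : ℝ) / S.card with hm
  have hu0 : 0 ≤ u := by positivity
  have hm0 : ∀ b, 0 ≤ m b := fun b => by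
    simp only [hm]
    positivity
  have hH : 2 * (1 - ∑ b ∈ range n, Real.sqrt (u * m b)) ≤
      Real.log 2 * (Real.logb 2 n - ent S B) := by
    convert pins_hell hS n B hB
  have hms : ∑ b ∈ range n, m b = 1 := by
    have h2 := pins_avg n B hB (fun _ => 1)
    simp only [sum_const, nsmul_eq_mul, mul_one] at h2
    rw [div_self hS0.ne'] at h2
    rw [h2]
  have hus : ∑ b ∈ range n, u = 1 := by
    rw [sum_const, nsmul_eq_mul, card_range, hu]
    field_simp
  have hg : (∑ p ∈ S, g (B p)) / S.card = ∑ b ∈ range n, m b * g b := by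
    rw [pins_avg n B hB g]
  -- the Hellinger distance
  have hHd : ∑ b ∈ range n, (Real.sqrt u - Real.sqrt (m b)) ^ 2 =
      2 * (1 - ∑ b ∈ range n, Real.sqrt (u * m b)) := by
    have h2 : ∀ b ∈ range n, (Real.sqrt u - Real.sqrt (m b)) ^ 2 =
        u + m b - 2 * Real.sqrt (u * m b) := by
      intro b _
      rw [sub_sq, Real.sq_sqrt hu0, Real.sq_sqrt (hm0 b), Real.sqrt_mul hu0]
      ring
    rw [sum_congr rfl h2, sum_sub_distrib, sum_add_distrib, hus, hms, ← mul_sum]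
    ring
  have hHs : ∑ b ∈ range n, (Real.sqrt u + Real.sqrt (m b)) ^ 2 ≤ 4 := by
    have h2 : ∀ b ∈ range n, (Real.sqrt u + Real.sqrt (m b)) ^ 2 ≤ 2 * u + 2 * m b := by
      intro b _
      have e1 := Real.sq_sqrt hu0
      have e2 := Real.sq_sqrt (hm0 b)
      nlinarith [sq_nonneg (Real.sqrt u - Real.sqrt (m b))]
    refine (sum_le_sum h2).trans ?_
    rw [sum_add_distrib, ← mul_sum, ← mul_sum, hus, hms]
    norm_num
  -- Cauchy-Schwarz
  have hCS : (∑ b ∈ range n, |u - m b|) ^ 2 ≤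
      4 * (Real.logb 2 n - ent S B) := by
    have h2 : ∀ b ∈ range n, |u - m b| =
        |Real.sqrt u - Real.sqrt (m b)| * (Real.sqrt u + Real.sqrt (m b)) := by
      intro b _
      have h3 : 0 ≤ Real.sqrt u + Real.sqrt (m b) := by positivity
      rw [← abs_of_nonneg h3, ← abs_mul]
      congr 1
      have e1 := Real.sq_sqrt hu0
      have e2 := Real.sq_sqrt (hm0 b)
      nlinarith
    rw [sum_congr rfl h2]
    have h3 := sum_mul_sq_le_sq_mul_sq (range n) (fun b => |Real.sqrt u - Real.sqrt (m b)|)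
      (fun b => Real.sqrt u + Real.sqrt (m b))
    simp only [sq_abs] at h3
    rw [hHd] at h3
    have h4 : 0 ≤ 2 * (1 - ∑ b ∈ range n, Real.sqrt (u * m b)) := by
      rw [← hHd]
      exact sum_nonneg fun b _ => sq_nonneg _
    have hl0 : 0 < Real.log 2 := Real.log_pos (by norm_num)
    have hl1 : Real.log 2 ≤ 1 := by
      have := Real.log_two_lt_d9
      linarith
    have h5 : 0 ≤ Real.logb 2 n - ent S B := by
      by_contra h6
      push Not at h6
      have := mul_neg_of_pos_of_neg hl0 h6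
      linarith
    have h7 : 2 * (1 - ∑ b ∈ range n, Real.sqrt (u * m b)) ≤ Real.logb 2 n - ent S B := by
      refine hH.trans ?_
      calc _ ≤ 1 * (Real.logb 2 n - ent S B) := mul_le_mul_of_nonneg_right hl1 h5
        _ = _ := one_mul _
    refine h3.trans ?_
    calc _ ≤ (2 * (1 - ∑ b ∈ range n, Real.sqrt (u * m b))) * 4 :=
          mul_le_mul_of_nonneg_left hHs h4
      _ ≤ (Real.logb 2 n - ent S B) * 4 := mul_le_mul_of_nonneg_right h7 (by norm_num)
      _ = _ := by ring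
  have hTV : ∑ b ∈ range n, |u - m b| ≤ 2 * Real.sqrt (Real.logb 2 n - ent S B) := by
    have h2 : ∑ b ∈ range n, |u - m b| ≤ Real.sqrt (4 * (Real.logb 2 n - ent S B)) :=
      Real.le_sqrt_of_sq_le hCS
    rw [Real.sqrt_mul (by norm_num)] at h2
    have h3 : Real.sqrt 4 = 2 := by
      rw [show (4 : ℝ) = 2 ^ 2 by norm_num]
      exact Real.sqrt_sq (by norm_num)
    rw [h3] at h2
    exact h2
  rw [hg]
  have h2 : (∑ b ∈ range n, g b) / n - ∑ b ∈ range n, m b * g b =
      ∑ b ∈ range n, (u - m b) * (g b - τ / 2) := by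
    have h3 : ∑ b ∈ range n, (u - m b) * (g b - τ / 2) =
        ∑ b ∈ range n, u * g b - ∑ b ∈ range n, m b * g b -
          (∑ b ∈ range n, u - ∑ b ∈ range n, m b) * (τ / 2) := by
      rw [← sum_sub_distrib, ← sum_sub_distrib, sum_mul, ← sum_sub_distrib]
      apply sum_congr rfl
      intro b _
      ring
    rw [h3, hus, hms, ← mul_sum, hu]
    ring
  have h3 : ∑ b ∈ range n, (u - m b) * (g b - τ / 2) ≤
      ∑ b ∈ range n, |u - m b| * (τ / 2) := by
    apply sum_le_sum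
    intro b _
    calc (u - m b) * (g b - τ / 2) ≤ |(u - m b) * (g b - τ / 2)| := le_abs_self _
      _ = |u - m b| * |g b - τ / 2| := abs_mul _ _
      _ ≤ |u - m b| * (τ / 2) := by
        apply mul_le_mul_of_nonneg_left _ (abs_nonneg _)
        rw [abs_le]
        constructor
        · linarith [h0 b]
        · linarith [h1 b]
  rw [← sum_mul] at h3
  have h4 : (∑ b ∈ range n, |u - m b|) * (τ / 2) ≤
      2 * Real.sqrt (Real.logb 2 n - ent S B) * (τ / 2) :=
    mul_le_mul_of_nonneg_right hTV (by linarith)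
  linarith

/-- Truncation: apply `pinsker` to `min f τ`, `τ = 2 g2/g1`, and use `min f τ ≥ f - f²/τ`. -/
theorem growabs {S : Finset ι} (hS : S.Nonempty) (n : ℕ) (B : ι → ℕ) (hB : ∀ p ∈ S, B p < n)
    (f : ℕ → ℝ) (h0 : ∀ b, 0 ≤ f b) (g1 g2 : ℝ) (hg1 : 0 < g1) (hg2 : 0 < g2)
    (h1 : g1 ≤ (∑ b ∈ range n, f b) / n) (h2 : (∑ b ∈ range n, f b ^ 2) / n ≤ g2) :
    g1 / 2 - (2 * g2 / g1) * Real.sqrt (Real.logb 2 n - ent S B) ≤
      (∑ p ∈ S, f (B p)) / S.card := by
  have hS0 : (0 : ℝ) < S.card := by exact_mod_cast hS.card_pos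
  have hn0 : (0 : ℝ) < n := by
    obtain ⟨p, hp⟩ := hS
    exact_mod_cast lt_of_le_of_lt (Nat.zero_le _) (hB p hp)
  set τ : ℝ := 2 * g2 / g1 with hτ
  have hτ0 : 0 < τ := by positivity
  have h3 := pinsker hS n B hB (fun b => min (f b) τ) τ hτ0.le
    (fun b => le_min (h0 b) hτ0.le) (fun b => min_le_right _ _)
  have h4 : (∑ p ∈ S, min (f (B p)) τ) / S.card ≤ (∑ p ∈ S, f (B p)) / S.card := by
    apply div_le_div_of_nonneg_right _ hS0.le
    exact sum_le_sum fun p _ => min_le_left _ _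
  have h5 : ∀ b ∈ range n, f b - f b ^ 2 / τ ≤ min (f b) τ := by
    intro b _
    rcases le_total (f b) τ with h | h
    · rw [min_eq_left h]
      have : 0 ≤ f b ^ 2 / τ := by positivity
      linarith
    · rw [min_eq_right h]
      have : f b ≤ f b ^ 2 / τ := by
        rw [le_div_iff₀ hτ0, pow_two]
        exact mul_le_mul_of_nonneg_left h (h0 b)
      linarith
  have h6 : (∑ b ∈ range n, f b) / n - (∑ b ∈ range n, f b ^ 2) / n / τ ≤
      (∑ b ∈ range n, min (f b) τ) / n := by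
    have h7 := sum_le_sum h5
    rw [sum_sub_distrib, ← sum_div] at h7
    have h8 : (∑ b ∈ range n, f b) / n - (∑ b ∈ range n, f b ^ 2) / n / τ =
        (∑ b ∈ range n, f b - (∑ b ∈ range n, f b ^ 2) / τ) / n := by
      field_simp
    rw [h8]
    exact div_le_div_of_nonneg_right h7 hn0.le
  have h7 : (∑ b ∈ range n, f b ^ 2) / n / τ ≤ g1 / 2 := by
    rw [div_le_iff₀ hτ0, hτ]
    refine h2.trans (le_of_eq ?_)
    field_simp
  linarith

end MP_5e4520_nt
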