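import Pool.Agent.Lib.MP_5e4520_nt.USet
import Pool.Agent.Lib.MP_5e4520_nt.LGeo
import Pool.Agent.Lib.MP_5e4520_nt.Pins
import Pool.Agent.Lib.MP_5e4520_nt.EEPoly

set_option autoImplicit false

namespace MP_5e4520_nt

open Finset

/-- concavity of the square root -/
private theorem grow_jensen {ι : Type*} {S : Finset ι} (hS : S.Nonempty) (f : ι → ℝ)
    (hf : ∀ x ∈ S, 0 ≤ f x) :
    (∑ x ∈ S, Real.sqrt (f x)) / S.card ≤ Real.sqrt ((∑ x ∈ S, f x) / S.card) := by
  have hc : (0 : ℝ) < S.card := by exact_mod_cast hS.card_pos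
  apply Real.le_sqrt_of_sq_le
  have h1 : (∑ x ∈ S, Real.sqrt (f x)) ^ 2 ≤ S.card * ∑ x ∈ S, (Real.sqrt (f x)) ^ 2 :=
    sq_sum_le_card_mul_sum_sq
  have h2 : ∑ x ∈ S, (Real.sqrt (f x)) ^ 2 = ∑ x ∈ S, f x :=
    Finset.sum_congr rfl fun x hx => Real.sq_sqrt (hf x hx)
  rw [h2] at h1
  rw [div_pow, div_le_div_iff₀ (by positivity) hc]
  calc (∑ x ∈ S, Real.sqrt (f x)) ^ 2 * S.card ≤ (S.card * ∑ x ∈ S, f x) * S.card := by gcongr
    _ = (∑ x ∈ S, f x) * (S.card : ℝ) ^ 2 := by ring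

open Classical in
/-- the average of the averages over the fibers is the average -/
private theorem grow_avg {ι κ : Type*} (S : Finset ι) (h : ι → κ) (φ : ι → ℝ) :
    ∑ x ∈ S, (∑ y ∈ S.filter (fun y => h y = h x), φ y) /
      ((S.filter (fun y => h y = h x)).card : ℝ) = ∑ y ∈ S, φ y := by
  have h1 : ∀ x ∈ S, (∑ y ∈ S.filter (fun y => h y = h x), φ y) /
      ((S.filter (fun y => h y = h x)).card : ℝ) =
      ∑ y ∈ S, if h y = h x then φ y / ((S.filter (fun z => h z = h y)).card : ℝ) else 0 := by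
    intro x _
    rw [Finset.sum_div, Finset.sum_filter]
    refine Finset.sum_congr rfl fun y _ => ?_
    by_cases hyx : h y = h x
    · rw [if_pos hyx, if_pos hyx, hyx]
    · rw [if_neg hyx, if_neg hyx]
  rw [Finset.sum_congr rfl h1, Finset.sum_comm]
  refine Finset.sum_congr rfl fun y hy => ?_
  have h2 : ∀ x ∈ S, (if h y = h x then φ y / ((S.filter (fun z => h z = h y)).card : ℝ) else 0) =
      if h x = h y then φ y / ((S.filter (fun z => h z = h y)).card : ℝ) else 0 := by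
    intro x _
    by_cases hyx : h y = h x
    · rw [if_pos hyx, if_pos hyx.symm]
    · rw [if_neg hyx, if_neg fun e => hyx e.symm]
  rw [Finset.sum_congr rfl h2, ← Finset.sum_filter, Finset.sum_const, nsmul_eq_mul]
  have h3 : ((S.filter (fun z => h z = h y)).card : ℝ) ≠ 0 := by
    have : (S.filter (fun z => h z = h y)).Nonempty := ⟨y, Finset.mem_filter.2 ⟨hy, rfl⟩⟩
    exact_mod_cast this.card_pos.ne'
  field_simp

open Classical in
/-- abstract averaging argument -/
private theorem grow_abs {ι κ : Type*} {S : Finset ι} (hS : S.Nonempty) (h : ι → κ) (B : ι → ℕ)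
    (t : ℕ) (hB : ∀ x ∈ S, B x < 2 ^ t) (φ : ι → ℝ) (hφ : ∀ x ∈ S, 0 ≤ φ x) (P : ι → Prop)
    [DecidablePred P] (g τ : ℝ) (hτ : 0 ≤ τ)
    (key : ∀ x ∈ S, P x → ∀ T : Finset ι, (∀ y, y ∈ T ↔ y ∈ S ∧ h y = h x) →
      g - τ * Real.sqrt (t - ent T B) ≤ (∑ y ∈ T, φ y) / T.card) :
    g * (((S.filter P).card : ℝ) / S.card) -
      τ * Real.sqrt (t - (ent S (fun x => (B x, h x)) - ent S h)) ≤ (∑ x ∈ S, φ x) / S.card := by
  have hc : (0 : ℝ) < S.card := by exact_mod_cast hS.card_pos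
  have hpos : ∀ x ∈ S, 0 ≤ t - ent (S.filter (fun y => h y = h x)) B := by
    intro x hx
    have hne : (S.filter (fun y => h y = h x)).Nonempty := ⟨x, Finset.mem_filter.2 ⟨hx, rfl⟩⟩
    have h1 := ent_le_of_card hne B (range (2 ^ t))
      (fun p hp => Finset.mem_range.2 (hB p (Finset.mem_filter.1 hp).1))
    rw [Finset.card_range] at h1
    have h2 : Real.logb 2 ((2 ^ t : ℕ) : ℝ) = t := by
      push_cast
      rw [Real.logb_pow, Real.logb_self_eq_one (by norm_num), mul_one]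
    rw [h2] at h1
    linarith
  have h1 : ∀ x ∈ S, (if P x then g else 0) -
      τ * Real.sqrt (t - ent (S.filter (fun y => h y = h x)) B) ≤
      (∑ y ∈ S.filter (fun y => h y = h x), φ y) /
      ((S.filter (fun y => h y = h x)).card : ℝ) := by
    intro x hx
    by_cases hPx : P x
    · rw [if_pos hPx]
      exact key x hx hPx _ fun y => Finset.mem_filter
    · rw [if_neg hPx]
      have h2 : 0 ≤ τ * Real.sqrt (t - ent (S.filter (fun y => h y = h x)) B) := by positivity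
      have h3 : 0 ≤ (∑ y ∈ S.filter (fun y => h y = h x), φ y) /
          ((S.filter (fun y => h y = h x)).card : ℝ) :=
        div_nonneg (Finset.sum_nonneg fun y hy => hφ y (Finset.mem_filter.1 hy).1) (by positivity)
      linarith
  have h2 := Finset.sum_le_sum h1
  rw [grow_avg, Finset.sum_sub_distrib, ← Finset.mul_sum, ← Finset.sum_filter,
    Finset.sum_const, nsmul_eq_mul] at h2
  have h3 := grow_jensen hS (fun x => t - ent (S.filter (fun y => h y = h x)) B) hpos
  have h4 : (∑ x ∈ S, ((t : ℝ) - ent (S.filter (fun y => h y = h x)) B)) / S.card =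
      t - (ent S (fun x => (B x, h x)) - ent S h) := by
    rw [ent_cond, Finset.sum_sub_distrib, Finset.sum_const, nsmul_eq_mul, sub_div,
      mul_div_cancel_left₀ _ hc.ne']
  rw [h4] at h3
  have h5 : ((S.filter P).card : ℝ) * g / S.card - τ * ((∑ x ∈ S,
      Real.sqrt (t - ent (S.filter (fun y => h y = h x)) B)) / S.card) ≤
      (∑ x ∈ S, φ x) / S.card := by
    have := div_le_div_of_nonneg_right h2 hc.le
    rw [sub_div, mul_div_assoc τ] at this
    exact this
  have h6 := mul_le_mul_of_nonneg_left h3 hτ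
  have h7 : g * (((S.filter P).card : ℝ) / S.card) = ((S.filter P).card : ℝ) * g / S.card := by
    ring
  rw [h7]
  linarith

/-- the difference of two consecutive sets `U_p` -/
private theorem grow_diff (M l m s r p : ℕ) (x : Pt) :
    Uset M l m s r (p + 1) x \ Uset M l m s r p x =
      letI := Classical.decPred (fun A : ℕ => A ∉ Uset M l m s r p x ∧
        Hit (l - 3 * s * p) (m + 6 * s * p) s r
          (pre M (2 * l + m) x.1 * 2 ^ (3 * s) + A) (pre M (l + 2 * m + 9 * s * p + 3 * s) x.2.1)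
          (pre M (l - 3 * s * p + s) x.2.2.1) (pre M (m + 6 * s * p + s) x.2.2.2))
      (range (2 ^ (3 * s))).filter (fun A => A ∉ Uset M l m s r p x ∧
        Hit (l - 3 * s * p) (m + 6 * s * p) s r
          (pre M (2 * l + m) x.1 * 2 ^ (3 * s) + A) (pre M (l + 2 * m + 9 * s * p + 3 * s) x.2.1)
          (pre M (l - 3 * s * p + s) x.2.2.1) (pre M (m + 6 * s * p + s) x.2.2.2)) := by
  classical
  ext A
  simp only [Finset.mem_sdiff, Uset, Finset.mem_filter, Finset.mem_range, not_and, not_exists]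
  constructor
  · rintro ⟨⟨hA, j, hj, hh⟩, h2⟩
    refine ⟨hA, h2, ?_⟩
    rcases Nat.lt_succ_iff_lt_or_eq.1 hj with hj | rfl
    · exact absurd hh (h2 hA j hj)
    · exact hh
  · rintro ⟨hA, h2, hh⟩
    exact ⟨⟨hA, p, Nat.lt_succ_self p, hh⟩, h2⟩

open Classical in
/-- One step of the process.  Fibers `T` of `κ(x) = px M a b_p (l+s) (m+6sp+s) x`; on `T` the set `U_p` and
`LGen` are constant.  If `2|U_p| ≤ 2^(3s)` and `LGen` holds, `growabs` with `n = 2^(3s)`,
`B(x) = pre M (b_p+3s) β % 2^(3s)`, `f(B) = #{A ∉ U_p : Hit at t_p}/2^(3s)`, `g1 = 1/(2^(16+r) G)`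
(`LemGeoA`), `g2 = 375 G/2^(2r)` (`LemGeoB`), gives
`avg_T (|U_{p+1}| - |U_p|)/2^(3s) ≥ g1/2 - (2 g2/g1) √(3s - ent T B)`; otherwise the growth is `≥ 0`.
Average over `x ∈ S` and use `E √ ≤ √E` and `ent_cond`: the average of `3s - ent T_x B` is
`Bst (EE M S) l m s p`.  (`2 g2/g1 = 750·2^16 G²/2^r`.) -/
theorem grow {M r Λ lo hi : ℕ} {S : Finset Pt} (hS : Sys M r Λ lo hi S) (l m s G I p : ℕ)
    (hP : ∀ j ≤ I, ParS (l - 3 * s * j) (m + 6 * s * j) s r) (hG : 0 < G) (hp : p < I)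
    (hl : 3 * s * I + lo ≤ l) (hm : lo ≤ m) (hhi : l + m + 3 * s * I + 2 * s ≤ hi) (hM : 2 * hi ≤ M) :
    1 / (2 ^ (16 + r) * (G : ℝ)) / 2 *
        (((S.filter (fun x => 2 * (Uset M l m s r p x).card ≤ 2 ^ (3 * s) ∧
          LGen (l - 3 * s * p) (m + 6 * s * p) s r G (pre M (2 * l + m) x.1)
            (pre M (l + 2 * m + 9 * s * p) x.2.1))).card : ℝ) / S.card) -
      750 * 2 ^ 16 * (G : ℝ) ^ 2 / 2 ^ r * Real.sqrt (Bst (EE M S) l m s p) ≤
    (∑ x ∈ S, (((Uset M l m s r (p + 1) x).card : ℝ) - (Uset M l m s r p x).card) / 2 ^ (3 * s)) /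
      S.card := by
  have hG' : (0 : ℝ) < G := by exact_mod_cast hG
  -- arithmetic
  have q1 : 6 * s * p = 2 * (3 * s * p) := by ring
  have q2 : 9 * s * p = 3 * (3 * s * p) := by ring
  have q3 : 3 * s * p + 3 * s ≤ 3 * s * I := by
    calc 3 * s * p + 3 * s = 3 * s * (p + 1) := by ring
      _ ≤ 3 * s * I := Nat.mul_le_mul_left _ hp
  have hpl : 3 * s * p ≤ l := by omega
  have ea : 2 * (l - 3 * s * p) + (m + 6 * s * p) = 2 * l + m := by omega
  have eb : (l - 3 * s * p) + 2 * (m + 6 * s * p) = l + 2 * m + 9 * s * p := by omega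
  have hbM : l + 2 * m + 9 * s * p + 3 * s ≤ M := by omega
  have haM : 2 * l + m ≤ M := by omega
  -- `S` is nonempty
  have hSne : S.Nonempty := by
    rw [Finset.nonempty_iff_ne_empty]
    rintro rfl
    have := hS.card
    rw [Finset.card_empty, mul_zero] at this
    have h4 : 0 < 4 ^ M := by positivity
    omega
  -- the functions
  obtain ⟨h, hh⟩ : ∃ h : Pt → Pt, h = px M (2 * l + m) (l + 2 * m + 9 * s * p) (l + s)
    (m + 6 * s * p + s) := ⟨_, rfl⟩
  obtain ⟨B, hB⟩ : ∃ B : Pt → ℕ, B = fun x => pre M (l + 2 * m + 9 * s * p + 3 * s) x.2.1 %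
    2 ^ (3 * s) := ⟨_, rfl⟩
  have hBlt : ∀ x, B x < 2 ^ (3 * s) := by
    intro x
    rw [hB]
    exact Nat.mod_lt _ (by positivity)
  have hsplit : ∀ x : Pt, pre M (l + 2 * m + 9 * s * p + 3 * s) x.2.1 =
      pre M (l + 2 * m + 9 * s * p) x.2.1 * 2 ^ (3 * s) + B x := by
    intro x
    rw [hB]
    exact pre_split M _ (3 * s) x.2.1 hbM
  -- the entropy
  have hent : Bst (EE M S) l m s p = ((3 * s : ℕ) : ℝ) - (ent S (fun x => (B x, h x)) - ent S h) := by
    have e1 : EE M S (2 * l + m) (l + 2 * m + 9 * s * p + 3 * s) (l + s) (m + 6 * s * p + s) =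
        ent S (fun x => (B x, h x)) := by
      unfold EE
      refine ent_congr S _ _ fun x _ y _ => ?_
      simp only [px, hh, Prod.mk.injEq]
      constructor
      · rintro ⟨h1, h2, h3, h4⟩
        refine ⟨?_, h1, ?_, h3, h4⟩
        · rw [hB]
          show _ % _ = _ % _
          rw [h2]
        · exact pre_mono M _ _ _ _ (Nat.le_add_right _ _) h2
      · rintro ⟨h0, h1, h2, h3, h4⟩
        refine ⟨h1, ?_, h3, h4⟩
        rw [hsplit x, hsplit y, h0, h2]
    have e2 : EE M S (2 * l + m) (l + 2 * m + 9 * s * p) (l + s) (m + 6 * s * p + s) =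
        ent S h := by
      unfold EE
      rw [hh]
    unfold Bst
    rw [e1, e2]
    push_cast
    ring
  rw [hent]
  refine grow_abs hSne h B (3 * s) (fun x _ => hBlt x) _ ?_ _ _ _ (by positivity) ?_
  · -- nonnegativity
    intro x _
    have := Finset.card_le_card (Uset_mono M l m s r p x)
    have h1 : ((Uset M l m s r p x).card : ℝ) ≤ (Uset M l m s r (p + 1) x).card := by
      exact_mod_cast this
    have h2 : (0 : ℝ) ≤ (Uset M l m s r (p + 1) x).card - (Uset M l m s r p x).card := by linarith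
    positivity
  · -- the growth on a fiber
    rintro x hx ⟨hx1, hx2⟩ T hT
    have hTne : T.Nonempty := ⟨x, (hT x).2 ⟨hx, rfl⟩⟩
    set U := Uset M l m s r p x with hU
    set α0 := pre M (2 * l + m) x.1 with hα0
    set β0 := pre M (l + 2 * m + 9 * s * p) x.2.1 with hβ0
    set γ0 := pre M (l - 3 * s * p + s) x.2.2.1 with hγ0
    set δ0 := pre M (m + 6 * s * p + s) x.2.2.2 with hδ0
    obtain ⟨C, hC⟩ : ∃ C : ℕ → Finset ℕ, C = fun b => (range (2 ^ (3 * s))).filter
      (fun A => A ∉ U ∧ Hit (l - 3 * s * p) (m + 6 * s * p) s r (α0 * 2 ^ (3 * s) + A)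
        (β0 * 2 ^ (3 * s) + b) γ0 δ0) := ⟨_, rfl⟩
    obtain ⟨f, hf⟩ : ∃ f : ℕ → ℝ, f = fun b => ((C b).card : ℝ) / 2 ^ (3 * s) := ⟨_, rfl⟩
    have hUr : U ⊆ range (2 ^ (3 * s)) := by
      rw [hU]; exact Finset.filter_subset _ _
    obtain ⟨r1, r2, r3, r4⟩ := hS.rng x hx
    have hα0' : α0 < 2 ^ (2 * (l - 3 * s * p) + (m + 6 * s * p)) := by
      rw [ea]; exact pre_lt M _ _ haM r1
    have hβ0' : β0 < 2 ^ ((l - 3 * s * p) + 2 * (m + 6 * s * p)) := by
      rw [eb]; exact pre_lt M _ _ (by omega) r2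
    have hN0 : (0 : ℝ) < 2 ^ (3 * s) := by positivity
    have e6 : (2 : ℝ) ^ (6 * s) = 2 ^ (3 * s) * 2 ^ (3 * s) := by rw [← pow_add]; ring_nf
    have e9 : (2 : ℝ) ^ (9 * s) = 2 ^ (3 * s) * 2 ^ (3 * s) * 2 ^ (3 * s) := by
      rw [← pow_add, ← pow_add]; ring_nf
    -- first moment
    have hf1 : 1 / (2 ^ (16 + r) * (G : ℝ)) ≤ (∑ b ∈ range (2 ^ (3 * s)), f b) /
        ((2 ^ (3 * s) : ℕ) : ℝ) := by
      have h1 := LemGeoA (l - 3 * s * p) (m + 6 * s * p) s r G α0 β0 γ0 δ0 (hP p hp.le) hG hα0'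
        hβ0' hx2 U hUr hx1
      have h2 : (((range (2 ^ (3 * s)) ×ˢ range (2 ^ (3 * s))).filter (fun p' => p'.1 ∉ U ∧
          Hit (l - 3 * s * p) (m + 6 * s * p) s r (α0 * 2 ^ (3 * s) + p'.1)
            (β0 * 2 ^ (3 * s) + p'.2) γ0 δ0)).card : ℝ) =
          ∑ b ∈ range (2 ^ (3 * s)), ((C b).card : ℝ) := by
        rw [Finset.card_filter, Finset.sum_product_right]
        push_cast
        refine Finset.sum_congr rfl fun b _ => ?_
        rw [hC, Finset.card_filter]
        push_cast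
        rfl
      rw [h2] at h1
      rw [hf, ← Finset.sum_div]
      push_cast
      rw [div_div, le_div_iff₀ (by positivity), ← e6]
      refine le_trans (le_of_eq ?_) h1
      ring
    -- second moment
    have hf2 : (∑ b ∈ range (2 ^ (3 * s)), f b ^ 2) / ((2 ^ (3 * s) : ℕ) : ℝ) ≤
        375 * G / 2 ^ (2 * r) := by
      have h1 := LemGeoB (l - 3 * s * p) (m + 6 * s * p) s r G α0 β0 γ0 δ0 (hP p hp.le) hα0'
        hβ0' hx2
      have h2 : ∑ b ∈ range (2 ^ (3 * s)), f b ^ 2 ≤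
          (375 * G * 2 ^ (9 * s) / 2 ^ (2 * r)) / (2 ^ (3 * s)) ^ 2 := by
        refine le_trans ?_ (div_le_div_of_nonneg_right h1 (by positivity))
        rw [Finset.sum_div]
        refine Finset.sum_le_sum fun b _ => ?_
        rw [hf]
        show (((C b).card : ℝ) / 2 ^ (3 * s)) ^ 2 ≤ _
        rw [div_pow]
        refine div_le_div_of_nonneg_right ?_ (by positivity)
        have h3 : (C b).card ≤ ((range (2 ^ (3 * s))).filter (fun A =>
            Hit (l - 3 * s * p) (m + 6 * s * p) s r (α0 * 2 ^ (3 * s) + A)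
              (β0 * 2 ^ (3 * s) + b) γ0 δ0)).card := by
          apply Finset.card_le_card
          intro A hA
          rw [hC] at hA
          have hA' := Finset.mem_filter.1 hA
          exact Finset.mem_filter.2 ⟨hA'.1, hA'.2.2⟩
        exact pow_le_pow_left₀ (Nat.cast_nonneg _) (Nat.cast_le.2 h3) 2
      rw [div_le_iff₀ (by positivity)]
      refine h2.trans (le_of_eq ?_)
      push_cast
      rw [e9]
      field_simp
    -- growth on `T`
    have hgr := growabs hTne (2 ^ (3 * s)) B (fun y _ => hBlt y) f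
      (fun b => by rw [hf]; exact div_nonneg (Nat.cast_nonneg _) hN0.le) (1 / (2 ^ (16 + r) * (G : ℝ))) (375 * G / 2 ^ (2 * r))
      (by positivity) (by positivity) hf1 hf2
    have hlog : Real.logb 2 ((2 ^ (3 * s) : ℕ) : ℝ) = ((3 * s : ℕ) : ℝ) := by
      push_cast
      rw [Real.logb_pow, Real.logb_self_eq_one (by norm_num), mul_one]
      push_cast
      ring
    rw [hlog] at hgr
    have hτ : 2 * (375 * (G : ℝ) / 2 ^ (2 * r)) / (1 / (2 ^ (16 + r) * (G : ℝ))) =
        750 * 2 ^ 16 * (G : ℝ) ^ 2 / 2 ^ r := by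
      have : (2 : ℝ) ^ (2 * r) = 2 ^ r * 2 ^ r := by rw [← pow_add]; ring_nf
      rw [this, pow_add]
      field_simp
      ring
    rw [hτ] at hgr
    refine hgr.trans (le_of_eq ?_)
    congr 1
    refine Finset.sum_congr rfl fun y hy => ?_
    obtain ⟨hyS, hyh⟩ := (hT y).1 hy
    rw [hh] at hyh
    simp only [px, Prod.mk.injEq] at hyh
    obtain ⟨y1, y2, y3, y4⟩ := hyh
    have hUy : Uset M l m s r p y = U := by
      apply Uset_congr
      simp only [px, Prod.mk.injEq]
      exact ⟨y1, y2, y3, pre_mono M _ _ _ _ (Nat.le_add_right _ _) y4⟩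
    have hdiff : Uset M l m s r (p + 1) y \ Uset M l m s r p y = C (B y) := by
      rw [grow_diff, hC, hUy, y1, hsplit y, y2, y4, pre_mono M _ _ _ _ (by omega) y3]
      ext A
      simp only [Finset.mem_filter]
      rfl
    have hcard := Finset.cast_card_sdiff (R := ℝ) (Uset_mono M l m s r p y)
    rw [hdiff] at hcard
    rw [← hcard, hf]

end MP_5e4520_nt
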