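import Pool.Agent.Lib.MP_5e4520_nt.LGD
import Pool.Agent.Lib.MP_5e4520_nt.FT

set_option autoImplicit false

/-!
# Geometry of small windows

`a = 2l+m`, `b = l+2m`, `Q1 = 2^(a+3s)`, `Q2 = 2^(b+3s)`, `L = 2^(l+m+2s)`, `K = L/2^r`,
`K' = 2^(l+m-s)`, `κ1 = 1/2^(l+s) = L/Q1 = K'/2^a`, `κ2 = 1/2^(m+s) = L/Q2 = K'/2^b`.
-/

namespace MP_5e4520_nt

open Finset

open Classical in
/-- Many `q` with `qα/Q1` close to the target and `qβ0/2^b` in the right coarse arc.
`FT_dev` with `Q1`, `Q2 := 2^b`, `b1 = btri L Q1`, `b2 = btri L° (2^b)`, `L° = K/4`, `T = 2K`,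
`γ := γ L`, `δ := δ 2^(b-m-s) - K/2`: main term `K (L/Q1) (L°/2^b) = 2^(3s)/2^(2r)/4`, error
`≤ ZL ≤` half of it.  A term with `q = 2K+i-j` is `≤ 1` and nonzero only if `q` is counted
(`btri_supp`, `btri_le_one`), and every `q` occurs for at most `K` pairs `(i,j)`. -/
theorem LGA1 (l m s r α β0 γ δ : ℕ) (hP : ParS l m s r)
    (hZ : ZL l m s r α β0 ≤ (2 : ℝ) ^ (3 * s) / 2 ^ (2 * r) / 8) :
    (2 : ℝ) ^ (3 * s) / 2 ^ (2 * r) / 8 ≤
      (((Ioo (2 ^ (l + m + 2 * s - r)) (3 * 2 ^ (l + m + 2 * s - r))).filter (fun q : ℕ =>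
        nd ((q : ℝ) * α / 2 ^ (2 * l + m + 3 * s) - γ / 2 ^ (l + s)) < 1 / 2 ^ (l + s) ∧
        nd ((q : ℝ) * β0 / 2 ^ (l + 2 * m) - δ / 2 ^ (m + s) +
          2 ^ (l + m + 2 * s - r) / 2 ^ (l + 2 * m) / 2) <
          2 ^ (l + m + 2 * s - r) / 2 ^ (l + 2 * m) / 4)).card : ℝ) := by
  have hr12 := hP.r12
  have hrs := hP.rs
  have hsl := hP.sl
  have hsm := hP.sm
  -- natural number scales
  set K : ℕ := 2 ^ (l + m + 2 * s - r) with hK
  set K4 : ℕ := 2 ^ (l + m + 2 * s - r - 2) with hK4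
  set L : ℕ := 2 ^ (l + m + 2 * s) with hL
  set Q : ℕ := 2 ^ (2 * l + m + 3 * s) with hQ
  set W : ℕ := 2 ^ (l + 2 * m) with hW
  set H : ℕ := 2 ^ (l + m + 2 * s - r - 1) with hH
  set V : ℕ := 2 ^ (l + m - s) with hV
  have hKpos : 0 < K := by positivity
  have hQpos : 0 < Q := by positivity
  have hWpos : 0 < W := by positivity
  have hLpos : 0 < L := by positivity
  have hK4pos : 0 < K4 := by positivity
  have cK : (K : ℝ) = 2 ^ (l + m + 2 * s - r) := by rw [hK]; push_cast; rfl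
  have cQ : (Q : ℝ) = 2 ^ (2 * l + m + 3 * s) := by rw [hQ]; push_cast; rfl
  have cW : (W : ℝ) = 2 ^ (l + 2 * m) := by rw [hW]; push_cast; rfl
  have cL : (L : ℝ) = 2 ^ (l + m + 2 * s) := by rw [hL]; push_cast; rfl
  have hK44 : 4 * K4 = K := by
    rw [hK, hK4]
    have : l + m + 2 * s - r = (l + m + 2 * s - r - 2) + 2 := by omega
    rw [this, pow_add, Nat.add_sub_cancel]
    ring
  have hHK : 2 * H = K := by
    rw [hK, hH]
    have : l + m + 2 * s - r = (l + m + 2 * s - r - 1) + 1 := by omega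
    rw [this, pow_add, Nat.add_sub_cancel]
    ring
  have hKr : (K4 : ℝ) = K / 4 := by
    have : (4 : ℝ) * K4 = K := by exact_mod_cast hK44
    linarith
  have hHr : (H : ℝ) = K / 2 := by
    have : (2 : ℝ) * H = K := by exact_mod_cast hHK
    linarith
  have hLQ : L ≤ Q := Nat.pow_le_pow_right (by norm_num) (by omega)
  have hK4W : K4 ≤ W := Nat.pow_le_pow_right (by norm_num) (by omega)
  -- `L/Q = 1/2^(l+s)`, `V/W = 1/2^(m+s)`
  have hLQ1 : (L : ℝ) / Q = 1 / 2 ^ (l + s) := by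
    rw [div_eq_div_iff (by positivity) (by positivity), one_mul, cL, cQ, ← pow_add]
    congr 1; omega
  have hVW : (V : ℝ) / W = 1 / 2 ^ (m + s) := by
    rw [div_eq_div_iff (by positivity) (by positivity), one_mul, cW, hV]
    push_cast
    rw [← pow_add]
    congr 1; omega
  have dev := FT_dev K Q W hKpos hQpos hWpos (ctri L Q) (ctri K4 W)
    (fun h => ctri_nonneg L Q h) (fun h => ctri_nonneg K4 W h) (btri L Q) (btri K4 W)
    (btri_fourier L Q hQpos) (btri_fourier K4 W hWpos) (2 * K) α β0 (γ * L) (δ * V - H)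
  have hmain : (K : ℝ) * ctri L Q 0 * ctri K4 W 0 = (2 : ℝ) ^ (3 * s) / 2 ^ (2 * r) / 4 := by
    rw [ctri_at_zero L Q hLpos, ctri_at_zero K4 W hK4pos, hLQ1, hKr]
    have e1 : (K : ℝ) * K * 2 ^ (2 * r) = (2 : ℝ) ^ (3 * s) * (2 ^ (l + s) * W) := by
      rw [cK, cW, ← pow_add, ← pow_add, ← pow_add, ← pow_add]
      congr 1; omega
    have hW0 : (0 : ℝ) < W := by positivity
    have hr0 : (0 : ℝ) < 2 ^ (2 * r) := by positivity
    have hl0 : (0 : ℝ) < 2 ^ (l + s) := by positivity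
    rw [eq_div_iff (by norm_num), eq_div_iff hr0.ne']
    field_simp
    linear_combination e1
  have hZL : (∑ h ∈ range Q, ∑ h' ∈ range W, if (h ≠ 0 ∨ h' ≠ 0) then
        ctri L Q h * ctri K4 W h' * fej K ((h : ℝ) * ((α : ℤ) : ℝ) / Q + (h' : ℝ) * ((β0 : ℤ) : ℝ) / W)
        else 0) = ZL l m s r α β0 := by
    unfold ZL
    rw [cQ, cW]
    simp only [Int.cast_natCast]
    rfl
  rw [hmain, hZL] at dev
  set G := (Ioo K (3 * K)).filter (fun q : ℕ =>
        nd ((q : ℝ) * α / 2 ^ (2 * l + m + 3 * s) - γ / 2 ^ (l + s)) < 1 / 2 ^ (l + s) ∧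
        nd ((q : ℝ) * β0 / 2 ^ (l + 2 * m) - δ / 2 ^ (m + s) +
          2 ^ (l + m + 2 * s - r) / 2 ^ (l + 2 * m) / 2) <
          2 ^ (l + m + 2 * s - r) / 2 ^ (l + 2 * m) / 4) with hG
  -- each term
  set t : ℕ → ℕ → ℝ := fun i j => btri L Q (((2 * K : ℤ) + i - j) * α - γ * L) *
    btri K4 W (((2 * K : ℤ) + i - j) * β0 - (δ * V - H)) with ht
  have hterm : ∀ i ∈ range K, ∀ j ∈ range K, t i j ≤ if 2 * K + i - j ∈ G then 1 else 0 := by
    intro i hi j hj
    rw [mem_range] at hi hj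
    by_cases h0 : t i j = 0
    · rw [h0]
      split_ifs <;> norm_num
    · have hmem : 2 * K + i - j ∈ G := by
        have hb1 : btri L Q (((2 * K : ℤ) + i - j) * α - γ * L) ≠ 0 := fun h => h0 (by
          simp only [ht]; rw [h, zero_mul])
        have hb2 : btri K4 W (((2 * K : ℤ) + i - j) * β0 - (δ * V - H)) ≠ 0 := fun h => h0 (by
          simp only [ht]; rw [h, mul_zero])
        have s1 := btri_supp L Q hQpos _ hb1
        have s2 := btri_supp K4 W hWpos _ hb2
        have hqc : ((2 * K + i - j : ℕ) : ℝ) = 2 * K + i - j := by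
          rw [Nat.cast_sub (by omega)]; push_cast; ring
        rw [hG, mem_filter, mem_Ioo]
        refine ⟨⟨by omega, by omega⟩, ?_, ?_⟩
        · rw [hqc]
          rw [hLQ1] at s1
          convert s1 using 2
          push_cast
          have : (γ : ℝ) / 2 ^ (l + s) = γ * (1 / 2 ^ (l + s)) := by ring
          rw [this, ← hLQ1, ← cQ]
          field_simp
        · rw [hqc]
          rw [hKr] at s2
          rw [← cK, ← cW]
          have e2 : (K : ℝ) / 4 / W = K / W / 4 := by ring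
          rw [e2] at s2
          convert s2 using 2
          push_cast
          have : (δ : ℝ) / 2 ^ (m + s) = δ * (1 / 2 ^ (m + s)) := by ring
          rw [this, ← hVW, hHr]
          field_simp
          ring
      rw [if_pos hmem]
      exact mul_le_one₀ (btri_le_one L Q hLQ _) (btri_nonneg _ _ _) (btri_le_one K4 W hK4W _)
  have hsum : (∑ i ∈ range K, ∑ j ∈ range K, t i j) ≤ K * G.card := by
    have h1 : (∑ i ∈ range K, ∑ j ∈ range K, t i j) ≤
        ∑ i ∈ range K, ∑ j ∈ range K, (if 2 * K + i - j ∈ G then (1 : ℝ) else 0) :=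
      sum_le_sum fun i hi => sum_le_sum fun j hj => hterm i hi j hj
    refine h1.trans ?_
    have h2 : ∀ i ∈ range K, ∑ j ∈ range K, (if 2 * K + i - j ∈ G then (1 : ℝ) else 0) ≤
        G.card := by
      intro i _
      rw [← sum_filter, sum_const, nsmul_eq_mul, mul_one]
      have : ((range K).filter (fun j => 2 * K + i - j ∈ G)).card ≤ G.card := by
        apply card_le_card_of_injOn (fun j => 2 * K + i - j)
        · intro j hj
          rw [mem_coe, mem_filter] at hj
          exact hj.2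
        · intro j hj j' hj' he
          rw [mem_coe, mem_filter, mem_range] at hj hj'
          simp only at he
          omega
      exact_mod_cast this
    refine (sum_le_sum h2).trans ?_
    rw [sum_const, card_range, nsmul_eq_mul]
  have hfin : (∑ i ∈ range K, ∑ j ∈ range K, t i j) / K ≤ G.card := by
    rw [div_le_iff₀ (by positivity), mul_comm]
    exact hsum
  have hdev : (2 : ℝ) ^ (3 * s) / 2 ^ (2 * r) / 4 - ZL l m s r α β0 ≤
      (∑ i ∈ range K, ∑ j ∈ range K, t i j) / K := by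
    refine dev.trans (le_of_eq ?_)
    rfl
  linarith

end MP_5e4520_nt
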