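import Pool.Agent.Lib.MP_5e4520_nt.LGA1

set_option autoImplicit false

/-!
# Geometry of small windows

`a = 2l+m`, `b = l+2m`, `Q1 = 2^(a+3s)`, `Q2 = 2^(b+3s)`, `L = 2^(l+m+2s)`, `K = L/2^r`,
`K' = 2^(l+m-s)`, `κ1 = 1/2^(l+s) = L/Q1 = K'/2^a`, `κ2 = 1/2^(m+s) = L/Q2 = K'/2^b`.
-/

namespace MP_5e4520_nt

open Finset

theorem Hit_iff_Nhit (l m u r α β γ δ : ℕ) : Hit l m u r α β γ δ ↔ 0 < Nhit l m u r α β γ δ := by
  classical
  unfold Hit Nhit
  rw [card_pos]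
  constructor
  · rintro ⟨q, h1, h2, h3⟩
    exact ⟨q, by rw [mem_filter, mem_Ioo]; exact ⟨⟨h1, h2⟩, h3⟩⟩
  · rintro ⟨q, hq⟩
    rw [mem_filter, mem_Ioo] at hq
    exact ⟨q, hq.1.1, hq.1.2, hq.2⟩

open Classical in
/-- Each such `q` hits for at least `2^r` values of `B`: with an integer `z` such that
`t = δκ2 + z - qβ0/2^b ∈ (K/2^(b+2), 3K/2^(b+2))`, every integer `B` of the open interval
`(Q2 (t-2κ2)/q, Q2 (t+2κ2)/q)` satisfies `|q(β0 2^(3s)+B)/Q2 - δκ2 - z| < 2κ2`; the interval has length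
`4·2^r K/q > (4/3) 2^r`, contains at least `(4/3)2^r - 1 ≥ 2^r` integers, and is contained in
`(2^(3s)/12 - 2^(r+1), (3/4) 2^(3s) + 2^(r+1)) ⊂ (0, 2^(3s))`. -/
theorem LGA2 (l m s r β0 δ q : ℕ) (hP : ParS l m s r)
    (hq1 : 2 ^ (l + m + 2 * s - r) < q) (hq2 : q < 3 * 2 ^ (l + m + 2 * s - r))
    (hq : nd ((q : ℝ) * β0 / 2 ^ (l + 2 * m) - δ / 2 ^ (m + s) +
          2 ^ (l + m + 2 * s - r) / 2 ^ (l + 2 * m) / 2) <
          2 ^ (l + m + 2 * s - r) / 2 ^ (l + 2 * m) / 4) :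
    2 ^ r ≤ ((range (2 ^ (3 * s))).filter (fun B : ℕ =>
      nd ((q : ℝ) * ((β0 * 2 ^ (3 * s) + B : ℕ) : ℝ) / 2 ^ (l + 2 * m + 3 * s) - δ / 2 ^ (m + s)) <
        2 / 2 ^ (m + s))).card := by
  obtain ⟨z, hz⟩ := nd_exists ((q : ℝ) * β0 / 2 ^ (l + 2 * m) - δ / 2 ^ (m + s) +
          2 ^ (l + m + 2 * s - r) / 2 ^ (l + 2 * m) / 2)
  rw [← hz, abs_lt] at hq
  have hr12 := hP.r12
  have hrs := hP.rs
  have hsl := hP.sl
  have hsm := hP.sm
  set K : ℝ := 2 ^ (l + m + 2 * s - r) with hK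
  set W : ℝ := 2 ^ (l + 2 * m) with hW
  set X : ℝ := 2 ^ (3 * s) with hX
  set R : ℝ := 2 ^ r with hR
  have hK0 : 0 < K := by positivity
  have hW0 : 0 < W := by positivity
  have hX0 : 0 < X := by positivity
  have hR0 : 0 < R := by positivity
  have hq1' : K < q := by
    have : ((2 ^ (l + m + 2 * s - r) : ℕ) : ℝ) < (q : ℝ) := by exact_mod_cast hq1
    rw [hK]; push_cast at this; exact this
  have hq2' : (q : ℝ) < 3 * K := by
    have : (q : ℝ) < ((3 * 2 ^ (l + m + 2 * s - r) : ℕ) : ℝ) := by exact_mod_cast hq2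
    rw [hK]; push_cast at this; exact this
  have hq0 : (0 : ℝ) < q := hK0.trans hq1'
  have hXR : 32 * R ≤ X := by
    have h1 : (2 : ℝ) ^ (8 * r + 5) ≤ X := pow_le_pow_right₀ (by norm_num) hrs
    have h2 : (2 : ℝ) ^ (8 * r + 5) = R ^ 8 * 32 := by
      rw [pow_add, mul_comm 8 r, pow_mul, ← hR]; norm_num
    have h3 : R ≤ R ^ 8 := by
      have h4 : (1 : ℝ) ≤ R := one_le_pow₀ (by norm_num)
      calc R = R ^ 1 := (pow_one R).symm
        _ ≤ R ^ 8 := pow_le_pow_right₀ h4 (by norm_num)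
    linarith
  -- the scale: `1/2^(m+s) = R K / (W X)`
  have hκ : (1 : ℝ) / 2 ^ (m + s) = R * K / (W * X) := by
    rw [div_eq_div_iff (by positivity) (by positivity), one_mul, hW, hX, hR, hK, ← pow_add,
      ← pow_add, ← pow_add]
    congr 1
    omega
  have hQ : (2 : ℝ) ^ (l + 2 * m + 3 * s) = W * X := by rw [hW, hX, ← pow_add]
  -- the centre
  set t : ℝ := δ / 2 ^ (m + s) + z - (q : ℝ) * β0 / W with ht
  have ht1 : K / W / 4 < t := by linarith [hq.2]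
  have ht2 : t < 3 * (K / W) / 4 := by linarith [hq.1]
  set c : ℝ := W * X * t / q with hc
  set h : ℝ := 2 * (R * K) / q with hh
  have hh2 : h < 2 * R := by
    rw [hh, div_lt_iff₀ hq0]; nlinarith
  have hh1 : 2 / 3 * R < h := by
    rw [hh, lt_div_iff₀ hq0]; nlinarith
  have hc1 : X / 12 < c := by
    rw [hc, lt_div_iff₀ hq0]
    have h1 : W * X * (K / W / 4) < W * X * t := mul_lt_mul_of_pos_left ht1 (by positivity)
    have h2 : W * X * (K / W / 4) = X * K / 4 := by field_simp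
    rw [h2] at h1
    nlinarith
  have hc2 : c < 3 / 4 * X := by
    rw [hc, div_lt_iff₀ hq0]
    have h1 : W * X * t < W * X * (3 * (K / W) / 4) := mul_lt_mul_of_pos_left ht2 (by positivity)
    have h2 : W * X * (3 * (K / W) / 4) = 3 / 4 * X * K := by field_simp
    rw [h2] at h1
    have h3 : 3 / 4 * X * K < 3 / 4 * X * q := mul_lt_mul_of_pos_left hq1' (by positivity)
    linarith
  have hpos : 0 ≤ c - h := by linarith
  set n0 : ℕ := ⌊c - h⌋₊ + 1 with hn0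
  have hn1 : c - h < n0 := by
    rw [hn0]; push_cast; exact Nat.lt_floor_add_one _
  have hn2 : (n0 : ℝ) ≤ c - h + 1 := by
    rw [hn0]; push_cast; linarith [Nat.floor_le hpos]
  have hsub : Ico n0 (n0 + 2 ^ r) ⊆ (range (2 ^ (3 * s))).filter (fun B : ℕ =>
      nd ((q : ℝ) * ((β0 * 2 ^ (3 * s) + B : ℕ) : ℝ) / 2 ^ (l + 2 * m + 3 * s) - δ / 2 ^ (m + s)) <
        2 / 2 ^ (m + s)) := by
    intro B hB
    rw [mem_Ico] at hB
    have hB1 : (n0 : ℝ) ≤ B := by exact_mod_cast hB.1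
    have hB2 : (B : ℝ) + 1 ≤ n0 + R := by
      have : B + 1 ≤ n0 + 2 ^ r := hB.2
      have h3 : ((B + 1 : ℕ) : ℝ) ≤ ((n0 + 2 ^ r : ℕ) : ℝ) := by exact_mod_cast this
      push_cast at h3
      exact h3
    have hlow : c - h < B := by linarith
    have hupp : (B : ℝ) < c + h := by linarith
    rw [mem_filter, mem_range]
    constructor
    · have : (B : ℝ) < X := by linarith
      have h3 : (B : ℝ) < ((2 ^ (3 * s) : ℕ) : ℝ) := by push_cast; exact this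
      exact_mod_cast h3
    · refine lt_of_le_of_lt (nd_le _ z) ?_
      have e1 : (q : ℝ) * ((β0 * 2 ^ (3 * s) + B : ℕ) : ℝ) / 2 ^ (l + 2 * m + 3 * s) -
          δ / 2 ^ (m + s) - z = q / (W * X) * (B - c) := by
        rw [hQ, hc, ht]
        push_cast
        rw [← hX]
        field_simp
        ring
      have e2 : (2 : ℝ) / 2 ^ (m + s) = q / (W * X) * h := by
        have : (2 : ℝ) / 2 ^ (m + s) = 2 * (1 / 2 ^ (m + s)) := by ring
        rw [this, hκ, hh]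
        field_simp
      rw [e1, e2, abs_mul, abs_of_pos (by positivity : (0 : ℝ) < q / (W * X))]
      apply mul_lt_mul_of_pos_left _ (by positivity)
      rw [abs_lt]
      constructor <;> linarith
  have := card_le_card hsub
  rw [Nat.card_Ico] at this
  omega

/-- Exchange the sums over `q` and `B`; `LGA1`, `LGA2`. -/
theorem LGA (l m s r α β0 γ δ : ℕ) (hP : ParS l m s r)
    (hZ : ZL l m s r α β0 ≤ (2 : ℝ) ^ (3 * s) / 2 ^ (2 * r) / 8) :
    (2 : ℝ) ^ (3 * s) / 2 ^ r / 8 ≤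
      ∑ B ∈ range (2 ^ (3 * s)), (Nhit l m s r α (β0 * 2 ^ (3 * s) + B) γ δ : ℝ) := by
  classical
  set X : ℕ := 2 ^ (3 * s) with hX
  set I := Ioo (2 ^ (l + m + 2 * s - r)) (3 * 2 ^ (l + m + 2 * s - r)) with hI
  set G := I.filter (fun q : ℕ =>
        nd ((q : ℝ) * α / 2 ^ (2 * l + m + 3 * s) - γ / 2 ^ (l + s)) < 1 / 2 ^ (l + s) ∧
        nd ((q : ℝ) * β0 / 2 ^ (l + 2 * m) - δ / 2 ^ (m + s) +
          2 ^ (l + m + 2 * s - r) / 2 ^ (l + 2 * m) / 2) <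
          2 ^ (l + m + 2 * s - r) / 2 ^ (l + 2 * m) / 4) with hG
  have h1 : (2 : ℝ) ^ (3 * s) / 2 ^ (2 * r) / 8 ≤ (G.card : ℝ) := LGA1 l m s r α β0 γ δ hP hZ
  have h2 : ∑ q ∈ G, 2 ^ r ≤ ∑ B ∈ range X, Nhit l m s r α (β0 * X + B) γ δ := by
    have e1 : ∀ B, Nhit l m s r α (β0 * X + B) γ δ = ∑ q ∈ I, if
        (nd ((q : ℝ) * α / 2 ^ (2 * l + m + 3 * s) - γ / 2 ^ (l + s)) < 2 / 2 ^ (l + s) ∧
        nd ((q : ℝ) * ((β0 * X + B : ℕ) : ℝ) / 2 ^ (l + 2 * m + 3 * s) - δ / 2 ^ (m + s)) <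
          2 / 2 ^ (m + s)) then 1 else 0 := by
      intro B
      unfold Nhit
      rw [card_filter]
    simp only [e1]
    rw [sum_comm]
    refine le_trans ?_ (sum_le_sum_of_subset (f := fun q : ℕ => ∑ B ∈ range X, if
        (nd ((q : ℝ) * α / 2 ^ (2 * l + m + 3 * s) - γ / 2 ^ (l + s)) < 2 / 2 ^ (l + s) ∧
        nd ((q : ℝ) * ((β0 * X + B : ℕ) : ℝ) / 2 ^ (l + 2 * m + 3 * s) - δ / 2 ^ (m + s)) <
          2 / 2 ^ (m + s)) then 1 else 0) (filter_subset _ I : G ⊆ I))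
    apply sum_le_sum
    intro q hq
    rw [hG, mem_filter, hI, mem_Ioo] at hq
    obtain ⟨⟨hq1, hq2⟩, hq3, hq4⟩ := hq
    have h5 := LGA2 l m s r β0 δ q hP hq1 hq2 hq4
    refine h5.trans ?_
    rw [card_filter]
    apply sum_le_sum
    intro B _
    have h6 : nd ((q : ℝ) * α / 2 ^ (2 * l + m + 3 * s) - γ / 2 ^ (l + s)) < 2 / 2 ^ (l + s) := by
      refine hq3.trans ?_
      exact div_lt_div_of_pos_right (by norm_num) (by positivity)
    by_cases h7 : nd ((q : ℝ) * ((β0 * X + B : ℕ) : ℝ) / 2 ^ (l + 2 * m + 3 * s) -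
        δ / 2 ^ (m + s)) < 2 / 2 ^ (m + s)
    · rw [if_pos h7, if_pos ⟨h6, h7⟩]
    · rw [if_neg h7]
      exact Nat.zero_le _
  rw [sum_const, smul_eq_mul] at h2
  have h3 : (G.card : ℝ) * 2 ^ r ≤ ∑ B ∈ range X, (Nhit l m s r α (β0 * X + B) γ δ : ℝ) := by
    exact_mod_cast h2
  refine le_trans ?_ h3
  have h4 : (2 : ℝ) ^ (2 * r) = 2 ^ r * 2 ^ r := by rw [← pow_add]; congr 1; ring
  have h5 : (2 : ℝ) ^ (3 * s) / 2 ^ (2 * r) / 8 * 2 ^ r = (2 : ℝ) ^ (3 * s) / 2 ^ r / 8 := by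
    rw [h4]
    have : (0 : ℝ) < 2 ^ r := by positivity
    field_simp
  rw [← h5]
  exact mul_le_mul_of_nonneg_right h1 (by positivity)

end MP_5e4520_nt
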