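import Pool.Agent.Lib.MP_5e4520_nt.LGW

set_option autoImplicit false

/-!
# Geometry of small windows

`a = 2l+m`, `b = l+2m`, `Q1 = 2^(a+3s)`, `Q2 = 2^(b+3s)`, `L = 2^(l+m+2s)`, `K = L/2^r`,
`K' = 2^(l+m-s)`, `κ1 = 1/2^(l+s) = L/Q1 = K'/2^a`, `κ2 = 1/2^(m+s) = L/Q2 = K'/2^b`.
-/

namespace MP_5e4520_nt

open Finset

/-! ### One coordinate -/

/-- `q α / Q` is near to `x + p`, `α = α0 2^(3s) + A`, `Q = 2^(a+3s)`. -/
def LgHit (s a α0 : ℕ) (κ x : ℝ) (A q : ℕ) (p : ℤ) : Prop :=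
  |(q : ℝ) * ((α0 * 2 ^ (3 * s) + A : ℕ) : ℝ) / 2 ^ (a + 3 * s) - x - p| < 2 * κ

theorem lgb_split (s a α0 A q : ℕ) :
    (q : ℝ) * ((α0 * 2 ^ (3 * s) + A : ℕ) : ℝ) / 2 ^ (a + 3 * s) =
      (q : ℝ) * α0 / 2 ^ a + (q : ℝ) * (A / 2 ^ (3 * s)) / 2 ^ a := by
  push_cast
  rw [pow_add]
  field_simp

theorem lgb_frac {s A : ℕ} (hA : A < 2 ^ (3 * s)) :
    0 ≤ (A : ℝ) / 2 ^ (3 * s) ∧ (A : ℝ) / 2 ^ (3 * s) ≤ 1 := by
  refine ⟨by positivity, ?_⟩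
  rw [div_le_one (by positivity)]
  have : (A : ℝ) < (2 ^ (3 * s) : ℕ) := by exact_mod_cast hA
  push_cast at this
  exact this.le

/-- coarse position -/
theorem lgb_co {s a α0 K A q : ℕ} {κ x : ℝ} {p : ℤ} (hA : A < 2 ^ (3 * s)) (hq : q < 3 * K)
    (h : LgHit s a α0 κ x A q p) :
    -(2 * κ + 3 * (K / 2 ^ a)) < (q : ℝ) * α0 / 2 ^ a - x - p ∧
      (q : ℝ) * α0 / 2 ^ a - x - p < 2 * κ := by
  unfold LgHit at h
  rw [lgb_split, abs_lt] at h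
  obtain ⟨h1, h2⟩ := lgb_frac hA
  have hq' : (q : ℝ) ≤ 3 * K := by exact_mod_cast hq.le
  have h3 : 0 ≤ (q : ℝ) * (A / 2 ^ (3 * s)) / 2 ^ a := by positivity
  have h4 : (q : ℝ) * (A / 2 ^ (3 * s)) / 2 ^ a ≤ 3 * (K / 2 ^ a) := by
    rw [div_le_iff₀ (by positivity)]
    have e : 3 * ((K : ℝ) / 2 ^ a) * 2 ^ a = 3 * K := by field_simp
    rw [e]
    calc (q : ℝ) * (A / 2 ^ (3 * s)) ≤ q * 1 := mul_le_mul_of_nonneg_left h2 (by positivity)
      _ ≤ 3 * K := by rw [mul_one]; exact hq'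
  constructor <;> linarith [h.1, h.2]

theorem lgb_diff {s a α0 K A A' q q' : ℕ} {κ x : ℝ} {p p' : ℤ} (hA : A < 2 ^ (3 * s))
    (hA' : A' < 2 ^ (3 * s)) (hq : q < 3 * K) (hq' : q' < 3 * K)
    (h : LgHit s a α0 κ x A q p) (h' : LgHit s a α0 κ x A' q' p') (hκ : κ ≤ K / 2 ^ a) :
    |((q' : ℝ) - q) * α0 / 2 ^ a - (p' - p)| < 7 * (K / 2 ^ a) := by
  obtain ⟨h1, h2⟩ := lgb_co hA hq h
  obtain ⟨h3, h4⟩ := lgb_co hA' hq' h'
  have e : ((q' : ℝ) - q) * α0 / 2 ^ a - (p' - p) =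
      ((q' : ℝ) * α0 / 2 ^ a - x - p') - ((q : ℝ) * α0 / 2 ^ a - x - p) := by ring
  rw [e, abs_lt]
  constructor <;> linarith

/-- same word -/
theorem lgb_same {s a α0 A q q' : ℕ} {κ x : ℝ} {p p' : ℤ} (hA : A < 2 ^ (3 * s)) (hqq : q ≤ q')
    (h : LgHit s a α0 κ x A q p) (h' : LgHit s a α0 κ x A q' p') :
    |((q' : ℝ) - q) * α0 / 2 ^ a - (p' - p)| ≤ 4 * κ + ((q' : ℝ) - q) / 2 ^ a := by
  unfold LgHit at h h'
  rw [lgb_split, abs_lt] at h h'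
  obtain ⟨h1, h2⟩ := lgb_frac hA
  have hd : (0 : ℝ) ≤ (q' : ℝ) - q := by
    have : (q : ℝ) ≤ q' := by exact_mod_cast hqq
    linarith
  have h3 : 0 ≤ ((q' : ℝ) - q) * (A / 2 ^ (3 * s)) / 2 ^ a :=
    div_nonneg (mul_nonneg hd h1) (by positivity)
  have h4 : ((q' : ℝ) - q) * (A / 2 ^ (3 * s)) / 2 ^ a ≤ ((q' : ℝ) - q) / 2 ^ a := by
    apply div_le_div_of_nonneg_right _ (by positivity)
    calc ((q' : ℝ) - q) * (A / 2 ^ (3 * s)) ≤ ((q' : ℝ) - q) * 1 :=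
          mul_le_mul_of_nonneg_left h2 hd
      _ = _ := mul_one _
  have e : ((q' : ℝ) - q) * α0 / 2 ^ a - (p' - p) =
      ((q' : ℝ) * α0 / 2 ^ a + (q' : ℝ) * (A / 2 ^ (3 * s)) / 2 ^ a - x - p') -
      ((q : ℝ) * α0 / 2 ^ a + (q : ℝ) * (A / 2 ^ (3 * s)) / 2 ^ a - x - p) -
      ((q' : ℝ) - q) * (A / 2 ^ (3 * s)) / 2 ^ a := by ring
  rw [e, abs_le]
  constructor <;> linarith [h.1, h.2, h'.1, h'.2]

/-- the affine relation -/
theorem lgb_t {s a α0 K A q q' : ℕ} {κ x : ℝ} {p p' : ℤ} (hK : 0 < K) (hκ : 0 < κ)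
    (hq : q < 3 * K) (hqq : q ≤ q') (hqq' : q' < q + 2 * K)
    (h : LgHit s a α0 κ x A q p) (h' : LgHit s a α0 κ x A q' p') :
    |(q : ℝ) * (p' - p) - p * (q' - q) - (q' - q) * x| < 16 * (K * κ) := by
  unfold LgHit at h h'
  set y : ℝ := ((α0 * 2 ^ (3 * s) + A : ℕ) : ℝ) / 2 ^ (a + 3 * s) with hy
  have e1 : (q : ℝ) * ((α0 * 2 ^ (3 * s) + A : ℕ) : ℝ) / 2 ^ (a + 3 * s) = q * y := by
    rw [hy]; ring
  have e2 : (q' : ℝ) * ((α0 * 2 ^ (3 * s) + A : ℕ) : ℝ) / 2 ^ (a + 3 * s) = q' * y := by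
    rw [hy]; ring
  rw [e1] at h
  rw [e2] at h'
  have hK' : (0 : ℝ) < K := by exact_mod_cast hK
  have hd0 : (0 : ℝ) ≤ (q' : ℝ) - q := by
    have : (q : ℝ) ≤ q' := by exact_mod_cast hqq
    linarith
  have hd1 : (q' : ℝ) - q ≤ 2 * K := by
    have : (q' : ℝ) < q + 2 * K := by exact_mod_cast hqq'
    linarith
  have hq0 : (0 : ℝ) ≤ q := by positivity
  have hq1 : (q : ℝ) < 3 * K := by exact_mod_cast hq
  -- bounds for the two factors
  have b1 : |((q' : ℝ) - q) * y - (p' - p)| ≤ 4 * κ := by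
    have e : ((q' : ℝ) - q) * y - (p' - p) = (q' * y - x - p') - (q * y - x - p) := by ring
    rw [e]
    refine (abs_sub _ _).trans ?_
    linarith
  have e3 : (q : ℝ) * (p' - p) - p * (q' - q) - (q' - q) * x =
      (q' - q) * (q * y - x - p) - q * (((q' : ℝ) - q) * y - (p' - p)) := by ring
  rw [e3]
  refine (abs_sub _ _).trans_lt ?_
  rw [abs_mul, abs_mul, abs_of_nonneg hd0, abs_of_nonneg hq0]
  have c1 : ((q' : ℝ) - q) * |q * y - x - p| ≤ 2 * K * (2 * κ) :=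
    mul_le_mul hd1 h.le (abs_nonneg _) (by positivity)
  have c2 : (q : ℝ) * |((q' : ℝ) - q) * y - (p' - p)| ≤ q * (4 * κ) :=
    mul_le_mul_of_nonneg_left b1 hq0
  have c3 : (q : ℝ) * (4 * κ) < 3 * K * (4 * κ) := mul_lt_mul_of_pos_right hq1 (by positivity)
  linarith

/-! ### Counting -/

/-- the number of pairs, sorted by a key -/
theorem lgb_card_sq {ι : Type} [DecidableEq ι] (H : Finset ι) (k : ι → ℕ) :
    H.card ^ 2 = ((H ×ˢ H).filter (fun t => k t.1 = k t.2)).card +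
      2 * ((H ×ˢ H).filter (fun t => k t.1 < k t.2)).card := by
  have h1 : ((H ×ˢ H).filter (fun t => k t.2 < k t.1)).card =
      ((H ×ˢ H).filter (fun t => k t.1 < k t.2)).card := by
    refine Finset.card_bij' (fun t _ => (t.2, t.1)) (fun t _ => (t.2, t.1)) ?_ ?_ ?_ ?_
    · intro t ht
      simp only [mem_filter, mem_product] at ht ⊢
      exact ⟨⟨ht.1.2, ht.1.1⟩, ht.2⟩
    · intro t ht
      simp only [mem_filter, mem_product] at ht ⊢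
      exact ⟨⟨ht.1.2, ht.1.1⟩, ht.2⟩
    · intro t _; rfl
    · intro t _; rfl
  have h2 : (H ×ˢ H).card = ((H ×ˢ H).filter (fun t => k t.1 = k t.2)).card +
      ((H ×ˢ H).filter (fun t => ¬ k t.1 = k t.2)).card :=
    (Finset.card_filter_add_card_filter_not _).symm
  have h3 : ((H ×ˢ H).filter (fun t => ¬ k t.1 = k t.2)).card =
      ((H ×ˢ H).filter (fun t => k t.1 < k t.2)).card +
      ((H ×ˢ H).filter (fun t => k t.2 < k t.1)).card := by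
    rw [← Finset.card_union_of_disjoint]
    · congr 1
      ext t
      simp only [mem_filter, mem_union]
      constructor
      · rintro ⟨h, h'⟩
        rcases lt_or_gt_of_ne h' with h'' | h''
        · exact Or.inl ⟨h, h''⟩
        · exact Or.inr ⟨h, h''⟩
      · rintro (⟨h, h'⟩ | ⟨h, h'⟩)
        · exact ⟨h, h'.ne⟩
        · exact ⟨h, h'.ne'⟩
    · rw [Finset.disjoint_left]
      intro t ht ht'
      rw [mem_filter] at ht ht'
      exact absurd ht.2 (lt_asymm ht'.2)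
  rw [sq, ← Finset.card_product, h2, h3, h1]
  ring

/-- A set of points `(q, p, p')` whose coarse differences are small has at most `ntot` elements. -/
theorem lgb_ntot (l m s r α0 β0 : ℕ) (Z : Finset (ℕ × ℤ × ℤ))
    (hK : ∀ z ∈ Z, 2 ^ (l + m + 2 * s - r) < z.1 ∧ z.1 < 3 * 2 ^ (l + m + 2 * s - r))
    (h7a : 7 * ((2 ^ (l + m + 2 * s - r) : ℕ) / 2 ^ (2 * l + m) : ℝ) < 1)
    (h7b : 7 * ((2 ^ (l + m + 2 * s - r) : ℕ) / 2 ^ (l + 2 * m) : ℝ) < 1)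
    (h1 : ∀ z ∈ Z, ∀ z' ∈ Z, |((z'.1 : ℝ) - z.1) * α0 / 2 ^ (2 * l + m) - (z'.2.1 - z.2.1)| <
      7 * ((2 ^ (l + m + 2 * s - r) : ℕ) / 2 ^ (2 * l + m)))
    (h2 : ∀ z ∈ Z, ∀ z' ∈ Z, |((z'.1 : ℝ) - z.1) * β0 / 2 ^ (l + 2 * m) - (z'.2.2 - z.2.2)| <
      7 * ((2 ^ (l + m + 2 * s - r) : ℕ) / 2 ^ (l + 2 * m))) :
    Z.card ≤ ntot l m s r α0 β0 := by
  classical
  rcases Z.eq_empty_or_nonempty with rfl | hne
  · simp
  obtain ⟨z₀, hz₀, hmin⟩ := Finset.exists_min_image Z (fun z => z.1) hne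
  unfold ntot
  refine Finset.card_le_card_of_injOn (fun z => z.1 - z₀.1) ?_ ?_
  · intro z hz
    have hle := hmin z hz
    have c : (((z.1 - z₀.1 : ℕ)) : ℝ) = (z.1 : ℝ) - z₀.1 := Nat.cast_sub hle
    have hz1 := hK z hz
    have hz2 := hK z₀ hz₀
    simp only [coe_filter, mem_range, Set.mem_ofPred_eq]
    refine ⟨by omega, ?_, ?_⟩
    · rw [c]
      refine (nd_le _ (z.2.1 - z₀.2.1)).trans ?_
      have := (h1 z₀ hz₀ z hz).le
      push_cast at this ⊢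
      rw [← mul_div_assoc] at this
      exact this
    · rw [c]
      refine (nd_le _ (z.2.2 - z₀.2.2)).trans ?_
      have := (h2 z₀ hz₀ z hz).le
      push_cast at this ⊢
      rw [← mul_div_assoc] at this
      exact this
  · intro z hz z' hz' he
    have hle := hmin z hz
    have hle' := hmin z' hz'
    simp only at he
    have e1 : z.1 = z'.1 := by omega
    have f1 := (h1 z hz z' hz').trans h7a
    have f2 := (h2 z hz z' hz').trans h7b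
    rw [e1, sub_self, zero_mul, zero_div, zero_sub, abs_neg] at f1 f2
    have g1 : |((z'.2.1 - z.2.1 : ℤ) : ℝ)| < 1 := by push_cast; exact f1
    have g2 : |((z'.2.2 - z.2.2 : ℤ) : ℝ)| < 1 := by push_cast; exact f2
    rw [← Int.cast_abs] at g1 g2
    have k1 : |z'.2.1 - z.2.1| < 1 := by exact_mod_cast g1
    have k2 : |z'.2.2 - z.2.2| < 1 := by exact_mod_cast g2
    rw [Int.abs_lt_one_iff] at k1 k2
    exact Prod.ext e1 (Prod.ext (by omega) (by omega))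

/-- Counting pairs of points. -/
theorem lgb_UU (l m s r P R : ℕ) (xx yy : ℕ → ℝ) (α0 β0 : ℕ)
    (Y : Finset ((ℕ × ℤ × ℤ) × (ℕ × ℤ × ℤ)))
    (hK : ∀ y ∈ Y, 2 ^ (l + m + 2 * s - r) < y.1.1 ∧ y.1.1 < 3 * 2 ^ (l + m + 2 * s - r))
    (hd : ∀ y ∈ Y, ∃ d p p' : ℕ, d ∈ Ioo (2 ^ (l + m - s)) (2 * 2 ^ (l + m + 2 * s - r)) ∧
      p ≤ d ∧ p' ≤ d ∧ y.2.1 = y.1.1 + d ∧ y.2.2.1 = y.1.2.1 + p ∧ y.2.2.2 = y.1.2.2 + p' ∧
      |(d : ℝ) * α0 / 2 ^ (2 * l + m) - p| ≤ xx d ∧ |(d : ℝ) * β0 / 2 ^ (l + 2 * m) - p'| ≤ yy d)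
    (hp : ∀ y ∈ Y, ∀ y₀ ∈ Y, ∀ d p p' : ℕ, y.2.1 = y.1.1 + d → y.2.2.1 = y.1.2.1 + p →
      y.2.2.2 = y.1.2.2 + p' → y₀.2.1 = y₀.1.1 + d → y₀.2.2.1 = y₀.1.2.1 + p →
      y₀.2.2.2 = y₀.1.2.2 + p' →
      |((y.1.1 : ℤ) - y₀.1.1) * p - (y.1.2.1 - y₀.1.2.1) * d| ≤ P ∧
      |((y.1.1 : ℤ) - y₀.1.1) * p' - (y.1.2.2 - y₀.1.2.2) * d| ≤ R) :
    Y.card ≤ UU l m s r P R xx yy α0 β0 := by
  classical
  set f1 : (ℕ × ℤ × ℤ) × (ℕ × ℤ × ℤ) → ℕ := fun y => y.2.1 - y.1.1 with hf1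
  set f2 : (ℕ × ℤ × ℤ) × (ℕ × ℤ × ℤ) → ℕ := fun y => (y.2.2.1 - y.1.2.1).toNat with hf2
  set f3 : (ℕ × ℤ × ℤ) × (ℕ × ℤ × ℤ) → ℕ := fun y => (y.2.2.2 - y.1.2.2).toNat with hf3
  have key : ∀ y ∈ Y, ∀ d p p' : ℕ, f1 y = d → f2 y = p → f3 y = p' →
      d ∈ Ioo (2 ^ (l + m - s)) (2 * 2 ^ (l + m + 2 * s - r)) ∧ p ≤ d ∧ p' ≤ d ∧
      y.2.1 = y.1.1 + d ∧ y.2.2.1 = y.1.2.1 + p ∧ y.2.2.2 = y.1.2.2 + p' ∧
      |(d : ℝ) * α0 / 2 ^ (2 * l + m) - p| ≤ xx d ∧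
      |(d : ℝ) * β0 / 2 ^ (l + 2 * m) - p'| ≤ yy d := by
    intro y hy d p p' e1 e2 e3
    obtain ⟨d', q, q', h1, h2, h3, h4, h5, h6, h7, h8⟩ := hd y hy
    have a1 : d' = d := by simp only [hf1] at e1; omega
    have a2 : q = p := by simp only [hf2] at e2; omega
    have a3 : q' = p' := by simp only [hf3] at e3; omega
    subst a1 a2 a3
    exact ⟨h1, h2, h3, h4, h5, h6, h7, h8⟩
  unfold UU
  rw [Finset.card_eq_sum_card_fiberwise (f := f1)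
    (t := Ioo (2 ^ (l + m - s)) (2 * 2 ^ (l + m + 2 * s - r)))
    (fun y hy => (key y hy _ _ _ rfl rfl rfl).1)]
  refine Finset.sum_le_sum fun d _ => ?_
  rw [Finset.card_eq_sum_card_fiberwise (f := f2) (t := range (d + 1)) (by
    intro y hy
    rw [mem_coe, mem_filter] at hy
    obtain ⟨hy, hyd⟩ := hy
    have := (key y hy _ _ _ hyd rfl rfl).2.1
    rw [mem_coe, mem_range]
    omega)]
  refine Finset.sum_le_sum fun p _ => ?_
  rw [Finset.card_eq_sum_card_fiberwise (f := f3) (t := range (d + 1)) (by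
    intro y hy
    rw [mem_coe, mem_filter, mem_filter] at hy
    obtain ⟨⟨hy, hyd⟩, hyp⟩ := hy
    have := (key y hy _ _ _ hyd hyp rfl).2.2.1
    rw [mem_coe, mem_range]
    omega)]
  refine Finset.sum_le_sum fun p' _ => ?_
  set Y' := (((Y.filter fun y => f1 y = d).filter fun y => f2 y = p).filter fun y => f3 y = p')
    with hY'
  have hmem : ∀ y, y ∈ Y' → y ∈ Y ∧ f1 y = d ∧ f2 y = p ∧ f3 y = p' := by
    intro y hy
    rw [hY', mem_filter, mem_filter, mem_filter] at hy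
    exact ⟨hy.1.1.1, hy.1.1.2, hy.1.2, hy.2⟩
  rcases Y'.eq_empty_or_nonempty with he | ⟨y₀, hy₀⟩
  · rw [he, Finset.card_empty]
    exact Nat.zero_le _
  obtain ⟨hy₀Y, a1, a2, a3⟩ := hmem y₀ hy₀
  obtain ⟨b1, b2, b3, b4, b5, b6, b7, b8⟩ := key y₀ hy₀Y d p p' a1 a2 a3
  rw [if_pos ⟨b7, b8⟩]
  have hdpos : 0 < d := by
    rw [mem_Ioo] at b1
    exact lt_of_le_of_lt (Nat.zero_le _) b1.1
  set D := 2 * 2 ^ (l + m + 2 * s - r) with hD
  unfold WW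
  rw [Finset.card_eq_sum_card_fiberwise (f := fun y => (y.1.1 : ℤ) - y₀.1.1)
    (t := Ioo (-(D : ℤ)) D) (by
      intro y hy
      obtain ⟨hyY, -⟩ := hmem y hy
      have c1 := hK y hyY
      have c2 := hK y₀ hy₀Y
      rw [mem_coe, mem_Ioo]
      show -(D : ℤ) < (y.1.1 : ℤ) - y₀.1.1 ∧ (y.1.1 : ℤ) - y₀.1.1 < D
      omega)]
  refine Finset.sum_le_sum fun q _ => ?_
  unfold tc
  rw [← Finset.card_product]
  refine Finset.card_le_card_of_injOn (fun y => (q * p - (y.1.2.1 - y₀.1.2.1) * d,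
    q * p' - (y.1.2.2 - y₀.1.2.2) * d)) ?_ ?_
  · intro y hy
    rw [mem_coe, mem_filter] at hy
    obtain ⟨hy, hyq⟩ := hy
    obtain ⟨hyY, c1, c2, c3⟩ := hmem y hy
    obtain ⟨-, -, -, c4, c5, c6, -, -⟩ := key y hyY d p p' c1 c2 c3
    obtain ⟨g1, g2⟩ := hp y hyY y₀ hy₀Y d p p' c4 c5 c6 b4 b5 b6
    rw [hyq] at g1 g2
    rw [abs_le] at g1 g2
    rw [mem_coe, mem_product, mem_filter, mem_filter, mem_Icc, mem_Icc]
    refine ⟨⟨g1, ?_⟩, g2, ?_⟩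
    · exact ⟨y.1.2.1 - y₀.1.2.1, by ring⟩
    · exact ⟨y.1.2.2 - y₀.1.2.2, by ring⟩
  · intro y hy y' hy' he
    rw [mem_coe, mem_filter] at hy hy'
    obtain ⟨hy, hyq⟩ := hy
    obtain ⟨hy', hyq'⟩ := hy'
    obtain ⟨hyY, c1, c2, c3⟩ := hmem y hy
    obtain ⟨-, -, -, c4, c5, c6, -, -⟩ := key y hyY d p p' c1 c2 c3
    obtain ⟨hyY', c1', c2', c3'⟩ := hmem y' hy'
    obtain ⟨-, -, -, c4', c5', c6', -, -⟩ := key y' hyY' d p p' c1' c2' c3'
    have e1 := congrArg Prod.fst he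
    have e2 := congrArg Prod.snd he
    simp only at e1 e2
    have hdz : (d : ℤ) ≠ 0 := by exact_mod_cast hdpos.ne'
    have k1 : y.1.2.1 = y'.1.2.1 := by
      have : (y.1.2.1 - y₀.1.2.1) * (d : ℤ) = (y'.1.2.1 - y₀.1.2.1) * d := by linarith
      have := mul_right_cancel₀ hdz this
      linarith
    have k2 : y.1.2.2 = y'.1.2.2 := by
      have : (y.1.2.2 - y₀.1.2.2) * (d : ℤ) = (y'.1.2.2 - y₀.1.2.2) * d := by linarith
      have := mul_right_cancel₀ hdz this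
      linarith
    have k0 : y.1.1 = y'.1.1 := by omega
    have k3 : y.1 = y'.1 := Prod.ext k0 (Prod.ext k1 k2)
    have k4 : y.2 = y'.2 := by
      refine Prod.ext ?_ (Prod.ext ?_ ?_)
      · rw [c4, c4', k0]
      · rw [c5, c5', k1]
      · rw [c6, c6', k2]
    exact Prod.ext k3 k4

/-! ### Parameters -/

theorem lgb_par1 {E a k r s : ℕ} (h1 : E + r + k = a + 3 * s) (h2 : r ≤ 3 * s) :
    (1 : ℝ) / 2 ^ k ≤ ((2 ^ E : ℕ) : ℝ) / 2 ^ a := by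
  rw [div_le_div_iff₀ (by positivity) (by positivity)]
  push_cast
  rw [one_mul, ← pow_add]
  exact pow_le_pow_right₀ (by norm_num) (by omega)

theorem lgb_par2 {E a : ℕ} (h3 : E + 3 ≤ a) : 7 * (((2 ^ E : ℕ) : ℝ) / 2 ^ a) < 1 := by
  rw [← mul_div_assoc, div_lt_one (by positivity)]
  push_cast
  have h : (2 : ℝ) ^ (E + 3) ≤ 2 ^ a := pow_le_pow_right₀ (by norm_num) h3
  rw [pow_add] at h
  have : (0 : ℝ) < 2 ^ E := by positivity
  linarith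

theorem lgb_par3 {E a k r s : ℕ} (h1 : E + r + k = a + 3 * s) :
    (2 : ℝ) * (2 ^ r * ((2 ^ E : ℕ) : ℝ)) / 2 ^ (a + 3 * s) = 2 * (1 / 2 ^ k) := by
  rw [← h1, pow_add, pow_add]
  push_cast
  field_simp

theorem lgb_par4 {E k n : ℕ} (h : n + k = E) :
    ((2 ^ E : ℕ) : ℝ) * (1 / 2 ^ k) = 2 ^ n := by
  rw [← h, pow_add]
  push_cast
  field_simp

open Classical in
/-- the words near to the target -/
noncomputable def lgbW (s r K a α0 q : ℕ) (y : ℝ) : Finset ℕ :=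
  (range (2 ^ (3 * s))).filter (fun A : ℕ =>
    |(q : ℝ) * ((α0 * 2 ^ (3 * s) + A : ℕ) : ℝ) / 2 ^ (a + 3 * s) - y| <
      2 * (2 ^ r * K) / 2 ^ (a + 3 * s))

theorem lgbW_card {s r K a α0 q : ℕ} {y : ℝ} (hK : 0 < K) (hq : K < q) :
    (lgbW s r K a α0 q y).card ≤ 4 * 2 ^ r := words s r K (a + 3 * s) α0 q hK hq y

theorem lgbW_mem {s r K a α0 A q : ℕ} {κ x : ℝ} {p : ℤ} (hA : A < 2 ^ (3 * s))
    (hκ : (2 : ℝ) * (2 ^ r * (K : ℝ)) / 2 ^ (a + 3 * s) = 2 * κ)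
    (h : LgHit s a α0 κ x A q p) : A ∈ lgbW s r K a α0 q (x + p) := by
  unfold lgbW
  rw [mem_filter, mem_range]
  refine ⟨hA, ?_⟩
  rw [hκ, ← sub_sub]
  exact h

/-- the nearest integer -/
noncomputable def lgbR (s a α0 : ℕ) (x : ℝ) (A q : ℕ) : ℤ :=
  round ((q : ℝ) * ((α0 * 2 ^ (3 * s) + A : ℕ) : ℝ) / 2 ^ (a + 3 * s) - x)

theorem lgbR_hit {s a α0 k : ℕ} {x : ℝ} {A q : ℕ}
    (h : nd ((q : ℝ) * ((α0 * 2 ^ (3 * s) + A : ℕ) : ℝ) / 2 ^ (a + 3 * s) - x) < 2 / 2 ^ k) :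
    LgHit s a α0 (1 / 2 ^ k) x A q (lgbR s a α0 x A q) := by
  unfold LgHit lgbR
  rw [mul_one_div]
  exact h

/-- two pairs with the same difference -/
theorem lgb_tt {q q2 q' q2' P d N : ℕ} {p p2 p' p2' : ℤ} {x B : ℝ} (hB : 2 * B ≤ N)
    (h1 : q2 = q + d) (h2 : p2 = p + P) (h3 : q2' = q' + d) (h4 : p2' = p' + P)
    (u : |(q : ℝ) * (p2 - p) - p * (q2 - q) - (q2 - q) * x| < B)
    (u' : |(q' : ℝ) * (p2' - p') - p' * (q2' - q') - (q2' - q') * x| < B) :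
    |((q : ℤ) - q') * P - (p - p') * d| ≤ N := by
  subst h1 h2 h3 h4
  push_cast at u u'
  rw [abs_lt] at u u'
  have : |((((q : ℤ) - q') * P - (p - p') * d : ℤ) : ℝ)| ≤ (N : ℝ) := by
    push_cast
    rw [abs_le]
    constructor <;> linarith [u.1, u.2, u'.1, u'.2]
  rw [← Int.cast_abs] at this
  exact_mod_cast this

/-- range of the difference -/
theorem lgb_range {α0 a d : ℕ} {p : ℤ} {η : ℝ} (hα : α0 < 2 ^ a) (hη : η < 1)
    (h : |(d : ℝ) * α0 / 2 ^ a - p| < η) : 0 ≤ p ∧ p ≤ d := by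
  rw [abs_lt] at h
  have h0 : 0 ≤ (d : ℝ) * α0 / 2 ^ a := by positivity
  have h1 : (d : ℝ) * α0 / 2 ^ a ≤ d := by
    rw [div_le_iff₀ (by positivity)]
    have : (α0 : ℝ) ≤ 2 ^ a := by
      have : (α0 : ℝ) < ((2 ^ a : ℕ) : ℝ) := by exact_mod_cast hα
      push_cast at this
      exact this.le
    exact mul_le_mul_of_nonneg_left this (by positivity)
  constructor
  · have : (-1 : ℝ) < p := by linarith [h.2]
    have : (-1 : ℤ) < p := by exact_mod_cast this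
    omega
  · have : (p : ℝ) < d + 1 := by linarith [h.1]
    have : (p : ℤ) < d + 1 := by exact_mod_cast this
    omega

theorem lgb_card_prod {ι κ : Type} (T : Finset ι) (U : Finset κ) (P : ι × κ → Prop)
    [DecidablePred P] : ((T ×ˢ U).filter P).card =
      ∑ t ∈ T, (U.filter (fun u => P (t, u))).card := by
  simp only [Finset.card_filter]
  rw [Finset.sum_product]

/-- Second moment.  For `A, B` with hits `q1 ≤ q2` put `α = α0 2^(3s)+A`, `β = β0 2^(3s)+B`,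
`p_i = round (q_i α/Q1 - γκ1)`, `r_i = round (q_i β/Q2 - δκ2)`, `z_i = (q_i,p_i,r_i)`.  Given `(z1,z2)`
there are at most `(4·2^r)²` pairs `(A,B)` (`words` applied to `z1`).
Since `q A/Q1 ∈ [0, 3K/2^a)`, `q1 α0/2^a - γκ1 - p1 ∈ (-2κ1 - 3K/2^a, 2κ1)`, an interval of length
`< 7K/2^a < 1/2` (`κ1 ≤ K/2^a`; `K/2^a = 2^(2s-r-l) ≤ 2^{-r}`), so `z1` is determined by `q1`, and taking
differences with the smallest `q1`: the number of `z1` is at most `ntot`.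
Pairs with `q1 = q2` have `z1 = z2`: at most `ntot`.  For `q1 < q2` put `(d,p,p') = z2 - z1`,
`0 < d < 2K`, `|dα/Q1 - p| < 4κ1`, `|dβ/Q2 - p'| < 4κ2`, hence `|dα0/2^a - p| < 4κ1 + d/2^a`, same for
`β0`; `0 ≤ p, p' ≤ d`; `G5` excludes `d ≤ K'` (`K'/2^a = κ1`, `5κ1 ≤ 7K/2^a`).  Given `(d,p,p')` put
`t1 = q1 p - p1 d`, `t1' = q1 p' - r1 d`; then `t1 - dγκ1 = -(q1(dα/Q1-p) - d(q1α/Q1-p1-γκ1))` has
absolute value `< 3K·4κ1 + 2K·2κ1 = 16Kκ1`, so for two such `z1` the difference `q''`, `t''` satisfies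
`|q''| < 2K`, `|t''| ≤ 32Kκ1 = 32·2^(m+s-r)`, `d ∣ q''p - t''`; same for `β`.  So the number of `z1` is at
most `WW (2K) P1 R1 d p p'`.  Ordered pairs with `q1 ≠ q2`: twice. -/
theorem LGB1 (l m s r α0 β0 γ δ : ℕ) (hP : ParS l m s r) (hα0 : α0 < 2 ^ (2 * l + m))
    (hβ0 : β0 < 2 ^ (l + 2 * m)) (h5 : G5 l m s r α0 β0) :
    ∑ A ∈ range (2 ^ (3 * s)), ∑ B ∈ range (2 ^ (3 * s)),
      Nhit l m s r (α0 * 2 ^ (3 * s) + A) (β0 * 2 ^ (3 * s) + B) γ δ ^ 2 ≤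
    25 * 4 ^ r * (ntot l m s r α0 β0 + 2 * U1 l m s r α0 β0) := by
  classical
  have p1 := hP.r12
  have p2 := hP.rs
  have p3 := hP.sl
  have p4 := hP.sm
  set E := l + m + 2 * s - r with hE
  have hE1 : E + r + (l + s) = 2 * l + m + 3 * s := by omega
  have hE2 : E + r + (m + s) = l + 2 * m + 3 * s := by omega
  set K := 2 ^ E with hK
  have hKpos : 0 < K := by positivity
  have hKr : (K : ℝ) = 2 ^ (l + m + 2 * s - r) := by rw [hK]; push_cast; rfl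
  set x1 : ℝ := (γ : ℝ) / 2 ^ (l + s) with hx1
  set x2 : ℝ := (δ : ℝ) / 2 ^ (m + s) with hx2
  have κ1 : (1 : ℝ) / 2 ^ (l + s) ≤ (K : ℝ) / 2 ^ (2 * l + m) := lgb_par1 hE1 (by omega)
  have κ2 : (1 : ℝ) / 2 ^ (m + s) ≤ (K : ℝ) / 2 ^ (l + 2 * m) := lgb_par1 hE2 (by omega)
  have η1 : 7 * ((K : ℝ) / 2 ^ (2 * l + m)) < 1 := lgb_par2 (by omega)
  have η2 : 7 * ((K : ℝ) / 2 ^ (l + 2 * m)) < 1 := lgb_par2 (by omega)
  have w1 : (2 : ℝ) * (2 ^ r * (K : ℝ)) / 2 ^ (2 * l + m + 3 * s) = 2 * (1 / 2 ^ (l + s)) :=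
    lgb_par3 hE1
  have w2 : (2 : ℝ) * (2 ^ r * (K : ℝ)) / 2 ^ (l + 2 * m + 3 * s) = 2 * (1 / 2 ^ (m + s)) :=
    lgb_par3 hE2
  have v1 : (K : ℝ) * (1 / 2 ^ (l + s)) = 2 ^ (m + s - r) := lgb_par4 (by omega)
  have v2 : (K : ℝ) * (1 / 2 ^ (m + s)) = 2 ^ (l + s - r) := lgb_par4 (by omega)
  set a := 2 * l + m with ha
  set b := l + 2 * m with hb
  set S := 2 ^ (3 * s) with hS
  set I := Ioo K (3 * K) with hI
  set RA := lgbR s a α0 x1 with hRA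
  set RB := lgbR s b β0 x2 with hRB
  let hit : ℕ → ℕ → ℕ → Prop := fun A B q =>
    nd ((q : ℝ) * ((α0 * 2 ^ (3 * s) + A : ℕ) : ℝ) / 2 ^ (a + 3 * s) - x1) < 2 / 2 ^ (l + s) ∧
    nd ((q : ℝ) * ((β0 * 2 ^ (3 * s) + B : ℕ) : ℝ) / 2 ^ (b + 3 * s) - x2) < 2 / 2 ^ (m + s)
  have hitA : ∀ {A B q : ℕ}, hit A B q → LgHit s a α0 (1 / 2 ^ (l + s)) x1 A q (RA A q) :=
    fun h => lgbR_hit h.1
  have hitB : ∀ {A B q : ℕ}, hit A B q → LgHit s b β0 (1 / 2 ^ (m + s)) x2 B q (RB B q) :=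
    fun h => lgbR_hit h.2
  let H : ℕ → ℕ → Finset ℕ := fun A B => I.filter (hit A B)
  have hN : ∀ A B, Nhit l m s r (α0 * 2 ^ (3 * s) + A) (β0 * 2 ^ (3 * s) + B) γ δ =
      (H A B).card := fun A B => rfl
  let XE := ((range S ×ˢ range S) ×ˢ (I ×ˢ I)).filter
    (fun t => (hit t.1.1 t.1.2 t.2.1 ∧ hit t.1.1 t.1.2 t.2.2) ∧ t.2.1 = t.2.2)
  let XL := ((range S ×ˢ range S) ×ˢ (I ×ˢ I)).filter
    (fun t => (hit t.1.1 t.1.2 t.2.1 ∧ hit t.1.1 t.1.2 t.2.2) ∧ t.2.1 < t.2.2)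
  have hsum : ∑ A ∈ range S, ∑ B ∈ range S,
      Nhit l m s r (α0 * 2 ^ (3 * s) + A) (β0 * 2 ^ (3 * s) + B) γ δ ^ 2 =
      XE.card + 2 * XL.card := by
    have e1 : XE.card = ∑ A ∈ range S, ∑ B ∈ range S,
        ((H A B ×ˢ H A B).filter (fun t => id t.1 = id t.2)).card := by
      rw [lgb_card_prod, Finset.sum_product]
      refine Finset.sum_congr rfl fun A _ => Finset.sum_congr rfl fun B _ => ?_
      congr 1
      ext t
      simp only [H, mem_filter, mem_product, id]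
      tauto
    have e2 : XL.card = ∑ A ∈ range S, ∑ B ∈ range S,
        ((H A B ×ˢ H A B).filter (fun t => id t.1 < id t.2)).card := by
      rw [lgb_card_prod, Finset.sum_product]
      refine Finset.sum_congr rfl fun A _ => Finset.sum_congr rfl fun B _ => ?_
      congr 1
      ext t
      simp only [H, mem_filter, mem_product, id]
      tauto
    rw [e1, e2, Finset.mul_sum, ← Finset.sum_add_distrib]
    refine Finset.sum_congr rfl fun A _ => ?_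
    rw [Finset.mul_sum, ← Finset.sum_add_distrib]
    refine Finset.sum_congr rfl fun B _ => ?_
    rw [hN, lgb_card_sq (H A B) id]
  rw [hsum]
  -- equal `q`
  let φE : (ℕ × ℕ) × (ℕ × ℕ) → ℕ × ℤ × ℤ := fun t => (t.2.1, RA t.1.1 t.2.1, RB t.1.2 t.2.1)
  have memE : ∀ t ∈ XE, t.1.1 < S ∧ t.1.2 < S ∧ (K < t.2.1 ∧ t.2.1 < 3 * K) ∧
      hit t.1.1 t.1.2 t.2.1 ∧ t.2.1 = t.2.2 := by
    intro t ht
    simp only [XE, mem_filter, mem_product, mem_range, hI, mem_Ioo] at ht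
    exact ⟨ht.1.1.1, ht.1.1.2, ht.1.2.1, ht.2.1.1, ht.2.2⟩
  have hE3 : XE.card ≤ (4 * 2 ^ r * (4 * 2 ^ r)) * (XE.image φE).card := by
    refine Finset.card_le_mul_card_image _ _ fun z hz => ?_
    rw [mem_image] at hz
    obtain ⟨t₀, ht₀, rfl⟩ := hz
    obtain ⟨-, -, ⟨g1, g2⟩, -, -⟩ := memE t₀ ht₀
    calc _ ≤ (lgbW s r K a α0 t₀.2.1 (x1 + RA t₀.1.1 t₀.2.1) ×ˢ
          lgbW s r K b β0 t₀.2.1 (x2 + RB t₀.1.2 t₀.2.1)).card := by
          refine Finset.card_le_card_of_injOn (fun t => t.1) ?_ ?_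
          · intro t ht
            rw [mem_coe, mem_filter] at ht
            obtain ⟨ht, he⟩ := ht
            obtain ⟨k1, k2, k3, k4, k5⟩ := memE t ht
            have e1 : t.2.1 = t₀.2.1 := congrArg (fun z => z.1) he
            have e2 : RA t.1.1 t.2.1 = RA t₀.1.1 t₀.2.1 := congrArg (fun z => z.2.1) he
            have e3 : RB t.1.2 t.2.1 = RB t₀.1.2 t₀.2.1 := congrArg (fun z => z.2.2) he
            have j1 := hitA k4
            have j2 := hitB k4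
            rw [e2, e1] at j1
            rw [e3, e1] at j2
            rw [mem_coe, mem_product]
            exact ⟨lgbW_mem k1 w1 j1, lgbW_mem k2 w2 j2⟩
          · intro t ht t' ht' he
            rw [mem_coe, mem_filter] at ht ht'
            have e1 : t.2.1 = t₀.2.1 := congrArg (fun z => z.1) ht.2
            have e1' : t'.2.1 = t₀.2.1 := congrArg (fun z => z.1) ht'.2
            obtain ⟨-, -, -, -, k5⟩ := memE t ht.1
            obtain ⟨-, -, -, -, k5'⟩ := memE t' ht'.1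
            refine Prod.ext he (Prod.ext ?_ ?_)
            · rw [e1, e1']
            · rw [← k5, ← k5', e1, e1']
      _ ≤ _ := by
          rw [Finset.card_product]
          exact Nat.mul_le_mul (lgbW_card hKpos g1) (lgbW_card hKpos g1)
  have hE4 : (XE.image φE).card ≤ ntot l m s r α0 β0 := by
    refine lgb_ntot l m s r α0 β0 _ ?_ η1 η2 ?_ ?_
    · intro z hz
      rw [mem_image] at hz
      obtain ⟨t, ht, rfl⟩ := hz
      exact (memE t ht).2.2.1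
    · intro z hz z' hz'
      rw [mem_image] at hz hz'
      obtain ⟨t, ht, rfl⟩ := hz
      obtain ⟨t', ht', rfl⟩ := hz'
      obtain ⟨k1, k2, k3, k4, -⟩ := memE t ht
      obtain ⟨k1', k2', k3', k4', -⟩ := memE t' ht'
      exact lgb_diff k1 k1' k3.2 k3'.2 (hitA k4) (hitA k4') κ1
    · intro z hz z' hz'
      rw [mem_image] at hz hz'
      obtain ⟨t, ht, rfl⟩ := hz
      obtain ⟨t', ht', rfl⟩ := hz'
      obtain ⟨k1, k2, k3, k4, -⟩ := memE t ht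
      obtain ⟨k1', k2', k3', k4', -⟩ := memE t' ht'
      exact lgb_diff k2 k2' k3.2 k3'.2 (hitB k4) (hitB k4') κ2
  -- different `q`
  let φL : (ℕ × ℕ) × (ℕ × ℕ) → (ℕ × ℤ × ℤ) × (ℕ × ℤ × ℤ) := fun t =>
    ((t.2.1, RA t.1.1 t.2.1, RB t.1.2 t.2.1), (t.2.2, RA t.1.1 t.2.2, RB t.1.2 t.2.2))
  have memL : ∀ t ∈ XL, t.1.1 < S ∧ t.1.2 < S ∧ (K < t.2.1 ∧ t.2.1 < 3 * K) ∧
      (K < t.2.2 ∧ t.2.2 < 3 * K) ∧
      hit t.1.1 t.1.2 t.2.1 ∧ hit t.1.1 t.1.2 t.2.2 ∧ t.2.1 < t.2.2 := by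
    intro t ht
    simp only [XL, mem_filter, mem_product, mem_range, hI, mem_Ioo] at ht
    exact ⟨ht.1.1.1, ht.1.1.2, ht.1.2.1, ht.1.2.2, ht.2.1.1, ht.2.1.2, ht.2.2⟩
  have hL3 : XL.card ≤ (4 * 2 ^ r * (4 * 2 ^ r)) * (XL.image φL).card := by
    refine Finset.card_le_mul_card_image _ _ fun z hz => ?_
    rw [mem_image] at hz
    obtain ⟨t₀, ht₀, rfl⟩ := hz
    obtain ⟨-, -, ⟨g1, g2⟩, -, -⟩ := memL t₀ ht₀
    calc _ ≤ (lgbW s r K a α0 t₀.2.1 (x1 + RA t₀.1.1 t₀.2.1) ×ˢ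
          lgbW s r K b β0 t₀.2.1 (x2 + RB t₀.1.2 t₀.2.1)).card := by
          refine Finset.card_le_card_of_injOn (fun t => t.1) ?_ ?_
          · intro t ht
            rw [mem_coe, mem_filter] at ht
            obtain ⟨ht, he⟩ := ht
            obtain ⟨k1, k2, k3, k4, k5, -⟩ := memL t ht
            have e1 : t.2.1 = t₀.2.1 := congrArg (fun z => z.1.1) he
            have e2 : RA t.1.1 t.2.1 = RA t₀.1.1 t₀.2.1 := congrArg (fun z => z.1.2.1) he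
            have e3 : RB t.1.2 t.2.1 = RB t₀.1.2 t₀.2.1 := congrArg (fun z => z.1.2.2) he
            have j1 := hitA k5
            have j2 := hitB k5
            rw [e2, e1] at j1
            rw [e3, e1] at j2
            rw [mem_coe, mem_product]
            exact ⟨lgbW_mem k1 w1 j1, lgbW_mem k2 w2 j2⟩
          · intro t ht t' ht' he
            rw [mem_coe, mem_filter] at ht ht'
            have e1 : t.2.1 = t₀.2.1 := congrArg (fun z => z.1.1) ht.2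
            have e1' : t'.2.1 = t₀.2.1 := congrArg (fun z => z.1.1) ht'.2
            have e2 : t.2.2 = t₀.2.2 := congrArg (fun z => z.2.1) ht.2
            have e2' : t'.2.2 = t₀.2.2 := congrArg (fun z => z.2.1) ht'.2
            refine Prod.ext he (Prod.ext ?_ ?_)
            · rw [e1, e1']
            · rw [e2, e2']
      _ ≤ _ := by
          rw [Finset.card_product]
          exact Nat.mul_le_mul (lgbW_card hKpos g1) (lgbW_card hKpos g1)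
  have hL4 : (XL.image φL).card ≤ U1 l m s r α0 β0 := by
    unfold U1
    refine lgb_UU l m s r _ _ _ _ α0 β0 _ ?_ ?_ ?_
    · intro y hy
      rw [mem_image] at hy
      obtain ⟨t, ht, rfl⟩ := hy
      exact (memL t ht).2.2.1
    · intro y hy
      rw [mem_image] at hy
      obtain ⟨t, ht, rfl⟩ := hy
      obtain ⟨k1, k2, k3, k4, k5, k6, k7⟩ := memL t ht
      have c : (((t.2.2 - t.2.1 : ℕ)) : ℝ) = (t.2.2 : ℝ) - t.2.1 := Nat.cast_sub k7.le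
      have d1 := lgb_diff k1 k1 k3.2 k4.2 (hitA k5) (hitA k6) κ1
      have d2 := lgb_diff k2 k2 k3.2 k4.2 (hitB k5) (hitB k6) κ2
      have s1 := lgb_same k1 k7.le (hitA k5) (hitA k6)
      have s2 := lgb_same k2 k7.le (hitB k5) (hitB k6)
      rw [← c] at d1 d2 s1 s2
      have d1' : |((t.2.2 - t.2.1 : ℕ) : ℝ) * α0 / 2 ^ a -
          ((RA t.1.1 t.2.2 - RA t.1.1 t.2.1 : ℤ) : ℝ)| < 7 * ((K : ℝ) / 2 ^ a) := by
        push_cast; push_cast at d1; exact d1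
      have d2' : |((t.2.2 - t.2.1 : ℕ) : ℝ) * β0 / 2 ^ b -
          ((RB t.1.2 t.2.2 - RB t.1.2 t.2.1 : ℤ) : ℝ)| < 7 * ((K : ℝ) / 2 ^ b) := by
        push_cast; push_cast at d2; exact d2
      obtain ⟨r1, r2⟩ := lgb_range hα0 η1 d1'
      obtain ⟨r3, r4⟩ := lgb_range hβ0 η2 d2'
      obtain ⟨P, hPP⟩ := Int.eq_ofNat_of_zero_le r1
      obtain ⟨P', hPP'⟩ := Int.eq_ofNat_of_zero_le r3
      rw [hPP] at r2 d1'
      rw [hPP'] at r4 d2'
      have s1' : |((t.2.2 - t.2.1 : ℕ) : ℝ) * α0 / 2 ^ a - P| ≤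
          4 / 2 ^ (l + s) + ((t.2.2 - t.2.1 : ℕ) : ℝ) / 2 ^ a := by
        have e1 : ((RA t.1.1 t.2.2 : ℤ) : ℝ) - (RA t.1.1 t.2.1 : ℤ) = P := by
          have := congrArg (fun z : ℤ => (z : ℝ)) hPP
          push_cast at this
          exact this
        rw [e1] at s1
        refine s1.trans (le_of_eq ?_)
        ring
      have s2' : |((t.2.2 - t.2.1 : ℕ) : ℝ) * β0 / 2 ^ b - P'| ≤
          4 / 2 ^ (m + s) + ((t.2.2 - t.2.1 : ℕ) : ℝ) / 2 ^ b := by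
        have e1 : ((RB t.1.2 t.2.2 : ℤ) : ℝ) - (RB t.1.2 t.2.1 : ℤ) = P' := by
          have := congrArg (fun z : ℤ => (z : ℝ)) hPP'
          push_cast at this
          exact this
        rw [e1] at s2
        refine s2.trans (le_of_eq ?_)
        ring
      refine ⟨t.2.2 - t.2.1, P, P', ?_, by omega, by omega, ?_, ?_, ?_, s1', s2'⟩
      · rw [mem_Ioo]
        have hlt : t.2.2 - t.2.1 < 2 * K := by omega
        refine ⟨?_, hlt⟩
        by_contra hc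
        push Not at hc
        apply h5 (t.2.2 - t.2.1) (by omega) hc
        refine ⟨(nd_le _ (P : ℤ)).trans ?_, (nd_le _ (P' : ℤ)).trans ?_⟩
        · have := d1'.le
          rw [← mul_div_assoc, hKr] at this
          exact this
        · exact s2'
      · show t.2.2 = t.2.1 + (t.2.2 - t.2.1)
        omega
      · show RA t.1.1 t.2.2 = RA t.1.1 t.2.1 + P
        have : RA t.1.1 t.2.2 - RA t.1.1 t.2.1 = (P : ℤ) := hPP
        omega
      · show RB t.1.2 t.2.2 = RB t.1.2 t.2.1 + P'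
        have : RB t.1.2 t.2.2 - RB t.1.2 t.2.1 = (P' : ℤ) := hPP'
        omega
    · intro y hy y₀ hy₀ d P P' i1 i2 i3 i4 i5 i6
      rw [mem_image] at hy hy₀
      obtain ⟨t, ht, rfl⟩ := hy
      obtain ⟨t', ht', rfl⟩ := hy₀
      obtain ⟨k1, k2, k3, k4, k5, k6, k7⟩ := memL t ht
      obtain ⟨k1', k2', k3', k4', k5', k6', k7'⟩ := memL t' ht'
      have z1 : t.2.2 < t.2.1 + 2 * K := by omega
      have z2 : t'.2.2 < t'.2.1 + 2 * K := by omega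
      have u1 := lgb_t hKpos (by positivity) k3.2 k7.le z1 (hitA k5) (hitA k6)
      have u2 := lgb_t hKpos (by positivity) k3.2 k7.le z1 (hitB k5) (hitB k6)
      have u3 := lgb_t hKpos (by positivity) k3'.2 k7'.le z2 (hitA k5') (hitA k6')
      have u4 := lgb_t hKpos (by positivity) k3'.2 k7'.le z2 (hitB k5') (hitB k6')
      rw [v1] at u1 u3
      rw [v2] at u2 u4
      have b1 : 2 * (16 * (2 : ℝ) ^ (m + s - r)) ≤ ((32 * 2 ^ (m + s - r) : ℕ) : ℝ) := by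
        push_cast; linarith
      have b2 : 2 * (16 * (2 : ℝ) ^ (l + s - r)) ≤ ((32 * 2 ^ (l + s - r) : ℕ) : ℝ) := by
        push_cast; linarith
      exact ⟨lgb_tt b1 i1 i2 i4 i5 u1 u3, lgb_tt b2 i1 i3 i4 i6 u2 u4⟩
  have h4 : 4 * 2 ^ r * (4 * 2 ^ r) = 16 * 4 ^ r := by
    have : (4 : ℕ) ^ r = 2 ^ r * 2 ^ r := by rw [← mul_pow]; norm_num
    rw [this]; ring
  rw [h4] at hE3 hL3
  calc XE.card + 2 * XL.card ≤ 16 * 4 ^ r * ntot l m s r α0 β0 +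
        2 * (16 * 4 ^ r * U1 l m s r α0 β0) := by
        refine Nat.add_le_add (hE3.trans (Nat.mul_le_mul_left _ hE4))
          (Nat.mul_le_mul_left _ (hL3.trans (Nat.mul_le_mul_left _ hL4)))
    _ = 16 * 4 ^ r * (ntot l m s r α0 β0 + 2 * U1 l m s r α0 β0) := by ring
    _ ≤ _ := by
        apply Nat.mul_le_mul_right
        apply Nat.mul_le_mul_right
        norm_num

end MP_5e4520_nt
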