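import Pool.Agent.Lib.MP_5e4520_nt.LGB1

set_option autoImplicit false

/-!
# Geometry of small windows

`a = 2l+m`, `b = l+2m`, `Q1 = 2^(a+3s)`, `Q2 = 2^(b+3s)`, `L = 2^(l+m+2s)`, `K = L/2^r`,
`K' = 2^(l+m-s)`, `κ1 = 1/2^(l+s) = L/Q1 = K'/2^a`, `κ2 = 1/2^(m+s) = L/Q2 = K'/2^b`.
-/

namespace MP_5e4520_nt

open Finset

theorem lgb2_par {E a n : ℕ} (h : n + a = E + E) :
    ((2 ^ E : ℕ) : ℝ) * (((2 ^ E : ℕ) : ℝ) / 2 ^ a) = 2 ^ n := by
  rw [← mul_div_assoc, div_eq_iff (by positivity), ← pow_add, h, pow_add]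
  push_cast
  ring

/-- two pairs with the same difference, coarse version -/
theorem lgb2_cc {a α0 K q q' d P N : ℕ} {p p' : ℤ} {η : ℝ} (_hη : 0 ≤ η)
    (hN : 28 * (K * η) ≤ (N : ℝ))
    (h1 : |((q : ℝ) - q') * α0 / 2 ^ a - (p - p')| ≤ 7 * η)
    (h2 : |(d : ℝ) * α0 / 2 ^ a - P| ≤ 7 * η) (hd : d ≤ 2 * K)
    (hq : |(q : ℝ) - q'| ≤ 2 * K) : |((q : ℤ) - q') * P - (p - p') * d| ≤ N := by
  have hd' : (d : ℝ) ≤ 2 * K := by exact_mod_cast hd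
  have e : ((((q : ℤ) - q') * P - (p - p') * d : ℤ) : ℝ) =
      d * (((q : ℝ) - q') * α0 / 2 ^ a - (p - p')) - ((q : ℝ) - q') * ((d : ℝ) * α0 / 2 ^ a - P) := by
    push_cast
    ring
  have hK0 : (0 : ℝ) ≤ 2 * K := by positivity
  have : |((((q : ℤ) - q') * P - (p - p') * d : ℤ) : ℝ)| ≤ (N : ℝ) := by
    rw [e]
    refine (abs_sub _ _).trans ?_
    rw [abs_mul, abs_mul, abs_of_nonneg (by positivity : (0 : ℝ) ≤ d)]
    have c1 : (d : ℝ) * |((q : ℝ) - q') * α0 / 2 ^ a - (p - p')| ≤ 2 * K * (7 * η) :=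
      mul_le_mul hd' h1 (abs_nonneg _) hK0
    have c2 : |(q : ℝ) - q'| * |(d : ℝ) * α0 / 2 ^ a - P| ≤ 2 * K * (7 * η) :=
      mul_le_mul hq h2 (abs_nonneg _) hK0
    linarith
  rw [← Int.cast_abs] at this
  exact_mod_cast this

/-- Same for `∑_B (∑_A N)²` = number of `(B, A1, q1, A2, q2)`; given `(z1,z2)` there are at most
`(4·2^r)³` triples `(A1,A2,B)`.  `z1, z2` both coarse in `α`: `|dα0/2^a - p| ≤ 4κ1+3K/2^a ≤ 7K/2^a`, and
`|dβ0/2^b - p'| < 4κ2 + d/2^b` (same `B`).  `G5` excludes `1 ≤ d ≤ K'`; `d = 0` forces `z1 = z2`.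
For two possible `z1` with the same `(d,p,p')`, `q''p - p''d = d(q''α0/2^a - p'') - q''(dα0/2^a - p)`,
absolute value `≤ 2·2K·7K/2^a = 28·2^(m+4s-2r) ≤ 64·2^(m+4s-2r)`. -/
theorem LGB2 (l m s r α0 β0 γ δ : ℕ) (hP : ParS l m s r) (hα0 : α0 < 2 ^ (2 * l + m))
    (hβ0 : β0 < 2 ^ (l + 2 * m)) (h5 : G5 l m s r α0 β0) :
    ∑ B ∈ range (2 ^ (3 * s)), (∑ A ∈ range (2 ^ (3 * s)),
      Nhit l m s r (α0 * 2 ^ (3 * s) + A) (β0 * 2 ^ (3 * s) + B) γ δ) ^ 2 ≤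
    125 * 8 ^ r * (ntot l m s r α0 β0 + 2 * U2 l m s r α0 β0) := by
  classical
  have p1 := hP.r12
  have p2 := hP.rs
  have p3 := hP.sl
  have p4 := hP.sm
  set E := l + m + 2 * s - r with hE
  have hE1 : E + r + (l + s) = 2 * l + m + 3 * s := by omega
  have hE2 : E + r + (m + s) = l + 2 * m + 3 * s := by omega
  set K := 2 ^ E with hK
  have hKpos : 0 < K := by positivity
  have hKr : (K : ℝ) = 2 ^ (l + m + 2 * s - r) := by rw [hK]; push_cast; rfl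
  set x1 : ℝ := (γ : ℝ) / 2 ^ (l + s) with hx1
  set x2 : ℝ := (δ : ℝ) / 2 ^ (m + s) with hx2
  have κ1 : (1 : ℝ) / 2 ^ (l + s) ≤ (K : ℝ) / 2 ^ (2 * l + m) := lgb_par1 hE1 (by omega)
  have κ2 : (1 : ℝ) / 2 ^ (m + s) ≤ (K : ℝ) / 2 ^ (l + 2 * m) := lgb_par1 hE2 (by omega)
  have η1 : 7 * ((K : ℝ) / 2 ^ (2 * l + m)) < 1 := lgb_par2 (by omega)
  have η2 : 7 * ((K : ℝ) / 2 ^ (l + 2 * m)) < 1 := lgb_par2 (by omega)
  have w1 : (2 : ℝ) * (2 ^ r * (K : ℝ)) / 2 ^ (2 * l + m + 3 * s) = 2 * (1 / 2 ^ (l + s)) :=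
    lgb_par3 hE1
  have w2 : (2 : ℝ) * (2 ^ r * (K : ℝ)) / 2 ^ (l + 2 * m + 3 * s) = 2 * (1 / 2 ^ (m + s)) :=
    lgb_par3 hE2
  have v1 : (K : ℝ) * ((K : ℝ) / 2 ^ (2 * l + m)) = 2 ^ (m + 4 * s - 2 * r) :=
    lgb2_par (by omega)
  have v2 : (K : ℝ) * (1 / 2 ^ (m + s)) = 2 ^ (l + s - r) := lgb_par4 (by omega)
  set a := 2 * l + m with ha
  set b := l + 2 * m with hb
  set S := 2 ^ (3 * s) with hS
  set I := Ioo K (3 * K) with hI
  set RA := lgbR s a α0 x1 with hRA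
  set RB := lgbR s b β0 x2 with hRB
  let hit : ℕ → ℕ → ℕ → Prop := fun A B q =>
    nd ((q : ℝ) * ((α0 * 2 ^ (3 * s) + A : ℕ) : ℝ) / 2 ^ (a + 3 * s) - x1) < 2 / 2 ^ (l + s) ∧
    nd ((q : ℝ) * ((β0 * 2 ^ (3 * s) + B : ℕ) : ℝ) / 2 ^ (b + 3 * s) - x2) < 2 / 2 ^ (m + s)
  have hitA : ∀ {A B q : ℕ}, hit A B q → LgHit s a α0 (1 / 2 ^ (l + s)) x1 A q (RA A q) :=
    fun h => lgbR_hit h.1
  have hitB : ∀ {A B q : ℕ}, hit A B q → LgHit s b β0 (1 / 2 ^ (m + s)) x2 B q (RB B q) :=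
    fun h => lgbR_hit h.2
  let H : ℕ → Finset (ℕ × ℕ) := fun B => (range S ×ˢ I).filter (fun u => hit u.1 B u.2)
  have hN : ∀ B, ∑ A ∈ range S,
      Nhit l m s r (α0 * 2 ^ (3 * s) + A) (β0 * 2 ^ (3 * s) + B) γ δ = (H B).card := by
    intro B
    rw [lgb_card_prod]
    rfl
  let XE := (range S ×ˢ ((range S ×ˢ I) ×ˢ (range S ×ˢ I))).filter
    (fun t => (hit t.2.1.1 t.1 t.2.1.2 ∧ hit t.2.2.1 t.1 t.2.2.2) ∧ t.2.1.2 = t.2.2.2)
  let XL := (range S ×ˢ ((range S ×ˢ I) ×ˢ (range S ×ˢ I))).filter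
    (fun t => (hit t.2.1.1 t.1 t.2.1.2 ∧ hit t.2.2.1 t.1 t.2.2.2) ∧ t.2.1.2 < t.2.2.2)
  have hsum : ∑ B ∈ range S, (∑ A ∈ range S,
      Nhit l m s r (α0 * 2 ^ (3 * s) + A) (β0 * 2 ^ (3 * s) + B) γ δ) ^ 2 =
      XE.card + 2 * XL.card := by
    have e1 : XE.card = ∑ B ∈ range S,
        ((H B ×ˢ H B).filter (fun t => Prod.snd t.1 = Prod.snd t.2)).card := by
      rw [lgb_card_prod]
      refine Finset.sum_congr rfl fun B _ => ?_
      congr 1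
      ext t
      simp only [H, mem_filter, mem_product]
      tauto
    have e2 : XL.card = ∑ B ∈ range S,
        ((H B ×ˢ H B).filter (fun t => Prod.snd t.1 < Prod.snd t.2)).card := by
      rw [lgb_card_prod]
      refine Finset.sum_congr rfl fun B _ => ?_
      congr 1
      ext t
      simp only [H, mem_filter, mem_product]
      tauto
    rw [e1, e2, Finset.mul_sum, ← Finset.sum_add_distrib]
    refine Finset.sum_congr rfl fun B _ => ?_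
    rw [hN, lgb_card_sq (H B) Prod.snd]
  rw [hsum]
  -- equal `q`
  let φE : ℕ × ((ℕ × ℕ) × (ℕ × ℕ)) → ℕ × ℤ × ℤ := fun t =>
    (t.2.1.2, RA t.2.1.1 t.2.1.2, RB t.1 t.2.1.2)
  have memE : ∀ t ∈ XE, t.1 < S ∧ t.2.1.1 < S ∧ t.2.2.1 < S ∧ (K < t.2.1.2 ∧ t.2.1.2 < 3 * K) ∧
      hit t.2.1.1 t.1 t.2.1.2 ∧ hit t.2.2.1 t.1 t.2.2.2 ∧ t.2.1.2 = t.2.2.2 := by
    intro t ht
    simp only [XE, mem_filter, mem_product, mem_range, hI, mem_Ioo] at ht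
    exact ⟨ht.1.1, ht.1.2.1.1, ht.1.2.2.1, ht.1.2.1.2, ht.2.1.1, ht.2.1.2, ht.2.2⟩
  have eqE : ∀ t ∈ XE, RA t.2.2.1 t.2.1.2 = RA t.2.1.1 t.2.1.2 := by
    intro t ht
    obtain ⟨k0, k1, k2, k3, k4, k5, k6⟩ := memE t ht
    rw [← k6] at k5
    have f1 := (lgb_diff k1 k2 k3.2 k3.2 (hitA k4) (hitA k5) κ1).trans η1
    rw [sub_self, zero_mul, zero_div, zero_sub, abs_neg] at f1
    have g1 : |((RA t.2.2.1 t.2.1.2 - RA t.2.1.1 t.2.1.2 : ℤ) : ℝ)| < 1 := by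
      push_cast; exact f1
    rw [← Int.cast_abs] at g1
    have k1 : |RA t.2.2.1 t.2.1.2 - RA t.2.1.1 t.2.1.2| < 1 := by exact_mod_cast g1
    rw [Int.abs_lt_one_iff] at k1
    omega
  have hE3 : XE.card ≤ (4 * 2 ^ r * (4 * 2 ^ r * (4 * 2 ^ r))) * (XE.image φE).card := by
    refine Finset.card_le_mul_card_image _ _ fun z hz => ?_
    rw [mem_image] at hz
    obtain ⟨t₀, ht₀, rfl⟩ := hz
    obtain ⟨-, -, -, ⟨g1, g2⟩, -, -, -⟩ := memE t₀ ht₀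
    calc _ ≤ (lgbW s r K b β0 t₀.2.1.2 (x2 + RB t₀.1 t₀.2.1.2) ×ˢ
          (lgbW s r K a α0 t₀.2.1.2 (x1 + RA t₀.2.1.1 t₀.2.1.2) ×ˢ
          lgbW s r K a α0 t₀.2.1.2 (x1 + RA t₀.2.1.1 t₀.2.1.2))).card := by
          refine Finset.card_le_card_of_injOn (fun t => (t.1, (t.2.1.1, t.2.2.1))) ?_ ?_
          · intro t ht
            rw [mem_coe, mem_filter] at ht
            obtain ⟨ht, he⟩ := ht
            have hq := eqE t ht
            obtain ⟨k0, k1, k2, k3, k4, k5, k6⟩ := memE t ht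
            rw [← k6] at k5
            have e1 : t.2.1.2 = t₀.2.1.2 := congrArg (fun z => z.1) he
            have e2 : RA t.2.1.1 t.2.1.2 = RA t₀.2.1.1 t₀.2.1.2 := congrArg (fun z => z.2.1) he
            have e3 : RB t.1 t.2.1.2 = RB t₀.1 t₀.2.1.2 := congrArg (fun z => z.2.2) he
            have j1 := hitA k4
            have j2 := hitB k4
            have j3 := hitA k5
            rw [e2, e1] at j1
            rw [e3, e1] at j2
            rw [hq, e2, e1] at j3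
            rw [mem_coe, mem_product, mem_product]
            exact ⟨lgbW_mem k0 w2 j2, lgbW_mem k1 w1 j1, lgbW_mem k2 w1 j3⟩
          · intro t ht t' ht' he
            rw [mem_coe, mem_filter] at ht ht'
            have e1 : t.2.1.2 = t₀.2.1.2 := congrArg (fun z => z.1) ht.2
            have e1' : t'.2.1.2 = t₀.2.1.2 := congrArg (fun z => z.1) ht'.2
            obtain ⟨-, -, -, -, -, -, k5⟩ := memE t ht.1
            obtain ⟨-, -, -, -, -, -, k5'⟩ := memE t' ht'.1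
            have h1 : t.1 = t'.1 := congrArg (fun z => z.1) he
            have h2 : t.2.1.1 = t'.2.1.1 := congrArg (fun z => z.2.1) he
            have h3 : t.2.2.1 = t'.2.2.1 := congrArg (fun z => z.2.2) he
            refine Prod.ext h1 (Prod.ext (Prod.ext h2 ?_) (Prod.ext h3 ?_))
            · rw [e1, e1']
            · rw [← k5, ← k5', e1, e1']
      _ ≤ _ := by
          rw [Finset.card_product, Finset.card_product]
          exact Nat.mul_le_mul (lgbW_card hKpos g1)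
            (Nat.mul_le_mul (lgbW_card hKpos g1) (lgbW_card hKpos g1))
  have hE4 : (XE.image φE).card ≤ ntot l m s r α0 β0 := by
    refine lgb_ntot l m s r α0 β0 _ ?_ η1 η2 ?_ ?_
    · intro z hz
      rw [mem_image] at hz
      obtain ⟨t, ht, rfl⟩ := hz
      exact (memE t ht).2.2.2.1
    · intro z hz z' hz'
      rw [mem_image] at hz hz'
      obtain ⟨t, ht, rfl⟩ := hz
      obtain ⟨t', ht', rfl⟩ := hz'
      obtain ⟨k0, k1, k2, k3, k4, -⟩ := memE t ht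
      obtain ⟨k0', k1', k2', k3', k4', -⟩ := memE t' ht'
      exact lgb_diff k1 k1' k3.2 k3'.2 (hitA k4) (hitA k4') κ1
    · intro z hz z' hz'
      rw [mem_image] at hz hz'
      obtain ⟨t, ht, rfl⟩ := hz
      obtain ⟨t', ht', rfl⟩ := hz'
      obtain ⟨k0, k1, k2, k3, k4, -⟩ := memE t ht
      obtain ⟨k0', k1', k2', k3', k4', -⟩ := memE t' ht'
      exact lgb_diff k0 k0' k3.2 k3'.2 (hitB k4) (hitB k4') κ2
  -- different `q`
  let φL : ℕ × ((ℕ × ℕ) × (ℕ × ℕ)) → (ℕ × ℤ × ℤ) × (ℕ × ℤ × ℤ) := fun t =>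
    ((t.2.1.2, RA t.2.1.1 t.2.1.2, RB t.1 t.2.1.2), (t.2.2.2, RA t.2.2.1 t.2.2.2, RB t.1 t.2.2.2))
  have memL : ∀ t ∈ XL, t.1 < S ∧ t.2.1.1 < S ∧ t.2.2.1 < S ∧ (K < t.2.1.2 ∧ t.2.1.2 < 3 * K) ∧
      (K < t.2.2.2 ∧ t.2.2.2 < 3 * K) ∧
      hit t.2.1.1 t.1 t.2.1.2 ∧ hit t.2.2.1 t.1 t.2.2.2 ∧ t.2.1.2 < t.2.2.2 := by
    intro t ht
    simp only [XL, mem_filter, mem_product, mem_range, hI, mem_Ioo] at ht
    exact ⟨ht.1.1, ht.1.2.1.1, ht.1.2.2.1, ht.1.2.1.2, ht.1.2.2.2, ht.2.1.1, ht.2.1.2, ht.2.2⟩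
  have hL3 : XL.card ≤ (4 * 2 ^ r * (4 * 2 ^ r * (4 * 2 ^ r))) * (XL.image φL).card := by
    refine Finset.card_le_mul_card_image _ _ fun z hz => ?_
    rw [mem_image] at hz
    obtain ⟨t₀, ht₀, rfl⟩ := hz
    obtain ⟨-, -, -, ⟨g1, g2⟩, ⟨g3, g4⟩, -⟩ := memL t₀ ht₀
    calc _ ≤ (lgbW s r K b β0 t₀.2.1.2 (x2 + RB t₀.1 t₀.2.1.2) ×ˢ
          (lgbW s r K a α0 t₀.2.1.2 (x1 + RA t₀.2.1.1 t₀.2.1.2) ×ˢ
          lgbW s r K a α0 t₀.2.2.2 (x1 + RA t₀.2.2.1 t₀.2.2.2))).card := by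
          refine Finset.card_le_card_of_injOn (fun t => (t.1, (t.2.1.1, t.2.2.1))) ?_ ?_
          · intro t ht
            rw [mem_coe, mem_filter] at ht
            obtain ⟨ht, he⟩ := ht
            obtain ⟨k0, k1, k2, k3, k4, k5, k6, -⟩ := memL t ht
            have e1 : t.2.1.2 = t₀.2.1.2 := congrArg (fun z => z.1.1) he
            have e2 : RA t.2.1.1 t.2.1.2 = RA t₀.2.1.1 t₀.2.1.2 := congrArg (fun z => z.1.2.1) he
            have e3 : RB t.1 t.2.1.2 = RB t₀.1 t₀.2.1.2 := congrArg (fun z => z.1.2.2) he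
            have e4 : t.2.2.2 = t₀.2.2.2 := congrArg (fun z => z.2.1) he
            have e5 : RA t.2.2.1 t.2.2.2 = RA t₀.2.2.1 t₀.2.2.2 := congrArg (fun z => z.2.2.1) he
            have j1 := hitA k5
            have j2 := hitB k5
            have j3 := hitA k6
            rw [e2, e1] at j1
            rw [e3, e1] at j2
            rw [e5, e4] at j3
            rw [mem_coe, mem_product, mem_product]
            exact ⟨lgbW_mem k0 w2 j2, lgbW_mem k1 w1 j1, lgbW_mem k2 w1 j3⟩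
          · intro t ht t' ht' he
            rw [mem_coe, mem_filter] at ht ht'
            have e1 : t.2.1.2 = t₀.2.1.2 := congrArg (fun z => z.1.1) ht.2
            have e1' : t'.2.1.2 = t₀.2.1.2 := congrArg (fun z => z.1.1) ht'.2
            have e4 : t.2.2.2 = t₀.2.2.2 := congrArg (fun z => z.2.1) ht.2
            have e4' : t'.2.2.2 = t₀.2.2.2 := congrArg (fun z => z.2.1) ht'.2
            have h1 : t.1 = t'.1 := congrArg (fun z => z.1) he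
            have h2 : t.2.1.1 = t'.2.1.1 := congrArg (fun z => z.2.1) he
            have h3 : t.2.2.1 = t'.2.2.1 := congrArg (fun z => z.2.2) he
            refine Prod.ext h1 (Prod.ext (Prod.ext h2 ?_) (Prod.ext h3 ?_))
            · rw [e1, e1']
            · rw [e4, e4']
      _ ≤ _ := by
          rw [Finset.card_product, Finset.card_product]
          exact Nat.mul_le_mul (lgbW_card hKpos g1)
            (Nat.mul_le_mul (lgbW_card hKpos g1) (lgbW_card hKpos g3))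
  -- the differences
  have difL : ∀ t ∈ XL, ∃ P P' : ℕ, P ≤ t.2.2.2 - t.2.1.2 ∧ P' ≤ t.2.2.2 - t.2.1.2 ∧
      RA t.2.2.1 t.2.2.2 = RA t.2.1.1 t.2.1.2 + P ∧ RB t.1 t.2.2.2 = RB t.1 t.2.1.2 + P' ∧
      |((t.2.2.2 - t.2.1.2 : ℕ) : ℝ) * α0 / 2 ^ a - P| ≤ 7 * ((K : ℝ) / 2 ^ a) ∧
      |((t.2.2.2 - t.2.1.2 : ℕ) : ℝ) * β0 / 2 ^ b - P'| ≤
          4 / 2 ^ (m + s) + ((t.2.2.2 - t.2.1.2 : ℕ) : ℝ) / 2 ^ b := by
    intro t ht
    obtain ⟨k0, k1, k2, k3, k4, k5, k6, k7⟩ := memL t ht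
    have c : (((t.2.2.2 - t.2.1.2 : ℕ)) : ℝ) = (t.2.2.2 : ℝ) - t.2.1.2 := Nat.cast_sub k7.le
    have d1 := lgb_diff k1 k2 k3.2 k4.2 (hitA k5) (hitA k6) κ1
    have d2 := lgb_diff k0 k0 k3.2 k4.2 (hitB k5) (hitB k6) κ2
    have s2 := lgb_same k0 k7.le (hitB k5) (hitB k6)
    rw [← c] at d1 d2 s2
    have d1' : |((t.2.2.2 - t.2.1.2 : ℕ) : ℝ) * α0 / 2 ^ a -
        ((RA t.2.2.1 t.2.2.2 - RA t.2.1.1 t.2.1.2 : ℤ) : ℝ)| < 7 * ((K : ℝ) / 2 ^ a) := by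
      rw [Int.cast_sub]; exact d1
    have d2' : |((t.2.2.2 - t.2.1.2 : ℕ) : ℝ) * β0 / 2 ^ b -
        ((RB t.1 t.2.2.2 - RB t.1 t.2.1.2 : ℤ) : ℝ)| < 7 * ((K : ℝ) / 2 ^ b) := by
      rw [Int.cast_sub]; exact d2
    obtain ⟨r1, r2⟩ := lgb_range hα0 η1 d1'
    obtain ⟨r3, r4⟩ := lgb_range hβ0 η2 d2'
    obtain ⟨P, hPP⟩ := Int.eq_ofNat_of_zero_le r1
    obtain ⟨P', hPP'⟩ := Int.eq_ofNat_of_zero_le r3
    rw [hPP] at r2 d1'
    rw [hPP'] at r4 d2'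
    have s2' : |((t.2.2.2 - t.2.1.2 : ℕ) : ℝ) * β0 / 2 ^ b - P'| ≤
        4 / 2 ^ (m + s) + ((t.2.2.2 - t.2.1.2 : ℕ) : ℝ) / 2 ^ b := by
      have e1 : ((RB t.1 t.2.2.2 : ℤ) : ℝ) - (RB t.1 t.2.1.2 : ℤ) = P' := by
        have := congrArg (fun z : ℤ => (z : ℝ)) hPP'
        push_cast at this
        exact this
      rw [e1] at s2
      refine s2.trans (le_of_eq ?_)
      ring
    exact ⟨P, P', by omega, by omega, by omega, by omega, d1'.le, s2'⟩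
  have hL4 : (XL.image φL).card ≤ U2 l m s r α0 β0 := by
    unfold U2
    refine lgb_UU l m s r _ _ _ _ α0 β0 _ ?_ ?_ ?_
    · intro y hy
      rw [mem_image] at hy
      obtain ⟨t, ht, rfl⟩ := hy
      exact (memL t ht).2.2.2.1
    · intro y hy
      rw [mem_image] at hy
      obtain ⟨t, ht, rfl⟩ := hy
      obtain ⟨P, P', f1, f2, f3, f4, f5, f6⟩ := difL t ht
      obtain ⟨k0, k1, k2, k3, k4, k5, k6, k7⟩ := memL t ht
      have f5' : |((t.2.2.2 - t.2.1.2 : ℕ) : ℝ) * α0 / 2 ^ a - P| ≤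
          7 * 2 ^ (l + m + 2 * s - r) / 2 ^ a := by
        have h7 := f5
        rw [← mul_div_assoc, hKr] at h7
        exact h7
      refine ⟨t.2.2.2 - t.2.1.2, P, P', ?_, f1, f2, ?_, f3, f4, f5', f6⟩
      · rw [mem_Ioo]
        have hlt : t.2.2.2 - t.2.1.2 < 2 * K := by omega
        refine ⟨?_, hlt⟩
        by_contra hc
        push Not at hc
        apply h5 (t.2.2.2 - t.2.1.2) (by omega) hc
        refine ⟨(nd_le _ (P : ℤ)).trans ?_, (nd_le _ (P' : ℤ)).trans ?_⟩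
        · exact f5'
        · exact f6
      · show t.2.2.2 = t.2.1.2 + (t.2.2.2 - t.2.1.2)
        omega
    · intro y hy y₀ hy₀ d P P' i1 i2 i3 i4 i5 i6
      rw [mem_image] at hy hy₀
      obtain ⟨t, ht, rfl⟩ := hy
      obtain ⟨t', ht', rfl⟩ := hy₀
      obtain ⟨k0, k1, k2, k3, k4, k5, k6, k7⟩ := memL t ht
      obtain ⟨k0', k1', k2', k3', k4', k5', k6', k7'⟩ := memL t' ht'
      obtain ⟨Q, Q', f1, f2, f3, f4, f5, f6⟩ := difL t ht
      have i1' : t.2.2.2 = t.2.1.2 + d := i1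
      have i2' : RA t.2.2.1 t.2.2.2 = RA t.2.1.1 t.2.1.2 + P := i2
      have hd : t.2.2.2 - t.2.1.2 = d := by omega
      have hQ : Q = P := by omega
      rw [hd, hQ] at f5
      have z1 : t.2.2.2 < t.2.1.2 + 2 * K := by omega
      have z2 : t'.2.2.2 < t'.2.1.2 + 2 * K := by omega
      have u2 := lgb_t hKpos (by positivity) k3.2 k7.le z1 (hitB k5) (hitB k6)
      have u4 := lgb_t hKpos (by positivity) k3'.2 k7'.le z2 (hitB k5') (hitB k6')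
      rw [v2] at u2 u4
      have b2 : 2 * (16 * (2 : ℝ) ^ (l + s - r)) ≤ ((32 * 2 ^ (l + s - r) : ℕ) : ℝ) := by
        push_cast; linarith
      refine ⟨?_, lgb_tt b2 i1 i3 i4 i6 u2 u4⟩
      have hη0 : (0 : ℝ) ≤ (K : ℝ) / 2 ^ a := by positivity
      have hNN : 28 * ((K : ℝ) * ((K : ℝ) / 2 ^ a)) ≤
          ((64 * 2 ^ (m + 4 * s - 2 * r) : ℕ) : ℝ) := by
        rw [v1]
        push_cast
        have : (0 : ℝ) < 2 ^ (m + 4 * s - 2 * r) := by positivity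
        linarith
      have g1 := (lgb_diff k1' k1 k3'.2 k3.2 (hitA k5') (hitA k5) κ1).le
      refine lgb2_cc hη0 hNN g1 f5 (by omega) ?_
      rw [abs_le]
      have m1 : (K : ℝ) < t.2.1.2 := by exact_mod_cast k3.1
      have m2 : (t.2.1.2 : ℝ) < 3 * K := by exact_mod_cast k3.2
      have m1' : (K : ℝ) < t'.2.1.2 := by exact_mod_cast k3'.1
      have m2' : (t'.2.1.2 : ℝ) < 3 * K := by exact_mod_cast k3'.2
      constructor
      · show -(2 * (K : ℝ)) ≤ (t.2.1.2 : ℝ) - t'.2.1.2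
        linarith
      · show (t.2.1.2 : ℝ) - t'.2.1.2 ≤ 2 * (K : ℝ)
        linarith
  have h4 : 4 * 2 ^ r * (4 * 2 ^ r * (4 * 2 ^ r)) = 64 * 8 ^ r := by
    have : (8 : ℕ) ^ r = 2 ^ r * 2 ^ r * 2 ^ r := by rw [← mul_pow, ← mul_pow]; norm_num
    rw [this]; ring
  rw [h4] at hE3 hL3
  calc XE.card + 2 * XL.card ≤ 64 * 8 ^ r * ntot l m s r α0 β0 +
        2 * (64 * 8 ^ r * U2 l m s r α0 β0) := by
        refine Nat.add_le_add (hE3.trans (Nat.mul_le_mul_left _ hE4))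
          (Nat.mul_le_mul_left _ (hL3.trans (Nat.mul_le_mul_left _ hL4)))
    _ = 64 * 8 ^ r * (ntot l m s r α0 β0 + 2 * U2 l m s r α0 β0) := by ring
    _ ≤ _ := by
        apply Nat.mul_le_mul_right
        apply Nat.mul_le_mul_right
        norm_num

end MP_5e4520_nt
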