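import Pool.Agent.Lib.MP_5e4520_nt.LGA2
import Pool.Agent.Lib.MP_5e4520_nt.LGB1
import Pool.Agent.Lib.MP_5e4520_nt.LGB2

set_option autoImplicit false

/-!
# Geometry of small windows

`a = 2l+m`, `b = l+2m`, `Q1 = 2^(a+3s)`, `Q2 = 2^(b+3s)`, `L = 2^(l+m+2s)`, `K = L/2^r`,
`K' = 2^(l+m-s)`, `κ1 = 1/2^(l+s) = L/Q1 = K'/2^a`, `κ2 = 1/2^(m+s) = L/Q2 = K'/2^b`.
-/

namespace MP_5e4520_nt

open Finset

theorem lgc_pow_r {s r : ℕ} (h : 8 * r + 5 ≤ 3 * s) : (2 : ℝ) ^ (2 * r) ≤ 2 ^ (3 * s) :=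
  pow_le_pow_right₀ (by norm_num) (by omega)

/-- final numerical step -/
theorem lgc_num {P S1 S2 X R G : ℝ} (hP : 0 ≤ P) (hX : 0 < X) (hR : 0 < R) (hG : 0 < G)
    (h1 : 3 / 64 * X ^ 2 / R ≤ S1) (h2 : S2 ≤ 75 * G * X ^ 2 / R) (h3 : S1 ^ 2 ≤ P * S2) :
    X ^ 2 / (65536 * R * G) ≤ P := by
  have h4 : (3 / 64 * X ^ 2 / R) ^ 2 ≤ S1 ^ 2 :=
    pow_le_pow_left₀ (by positivity) h1 2
  have h5 : P * S2 ≤ P * (75 * G * X ^ 2 / R) := mul_le_mul_of_nonneg_left h2 hP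
  have h6 : (3 / 64 * X ^ 2 / R) ^ 2 ≤ P * (75 * G * X ^ 2 / R) := h4.trans (h3.trans h5)
  by_contra hlt
  push Not at hlt
  have h7 : P * (75 * G * X ^ 2 / R) ≤ X ^ 2 / (65536 * R * G) * (75 * G * X ^ 2 / R) :=
    mul_le_mul_of_nonneg_right hlt.le (by positivity)
  have h8 : X ^ 2 / (65536 * R * G) * (75 * G * X ^ 2 / R) = 75 / 65536 * (X ^ 4 / R ^ 2) := by
    field_simp
  have h9 : (3 / 64 * X ^ 2 / R) ^ 2 = 9 / 4096 * (X ^ 4 / R ^ 2) := by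
    field_simp
    ring
  have h10 : 0 < X ^ 4 / R ^ 2 := by positivity
  rw [h8] at h7
  rw [h9] at h6
  linarith

open Classical in
/-- `#{N > 0} ≥ (∑N)²/∑N²` over `A ∉ U`, all `B` (Cauchy-Schwarz).  At least
`2^(3s)(1 - 1/2 - 1/8)` values `A ∉ U` satisfy the `ZL` bound (`g1`), each with `∑_B N ≥ 2^(3s)/2^r/8`
(`LGA`): `∑ N ≥ (3/64) 2^(6s)/2^r`.  `∑ N² ≤ 25·4^r·3G·2^(6s)/2^(3r) = 75 G 2^(6s)/2^r` (`LGB1`, `g2`, `g3`).
`(3/64)²/75 ≥ 1/2^16`. -/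
theorem LemGeoA (l m s r G α0 β0 γ δ : ℕ) (hP : ParS l m s r) (hG : 0 < G)
    (hα0 : α0 < 2 ^ (2 * l + m)) (hβ0 : β0 < 2 ^ (l + 2 * m)) (hL : LGen l m s r G α0 β0)
    (U : Finset ℕ) (hU : U ⊆ range (2 ^ (3 * s))) (h2 : 2 * U.card ≤ 2 ^ (3 * s)) :
    (2 : ℝ) ^ (6 * s) / (2 ^ (16 + r) * G) ≤
      (((range (2 ^ (3 * s)) ×ˢ range (2 ^ (3 * s))).filter (fun p => p.1 ∉ U ∧
        Hit l m s r (α0 * 2 ^ (3 * s) + p.1) (β0 * 2 ^ (3 * s) + p.2) γ δ)).card : ℝ) := by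
  set X : ℕ := 2 ^ (3 * s) with hX
  set N : ℕ → ℕ → ℕ := fun A B => Nhit l m s r (α0 * X + A) (β0 * X + B) γ δ with hN
  set P := (range X ×ˢ range X).filter (fun p => p.1 ∉ U ∧
        Hit l m s r (α0 * X + p.1) (β0 * X + p.2) γ δ) with hPdef
  set good := (range X).filter (fun A => A ∉ U ∧
    ZL l m s r (α0 * X + A) β0 ≤ (2 : ℝ) ^ (3 * s) / 2 ^ (2 * r) / 8) with hgood
  have hXpos : (0 : ℝ) < X := by rw [hX]; positivity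
  have hXr : (X : ℝ) = (2 : ℝ) ^ (3 * s) := by rw [hX]; push_cast; rfl
  have hGr : (0 : ℝ) < G := by exact_mod_cast hG
  have hRr : (0 : ℝ) < (2 : ℝ) ^ r := by positivity
  -- many good values of `A`
  have hgc : 3 / 8 * (X : ℝ) ≤ (good.card : ℝ) := by
    have hsub : range X ⊆ good ∪ (U ∪ (range X).filter (fun A =>
        (2 : ℝ) ^ (3 * s) / 2 ^ (2 * r) / 8 < ZL l m s r (α0 * X + A) β0)) := by
      intro A hA
      rw [mem_union, mem_union, hgood, mem_filter, mem_filter]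
      by_cases h1 : A ∈ U
      · exact Or.inr (Or.inl h1)
      · by_cases h3 : ZL l m s r (α0 * X + A) β0 ≤ (2 : ℝ) ^ (3 * s) / 2 ^ (2 * r) / 8
        · exact Or.inl ⟨hA, h1, h3⟩
        · exact Or.inr (Or.inr ⟨hA, lt_of_not_ge h3⟩)
    have h3 := (card_le_card hsub).trans ((card_union_le _ _).trans
      (add_le_add_right (card_union_le _ _) _))
    rw [card_range] at h3
    have h4 : (X : ℝ) ≤ good.card + (U.card + (((range X).filter (fun A =>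
        (2 : ℝ) ^ (3 * s) / 2 ^ (2 * r) / 8 < ZL l m s r (α0 * X + A) β0)).card : ℝ)) := by
      exact_mod_cast h3
    have h5 := hL.g1
    have h6 : 2 * (U.card : ℝ) ≤ X := by exact_mod_cast h2
    rw [← hXr] at h5
    rw [← hXr] at h4
    have h7 : (((range (2 ^ (3 * s))).filter (fun A =>
      (X : ℝ) / 2 ^ (2 * r) / 8 < ZL l m s r (α0 * 2 ^ (3 * s) + A) β0)).card : ℝ) =
        (((range X).filter (fun A =>
        (X : ℝ) / 2 ^ (2 * r) / 8 < ZL l m s r (α0 * X + A) β0)).card : ℝ) := rfl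
    rw [h7] at h5
    linarith
  -- first moment
  have hS1 : 3 / 64 * (X : ℝ) ^ 2 / 2 ^ r ≤ ∑ p ∈ P, (N p.1 p.2 : ℝ) := by
    have e1 : ∑ A ∈ good, ∑ B ∈ range X, (N A B : ℝ) ≤ ∑ p ∈ P, (N p.1 p.2 : ℝ) := by
      rw [← sum_product' good (range X) (fun A B => (N A B : ℝ))]
      have e2 : ∑ p ∈ good ×ˢ range X, (N p.1 p.2 : ℝ) =
          ∑ p ∈ (good ×ˢ range X).filter (fun p => N p.1 p.2 ≠ 0), (N p.1 p.2 : ℝ) := by
        rw [sum_filter]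
        apply sum_congr rfl
        intro p _
        by_cases h0 : N p.1 p.2 = 0
        · simp [h0]
        · simp [h0]
      rw [e2]
      apply sum_le_sum_of_subset_of_nonneg
      · intro p hp
        rw [mem_filter, mem_product, hgood, mem_filter] at hp
        rw [hPdef, mem_filter, mem_product]
        refine ⟨⟨hp.1.1.1, hp.1.2⟩, hp.1.1.2.1, ?_⟩
        rw [Hit_iff_Nhit]
        exact Nat.pos_of_ne_zero hp.2
      · intro p _ _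
        positivity
    have e3 : ∀ A ∈ good, (X : ℝ) / 2 ^ r / 8 ≤ ∑ B ∈ range X, (N A B : ℝ) := by
      intro A hA
      rw [hgood, mem_filter] at hA
      have := LGA l m s r (α0 * X + A) β0 γ δ hP hA.2.2
      rw [← hXr] at this
      exact this
    have e4 : (good.card : ℝ) * ((X : ℝ) / 2 ^ r / 8) ≤ ∑ A ∈ good, ∑ B ∈ range X, (N A B : ℝ) := by
      have := sum_le_sum e3
      rwa [sum_const, nsmul_eq_mul] at this
    have e5 : 3 / 8 * (X : ℝ) * ((X : ℝ) / 2 ^ r / 8) ≤ (good.card : ℝ) * ((X : ℝ) / 2 ^ r / 8) :=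
      mul_le_mul_of_nonneg_right hgc (by positivity)
    have e6 : 3 / 8 * (X : ℝ) * ((X : ℝ) / 2 ^ r / 8) = 3 / 64 * (X : ℝ) ^ 2 / 2 ^ r := by ring
    linarith
  -- second moment
  have hS2 : ∑ p ∈ P, (N p.1 p.2 : ℝ) ^ 2 ≤ 75 * G * (X : ℝ) ^ 2 / 2 ^ r := by
    have e1 : ∑ p ∈ P, (N p.1 p.2 : ℝ) ^ 2 ≤ ∑ p ∈ range X ×ˢ range X, (N p.1 p.2 : ℝ) ^ 2 :=
      sum_le_sum_of_subset_of_nonneg (filter_subset _ _) (fun p _ _ => by positivity)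
    have e2 : ∑ p ∈ range X ×ˢ range X, (N p.1 p.2 : ℝ) ^ 2 =
        ∑ A ∈ range X, ∑ B ∈ range X, (N A B : ℝ) ^ 2 :=
      sum_product' (range X) (range X) (fun A B => (N A B : ℝ) ^ 2)
    have e3 := LGB1 l m s r α0 β0 γ δ hP hα0 hβ0 hL.g5
    have e4 : ∑ A ∈ range X, ∑ B ∈ range X, (N A B : ℝ) ^ 2 ≤
        25 * 4 ^ r * ((ntot l m s r α0 β0 : ℝ) + 2 * (U1 l m s r α0 β0 : ℝ)) := by
      exact_mod_cast e3
    have e5 := hL.g2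
    have e6 := hL.g3
    have e7 : (2 : ℝ) ^ (6 * s) = (X : ℝ) ^ 2 := by
      rw [hXr, ← pow_mul]; congr 1; ring
    rw [e7] at e5 e6
    have e8 : (25 : ℝ) * 4 ^ r * ((ntot l m s r α0 β0 : ℝ) + 2 * (U1 l m s r α0 β0 : ℝ)) ≤
        25 * 4 ^ r * (3 * (G * (X : ℝ) ^ 2 / 2 ^ (3 * r))) :=
      mul_le_mul_of_nonneg_left (by linarith) (by positivity)
    have e9 : (25 : ℝ) * 4 ^ r * (3 * (G * (X : ℝ) ^ 2 / 2 ^ (3 * r))) =
        75 * G * (X : ℝ) ^ 2 / 2 ^ r := by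
      have f1 : (4 : ℝ) ^ r = 2 ^ r * 2 ^ r := by
        rw [← mul_pow]; norm_num
      have f2 : (2 : ℝ) ^ (3 * r) = 2 ^ r * 2 ^ r * 2 ^ r := by
        rw [← pow_add, ← pow_add]; congr 1; ring
      rw [f1, f2]
      field_simp
      ring
    linarith
  -- Cauchy-Schwarz
  have hCS : (∑ p ∈ P, (N p.1 p.2 : ℝ)) ^ 2 ≤ (P.card : ℝ) * ∑ p ∈ P, (N p.1 p.2 : ℝ) ^ 2 :=
    sq_sum_le_card_mul_sum_sq
  have hfin := lgc_num (Nat.cast_nonneg P.card) hXpos hRr hGr hS1 hS2 hCS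
  have e7 : (2 : ℝ) ^ (6 * s) = (X : ℝ) ^ 2 := by
    rw [hXr, ← pow_mul]; congr 1; ring
  rw [e7, pow_add]
  have e8 : (2 : ℝ) ^ 16 = 65536 := by norm_num
  rw [e8]
  exact hfin

open Classical in
/-- `#{A : Hit} ≤ ∑_A N`, `LGB2`, `g2`, `g4` (`2^(6s)/2^(3r) ≤ 2^(9s)/2^(5r)`) -/
theorem LemGeoB (l m s r G α0 β0 γ δ : ℕ) (hP : ParS l m s r)
    (hα0 : α0 < 2 ^ (2 * l + m)) (hβ0 : β0 < 2 ^ (l + 2 * m)) (hL : LGen l m s r G α0 β0) :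
    ∑ B ∈ range (2 ^ (3 * s)), (((range (2 ^ (3 * s))).filter (fun A =>
        Hit l m s r (α0 * 2 ^ (3 * s) + A) (β0 * 2 ^ (3 * s) + B) γ δ)).card : ℝ) ^ 2 ≤
      375 * G * 2 ^ (9 * s) / 2 ^ (2 * r) := by
  set X : ℕ := 2 ^ (3 * s) with hX
  have hXpos : (0 : ℝ) < X := by rw [hX]; positivity
  have hXr : (X : ℝ) = (2 : ℝ) ^ (3 * s) := by rw [hX]; push_cast; rfl
  set N : ℕ → ℕ → ℕ := fun A B => Nhit l m s r (α0 * X + A) (β0 * X + B) γ δ with hN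
  have h1 : ∀ B ∈ range X, (((range X).filter (fun A =>
        Hit l m s r (α0 * X + A) (β0 * X + B) γ δ)).card : ℝ) ^ 2 ≤
      ((∑ A ∈ range X, N A B : ℕ) : ℝ) ^ 2 := by
    intro B _
    refine pow_le_pow_left₀ (Nat.cast_nonneg _) ?_ 2
    have : ((range X).filter (fun A =>
        Hit l m s r (α0 * X + A) (β0 * X + B) γ δ)).card ≤ ∑ A ∈ range X, N A B := by
      rw [card_filter]
      apply sum_le_sum
      intro A _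
      by_cases hh : Hit l m s r (α0 * X + A) (β0 * X + B) γ δ
      · rw [if_pos hh]
        exact (Hit_iff_Nhit _ _ _ _ _ _ _ _).1 hh
      · rw [if_neg hh]
        exact Nat.zero_le _
    exact_mod_cast this
  refine (sum_le_sum h1).trans ?_
  have e3 := LGB2 l m s r α0 β0 γ δ hP hα0 hβ0 hL.g5
  have e4 : ∑ B ∈ range X, ((∑ A ∈ range X, N A B : ℕ) : ℝ) ^ 2 ≤
      125 * 8 ^ r * ((ntot l m s r α0 β0 : ℝ) + 2 * (U2 l m s r α0 β0 : ℝ)) := by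
    exact_mod_cast e3
  refine e4.trans ?_
  have e5 := hL.g2
  have e6 := hL.g4
  have e7 : (2 : ℝ) ^ (6 * s) = (X : ℝ) ^ 2 := by
    rw [hXr, ← pow_mul]; congr 1; ring
  have e7' : (2 : ℝ) ^ (9 * s) = (X : ℝ) ^ 3 := by
    rw [hXr, ← pow_mul]; congr 1; ring
  rw [e7] at e5
  rw [e7'] at e6 ⊢
  have hr2 : (2 : ℝ) ^ (2 * r) ≤ X := by rw [hXr]; exact lgc_pow_r hP.rs
  have f0 : (0 : ℝ) < 2 ^ r := by positivity
  have f1 : (2 : ℝ) ^ (2 * r) = 2 ^ r * 2 ^ r := by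
    rw [← pow_add]; congr 1; ring
  have f3 : (2 : ℝ) ^ (3 * r) = 2 ^ r * 2 ^ r * 2 ^ r := by
    rw [← pow_add, ← pow_add]; congr 1; ring
  have f5 : (2 : ℝ) ^ (5 * r) = (2 ^ r * 2 ^ r * 2 ^ r) * (2 ^ r * 2 ^ r) := by
    rw [← f3, ← f1, ← pow_add]; congr 1; ring
  have f8 : (8 : ℝ) ^ r = 2 ^ r * 2 ^ r * 2 ^ r := by
    rw [← mul_pow, ← mul_pow]; norm_num
  rw [f3] at e5
  rw [f5] at e6
  rw [f1] at hr2
  rw [f8, f1]
  have e8 : (G : ℝ) * (X : ℝ) ^ 2 / (2 ^ r * 2 ^ r * 2 ^ r) ≤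
      G * (X : ℝ) ^ 3 / ((2 ^ r * 2 ^ r * 2 ^ r) * (2 ^ r * 2 ^ r)) := by
    rw [div_le_div_iff₀ (by positivity) (by positivity)]
    have : (G : ℝ) * (X : ℝ) ^ 2 * (2 ^ r * 2 ^ r * 2 ^ r) * (2 ^ r * 2 ^ r) ≤
        (G : ℝ) * (X : ℝ) ^ 2 * (2 ^ r * 2 ^ r * 2 ^ r) * X :=
      mul_le_mul_of_nonneg_left hr2 (by positivity)
    calc (G : ℝ) * (X : ℝ) ^ 2 * (2 ^ r * 2 ^ r * 2 ^ r * (2 ^ r * 2 ^ r)) =
          (G : ℝ) * (X : ℝ) ^ 2 * (2 ^ r * 2 ^ r * 2 ^ r) * (2 ^ r * 2 ^ r) := by ring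
      _ ≤ (G : ℝ) * (X : ℝ) ^ 2 * (2 ^ r * 2 ^ r * 2 ^ r) * X := this
      _ = (G : ℝ) * (X : ℝ) ^ 3 * (2 ^ r * 2 ^ r * 2 ^ r) := by ring
  have e9 : (125 : ℝ) * (2 ^ r * 2 ^ r * 2 ^ r) *
      ((ntot l m s r α0 β0 : ℝ) + 2 * (U2 l m s r α0 β0 : ℝ)) ≤
      125 * (2 ^ r * 2 ^ r * 2 ^ r) *
        (3 * (G * (X : ℝ) ^ 3 / ((2 ^ r * 2 ^ r * 2 ^ r) * (2 ^ r * 2 ^ r)))) :=
    mul_le_mul_of_nonneg_left (by linarith) (by positivity)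
  refine e9.trans (le_of_eq ?_)
  field_simp
  ring

end MP_5e4520_nt
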