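import Pool.Agent.Lib.MP_5e4520_nt.Bump

set_option autoImplicit false

/-!
# Geometry of small windows

`a = 2l+m`, `b = l+2m`, `Q1 = 2^(a+3s)`, `Q2 = 2^(b+3s)`, `L = 2^(l+m+2s)`, `K = L/2^r`,
`K' = 2^(l+m-s)`, `κ1 = 1/2^(l+s) = L/Q1 = K'/2^a`, `κ2 = 1/2^(m+s) = L/Q2 = K'/2^b`.
-/

namespace MP_5e4520_nt

open Finset

/-- standing assumptions for small windows -/
structure ParS (l m s r : ℕ) : Prop where
  r12 : 12 ≤ r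
  rs : 8 * r + 5 ≤ 3 * s
  sl : 2 * s ≤ l
  sm : 2 * s ≤ m

theorem ParS.par {l m s r : ℕ} (h : ParS l m s r) : Par l m s r :=
  ⟨by have := h.r12; omega, h.rs, by have := h.sl; omega, by have := h.sm; omega⟩

/-- condition `g5` of `LGen` -/
def G5 (l m s r α0 β0 : ℕ) : Prop :=
  ∀ d : ℕ, 1 ≤ d → d ≤ 2 ^ (l + m - s) →
      ¬ (nd ((d : ℝ) * α0 / 2 ^ (2 * l + m)) ≤ 7 * 2 ^ (l + m + 2 * s - r) / 2 ^ (2 * l + m) ∧
         nd ((d : ℝ) * β0 / 2 ^ (l + 2 * m)) ≤ 4 / 2 ^ (m + s) + d / 2 ^ (l + 2 * m))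

end MP_5e4520_nt
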