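import Pool.Agent.Lib.MP_5e4520_nt.LGD

set_option autoImplicit false

/-!
# Geometry of small windows

`a = 2l+m`, `b = l+2m`, `Q1 = 2^(a+3s)`, `Q2 = 2^(b+3s)`, `L = 2^(l+m+2s)`, `K = L/2^r`,
`K' = 2^(l+m-s)`, `κ1 = 1/2^(l+s) = L/Q1 = K'/2^a`, `κ2 = 1/2^(m+s) = L/Q2 = K'/2^b`.
-/

namespace MP_5e4520_nt

open Finset

open Classical in
/-- For a given integer `q > K` and real target, the number of words `A` with
`|q(α0 2^(3s)+A)/Q - x| < 2κ` (`κ Q = L`, `L = 2^r K`) is at most `4·2^r`: the `A` lie in an open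
interval of length `4 L/q < 4·2^r`. -/
theorem words (s r K e α0 q : ℕ) (hK : 0 < K) (hq : K < q) (x : ℝ) :
    ((range (2 ^ (3 * s))).filter (fun A : ℕ =>
      |(q : ℝ) * ((α0 * 2 ^ (3 * s) + A : ℕ) : ℝ) / 2 ^ e - x| < 2 * (2 ^ r * K) / 2 ^ e)).card ≤
      4 * 2 ^ r := by
  classical
  set T := (range (2 ^ (3 * s))).filter (fun A : ℕ =>
      |(q : ℝ) * ((α0 * 2 ^ (3 * s) + A : ℕ) : ℝ) / 2 ^ e - x| < 2 * (2 ^ r * K) / 2 ^ e) with hT
  rcases T.eq_empty_or_nonempty with h0 | hne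
  · rw [h0]; simp
  have hq0 : (0 : ℝ) < q := by
    have : 0 < q := by omega
    exact_mod_cast this
  have hKq : (K : ℝ) < q := by exact_mod_cast hq
  have h2e : (0 : ℝ) < 2 ^ e := by positivity
  have h2r : (0 : ℝ) < 2 ^ r := by positivity
  have key : ∀ A ∈ T, ∀ B ∈ T, A ≤ B → B < A + 4 * 2 ^ r := by
    intro A hA B hB hAB
    rw [hT, mem_filter] at hA hB
    have h1 := hA.2
    have h2 := hB.2
    rw [lt_div_iff₀ h2e, ← abs_of_pos h2e, ← abs_mul, abs_of_pos h2e, sub_mul,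
      div_mul_cancel₀ _ h2e.ne'] at h1 h2
    rw [abs_lt] at h1 h2
    push_cast at h1 h2
    have h3 : (q : ℝ) * ((B : ℝ) - A) < 4 * (2 ^ r * K) := by nlinarith [h1.1, h2.2]
    have h4 : (4 : ℝ) * (2 ^ r * K) < q * (4 * 2 ^ r) := by nlinarith
    have h5 : (q : ℝ) * ((B : ℝ) - A) < q * (4 * 2 ^ r) := h3.trans h4
    have h6 : (B : ℝ) - A < 4 * 2 ^ r := lt_of_mul_lt_mul_left h5 hq0.le
    have h7 : (B : ℝ) < ((A + 4 * 2 ^ r : ℕ) : ℝ) := by push_cast; linarith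
    exact_mod_cast h7
  have hsub : T ⊆ Ico (T.min' hne) (T.min' hne + 4 * 2 ^ r) := by
    intro B hB
    rw [mem_Ico]
    exact ⟨T.min'_le B hB, key _ (T.min'_mem hne) B hB (T.min'_le B hB)⟩
  refine (card_le_card hsub).trans ?_
  rw [Nat.card_Ico]
  omega


end MP_5e4520_nt
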