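import Pool.Agent.Lib.MP_5e4520_nt.FT
import Pool.Agent.Lib.MP_5e4520_nt.LHDef

set_option autoImplicit false

namespace MP_5e4520_nt

open Finset

theorem lha_sum3 {ι₁ ι₂ ι₃ M : Type*} [AddCommMonoid M] (s₁ : Finset ι₁) (s₂ : Finset ι₂)
    (s₃ : Finset ι₃) (f : ι₁ → ι₂ → ι₃ → M) :
    ∑ a ∈ s₁, ∑ b ∈ s₂, ∑ c ∈ s₃, f a b c = ∑ b ∈ s₂, ∑ c ∈ s₃, ∑ a ∈ s₁, f a b c := by
  rw [Finset.sum_comm]
  refine Finset.sum_congr rfl fun b _ => ?_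
  rw [Finset.sum_comm]

theorem lha_sum4 {ι₁ ι₂ ι₃ ι₄ M : Type*} [AddCommMonoid M] (s₁ : Finset ι₁) (s₂ : Finset ι₂)
    (s₃ : Finset ι₃) (s₄ : Finset ι₄) (f : ι₁ → ι₂ → ι₃ → ι₄ → M) :
    ∑ a ∈ s₁, ∑ b ∈ s₂, ∑ c ∈ s₃, ∑ d ∈ s₄, f a b c d =
      ∑ c ∈ s₃, ∑ d ∈ s₄, ∑ a ∈ s₁, ∑ b ∈ s₂, f a b c d := by
  rw [← lha_sum3 s₁ s₃ s₄ (fun a c d => ∑ b ∈ s₂, f a b c d)]
  refine Finset.sum_congr rfl fun a _ => ?_
  rw [lha_sum3]

/-- the phase -/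
noncomputable def lha_th (l m u α β0 B h1 h2 : ℕ) : ℝ :=
  (h1 : ℝ) * α / 2 ^ (2 * l + m + 3 * u) + (h2 : ℝ) * ((β0 * 2 ^ (3 * u) + B : ℕ) : ℝ) /
    2 ^ (l + 2 * m + 3 * u)

theorem lha_th_eq (l m u α β0 B h1 h2 : ℕ) :
    lha_th l m u α β0 B h1 h2 =
      (h1 : ℝ) * α / 2 ^ (2 * l + m + 3 * u) + (h2 : ℝ) * β0 / 2 ^ (l + 2 * m) +
          B * ((h2 : ℝ) / 2 ^ (l + 2 * m + 3 * u)) := by
  unfold lha_th
  have h : (2 : ℝ) ^ (l + 2 * m + 3 * u) = 2 ^ (l + 2 * m) * 2 ^ (3 * u) := by rw [← pow_add]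
  push_cast
  rw [h]
  have h1 : (2 : ℝ) ^ (l + 2 * m) ≠ 0 := by positivity
  have h2 : (2 : ℝ) ^ (3 * u) ≠ 0 := by positivity
  field_simp
  ring

/-- the weight -/
noncomputable def lha_w (l m u r α β0 B h1 h2 : ℕ) : ℝ :=
  ctri (2 ^ (l + m + 2 * u)) (2 ^ (2 * l + m + 3 * u)) h1 *
    cqua (2 ^ (l + m + 2 * u)) (2 ^ (l + 2 * m + 3 * u)) h2 *
    fej (2 ^ (l + m + 2 * u - r)) (lha_th l m u α β0 B h1 h2)

theorem lha_w_nonneg (l m u r α β0 B h1 h2 : ℕ) : 0 ≤ lha_w l m u r α β0 B h1 h2 :=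
  mul_nonneg (mul_nonneg (ctri_nonneg _ _ _) (cqua_nonneg _ _ _)) (fej_nonneg _ _)

/-- the unimodular factor -/
noncomputable def lha_E (l m u r α β0 γ0 δ0 B h1 h2 : ℕ) : ℂ :=
  ee (2 * 2 ^ (l + m + 2 * u - r) * lha_th l m u α β0 B h1 h2 -
    ((h1 : ℝ) * (γ0 * 2 ^ u) / 2 ^ (l + u) + (h2 : ℝ) * (δ0 * 2 ^ u) / 2 ^ (m + u)))

/-- Fourier expansion of one smooth hit count. -/
theorem lha_FF (l m u r α β0 γ0 δ0 B c d : ℕ) (hP : Par l m u r) :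
    ((FF l m u r α (β0 * 2 ^ (3 * u) + B) (γ0 * 2 ^ u + c) (δ0 * 2 ^ u + d) : ℝ) : ℂ) =
      ∑ h1 ∈ range (2 ^ (2 * l + m + 3 * u)), ∑ h2 ∈ range (2 ^ (l + 2 * m + 3 * u)),
        ((lha_w l m u r α β0 B h1 h2 : ℝ) : ℂ) * (lha_E l m u r α β0 γ0 δ0 B h1 h2 *
          ee (-((h1 : ℝ) * c / 2 ^ (l + u) + (h2 : ℝ) * d / 2 ^ (m + u)))) := by
  rw [FF_ft l m u r _ _ _ _ hP]
  refine Finset.sum_congr rfl fun h1 _ => Finset.sum_congr rfl fun h2 _ => ?_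
  unfold lha_E
  rw [← ee_add]
  congr 2
  unfold lha_th
  push_cast
  ring

theorem lha_T (l m u r α β0 γ0 δ0 : ℕ) (hP : Par l m u r) (ν : ℕ → ℝ) (ρ : ℕ → ℕ → ℝ) :
    ((∑ B ∈ range (2 ^ (3 * u)), ∑ c ∈ range (2 ^ u), ∑ d ∈ range (2 ^ u),
        ν B * ρ c d * FF l m u r α (β0 * 2 ^ (3 * u) + B) (γ0 * 2 ^ u + c) (δ0 * 2 ^ u + d) : ℝ) : ℂ)
      = ∑ h1 ∈ range (2 ^ (2 * l + m + 3 * u)), ∑ h2 ∈ range (2 ^ (l + 2 * m + 3 * u)),
        ∑ B ∈ range (2 ^ (3 * u)), ((ν B * lha_w l m u r α β0 B h1 h2 : ℝ) : ℂ) *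
          (lha_E l m u r α β0 γ0 δ0 B h1 h2 * rhat l m u ρ h1 h2) := by
  have key : ∀ B, (∑ c ∈ range (2 ^ u), ∑ d ∈ range (2 ^ u),
      ((ν B * ρ c d * FF l m u r α (β0 * 2 ^ (3 * u) + B) (γ0 * 2 ^ u + c) (δ0 * 2 ^ u + d) : ℝ)
        : ℂ)) = ∑ h1 ∈ range (2 ^ (2 * l + m + 3 * u)), ∑ h2 ∈ range (2 ^ (l + 2 * m + 3 * u)),
        ((ν B * lha_w l m u r α β0 B h1 h2 : ℝ) : ℂ) *
          (lha_E l m u r α β0 γ0 δ0 B h1 h2 * rhat l m u ρ h1 h2) := by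
    intro B
    have e1 : ∀ h1 h2, ((ν B * lha_w l m u r α β0 B h1 h2 : ℝ) : ℂ) *
          (lha_E l m u r α β0 γ0 δ0 B h1 h2 * rhat l m u ρ h1 h2) =
        ∑ c ∈ range (2 ^ u), ∑ d ∈ range (2 ^ u), ((ν B * ρ c d : ℝ) : ℂ) *
          (((lha_w l m u r α β0 B h1 h2 : ℝ) : ℂ) * (lha_E l m u r α β0 γ0 δ0 B h1 h2 *
          ee (-((h1 : ℝ) * c / 2 ^ (l + u) + (h2 : ℝ) * d / 2 ^ (m + u))))) := by
      intro h1 h2
      unfold rhat
      rw [Finset.mul_sum, Finset.mul_sum]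
      refine Finset.sum_congr rfl fun c _ => ?_
      rw [Finset.mul_sum, Finset.mul_sum]
      refine Finset.sum_congr rfl fun d _ => ?_
      push_cast
      ring
    refine Eq.trans ?_ (Finset.sum_congr rfl fun h1 _ => Finset.sum_congr rfl fun h2 _ =>
      (e1 h1 h2).symm)
    refine Eq.trans ?_ (lha_sum4 (range (2 ^ u)) (range (2 ^ u)) _ _ _)
    refine Finset.sum_congr rfl fun c _ => Finset.sum_congr rfl fun d _ => ?_
    rw [Complex.ofReal_mul, lha_FF l m u r α β0 γ0 δ0 B c d hP, Finset.mul_sum]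
    refine Finset.sum_congr rfl fun h1 _ => ?_
    rw [Finset.mul_sum]
  refine Eq.trans ?_ (lha_sum3 (range (2 ^ (3 * u))) _ _ _)
  push_cast
  refine Finset.sum_congr rfl fun B _ => ?_
  have := key B
  push_cast at this
  exact this

theorem lha_rhat_le (l m u : ℕ) (ρ : ℕ → ℕ → ℝ) (hρ0 : ∀ c d, 0 ≤ ρ c d) (h1 h2 : ℕ) :
    ‖rhat l m u ρ h1 h2‖ ≤ ∑ c ∈ range (2 ^ u), ∑ d ∈ range (2 ^ u), ρ c d := by
  unfold rhat
  refine (norm_sum_le _ _).trans (Finset.sum_le_sum fun c _ => ?_)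
  refine (norm_sum_le _ _).trans (Finset.sum_le_sum fun d _ => ?_)
  rw [norm_mul, norm_ee, mul_one, Complex.norm_real, Real.norm_eq_abs, abs_of_nonneg (hρ0 c d)]

theorem lha_rhat_zero (l m u : ℕ) (ρ : ℕ → ℕ → ℝ) :
    rhat l m u ρ 0 0 = ((∑ c ∈ range (2 ^ u), ∑ d ∈ range (2 ^ u), ρ c d : ℝ) : ℂ) := by
  unfold rhat
  push_cast
  refine Finset.sum_congr rfl fun c _ => Finset.sum_congr rfl fun d _ => ?_
  have : (-((0 : ℝ) * c / 2 ^ (l + u) + (0 : ℝ) * d / 2 ^ (m + u))) = 0 := by simp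
  rw [this, ee_zero, mul_one]

theorem lha_fej_zero (K : ℕ) (hK : 0 < K) : fej K 0 = K := by
  unfold fej
  have : ∀ i ∈ range K, ee ((i : ℝ) * 0) = 1 := by
    intro i _
    rw [mul_zero, ee_zero]
  rw [Finset.sum_congr rfl this]
  have hK' : (K : ℝ) ≠ 0 := by positivity
  simp
  field_simp

theorem lha_main (l m u r α β0 B : ℕ) (hP : Par l m u r) :
    1 / 2 ^ r ≤ lha_w l m u r α β0 B 0 0 := by
  have hru : r ≤ l + m + 2 * u := by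
    have := hP.ru; have := hP.ul; omega
  unfold lha_w
  have h0 : lha_th l m u α β0 B 0 0 = 0 := by unfold lha_th; simp
  rw [h0, lha_fej_zero _ (by positivity), ctri_at_zero _ _ (by positivity)]
  have h1 := cqua_at_zero (2 ^ (l + m + 2 * u)) (2 ^ (l + 2 * m + 3 * u)) (by positivity)
  push_cast at h1 ⊢
  have h2 : (1 : ℝ) / 2 ^ r = 2 ^ (l + m + 2 * u) / 2 ^ (2 * l + m + 3 * u) *
      (2 ^ (l + m + 2 * u) / 2 ^ (l + 2 * m + 3 * u)) * 2 ^ (l + m + 2 * u - r) := by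
    have e1 : (2 : ℝ) ^ (2 * l + m + 3 * u) = 2 ^ (l + m + 2 * u) * 2 ^ (l + u) := by
      rw [← pow_add]; congr 1; ring
    have e2 : (2 : ℝ) ^ (l + 2 * m + 3 * u) = 2 ^ (l + m + 2 * u) * 2 ^ (m + u) := by
      rw [← pow_add]; congr 1; ring
    have e3 : (2 : ℝ) ^ (l + u) * 2 ^ (m + u) = 2 ^ (l + m + 2 * u - r) * 2 ^ r := by
      rw [← pow_add, ← pow_add]; congr 1; omega
    rw [e1, e2]
    have p1 : (2 : ℝ) ^ (l + m + 2 * u) ≠ 0 := by positivity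
    have p2 : (2 : ℝ) ^ (l + u) ≠ 0 := by positivity
    have p3 : (2 : ℝ) ^ (m + u) ≠ 0 := by positivity
    have p4 : (2 : ℝ) ^ r ≠ 0 := by positivity
    field_simp
    linarith [e3]
  rw [h2]
  gcongr

/-- Main term minus errors.  Insert `FF_ft` with `β = β0 2^(3u) + B`, `γ = γ0 2^u + c`,
`δ = δ0 2^u + d` (`h2 β/Q2 = h2 β0/2^b + B h2/Q2`).  Frequency `0` contributes
`K ctri(0) cqua(0) N R ≥ 2^{-r} N R` (`ctri_at_zero`, `cqua_at_zero`, `fej K 0 = K`,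
`K (L/Q1) (L/Q2) = 2^{-r}`).  Low nonzero frequencies: absolute value `≤ Zlow ≤ 2^{-r}/4` for each `B`
with `ν B ≠ 0` (`Gen2`).  High frequencies: sum over `(c,d)` first, it gives `rhat` up to a phase of
modulus one (the `γ0`, `δ0` phase and `e(2Kθ)`), total at most `HI`. -/
theorem LH_main (l m u r α β0 γ0 δ0 : ℕ) (hP : Par l m u r) (ν : ℕ → ℝ) (ρ : ℕ → ℕ → ℝ)
    (hν0 : ∀ B, 0 ≤ ν B) (hρ0 : ∀ c d, 0 ≤ ρ c d)
    (hgen : ∀ B < 2 ^ (3 * u), ν B ≠ 0 → Gen12 l m u r α (β0 * 2 ^ (3 * u) + B)) :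
    (1 / 2 ^ r - 1 / (4 * 2 ^ r)) * (∑ B ∈ range (2 ^ (3 * u)), ν B) *
        (∑ c ∈ range (2 ^ u), ∑ d ∈ range (2 ^ u), ρ c d) - HI l m u r α β0 ν ρ ≤
      ∑ B ∈ range (2 ^ (3 * u)), ∑ c ∈ range (2 ^ u), ∑ d ∈ range (2 ^ u),
        ν B * ρ c d * FF l m u r α (β0 * 2 ^ (3 * u) + B) (γ0 * 2 ^ u + c) (δ0 * 2 ^ u + d) := by
  classical
  set R : ℝ := ∑ c ∈ range (2 ^ u), ∑ d ∈ range (2 ^ u), ρ c d with hR
  have hR0 : 0 ≤ R := Finset.sum_nonneg fun c _ => Finset.sum_nonneg fun d _ => hρ0 c d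
  set T : ℕ → ℕ → ℂ := fun h1 h2 => ∑ B ∈ range (2 ^ (3 * u)),
    ((ν B * lha_w l m u r α β0 B h1 h2 : ℝ) : ℂ) *
          (lha_E l m u r α β0 γ0 δ0 B h1 h2 * rhat l m u ρ h1 h2) with hT
  set S : ℕ → ℕ → ℝ := fun h1 h2 => ∑ B ∈ range (2 ^ (3 * u)),
    ν B * lha_w l m u r α β0 B h1 h2 with hS
  have hS0 : ∀ h1 h2, 0 ≤ S h1 h2 := fun h1 h2 =>
    Finset.sum_nonneg fun B _ => mul_nonneg (hν0 B) (lha_w_nonneg _ _ _ _ _ _ _ _ _)
  -- norm bound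
  have hTn : ∀ h1 h2, ‖T h1 h2‖ ≤ ‖rhat l m u ρ h1 h2‖ * S h1 h2 := by
    intro h1 h2
    simp only [hT, hS]
    refine (norm_sum_le _ _).trans ?_
    rw [Finset.mul_sum]
    refine Finset.sum_le_sum fun B _ => ?_
    rw [norm_mul, norm_mul, Complex.norm_real, Real.norm_eq_abs,
      abs_of_nonneg (mul_nonneg (hν0 B) (lha_w_nonneg _ _ _ _ _ _ _ _ _))]
    have : ‖lha_E l m u r α β0 γ0 δ0 B h1 h2‖ = 1 := norm_ee _
    rw [this, one_mul, mul_comm]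
  -- real part
  have hre : (∑ B ∈ range (2 ^ (3 * u)), ∑ c ∈ range (2 ^ u), ∑ d ∈ range (2 ^ u),
        ν B * ρ c d * FF l m u r α (β0 * 2 ^ (3 * u) + B) (γ0 * 2 ^ u + c) (δ0 * 2 ^ u + d)) =
      ∑ h1 ∈ range (2 ^ (2 * l + m + 3 * u)), ∑ h2 ∈ range (2 ^ (l + 2 * m + 3 * u)),
        (T h1 h2).re := by
    have := congrArg Complex.re (lha_T l m u r α β0 γ0 δ0 hP ν ρ)
    rw [Complex.ofReal_re] at this
    rw [this, Complex.re_sum]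
    refine Finset.sum_congr rfl fun h1 _ => ?_
    rw [Complex.re_sum]
  rw [hre]
  -- pointwise bound
  have hpt : ∀ h1 h2, (if h1 = 0 ∧ h2 = 0 then R * S 0 0 else 0)
      - (if (h1 ≠ 0 ∨ h2 ≠ 0) ∧ lowh l m u r h2 then R * S h1 h2 else 0)
      - (if (h1 ≠ 0 ∨ h2 ≠ 0) ∧ ¬ lowh l m u r h2 then ‖rhat l m u ρ h1 h2‖ * S h1 h2 else 0)
      ≤ (T h1 h2).re := by
    intro h1 h2
    by_cases h0 : h1 = 0 ∧ h2 = 0
    · obtain ⟨rfl, rfl⟩ := h0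
      have hE : ∀ B, lha_E l m u r α β0 γ0 δ0 B 0 0 = 1 := by
        intro B
        unfold lha_E lha_th
        rw [← ee_zero]
        congr 1
        simp
      have hT0 : T 0 0 = ((R * S 0 0 : ℝ) : ℂ) := by
        simp only [hT, hS]
        rw [lha_rhat_zero, ← hR]
        push_cast
        rw [Finset.mul_sum]
        refine Finset.sum_congr rfl fun B _ => ?_
        rw [hE B]
        ring
      rw [hT0, Complex.ofReal_re]
      simp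
    · have h0' : h1 ≠ 0 ∨ h2 ≠ 0 := by
        by_contra hcon
        push Not at hcon
        exact h0 hcon
      have hlow := (abs_le.1 (Complex.abs_re_le_norm (T h1 h2))).1
      have hn := hTn h1 h2
      by_cases hl : lowh l m u r h2
      · have h3 : ‖rhat l m u ρ h1 h2‖ * S h1 h2 ≤ R * S h1 h2 :=
          mul_le_mul_of_nonneg_right (lha_rhat_le l m u ρ hρ0 h1 h2) (hS0 h1 h2)
        rw [if_neg h0, if_pos ⟨h0', hl⟩, if_neg (fun h => h.2 hl)]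
        linarith
      · rw [if_neg h0, if_neg (fun h => hl h.2), if_pos ⟨h0', hl⟩]
        linarith
  refine le_trans ?_ (Finset.sum_le_sum fun h1 _ => Finset.sum_le_sum fun h2 _ => hpt h1 h2)
  simp_rw [Finset.sum_sub_distrib]
  -- first sum
  have hs1 : ∑ h1 ∈ range (2 ^ (2 * l + m + 3 * u)), ∑ h2 ∈ range (2 ^ (l + 2 * m + 3 * u)),
      (if h1 = 0 ∧ h2 = 0 then R * S 0 0 else 0) = R * S 0 0 := by
    rw [Finset.sum_eq_single 0, Finset.sum_eq_single 0]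
    · simp
    · intro b _ hb
      rw [if_neg (fun h => hb h.2)]
    · intro h
      exact absurd (Finset.mem_range.2 (by positivity)) h
    · intro b _ hb
      refine Finset.sum_eq_zero fun h2 _ => ?_
      rw [if_neg (fun h => hb h.1)]
    · intro h
      exact absurd (Finset.mem_range.2 (by positivity)) h
  -- second sum
  have hs2 : ∑ h1 ∈ range (2 ^ (2 * l + m + 3 * u)), ∑ h2 ∈ range (2 ^ (l + 2 * m + 3 * u)),
      (if (h1 ≠ 0 ∨ h2 ≠ 0) ∧ lowh l m u r h2 then R * S h1 h2 else 0) =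
      R * ∑ B ∈ range (2 ^ (3 * u)), ν B * Zlow l m u r α (β0 * 2 ^ (3 * u) + B) := by
    have e1 : ∀ B, ν B * Zlow l m u r α (β0 * 2 ^ (3 * u) + B) =
        ∑ h1 ∈ range (2 ^ (2 * l + m + 3 * u)), ∑ h2 ∈ range (2 ^ (l + 2 * m + 3 * u)),
          if (h1 ≠ 0 ∨ h2 ≠ 0) ∧ lowh l m u r h2 then ν B * lha_w l m u r α β0 B h1 h2 else 0 := by
      intro B
      unfold Zlow
      rw [Finset.mul_sum]
      refine Finset.sum_congr rfl fun h1 _ => ?_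
      rw [Finset.mul_sum]
      refine Finset.sum_congr rfl fun h2 _ => ?_
      rw [mul_ite, mul_zero]
      rfl
    simp_rw [e1]
    rw [lha_sum3, Finset.mul_sum]
    refine Finset.sum_congr rfl fun h1 _ => ?_
    rw [Finset.mul_sum]
    refine Finset.sum_congr rfl fun h2 _ => ?_
    split_ifs
    · rfl
    · simp
  -- third sum
  have hs3 : ∑ h1 ∈ range (2 ^ (2 * l + m + 3 * u)), ∑ h2 ∈ range (2 ^ (l + 2 * m + 3 * u)),
      (if (h1 ≠ 0 ∨ h2 ≠ 0) ∧ ¬ lowh l m u r h2 then ‖rhat l m u ρ h1 h2‖ * S h1 h2 else 0) =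
      HI l m u r α β0 ν ρ := by
    unfold HI
    refine Finset.sum_congr rfl fun h1 _ => Finset.sum_congr rfl fun h2 _ => ?_
    split_ifs
    · simp only [hS]
      rw [Finset.mul_sum, Finset.mul_sum]
      refine Finset.sum_congr rfl fun B _ => ?_
      unfold lha_w
      rw [lha_th_eq]
      ring
    · rfl
  rw [hs1, hs2, hs3]
  have hN : ∀ B ∈ range (2 ^ (3 * u)), ν B * Zlow l m u r α (β0 * 2 ^ (3 * u) + B) ≤
      ν B * (1 / (4 * 2 ^ r)) := by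
    intro B hB
    by_cases h : ν B = 0
    · rw [h, zero_mul, zero_mul]
    · exact mul_le_mul_of_nonneg_left (hgen B (Finset.mem_range.1 hB) h).2 (hν0 B)
  have hN1 : ∑ B ∈ range (2 ^ (3 * u)), ν B * Zlow l m u r α (β0 * 2 ^ (3 * u) + B) ≤
      (∑ B ∈ range (2 ^ (3 * u)), ν B) * (1 / (4 * 2 ^ r)) := by
    rw [Finset.sum_mul]
    exact Finset.sum_le_sum hN
  have hN2 : (∑ B ∈ range (2 ^ (3 * u)), ν B) * (1 / 2 ^ r) ≤ S 0 0 := by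
    rw [Finset.sum_mul]
    exact Finset.sum_le_sum fun B _ =>
      mul_le_mul_of_nonneg_left (lha_main l m u r α β0 B hP) (hν0 B)
  have e1 := mul_le_mul_of_nonneg_left hN1 hR0
  have e2 := mul_le_mul_of_nonneg_left hN2 hR0
  nlinarith [e1, e2]

end MP_5e4520_nt
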