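import Pool.Agent.Lib.MP_5e4520_nt.CombD

set_option autoImplicit false

namespace MP_5e4520_nt

open Finset

/-- all numerical conditions -/
structure Num (M r Λ hi l0 s k w N1 I G : ℕ) : Prop where
  r12 : 12 ≤ r
  rs : 8 * r + 5 ≤ 3 * s
  hΛ : 1 ≤ Λ
  k1 : 1 ≤ k
  hw : 9 * I ≤ w
  hN : 3 * I + k ≤ N1
  l0s : 3 * (s * k) ≤ l0
  hi1 : 2 * l0 + 2 * s * N1 + s * w + 2 * (s * k) ≤ hi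
  hM : 2 * hi ≤ M
  u16 : 16 * (s * k) ^ 2 ≤ 2 ^ r
  u500 : 500 * (s * k) * Λ ≤ 2 ^ r
  u128 : 128 * (s * k) * Λ ≤ 2 ^ (s * k)
  hlog : 2 ^ 7 * (hi + 2) ≤ 2 ^ s
  hG : 2 ^ 34 * s * Λ ≤ G
  hr : 2 ^ 12 * Λ ≤ 2 ^ r
  hI : 2 ^ (19 + r) * G ≤ I
  hnum : (2 + 2 ^ 94 * (G : ℝ) ^ 6) *
      (TT (Real.logb 2 Λ) (6 * r + 30) (64 * ((s : ℝ) * k) ^ 3 * 2 ^ r) l0 s k N1 w / k +
        3 * (3 * s * I + s) * N1 + 3 * s * (N1 + w)) <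
      ((N1 : ℝ) - 3 * I - k) * ((w : ℝ) - 9 * I)

end MP_5e4520_nt
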