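import Pool.Agent.Lib.MP_5e4520_nt.PreProb
import Pool.Agent.Lib.MP_5e4520_nt.Basic

set_option autoImplicit false

namespace MP_5e4520_nt

open Finset MeasureTheory

theorem pre_floor (M k : ℕ) (hk : k ≤ M) (x : ℝ) (hx : 0 ≤ x) :
    pre M k ⌊x * 2 ^ M⌋₊ = ⌊x * 2 ^ k⌋₊ := by
  unfold pre
  rw [← Nat.floor_div_natCast]
  congr 1
  have h : (2 : ℝ) ^ M = 2 ^ k * 2 ^ (M - k) := by
    rw [← pow_add, Nat.add_sub_cancel' hk]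
  push_cast
  rw [h, ← mul_assoc, mul_div_assoc, div_self (by positivity), mul_one]

private theorem reda_nd_add_le_abs (s t : ℝ) : nd (s + t) ≤ nd s + |t| := by
  have h := nd_le (s + t) (round s)
  refine h.trans ?_
  have : s + t - (round s : ℝ) = (s - round s) + t := by ring
  rw [this]
  exact abs_add_le _ _

private theorem reda_coord (A B q : ℕ) (x v : ℝ) (hx : 0 ≤ x) (hv : 0 ≤ v) (hq : (q : ℝ) * 2 ^ B ≤ 3 * 2 ^ A)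
    (h : nd ((q : ℝ) * ⌊x * 2 ^ A⌋₊ / 2 ^ A - ⌊v * 2 ^ B⌋₊ / 2 ^ B) < 2 / 2 ^ B) :
    nd (q * x - v) ≤ 6 / 2 ^ B := by
  have hA : (0 : ℝ) < 2 ^ A := by positivity
  have hB : (0 : ℝ) < 2 ^ B := by positivity
  have f1 : (⌊x * 2 ^ A⌋₊ : ℝ) ≤ x * 2 ^ A := Nat.floor_le (by positivity)
  have f2 : x * 2 ^ A < ⌊x * 2 ^ A⌋₊ + 1 := Nat.lt_floor_add_one _
  have g1 : (⌊v * 2 ^ B⌋₊ : ℝ) ≤ v * 2 ^ B := Nat.floor_le (by positivity)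
  have g2 : v * 2 ^ B < ⌊v * 2 ^ B⌋₊ + 1 := Nat.lt_floor_add_one _
  set α : ℝ := (⌊x * 2 ^ A⌋₊ : ℝ) with hα
  set γ : ℝ := (⌊v * 2 ^ B⌋₊ : ℝ) with hγ
  have e : (q : ℝ) * x - v = ((q : ℝ) * α / 2 ^ A - γ / 2 ^ B) +
      ((q : ℝ) * ((x * 2 ^ A - α) / 2 ^ A) - (v * 2 ^ B - γ) / 2 ^ B) := by
    field_simp
    ring
  rw [e]
  refine (reda_nd_add_le_abs _ _).trans ?_
  have hq0 : (0 : ℝ) ≤ q := Nat.cast_nonneg q
  have b1 : 0 ≤ (q : ℝ) * ((x * 2 ^ A - α) / 2 ^ A) := by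
    apply mul_nonneg hq0 (div_nonneg (by linarith) hA.le)
  have b2 : (q : ℝ) * ((x * 2 ^ A - α) / 2 ^ A) ≤ 3 / 2 ^ B := by
    have : (q : ℝ) * ((x * 2 ^ A - α) / 2 ^ A) ≤ (q : ℝ) * (1 / 2 ^ A) := by
      apply mul_le_mul_of_nonneg_left _ hq0
      apply div_le_div_of_nonneg_right (by linarith) hA.le
    refine this.trans ?_
    rw [mul_one_div, div_le_div_iff₀ hA hB]
    exact hq
  have b3 : 0 ≤ (v * 2 ^ B - γ) / 2 ^ B := div_nonneg (by linarith) hB.le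
  have b4 : (v * 2 ^ B - γ) / 2 ^ B ≤ 1 / 2 ^ B := div_le_div_of_nonneg_right (by linarith) hB.le
  have b5 : |(q : ℝ) * ((x * 2 ^ A - α) / 2 ^ A) - (v * 2 ^ B - γ) / 2 ^ B| ≤ 3 / 2 ^ B := by
    rw [abs_le]
    have : (1 : ℝ) / 2 ^ B ≤ 3 / 2 ^ B := div_le_div_of_nonneg_right (by norm_num) hB.le
    constructor <;> linarith
  have b6 : (6 : ℝ) / 2 ^ B = 2 / 2 ^ B + 3 / 2 ^ B + 1 / 2 ^ B := by
    rw [← add_div, ← add_div]; norm_num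
  have b7 : (0 : ℝ) ≤ 1 / 2 ^ B := by positivity
  linarith

/-- A hit of the truncations is a good approximation: `|x1 - α/2^a'| < 1/2^a'`, `q < 3K`, so
`nd (q x1 - v1) ≤ (2 + 1 + 3/2^r)/2^(l+u) ≤ 6/2^(l+u)`, same for the second coordinate, and
`q·36/2^(l+m+2u) ≤ 108/2^r`. -/
theorem hit_real (l m u r : ℕ) (hr : r ≤ l + m + 2 * u) (x1 x2 v1 v2 : ℝ) (hx1 : 0 ≤ x1)
    (hx2 : 0 ≤ x2) (hv1 : 0 ≤ v1) (hv2 : 0 ≤ v2)
    (h : Hit l m u r ⌊x1 * 2 ^ (2 * l + m + 3 * u)⌋₊ ⌊x2 * 2 ^ (l + 2 * m + 3 * u)⌋₊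
      ⌊v1 * 2 ^ (l + u)⌋₊ ⌊v2 * 2 ^ (m + u)⌋₊) :
    ∃ q : ℕ, 2 ^ (l + m + 2 * u - r) < q ∧ q < 3 * 2 ^ (l + m + 2 * u - r) ∧
      (q : ℝ) * nd (q * x1 - v1) * nd (q * x2 - v2) ≤ 108 / 2 ^ r := by
  obtain ⟨q, hq1, hq2, h1, h2⟩ := h
  refine ⟨q, hq1, hq2, ?_⟩
  have hqr : (q : ℝ) * 2 ^ r ≤ 3 * 2 ^ (l + m + 2 * u) := by
    have : (q : ℝ) ≤ 3 * 2 ^ (l + m + 2 * u - r) := by exact_mod_cast hq2.le
    calc (q : ℝ) * 2 ^ r ≤ (3 * 2 ^ (l + m + 2 * u - r)) * 2 ^ r :=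
          mul_le_mul_of_nonneg_right this (by positivity)
      _ = 3 * 2 ^ (l + m + 2 * u) := by
          rw [mul_assoc, ← pow_add, Nat.sub_add_cancel hr]
  have hqL : (q : ℝ) ≤ 3 * 2 ^ (l + m + 2 * u) := by
    refine le_trans ?_ hqr
    have : (1 : ℝ) ≤ 2 ^ r := one_le_pow₀ (by norm_num)
    nlinarith [(Nat.cast_nonneg q : (0 : ℝ) ≤ q)]
  have c1 : nd (q * x1 - v1) ≤ 6 / 2 ^ (l + u) := by
    refine reda_coord (2 * l + m + 3 * u) (l + u) q x1 v1 hx1 hv1 ?_ h1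
    have e : (2 : ℝ) ^ (2 * l + m + 3 * u) = 2 ^ (l + m + 2 * u) * 2 ^ (l + u) := by
      rw [← pow_add]; congr 1; ring
    rw [e, ← mul_assoc]
    exact mul_le_mul_of_nonneg_right hqL (by positivity)
  have c2 : nd (q * x2 - v2) ≤ 6 / 2 ^ (m + u) := by
    refine reda_coord (l + 2 * m + 3 * u) (m + u) q x2 v2 hx2 hv2 ?_ h2
    have e : (2 : ℝ) ^ (l + 2 * m + 3 * u) = 2 ^ (l + m + 2 * u) * 2 ^ (m + u) := by
      rw [← pow_add]; congr 1; ring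
    rw [e, ← mul_assoc]
    exact mul_le_mul_of_nonneg_right hqL (by positivity)
  have n1 : 0 ≤ nd (q * x1 - v1) := nd_nonneg _
  have n2 : 0 ≤ nd (q * x2 - v2) := nd_nonneg _
  have hq0 : (0 : ℝ) ≤ q := Nat.cast_nonneg q
  calc (q : ℝ) * nd (q * x1 - v1) * nd (q * x2 - v2)
      ≤ (q : ℝ) * (6 / 2 ^ (l + u)) * (6 / 2 ^ (m + u)) := by
        apply mul_le_mul (mul_le_mul_of_nonneg_left c1 hq0) c2 n2
        positivity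
    _ = 36 * q / 2 ^ (l + m + 2 * u) := by
        have e : (2 : ℝ) ^ (l + m + 2 * u) = 2 ^ (l + u) * 2 ^ (m + u) := by
          rw [← pow_add]; congr 1; ring
        rw [e]; field_simp; ring
    _ ≤ 108 / 2 ^ r := by
        rw [div_le_div_iff₀ (by positivity) (by positivity)]
        nlinarith

end MP_5e4520_nt
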