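import Pool.Agent.Lib.MP_5e4520_nt.RedA

set_option autoImplicit false

namespace MP_5e4520_nt

open Finset MeasureTheory

/-- bad points at one level -/
def badset (r lo hi : ℕ) : Set (ℝ × ℝ) :=
  {x | (0 ≤ x.1 ∧ x.1 < 1) ∧ (0 ≤ x.2 ∧ x.2 < 1) ∧
    ∃ v : ℝ × ℝ, (0 ≤ v.1 ∧ v.1 < 1) ∧ (0 ≤ v.2 ∧ v.2 < 1) ∧
      ∀ q : ℕ, 2 ^ lo ≤ q → q ≤ 3 * 2 ^ hi →
        108 / 2 ^ r < (q : ℝ) * nd (q * x.1 - v.1) * nd (q * x.2 - v.2)}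

private theorem redb_floor_lt (M : ℕ) (x : ℝ) (hx : 0 ≤ x) (hx1 : x < 1) : ⌊x * 2 ^ M⌋₊ < 2 ^ M := by
  rw [Nat.floor_lt (by positivity)]
  push_cast
  have : (0 : ℝ) < 2 ^ M := by positivity
  nlinarith

/-- Let `Ω` be the set of `(α,β) ∈ [2^M]²` whose dyadic square (of side `2^(-M)`) meets `badset`; choose for
each a point `x` and a shift `v`, and put `S = {(α, β, ⌊v1 2^M⌋, ⌊v2 2^M⌋)}`.  If `4^M ≤ Λ |Ω|` then `S` is a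
`Sys` (`pre_floor`, `hit_real`; for a window with `lo ≤ l, m`, `l+m+2u ≤ hi` all prefix lengths are
`≤ 2 hi ≤ M` and `2^lo ≤ 2^(l+m+2u-r) < q < 3·2^hi` as `r ≤ lo`), contradiction.  So
`volume ≤ |Ω|/4^M ≤ 1/Λ`. -/
theorem bad_small (M r Λ lo hi : ℕ) (hr : r ≤ lo) (hM : 2 * hi ≤ M) (hΛ : 1 ≤ Λ)
    (h : ∀ S : Finset Pt, ¬ Sys M r Λ lo hi S) :
    volume (badset r lo hi) ≤ ENNReal.ofReal (1 / Λ) := by
  classical
  set Ω : Finset (ℕ × ℕ) := (range (2 ^ M) ×ˢ range (2 ^ M)).filter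
    (fun ω => ∃ x ∈ badset r lo hi, ⌊x.1 * 2 ^ M⌋₊ = ω.1 ∧ ⌊x.2 * 2 ^ M⌋₊ = ω.2) with hΩ
  have hch : ∀ ω : ℕ × ℕ, ∃ xv : (ℝ × ℝ) × (ℝ × ℝ), ω ∈ Ω →
      (⌊xv.1.1 * 2 ^ M⌋₊ = ω.1 ∧ ⌊xv.1.2 * 2 ^ M⌋₊ = ω.2) ∧
      (0 ≤ xv.1.1 ∧ xv.1.1 < 1) ∧ (0 ≤ xv.1.2 ∧ xv.1.2 < 1) ∧
      (0 ≤ xv.2.1 ∧ xv.2.1 < 1) ∧ (0 ≤ xv.2.2 ∧ xv.2.2 < 1) ∧
      ∀ q : ℕ, 2 ^ lo ≤ q → q ≤ 3 * 2 ^ hi →
        108 / 2 ^ r < (q : ℝ) * nd (q * xv.1.1 - xv.2.1) * nd (q * xv.1.2 - xv.2.2) := by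
    intro ω
    by_cases hω : ω ∈ Ω
    · obtain ⟨_, x, ⟨hx1, hx2, v, hv1, hv2, hq⟩, e1, e2⟩ := Finset.mem_filter.1 hω
      exact ⟨(x, v), fun _ => ⟨⟨e1, e2⟩, hx1, hx2, hv1, hv2, hq⟩⟩
    · exact ⟨((0, 0), (0, 0)), fun h' => absurd h' hω⟩
  choose f hf using hch
  set S : Finset Pt := Ω.image (fun ω => (ω.1, ω.2, ⌊(f ω).2.1 * 2 ^ M⌋₊, ⌊(f ω).2.2 * 2 ^ M⌋₊)) with hS
  have hcardS : S.card = Ω.card := by
    apply Finset.card_image_of_injective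
    intro a b hab
    have h1 := congrArg (fun p : Pt => p.1) hab
    have h2 := congrArg (fun p : Pt => p.2.1) hab
    exact Prod.ext h1 h2
  have hlt : Λ * Ω.card < 4 ^ M := by
    by_contra hge
    push Not at hge
    refine h S ⟨?_, ?_, ?_, ?_⟩
    · intro p hp
      obtain ⟨ω, hω, rfl⟩ := Finset.mem_image.1 hp
      obtain ⟨_, _, _, hv1, hv2, _⟩ := hf ω hω
      have hm := Finset.mem_product.1 (Finset.mem_filter.1 hω).1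
      exact ⟨Finset.mem_range.1 hm.1, Finset.mem_range.1 hm.2, redb_floor_lt M _ hv1.1 hv1.2,
        redb_floor_lt M _ hv2.1 hv2.2⟩
    · intro p hp p' hp' e1 e2
      obtain ⟨ω, hω, rfl⟩ := Finset.mem_image.1 hp
      obtain ⟨ω', hω', rfl⟩ := Finset.mem_image.1 hp'
      have : ω = ω' := Prod.ext e1 e2
      rw [this]
    · rw [hcardS]; exact hge
    · intro l m u hl hm hlmu p hp hhit
      obtain ⟨ω, hω, rfl⟩ := Finset.mem_image.1 hp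
      obtain ⟨⟨e1, e2⟩, hx1, hx2, hv1, hv2, hq⟩ := hf ω hω
      simp only at hhit
      rw [← e1, ← e2, pre_floor M _ (by omega) _ hx1.1, pre_floor M _ (by omega) _ hx2.1,
        pre_floor M _ (by omega) _ hv1.1, pre_floor M _ (by omega) _ hv2.1] at hhit
      obtain ⟨q, q1, q2, q3⟩ := hit_real l m u r (by omega) _ _ _ _ hx1.1 hx2.1 hv1.1 hv2.1 hhit
      have b1 : 2 ^ lo ≤ q := by
        refine le_trans ?_ q1.le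
        exact Nat.pow_le_pow_right (by norm_num) (by omega)
      have b2 : q ≤ 3 * 2 ^ hi := by
        refine q2.le.trans (Nat.mul_le_mul_left 3 ?_)
        exact Nat.pow_le_pow_right (by norm_num) (by omega)
      exact absurd (hq q b1 b2) (not_lt.2 q3)
  -- the volume
  have hsub : badset r lo hi ⊆ ⋃ ω ∈ Ω,
      (Set.Ico ((ω.1 : ℝ) / 2 ^ M) ((ω.1 + 1) / 2 ^ M) ×ˢ Set.Ico ((ω.2 : ℝ) / 2 ^ M) ((ω.2 + 1) / 2 ^ M)) := by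
    intro x hx
    have hx' := hx
    obtain ⟨hx1, hx2, _⟩ := hx'
    have hP : (0 : ℝ) < 2 ^ M := by positivity
    have m : ((⌊x.1 * 2 ^ M⌋₊, ⌊x.2 * 2 ^ M⌋₊) : ℕ × ℕ) ∈ Ω := by
      rw [hΩ, Finset.mem_filter, Finset.mem_product]
      exact ⟨⟨Finset.mem_range.2 (redb_floor_lt M _ hx1.1 hx1.2),
        Finset.mem_range.2 (redb_floor_lt M _ hx2.1 hx2.2)⟩, x, hx, rfl, rfl⟩
    rw [Set.mem_iUnion₂]
    refine ⟨_, m, ?_, ?_⟩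
    · simp only
      constructor
      · rw [div_le_iff₀ hP]; exact Nat.floor_le (mul_nonneg hx1.1 hP.le)
      · rw [lt_div_iff₀ hP]; exact Nat.lt_floor_add_one _
    · simp only
      constructor
      · rw [div_le_iff₀ hP]; exact Nat.floor_le (mul_nonneg hx2.1 hP.le)
      · rw [lt_div_iff₀ hP]; exact Nat.lt_floor_add_one _
  have hsq : ∀ ω : ℕ × ℕ, volume (Set.Ico ((ω.1 : ℝ) / 2 ^ M) ((ω.1 + 1) / 2 ^ M) ×ˢ
      Set.Ico ((ω.2 : ℝ) / 2 ^ M) ((ω.2 + 1) / 2 ^ M)) = ENNReal.ofReal (1 / 4 ^ M) := by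
    intro ω
    rw [Measure.volume_eq_prod, Measure.prod_prod, Real.volume_Ico, Real.volume_Ico, ← sub_div, ← sub_div,
      add_sub_cancel_left, add_sub_cancel_left, ← ENNReal.ofReal_mul (by positivity)]
    congr 1
    rw [show (4 : ℝ) = 2 * 2 by norm_num, mul_pow]
    field_simp
  calc volume (badset r lo hi) ≤ volume (⋃ ω ∈ Ω,
      (Set.Ico ((ω.1 : ℝ) / 2 ^ M) ((ω.1 + 1) / 2 ^ M) ×ˢ Set.Ico ((ω.2 : ℝ) / 2 ^ M) ((ω.2 + 1) / 2 ^ M))) :=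
        measure_mono hsub
    _ ≤ ∑ ω ∈ Ω, volume (Set.Ico ((ω.1 : ℝ) / 2 ^ M) ((ω.1 + 1) / 2 ^ M) ×ˢ
          Set.Ico ((ω.2 : ℝ) / 2 ^ M) ((ω.2 + 1) / 2 ^ M)) := measure_biUnion_finset_le _ _
    _ = ∑ ω ∈ Ω, ENNReal.ofReal (1 / 4 ^ M) := Finset.sum_congr rfl (fun ω _ => hsq ω)
    _ = ENNReal.ofReal (Ω.card * (1 / 4 ^ M)) := by
        rw [Finset.sum_const, nsmul_eq_mul, ENNReal.ofReal_mul (Nat.cast_nonneg _), ENNReal.ofReal_natCast]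
    _ ≤ ENNReal.ofReal (1 / Λ) := by
        apply ENNReal.ofReal_le_ofReal
        have hΛ0 : (0 : ℝ) < Λ := by exact_mod_cast hΛ
        rw [mul_one_div, div_le_div_iff₀ (by positivity) hΛ0, one_mul, mul_comm]
        exact_mod_cast hlt.le

end MP_5e4520_nt
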