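import Pool.Agent.Lib.MP_5e4520_nt.LGD
import Pool.Agent.Lib.MP_5e4520_nt.GcdS
import Pool.Agent.Lib.MP_5e4520_nt.WWS

set_option autoImplicit false

namespace MP_5e4520_nt

open Finset

/-- the count of `α0` (or `β0`) for the width `4 κ + d / N` is at most `11` -/
theorem u1m_cnt (a k d p : ℕ) (hk : k ≤ a) (hd : 2 ^ (a - k) < d) :
    ((((range (2 ^ a)).filter (fun x : ℕ =>
      |(d : ℝ) * x / 2 ^ a - p| ≤ 4 / 2 ^ k + d / 2 ^ a)).card : ℕ) : ℝ) ≤ 11 := by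
  classical
  have hd0 : 0 < d := lt_of_le_of_lt (Nat.zero_le _) hd
  have h := cnt_int a d p hd0 (4 / 2 ^ k + d / 2 ^ a) (by positivity)
  have hcard : ((((range (2 ^ a)).filter (fun x : ℕ =>
      |(d : ℝ) * x / 2 ^ a - p| ≤ 4 / 2 ^ k + d / 2 ^ a)).card : ℕ) : ℝ) ≤
      2 * 2 ^ a * (4 / 2 ^ k + d / 2 ^ a) / d + 1 := by
    convert h
  refine hcard.trans ?_
  have hdR : (0 : ℝ) < d := by exact_mod_cast hd0
  have h1 : (2 : ℝ) ^ a = 2 ^ (a - k) * 2 ^ k := by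
    rw [← pow_add]
    congr 1
    omega
  have h2 : (2 : ℝ) ^ (a - k) < d := by exact_mod_cast hd
  have h3 : 2 * 2 ^ a * (4 / 2 ^ k + (d : ℝ) / 2 ^ a) / d = 8 * 2 ^ (a - k) / d + 2 := by
    rw [h1]
    field_simp
    ring
  rw [h3]
  have h4 : 8 * (2 : ℝ) ^ (a - k) / d ≤ 8 := by
    rw [div_le_iff₀ hdR]
    linarith
  linarith

/-- the double sum over `q` and `d` -/
theorem u1m_double (D : ℕ) (P R : ℝ) (hP : 0 ≤ P) (hR : 0 ≤ R) :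
    ∑ d ∈ Ico 1 D, ∑ q ∈ Ico 1 D, (2 * P + (Nat.gcd q d : ℝ)) * (2 * R + (Nat.gcd q d : ℝ)) ≤
      4 * P * R * (D : ℝ) ^ 2 + 2 * (P + R) * ((D : ℝ) ^ 2 * (1 + Nat.log 2 D)) + (D : ℝ) ^ 3 := by
  have h1 : ∑ d ∈ Ico 1 D, ∑ q ∈ Ico 1 D,
      (2 * P + (Nat.gcd q d : ℝ)) * (2 * R + (Nat.gcd q d : ℝ)) =
      (∑ d ∈ Ico 1 D, ∑ q ∈ Ico 1 D, 4 * P * R) +
      2 * (P + R) * (∑ d ∈ Ico 1 D, ∑ q ∈ Ico 1 D, (Nat.gcd q d : ℝ)) +
      ∑ d ∈ Ico 1 D, ∑ q ∈ Ico 1 D, (Nat.gcd q d : ℝ) ^ 2 := by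
    rw [Finset.mul_sum, ← Finset.sum_add_distrib, ← Finset.sum_add_distrib]
    refine Finset.sum_congr rfl fun d _ => ?_
    rw [Finset.mul_sum, ← Finset.sum_add_distrib, ← Finset.sum_add_distrib]
    refine Finset.sum_congr rfl fun q _ => ?_
    ring
  rw [h1]
  have h2 : (∑ d ∈ Ico 1 D, ∑ q ∈ Ico 1 D, 4 * P * R) ≤ 4 * P * R * (D : ℝ) ^ 2 := by
    rw [Finset.sum_const, Finset.sum_const, Nat.card_Ico, nsmul_eq_mul, nsmul_eq_mul]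
    have h3 : ((D - 1 : ℕ) : ℝ) ≤ D := by exact_mod_cast Nat.sub_le D 1
    have h4 : (0 : ℝ) ≤ ((D - 1 : ℕ) : ℝ) := Nat.cast_nonneg _
    have h5 : ((D - 1 : ℕ) : ℝ) * ((D - 1 : ℕ) : ℝ) ≤ D * D := mul_le_mul h3 h3 h4 (h4.trans h3)
    have h6 : 0 ≤ 4 * P * R := by positivity
    nlinarith
  have h3 := mul_le_mul_of_nonneg_left (gcd_sum1 D) (by positivity : 0 ≤ 2 * (P + R))
  have h4 := gcd_sum2 D
  linarith

/-- `D = 2K`.  `nx = ny = 11` (`cnt_int`: `2·2^a(4κ1+d/2^a)/d + 1 = 8K'/d + 3 ≤ 11` as `d > K'`,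
`2^a κ1 = K'`).  By `UU_mean`, `WW_sum` the sum is
`≤ 121·4·∑_{d<D} [(2P1+d)(2R1+d) + 2∑_{1≤q<D} (4P1R1 + 2(P1+R1) g + g²)]`.  `P1 = 16 D/2^(l+s)`,
`R1 = 16D/2^(m+s)`, so `2P1, 2R1 ≤ D/4`, `4P1R1 = 2048 D/2^r ≤ D/2`,
`2(P1+R1)(1+log2 D) ≤ D/2` (`hlog`, `D = 2^(l+m+2s-r+1)`); `gcd_sum1`, `gcd_sum2`:
total `≤ 484 (25/16 + 2(1/2+1/2+1)) D³ ≤ 2693·8 K³ ≤ 2^15 K³`, `K³ = 2^(a+b) 2^(6s)/2^(3r)`. -/
theorem U1_mean (l m s r : ℕ) (hP : ParS l m s r) (hlog : 2 ^ 7 * (l + m + 2 * s + 2) ≤ 2 ^ s) :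
    ∑ α0 ∈ range (2 ^ (2 * l + m)), ∑ β0 ∈ range (2 ^ (l + 2 * m)), (U1 l m s r α0 β0 : ℝ) ≤
      2 ^ 15 * 2 ^ (6 * s) / 2 ^ (3 * r) * 2 ^ (2 * l + m) * 2 ^ (l + 2 * m) := by
  obtain ⟨hr12, hrs, hsl, hsm⟩ := hP
  obtain ⟨t, rfl⟩ : ∃ t, s = r + t := ⟨s - r, by omega⟩
  have hmean := UU_mean l m (r + t) r (32 * 2 ^ (m + (r + t) - r)) (32 * 2 ^ (l + (r + t) - r))
    (fun d => 4 / 2 ^ (l + (r + t)) + d / 2 ^ (2 * l + m))
    (fun d => 4 / 2 ^ (m + (r + t)) + d / 2 ^ (l + 2 * m)) (fun _ => 11) (fun _ => 11)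
    (fun d hd p _ => by
      rw [Finset.mem_Ioo] at hd
      have h1 : 2 * l + m - (l + (r + t)) = l + m - (r + t) := by omega
      exact u1m_cnt (2 * l + m) (l + (r + t)) d p (by omega) (by rw [h1]; exact hd.1))
    (fun d hd p _ => by
      rw [Finset.mem_Ioo] at hd
      have h1 : l + 2 * m - (m + (r + t)) = l + m - (r + t) := by omega
      exact u1m_cnt (l + 2 * m) (m + (r + t)) d p (by omega) (by rw [h1]; exact hd.1))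
  have hU : ∀ α0 β0 : ℕ, U1 l m (r + t) r α0 β0 = UU l m (r + t) r
    (32 * 2 ^ (m + (r + t) - r)) (32 * 2 ^ (l + (r + t) - r))
    (fun d => 4 / 2 ^ (l + (r + t)) + d / 2 ^ (2 * l + m))
    (fun d => 4 / 2 ^ (m + (r + t)) + d / 2 ^ (l + 2 * m)) α0 β0 := fun _ _ => rfl
  simp only [hU]
  refine hmean.trans ?_
  -- exponents
  have e1 : m + (r + t) - r = m + t := by omega
  have e2 : l + (r + t) - r = l + t := by omega
  have e3 : l + m + 2 * (r + t) - r = l + m + (r + t) + t := by omega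
  rw [e1, e2, e3]
  set x : ℝ := 2 ^ l with hx
  set y : ℝ := 2 ^ m with hy
  set ρ : ℝ := 2 ^ r with hρ
  set T : ℝ := 2 ^ t with hT
  have hx1 : 1 ≤ x := one_le_pow₀ (by norm_num)
  have hy1 : 1 ≤ y := one_le_pow₀ (by norm_num)
  have hT1 : 1 ≤ T := one_le_pow₀ (by norm_num)
  have hρ12 : 4096 ≤ ρ := by
    have : (2 : ℝ) ^ 12 ≤ 2 ^ r := pow_le_pow_right₀ (by norm_num) hr12
    norm_num at this
    exact this
  set D : ℕ := 2 * 2 ^ (l + m + (r + t) + t) with hD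
  set P : ℕ := 32 * 2 ^ (m + t) with hPd
  set R : ℕ := 32 * 2 ^ (l + t) with hRd
  have hDR : (D : ℝ) = 2 * (x * y * (ρ * T) * T) := by
    rw [hD]; push_cast; rw [pow_add, pow_add, pow_add, pow_add]
  have hPR : (P : ℝ) = 32 * (y * T) := by
    rw [hPd]; push_cast; rw [pow_add]
  have hRR : (R : ℝ) = 32 * (x * T) := by
    rw [hRd]; push_cast; rw [pow_add]
  -- pointwise bound
  have hpt : ∀ d ∈ Ioo (2 ^ (l + m - (r + t))) D, (11 : ℝ) * 11 *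
      ((∑ p ∈ range (d + 1), ∑ p' ∈ range (d + 1), WW D P R d p p' : ℕ) : ℝ) ≤
      484 * ((2 * P + D) * (2 * R + D)) + 968 *
        ∑ q ∈ Ico 1 D, (2 * (P : ℝ) + (Nat.gcd q d : ℝ)) * (2 * R + (Nat.gcd q d : ℝ)) := by
    intro d hd
    rw [Finset.mem_Ioo] at hd
    have hd0 : 0 < d := lt_of_le_of_lt (Nat.zero_le _) hd.1
    have h1 := WW_sum D P R d hd0
    have h2 : ((∑ p ∈ range (d + 1), ∑ p' ∈ range (d + 1), WW D P R d p p' : ℕ) : ℝ) ≤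
        4 * ((2 * P + d) * (2 * R + d) +
        2 * ∑ q ∈ Ico 1 D, (2 * (P : ℝ) + (Nat.gcd q d : ℝ)) * (2 * R + (Nat.gcd q d : ℝ))) := by
      have h3 : ((∑ p ∈ range (d + 1), ∑ p' ∈ range (d + 1), WW D P R d p p' : ℕ) : ℝ) ≤
        ((4 * ((2 * P + d) * (2 * R + d) +
        2 * ∑ q ∈ Ico 1 D, (2 * P + Nat.gcd q d) * (2 * R + Nat.gcd q d)) : ℕ) : ℝ) := by
        exact_mod_cast h1
      refine h3.trans (le_of_eq ?_)
      push_cast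
      rfl
    have h4 : (d : ℝ) ≤ D := by exact_mod_cast hd.2.le
    have h5 : (2 * (P : ℝ) + d) * (2 * R + d) ≤ (2 * P + D) * (2 * R + D) := by
      gcongr
    linarith
  refine (Finset.sum_le_sum hpt).trans ?_
  have hsub : Ioo (2 ^ (l + m - (r + t))) D ⊆ Ico 1 D := by
    intro d hd
    rw [Finset.mem_Ioo] at hd
    rw [Finset.mem_Ico]
    exact ⟨lt_of_le_of_lt (Nat.zero_le _) hd.1, hd.2⟩
  refine (Finset.sum_le_sum_of_subset_of_nonneg hsub (fun d _ _ => by positivity)).trans ?_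
  rw [Finset.sum_add_distrib, Finset.sum_const, Nat.card_Ico, nsmul_eq_mul, ← Finset.mul_sum]
  have hdouble := u1m_double D (P : ℝ) (R : ℝ) (Nat.cast_nonneg _) (Nat.cast_nonneg _)
  have hlogD : 1 + (Nat.log 2 D : ℝ) ≤ ρ * T / 128 := by
    have h1 : Nat.log 2 D = l + m + (r + t) + t + 1 := by
      rw [hD, ← pow_succ', Nat.log_pow (by norm_num)]
    have h2 : ((2 ^ 7 * (l + m + 2 * (r + t) + 2) : ℕ) : ℝ) ≤ ((2 ^ (r + t) : ℕ) : ℝ) := by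
      exact_mod_cast hlog
    rw [h1]
    push_cast at h2 ⊢
    rw [pow_add, ← hρ, ← hT] at h2
    have h3 : (0 : ℝ) ≤ r := Nat.cast_nonneg _
    linarith
  have hD1 : ((D - 1 : ℕ) : ℝ) ≤ D := by exact_mod_cast Nat.sub_le D 1
  have hDpos : (0 : ℝ) ≤ D := Nat.cast_nonneg _
  -- the four inequalities
  have hw : 1 ≤ ρ * T := by nlinarith
  have i1 : 2 * (P : ℝ) ≤ D / 4 := by
    rw [hPR, hDR]
    have h1 : 128 * (y * T) ≤ x * (ρ * T) * (y * T) :=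
      mul_le_mul_of_nonneg_right (by nlinarith) (by positivity)
    nlinarith
  have i2 : 2 * (R : ℝ) ≤ D / 4 := by
    rw [hRR, hDR]
    have h1 : 128 * (x * T) ≤ y * (ρ * T) * (x * T) :=
      mul_le_mul_of_nonneg_right (by nlinarith) (by positivity)
    nlinarith
  have i3 : 4 * (P : ℝ) * R ≤ D / 2 := by
    rw [hPR, hRR, hDR]
    have h1 : 4096 * (x * y * T * T) ≤ ρ * (x * y * T * T) :=
      mul_le_mul_of_nonneg_right hρ12 (by positivity)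
    nlinarith
  have i4 : 2 * ((P : ℝ) + R) * (1 + Nat.log 2 D) ≤ D / 2 := by
    have h0 : 2 * ((P : ℝ) + R) * (1 + Nat.log 2 D) ≤ 2 * ((P : ℝ) + R) * (ρ * T / 128) :=
      mul_le_mul_of_nonneg_left hlogD (by positivity)
    refine h0.trans ?_
    rw [hPR, hRR, hDR]
    have h1 : (x + y) * (ρ * T * T) ≤ 2 * (x * y) * (ρ * T * T) :=
      mul_le_mul_of_nonneg_right (by nlinarith) (by positivity)
    nlinarith
  have j1 : ((D - 1 : ℕ) : ℝ) * (484 * ((2 * P + D) * (2 * R + D))) ≤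
      484 * (25 / 16) * (D : ℝ) ^ 3 := by
    have h1 : (2 * (P : ℝ) + D) * (2 * R + D) ≤ (5 / 4 * D) * (5 / 4 * D) :=
      mul_le_mul (by linarith) (by linarith) (by positivity) (by positivity)
    calc ((D - 1 : ℕ) : ℝ) * (484 * ((2 * P + D) * (2 * R + D))) ≤
        D * (484 * ((5 / 4 * D) * (5 / 4 * D))) :=
          mul_le_mul hD1 (by linarith) (by positivity) hDpos
      _ = 484 * (25 / 16) * (D : ℝ) ^ 3 := by ring
  have j2 : 4 * (P : ℝ) * R * (D : ℝ) ^ 2 ≤ (D : ℝ) ^ 3 / 2 := by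
    have h1 := mul_le_mul_of_nonneg_right i3 (by positivity : (0 : ℝ) ≤ (D : ℝ) ^ 2)
    calc 4 * (P : ℝ) * R * (D : ℝ) ^ 2 ≤ D / 2 * (D : ℝ) ^ 2 := h1
      _ = (D : ℝ) ^ 3 / 2 := by ring
  have j3 : 2 * ((P : ℝ) + R) * ((D : ℝ) ^ 2 * (1 + Nat.log 2 D)) ≤ (D : ℝ) ^ 3 / 2 := by
    have h1 := mul_le_mul_of_nonneg_right i4 (by positivity : (0 : ℝ) ≤ (D : ℝ) ^ 2)
    calc 2 * ((P : ℝ) + R) * ((D : ℝ) ^ 2 * (1 + Nat.log 2 D)) =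
        2 * ((P : ℝ) + R) * (1 + Nat.log 2 D) * (D : ℝ) ^ 2 := by ring
      _ ≤ D / 2 * (D : ℝ) ^ 2 := h1
      _ = (D : ℝ) ^ 3 / 2 := by ring
  have htot : (2 : ℝ) ^ 15 * 2 ^ (6 * (r + t)) / 2 ^ (3 * r) * 2 ^ (2 * l + m) * 2 ^ (l + 2 * m) =
      2 ^ 12 * (D : ℝ) ^ 3 := by
    have h1 : (2 : ℝ) ^ (6 * (r + t)) = (ρ * T) ^ 6 := by
      rw [mul_comm 6, pow_mul, pow_add]
    have h2 : (2 : ℝ) ^ (3 * r) = ρ ^ 3 := by rw [mul_comm 3, pow_mul]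
    have h3 : (2 : ℝ) ^ (2 * l + m) = x ^ 2 * y := by rw [pow_add, mul_comm 2, pow_mul]
    have h4 : (2 : ℝ) ^ (l + 2 * m) = x * y ^ 2 := by rw [pow_add, mul_comm 2, pow_mul]
    have hρ0 : ρ ≠ 0 := by positivity
    rw [h1, h2, h3, h4, hDR]
    field_simp
  rw [htot]
  have hD3 : (0 : ℝ) ≤ (D : ℝ) ^ 3 := by positivity
  linarith

end MP_5e4520_nt
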