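import Pool.Agent.Lib.MP_5e4520_nt.PreProb

set_option autoImplicit false

namespace MP_5e4520_nt

open Finset

open Classical in
/-- the set of blocks `A` hit by one of the first `p` windows of the row -/
noncomputable def Uset (M l m s r p : ℕ) (x : Pt) : Finset ℕ :=
  (range (2 ^ (3 * s))).filter (fun A => ∃ j < p, Hit (l - 3 * s * j) (m + 6 * s * j) s r
    (pre M (2 * l + m) x.1 * 2 ^ (3 * s) + A) (pre M (l + 2 * m + 9 * s * j + 3 * s) x.2.1)
    (pre M (l - 3 * s * j + s) x.2.2.1) (pre M (m + 6 * s * j + s) x.2.2.2))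

/-- `U_p` is determined by the prefixes `(a, b_p, l+s, m+6sp)` -/
theorem Uset_congr (M l m s r p : ℕ) (x y : Pt)
    (h : px M (2 * l + m) (l + 2 * m + 9 * s * p) (l + s) (m + 6 * s * p) x =
      px M (2 * l + m) (l + 2 * m + 9 * s * p) (l + s) (m + 6 * s * p) y) :
    Uset M l m s r p x = Uset M l m s r p y := by
  classical
  simp only [px, Prod.mk.injEq] at h
  obtain ⟨h1, h2, h3, h4⟩ := h
  unfold Uset
  apply filter_congr
  intro A _
  have key : ∀ j < p, (Hit (l - 3 * s * j) (m + 6 * s * j) s r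
    (pre M (2 * l + m) x.1 * 2 ^ (3 * s) + A) (pre M (l + 2 * m + 9 * s * j + 3 * s) x.2.1)
    (pre M (l - 3 * s * j + s) x.2.2.1) (pre M (m + 6 * s * j + s) x.2.2.2) ↔
    Hit (l - 3 * s * j) (m + 6 * s * j) s r
    (pre M (2 * l + m) y.1 * 2 ^ (3 * s) + A) (pre M (l + 2 * m + 9 * s * j + 3 * s) y.2.1)
    (pre M (l - 3 * s * j + s) y.2.2.1) (pre M (m + 6 * s * j + s) y.2.2.2)) := by
    intro j hj
    have k1 : s * (j + 1) ≤ s * p := Nat.mul_le_mul_left s hj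
    have e2 : pre M (l + 2 * m + 9 * s * j + 3 * s) x.2.1 =
        pre M (l + 2 * m + 9 * s * j + 3 * s) y.2.1 := by
      refine pre_mono M _ _ _ _ ?_ h2
      nlinarith
    have e3 : pre M (l - 3 * s * j + s) x.2.2.1 = pre M (l - 3 * s * j + s) y.2.2.1 := by
      refine pre_mono M _ _ _ _ ?_ h3
      omega
    have e4 : pre M (m + 6 * s * j + s) x.2.2.2 = pre M (m + 6 * s * j + s) y.2.2.2 := by
      refine pre_mono M _ _ _ _ ?_ h4
      nlinarith
    rw [h1, e2, e3, e4]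
  constructor
  · rintro ⟨j, hj, hh⟩
    exact ⟨j, hj, (key j hj).1 hh⟩
  · rintro ⟨j, hj, hh⟩
    exact ⟨j, hj, (key j hj).2 hh⟩

/-- `U_p ⊆ U_{p+1} ⊆ [2^(3s)]` -/
theorem Uset_mono (M l m s r p : ℕ) (x : Pt) : Uset M l m s r p x ⊆ Uset M l m s r (p + 1) x := by
  classical
  intro A hA
  unfold Uset at *
  rw [mem_filter] at hA ⊢
  obtain ⟨h1, j, hj, hh⟩ := hA
  exact ⟨h1, j, by omega, hh⟩

/-- the true block is never hit (`nohit` for the window `t_j`; `2(l-3sj)+(m+6sj) = a`,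
`(l-3sj)+2(m+6sj)+3s = b_j + 3s`, and `pre M (a+3s) α = pre M a α * 2^(3s) + block`) -/
theorem Uset_true {M r Λ lo hi : ℕ} {S : Finset Pt} (hS : Sys M r Λ lo hi S) (l m s I : ℕ)
    (hl : 3 * s * I + lo ≤ l) (hm : lo ≤ m) (hhi : l + m + 3 * s * I + 2 * s ≤ hi) (hM : 2 * hi ≤ M)
    (x : Pt) (hx : x ∈ S) :
    pre M (2 * l + m + 3 * s) x.1 % 2 ^ (3 * s) ∉ Uset M l m s r I x := by
  classical
  intro hmem
  unfold Uset at hmem
  rw [mem_filter] at hmem
  obtain ⟨-, j, hj, hh⟩ := hmem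
  have k1 : 3 * s * (j + 1) ≤ 3 * s * I := Nat.mul_le_mul_left _ hj
  have k2 : 3 * s * (j + 1) = 3 * s * j + 3 * s := by ring
  have k3 : 6 * s * j = 2 * (3 * s * j) := by ring
  have k4 : 9 * s * j = 3 * (3 * s * j) := by ring
  have hsp : pre M (2 * l + m) x.1 * 2 ^ (3 * s) + pre M (2 * l + m + 3 * s) x.1 % 2 ^ (3 * s) =
      pre M (2 * l + m + 3 * s) x.1 := (pre_split M (2 * l + m) (3 * s) x.1 (by omega)).symm
  rw [hsp] at hh
  have h0 := hS.nohit (l - 3 * s * j) (m + 6 * s * j) s (by omega) (by omega) (by omega) x hx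
  apply h0
  have e1 : 2 * (l - 3 * s * j) + (m + 6 * s * j) + 3 * s = 2 * l + m + 3 * s := by omega
  have e2 : (l - 3 * s * j) + 2 * (m + 6 * s * j) + 3 * s = l + 2 * m + 9 * s * j + 3 * s := by
    omega
  rw [e1, e2]
  exact hh

end MP_5e4520_nt
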